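import Pool.Agent.Helper23_Refl.KEnum

/-!
# Kernel functions: walks along the edges of a chamber
-/

namespace Pool.Agent.Refl.K

noncomputable section

/-- a vertex: three roots -/
structure Vx where
  a : I4
  b : I4
  c : I4

/-- a matrix, by its columns -/
structure I16 where
  c0 : I4
  c1 : I4
  c2 : I4
  c3 : I4

def zI4 : I4 := I4.mk 0 0 0 0

/-- image of a vector -/
def apI (g : I16) (v : I4) : I4 :=
  addI (addI (smul v.x g.c0) (smul v.y g.c1)) (addI (smul v.z g.c2) (smul v.w g.c3))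

def mulM (g h : I16) : I16 := I16.mk (apI g h.c0) (apI g h.c1) (apI g h.c2) (apI g h.c3)

def trM (g : I16) : Int := Int.add (Int.add g.c0.x g.c1.y) (Int.add g.c2.z g.c3.w)

/-- evaluate an integer -/
def fcI {α : Type} (x : Int) (f : Int → α) : α :=
  Int.rec (fun n => fc n fun n => f (Int.ofNat n)) (fun n => fc n fun n => f (Int.negSucc n)) x

def fc4 {α : Type} (v : I4) (f : I4 → α) : α :=
  fcI v.x fun x => fcI v.y fun y => fcI v.z fun z => fcI v.w fun w => f (I4.mk x y z w)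

/-- evaluate a matrix -/
def fc16 {α : Type} (g : I16) (f : I16 → α) : α :=
  fc4 g.c0 fun a => fc4 g.c1 fun b => fc4 g.c2 fun c => fc4 g.c3 fun d => f (I16.mk a b c d)

/-- read a vector with entries of `w` bits -/
def rdI (w s : Nat) (f : I4 → Nat → Nat) : Nat :=
  rd4 w s fun z0 z1 z2 z3 s => fc (Nat.div (Nat.pow 2 w) 2) fun t =>
    fc4 (I4.mk (sg t z0) (sg t z1) (sg t z2) (sg t z3)) fun v => f v s

/-- `X = e * A ^ (-1)` -/
def invC (A X : I10) (e : Nat) : Bool :=
  ands (ands (eqI (mulI A (I4.mk X.a00 X.a01 X.a02 X.a03)) (I4.mk (Int.ofNat e) 0 0 0))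
    (eqI (mulI A (I4.mk X.a01 X.a11 X.a12 X.a13)) (I4.mk 0 (Int.ofNat e) 0 0)))
    (ands (eqI (mulI A (I4.mk X.a02 X.a12 X.a22 X.a23)) (I4.mk 0 0 (Int.ofNat e) 0))
    (eqI (mulI A (I4.mk X.a03 X.a13 X.a23 X.a33)) (I4.mk 0 0 0 (Int.ofNat e))))

/-- all elements of a list satisfy `f` -/
def allL (f : Nat → Bool) (l : List Nat) : Bool := List.rec true (fun a _ ih => Bool.rec false ih (f a)) l

def linI (x y z : Int) (a b c : I4) : I4 := addI (addI (smul x a) (smul y b)) (smul z c)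

/-- the vector `num / d` is not a root, or it is `c` -/
def noR (A : I10) (num : I4) (d : Nat) (c : I4) : Bool :=
  Bool.rec true
    ((fun r : I4 => orb (eqI r c) (notb (isR A r)))
      (I4.mk (divI num.x d) (divI num.y d) (divI num.z d) (divI num.w d)))
    (ands (ands (dvdI d num.x) (dvdI d num.y)) (ands (dvdI d num.z) (dvdI d num.w)))

def isub (a b : Nat) : Int := Int.subNatNat a b
def imul (k : Nat) (x : Int) : Int := Int.mul (Int.ofNat k) x

/-- no root in the plane of `a, b` between them -/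
def st1 (E : Ed) : Bool :=
  allL (fun u => allL (fun v =>
    fc (Nat.sub (Nat.mul E.Kb u) (Nat.mul E.p v)) fun x => fc (Nat.sub (Nat.mul E.Ka v) (Nat.mul E.p u)) fun y =>
    fc (Nat.sub (Nat.add (Nat.mul (Nat.mul E.Kb u) u) (Nat.mul (Nat.mul E.Ka v) v))
      (Nat.mul (Nat.mul 2 E.p) (Nat.mul u v))) fun val =>
    Bool.rec true
      (fc (Nat.div (Nat.mul 4 E.A33) val) fun k =>
        noR E.A (addI (smul (Int.ofNat (Nat.mul k x)) E.a) (smul (Int.neg (Int.ofNat (Nat.mul k y))) E.b))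
          (Nat.mul 2 E.A33) zI4)
      (ands (ands (Nat.ble 1 x) (Nat.ble 1 y)) (Nat.beq (Nat.mod (Nat.mul 4 E.A33) val) 0)))
    [1, 2, 3]) [1, 2, 3]

/-- no root through the vertex in front of `c` -/
def st2 (E : Ed) : Bool :=
  allL (fun u => allL (fun v => allL (fun w =>
    fc (Nat.sub (Nat.add (Nat.add (Nat.mul (Nat.mul E.A11 u) u) (Nat.mul (Nat.mul E.A22 v) v))
      (Nat.add (Nat.mul (Nat.mul E.A33 w) w) (Nat.mul (Nat.mul (Nat.mul 2 E.A12) u) v)))
      (Nat.mul 2 (Nat.add (Nat.mul (Nat.mul E.A13 u) w) (Nat.mul (Nat.mul E.A23 v) w)))) fun val =>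
    Bool.rec true
      (fc (Nat.div (Nat.mul 4 E.De) val) fun k =>
        noR E.A (linI
          (imul k (isub (Nat.mul E.A13 w) (Nat.add (Nat.mul E.A11 u) (Nat.mul E.A12 v))))
          (imul k (isub (Nat.mul E.A23 w) (Nat.add (Nat.mul E.A12 u) (Nat.mul E.A22 v))))
          (imul k (isub (Nat.mul E.A33 w) (Nat.add (Nat.mul E.A13 u) (Nat.mul E.A23 v)))) E.a E.b E.c)
          (Nat.mul 2 E.De) E.c)
      (ands (ands (Nat.beq (Nat.mod (Nat.mul 4 E.De) val) 0)
        (Nat.blt (Nat.add (Nat.mul E.A13 u) (Nat.mul E.A23 v)) (Nat.mul E.A33 w)))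
        (orb (Nat.blt (Nat.mul E.A13 w) (Nat.add (Nat.mul E.A11 u) (Nat.mul E.A12 v)))
          (Nat.blt (Nat.mul E.A23 w) (Nat.add (Nat.mul E.A12 u) (Nat.mul E.A22 v))))))
    [1, 2, 3]) [0, 1, 2, 3]) [0, 1, 2, 3]

/-- `(u, v) ≤ 0` -/
def npos (A : I10) (u v : I4) : Bool := notb (posI (dotI u (mulI A v)))

/-- `a, b, c` are the roots of a vertex of a chamber -/
def startC (A : I10) (a b c : I4) : Bool :=
  ands (ands (ands (isR A a) (isR A b)) (ands (isR A c) (npos A a b)))
    (ands (ands (npos A a c) (npos A b c))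
      (mkEd A a b c (fun v => v) fun E =>
        ands (ands (Nat.ble 1 E.A33) (Nat.ble 1 E.De)) (ands (st1 E) (st2 E))))

/-- the next facet along the edge `(a, b)`, leaving `c`, is `r1` -/
def vsE (E : Ed) (r1 : I4) (ml : List Nat) (K1 X1 Y1 Z1 m1 : Nat) : Bool :=
  fc (Nat.add (Nat.mul E.A33 Z1) (Nat.add (Nat.mul E.A13 X1) (Nat.mul E.A23 Y1))) fun c1 =>
  fc (omg E K1 X1 Y1) fun om1 => fc (Nat.mul c1 c1) fun cc =>
  fc (Nat.add (Nat.mul E.Kb X1) (Nat.mul E.p Y1)) fun u1 =>
  fc (Nat.add (Nat.mul E.Ka Y1) (Nat.mul E.p X1)) fun v1 =>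
  ands (ands (Nat.ble 1 c1) (Nat.ble 1 om1))
    (dvl (fun K => opt K E.Ka fun X _ => opt K E.Kb fun Y _ => fc (omg E K X Y) fun om =>
      Nat.rec true (fun _ _ => fc (Nat.add (Nat.mul E.A13 X) (Nat.mul E.A23 Y)) fun B0 =>
        fc (sqK (Nat.div (Nat.mul cc om) om1)) fun cm =>
        Bool.rec true
          (fc (stp K E.Kc) fun st =>
            fam E K X Y st (Nat.succ (Nat.div (Nat.sub cm B0) (Nat.mul E.A33 st))) (fun Z m r =>
              orb (eqI r r1) (fc (Nat.add (Nat.mul E.A33 Z) B0) fun c =>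
                ands (Nat.beq (Nat.mul (Nat.mul c c) om1) (Nat.mul cc om))
                  (orb (Nat.blt (Nat.mul m1 (Nat.add (Nat.mul E.Kb X) (Nat.mul E.p Y))) (Nat.mul m u1))
                    (Nat.blt (Nat.mul m1 (Nat.add (Nat.mul E.Ka Y) (Nat.mul E.p X))) (Nat.mul m v1))))))
          (Nat.ble B0 cm)) om) ml 1)

def vsC (A : I10) (a b c r1 : I4) (ml : List Nat) : Bool :=
  ands (ands (isR A r1) (npos A a r1)) (ands (ands (npos A b r1) (npos A c r1))
    (ands (posI (det4 a b c r1))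
      ((fun u : I4 => nabb (dotI r1 u) fun K1 => nabb (dotI a u) fun X1 => nabb (dotI b u) fun Y1 =>
        nabb (dotI c u) fun Z1 => nabb (det4 a b c r1) fun m1 =>
          mkEd A a b c negI fun E => vsE E r1 ml K1 X1 Y1 Z1 m1) (mulI A r1))))

/-- element of a list of vertices -/
def getV (l : List Vx) : Nat → Vx :=
  List.rec (fun _ => Vx.mk zI4 zI4 zI4) (fun a _ ih i => Nat.rec a (fun m _ => ih m) i) l

/-- rotations and other permutations -/
def perV (k : Nat) (v : Vx) : Vx :=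
  Nat.rec v (fun k _ => Nat.rec (Vx.mk v.b v.c v.a) (fun k _ => Nat.rec (Vx.mk v.c v.a v.b) (fun k _ =>
    Nat.rec (Vx.mk v.b v.a v.c) (fun k _ => Nat.rec (Vx.mk v.a v.c v.b) (fun _ _ => Vx.mk v.c v.b v.a)
    k) k) k) k) k

/-- the steps of the walk: index of the vertex (8 bits), rotation (2 bits), width (6 bits), the root -/
def wlk (A : I10) (ml : List Nat) (k : Nat) : (List Vx → Nat → Nat) → List Vx → Nat → Nat :=
  Nat.rec (fun K l s => K l s) (fun _ ih K l s =>
    fc (Nat.mod s 65536) fun h => fc (Nat.mod (Nat.div h 256) 4) fun rot =>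
    rdI (Nat.div h 1024) (Nat.div s 65536) fun r1 s =>
    (fun v : Vx => Bool.rec 0 (ih K (List.cons (Vx.mk v.b v.a r1) l) s)
      (ands (Nat.blt (Nat.mod h 256) (List.rec 0 (fun _ _ n => Nat.succ n) l))
        (ands (Nat.blt rot 3) (vsC A v.a v.b v.c r1 ml)))) (perV rot (getV l (Nat.mod h 256)))) k

/-- read ten numbers of `w` bits -/
def rd10 (w s : Nat) (f : I10 → Nat → Nat) : Nat :=
  fc (Nat.pow 2 (Nat.mul 10 w)) fun W => fc (Nat.mod s W) fun row => fc (Nat.div s W) fun s => f (i10 w row) s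

/-- a walk: norms of roots (number of primes 5 bits, the primes; width 8 bits and inverse matrix), first
vertex (width 6 bits), number of steps (8 bits), steps -/
def walk (A : I10) (s : Nat) (K : List Vx → Nat → Nat) : Nat :=
  rdl (Nat.mod s 32) (fun ml s =>
    fc (prl ml) fun e2 => fc (Nat.div e2 2) fun e => rd10 (Nat.mod s 256) (Nat.div s 256) fun X s =>
    Bool.rec 0
      (fc (Nat.mod s 64) fun w => rdI w (Nat.div s 64) fun a s => rdI w s fun b s => rdI w s fun c s =>
        Bool.rec 0 (wlk A ml (Nat.mod s 256) K (List.cons (Vx.mk a b c) List.nil) (Nat.div s 256))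
          (startC A a b c))
      (ands (Nat.ble 1 e) (ands (Nat.beq (Nat.mul 2 e) e2) (invC A X e)))) (Nat.div s 32)

/-! ### isometries -/

/-- `g` is an isometry -/
def isoG (A : I10) (g : I16) : Bool :=
  (fun u0 u1 u2 u3 : I4 =>
    ands (ands (ands (Int.beq' (dotI g.c0 u0) A.a00) (Int.beq' (dotI g.c0 u1) A.a01))
      (ands (Int.beq' (dotI g.c0 u2) A.a02) (Int.beq' (dotI g.c0 u3) A.a03)))
    (ands (ands (Int.beq' (dotI g.c1 u1) A.a11) (ands (Int.beq' (dotI g.c1 u2) A.a12)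
      (Int.beq' (dotI g.c1 u3) A.a13)))
      (ands (Int.beq' (dotI g.c2 u2) A.a22) (ands (Int.beq' (dotI g.c2 u3) A.a23)
        (Int.beq' (dotI g.c3 u3) A.a33)))))
    (mulI A g.c0) (mulI A g.c1) (mulI A g.c2) (mulI A g.c3)

/-- read a matrix -/
def rdM (w s : Nat) (f : I16 → Nat → Nat) : Nat :=
  rdI w s fun a s => rdI w s fun b s => rdI w s fun c s => rdI w s fun d s => f (I16.mk a b c d) s

/-- read isometries which map a vertex to a vertex: indices (8 bits each), permutation (3 bits), width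
(5 bits); continue with their product -/
def isos (A : I10) (l : List Vx) (k : Nat) : (I16 → Nat → Nat) → I16 → Nat → Nat :=
  Nat.rec (fun K g s => K g s) (fun _ ih K g s =>
    fc (Nat.mod s 33554432) fun h => fc (Nat.mod (Nat.div h 65536) 8) fun pc =>
    rdM (Nat.div h 524288) (Nat.div s 33554432) fun x s =>
    fc (List.rec 0 (fun _ _ n => Nat.succ n) l) fun len =>
    (fun u v : Vx => Bool.rec 0 (fc16 (mulM g x) fun g => ih K g s)
      (ands (ands (Nat.blt (Nat.mod h 256) len) (Nat.blt (Nat.mod (Nat.div h 256) 256) len))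
        (ands (ands (isoG A x) (Int.beq' (det4 x.c0 x.c1 x.c2 x.c3) (Bool.rec (Int.negSucc 0) 1 (Nat.blt pc 3))))
        (ands (eqI (apI x u.a) v.a) (ands (eqI (apI x u.b) v.b) (eqI (apI x u.c) v.c))))))
      (getV l (Nat.mod h 256)) (perV pc (getV l (Nat.mod (Nat.div h 256) 256)))) k

/-- the identity -/
def oneM : I16 := I16.mk (I4.mk 1 0 0 0) (I4.mk 0 1 0 0) (I4.mk 0 0 1 0) (I4.mk 0 0 0 1)

/-- repeated squares; the trace is large -/
def sqrs (k : Nat) : I16 → Bool :=
  Nat.rec (fun g => Nat.blt 4 (Int.natAbs (trM g))) (fun _ ih g => fc16 (mulM g g) fun g => ih g) k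

/-- certificate of non reflectivity: walk, number of isometries (4 bits), isometries, number of
squares (4 bits) -/
def nonR (A : I10) (s : Nat) : Bool :=
  Nat.rec false (fun _ _ => true)
    (walk A s fun l s => isos A l (Nat.mod s 16) (fun g s => okb (sqrs (Nat.mod s 16) g) (Nat.div s 16))
      oneM (Nat.div s 16))

/-- certificates for the rows from `j` on of a table -/
def nonT (cb : Nat) (j : Nat) (l : List Nat) : Bool :=
  List.rec (fun _ => true) (fun s _ ih j => Bool.rec false (ih (Nat.succ j))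
    (nonR (i10 24 (Nat.mod (Nat.shiftRight cb (Nat.mul 240 j)) (Nat.pow 2 240))) s)) l j

end

end Pool.Agent.Refl.K
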