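import Pool.Agent.Helper23_Refl.StmtC3
import Pool.Agent.Helper23_Refl.KWalk

/-!
# Statements, part C4: walks along the edges of a chamber
-/

namespace Pool.Agent.Refl

open Matrix

/-- START2: a locally exact vertex of a reflective lattice is a vertex of a chamber. -/
def Start2Stmt : Prop := ∀ G : M4, Lat G → Reflective G → ∀ a b c : Z4,
  IsRoot G a → IsRoot G b → IsRoot G c → bz G a b ≤ 0 → bz G a c ≤ 0 → bz G b c ≤ 0 →
  0 < g2 G a b → 0 < g3 G a b c c →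
  (∀ r : Z4, IsRoot G r → ∀ D α β : ℤ, 0 < D → D • r = α • a + β • b →
    (0 ≤ α ∧ 0 ≤ β) ∨ (α ≤ 0 ∧ β ≤ 0)) →
  (∀ r : Z4, IsRoot G r → r ≠ c → ∀ D α β γ : ℤ, 0 < D → 0 < γ →
    D • r = α • a + β • b + γ • c → bz G r a ≤ 0 → bz G r b ≤ 0 →
    bz G r c ≤ 0 ∨ (0 ≤ α ∧ 0 ≤ β)) →
  ∃ (n : ℕ) (e : Fin n → Z4) (O : R4) (i j k : Fin n), Cham G n e O ∧
    e i = a ∧ e j = b ∧ e k = c ∧ IsV G e i j k ∧
    ∀ m, m ≠ i → m ≠ j → m ≠ k → 0 < d4 a b c (e m)

/-- the vertex `v` is a vertex of the chamber, positively oriented -/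
def VOK (G : M4) {n : ℕ} (f : Fin n → Z4) (a b c : Z4) : Prop :=
  ∃ i j k, f i = a ∧ f j = b ∧ f k = c ∧ IsV G f i j k ∧
    ∀ m, m ≠ i → m ≠ j → m ≠ k → 0 < d4 a b c (f m)

/-- STARTC -/
def StartCStmt : Prop := ∀ (A : K.I10) (a b c : K.I4), Lat (matI A) → Reflective (matI A) →
  K.startC A a b c = true →
  ∃ (n : ℕ) (f : Fin n → Z4) (O : R4), Cham (matI A) n f O ∧ VOK (matI A) f (vI a) (vI b) (vI c)

/-- NORM2: norms of roots divide `2 e`, where `e A^(-1)` is integral -/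
def Norm2Stmt : Prop := ∀ (A X : K.I10) (e : ℕ) (r : Z4) (ml : List ℕ), Lat (matI A) →
  IsRoot (matI A) r → 1 ≤ e → K.invC A X e = true → K.prl ml = 2 * e →
  ∀ g : ℕ → Bool, K.dvl g ml 1 = true → g (bz (matI A) r r).natAbs = true

/-- VSC: one step of the walk. `hn`: all possible norms of roots are checked. -/
def VscStmt : Prop := ∀ (A : K.I10) (ml : List ℕ) (n : ℕ) (f : Fin n → Z4) (O : R4)
  (a b c r : K.I4), Lat (matI A) →
  (∀ r : Z4, IsRoot (matI A) r → ∀ g : ℕ → Bool, K.dvl g ml 1 = true →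
    g (bz (matI A) r r).natAbs = true) →
  Cham (matI A) n f O → VOK (matI A) f (vI a) (vI b) (vI c) → K.vsC A a b c r ml = true →
  VOK (matI A) f (vI b) (vI a) (vI r)

/-- WALK -/
def WalkStmt : Prop := ∀ (A : K.I10) (s : ℕ) (k : List K.Vx → ℕ → ℕ), Lat (matI A) →
  Reflective (matI A) → K.walk A s k ≠ 0 →
  ∃ (n : ℕ) (f : Fin n → Z4) (O : R4) (l : List K.Vx) (s' : ℕ), Cham (matI A) n f O ∧
    (∀ v ∈ l, VOK (matI A) f (vI v.a) (vI v.b) (vI v.c)) ∧ k l s' ≠ 0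

/-- matrix with given columns -/
def matG (g : K.I16) : M4 := fun i j => vI (![g.c0, g.c1, g.c2, g.c3] j) i

/-- NONR: certificate of non reflectivity -/
def NonRStmt : Prop := ∀ (A : K.I10) (s : ℕ), K.nonR A s = true → Lat (matI A) →
  ¬ Reflective (matI A)

/-- NONT: the same for a table -/
def NonTStmt : Prop := ∀ (cb j : ℕ) (l : List ℕ), K.nonT cb j l = true →
  ∀ i < l.length, Lat (mtab cb (j + i)) → ¬ Reflective (mtab cb (j + i))

end Pool.Agent.Refl
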