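import Pool.Agent.Helper23_Refl.Defs

/-!
# Statements, part A: reflection groups and compact chambers
-/

namespace Pool.Agent.Refl

open Matrix

/-- action of an integer matrix on real vectors -/
def act (g : M4) (x : R4) : R4 := (g.map (Int.cast : ℤ → ℝ)).mulVec x

/-- determinant of four integer vectors (as columns) -/
def d4 (a b c d : Z4) : ℤ := (Matrix.of ![a, b, c, d]).det

/-- `i j k` are the facets through a vertex of the cone. -/
def IsV (G : M4) {n : ℕ} (e : Fin n → Z4) (i j k : Fin n) : Prop :=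
  i ≠ j ∧ j ≠ k ∧ i ≠ k ∧ ∃ V : R4, V ≠ 0 ∧ (∀ m, br G V (up (e m)) ≤ 0) ∧
    br G V (up (e i)) = 0 ∧ br G V (up (e j)) = 0 ∧ br G V (up (e k)) = 0

/-- Gram determinant of two vectors -/
def g2 (G : M4) (a b : Z4) : ℤ := bz G a a * bz G b b - bz G a b ^ 2

/-- bordered Gram determinant with rows `a b k` and columns `a b x` -/
def g3 (G : M4) (a b k x : Z4) : ℤ :=
  (Matrix.of ![![bz G a a, bz G a b, bz G a x], ![bz G a b, bz G b b, bz G b x],
    ![bz G a k, bz G b k, bz G k x]]).det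

/-! ### A1. finiteness -/

/-- A1a: avoid countably many hyperplanes. -/
def AvoidStmt : Prop := ∀ (F : ℕ → R4) (x0 : R4) (ε : ℝ), 0 < ε → (∀ n, F n ≠ 0) →
  ∃ x : R4, (∀ i, |x i - x0 i| < ε) ∧ ∀ n, ∑ i, F n i * x i ≠ 0

/-- A1b: norms of roots divide `2 det`. -/
def RootDvdStmt : Prop := ∀ G : M4, Lat G → ∀ r : Z4, IsRoot G r → bz G r r ∣ 2 * G.det

/-- A1c: finiteness of lattice vectors of bounded norm near a point. -/
def FinVecStmt : Prop := ∀ G : M4, Lat G → ∀ x0 : R4, br G x0 x0 < 0 → ∀ C : ℝ,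
  {v : Z4 | (bz G v v : ℝ) ≤ C ∧ |br G x0 (up v)| ≤ C}.Finite

/-- A1d: discreteness of the orthogonal group. -/
def FinGrpStmt : Prop := ∀ G : M4, Lat G → ∀ x0 : R4, br G x0 x0 < 0 → ∀ C : ℝ,
  {g : M4ˣ | g ∈ OG G ∧ ∀ i, |act (g : M4) x0 i| ≤ C}.Finite

/-- A2: cocompactness of `O(L)` for anisotropic lattices. -/
def CocStmt : Prop := ∀ G : M4, Lat G → ∃ C : ℝ, ∀ x : R4, br G x x = -1 →
  ∃ g ∈ OG G, ∀ i, |act (g : M4) x i| ≤ C

/-- A3: compact chambers of reflective lattices. -/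
def ChamStmt : Prop := ∀ G : M4, Lat G → Reflective G → ∀ O : R4, br G O O < 0 →
  (∀ r : Z4, IsRoot G r → br G O (up r) ≠ 0) → ∃ (n : ℕ) (e : Fin n → Z4), Cham G n e O

/-- A4: generic points exist. -/
def GenStmt : Prop := ∀ G : M4, Lat G → ∀ (x0 : R4) (ε : ℝ), br G x0 x0 < 0 → 0 < ε →
  ∃ O : R4, (∀ i, |O i - x0 i| < ε) ∧ br G O O < 0 ∧
    ∀ r : Z4, IsRoot G r → br G O (up r) ≠ 0

/-- A5: a finite family of roots with compact cone implies reflectivity. -/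
def ConvStmt : Prop := ∀ G : M4, Lat G → ∀ (n : ℕ) (e : Fin n → Z4) (O : R4),
  (∀ i, IsRoot G (e i)) → br G O O < 0 → (∀ i, br G O (up (e i)) < 0) →
  (∃ c : ℝ, 0 < c ∧ ∀ x : R4, (∀ i, br G x (up (e i)) ≤ 0) →
    br G x x ≤ -c * (br G x O) ^ 2) → Reflective G

/-- A6a: trace of a matrix of finite order. -/
def TraceStmt : Prop := ∀ (g : M4) (m : ℕ), 0 < m → g ^ m = 1 → |g.trace| ≤ 4

/-- A6b: an isometry which maps an interior point of the chamber to an interior point permutes the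
facets. -/
def PermStmt : Prop := ∀ (G : M4) (n : ℕ) (e : Fin n → Z4) (O : R4), Lat G → Cham G n e O →
  ∀ g ∈ OG G, ∀ x : R4, (∀ i, br G x (up (e i)) < 0) →
    (∀ i, br G (act (g : M4) x) (up (e i)) < 0) → ∀ i, ∃ j, (g : M4).mulVec (e i) = e j

/-- A6c: ... hence has finite order. -/
def FinOrdStmt : Prop := ∀ (G : M4) (n : ℕ) (e : Fin n → Z4) (O : R4), Lat G → Cham G n e O →
  ∀ g ∈ OG G, (∀ i, ∃ j, (g : M4).mulVec (e i) = e j) → ∃ m : ℕ, 0 < m ∧ (g : M4) ^ m = 1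

/-! ### A7. vertices and edges of the compact cone -/

/-- A7a -/
def VertexStmt : Prop := ∀ (G : M4) (n : ℕ) (e : Fin n → Z4) (O : R4), Lat G → Cham G n e O →
  ∃ i j k, IsV G e i j k

/-- A7b: at a vertex the three facets span a positive definite space. -/
def VertexPosStmt : Prop := ∀ (G : M4) (n : ℕ) (e : Fin n → Z4) (O : R4), Lat G →
  Cham G n e O → ∀ i j k, IsV G e i j k →
    0 < g2 G (e i) (e j) ∧ 0 < g2 G (e i) (e k) ∧ 0 < g2 G (e j) (e k) ∧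
    0 < g3 G (e i) (e j) (e k) (e k)

/-- A7c: all the other facets are strictly negative at a vertex. -/
def VertexStrictStmt : Prop := ∀ (G : M4) (n : ℕ) (e : Fin n → Z4) (O : R4), Lat G →
  Cham G n e O → ∀ i j k, i ≠ j → j ≠ k → i ≠ k → ∀ V : R4, V ≠ 0 →
    (∀ m, br G V (up (e m)) ≤ 0) → br G V (up (e i)) = 0 → br G V (up (e j)) = 0 →
    br G V (up (e k)) = 0 →
    br G V V < 0 ∧ ∀ m, m ≠ i → m ≠ j → m ≠ k → br G V (up (e m)) < 0

/-- A7d: the other end of an edge. -/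
def FarEndStmt : Prop := ∀ (G : M4) (n : ℕ) (e : Fin n → Z4) (O : R4), Lat G →
  Cham G n e O → ∀ i j k, IsV G e i j k → ∃ l, l ≠ k ∧ IsV G e i j l

/-- A7e: two facets with positive definite span meet in an edge. -/
def EdgeStmt : Prop := ∀ (G : M4) (n : ℕ) (e : Fin n → Z4) (O : R4), Lat G →
  Cham G n e O → ∀ i j, i ≠ j → 0 < g2 G (e i) (e j) →
    ∃ k l, k ≠ l ∧ IsV G e i j k ∧ IsV G e i j l

/-- A7f: sign rule for determinants at a vertex. -/
def DetSignStmt : Prop := ∀ (G : M4) (n : ℕ) (e : Fin n → Z4) (O : R4), Lat G →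
  Cham G n e O → ∀ i j k l m, IsV G e i j k → l ≠ i → l ≠ j → l ≠ k →
    m ≠ i → m ≠ j → m ≠ k → 0 < d4 (e i) (e j) (e k) (e l) * d4 (e i) (e j) (e k) (e m)

/-- A7g: a root cannot separate two vertices. -/
def SepStmt : Prop := ∀ (G : M4) (n : ℕ) (e : Fin n → Z4) (O : R4), Lat G →
  Cham G n e O → ∀ i j k l i' j' k' l', IsV G e i j k → l ≠ i → l ≠ j → l ≠ k →
    IsV G e i' j' k' → l' ≠ i' → l' ≠ j' → l' ≠ k' → ∀ r : Z4, IsRoot G r →
    0 < d4 (e i) (e j) (e k) r * d4 (e i) (e j) (e k) (e l) →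
    0 ≤ d4 (e i') (e j') (e k') r * d4 (e i') (e j') (e k') (e l')

/-- A7h: a root vanishing at a vertex is a nonnegative or nonpositive combination. -/
def MixStmt : Prop := ∀ (G : M4) (n : ℕ) (e : Fin n → Z4) (O : R4), Lat G →
  Cham G n e O → ∀ i j k, IsV G e i j k → ∀ r : Z4, IsRoot G r → ∀ D α β γ : ℤ, 0 < D →
    D • r = α • e i + β • e j + γ • e k →
    (0 ≤ α ∧ 0 ≤ β ∧ 0 ≤ γ) ∨ (α ≤ 0 ∧ β ≤ 0 ∧ γ ≤ 0)

/-- A7i: the two ends of an edge look at each other. -/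
def EndsNegStmt : Prop := ∀ (G : M4) (n : ℕ) (e : Fin n → Z4) (O : R4), Lat G →
  Cham G n e O → ∀ i j k l, k ≠ l → IsV G e i j k → IsV G e i j l →
    g3 G (e i) (e j) (e k) (e l) < 0

/-- A7j: comparison of the far end of an edge with another root. -/
def StepStmt : Prop := ∀ (G : M4) (n : ℕ) (e : Fin n → Z4) (O : R4), Lat G →
  Cham G n e O → ∀ i j k l, k ≠ l → IsV G e i j k → IsV G e i j l → ∀ r : Z4, IsRoot G r →
    0 < d4 (e i) (e j) (e k) r * d4 (e i) (e j) (e k) (e l) →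
    0 < g3 G (e i) (e j) r r → g3 G (e i) (e j) (e k) r < 0 →
    g3 G (e i) (e j) (e k) (e l) ^ 2 * g3 G (e i) (e j) r r ≤
      g3 G (e i) (e j) (e k) r ^ 2 * g3 G (e i) (e j) (e l) (e l)

/-- A8: a locally exact vertex of a reflective lattice is a vertex of a chamber. -/
def StartStmt : Prop := ∀ G : M4, Lat G → Reflective G → ∀ a b c : Z4,
  IsRoot G a → IsRoot G b → IsRoot G c → bz G a b ≤ 0 → bz G a c ≤ 0 → bz G b c ≤ 0 →
  0 < g2 G a b → 0 < g3 G a b c c →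
  (∀ r : Z4, IsRoot G r → ∀ D α β : ℤ, 0 < D → D • r = α • a + β • b →
    (0 ≤ α ∧ 0 ≤ β) ∨ (α ≤ 0 ∧ β ≤ 0)) →
  (∀ r : Z4, IsRoot G r → r ≠ c → d4 a b c r = 0 → bz G r a ≤ 0 → bz G r b ≤ 0 →
    bz G r c ≤ 0) →
  ∃ (n : ℕ) (e : Fin n → Z4) (O : R4) (i j k : Fin n), Cham G n e O ∧
    e i = a ∧ e j = b ∧ e k = c ∧ IsV G e i j k ∧
    ∀ m, m ≠ i → m ≠ j → m ≠ k → 0 < d4 a b c (e m)

/-- A9: an isometry which maps a vertex to a vertex, with its facets, permutes all facets. -/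
def VertexIsoStmt : Prop := ∀ (G : M4) (n : ℕ) (e : Fin n → Z4) (O : R4), Lat G →
  Cham G n e O → ∀ i j k i' j' k' m m', IsV G e i j k → IsV G e i' j' k' →
    m ≠ i → m ≠ j → m ≠ k → m' ≠ i' → m' ≠ j' → m' ≠ k' → ∀ g ∈ OG G,
    (g : M4).mulVec (e i) = e i' → (g : M4).mulVec (e j) = e j' →
    (g : M4).mulVec (e k) = e k' →
    0 < d4 (e i') (e j') (e k') ((g : M4).mulVec (e m)) * d4 (e i') (e j') (e k') (e m') →
    ∀ a, ∃ b, (g : M4).mulVec (e a) = e b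

end Pool.Agent.Refl
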