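import Pool.Agent.Helper23_Refl.KLeaf

/-!
# Kernel functions: one configuration
-/

namespace Pool.Agent.Refl.K

noncomputable section

/-- exact square root, or fail -/
def sqE (n : Nat) (f : Nat → Nat) : Nat :=
  fc n fun n => fc (sqK n) fun r => Bool.rec 0 (f r) (Nat.beq (Nat.mul r r) n)

/-- signed number from an offset number -/
def sg (t x : Nat) : Int := Int.subNatNat x t

/-- isotropic vector: weights `n i`, coefficients `x i - t` -/
def isoK (N01 N02 N12 N03 N13 N23 s : Nat) : Nat :=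
  fc (Nat.mod s 64) fun w => rd4 w (Nat.div s 64) fun n0 n1 n2 n3 s =>
  fc s fun s => fc (Nat.mod s 64) fun w => fc (Nat.div (Nat.pow 2 w) 2) fun t =>
  rd4 w (Nat.div s 64) fun x0 x1 x2 x3 s =>
  sqE (Nat.mul N01 (Nat.mul n0 n1)) fun t01 => sqE (Nat.mul N02 (Nat.mul n0 n2)) fun t02 =>
  sqE (Nat.mul N12 (Nat.mul n1 n2)) fun t12 => sqE (Nat.mul N03 (Nat.mul n0 n3)) fun t03 =>
  sqE (Nat.mul N13 (Nat.mul n1 n3)) fun t13 => sqE (Nat.mul N23 (Nat.mul n2 n3)) fun t23 =>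
  (fun X0 X1 X2 X3 : Int =>
    okb (ands (ands (ands (Nat.ble 1 n0) (Nat.ble 1 n1)) (ands (Nat.ble 1 n2) (Nat.ble 1 n3)))
      (ands (notb (ands (ands (Nat.beq x0 t) (Nat.beq x1 t)) (ands (Nat.beq x2 t) (Nat.beq x3 t))))
      (Int.beq' 
        (Int.add (Int.add (Int.mul (Int.mul (Int.ofNat n0) X0) X0) (Int.mul (Int.mul (Int.ofNat n1) X1) X1))
          (Int.add (Int.mul (Int.mul (Int.ofNat n2) X2) X2) (Int.mul (Int.mul (Int.ofNat n3) X3) X3)))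
        (Int.add (Int.add (Int.mul (Int.add (Int.add (Int.mul (Int.ofNat t01) X1)
          (Int.mul (Int.ofNat t02) X2)) (Int.mul (Int.ofNat t03) X3)) X0)
          (Int.mul (Int.add (Int.mul (Int.ofNat t12) X2) (Int.mul (Int.ofNat t13) X3)) X1))
          (Int.mul (Int.mul (Int.ofNat t23) X2) X3))))) s)
    (sg t x0) (sg t x1) (sg t x2) (sg t x3)

/-- `p` if `p` does not divide `D`, otherwise `1` -/
def npr (p D : Nat) : Nat := Bool.rec p 1 (Nat.beq (Nat.mod D p) 0)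

/-- one configuration. Header: mode (1 bit), the four independent roots (3 bits each), the others
(3 bits each), the tree (1 and 2 bits). -/
def tupK (tb tn cb cn : Nat) (FR FF : (s0 s1 s2 s3 d5 d6 : Nat) → FH) (n code s : Nat) : Nat :=
  fc (Nat.mod s 4194304) fun h => fc (Nat.div s 4194304) fun s =>
  fc (Nat.mod (Nat.div h 2) 8) fun s0 => fc (Nat.mod (Nat.div h 16) 8) fun s1 =>
  fc (Nat.mod (Nat.div h 128) 8) fun s2 => fc (Nat.mod (Nat.div h 1024) 8) fun s3 =>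
  fc (Nat.mod (Nat.div h 8192) 8) fun d5 => fc (Nat.mod (Nat.div h 65536) 8) fun d6 =>
  fc (Nat.mod (Nat.div h 524288) 2) fun q2 => fc (Nat.div h 1048576) fun q3 =>
  fc (nl code s0 s1) fun N01 => fc (nl code s0 s2) fun N02 => fc (nl code s1 s2) fun N12 =>
  fc (nl code s0 s3) fun N03 => fc (nl code s1 s3) fun N13 => fc (nl code s2 s3) fun N23 =>
  sqE (Nat.mul (Nat.mul N01 N02) N12) fun t012 => sqE (Nat.mul (Nat.mul N01 N03) N13) fun t013 =>
  sqE (Nat.mul (Nat.mul N02 N03) N23) fun t023 => sqE (Nat.mul (Nat.mul N12 N13) N23) fun t123 =>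
  sqE (Nat.mul (Nat.mul N01 N12) (Nat.mul N23 N03)) fun u1 =>
  sqE (Nat.mul (Nat.mul N01 N13) (Nat.mul N23 N02)) fun u2 =>
  sqE (Nat.mul (Nat.mul N02 N12) (Nat.mul N13 N03)) fun u3 =>
  fc (Nat.sub (Nat.add (Nat.mul 4 (Nat.add (Nat.add (Nat.add N01 N02) (Nat.add N12 N03))
      (Nat.add (Nat.add N13 N23) (Nat.add (Nat.add t012 t013) (Nat.add t023 t123)))))
      (Nat.mul 2 (Nat.add u1 (Nat.add u2 u3))))
    (Nat.add 16 (Nat.add (Nat.mul N01 N23) (Nat.add (Nat.mul N02 N13) (Nat.mul N03 N12))))) fun D0 =>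
  Bool.rec 0
    (Nat.rec (isoK N01 N02 N12 N03 N13 N23 s)
      (fun _ _ =>
        fc (Nat.mul (Nat.pow 2 80) (Nat.pow (Nat.mul 210 D0) 8)) fun Q =>
        fc (Nat.mul (Nat.mul Q Q) (Nat.pow 2 80)) fun B => fc (Nat.mul B B) fun B2 =>
        fc (Nat.mul B B2) fun B3 =>
        fc (Nat.mul Q (Nat.add (Nat.add 1 B) (Nat.add B2 B3))) fun Om =>
        fc (Nat.mod (Nat.sub (Nat.add 8 (Nat.mul 2 Q)) (Nat.mul 2 (Nat.add (Nat.add N12 N13) (Nat.add N23 t123)))) Q) fun e0 =>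
        fc (Nat.mod (Nat.sub (Nat.add 8 (Nat.mul 2 Q)) (Nat.mul 2 (Nat.add (Nat.add N02 N03) (Nat.add N23 t023)))) Q) fun e1 =>
        fc (Nat.mod (Nat.sub (Nat.add 8 (Nat.mul 2 Q)) (Nat.mul 2 (Nat.add (Nat.add N01 N03) (Nat.add N13 t013)))) Q) fun e2 =>
        fc (Nat.mod (Nat.sub (Nat.add 8 (Nat.mul 2 Q)) (Nat.mul 2 (Nat.add (Nat.add N01 N02) (Nat.add N12 t012)))) Q) fun e3 =>
        fc (nl code s0 d5) fun a0 => fc (nl code s1 d5) fun a1 => fc (nl code s2 d5) fun a2 =>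
        fc (nl code s3 d5) fun a3 => fc (nl code s0 d6) fun b0 => fc (nl code s1 d6) fun b1 =>
        fc (nl code s2 d6) fun b2 => fc (nl code s3 d6) fun b3 =>
          (leaves (TCtx.mk Q B B2 B3 Om D0 N01 N02 N12 N03 N13 N23 e0 e1 e2 e3
            (Nat.mul (Nat.mul (npr 2 D0) (npr 3 D0)) (Nat.mul (npr 5 D0) (npr 7 D0)))
            (Bool.rec 4 16 (Nat.beq (Nat.mod D0 2) 0)) (Nat.sub n 4)
            a0 a1 a2 a3 b0 b1 b2 b3) tb tn cb cn (FR s0 s1 s2 s3 d5 d6) (FF s0 s1 s2 s3 d5 d6) q2 q3 s))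
      (Nat.mod h 2))
    (ands (ands (Nat.ble 1 D0) (ands (Nat.ble 1 N01) (ands (Nat.ble 1 (sel q2 N02 N12 0 0))
      (Nat.ble 1 (sel q3 N03 N13 N23 0))))) (Nat.beq (Nat.add (Nat.add (Nat.add (Nat.pow 2 s0) (Nat.pow 2 s1))
      (Nat.add (Nat.pow 2 s2) (Nat.pow 2 s3)))
      (Nat.add (Nat.rec 0 (fun _ _ => Nat.pow 2 d5) (Nat.sub n 4)) (Nat.rec 0 (fun _ _ => Nat.pow 2 d6) (Nat.sub n 5))))
      (Nat.pred (Nat.pow 2 n))))

end

end Pool.Agent.Refl.K
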