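import Pool.Agent.Helper13_Refl.Norm2
import Pool.Agent.Helper13_Refl.ResT
import Pool.Agent.Helper13_Refl.Stab
import Pool.Agent.Helper13_Refl.Word
import Pool.Agent.Helper15_Refl.Ani
import Pool.Agent.Helper15_Refl.Fin
import Pool.Agent.Helper15_Refl.Nrm
import Pool.Agent.Helper15_Refl.Vsc
import Pool.Agent.Helper18_Refl.AllJ
import Pool.Agent.Helper18_Refl.Avoid
import Pool.Agent.Helper18_Refl.Cmp2
import Pool.Agent.Helper18_Refl.Finl
import Pool.Agent.Helper18_Refl.Hand
import Pool.Agent.Helper18_Refl.KillA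
import Pool.Agent.Helper18_Refl.KillC
import Pool.Agent.Helper18_Refl.SigP
import Pool.Agent.Helper18_Refl.Tree
import Pool.Agent.Helper28_Refl.Sub
import Pool.Agent.Helper38_Refl.StartC
import Pool.Agent.Helper38_Refl.Walk
import Pool.Agent.Helper44_Refl.CmpK
import Pool.Agent.Helper44_Refl.KillB
import Pool.Agent.Helper44_Refl.PkZ
import Pool.Agent.Helper44_Refl.Split
import Pool.Agent.Helper46_Refl.DetId
import Pool.Agent.Helper46_Refl.LeafFin
import Pool.Agent.Helper46_Refl.LeavesFin
import Pool.Agent.Helper46_Refl.Nums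
import Pool.Agent.Helper46_Refl.RedI
import Pool.Agent.Helper46_Refl.RedII
import Pool.Agent.Helper46_Refl.Wrd1
import Pool.Agent.Helper46_Refl.Wrd2
import Pool.Agent.Helper48_Refl.EnuA
import Pool.Agent.Helper48_Refl.EnuI
import Pool.Agent.Helper48_Refl.Pack
import Pool.Agent.Helper48_Refl.Prime
import Pool.Agent.Helper48_Refl.Start2
import Pool.Agent.Helper51_Refl.Cls
import Pool.Agent.Helper51_Refl.Conv
import Pool.Agent.Helper51_Refl.Desc
import Pool.Agent.Helper51_Refl.Edge
import Pool.Agent.Helper51_Refl.Idx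
import Pool.Agent.Helper51_Refl.Nn
import Pool.Agent.Helper58_Refl.RdEs
import Pool.Agent.Helper58_Refl.TupMain
import Pool.Agent.Helper59_Refl.Fin
import Pool.Agent.Helper59_Refl.GeoI
import Pool.Agent.Helper59_Refl.Iso
import Pool.Agent.Helper64_Refl.Ends
import Pool.Agent.Helper64_Refl.Far
import Pool.Agent.Helper64_Refl.Geo
import Pool.Agent.Helper64_Refl.GeoA
import Pool.Agent.Helper64_Refl.Outer
import Pool.Agent.Helper66_Refl.FarNat
import Pool.Agent.Helper66_Refl.FarReal
import Pool.Agent.Helper67_Refl.CloI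
import Pool.Agent.Helper67_Refl.CloII
import Pool.Agent.Helper67_Refl.Inv
import Pool.Agent.Helper69_Refl.NonR
import Pool.Agent.Helper84_Refl.ChamFinal
import Pool.Agent.Helper84_Refl.GeoII
import Pool.Agent.Helper84_Refl.Mkg
import Pool.Agent.Helper84_Refl.OrbT
import Pool.Agent.Helper86_Refl.KNum
import Pool.Agent.Helper91_Refl.Cod2
import Pool.Agent.Helper91_Refl.FarC
import Pool.Agent.Helper91_Refl.Loc
import Pool.Agent.Helper91_Refl.ResNap
import Pool.Agent.Helper92_Refl.FinOrd
import Pool.Agent.Helper92_Refl.Final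
import Pool.Agent.Helper92_Refl.N45
import Pool.Agent.Helper92_Refl.N56
import Pool.Agent.Helper92_Refl.Small
import Pool.Agent.Helper92_Refl.SqK
import Pool.Agent.Helper93_Refl.Enuii
import Pool.Agent.Helper93_Refl.Enusum
import Pool.Agent.Helper93_Refl.Lina
import Pool.Agent.Helper93_Refl.Norm
import Pool.Agent.Helper93_Refl.Sim
import Pool.Agent.Helper93_Refl.Stg1
import Pool.Agent.Helper93_Refl.Trans
import Pool.Agent.Helper93_Refl.Trf
import Pool.Agent.Helper93_Refl.Vchk

/-!
# Assembly of the parts
-/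

namespace Pool.Agent.Refl.Fin

theorem cham : ChamStmt := H84.cham_
theorem gen : GenStmt := H18.gen
theorem trans : TransStmt := H93.transStmt
theorem farEnd : FarEndStmt := H51.farEnd
theorem vertexPos : VertexPosStmt := H51.vertexPos
theorem vertexStrict : VertexStrictStmt := H51.vertexStrict
theorem ends : EndsStmt := H64.ends vertexPos vertexStrict
theorem nn : NNStmt := H51.nn_stmt
theorem far : FarStmt := H64.far H66.farReal H66.farNat ends nn vertexPos
theorem outer : OuterStmt := H64.outer H51.vertex vertexPos H51.edge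
theorem geoA : GeoAStmt := H64.geoA ends nn vertexPos
theorem geoI : GeoIStmt := H59.geoI nn ends far farEnd vertexPos
theorem geoII : GeoIIStmt := H84.geoII ends nn vertexPos farEnd far
theorem geo : GeoStmt := H64.geo outer geoA geoI geoII nn vertexPos
theorem sqK : SqKStmt := H92.sqK
theorem knum : KNumStmt := H86.knum sqK
theorem detSign : DetSignStmt := H92.detSign'
theorem enuA : EnuAStmt := H48.Enu.enuA sqK knum nn H46.cyc vertexPos H46.posN H46.negN detSign
theorem enuI : EnuIStmt :=
  H48.Enu.enuI sqK knum nn H46.cyc vertexPos H46.posN H46.negN detSign farEnd H92.n45I H92.n56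
theorem enuII : EnuIIStmt :=
  H93.enuII sqK knum nn H46.cyc vertexPos H46.posN H46.negN detSign H92.n45II
theorem enu : EnuStmt := H93.enusum geo enuA enuI enuII
theorem prime : PrimeStmt := H48.prime
theorem killA : KillAStmt := H18.killA H48.pack2 H48.pack3 H48.pack4
theorem killB : KillBStmt := H44.killb H48.pack2 prime
theorem killC : KillCStmt := H18.killC H48.pack2 H48.pack4 prime
theorem finS : FinStmt := H59.finn H48.pack2 H48.pack4
theorem tree : TreeStmt := H18.tree (H44.split H48.pack1) killA killB killC finS prime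
theorem leaf : LeafStmt := H46.leaf_ tree
theorem loc : LocStmt := H91.loc H46.detId
theorem leaves : LeavesStmt := H46.leaves_ leaf loc prime
theorem norm : NormStmt := H93.norm H92.rootDvd prime
theorem vchk : VChkStmt := H93.vchk H92.mix' H92.sep'
theorem farC : FarCStmt := H91.farC farEnd vertexPos detSign norm knum sqK H93.linA
theorem hand : HandStmt := H18.hand (H58.rdes H48.pack4) H93.trf H93.linA vchk farC
theorem iso : IsoStmt := H59.iso nn
theorem tup : TupStmt := H58.tup leaves iso hand H46.detId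
theorem stg1 : Stg1Stmt := H93.stg1 gen cham trans enu tup
theorem start2 : Start2Stmt := H48.start2 cham gen H92.rootDvd H15.finVec
theorem startC : StartCStmt := H38.startC start2
theorem norm2 : Norm2Stmt := H13.norm2 H93.linA prime
theorem walk : WalkStmt := H38.walk norm2 startC H15V.vsc
theorem nonR : NonRStmt := H69.nonR walk H92.vertexIso' farEnd H92.finOrd H92.trace
theorem nonT : NonTStmt := H69.nonT nonR
theorem conv : ConvStmt := H51.conv H15.finGrp
theorem cmpK : CmpKStmt := H44.cmpK H18C.sigp H18C.cmp2 H15.ani conv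
theorem cmpT : CmpTStmt := H44.cmpT cmpK
theorem pkZ : PkZStmt := H44.pkZ_stmt
theorem actS : ActStmt := H44.act_stmt
theorem word : WordStmt := H13.word cham
theorem cod2 : Cod2Stmt := H91D.cod2 pkZ
theorem wrd1 : Wrd1Stmt := H46W.wrd1 word actS H15N.nrm pkZ
theorem wrd2 : Wrd2Stmt := H46W.wrd2 word actS cod2 pkZ
theorem resT : ResTStmt := H13T.resT pkZ
theorem sub1 : Sub1Stmt := H28.sub1 resT H67.tabX (H91R.resN pkZ) (H91R.resA pkZ) (H91R.resP pkZ)
  H13.stabI wrd1 H51I.idx actS pkZ
theorem sub2 : Sub2Stmt := H28.sub2 resT H67.tabX (H91R.resN pkZ) (H91R.resA pkZ) (H91R.resP pkZ)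
  H13.stabI wrd2 H51I.idx actS
theorem cloI : CloIStmt := H67.cloI sub1 sub2 H15N.nrm cod2 H51I.cls
theorem cloII : CloIIStmt := H67.cloII pkZ H51I.cls H51I.idx cod2 H15N.nrm resT wrd1 H13.stabII
theorem mkG : MkGStmt := H84M.mkG pkZ
theorem allJ : AllJStmt := H18C.allj H93.linA prime mkG cloI cloII
theorem orbT : OrbTStmt := H84T.orbT walk allJ
theorem redI : RedIStmt := H46.redI trans H13.stabI
theorem redII : RedIIStmt := H46.redII trans H13.stabII
theorem desc : DescStmt := H51D.desc redI redII
theorem finl : FinlStmt := H18C.finl desc (H93.simStmt trans)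

end Pool.Agent.Refl.Fin
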