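import Mathlib

/-!
# Reflective anisotropic lattices of signature (3,1): basic definitions
-/

namespace Pool.Agent.Refl

open Matrix

/-- integer vectors -/
abbrev Z4 := Fin 4 → ℤ
/-- real vectors -/
abbrev R4 := Fin 4 → ℝ
/-- integer 4 by 4 matrices -/
abbrev M4 := Matrix (Fin 4) (Fin 4) ℤ

/-- The bilinear form on `ℤ⁴` with Gram matrix `G`. -/
def bz (G : M4) (x y : Z4) : ℤ := ∑ i, ∑ j, x i * G i j * y j

/-- The real bilinear form with Gram matrix `G`. -/
def br (G : M4) (x y : R4) : ℝ := ∑ i, ∑ j, x i * (G i j : ℝ) * y j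

/-- An integer vector as a real vector. -/
def up (x : Z4) : R4 := fun i => (x i : ℝ)

/-- `G` is congruent over the reals to `diag(1,1,1,-1)`. -/
def Sig31 (G : M4) : Prop :=
  ∃ P : Matrix (Fin 4) (Fin 4) ℝ, IsUnit P.det ∧
    P.transpose * G.map (Int.cast : ℤ → ℝ) * P = Matrix.diagonal ![1, 1, 1, -1]

/-- The form does not represent zero nontrivially. -/
def Anis (G : M4) : Prop := ∀ x : Z4, bz G x x = 0 → x = 0

/-- Gram matrix of an anisotropic lattice of signature (3,1). -/
structure Lat (G : M4) : Prop where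
  symm : G.transpose = G
  sig : Sig31 G
  anis : Anis G

/-- The orthogonal group of the lattice. -/
def OG (G : M4) : Subgroup M4ˣ where
  carrier := {g | (g : M4).transpose * G * (g : M4) = G}
  one_mem' := by simp
  mul_mem' := by
    intro a b ha hb
    simp only [Set.mem_setOf_eq, Units.val_mul, Matrix.transpose_mul] at *
    calc (b : M4).transpose * (a : M4).transpose * G * ((a : M4) * (b : M4))
        = (b : M4).transpose * ((a : M4).transpose * G * (a : M4)) * (b : M4) := by
          simp only [Matrix.mul_assoc]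
      _ = G := by rw [ha, hb]
  inv_mem' := by
    intro a ha
    simp only [Set.mem_setOf_eq] at *
    have h1 : (a : M4) * ((a⁻¹ : M4ˣ) : M4) = 1 := by simp
    have h2 : ((a⁻¹ : M4ˣ) : M4).transpose * (a : M4).transpose = 1 := by
      rw [← Matrix.transpose_mul, h1, Matrix.transpose_one]
    calc ((a⁻¹ : M4ˣ) : M4).transpose * G * ((a⁻¹ : M4ˣ) : M4)
        = ((a⁻¹ : M4ˣ) : M4).transpose * ((a : M4).transpose * G * (a : M4)) *
            ((a⁻¹ : M4ˣ) : M4) := by rw [ha]
      _ = (((a⁻¹ : M4ˣ) : M4).transpose * (a : M4).transpose) * G *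
            ((a : M4) * ((a⁻¹ : M4ˣ) : M4)) := by simp only [Matrix.mul_assoc]
      _ = G := by rw [h1, h2]; simp

/-- `g` is the reflection `s_e` for some `e` with `(e,e) > 0`. -/
def IsReflection (G : M4) (g : M4ˣ) : Prop :=
  ∃ e : Z4, 0 < bz G e e ∧
    ∀ x : Z4, bz G e e • (g : M4).mulVec x = bz G e e • x - (2 * bz G x e) • e

/-- The subgroup generated by all reflections in `O(L)`. -/
def Or (G : M4) : Subgroup M4ˣ := Subgroup.closure {g | g ∈ OG G ∧ IsReflection G g}

/-- `O_r(L)` has finite index in `O(L)`. -/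
def Reflective (G : M4) : Prop := (Or G).relIndex (OG G) ≠ 0

/-- Two lattices are similar. -/
def Similar (G G' : M4) : Prop :=
  ∃ (U : M4ˣ) (a b : ℤ), 0 < a ∧ 0 < b ∧ a • ((U : M4).transpose * G * (U : M4)) = b • G'

/-- Integral equivalence. -/
def Isom (G G' : M4) : Prop := ∃ U : M4ˣ, (U : M4).transpose * G * (U : M4) = G'

/-- primitive integer vector -/
def Prim4 (e : Z4) : Prop := ∀ d : ℤ, (∀ i, d ∣ e i) → IsUnit d

/-- primitive roots -/
structure IsRoot (G : M4) (e : Z4) : Prop where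
  pos : 0 < bz G e e
  dvd : ∀ x : Z4, bz G e e ∣ 2 * bz G x e
  prim : Prim4 e

/-- Compact fundamental chamber of the reflection group: `e` are the facet roots, `O` an interior
point lying on no mirror. -/
structure Cham (G : M4) (n : ℕ) (e : Fin n → Z4) (O : R4) : Prop where
  root : ∀ i, IsRoot G (e i)
  inj : Function.Injective e
  obt : ∀ i j, i ≠ j → bz G (e i) (e j) ≤ 0
  Oneg : br G O O < 0
  neg : ∀ i, br G O (up (e i)) < 0
  cpt : ∃ c : ℝ, 0 < c ∧ ∀ x : R4, (∀ i, br G x (up (e i)) ≤ 0) →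
    br G x x ≤ -c * (br G x O) ^ 2
  sep : ∀ r : Z4, IsRoot G r →
    (∀ x : R4, (∀ i, br G x (up (e i)) ≤ 0) → br G x (up r) ≤ 0) ∨
    (∀ x : R4, (∀ i, br G x (up (e i)) ≤ 0) → 0 ≤ br G x (up r))

end Pool.Agent.Refl
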