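import Pool.Agent.Helper23_Refl.StmtC5
import Pool.Agent.Helper23_Refl.Cert.Lst
import Pool.Agent.Helper23_Refl.Cert.Data

/-!
# From lists of certificates to statements
-/

namespace Pool.Agent.Refl.Fin

open Matrix

/-- all configurations of the list are certified -/
def OkL (l : List ℕ) : Prop := ∀ x ∈ l, ∃ s, K.tupX Cert.ta 67 Cert.cb 1083 x s = true

theorem tupL_ok (tb tn cb cn : ℕ) : ∀ (l ss : List ℕ), K.tupL tb tn cb cn l ss = true →
    ∀ x ∈ l, ∃ s, K.tupX tb tn cb cn x s = true := by
  intro l
  induction l with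
  | nil => intro ss _ x hx; simp at hx
  | cons a l ih =>
    intro ss h x hx
    cases ss with
    | nil => exact absurd h (by simp [K.tupL])
    | cons s ss =>
      have h' : (Bool.rec false (K.tupL tb tn cb cn l ss) (K.tupX tb tn cb cn a s) : Bool) = true := h
      cases hb : K.tupX tb tn cb cn a s with
      | false => rw [hb] at h'; exact absurd h' (by simp)
      | true =>
        rw [hb] at h'
        rcases List.mem_cons.1 hx with rfl | hx
        · exact ⟨s, hb⟩
        · exact ih ss h' x hx

theorem ok_of {l ss : List ℕ} (h : K.tupL Cert.ta 67 Cert.cb 1083 l ss = true) : OkL l :=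
  tupL_ok _ _ _ _ _ _ h

theorem ok_nil : OkL [] := by intro x hx; simp at hx

theorem ok_app {a b : List ℕ} (ha : OkL a) (hb : OkL b) : OkL (a ++ b) := by
  intro x hx
  rcases List.mem_append.1 hx with h | h
  · exact ha x h
  · exact hb x h

theorem ok_flat (LL : List (List ℕ)) (h : ∀ l ∈ LL, OkL l) : OkL LL.flatten := by
  intro x hx
  obtain ⟨l, hl, hx⟩ := List.mem_flatten.1 hx
  exact h l hl x hx

theorem ok_cons {l : List ℕ} {LL : List (List ℕ)} (h : OkL l) (H : ∀ m ∈ LL, OkL m) :
    ∀ m ∈ l :: LL, OkL m := by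
  intro m hm
  rcases List.mem_cons.1 hm with rfl | hm
  · exact h
  · exact H m hm

theorem ok_nilL : ∀ m ∈ ([] : List (List ℕ)), OkL m := by intro m hm; simp at hm

/-- a property of all numbers below `b`, in steps -/
theorem step {P : ℕ → Prop} {a b : ℕ} (H : ∀ j < a, P j) (n : ℕ) (h : ∀ i < n, P (a + i))
    (hb : b = a + n) : ∀ j < b, P j := by
  subst hb
  intro j hj
  by_cases hja : j < a
  · exact H j hja
  · have := h (j - a) (by omega)
    rwa [Nat.add_sub_cancel' (by omega)] at this

theorem step0 {P : ℕ → Prop} : ∀ j < 0, P j := by intro j hj; omega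

end Pool.Agent.Refl.Fin
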