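import Pool.Agent.Helper23_Refl.FinA
import Pool.Agent.Helper23_Refl.Cert.TupA0
import Pool.Agent.Helper23_Refl.Cert.TupA1
import Pool.Agent.Helper23_Refl.Cert.TupA2
import Pool.Agent.Helper23_Refl.Cert.TupA3
import Pool.Agent.Helper23_Refl.Cert.TupA4
import Pool.Agent.Helper23_Refl.Cert.TupA5
import Pool.Agent.Helper23_Refl.Cert.TupB0
import Pool.Agent.Helper23_Refl.Cert.TupB1
import Pool.Agent.Helper23_Refl.Cert.TupB2
import Pool.Agent.Helper23_Refl.Cert.TupB3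
import Pool.Agent.Helper23_Refl.Cert.TupB4
import Pool.Agent.Helper23_Refl.Cert.TupB5

/-!
# All configurations
-/

namespace Pool.Agent.Refl.Fin

open Matrix

theorem ok_a0 : OkL Cert.a0 :=
  ok_app (ok_of Cert.t0)
  (ok_app (ok_of Cert.t1)
  (ok_app (ok_of Cert.t2)
  (ok_app (ok_of Cert.t3)
  (ok_app (ok_of Cert.t4)
  (ok_app (ok_of Cert.t5)
  (ok_app (ok_of Cert.t6) (ok_of Cert.t7)))))))
theorem ok_a1 : OkL Cert.a1 :=
  ok_app (ok_of Cert.t8)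
  (ok_app (ok_of Cert.t9)
  (ok_app (ok_of Cert.t10)
  (ok_app (ok_of Cert.t11)
  (ok_app (ok_of Cert.t12)
  (ok_app (ok_of Cert.t13)
  (ok_app (ok_of Cert.t14) (ok_of Cert.t15)))))))
theorem ok_a2 : OkL Cert.a2 :=
  ok_app (ok_of Cert.t16)
  (ok_app (ok_of Cert.t17)
  (ok_app (ok_of Cert.t18)
  (ok_app (ok_of Cert.t19)
  (ok_app (ok_of Cert.t20) (ok_of Cert.t21)))))
theorem ok_a3 : OkL Cert.a3 :=
  ok_nil
theorem ok_i0_5 : OkL Cert.i0_5 :=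
  ok_app (ok_of Cert.t22)
  (ok_app (ok_of Cert.t23)
  (ok_app (ok_of Cert.t24)
  (ok_app (ok_of Cert.t25)
  (ok_app (ok_of Cert.t26)
  (ok_app (ok_of Cert.t27)
  (ok_app (ok_of Cert.t28)
  (ok_app (ok_of Cert.t29)
  (ok_app (ok_of Cert.t30)
  (ok_app (ok_of Cert.t31)
  (ok_app (ok_of Cert.t32)
  (ok_app (ok_of Cert.t33)
  (ok_app (ok_of Cert.t34)
  (ok_app (ok_of Cert.t35)
  (ok_app (ok_of Cert.t36)
  (ok_app (ok_of Cert.t37)
  (ok_app (ok_of Cert.t38)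
  (ok_app (ok_of Cert.t39)
  (ok_app (ok_of Cert.t40)
  (ok_app (ok_of Cert.t41)
  (ok_app (ok_of Cert.t42)
  (ok_app (ok_of Cert.t43)
  (ok_app (ok_of Cert.t44)
  (ok_app (ok_of Cert.t45)
  (ok_app (ok_of Cert.t46)
  (ok_app (ok_of Cert.t47)
  (ok_app (ok_of Cert.t48)
  (ok_app (ok_of Cert.t49)
  (ok_app (ok_of Cert.t50)
  (ok_app (ok_of Cert.t51)
  (ok_app (ok_of Cert.t52)
  (ok_app (ok_of Cert.t53)
  (ok_app (ok_of Cert.t54)
  (ok_app (ok_of Cert.t55)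
  (ok_app (ok_of Cert.t56)
  (ok_app (ok_of Cert.t57)
  (ok_app (ok_of Cert.t58)
  (ok_app (ok_of Cert.t59)
  (ok_app (ok_of Cert.t60)
  (ok_app (ok_of Cert.t61)
  (ok_app (ok_of Cert.t62)
  (ok_app (ok_of Cert.t63)
  (ok_app (ok_of Cert.t64)
  (ok_app (ok_of Cert.t65)
  (ok_app (ok_of Cert.t66)
  (ok_app (ok_of Cert.t67)
  (ok_app (ok_of Cert.t68) (ok_of Cert.t69)))))))))))))))))))))))))))))))))))))))))))))))
theorem ok_i0_6 : OkL Cert.i0_6 :=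
  ok_app (ok_of Cert.t70)
  (ok_app (ok_of Cert.t71)
  (ok_app (ok_of Cert.t72)
  (ok_app (ok_of Cert.t73)
  (ok_app (ok_of Cert.t74)
  (ok_app (ok_of Cert.t75)
  (ok_app (ok_of Cert.t76)
  (ok_app (ok_of Cert.t77)
  (ok_app (ok_of Cert.t78)
  (ok_app (ok_of Cert.t79)
  (ok_app (ok_of Cert.t80)
  (ok_app (ok_of Cert.t81)
  (ok_app (ok_of Cert.t82)
  (ok_app (ok_of Cert.t83)
  (ok_app (ok_of Cert.t84)
  (ok_app (ok_of Cert.t85)
  (ok_app (ok_of Cert.t86)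
  (ok_app (ok_of Cert.t87)
  (ok_app (ok_of Cert.t88)
  (ok_app (ok_of Cert.t89)
  (ok_app (ok_of Cert.t90)
  (ok_app (ok_of Cert.t91)
  (ok_app (ok_of Cert.t92)
  (ok_app (ok_of Cert.t93)
  (ok_app (ok_of Cert.t94)
  (ok_app (ok_of Cert.t95)
  (ok_app (ok_of Cert.t96)
  (ok_app (ok_of Cert.t97)
  (ok_app (ok_of Cert.t98)
  (ok_app (ok_of Cert.t99)
  (ok_app (ok_of Cert.t100)
  (ok_app (ok_of Cert.t101)
  (ok_app (ok_of Cert.t102)
  (ok_app (ok_of Cert.t103)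
  (ok_app (ok_of Cert.t104)
  (ok_app (ok_of Cert.t105)
  (ok_app (ok_of Cert.t106)
  (ok_app (ok_of Cert.t107)
  (ok_app (ok_of Cert.t108)
  (ok_app (ok_of Cert.t109)
  (ok_app (ok_of Cert.t110)
  (ok_app (ok_of Cert.t111)
  (ok_app (ok_of Cert.t112)
  (ok_app (ok_of Cert.t113)
  (ok_app (ok_of Cert.t114)
  (ok_app (ok_of Cert.t115)
  (ok_app (ok_of Cert.t116)
  (ok_app (ok_of Cert.t117)
  (ok_app (ok_of Cert.t118)
  (ok_app (ok_of Cert.t119)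
  (ok_app (ok_of Cert.t120)
  (ok_app (ok_of Cert.t121)
  (ok_app (ok_of Cert.t122)
  (ok_app (ok_of Cert.t123)
  (ok_app (ok_of Cert.t124)
  (ok_app (ok_of Cert.t125)
  (ok_app (ok_of Cert.t126)
  (ok_app (ok_of Cert.t127)
  (ok_app (ok_of Cert.t128)
  (ok_app (ok_of Cert.t129)
  (ok_app (ok_of Cert.t130)
  (ok_app (ok_of Cert.t131)
  (ok_app (ok_of Cert.t132)
  (ok_app (ok_of Cert.t133)
  (ok_app (ok_of Cert.t134)
  (ok_app (ok_of Cert.t135)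
  (ok_app (ok_of Cert.t136)
  (ok_app (ok_of Cert.t137)
  (ok_app (ok_of Cert.t138)
  (ok_app (ok_of Cert.t139)
  (ok_app (ok_of Cert.t140)
  (ok_app (ok_of Cert.t141)
  (ok_app (ok_of Cert.t142)
  (ok_app (ok_of Cert.t143)
  (ok_app (ok_of Cert.t144)
  (ok_app (ok_of Cert.t145)
  (ok_app (ok_of Cert.t146)
  (ok_app (ok_of Cert.t147)
  (ok_app (ok_of Cert.t148)
  (ok_app (ok_of Cert.t149)
  (ok_app (ok_of Cert.t150)
  (ok_app (ok_of Cert.t151)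
  (ok_app (ok_of Cert.t152)
  (ok_app (ok_of Cert.t153)
  (ok_app (ok_of Cert.t154)
  (ok_app (ok_of Cert.t155)
  (ok_app (ok_of Cert.t156)
  (ok_app (ok_of Cert.t157)
  (ok_app (ok_of Cert.t158)
  (ok_app (ok_of Cert.t159)
  (ok_app (ok_of Cert.t160)
  (ok_app (ok_of Cert.t161)
  (ok_app (ok_of Cert.t162)
  (ok_app (ok_of Cert.t163)
  (ok_app (ok_of Cert.t164)
  (ok_app (ok_of Cert.t165)
  (ok_app (ok_of Cert.t166)
  (ok_app (ok_of Cert.t167)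
  (ok_app (ok_of Cert.t168)
  (ok_app (ok_of Cert.t169)
  (ok_app (ok_of Cert.t170)
  (ok_app (ok_of Cert.t171)
  (ok_app (ok_of Cert.t172)
  (ok_app (ok_of Cert.t173)
  (ok_app (ok_of Cert.t174)
  (ok_app (ok_of Cert.t175)
  (ok_app (ok_of Cert.t176)
  (ok_app (ok_of Cert.t177)
  (ok_app (ok_of Cert.t178)
  (ok_app (ok_of Cert.t179)
  (ok_app (ok_of Cert.t180)
  (ok_app (ok_of Cert.t181)
  (ok_app (ok_of Cert.t182)
  (ok_app (ok_of Cert.t183)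
  (ok_app (ok_of Cert.t184)
  (ok_app (ok_of Cert.t185)
  (ok_app (ok_of Cert.t186)
  (ok_app (ok_of Cert.t187)
  (ok_app (ok_of Cert.t188)
  (ok_app (ok_of Cert.t189)
  (ok_app (ok_of Cert.t190)
  (ok_app (ok_of Cert.t191)
  (ok_app (ok_of Cert.t192)
  (ok_app (ok_of Cert.t193)
  (ok_app (ok_of Cert.t194)
  (ok_app (ok_of Cert.t195)
  (ok_app (ok_of Cert.t196)
  (ok_app (ok_of Cert.t197)
  (ok_app (ok_of Cert.t198)
  (ok_app (ok_of Cert.t199)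
  (ok_app (ok_of Cert.t200)
  (ok_app (ok_of Cert.t201)
  (ok_app (ok_of Cert.t202)
  (ok_app (ok_of Cert.t203)
  (ok_app (ok_of Cert.t204)
  (ok_app (ok_of Cert.t205)
  (ok_app (ok_of Cert.t206)
  (ok_app (ok_of Cert.t207)
  (ok_app (ok_of Cert.t208)
  (ok_app (ok_of Cert.t209)
  (ok_app (ok_of Cert.t210)
  (ok_app (ok_of Cert.t211)
  (ok_app (ok_of Cert.t212)
  (ok_app (ok_of Cert.t213) (ok_of Cert.t214))))))))))))))))))))))))))))))))))))))))))))))))))))))))))))))))))))))))))))))))))))))))))))))))))))))))))))))))))))))))))))))))))))))))))))))))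
theorem ok_i0_7 : OkL Cert.i0_7 :=
  ok_app (ok_of Cert.t215)
  (ok_app (ok_of Cert.t216)
  (ok_app (ok_of Cert.t217)
  (ok_app (ok_of Cert.t218)
  (ok_app (ok_of Cert.t219)
  (ok_app (ok_of Cert.t220)
  (ok_app (ok_of Cert.t221)
  (ok_app (ok_of Cert.t222)
  (ok_app (ok_of Cert.t223)
  (ok_app (ok_of Cert.t224)
  (ok_app (ok_of Cert.t225)
  (ok_app (ok_of Cert.t226)
  (ok_app (ok_of Cert.t227)
  (ok_app (ok_of Cert.t228)
  (ok_app (ok_of Cert.t229)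
  (ok_app (ok_of Cert.t230)
  (ok_app (ok_of Cert.t231)
  (ok_app (ok_of Cert.t232)
  (ok_app (ok_of Cert.t233)
  (ok_app (ok_of Cert.t234)
  (ok_app (ok_of Cert.t235)
  (ok_app (ok_of Cert.t236)
  (ok_app (ok_of Cert.t237) (ok_of Cert.t238)))))))))))))))))))))))
theorem ok_i0_8 : OkL Cert.i0_8 :=
  ok_app (ok_of Cert.t239)
  (ok_app (ok_of Cert.t240)
  (ok_app (ok_of Cert.t241)
  (ok_app (ok_of Cert.t242)
  (ok_app (ok_of Cert.t243)
  (ok_app (ok_of Cert.t244)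
  (ok_app (ok_of Cert.t245)
  (ok_app (ok_of Cert.t246)
  (ok_app (ok_of Cert.t247)
  (ok_app (ok_of Cert.t248)
  (ok_app (ok_of Cert.t249)
  (ok_app (ok_of Cert.t250)
  (ok_app (ok_of Cert.t251)
  (ok_app (ok_of Cert.t252)
  (ok_app (ok_of Cert.t253)
  (ok_app (ok_of Cert.t254)
  (ok_app (ok_of Cert.t255)
  (ok_app (ok_of Cert.t256)
  (ok_app (ok_of Cert.t257)
  (ok_app (ok_of Cert.t258)
  (ok_app (ok_of Cert.t259)
  (ok_app (ok_of Cert.t260)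
  (ok_app (ok_of Cert.t261)
  (ok_app (ok_of Cert.t262)
  (ok_app (ok_of Cert.t263)
  (ok_app (ok_of Cert.t264)
  (ok_app (ok_of Cert.t265)
  (ok_app (ok_of Cert.t266)
  (ok_app (ok_of Cert.t267)
  (ok_app (ok_of Cert.t268)
  (ok_app (ok_of Cert.t269)
  (ok_app (ok_of Cert.t270)
  (ok_app (ok_of Cert.t271)
  (ok_app (ok_of Cert.t272)
  (ok_app (ok_of Cert.t273)
  (ok_app (ok_of Cert.t274)
  (ok_app (ok_of Cert.t275)
  (ok_app (ok_of Cert.t276)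
  (ok_app (ok_of Cert.t277)
  (ok_app (ok_of Cert.t278)
  (ok_app (ok_of Cert.t279)
  (ok_app (ok_of Cert.t280)
  (ok_app (ok_of Cert.t281)
  (ok_app (ok_of Cert.t282)
  (ok_app (ok_of Cert.t283)
  (ok_app (ok_of Cert.t284)
  (ok_app (ok_of Cert.t285)
  (ok_app (ok_of Cert.t286)
  (ok_app (ok_of Cert.t287)
  (ok_app (ok_of Cert.t288)
  (ok_app (ok_of Cert.t289)
  (ok_app (ok_of Cert.t290)
  (ok_app (ok_of Cert.t291)
  (ok_app (ok_of Cert.t292)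
  (ok_app (ok_of Cert.t293)
  (ok_app (ok_of Cert.t294)
  (ok_app (ok_of Cert.t295)
  (ok_app (ok_of Cert.t296)
  (ok_app (ok_of Cert.t297)
  (ok_app (ok_of Cert.t298)
  (ok_app (ok_of Cert.t299)
  (ok_app (ok_of Cert.t300)
  (ok_app (ok_of Cert.t301)
  (ok_app (ok_of Cert.t302)
  (ok_app (ok_of Cert.t303)
  (ok_app (ok_of Cert.t304)
  (ok_app (ok_of Cert.t305)
  (ok_app (ok_of Cert.t306)
  (ok_app (ok_of Cert.t307)
  (ok_app (ok_of Cert.t308)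
  (ok_app (ok_of Cert.t309)
  (ok_app (ok_of Cert.t310)
  (ok_app (ok_of Cert.t311)
  (ok_app (ok_of Cert.t312)
  (ok_app (ok_of Cert.t313)
  (ok_app (ok_of Cert.t314)
  (ok_app (ok_of Cert.t315)
  (ok_app (ok_of Cert.t316)
  (ok_app (ok_of Cert.t317)
  (ok_app (ok_of Cert.t318)
  (ok_app (ok_of Cert.t319)
  (ok_app (ok_of Cert.t320)
  (ok_app (ok_of Cert.t321)
  (ok_app (ok_of Cert.t322)
  (ok_app (ok_of Cert.t323)
  (ok_app (ok_of Cert.t324)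
  (ok_app (ok_of Cert.t325)
  (ok_app (ok_of Cert.t326)
  (ok_app (ok_of Cert.t327)
  (ok_app (ok_of Cert.t328)
  (ok_app (ok_of Cert.t329)
  (ok_app (ok_of Cert.t330)
  (ok_app (ok_of Cert.t331)
  (ok_app (ok_of Cert.t332)
  (ok_app (ok_of Cert.t333)
  (ok_app (ok_of Cert.t334)
  (ok_app (ok_of Cert.t335)
  (ok_app (ok_of Cert.t336)
  (ok_app (ok_of Cert.t337)
  (ok_app (ok_of Cert.t338)
  (ok_app (ok_of Cert.t339)
  (ok_app (ok_of Cert.t340)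
  (ok_app (ok_of Cert.t341)
  (ok_app (ok_of Cert.t342)
  (ok_app (ok_of Cert.t343)
  (ok_app (ok_of Cert.t344)
  (ok_app (ok_of Cert.t345)
  (ok_app (ok_of Cert.t346)
  (ok_app (ok_of Cert.t347)
  (ok_app (ok_of Cert.t348)
  (ok_app (ok_of Cert.t349)
  (ok_app (ok_of Cert.t350)
  (ok_app (ok_of Cert.t351)
  (ok_app (ok_of Cert.t352)
  (ok_app (ok_of Cert.t353)
  (ok_app (ok_of Cert.t354)
  (ok_app (ok_of Cert.t355)
  (ok_app (ok_of Cert.t356)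
  (ok_app (ok_of Cert.t357)
  (ok_app (ok_of Cert.t358)
  (ok_app (ok_of Cert.t359)
  (ok_app (ok_of Cert.t360)
  (ok_app (ok_of Cert.t361)
  (ok_app (ok_of Cert.t362)
  (ok_app (ok_of Cert.t363) (ok_of Cert.t364)))))))))))))))))))))))))))))))))))))))))))))))))))))))))))))))))))))))))))))))))))))))))))))))))))))))))))))))))))))))))))))
theorem ok_i0_9 : OkL Cert.i0_9 :=
  ok_app (ok_of Cert.t365)
  (ok_app (ok_of Cert.t366)
  (ok_app (ok_of Cert.t367)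
  (ok_app (ok_of Cert.t368)
  (ok_app (ok_of Cert.t369)
  (ok_app (ok_of Cert.t370) (ok_of Cert.t371))))))
theorem ok_i0_10 : OkL Cert.i0_10 :=
  ok_app (ok_of Cert.t372)
  (ok_app (ok_of Cert.t373)
  (ok_app (ok_of Cert.t374)
  (ok_app (ok_of Cert.t375)
  (ok_app (ok_of Cert.t376)
  (ok_app (ok_of Cert.t377)
  (ok_app (ok_of Cert.t378)
  (ok_app (ok_of Cert.t379)
  (ok_app (ok_of Cert.t380)
  (ok_app (ok_of Cert.t381)
  (ok_app (ok_of Cert.t382)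
  (ok_app (ok_of Cert.t383)
  (ok_app (ok_of Cert.t384)
  (ok_app (ok_of Cert.t385)
  (ok_app (ok_of Cert.t386)
  (ok_app (ok_of Cert.t387)
  (ok_app (ok_of Cert.t388)
  (ok_app (ok_of Cert.t389)
  (ok_app (ok_of Cert.t390)
  (ok_app (ok_of Cert.t391)
  (ok_app (ok_of Cert.t392)
  (ok_app (ok_of Cert.t393)
  (ok_app (ok_of Cert.t394)
  (ok_app (ok_of Cert.t395)
  (ok_app (ok_of Cert.t396)
  (ok_app (ok_of Cert.t397)
  (ok_app (ok_of Cert.t398)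
  (ok_app (ok_of Cert.t399)
  (ok_app (ok_of Cert.t400)
  (ok_app (ok_of Cert.t401)
  (ok_app (ok_of Cert.t402)
  (ok_app (ok_of Cert.t403)
  (ok_app (ok_of Cert.t404)
  (ok_app (ok_of Cert.t405)
  (ok_app (ok_of Cert.t406)
  (ok_app (ok_of Cert.t407)
  (ok_app (ok_of Cert.t408)
  (ok_app (ok_of Cert.t409)
  (ok_app (ok_of Cert.t410)
  (ok_app (ok_of Cert.t411)
  (ok_app (ok_of Cert.t412)
  (ok_app (ok_of Cert.t413)
  (ok_app (ok_of Cert.t414)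
  (ok_app (ok_of Cert.t415)
  (ok_app (ok_of Cert.t416)
  (ok_app (ok_of Cert.t417) (ok_of Cert.t418))))))))))))))))))))))))))))))))))))))))))))))
theorem ok_i0_11 : OkL Cert.i0_11 :=
  ok_app (ok_of Cert.t419)
  (ok_app (ok_of Cert.t420)
  (ok_app (ok_of Cert.t421) (ok_of Cert.t422)))
theorem ok_i0_12 : OkL Cert.i0_12 :=
  ok_app (ok_of Cert.t423)
  (ok_app (ok_of Cert.t424)
  (ok_app (ok_of Cert.t425)
  (ok_app (ok_of Cert.t426)
  (ok_app (ok_of Cert.t427)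
  (ok_app (ok_of Cert.t428)
  (ok_app (ok_of Cert.t429)
  (ok_app (ok_of Cert.t430)
  (ok_app (ok_of Cert.t431)
  (ok_app (ok_of Cert.t432)
  (ok_app (ok_of Cert.t433)
  (ok_app (ok_of Cert.t434)
  (ok_app (ok_of Cert.t435)
  (ok_app (ok_of Cert.t436)
  (ok_app (ok_of Cert.t437)
  (ok_app (ok_of Cert.t438)
  (ok_app (ok_of Cert.t439)
  (ok_app (ok_of Cert.t440)
  (ok_app (ok_of Cert.t441)
  (ok_app (ok_of Cert.t442)
  (ok_app (ok_of Cert.t443)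
  (ok_app (ok_of Cert.t444)
  (ok_app (ok_of Cert.t445)
  (ok_app (ok_of Cert.t446)
  (ok_app (ok_of Cert.t447)
  (ok_app (ok_of Cert.t448)
  (ok_app (ok_of Cert.t449)
  (ok_app (ok_of Cert.t450)
  (ok_app (ok_of Cert.t451)
  (ok_app (ok_of Cert.t452)
  (ok_app (ok_of Cert.t453)
  (ok_app (ok_of Cert.t454)
  (ok_app (ok_of Cert.t455)
  (ok_app (ok_of Cert.t456)
  (ok_app (ok_of Cert.t457)
  (ok_app (ok_of Cert.t458)
  (ok_app (ok_of Cert.t459) (ok_of Cert.t460)))))))))))))))))))))))))))))))))))))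
theorem ok_i0_13 : OkL Cert.i0_13 :=
  ok_app (ok_of Cert.t461) (ok_of Cert.t462)
theorem ok_i0_14 : OkL Cert.i0_14 :=
  ok_app (ok_of Cert.t463)
  (ok_app (ok_of Cert.t464)
  (ok_app (ok_of Cert.t465)
  (ok_app (ok_of Cert.t466)
  (ok_app (ok_of Cert.t467)
  (ok_app (ok_of Cert.t468)
  (ok_app (ok_of Cert.t469)
  (ok_app (ok_of Cert.t470)
  (ok_app (ok_of Cert.t471)
  (ok_app (ok_of Cert.t472)
  (ok_app (ok_of Cert.t473)
  (ok_app (ok_of Cert.t474)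
  (ok_app (ok_of Cert.t475)
  (ok_app (ok_of Cert.t476)
  (ok_app (ok_of Cert.t477) (ok_of Cert.t478)))))))))))))))
theorem ok_i0_15 : OkL Cert.i0_15 :=
  ok_app (ok_of Cert.t479)
  (ok_app (ok_of Cert.t480) (ok_of Cert.t481))
theorem ok_i0_16 : OkL Cert.i0_16 :=
  ok_app (ok_of Cert.t482)
  (ok_app (ok_of Cert.t483)
  (ok_app (ok_of Cert.t484)
  (ok_app (ok_of Cert.t485)
  (ok_app (ok_of Cert.t486)
  (ok_app (ok_of Cert.t487)
  (ok_app (ok_of Cert.t488)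
  (ok_app (ok_of Cert.t489)
  (ok_app (ok_of Cert.t490)
  (ok_app (ok_of Cert.t491)
  (ok_app (ok_of Cert.t492)
  (ok_app (ok_of Cert.t493)
  (ok_app (ok_of Cert.t494) (ok_of Cert.t495)))))))))))))
theorem ok_i1_5 : OkL Cert.i1_5 :=
  ok_app (ok_of Cert.t496)
  (ok_app (ok_of Cert.t497) (ok_of Cert.t498))
theorem ok_i1_6 : OkL Cert.i1_6 :=
  ok_app (ok_of Cert.t499)
  (ok_app (ok_of Cert.t500)
  (ok_app (ok_of Cert.t501)
  (ok_app (ok_of Cert.t502)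
  (ok_app (ok_of Cert.t503) (ok_of Cert.t504)))))
theorem ok_i1_7 : OkL Cert.i1_7 :=
  ok_app (ok_of Cert.t505)
  (ok_app (ok_of Cert.t506)
  (ok_app (ok_of Cert.t507)
  (ok_app (ok_of Cert.t508)
  (ok_app (ok_of Cert.t509)
  (ok_app (ok_of Cert.t510)
  (ok_app (ok_of Cert.t511)
  (ok_app (ok_of Cert.t512)
  (ok_app (ok_of Cert.t513)
  (ok_app (ok_of Cert.t514)
  (ok_app (ok_of Cert.t515)
  (ok_app (ok_of Cert.t516)
  (ok_app (ok_of Cert.t517)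
  (ok_app (ok_of Cert.t518)
  (ok_app (ok_of Cert.t519)
  (ok_app (ok_of Cert.t520)
  (ok_app (ok_of Cert.t521) (ok_of Cert.t522)))))))))))))))))
theorem ok_i1_8 : OkL Cert.i1_8 :=
  ok_app (ok_of Cert.t523) (ok_of Cert.t524)
theorem ok_i1_9 : OkL Cert.i1_9 :=
  ok_app (ok_of Cert.t525) (ok_of Cert.t526)
theorem ok_i1_10 : OkL Cert.i1_10 :=
  ok_app (ok_of Cert.t527)
  (ok_app (ok_of Cert.t528)
  (ok_app (ok_of Cert.t529)
  (ok_app (ok_of Cert.t530)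
  (ok_app (ok_of Cert.t531)
  (ok_app (ok_of Cert.t532) (ok_of Cert.t533))))))
theorem ok_i1_11 : OkL Cert.i1_11 :=
  ok_app (ok_of Cert.t534) (ok_of Cert.t535)
theorem ok_i1_12 : OkL Cert.i1_12 :=
  ok_app (ok_of Cert.t536) (ok_of Cert.t537)
theorem ok_i1_13 : OkL Cert.i1_13 :=
  ok_app (ok_of Cert.t538)
  (ok_app (ok_of Cert.t539)
  (ok_app (ok_of Cert.t540)
  (ok_app (ok_of Cert.t541)
  (ok_app (ok_of Cert.t542)
  (ok_app (ok_of Cert.t543)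
  (ok_app (ok_of Cert.t544)
  (ok_app (ok_of Cert.t545) (ok_of Cert.t546))))))))
theorem ok_i1_14 : OkL Cert.i1_14 :=
  ok_of Cert.t547
theorem ok_i1_15 : OkL Cert.i1_15 :=
  ok_of Cert.t548
theorem ok_i1_16 : OkL Cert.i1_16 :=
  ok_app (ok_of Cert.t549)
  (ok_app (ok_of Cert.t550)
  (ok_app (ok_of Cert.t551)
  (ok_app (ok_of Cert.t552)
  (ok_app (ok_of Cert.t553)
  (ok_app (ok_of Cert.t554) (ok_of Cert.t555))))))
theorem ok_i1_17 : OkL Cert.i1_17 :=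
  ok_of Cert.t556
theorem ok_i1_18 : OkL Cert.i1_18 :=
  ok_of Cert.t557
theorem ok_i1_19 : OkL Cert.i1_19 :=
  ok_app (ok_of Cert.t558)
  (ok_app (ok_of Cert.t559) (ok_of Cert.t560))
theorem ok_i1_20 : OkL Cert.i1_20 :=
  ok_of Cert.t561
theorem ok_i1_21 : OkL Cert.i1_21 :=
  ok_of Cert.t562
theorem ok_i1_22 : OkL Cert.i1_22 :=
  ok_of Cert.t563
theorem ok_i1_23 : OkL Cert.i1_23 :=
  ok_of Cert.t564
theorem ok_i1_24 : OkL Cert.i1_24 :=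
  ok_of Cert.t565
theorem ok_i1_25 : OkL Cert.i1_25 :=
  ok_of Cert.t566
theorem ok_i2_5 : OkL Cert.i2_5 :=
  ok_app (ok_of Cert.t567)
  (ok_app (ok_of Cert.t568)
  (ok_app (ok_of Cert.t569)
  (ok_app (ok_of Cert.t570)
  (ok_app (ok_of Cert.t571)
  (ok_app (ok_of Cert.t572)
  (ok_app (ok_of Cert.t573)
  (ok_app (ok_of Cert.t574)
  (ok_app (ok_of Cert.t575)
  (ok_app (ok_of Cert.t576)
  (ok_app (ok_of Cert.t577)
  (ok_app (ok_of Cert.t578)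
  (ok_app (ok_of Cert.t579)
  (ok_app (ok_of Cert.t580)
  (ok_app (ok_of Cert.t581)
  (ok_app (ok_of Cert.t582)
  (ok_app (ok_of Cert.t583)
  (ok_app (ok_of Cert.t584)
  (ok_app (ok_of Cert.t585)
  (ok_app (ok_of Cert.t586)
  (ok_app (ok_of Cert.t587)
  (ok_app (ok_of Cert.t588)
  (ok_app (ok_of Cert.t589)
  (ok_app (ok_of Cert.t590)
  (ok_app (ok_of Cert.t591)
  (ok_app (ok_of Cert.t592)
  (ok_app (ok_of Cert.t593)
  (ok_app (ok_of Cert.t594)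
  (ok_app (ok_of Cert.t595)
  (ok_app (ok_of Cert.t596)
  (ok_app (ok_of Cert.t597)
  (ok_app (ok_of Cert.t598)
  (ok_app (ok_of Cert.t599)
  (ok_app (ok_of Cert.t600)
  (ok_app (ok_of Cert.t601)
  (ok_app (ok_of Cert.t602)
  (ok_app (ok_of Cert.t603)
  (ok_app (ok_of Cert.t604)
  (ok_app (ok_of Cert.t605)
  (ok_app (ok_of Cert.t606)
  (ok_app (ok_of Cert.t607)
  (ok_app (ok_of Cert.t608)
  (ok_app (ok_of Cert.t609)
  (ok_app (ok_of Cert.t610)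
  (ok_app (ok_of Cert.t611)
  (ok_app (ok_of Cert.t612)
  (ok_app (ok_of Cert.t613)
  (ok_app (ok_of Cert.t614)
  (ok_app (ok_of Cert.t615)
  (ok_app (ok_of Cert.t616)
  (ok_app (ok_of Cert.t617)
  (ok_app (ok_of Cert.t618) (ok_of Cert.t619))))))))))))))))))))))))))))))))))))))))))))))))))))
theorem ok_i2_6 : OkL Cert.i2_6 :=
  ok_app (ok_of Cert.t620)
  (ok_app (ok_of Cert.t621)
  (ok_app (ok_of Cert.t622)
  (ok_app (ok_of Cert.t623)
  (ok_app (ok_of Cert.t624)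
  (ok_app (ok_of Cert.t625)
  (ok_app (ok_of Cert.t626)
  (ok_app (ok_of Cert.t627)
  (ok_app (ok_of Cert.t628)
  (ok_app (ok_of Cert.t629)
  (ok_app (ok_of Cert.t630)
  (ok_app (ok_of Cert.t631)
  (ok_app (ok_of Cert.t632)
  (ok_app (ok_of Cert.t633)
  (ok_app (ok_of Cert.t634)
  (ok_app (ok_of Cert.t635)
  (ok_app (ok_of Cert.t636)
  (ok_app (ok_of Cert.t637)
  (ok_app (ok_of Cert.t638)
  (ok_app (ok_of Cert.t639)
  (ok_app (ok_of Cert.t640)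
  (ok_app (ok_of Cert.t641)
  (ok_app (ok_of Cert.t642)
  (ok_app (ok_of Cert.t643)
  (ok_app (ok_of Cert.t644)
  (ok_app (ok_of Cert.t645)
  (ok_app (ok_of Cert.t646)
  (ok_app (ok_of Cert.t647)
  (ok_app (ok_of Cert.t648)
  (ok_app (ok_of Cert.t649)
  (ok_app (ok_of Cert.t650)
  (ok_app (ok_of Cert.t651)
  (ok_app (ok_of Cert.t652)
  (ok_app (ok_of Cert.t653)
  (ok_app (ok_of Cert.t654)
  (ok_app (ok_of Cert.t655)
  (ok_app (ok_of Cert.t656)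
  (ok_app (ok_of Cert.t657)
  (ok_app (ok_of Cert.t658)
  (ok_app (ok_of Cert.t659)
  (ok_app (ok_of Cert.t660)
  (ok_app (ok_of Cert.t661)
  (ok_app (ok_of Cert.t662)
  (ok_app (ok_of Cert.t663)
  (ok_app (ok_of Cert.t664)
  (ok_app (ok_of Cert.t665)
  (ok_app (ok_of Cert.t666)
  (ok_app (ok_of Cert.t667)
  (ok_app (ok_of Cert.t668)
  (ok_app (ok_of Cert.t669)
  (ok_app (ok_of Cert.t670)
  (ok_app (ok_of Cert.t671)
  (ok_app (ok_of Cert.t672)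
  (ok_app (ok_of Cert.t673)
  (ok_app (ok_of Cert.t674)
  (ok_app (ok_of Cert.t675) (ok_of Cert.t676))))))))))))))))))))))))))))))))))))))))))))))))))))))))
theorem ok_i2_7 : OkL Cert.i2_7 :=
  ok_app (ok_of Cert.t677)
  (ok_app (ok_of Cert.t678)
  (ok_app (ok_of Cert.t679)
  (ok_app (ok_of Cert.t680)
  (ok_app (ok_of Cert.t681)
  (ok_app (ok_of Cert.t682)
  (ok_app (ok_of Cert.t683)
  (ok_app (ok_of Cert.t684)
  (ok_app (ok_of Cert.t685)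
  (ok_app (ok_of Cert.t686)
  (ok_app (ok_of Cert.t687)
  (ok_app (ok_of Cert.t688) (ok_of Cert.t689))))))))))))
theorem ok_i2_8 : OkL Cert.i2_8 :=
  ok_app (ok_of Cert.t690)
  (ok_app (ok_of Cert.t691)
  (ok_app (ok_of Cert.t692)
  (ok_app (ok_of Cert.t693)
  (ok_app (ok_of Cert.t694)
  (ok_app (ok_of Cert.t695)
  (ok_app (ok_of Cert.t696)
  (ok_app (ok_of Cert.t697)
  (ok_app (ok_of Cert.t698)
  (ok_app (ok_of Cert.t699)
  (ok_app (ok_of Cert.t700)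
  (ok_app (ok_of Cert.t701)
  (ok_app (ok_of Cert.t702)
  (ok_app (ok_of Cert.t703)
  (ok_app (ok_of Cert.t704)
  (ok_app (ok_of Cert.t705)
  (ok_app (ok_of Cert.t706)
  (ok_app (ok_of Cert.t707)
  (ok_app (ok_of Cert.t708)
  (ok_app (ok_of Cert.t709)
  (ok_app (ok_of Cert.t710)
  (ok_app (ok_of Cert.t711)
  (ok_app (ok_of Cert.t712)
  (ok_app (ok_of Cert.t713)
  (ok_app (ok_of Cert.t714)
  (ok_app (ok_of Cert.t715)
  (ok_app (ok_of Cert.t716)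
  (ok_app (ok_of Cert.t717)
  (ok_app (ok_of Cert.t718)
  (ok_app (ok_of Cert.t719)
  (ok_app (ok_of Cert.t720)
  (ok_app (ok_of Cert.t721)
  (ok_app (ok_of Cert.t722)
  (ok_app (ok_of Cert.t723)
  (ok_app (ok_of Cert.t724)
  (ok_app (ok_of Cert.t725)
  (ok_app (ok_of Cert.t726)
  (ok_app (ok_of Cert.t727)
  (ok_app (ok_of Cert.t728)
  (ok_app (ok_of Cert.t729) (ok_of Cert.t730))))))))))))))))))))))))))))))))))))))))
theorem ok_i2_9 : OkL Cert.i2_9 :=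
  ok_app (ok_of Cert.t731)
  (ok_app (ok_of Cert.t732)
  (ok_app (ok_of Cert.t733)
  (ok_app (ok_of Cert.t734)
  (ok_app (ok_of Cert.t735)
  (ok_app (ok_of Cert.t736)
  (ok_app (ok_of Cert.t737) (ok_of Cert.t738)))))))
theorem ok_i2_10 : OkL Cert.i2_10 :=
  ok_app (ok_of Cert.t739)
  (ok_app (ok_of Cert.t740)
  (ok_app (ok_of Cert.t741)
  (ok_app (ok_of Cert.t742)
  (ok_app (ok_of Cert.t743)
  (ok_app (ok_of Cert.t744)
  (ok_app (ok_of Cert.t745)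
  (ok_app (ok_of Cert.t746)
  (ok_app (ok_of Cert.t747)
  (ok_app (ok_of Cert.t748)
  (ok_app (ok_of Cert.t749)
  (ok_app (ok_of Cert.t750)
  (ok_app (ok_of Cert.t751)
  (ok_app (ok_of Cert.t752)
  (ok_app (ok_of Cert.t753)
  (ok_app (ok_of Cert.t754)
  (ok_app (ok_of Cert.t755)
  (ok_app (ok_of Cert.t756)
  (ok_app (ok_of Cert.t757)
  (ok_app (ok_of Cert.t758) (ok_of Cert.t759))))))))))))))))))))
theorem ok_i2_11 : OkL Cert.i2_11 :=
  ok_app (ok_of Cert.t760)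
  (ok_app (ok_of Cert.t761)
  (ok_app (ok_of Cert.t762)
  (ok_app (ok_of Cert.t763)
  (ok_app (ok_of Cert.t764)
  (ok_app (ok_of Cert.t765) (ok_of Cert.t766))))))
theorem ok_i2_12 : OkL Cert.i2_12 :=
  ok_app (ok_of Cert.t767)
  (ok_app (ok_of Cert.t768)
  (ok_app (ok_of Cert.t769)
  (ok_app (ok_of Cert.t770)
  (ok_app (ok_of Cert.t771)
  (ok_app (ok_of Cert.t772)
  (ok_app (ok_of Cert.t773)
  (ok_app (ok_of Cert.t774)
  (ok_app (ok_of Cert.t775) (ok_of Cert.t776)))))))))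
theorem ok_i2_13 : OkL Cert.i2_13 :=
  ok_app (ok_of Cert.t777)
  (ok_app (ok_of Cert.t778) (ok_of Cert.t779))
theorem ok_i2_14 : OkL Cert.i2_14 :=
  ok_app (ok_of Cert.t780)
  (ok_app (ok_of Cert.t781)
  (ok_app (ok_of Cert.t782)
  (ok_app (ok_of Cert.t783)
  (ok_app (ok_of Cert.t784)
  (ok_app (ok_of Cert.t785)
  (ok_app (ok_of Cert.t786)
  (ok_app (ok_of Cert.t787)
  (ok_app (ok_of Cert.t788) (ok_of Cert.t789)))))))))
theorem ok_i2_15 : OkL Cert.i2_15 :=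
  ok_of Cert.t790
theorem ok_i2_16 : OkL Cert.i2_16 :=
  ok_app (ok_of Cert.t791)
  (ok_app (ok_of Cert.t792)
  (ok_app (ok_of Cert.t793) (ok_of Cert.t794)))
theorem ok_i2_17 : OkL Cert.i2_17 :=
  ok_app (ok_of Cert.t795)
  (ok_app (ok_of Cert.t796)
  (ok_app (ok_of Cert.t797) (ok_of Cert.t798)))
theorem ok_i2_18 : OkL Cert.i2_18 :=
  ok_app (ok_of Cert.t799)
  (ok_app (ok_of Cert.t800)
  (ok_app (ok_of Cert.t801)
  (ok_app (ok_of Cert.t802)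
  (ok_app (ok_of Cert.t803) (ok_of Cert.t804)))))
theorem ok_i2_19 : OkL Cert.i2_19 :=
  ok_of Cert.t805
theorem ok_i2_20 : OkL Cert.i2_20 :=
  ok_app (ok_of Cert.t806)
  (ok_app (ok_of Cert.t807)
  (ok_app (ok_of Cert.t808) (ok_of Cert.t809)))
theorem ok_i2_21 : OkL Cert.i2_21 :=
  ok_of Cert.t810
theorem ok_i2_22 : OkL Cert.i2_22 :=
  ok_of Cert.t811
theorem ok_i2_23 : OkL Cert.i2_23 :=
  ok_of Cert.t812
theorem ok_i2_24 : OkL Cert.i2_24 :=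
  ok_of Cert.t813
theorem ok_i2_25 : OkL Cert.i2_25 :=
  ok_of Cert.t814
theorem ok_i2_26 : OkL Cert.i2_26 :=
  ok_app (ok_of Cert.t815)
  (ok_app (ok_of Cert.t816) (ok_of Cert.t817))
theorem ok_i2_27 : OkL Cert.i2_27 :=
  ok_of Cert.t818
theorem ok_i2_28 : OkL Cert.i2_28 :=
  ok_of Cert.t819
theorem ok_i2_29 : OkL Cert.i2_29 :=
  ok_of Cert.t820
theorem ok_i3_5 : OkL Cert.i3_5 :=
  ok_app (ok_of Cert.t821)
  (ok_app (ok_of Cert.t822)
  (ok_app (ok_of Cert.t823)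
  (ok_app (ok_of Cert.t824)
  (ok_app (ok_of Cert.t825)
  (ok_app (ok_of Cert.t826)
  (ok_app (ok_of Cert.t827)
  (ok_app (ok_of Cert.t828)
  (ok_app (ok_of Cert.t829)
  (ok_app (ok_of Cert.t830)
  (ok_app (ok_of Cert.t831)
  (ok_app (ok_of Cert.t832)
  (ok_app (ok_of Cert.t833)
  (ok_app (ok_of Cert.t834)
  (ok_app (ok_of Cert.t835)
  (ok_app (ok_of Cert.t836)
  (ok_app (ok_of Cert.t837)
  (ok_app (ok_of Cert.t838)
  (ok_app (ok_of Cert.t839)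
  (ok_app (ok_of Cert.t840)
  (ok_app (ok_of Cert.t841)
  (ok_app (ok_of Cert.t842)
  (ok_app (ok_of Cert.t843)
  (ok_app (ok_of Cert.t844)
  (ok_app (ok_of Cert.t845)
  (ok_app (ok_of Cert.t846)
  (ok_app (ok_of Cert.t847)
  (ok_app (ok_of Cert.t848)
  (ok_app (ok_of Cert.t849)
  (ok_app (ok_of Cert.t850)
  (ok_app (ok_of Cert.t851)
  (ok_app (ok_of Cert.t852)
  (ok_app (ok_of Cert.t853)
  (ok_app (ok_of Cert.t854)
  (ok_app (ok_of Cert.t855)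
  (ok_app (ok_of Cert.t856)
  (ok_app (ok_of Cert.t857)
  (ok_app (ok_of Cert.t858)
  (ok_app (ok_of Cert.t859)
  (ok_app (ok_of Cert.t860)
  (ok_app (ok_of Cert.t861)
  (ok_app (ok_of Cert.t862)
  (ok_app (ok_of Cert.t863)
  (ok_app (ok_of Cert.t864)
  (ok_app (ok_of Cert.t865)
  (ok_app (ok_of Cert.t866)
  (ok_app (ok_of Cert.t867)
  (ok_app (ok_of Cert.t868)
  (ok_app (ok_of Cert.t869)
  (ok_app (ok_of Cert.t870)
  (ok_app (ok_of Cert.t871)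
  (ok_app (ok_of Cert.t872)
  (ok_app (ok_of Cert.t873)
  (ok_app (ok_of Cert.t874)
  (ok_app (ok_of Cert.t875)
  (ok_app (ok_of Cert.t876)
  (ok_app (ok_of Cert.t877)
  (ok_app (ok_of Cert.t878)
  (ok_app (ok_of Cert.t879)
  (ok_app (ok_of Cert.t880)
  (ok_app (ok_of Cert.t881)
  (ok_app (ok_of Cert.t882)
  (ok_app (ok_of Cert.t883)
  (ok_app (ok_of Cert.t884)
  (ok_app (ok_of Cert.t885)
  (ok_app (ok_of Cert.t886)
  (ok_app (ok_of Cert.t887)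
  (ok_app (ok_of Cert.t888)
  (ok_app (ok_of Cert.t889)
  (ok_app (ok_of Cert.t890)
  (ok_app (ok_of Cert.t891)
  (ok_app (ok_of Cert.t892)
  (ok_app (ok_of Cert.t893)
  (ok_app (ok_of Cert.t894)
  (ok_app (ok_of Cert.t895)
  (ok_app (ok_of Cert.t896)
  (ok_app (ok_of Cert.t897)
  (ok_app (ok_of Cert.t898)
  (ok_app (ok_of Cert.t899)
  (ok_app (ok_of Cert.t900)
  (ok_app (ok_of Cert.t901)
  (ok_app (ok_of Cert.t902)
  (ok_app (ok_of Cert.t903)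
  (ok_app (ok_of Cert.t904)
  (ok_app (ok_of Cert.t905)
  (ok_app (ok_of Cert.t906)
  (ok_app (ok_of Cert.t907)
  (ok_app (ok_of Cert.t908)
  (ok_app (ok_of Cert.t909)
  (ok_app (ok_of Cert.t910)
  (ok_app (ok_of Cert.t911)
  (ok_app (ok_of Cert.t912)
  (ok_app (ok_of Cert.t913)
  (ok_app (ok_of Cert.t914)
  (ok_app (ok_of Cert.t915)
  (ok_app (ok_of Cert.t916)
  (ok_app (ok_of Cert.t917)
  (ok_app (ok_of Cert.t918)
  (ok_app (ok_of Cert.t919)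
  (ok_app (ok_of Cert.t920)
  (ok_app (ok_of Cert.t921)
  (ok_app (ok_of Cert.t922)
  (ok_app (ok_of Cert.t923)
  (ok_app (ok_of Cert.t924)
  (ok_app (ok_of Cert.t925)
  (ok_app (ok_of Cert.t926)
  (ok_app (ok_of Cert.t927)
  (ok_app (ok_of Cert.t928)
  (ok_app (ok_of Cert.t929)
  (ok_app (ok_of Cert.t930)
  (ok_app (ok_of Cert.t931)
  (ok_app (ok_of Cert.t932)
  (ok_app (ok_of Cert.t933)
  (ok_app (ok_of Cert.t934)
  (ok_app (ok_of Cert.t935)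
  (ok_app (ok_of Cert.t936)
  (ok_app (ok_of Cert.t937)
  (ok_app (ok_of Cert.t938)
  (ok_app (ok_of Cert.t939)
  (ok_app (ok_of Cert.t940)
  (ok_app (ok_of Cert.t941)
  (ok_app (ok_of Cert.t942)
  (ok_app (ok_of Cert.t943)
  (ok_app (ok_of Cert.t944)
  (ok_app (ok_of Cert.t945)
  (ok_app (ok_of Cert.t946)
  (ok_app (ok_of Cert.t947)
  (ok_app (ok_of Cert.t948)
  (ok_app (ok_of Cert.t949)
  (ok_app (ok_of Cert.t950)
  (ok_app (ok_of Cert.t951)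
  (ok_app (ok_of Cert.t952)
  (ok_app (ok_of Cert.t953)
  (ok_app (ok_of Cert.t954)
  (ok_app (ok_of Cert.t955)
  (ok_app (ok_of Cert.t956)
  (ok_app (ok_of Cert.t957)
  (ok_app (ok_of Cert.t958)
  (ok_app (ok_of Cert.t959)
  (ok_app (ok_of Cert.t960)
  (ok_app (ok_of Cert.t961)
  (ok_app (ok_of Cert.t962)
  (ok_app (ok_of Cert.t963)
  (ok_app (ok_of Cert.t964)
  (ok_app (ok_of Cert.t965)
  (ok_app (ok_of Cert.t966)
  (ok_app (ok_of Cert.t967)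
  (ok_app (ok_of Cert.t968)
  (ok_app (ok_of Cert.t969)
  (ok_app (ok_of Cert.t970)
  (ok_app (ok_of Cert.t971)
  (ok_app (ok_of Cert.t972) (ok_of Cert.t973))))))))))))))))))))))))))))))))))))))))))))))))))))))))))))))))))))))))))))))))))))))))))))))))))))))))))))))))))))))))))))))))))))))))))))))))))))))))
theorem ok_i3_6 : OkL Cert.i3_6 :=
  ok_app (ok_of Cert.t974)
  (ok_app (ok_of Cert.t975)
  (ok_app (ok_of Cert.t976)
  (ok_app (ok_of Cert.t977)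
  (ok_app (ok_of Cert.t978)
  (ok_app (ok_of Cert.t979)
  (ok_app (ok_of Cert.t980)
  (ok_app (ok_of Cert.t981)
  (ok_app (ok_of Cert.t982)
  (ok_app (ok_of Cert.t983)
  (ok_app (ok_of Cert.t984)
  (ok_app (ok_of Cert.t985)
  (ok_app (ok_of Cert.t986)
  (ok_app (ok_of Cert.t987)
  (ok_app (ok_of Cert.t988)
  (ok_app (ok_of Cert.t989)
  (ok_app (ok_of Cert.t990)
  (ok_app (ok_of Cert.t991)
  (ok_app (ok_of Cert.t992)
  (ok_app (ok_of Cert.t993)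
  (ok_app (ok_of Cert.t994)
  (ok_app (ok_of Cert.t995)
  (ok_app (ok_of Cert.t996)
  (ok_app (ok_of Cert.t997)
  (ok_app (ok_of Cert.t998)
  (ok_app (ok_of Cert.t999)
  (ok_app (ok_of Cert.t1000)
  (ok_app (ok_of Cert.t1001)
  (ok_app (ok_of Cert.t1002)
  (ok_app (ok_of Cert.t1003)
  (ok_app (ok_of Cert.t1004)
  (ok_app (ok_of Cert.t1005)
  (ok_app (ok_of Cert.t1006)
  (ok_app (ok_of Cert.t1007)
  (ok_app (ok_of Cert.t1008)
  (ok_app (ok_of Cert.t1009)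
  (ok_app (ok_of Cert.t1010)
  (ok_app (ok_of Cert.t1011)
  (ok_app (ok_of Cert.t1012)
  (ok_app (ok_of Cert.t1013)
  (ok_app (ok_of Cert.t1014)
  (ok_app (ok_of Cert.t1015)
  (ok_app (ok_of Cert.t1016)
  (ok_app (ok_of Cert.t1017)
  (ok_app (ok_of Cert.t1018)
  (ok_app (ok_of Cert.t1019)
  (ok_app (ok_of Cert.t1020)
  (ok_app (ok_of Cert.t1021)
  (ok_app (ok_of Cert.t1022)
  (ok_app (ok_of Cert.t1023)
  (ok_app (ok_of Cert.t1024)
  (ok_app (ok_of Cert.t1025)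
  (ok_app (ok_of Cert.t1026)
  (ok_app (ok_of Cert.t1027)
  (ok_app (ok_of Cert.t1028)
  (ok_app (ok_of Cert.t1029)
  (ok_app (ok_of Cert.t1030)
  (ok_app (ok_of Cert.t1031)
  (ok_app (ok_of Cert.t1032)
  (ok_app (ok_of Cert.t1033)
  (ok_app (ok_of Cert.t1034)
  (ok_app (ok_of Cert.t1035)
  (ok_app (ok_of Cert.t1036)
  (ok_app (ok_of Cert.t1037)
  (ok_app (ok_of Cert.t1038)
  (ok_app (ok_of Cert.t1039)
  (ok_app (ok_of Cert.t1040)
  (ok_app (ok_of Cert.t1041)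
  (ok_app (ok_of Cert.t1042)
  (ok_app (ok_of Cert.t1043)
  (ok_app (ok_of Cert.t1044)
  (ok_app (ok_of Cert.t1045)
  (ok_app (ok_of Cert.t1046)
  (ok_app (ok_of Cert.t1047)
  (ok_app (ok_of Cert.t1048)
  (ok_app (ok_of Cert.t1049) (ok_of Cert.t1050))))))))))))))))))))))))))))))))))))))))))))))))))))))))))))))))))))))))))))
theorem ok_i3_7 : OkL Cert.i3_7 :=
  ok_app (ok_of Cert.t1051)
  (ok_app (ok_of Cert.t1052)
  (ok_app (ok_of Cert.t1053)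
  (ok_app (ok_of Cert.t1054)
  (ok_app (ok_of Cert.t1055)
  (ok_app (ok_of Cert.t1056)
  (ok_app (ok_of Cert.t1057)
  (ok_app (ok_of Cert.t1058)
  (ok_app (ok_of Cert.t1059)
  (ok_app (ok_of Cert.t1060)
  (ok_app (ok_of Cert.t1061)
  (ok_app (ok_of Cert.t1062)
  (ok_app (ok_of Cert.t1063)
  (ok_app (ok_of Cert.t1064)
  (ok_app (ok_of Cert.t1065)
  (ok_app (ok_of Cert.t1066)
  (ok_app (ok_of Cert.t1067)
  (ok_app (ok_of Cert.t1068)
  (ok_app (ok_of Cert.t1069)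
  (ok_app (ok_of Cert.t1070)
  (ok_app (ok_of Cert.t1071)
  (ok_app (ok_of Cert.t1072)
  (ok_app (ok_of Cert.t1073)
  (ok_app (ok_of Cert.t1074)
  (ok_app (ok_of Cert.t1075)
  (ok_app (ok_of Cert.t1076)
  (ok_app (ok_of Cert.t1077)
  (ok_app (ok_of Cert.t1078)
  (ok_app (ok_of Cert.t1079)
  (ok_app (ok_of Cert.t1080)
  (ok_app (ok_of Cert.t1081)
  (ok_app (ok_of Cert.t1082)
  (ok_app (ok_of Cert.t1083)
  (ok_app (ok_of Cert.t1084)
  (ok_app (ok_of Cert.t1085)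
  (ok_app (ok_of Cert.t1086)
  (ok_app (ok_of Cert.t1087)
  (ok_app (ok_of Cert.t1088)
  (ok_app (ok_of Cert.t1089)
  (ok_app (ok_of Cert.t1090) (ok_of Cert.t1091))))))))))))))))))))))))))))))))))))))))
theorem ok_i3_8 : OkL Cert.i3_8 :=
  ok_app (ok_of Cert.t1092)
  (ok_app (ok_of Cert.t1093)
  (ok_app (ok_of Cert.t1094)
  (ok_app (ok_of Cert.t1095)
  (ok_app (ok_of Cert.t1096)
  (ok_app (ok_of Cert.t1097)
  (ok_app (ok_of Cert.t1098)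
  (ok_app (ok_of Cert.t1099)
  (ok_app (ok_of Cert.t1100)
  (ok_app (ok_of Cert.t1101)
  (ok_app (ok_of Cert.t1102)
  (ok_app (ok_of Cert.t1103)
  (ok_app (ok_of Cert.t1104)
  (ok_app (ok_of Cert.t1105) (ok_of Cert.t1106))))))))))))))
theorem ok_i3_9 : OkL Cert.i3_9 :=
  ok_app (ok_of Cert.t1107)
  (ok_app (ok_of Cert.t1108)
  (ok_app (ok_of Cert.t1109)
  (ok_app (ok_of Cert.t1110)
  (ok_app (ok_of Cert.t1111)
  (ok_app (ok_of Cert.t1112) (ok_of Cert.t1113))))))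
theorem ok_i3_10 : OkL Cert.i3_10 :=
  ok_app (ok_of Cert.t1114)
  (ok_app (ok_of Cert.t1115)
  (ok_app (ok_of Cert.t1116)
  (ok_app (ok_of Cert.t1117)
  (ok_app (ok_of Cert.t1118)
  (ok_app (ok_of Cert.t1119)
  (ok_app (ok_of Cert.t1120)
  (ok_app (ok_of Cert.t1121)
  (ok_app (ok_of Cert.t1122)
  (ok_app (ok_of Cert.t1123)
  (ok_app (ok_of Cert.t1124)
  (ok_app (ok_of Cert.t1125)
  (ok_app (ok_of Cert.t1126) (ok_of Cert.t1127)))))))))))))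
theorem ok_i3_11 : OkL Cert.i3_11 :=
  ok_app (ok_of Cert.t1128)
  (ok_app (ok_of Cert.t1129)
  (ok_app (ok_of Cert.t1130)
  (ok_app (ok_of Cert.t1131)
  (ok_app (ok_of Cert.t1132)
  (ok_app (ok_of Cert.t1133) (ok_of Cert.t1134))))))
theorem ok_i3_12 : OkL Cert.i3_12 :=
  ok_app (ok_of Cert.t1135)
  (ok_app (ok_of Cert.t1136)
  (ok_app (ok_of Cert.t1137)
  (ok_app (ok_of Cert.t1138)
  (ok_app (ok_of Cert.t1139)
  (ok_app (ok_of Cert.t1140) (ok_of Cert.t1141))))))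
theorem ok_i3_13 : OkL Cert.i3_13 :=
  ok_app (ok_of Cert.t1142)
  (ok_app (ok_of Cert.t1143) (ok_of Cert.t1144))
theorem ok_i3_14 : OkL Cert.i3_14 :=
  ok_of Cert.t1145
theorem ok_i3_15 : OkL Cert.i3_15 :=
  ok_app (ok_of Cert.t1146) (ok_of Cert.t1147)
theorem ok_i3_16 : OkL Cert.i3_16 :=
  ok_app (ok_of Cert.t1148)
  (ok_app (ok_of Cert.t1149) (ok_of Cert.t1150))
theorem ok_i3_17 : OkL Cert.i3_17 :=
  ok_app (ok_of Cert.t1151) (ok_of Cert.t1152)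
theorem ok_i3_18 : OkL Cert.i3_18 :=
  ok_of Cert.t1153
theorem ok_i3_19 : OkL Cert.i3_19 :=
  ok_of Cert.t1154
theorem ok_i3_20 : OkL Cert.i3_20 :=
  ok_of Cert.t1155
theorem ok_i3_21 : OkL Cert.i3_21 :=
  ok_app (ok_of Cert.t1156) (ok_of Cert.t1157)
theorem ok_i3_22 : OkL Cert.i3_22 :=
  ok_of Cert.t1158
theorem ok_i3_23 : OkL Cert.i3_23 :=
  ok_of Cert.t1159
theorem ok_i3_24 : OkL Cert.i3_24 :=
  ok_of Cert.t1160
theorem ok_i3_25 : OkL Cert.i3_25 :=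
  ok_of Cert.t1161
theorem ok_i3_26 : OkL Cert.i3_26 :=
  ok_of Cert.t1162
theorem ok_i3_27 : OkL Cert.i3_27 :=
  ok_of Cert.t1163
theorem ok_i3_28 : OkL Cert.i3_28 :=
  ok_of Cert.t1164
theorem ok_i3_29 : OkL Cert.i3_29 :=
  ok_of Cert.t1165
theorem ok_i3_30 : OkL Cert.i3_30 :=
  ok_of Cert.t1166
theorem ok_i3_31 : OkL Cert.i3_31 :=
  ok_of Cert.t1167
theorem ok_i3_32 : OkL Cert.i3_32 :=
  ok_of Cert.t1168
theorem ok_j0_1 : OkL Cert.j0_1 :=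
  ok_app (ok_of Cert.t1169)
  (ok_app (ok_of Cert.t1170)
  (ok_app (ok_of Cert.t1171)
  (ok_app (ok_of Cert.t1172)
  (ok_app (ok_of Cert.t1173)
  (ok_app (ok_of Cert.t1174)
  (ok_app (ok_of Cert.t1175)
  (ok_app (ok_of Cert.t1176)
  (ok_app (ok_of Cert.t1177)
  (ok_app (ok_of Cert.t1178)
  (ok_app (ok_of Cert.t1179)
  (ok_app (ok_of Cert.t1180)
  (ok_app (ok_of Cert.t1181)
  (ok_app (ok_of Cert.t1182)
  (ok_app (ok_of Cert.t1183) (ok_of Cert.t1184)))))))))))))))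
theorem ok_j0_2 : OkL Cert.j0_2 :=
  ok_app (ok_of Cert.t1185)
  (ok_app (ok_of Cert.t1186)
  (ok_app (ok_of Cert.t1187)
  (ok_app (ok_of Cert.t1188)
  (ok_app (ok_of Cert.t1189)
  (ok_app (ok_of Cert.t1190)
  (ok_app (ok_of Cert.t1191)
  (ok_app (ok_of Cert.t1192)
  (ok_app (ok_of Cert.t1193)
  (ok_app (ok_of Cert.t1194)
  (ok_app (ok_of Cert.t1195)
  (ok_app (ok_of Cert.t1196) (ok_of Cert.t1197))))))))))))
theorem ok_j0_3 : OkL Cert.j0_3 :=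
  ok_app (ok_of Cert.t1198)
  (ok_app (ok_of Cert.t1199) (ok_of Cert.t1200))
theorem ok_j1_0 : OkL Cert.j1_0 :=
  ok_app (ok_of Cert.t1201)
  (ok_app (ok_of Cert.t1202)
  (ok_app (ok_of Cert.t1203)
  (ok_app (ok_of Cert.t1204)
  (ok_app (ok_of Cert.t1205)
  (ok_app (ok_of Cert.t1206)
  (ok_app (ok_of Cert.t1207)
  (ok_app (ok_of Cert.t1208)
  (ok_app (ok_of Cert.t1209)
  (ok_app (ok_of Cert.t1210)
  (ok_app (ok_of Cert.t1211)
  (ok_app (ok_of Cert.t1212)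
  (ok_app (ok_of Cert.t1213)
  (ok_app (ok_of Cert.t1214)
  (ok_app (ok_of Cert.t1215)
  (ok_app (ok_of Cert.t1216)
  (ok_app (ok_of Cert.t1217)
  (ok_app (ok_of Cert.t1218)
  (ok_app (ok_of Cert.t1219)
  (ok_app (ok_of Cert.t1220)
  (ok_app (ok_of Cert.t1221)
  (ok_app (ok_of Cert.t1222)
  (ok_app (ok_of Cert.t1223)
  (ok_app (ok_of Cert.t1224)
  (ok_app (ok_of Cert.t1225)
  (ok_app (ok_of Cert.t1226)
  (ok_app (ok_of Cert.t1227)
  (ok_app (ok_of Cert.t1228)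
  (ok_app (ok_of Cert.t1229)
  (ok_app (ok_of Cert.t1230)
  (ok_app (ok_of Cert.t1231)
  (ok_app (ok_of Cert.t1232)
  (ok_app (ok_of Cert.t1233)
  (ok_app (ok_of Cert.t1234)
  (ok_app (ok_of Cert.t1235)
  (ok_app (ok_of Cert.t1236)
  (ok_app (ok_of Cert.t1237)
  (ok_app (ok_of Cert.t1238)
  (ok_app (ok_of Cert.t1239)
  (ok_app (ok_of Cert.t1240)
  (ok_app (ok_of Cert.t1241)
  (ok_app (ok_of Cert.t1242)
  (ok_app (ok_of Cert.t1243)
  (ok_app (ok_of Cert.t1244)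
  (ok_app (ok_of Cert.t1245)
  (ok_app (ok_of Cert.t1246)
  (ok_app (ok_of Cert.t1247)
  (ok_app (ok_of Cert.t1248)
  (ok_app (ok_of Cert.t1249)
  (ok_app (ok_of Cert.t1250)
  (ok_app (ok_of Cert.t1251) (ok_of Cert.t1252)))))))))))))))))))))))))))))))))))))))))))))))))))
theorem ok_j1_1 : OkL Cert.j1_1 :=
  ok_of Cert.t1253
theorem ok_j1_2 : OkL Cert.j1_2 :=
  ok_app (ok_of Cert.t1254)
  (ok_app (ok_of Cert.t1255)
  (ok_app (ok_of Cert.t1256) (ok_of Cert.t1257)))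
theorem ok_j1_3 : OkL Cert.j1_3 :=
  ok_nil
theorem ok_j2_0 : OkL Cert.j2_0 :=
  ok_app (ok_of Cert.t1258)
  (ok_app (ok_of Cert.t1259)
  (ok_app (ok_of Cert.t1260)
  (ok_app (ok_of Cert.t1261)
  (ok_app (ok_of Cert.t1262)
  (ok_app (ok_of Cert.t1263)
  (ok_app (ok_of Cert.t1264)
  (ok_app (ok_of Cert.t1265)
  (ok_app (ok_of Cert.t1266)
  (ok_app (ok_of Cert.t1267)
  (ok_app (ok_of Cert.t1268)
  (ok_app (ok_of Cert.t1269)
  (ok_app (ok_of Cert.t1270)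
  (ok_app (ok_of Cert.t1271)
  (ok_app (ok_of Cert.t1272)
  (ok_app (ok_of Cert.t1273)
  (ok_app (ok_of Cert.t1274)
  (ok_app (ok_of Cert.t1275)
  (ok_app (ok_of Cert.t1276)
  (ok_app (ok_of Cert.t1277)
  (ok_app (ok_of Cert.t1278)
  (ok_app (ok_of Cert.t1279)
  (ok_app (ok_of Cert.t1280)
  (ok_app (ok_of Cert.t1281)
  (ok_app (ok_of Cert.t1282)
  (ok_app (ok_of Cert.t1283)
  (ok_app (ok_of Cert.t1284)
  (ok_app (ok_of Cert.t1285)
  (ok_app (ok_of Cert.t1286)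
  (ok_app (ok_of Cert.t1287)
  (ok_app (ok_of Cert.t1288)
  (ok_app (ok_of Cert.t1289)
  (ok_app (ok_of Cert.t1290)
  (ok_app (ok_of Cert.t1291)
  (ok_app (ok_of Cert.t1292)
  (ok_app (ok_of Cert.t1293)
  (ok_app (ok_of Cert.t1294)
  (ok_app (ok_of Cert.t1295)
  (ok_app (ok_of Cert.t1296)
  (ok_app (ok_of Cert.t1297)
  (ok_app (ok_of Cert.t1298)
  (ok_app (ok_of Cert.t1299)
  (ok_app (ok_of Cert.t1300)
  (ok_app (ok_of Cert.t1301)
  (ok_app (ok_of Cert.t1302)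
  (ok_app (ok_of Cert.t1303)
  (ok_app (ok_of Cert.t1304)
  (ok_app (ok_of Cert.t1305)
  (ok_app (ok_of Cert.t1306)
  (ok_app (ok_of Cert.t1307)
  (ok_app (ok_of Cert.t1308)
  (ok_app (ok_of Cert.t1309)
  (ok_app (ok_of Cert.t1310)
  (ok_app (ok_of Cert.t1311)
  (ok_app (ok_of Cert.t1312)
  (ok_app (ok_of Cert.t1313)
  (ok_app (ok_of Cert.t1314)
  (ok_app (ok_of Cert.t1315)
  (ok_app (ok_of Cert.t1316)
  (ok_app (ok_of Cert.t1317)
  (ok_app (ok_of Cert.t1318)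
  (ok_app (ok_of Cert.t1319)
  (ok_app (ok_of Cert.t1320)
  (ok_app (ok_of Cert.t1321)
  (ok_app (ok_of Cert.t1322)
  (ok_app (ok_of Cert.t1323)
  (ok_app (ok_of Cert.t1324)
  (ok_app (ok_of Cert.t1325)
  (ok_app (ok_of Cert.t1326)
  (ok_app (ok_of Cert.t1327)
  (ok_app (ok_of Cert.t1328)
  (ok_app (ok_of Cert.t1329)
  (ok_app (ok_of Cert.t1330)
  (ok_app (ok_of Cert.t1331)
  (ok_app (ok_of Cert.t1332)
  (ok_app (ok_of Cert.t1333)
  (ok_app (ok_of Cert.t1334)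
  (ok_app (ok_of Cert.t1335)
  (ok_app (ok_of Cert.t1336)
  (ok_app (ok_of Cert.t1337)
  (ok_app (ok_of Cert.t1338)
  (ok_app (ok_of Cert.t1339)
  (ok_app (ok_of Cert.t1340)
  (ok_app (ok_of Cert.t1341)
  (ok_app (ok_of Cert.t1342)
  (ok_app (ok_of Cert.t1343)
  (ok_app (ok_of Cert.t1344)
  (ok_app (ok_of Cert.t1345)
  (ok_app (ok_of Cert.t1346)
  (ok_app (ok_of Cert.t1347)
  (ok_app (ok_of Cert.t1348)
  (ok_app (ok_of Cert.t1349)
  (ok_app (ok_of Cert.t1350)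
  (ok_app (ok_of Cert.t1351)
  (ok_app (ok_of Cert.t1352)
  (ok_app (ok_of Cert.t1353)
  (ok_app (ok_of Cert.t1354)
  (ok_app (ok_of Cert.t1355)
  (ok_app (ok_of Cert.t1356)
  (ok_app (ok_of Cert.t1357)
  (ok_app (ok_of Cert.t1358)
  (ok_app (ok_of Cert.t1359)
  (ok_app (ok_of Cert.t1360)
  (ok_app (ok_of Cert.t1361)
  (ok_app (ok_of Cert.t1362)
  (ok_app (ok_of Cert.t1363)
  (ok_app (ok_of Cert.t1364)
  (ok_app (ok_of Cert.t1365)
  (ok_app (ok_of Cert.t1366)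
  (ok_app (ok_of Cert.t1367)
  (ok_app (ok_of Cert.t1368)
  (ok_app (ok_of Cert.t1369)
  (ok_app (ok_of Cert.t1370)
  (ok_app (ok_of Cert.t1371)
  (ok_app (ok_of Cert.t1372)
  (ok_app (ok_of Cert.t1373)
  (ok_app (ok_of Cert.t1374)
  (ok_app (ok_of Cert.t1375)
  (ok_app (ok_of Cert.t1376)
  (ok_app (ok_of Cert.t1377)
  (ok_app (ok_of Cert.t1378)
  (ok_app (ok_of Cert.t1379)
  (ok_app (ok_of Cert.t1380)
  (ok_app (ok_of Cert.t1381)
  (ok_app (ok_of Cert.t1382)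
  (ok_app (ok_of Cert.t1383)
  (ok_app (ok_of Cert.t1384)
  (ok_app (ok_of Cert.t1385)
  (ok_app (ok_of Cert.t1386)
  (ok_app (ok_of Cert.t1387)
  (ok_app (ok_of Cert.t1388)
  (ok_app (ok_of Cert.t1389)
  (ok_app (ok_of Cert.t1390)
  (ok_app (ok_of Cert.t1391)
  (ok_app (ok_of Cert.t1392)
  (ok_app (ok_of Cert.t1393)
  (ok_app (ok_of Cert.t1394)
  (ok_app (ok_of Cert.t1395)
  (ok_app (ok_of Cert.t1396)
  (ok_app (ok_of Cert.t1397)
  (ok_app (ok_of Cert.t1398)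
  (ok_app (ok_of Cert.t1399)
  (ok_app (ok_of Cert.t1400)
  (ok_app (ok_of Cert.t1401)
  (ok_app (ok_of Cert.t1402)
  (ok_app (ok_of Cert.t1403)
  (ok_app (ok_of Cert.t1404)
  (ok_app (ok_of Cert.t1405)
  (ok_app (ok_of Cert.t1406)
  (ok_app (ok_of Cert.t1407)
  (ok_app (ok_of Cert.t1408)
  (ok_app (ok_of Cert.t1409)
  (ok_app (ok_of Cert.t1410)
  (ok_app (ok_of Cert.t1411)
  (ok_app (ok_of Cert.t1412)
  (ok_app (ok_of Cert.t1413)
  (ok_app (ok_of Cert.t1414)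
  (ok_app (ok_of Cert.t1415)
  (ok_app (ok_of Cert.t1416)
  (ok_app (ok_of Cert.t1417)
  (ok_app (ok_of Cert.t1418)
  (ok_app (ok_of Cert.t1419)
  (ok_app (ok_of Cert.t1420)
  (ok_app (ok_of Cert.t1421)
  (ok_app (ok_of Cert.t1422)
  (ok_app (ok_of Cert.t1423)
  (ok_app (ok_of Cert.t1424)
  (ok_app (ok_of Cert.t1425)
  (ok_app (ok_of Cert.t1426)
  (ok_app (ok_of Cert.t1427)
  (ok_app (ok_of Cert.t1428)
  (ok_app (ok_of Cert.t1429)
  (ok_app (ok_of Cert.t1430)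
  (ok_app (ok_of Cert.t1431)
  (ok_app (ok_of Cert.t1432)
  (ok_app (ok_of Cert.t1433)
  (ok_app (ok_of Cert.t1434)
  (ok_app (ok_of Cert.t1435)
  (ok_app (ok_of Cert.t1436)
  (ok_app (ok_of Cert.t1437)
  (ok_app (ok_of Cert.t1438)
  (ok_app (ok_of Cert.t1439)
  (ok_app (ok_of Cert.t1440)
  (ok_app (ok_of Cert.t1441)
  (ok_app (ok_of Cert.t1442)
  (ok_app (ok_of Cert.t1443)
  (ok_app (ok_of Cert.t1444)
  (ok_app (ok_of Cert.t1445)
  (ok_app (ok_of Cert.t1446)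
  (ok_app (ok_of Cert.t1447)
  (ok_app (ok_of Cert.t1448)
  (ok_app (ok_of Cert.t1449)
  (ok_app (ok_of Cert.t1450)
  (ok_app (ok_of Cert.t1451)
  (ok_app (ok_of Cert.t1452)
  (ok_app (ok_of Cert.t1453)
  (ok_app (ok_of Cert.t1454)
  (ok_app (ok_of Cert.t1455)
  (ok_app (ok_of Cert.t1456)
  (ok_app (ok_of Cert.t1457)
  (ok_app (ok_of Cert.t1458)
  (ok_app (ok_of Cert.t1459) (ok_of Cert.t1460))))))))))))))))))))))))))))))))))))))))))))))))))))))))))))))))))))))))))))))))))))))))))))))))))))))))))))))))))))))))))))))))))))))))))))))))))))))))))))))))))))))))))))))))))))))))))))))))))))))))))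
theorem ok_j2_1 : OkL Cert.j2_1 :=
  ok_app (ok_of Cert.t1461)
  (ok_app (ok_of Cert.t1462) (ok_of Cert.t1463))
theorem ok_j2_2 : OkL Cert.j2_2 :=
  ok_app (ok_of Cert.t1464)
  (ok_app (ok_of Cert.t1465) (ok_of Cert.t1466))
theorem ok_j2_3 : OkL Cert.j2_3 :=
  ok_app (ok_of Cert.t1467)
  (ok_app (ok_of Cert.t1468)
  (ok_app (ok_of Cert.t1469)
  (ok_app (ok_of Cert.t1470) (ok_of Cert.t1471))))
theorem ok_j3_0 : OkL Cert.j3_0 :=
  ok_app (ok_of Cert.t1472)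
  (ok_app (ok_of Cert.t1473)
  (ok_app (ok_of Cert.t1474)
  (ok_app (ok_of Cert.t1475)
  (ok_app (ok_of Cert.t1476)
  (ok_app (ok_of Cert.t1477)
  (ok_app (ok_of Cert.t1478)
  (ok_app (ok_of Cert.t1479)
  (ok_app (ok_of Cert.t1480)
  (ok_app (ok_of Cert.t1481)
  (ok_app (ok_of Cert.t1482)
  (ok_app (ok_of Cert.t1483)
  (ok_app (ok_of Cert.t1484)
  (ok_app (ok_of Cert.t1485)
  (ok_app (ok_of Cert.t1486)
  (ok_app (ok_of Cert.t1487)
  (ok_app (ok_of Cert.t1488)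
  (ok_app (ok_of Cert.t1489)
  (ok_app (ok_of Cert.t1490)
  (ok_app (ok_of Cert.t1491)
  (ok_app (ok_of Cert.t1492)
  (ok_app (ok_of Cert.t1493)
  (ok_app (ok_of Cert.t1494)
  (ok_app (ok_of Cert.t1495)
  (ok_app (ok_of Cert.t1496)
  (ok_app (ok_of Cert.t1497)
  (ok_app (ok_of Cert.t1498)
  (ok_app (ok_of Cert.t1499)
  (ok_app (ok_of Cert.t1500)
  (ok_app (ok_of Cert.t1501)
  (ok_app (ok_of Cert.t1502)
  (ok_app (ok_of Cert.t1503)
  (ok_app (ok_of Cert.t1504)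
  (ok_app (ok_of Cert.t1505)
  (ok_app (ok_of Cert.t1506)
  (ok_app (ok_of Cert.t1507)
  (ok_app (ok_of Cert.t1508)
  (ok_app (ok_of Cert.t1509)
  (ok_app (ok_of Cert.t1510)
  (ok_app (ok_of Cert.t1511)
  (ok_app (ok_of Cert.t1512)
  (ok_app (ok_of Cert.t1513)
  (ok_app (ok_of Cert.t1514)
  (ok_app (ok_of Cert.t1515)
  (ok_app (ok_of Cert.t1516)
  (ok_app (ok_of Cert.t1517)
  (ok_app (ok_of Cert.t1518)
  (ok_app (ok_of Cert.t1519)
  (ok_app (ok_of Cert.t1520)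
  (ok_app (ok_of Cert.t1521)
  (ok_app (ok_of Cert.t1522)
  (ok_app (ok_of Cert.t1523)
  (ok_app (ok_of Cert.t1524)
  (ok_app (ok_of Cert.t1525)
  (ok_app (ok_of Cert.t1526)
  (ok_app (ok_of Cert.t1527)
  (ok_app (ok_of Cert.t1528)
  (ok_app (ok_of Cert.t1529)
  (ok_app (ok_of Cert.t1530)
  (ok_app (ok_of Cert.t1531)
  (ok_app (ok_of Cert.t1532)
  (ok_app (ok_of Cert.t1533)
  (ok_app (ok_of Cert.t1534)
  (ok_app (ok_of Cert.t1535)
  (ok_app (ok_of Cert.t1536)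
  (ok_app (ok_of Cert.t1537)
  (ok_app (ok_of Cert.t1538)
  (ok_app (ok_of Cert.t1539)
  (ok_app (ok_of Cert.t1540)
  (ok_app (ok_of Cert.t1541)
  (ok_app (ok_of Cert.t1542)
  (ok_app (ok_of Cert.t1543)
  (ok_app (ok_of Cert.t1544)
  (ok_app (ok_of Cert.t1545)
  (ok_app (ok_of Cert.t1546)
  (ok_app (ok_of Cert.t1547)
  (ok_app (ok_of Cert.t1548)
  (ok_app (ok_of Cert.t1549)
  (ok_app (ok_of Cert.t1550)
  (ok_app (ok_of Cert.t1551)
  (ok_app (ok_of Cert.t1552)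
  (ok_app (ok_of Cert.t1553)
  (ok_app (ok_of Cert.t1554)
  (ok_app (ok_of Cert.t1555)
  (ok_app (ok_of Cert.t1556)
  (ok_app (ok_of Cert.t1557)
  (ok_app (ok_of Cert.t1558)
  (ok_app (ok_of Cert.t1559)
  (ok_app (ok_of Cert.t1560)
  (ok_app (ok_of Cert.t1561)
  (ok_app (ok_of Cert.t1562) (ok_of Cert.t1563)))))))))))))))))))))))))))))))))))))))))))))))))))))))))))))))))))))))))))))))))))))))))))
theorem ok_j3_1 : OkL Cert.j3_1 :=
  ok_nil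
theorem ok_j3_2 : OkL Cert.j3_2 :=
  ok_app (ok_of Cert.t1564)
  (ok_app (ok_of Cert.t1565)
  (ok_app (ok_of Cert.t1566)
  (ok_app (ok_of Cert.t1567)
  (ok_app (ok_of Cert.t1568)
  (ok_app (ok_of Cert.t1569)
  (ok_app (ok_of Cert.t1570)
  (ok_app (ok_of Cert.t1571)
  (ok_app (ok_of Cert.t1572)
  (ok_app (ok_of Cert.t1573)
  (ok_app (ok_of Cert.t1574)
  (ok_app (ok_of Cert.t1575)
  (ok_app (ok_of Cert.t1576)
  (ok_app (ok_of Cert.t1577)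
  (ok_app (ok_of Cert.t1578)
  (ok_app (ok_of Cert.t1579)
  (ok_app (ok_of Cert.t1580)
  (ok_app (ok_of Cert.t1581)
  (ok_app (ok_of Cert.t1582)
  (ok_app (ok_of Cert.t1583)
  (ok_app (ok_of Cert.t1584)
  (ok_app (ok_of Cert.t1585)
  (ok_app (ok_of Cert.t1586) (ok_of Cert.t1587)))))))))))))))))))))))
theorem ok_j3_3 : OkL Cert.j3_3 :=
  ok_app (ok_of Cert.t1588) (ok_of Cert.t1589)

theorem okLL : OkL Cert.LL.flatten :=
  ok_flat Cert.LL (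
    ok_cons ok_a0 (
    ok_cons ok_a1 (
    ok_cons ok_a2 (
    ok_cons ok_a3 (
    ok_cons ok_i0_5 (
    ok_cons ok_i0_6 (
    ok_cons ok_i0_7 (
    ok_cons ok_i0_8 (
    ok_cons ok_i0_9 (
    ok_cons ok_i0_10 (
    ok_cons ok_i0_11 (
    ok_cons ok_i0_12 (
    ok_cons ok_i0_13 (
    ok_cons ok_i0_14 (
    ok_cons ok_i0_15 (
    ok_cons ok_i0_16 (
    ok_cons ok_i1_5 (
    ok_cons ok_i1_6 (
    ok_cons ok_i1_7 (
    ok_cons ok_i1_8 (
    ok_cons ok_i1_9 (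
    ok_cons ok_i1_10 (
    ok_cons ok_i1_11 (
    ok_cons ok_i1_12 (
    ok_cons ok_i1_13 (
    ok_cons ok_i1_14 (
    ok_cons ok_i1_15 (
    ok_cons ok_i1_16 (
    ok_cons ok_i1_17 (
    ok_cons ok_i1_18 (
    ok_cons ok_i1_19 (
    ok_cons ok_i1_20 (
    ok_cons ok_i1_21 (
    ok_cons ok_i1_22 (
    ok_cons ok_i1_23 (
    ok_cons ok_i1_24 (
    ok_cons ok_i1_25 (
    ok_cons ok_i2_5 (
    ok_cons ok_i2_6 (
    ok_cons ok_i2_7 (
    ok_cons ok_i2_8 (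
    ok_cons ok_i2_9 (
    ok_cons ok_i2_10 (
    ok_cons ok_i2_11 (
    ok_cons ok_i2_12 (
    ok_cons ok_i2_13 (
    ok_cons ok_i2_14 (
    ok_cons ok_i2_15 (
    ok_cons ok_i2_16 (
    ok_cons ok_i2_17 (
    ok_cons ok_i2_18 (
    ok_cons ok_i2_19 (
    ok_cons ok_i2_20 (
    ok_cons ok_i2_21 (
    ok_cons ok_i2_22 (
    ok_cons ok_i2_23 (
    ok_cons ok_i2_24 (
    ok_cons ok_i2_25 (
    ok_cons ok_i2_26 (
    ok_cons ok_i2_27 (
    ok_cons ok_i2_28 (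
    ok_cons ok_i2_29 (
    ok_cons ok_i3_5 (
    ok_cons ok_i3_6 (
    ok_cons ok_i3_7 (
    ok_cons ok_i3_8 (
    ok_cons ok_i3_9 (
    ok_cons ok_i3_10 (
    ok_cons ok_i3_11 (
    ok_cons ok_i3_12 (
    ok_cons ok_i3_13 (
    ok_cons ok_i3_14 (
    ok_cons ok_i3_15 (
    ok_cons ok_i3_16 (
    ok_cons ok_i3_17 (
    ok_cons ok_i3_18 (
    ok_cons ok_i3_19 (
    ok_cons ok_i3_20 (
    ok_cons ok_i3_21 (
    ok_cons ok_i3_22 (
    ok_cons ok_i3_23 (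
    ok_cons ok_i3_24 (
    ok_cons ok_i3_25 (
    ok_cons ok_i3_26 (
    ok_cons ok_i3_27 (
    ok_cons ok_i3_28 (
    ok_cons ok_i3_29 (
    ok_cons ok_i3_30 (
    ok_cons ok_i3_31 (
    ok_cons ok_i3_32 (
    ok_cons ok_j0_1 (
    ok_cons ok_j0_2 (
    ok_cons ok_j0_3 (
    ok_cons ok_j1_0 (
    ok_cons ok_j1_1 (
    ok_cons ok_j1_2 (
    ok_cons ok_j1_3 (
    ok_cons ok_j2_0 (
    ok_cons ok_j2_1 (
    ok_cons ok_j2_2 (
    ok_cons ok_j2_3 (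
    ok_cons ok_j3_0 (
    ok_cons ok_j3_1 (
    ok_cons ok_j3_2 (
    ok_cons ok_j3_3 (
    ok_nilL))))))))))))))))))))))))))))))))))))))))))))))))))))))))))))))))))))))))))))))))))))))))))))))))))))))))))

end Pool.Agent.Refl.Fin
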