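import Pool.Agent.Helper23_Refl.FinA
import Pool.Agent.Helper23_Refl.Asm
import Pool.Agent.Helper23_Refl.Cert.NonA0
import Pool.Agent.Helper23_Refl.Cert.NonA1
import Pool.Agent.Helper23_Refl.Cert.NonA2
import Pool.Agent.Helper23_Refl.Cert.NonA3
import Pool.Agent.Helper23_Refl.Cert.NonA4
import Pool.Agent.Helper23_Refl.Cert.NonB0
import Pool.Agent.Helper23_Refl.Cert.NonB1
import Pool.Agent.Helper23_Refl.Cert.NonB2
import Pool.Agent.Helper23_Refl.Cert.NonB3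
import Pool.Agent.Helper23_Refl.Cert.NonB4

/-!
# Enumerations, reflective and not reflective lattices
-/

namespace Pool.Agent.Refl.Fin

open Matrix

theorem sub_flat {l : List ℕ} (h : l ∈ Cert.LL) : l ⊆ Cert.LL.flatten := by
  intro x hx
  exact List.mem_flatten.2 ⟨l, h, hx⟩

theorem m_a0 : Cert.a0 ∈ Cert.LL := by
  simp only [Cert.LL, List.mem_cons, true_or, or_true]
theorem m_a1 : Cert.a1 ∈ Cert.LL := by
  simp only [Cert.LL, List.mem_cons, true_or, or_true]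
theorem m_a2 : Cert.a2 ∈ Cert.LL := by
  simp only [Cert.LL, List.mem_cons, true_or, or_true]
theorem m_a3 : Cert.a3 ∈ Cert.LL := by
  simp only [Cert.LL, List.mem_cons, true_or, or_true]
theorem m_i0_5 : Cert.i0_5 ∈ Cert.LL := by
  simp only [Cert.LL, List.mem_cons, true_or, or_true]
theorem m_i0_6 : Cert.i0_6 ∈ Cert.LL := by
  simp only [Cert.LL, List.mem_cons, true_or, or_true]
theorem m_i0_7 : Cert.i0_7 ∈ Cert.LL := by
  simp only [Cert.LL, List.mem_cons, true_or, or_true]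
theorem m_i0_8 : Cert.i0_8 ∈ Cert.LL := by
  simp only [Cert.LL, List.mem_cons, true_or, or_true]
theorem m_i0_9 : Cert.i0_9 ∈ Cert.LL := by
  simp only [Cert.LL, List.mem_cons, true_or, or_true]
theorem m_i0_10 : Cert.i0_10 ∈ Cert.LL := by
  simp only [Cert.LL, List.mem_cons, true_or, or_true]
theorem m_i0_11 : Cert.i0_11 ∈ Cert.LL := by
  simp only [Cert.LL, List.mem_cons, true_or, or_true]
theorem m_i0_12 : Cert.i0_12 ∈ Cert.LL := by
  simp only [Cert.LL, List.mem_cons, true_or, or_true]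
theorem m_i0_13 : Cert.i0_13 ∈ Cert.LL := by
  simp only [Cert.LL, List.mem_cons, true_or, or_true]
theorem m_i0_14 : Cert.i0_14 ∈ Cert.LL := by
  simp only [Cert.LL, List.mem_cons, true_or, or_true]
theorem m_i0_15 : Cert.i0_15 ∈ Cert.LL := by
  simp only [Cert.LL, List.mem_cons, true_or, or_true]
theorem m_i0_16 : Cert.i0_16 ∈ Cert.LL := by
  simp only [Cert.LL, List.mem_cons, true_or, or_true]
theorem m_i1_5 : Cert.i1_5 ∈ Cert.LL := by
  simp only [Cert.LL, List.mem_cons, true_or, or_true]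
theorem m_i1_6 : Cert.i1_6 ∈ Cert.LL := by
  simp only [Cert.LL, List.mem_cons, true_or, or_true]
theorem m_i1_7 : Cert.i1_7 ∈ Cert.LL := by
  simp only [Cert.LL, List.mem_cons, true_or, or_true]
theorem m_i1_8 : Cert.i1_8 ∈ Cert.LL := by
  simp only [Cert.LL, List.mem_cons, true_or, or_true]
theorem m_i1_9 : Cert.i1_9 ∈ Cert.LL := by
  simp only [Cert.LL, List.mem_cons, true_or, or_true]
theorem m_i1_10 : Cert.i1_10 ∈ Cert.LL := by
  simp only [Cert.LL, List.mem_cons, true_or, or_true]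
theorem m_i1_11 : Cert.i1_11 ∈ Cert.LL := by
  simp only [Cert.LL, List.mem_cons, true_or, or_true]
theorem m_i1_12 : Cert.i1_12 ∈ Cert.LL := by
  simp only [Cert.LL, List.mem_cons, true_or, or_true]
theorem m_i1_13 : Cert.i1_13 ∈ Cert.LL := by
  simp only [Cert.LL, List.mem_cons, true_or, or_true]
theorem m_i1_14 : Cert.i1_14 ∈ Cert.LL := by
  simp only [Cert.LL, List.mem_cons, true_or, or_true]
theorem m_i1_15 : Cert.i1_15 ∈ Cert.LL := by
  simp only [Cert.LL, List.mem_cons, true_or, or_true]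
theorem m_i1_16 : Cert.i1_16 ∈ Cert.LL := by
  simp only [Cert.LL, List.mem_cons, true_or, or_true]
theorem m_i1_17 : Cert.i1_17 ∈ Cert.LL := by
  simp only [Cert.LL, List.mem_cons, true_or, or_true]
theorem m_i1_18 : Cert.i1_18 ∈ Cert.LL := by
  simp only [Cert.LL, List.mem_cons, true_or, or_true]
theorem m_i1_19 : Cert.i1_19 ∈ Cert.LL := by
  simp only [Cert.LL, List.mem_cons, true_or, or_true]
theorem m_i1_20 : Cert.i1_20 ∈ Cert.LL := by
  simp only [Cert.LL, List.mem_cons, true_or, or_true]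
theorem m_i1_21 : Cert.i1_21 ∈ Cert.LL := by
  simp only [Cert.LL, List.mem_cons, true_or, or_true]
theorem m_i1_22 : Cert.i1_22 ∈ Cert.LL := by
  simp only [Cert.LL, List.mem_cons, true_or, or_true]
theorem m_i1_23 : Cert.i1_23 ∈ Cert.LL := by
  simp only [Cert.LL, List.mem_cons, true_or, or_true]
theorem m_i1_24 : Cert.i1_24 ∈ Cert.LL := by
  simp only [Cert.LL, List.mem_cons, true_or, or_true]
theorem m_i1_25 : Cert.i1_25 ∈ Cert.LL := by
  simp only [Cert.LL, List.mem_cons, true_or, or_true]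
theorem m_i2_5 : Cert.i2_5 ∈ Cert.LL := by
  simp only [Cert.LL, List.mem_cons, true_or, or_true]
theorem m_i2_6 : Cert.i2_6 ∈ Cert.LL := by
  simp only [Cert.LL, List.mem_cons, true_or, or_true]
theorem m_i2_7 : Cert.i2_7 ∈ Cert.LL := by
  simp only [Cert.LL, List.mem_cons, true_or, or_true]
theorem m_i2_8 : Cert.i2_8 ∈ Cert.LL := by
  simp only [Cert.LL, List.mem_cons, true_or, or_true]
theorem m_i2_9 : Cert.i2_9 ∈ Cert.LL := by
  simp only [Cert.LL, List.mem_cons, true_or, or_true]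
theorem m_i2_10 : Cert.i2_10 ∈ Cert.LL := by
  simp only [Cert.LL, List.mem_cons, true_or, or_true]
theorem m_i2_11 : Cert.i2_11 ∈ Cert.LL := by
  simp only [Cert.LL, List.mem_cons, true_or, or_true]
theorem m_i2_12 : Cert.i2_12 ∈ Cert.LL := by
  simp only [Cert.LL, List.mem_cons, true_or, or_true]
theorem m_i2_13 : Cert.i2_13 ∈ Cert.LL := by
  simp only [Cert.LL, List.mem_cons, true_or, or_true]
theorem m_i2_14 : Cert.i2_14 ∈ Cert.LL := by
  simp only [Cert.LL, List.mem_cons, true_or, or_true]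
theorem m_i2_15 : Cert.i2_15 ∈ Cert.LL := by
  simp only [Cert.LL, List.mem_cons, true_or, or_true]
theorem m_i2_16 : Cert.i2_16 ∈ Cert.LL := by
  simp only [Cert.LL, List.mem_cons, true_or, or_true]
theorem m_i2_17 : Cert.i2_17 ∈ Cert.LL := by
  simp only [Cert.LL, List.mem_cons, true_or, or_true]
theorem m_i2_18 : Cert.i2_18 ∈ Cert.LL := by
  simp only [Cert.LL, List.mem_cons, true_or, or_true]
theorem m_i2_19 : Cert.i2_19 ∈ Cert.LL := by
  simp only [Cert.LL, List.mem_cons, true_or, or_true]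
theorem m_i2_20 : Cert.i2_20 ∈ Cert.LL := by
  simp only [Cert.LL, List.mem_cons, true_or, or_true]
theorem m_i2_21 : Cert.i2_21 ∈ Cert.LL := by
  simp only [Cert.LL, List.mem_cons, true_or, or_true]
theorem m_i2_22 : Cert.i2_22 ∈ Cert.LL := by
  simp only [Cert.LL, List.mem_cons, true_or, or_true]
theorem m_i2_23 : Cert.i2_23 ∈ Cert.LL := by
  simp only [Cert.LL, List.mem_cons, true_or, or_true]
theorem m_i2_24 : Cert.i2_24 ∈ Cert.LL := by
  simp only [Cert.LL, List.mem_cons, true_or, or_true]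
theorem m_i2_25 : Cert.i2_25 ∈ Cert.LL := by
  simp only [Cert.LL, List.mem_cons, true_or, or_true]
theorem m_i2_26 : Cert.i2_26 ∈ Cert.LL := by
  simp only [Cert.LL, List.mem_cons, true_or, or_true]
theorem m_i2_27 : Cert.i2_27 ∈ Cert.LL := by
  simp only [Cert.LL, List.mem_cons, true_or, or_true]
theorem m_i2_28 : Cert.i2_28 ∈ Cert.LL := by
  simp only [Cert.LL, List.mem_cons, true_or, or_true]
theorem m_i2_29 : Cert.i2_29 ∈ Cert.LL := by
  simp only [Cert.LL, List.mem_cons, true_or, or_true]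
theorem m_i3_5 : Cert.i3_5 ∈ Cert.LL := by
  simp only [Cert.LL, List.mem_cons, true_or, or_true]
theorem m_i3_6 : Cert.i3_6 ∈ Cert.LL := by
  simp only [Cert.LL, List.mem_cons, true_or, or_true]
theorem m_i3_7 : Cert.i3_7 ∈ Cert.LL := by
  simp only [Cert.LL, List.mem_cons, true_or, or_true]
theorem m_i3_8 : Cert.i3_8 ∈ Cert.LL := by
  simp only [Cert.LL, List.mem_cons, true_or, or_true]
theorem m_i3_9 : Cert.i3_9 ∈ Cert.LL := by
  simp only [Cert.LL, List.mem_cons, true_or, or_true]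
theorem m_i3_10 : Cert.i3_10 ∈ Cert.LL := by
  simp only [Cert.LL, List.mem_cons, true_or, or_true]
theorem m_i3_11 : Cert.i3_11 ∈ Cert.LL := by
  simp only [Cert.LL, List.mem_cons, true_or, or_true]
theorem m_i3_12 : Cert.i3_12 ∈ Cert.LL := by
  simp only [Cert.LL, List.mem_cons, true_or, or_true]
theorem m_i3_13 : Cert.i3_13 ∈ Cert.LL := by
  simp only [Cert.LL, List.mem_cons, true_or, or_true]
theorem m_i3_14 : Cert.i3_14 ∈ Cert.LL := by
  simp only [Cert.LL, List.mem_cons, true_or, or_true]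
theorem m_i3_15 : Cert.i3_15 ∈ Cert.LL := by
  simp only [Cert.LL, List.mem_cons, true_or, or_true]
theorem m_i3_16 : Cert.i3_16 ∈ Cert.LL := by
  simp only [Cert.LL, List.mem_cons, true_or, or_true]
theorem m_i3_17 : Cert.i3_17 ∈ Cert.LL := by
  simp only [Cert.LL, List.mem_cons, true_or, or_true]
theorem m_i3_18 : Cert.i3_18 ∈ Cert.LL := by
  simp only [Cert.LL, List.mem_cons, true_or, or_true]
theorem m_i3_19 : Cert.i3_19 ∈ Cert.LL := by
  simp only [Cert.LL, List.mem_cons, true_or, or_true]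
theorem m_i3_20 : Cert.i3_20 ∈ Cert.LL := by
  simp only [Cert.LL, List.mem_cons, true_or, or_true]
theorem m_i3_21 : Cert.i3_21 ∈ Cert.LL := by
  simp only [Cert.LL, List.mem_cons, true_or, or_true]
theorem m_i3_22 : Cert.i3_22 ∈ Cert.LL := by
  simp only [Cert.LL, List.mem_cons, true_or, or_true]
theorem m_i3_23 : Cert.i3_23 ∈ Cert.LL := by
  simp only [Cert.LL, List.mem_cons, true_or, or_true]
theorem m_i3_24 : Cert.i3_24 ∈ Cert.LL := by
  simp only [Cert.LL, List.mem_cons, true_or, or_true]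
theorem m_i3_25 : Cert.i3_25 ∈ Cert.LL := by
  simp only [Cert.LL, List.mem_cons, true_or, or_true]
theorem m_i3_26 : Cert.i3_26 ∈ Cert.LL := by
  simp only [Cert.LL, List.mem_cons, true_or, or_true]
theorem m_i3_27 : Cert.i3_27 ∈ Cert.LL := by
  simp only [Cert.LL, List.mem_cons, true_or, or_true]
theorem m_i3_28 : Cert.i3_28 ∈ Cert.LL := by
  simp only [Cert.LL, List.mem_cons, true_or, or_true]
theorem m_i3_29 : Cert.i3_29 ∈ Cert.LL := by
  simp only [Cert.LL, List.mem_cons, true_or, or_true]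
theorem m_i3_30 : Cert.i3_30 ∈ Cert.LL := by
  simp only [Cert.LL, List.mem_cons, true_or, or_true]
theorem m_i3_31 : Cert.i3_31 ∈ Cert.LL := by
  simp only [Cert.LL, List.mem_cons, true_or, or_true]
theorem m_i3_32 : Cert.i3_32 ∈ Cert.LL := by
  simp only [Cert.LL, List.mem_cons, true_or, or_true]
theorem m_j0_1 : Cert.j0_1 ∈ Cert.LL := by
  simp only [Cert.LL, List.mem_cons, true_or, or_true]
theorem m_j0_2 : Cert.j0_2 ∈ Cert.LL := by
  simp only [Cert.LL, List.mem_cons, true_or, or_true]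
theorem m_j0_3 : Cert.j0_3 ∈ Cert.LL := by
  simp only [Cert.LL, List.mem_cons, true_or, or_true]
theorem m_j1_0 : Cert.j1_0 ∈ Cert.LL := by
  simp only [Cert.LL, List.mem_cons, true_or, or_true]
theorem m_j1_1 : Cert.j1_1 ∈ Cert.LL := by
  simp only [Cert.LL, List.mem_cons, true_or, or_true]
theorem m_j1_2 : Cert.j1_2 ∈ Cert.LL := by
  simp only [Cert.LL, List.mem_cons, true_or, or_true]
theorem m_j1_3 : Cert.j1_3 ∈ Cert.LL := by
  simp only [Cert.LL, List.mem_cons, true_or, or_true]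
theorem m_j2_0 : Cert.j2_0 ∈ Cert.LL := by
  simp only [Cert.LL, List.mem_cons, true_or, or_true]
theorem m_j2_1 : Cert.j2_1 ∈ Cert.LL := by
  simp only [Cert.LL, List.mem_cons, true_or, or_true]
theorem m_j2_2 : Cert.j2_2 ∈ Cert.LL := by
  simp only [Cert.LL, List.mem_cons, true_or, or_true]
theorem m_j2_3 : Cert.j2_3 ∈ Cert.LL := by
  simp only [Cert.LL, List.mem_cons, true_or, or_true]
theorem m_j3_0 : Cert.j3_0 ∈ Cert.LL := by
  simp only [Cert.LL, List.mem_cons, true_or, or_true]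
theorem m_j3_1 : Cert.j3_1 ∈ Cert.LL := by
  simp only [Cert.LL, List.mem_cons, true_or, or_true]
theorem m_j3_2 : Cert.j3_2 ∈ Cert.LL := by
  simp only [Cert.LL, List.mem_cons, true_or, or_true]
theorem m_j3_3 : Cert.j3_3 ∈ Cert.LL := by
  simp only [Cert.LL, List.mem_cons, true_or, or_true]

theorem enA_all : ∀ N12, N12 < 4 → ∃ l : List ℕ, l ⊆ Cert.LL.flatten ∧ K.enA N12 K.nilB l = true := by
  intro N12 h
  interval_cases N12
  · exact ⟨_, sub_flat m_a0, Cert.e_a0⟩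
  · exact ⟨_, sub_flat m_a1, Cert.e_a1⟩
  · exact ⟨_, sub_flat m_a2, Cert.e_a2⟩
  · exact ⟨_, sub_flat m_a3, Cert.e_a3⟩

theorem bI0 : bI 0 = 16 := by
  rw [← knum.2.2.2.2.2.2.1]
  decide +kernel

theorem enI0 : ∀ N34, 5 ≤ N34 → N34 ≤ 16 → ∃ l : List ℕ, l ⊆ Cert.LL.flatten ∧
    K.enI 0 N34 K.nilB l = true := by
  intro N34 h h'
  interval_cases N34
  · exact ⟨_, sub_flat m_i0_5, Cert.e_i0_5⟩
  · exact ⟨_, sub_flat m_i0_6, Cert.e_i0_6⟩
  · exact ⟨_, sub_flat m_i0_7, Cert.e_i0_7⟩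
  · exact ⟨_, sub_flat m_i0_8, Cert.e_i0_8⟩
  · exact ⟨_, sub_flat m_i0_9, Cert.e_i0_9⟩
  · exact ⟨_, sub_flat m_i0_10, Cert.e_i0_10⟩
  · exact ⟨_, sub_flat m_i0_11, Cert.e_i0_11⟩
  · exact ⟨_, sub_flat m_i0_12, Cert.e_i0_12⟩
  · exact ⟨_, sub_flat m_i0_13, Cert.e_i0_13⟩
  · exact ⟨_, sub_flat m_i0_14, Cert.e_i0_14⟩
  · exact ⟨_, sub_flat m_i0_15, Cert.e_i0_15⟩
  · exact ⟨_, sub_flat m_i0_16, Cert.e_i0_16⟩

theorem bI1 : bI 1 = 25 := by
  rw [← knum.2.2.2.2.2.2.1]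
  decide +kernel

theorem enI1 : ∀ N34, 5 ≤ N34 → N34 ≤ 25 → ∃ l : List ℕ, l ⊆ Cert.LL.flatten ∧
    K.enI 1 N34 K.nilB l = true := by
  intro N34 h h'
  interval_cases N34
  · exact ⟨_, sub_flat m_i1_5, Cert.e_i1_5⟩
  · exact ⟨_, sub_flat m_i1_6, Cert.e_i1_6⟩
  · exact ⟨_, sub_flat m_i1_7, Cert.e_i1_7⟩
  · exact ⟨_, sub_flat m_i1_8, Cert.e_i1_8⟩
  · exact ⟨_, sub_flat m_i1_9, Cert.e_i1_9⟩
  · exact ⟨_, sub_flat m_i1_10, Cert.e_i1_10⟩
  · exact ⟨_, sub_flat m_i1_11, Cert.e_i1_11⟩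
  · exact ⟨_, sub_flat m_i1_12, Cert.e_i1_12⟩
  · exact ⟨_, sub_flat m_i1_13, Cert.e_i1_13⟩
  · exact ⟨_, sub_flat m_i1_14, Cert.e_i1_14⟩
  · exact ⟨_, sub_flat m_i1_15, Cert.e_i1_15⟩
  · exact ⟨_, sub_flat m_i1_16, Cert.e_i1_16⟩
  · exact ⟨_, sub_flat m_i1_17, Cert.e_i1_17⟩
  · exact ⟨_, sub_flat m_i1_18, Cert.e_i1_18⟩
  · exact ⟨_, sub_flat m_i1_19, Cert.e_i1_19⟩
  · exact ⟨_, sub_flat m_i1_20, Cert.e_i1_20⟩
  · exact ⟨_, sub_flat m_i1_21, Cert.e_i1_21⟩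
  · exact ⟨_, sub_flat m_i1_22, Cert.e_i1_22⟩
  · exact ⟨_, sub_flat m_i1_23, Cert.e_i1_23⟩
  · exact ⟨_, sub_flat m_i1_24, Cert.e_i1_24⟩
  · exact ⟨_, sub_flat m_i1_25, Cert.e_i1_25⟩

theorem bI2 : bI 2 = 29 := by
  rw [← knum.2.2.2.2.2.2.1]
  decide +kernel

theorem enI2 : ∀ N34, 5 ≤ N34 → N34 ≤ 29 → ∃ l : List ℕ, l ⊆ Cert.LL.flatten ∧
    K.enI 2 N34 K.nilB l = true := by
  intro N34 h h'
  interval_cases N34
  · exact ⟨_, sub_flat m_i2_5, Cert.e_i2_5⟩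
  · exact ⟨_, sub_flat m_i2_6, Cert.e_i2_6⟩
  · exact ⟨_, sub_flat m_i2_7, Cert.e_i2_7⟩
  · exact ⟨_, sub_flat m_i2_8, Cert.e_i2_8⟩
  · exact ⟨_, sub_flat m_i2_9, Cert.e_i2_9⟩
  · exact ⟨_, sub_flat m_i2_10, Cert.e_i2_10⟩
  · exact ⟨_, sub_flat m_i2_11, Cert.e_i2_11⟩
  · exact ⟨_, sub_flat m_i2_12, Cert.e_i2_12⟩
  · exact ⟨_, sub_flat m_i2_13, Cert.e_i2_13⟩
  · exact ⟨_, sub_flat m_i2_14, Cert.e_i2_14⟩
  · exact ⟨_, sub_flat m_i2_15, Cert.e_i2_15⟩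
  · exact ⟨_, sub_flat m_i2_16, Cert.e_i2_16⟩
  · exact ⟨_, sub_flat m_i2_17, Cert.e_i2_17⟩
  · exact ⟨_, sub_flat m_i2_18, Cert.e_i2_18⟩
  · exact ⟨_, sub_flat m_i2_19, Cert.e_i2_19⟩
  · exact ⟨_, sub_flat m_i2_20, Cert.e_i2_20⟩
  · exact ⟨_, sub_flat m_i2_21, Cert.e_i2_21⟩
  · exact ⟨_, sub_flat m_i2_22, Cert.e_i2_22⟩
  · exact ⟨_, sub_flat m_i2_23, Cert.e_i2_23⟩
  · exact ⟨_, sub_flat m_i2_24, Cert.e_i2_24⟩
  · exact ⟨_, sub_flat m_i2_25, Cert.e_i2_25⟩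
  · exact ⟨_, sub_flat m_i2_26, Cert.e_i2_26⟩
  · exact ⟨_, sub_flat m_i2_27, Cert.e_i2_27⟩
  · exact ⟨_, sub_flat m_i2_28, Cert.e_i2_28⟩
  · exact ⟨_, sub_flat m_i2_29, Cert.e_i2_29⟩

theorem bI3 : bI 3 = 32 := by
  rw [← knum.2.2.2.2.2.2.1]
  decide +kernel

theorem enI3 : ∀ N34, 5 ≤ N34 → N34 ≤ 32 → ∃ l : List ℕ, l ⊆ Cert.LL.flatten ∧
    K.enI 3 N34 K.nilB l = true := by
  intro N34 h h'
  interval_cases N34
  · exact ⟨_, sub_flat m_i3_5, Cert.e_i3_5⟩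
  · exact ⟨_, sub_flat m_i3_6, Cert.e_i3_6⟩
  · exact ⟨_, sub_flat m_i3_7, Cert.e_i3_7⟩
  · exact ⟨_, sub_flat m_i3_8, Cert.e_i3_8⟩
  · exact ⟨_, sub_flat m_i3_9, Cert.e_i3_9⟩
  · exact ⟨_, sub_flat m_i3_10, Cert.e_i3_10⟩
  · exact ⟨_, sub_flat m_i3_11, Cert.e_i3_11⟩
  · exact ⟨_, sub_flat m_i3_12, Cert.e_i3_12⟩
  · exact ⟨_, sub_flat m_i3_13, Cert.e_i3_13⟩
  · exact ⟨_, sub_flat m_i3_14, Cert.e_i3_14⟩
  · exact ⟨_, sub_flat m_i3_15, Cert.e_i3_15⟩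
  · exact ⟨_, sub_flat m_i3_16, Cert.e_i3_16⟩
  · exact ⟨_, sub_flat m_i3_17, Cert.e_i3_17⟩
  · exact ⟨_, sub_flat m_i3_18, Cert.e_i3_18⟩
  · exact ⟨_, sub_flat m_i3_19, Cert.e_i3_19⟩
  · exact ⟨_, sub_flat m_i3_20, Cert.e_i3_20⟩
  · exact ⟨_, sub_flat m_i3_21, Cert.e_i3_21⟩
  · exact ⟨_, sub_flat m_i3_22, Cert.e_i3_22⟩
  · exact ⟨_, sub_flat m_i3_23, Cert.e_i3_23⟩
  · exact ⟨_, sub_flat m_i3_24, Cert.e_i3_24⟩
  · exact ⟨_, sub_flat m_i3_25, Cert.e_i3_25⟩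
  · exact ⟨_, sub_flat m_i3_26, Cert.e_i3_26⟩
  · exact ⟨_, sub_flat m_i3_27, Cert.e_i3_27⟩
  · exact ⟨_, sub_flat m_i3_28, Cert.e_i3_28⟩
  · exact ⟨_, sub_flat m_i3_29, Cert.e_i3_29⟩
  · exact ⟨_, sub_flat m_i3_30, Cert.e_i3_30⟩
  · exact ⟨_, sub_flat m_i3_31, Cert.e_i3_31⟩
  · exact ⟨_, sub_flat m_i3_32, Cert.e_i3_32⟩

theorem enI_all : ∀ N12 N34, N12 < 4 → 5 ≤ N34 → N34 ≤ bI N12 →
    ∃ l : List ℕ, l ⊆ Cert.LL.flatten ∧ K.enI N12 N34 K.nilB l = true := by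
  intro N12 N34 h h1 h2
  interval_cases N12
  · exact enI0 N34 h1 (by rwa [bI0] at h2)
  · exact enI1 N34 h1 (by rwa [bI1] at h2)
  · exact enI2 N34 h1 (by rwa [bI2] at h2)
  · exact enI3 N34 h1 (by rwa [bI3] at h2)

theorem enII_all : ∀ N13 N14, N13 < 4 → N14 < 4 → ¬ (N13 = 0 ∧ N14 = 0) →
    ∃ l : List ℕ, l ⊆ Cert.LL.flatten ∧ K.enII N13 N14 K.nilB l = true := by
  intro N13 N14 h h1 h2
  interval_cases N13 <;> interval_cases N14
  · exact absurd ⟨rfl, rfl⟩ h2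
  · exact ⟨_, sub_flat m_j0_1, Cert.e_j0_1⟩
  · exact ⟨_, sub_flat m_j0_2, Cert.e_j0_2⟩
  · exact ⟨_, sub_flat m_j0_3, Cert.e_j0_3⟩
  · exact ⟨_, sub_flat m_j1_0, Cert.e_j1_0⟩
  · exact ⟨_, sub_flat m_j1_1, Cert.e_j1_1⟩
  · exact ⟨_, sub_flat m_j1_2, Cert.e_j1_2⟩
  · exact ⟨_, sub_flat m_j1_3, Cert.e_j1_3⟩
  · exact ⟨_, sub_flat m_j2_0, Cert.e_j2_0⟩
  · exact ⟨_, sub_flat m_j2_1, Cert.e_j2_1⟩
  · exact ⟨_, sub_flat m_j2_2, Cert.e_j2_2⟩
  · exact ⟨_, sub_flat m_j2_3, Cert.e_j2_3⟩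
  · exact ⟨_, sub_flat m_j3_0, Cert.e_j3_0⟩
  · exact ⟨_, sub_flat m_j3_1, Cert.e_j3_1⟩
  · exact ⟨_, sub_flat m_j3_2, Cert.e_j3_2⟩
  · exact ⟨_, sub_flat m_j3_3, Cert.e_j3_3⟩

/-- the row `j` is reflective -/
def PR (j : ℕ) : Prop := Lat (mtab Cert.ta j) ∧ PrimG (mtab Cert.ta j) ∧ Reflective (mtab Cert.ta j)

/-- the row `j` is not reflective -/
def PN (j : ℕ) : Prop := Lat (mtab Cert.cb j) → ¬ Reflective (mtab Cert.cb j)

theorem pr_0 : ∀ j < 47, PR j := by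
  have h0 : ∀ j < 0, PR j := step0
  have h1 : ∀ j < 3, PR j := step h0 3 (cmpT Cert.ta 0 _ Cert.r0) rfl
  have h2 : ∀ j < 4, PR j := step h1 1 (cmpT Cert.ta 3 _ Cert.r3) rfl
  have h3 : ∀ j < 7, PR j := step h2 3 (cmpT Cert.ta 4 _ Cert.r4) rfl
  have h4 : ∀ j < 10, PR j := step h3 3 (cmpT Cert.ta 7 _ Cert.r7) rfl
  have h5 : ∀ j < 12, PR j := step h4 2 (cmpT Cert.ta 10 _ Cert.r10) rfl
  have h6 : ∀ j < 13, PR j := step h5 1 (cmpT Cert.ta 12 _ Cert.r12) rfl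
  have h7 : ∀ j < 17, PR j := step h6 4 (cmpT Cert.ta 13 _ Cert.r13) rfl
  have h8 : ∀ j < 19, PR j := step h7 2 (cmpT Cert.ta 17 _ Cert.r17) rfl
  have h9 : ∀ j < 20, PR j := step h8 1 (cmpT Cert.ta 19 _ Cert.r19) rfl
  have h10 : ∀ j < 21, PR j := step h9 1 (cmpT Cert.ta 20 _ Cert.r20) rfl
  have h11 : ∀ j < 25, PR j := step h10 4 (cmpT Cert.ta 21 _ Cert.r21) rfl
  have h12 : ∀ j < 28, PR j := step h11 3 (cmpT Cert.ta 25 _ Cert.r25) rfl
  have h13 : ∀ j < 30, PR j := step h12 2 (cmpT Cert.ta 28 _ Cert.r28) rfl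
  have h14 : ∀ j < 31, PR j := step h13 1 (cmpT Cert.ta 30 _ Cert.r30) rfl
  have h15 : ∀ j < 33, PR j := step h14 2 (cmpT Cert.ta 31 _ Cert.r31) rfl
  have h16 : ∀ j < 36, PR j := step h15 3 (cmpT Cert.ta 33 _ Cert.r33) rfl
  have h17 : ∀ j < 38, PR j := step h16 2 (cmpT Cert.ta 36 _ Cert.r36) rfl
  have h18 : ∀ j < 40, PR j := step h17 2 (cmpT Cert.ta 38 _ Cert.r38) rfl
  have h19 : ∀ j < 44, PR j := step h18 4 (cmpT Cert.ta 40 _ Cert.r40) rfl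
  have h20 : ∀ j < 47, PR j := step h19 3 (cmpT Cert.ta 44 _ Cert.r44) rfl
  exact h20
theorem pr_1 : ∀ j < 115, PR j := by
  have h0 : ∀ j < 47, PR j := pr_0
  have h1 : ∀ j < 54, PR j := step h0 7 (cmpT Cert.ta 47 _ Cert.r47) rfl
  have h2 : ∀ j < 58, PR j := step h1 4 (cmpT Cert.ta 54 _ Cert.r54) rfl
  have h3 : ∀ j < 61, PR j := step h2 3 (cmpT Cert.ta 58 _ Cert.r58) rfl
  have h4 : ∀ j < 65, PR j := step h3 4 (cmpT Cert.ta 61 _ Cert.r61) rfl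
  have h5 : ∀ j < 72, PR j := step h4 7 (cmpT Cert.ta 65 _ Cert.r65) rfl
  have h6 : ∀ j < 74, PR j := step h5 2 (cmpT Cert.ta 72 _ Cert.r72) rfl
  have h7 : ∀ j < 77, PR j := step h6 3 (cmpT Cert.ta 74 _ Cert.r74) rfl
  have h8 : ∀ j < 79, PR j := step h7 2 (cmpT Cert.ta 77 _ Cert.r77) rfl
  have h9 : ∀ j < 81, PR j := step h8 2 (cmpT Cert.ta 79 _ Cert.r79) rfl
  have h10 : ∀ j < 84, PR j := step h9 3 (cmpT Cert.ta 81 _ Cert.r81) rfl
  have h11 : ∀ j < 86, PR j := step h10 2 (cmpT Cert.ta 84 _ Cert.r84) rfl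
  have h12 : ∀ j < 89, PR j := step h11 3 (cmpT Cert.ta 86 _ Cert.r86) rfl
  have h13 : ∀ j < 91, PR j := step h12 2 (cmpT Cert.ta 89 _ Cert.r89) rfl
  have h14 : ∀ j < 94, PR j := step h13 3 (cmpT Cert.ta 91 _ Cert.r91) rfl
  have h15 : ∀ j < 97, PR j := step h14 3 (cmpT Cert.ta 94 _ Cert.r94) rfl
  have h16 : ∀ j < 102, PR j := step h15 5 (cmpT Cert.ta 97 _ Cert.r97) rfl
  have h17 : ∀ j < 106, PR j := step h16 4 (cmpT Cert.ta 102 _ Cert.r102) rfl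
  have h18 : ∀ j < 109, PR j := step h17 3 (cmpT Cert.ta 106 _ Cert.r106) rfl
  have h19 : ∀ j < 112, PR j := step h18 3 (cmpT Cert.ta 109 _ Cert.r109) rfl
  have h20 : ∀ j < 115, PR j := step h19 3 (cmpT Cert.ta 112 _ Cert.r112) rfl
  exact h20
theorem pr_2 : ∀ j < 177, PR j := by
  have h0 : ∀ j < 115, PR j := pr_1
  have h1 : ∀ j < 117, PR j := step h0 2 (cmpT Cert.ta 115 _ Cert.r115) rfl
  have h2 : ∀ j < 125, PR j := step h1 8 (cmpT Cert.ta 117 _ Cert.r117) rfl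
  have h3 : ∀ j < 128, PR j := step h2 3 (cmpT Cert.ta 125 _ Cert.r125) rfl
  have h4 : ∀ j < 130, PR j := step h3 2 (cmpT Cert.ta 128 _ Cert.r128) rfl
  have h5 : ∀ j < 133, PR j := step h4 3 (cmpT Cert.ta 130 _ Cert.r130) rfl
  have h6 : ∀ j < 135, PR j := step h5 2 (cmpT Cert.ta 133 _ Cert.r133) rfl
  have h7 : ∀ j < 137, PR j := step h6 2 (cmpT Cert.ta 135 _ Cert.r135) rfl
  have h8 : ∀ j < 140, PR j := step h7 3 (cmpT Cert.ta 137 _ Cert.r137) rfl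
  have h9 : ∀ j < 144, PR j := step h8 4 (cmpT Cert.ta 140 _ Cert.r140) rfl
  have h10 : ∀ j < 146, PR j := step h9 2 (cmpT Cert.ta 144 _ Cert.r144) rfl
  have h11 : ∀ j < 148, PR j := step h10 2 (cmpT Cert.ta 146 _ Cert.r146) rfl
  have h12 : ∀ j < 151, PR j := step h11 3 (cmpT Cert.ta 148 _ Cert.r148) rfl
  have h13 : ∀ j < 154, PR j := step h12 3 (cmpT Cert.ta 151 _ Cert.r151) rfl
  have h14 : ∀ j < 157, PR j := step h13 3 (cmpT Cert.ta 154 _ Cert.r154) rfl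
  have h15 : ∀ j < 163, PR j := step h14 6 (cmpT Cert.ta 157 _ Cert.r157) rfl
  have h16 : ∀ j < 165, PR j := step h15 2 (cmpT Cert.ta 163 _ Cert.r163) rfl
  have h17 : ∀ j < 169, PR j := step h16 4 (cmpT Cert.ta 165 _ Cert.r165) rfl
  have h18 : ∀ j < 170, PR j := step h17 1 (cmpT Cert.ta 169 _ Cert.r169) rfl
  have h19 : ∀ j < 172, PR j := step h18 2 (cmpT Cert.ta 170 _ Cert.r170) rfl
  have h20 : ∀ j < 177, PR j := step h19 5 (cmpT Cert.ta 172 _ Cert.r172) rfl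
  exact h20
theorem pr_3 : ∀ j < 243, PR j := by
  have h0 : ∀ j < 177, PR j := pr_2
  have h1 : ∀ j < 181, PR j := step h0 4 (cmpT Cert.ta 177 _ Cert.r177) rfl
  have h2 : ∀ j < 185, PR j := step h1 4 (cmpT Cert.ta 181 _ Cert.r181) rfl
  have h3 : ∀ j < 191, PR j := step h2 6 (cmpT Cert.ta 185 _ Cert.r185) rfl
  have h4 : ∀ j < 196, PR j := step h3 5 (cmpT Cert.ta 191 _ Cert.r191) rfl
  have h5 : ∀ j < 200, PR j := step h4 4 (cmpT Cert.ta 196 _ Cert.r196) rfl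
  have h6 : ∀ j < 202, PR j := step h5 2 (cmpT Cert.ta 200 _ Cert.r200) rfl
  have h7 : ∀ j < 207, PR j := step h6 5 (cmpT Cert.ta 202 _ Cert.r202) rfl
  have h8 : ∀ j < 215, PR j := step h7 8 (cmpT Cert.ta 207 _ Cert.r207) rfl
  have h9 : ∀ j < 218, PR j := step h8 3 (cmpT Cert.ta 215 _ Cert.r215) rfl
  have h10 : ∀ j < 221, PR j := step h9 3 (cmpT Cert.ta 218 _ Cert.r218) rfl
  have h11 : ∀ j < 225, PR j := step h10 4 (cmpT Cert.ta 221 _ Cert.r221) rfl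
  have h12 : ∀ j < 227, PR j := step h11 2 (cmpT Cert.ta 225 _ Cert.r225) rfl
  have h13 : ∀ j < 228, PR j := step h12 1 (cmpT Cert.ta 227 _ Cert.r227) rfl
  have h14 : ∀ j < 231, PR j := step h13 3 (cmpT Cert.ta 228 _ Cert.r228) rfl
  have h15 : ∀ j < 233, PR j := step h14 2 (cmpT Cert.ta 231 _ Cert.r231) rfl
  have h16 : ∀ j < 234, PR j := step h15 1 (cmpT Cert.ta 233 _ Cert.r233) rfl
  have h17 : ∀ j < 235, PR j := step h16 1 (cmpT Cert.ta 234 _ Cert.r234) rfl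
  have h18 : ∀ j < 238, PR j := step h17 3 (cmpT Cert.ta 235 _ Cert.r235) rfl
  have h19 : ∀ j < 242, PR j := step h18 4 (cmpT Cert.ta 238 _ Cert.r238) rfl
  have h20 : ∀ j < 243, PR j := step h19 1 (cmpT Cert.ta 242 _ Cert.r242) rfl
  exact h20
theorem pr_4 : ∀ j < 304, PR j := by
  have h0 : ∀ j < 243, PR j := pr_3
  have h1 : ∀ j < 245, PR j := step h0 2 (cmpT Cert.ta 243 _ Cert.r243) rfl
  have h2 : ∀ j < 248, PR j := step h1 3 (cmpT Cert.ta 245 _ Cert.r245) rfl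
  have h3 : ∀ j < 251, PR j := step h2 3 (cmpT Cert.ta 248 _ Cert.r248) rfl
  have h4 : ∀ j < 254, PR j := step h3 3 (cmpT Cert.ta 251 _ Cert.r251) rfl
  have h5 : ∀ j < 260, PR j := step h4 6 (cmpT Cert.ta 254 _ Cert.r254) rfl
  have h6 : ∀ j < 263, PR j := step h5 3 (cmpT Cert.ta 260 _ Cert.r260) rfl
  have h7 : ∀ j < 266, PR j := step h6 3 (cmpT Cert.ta 263 _ Cert.r263) rfl
  have h8 : ∀ j < 268, PR j := step h7 2 (cmpT Cert.ta 266 _ Cert.r266) rfl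
  have h9 : ∀ j < 272, PR j := step h8 4 (cmpT Cert.ta 268 _ Cert.r268) rfl
  have h10 : ∀ j < 277, PR j := step h9 5 (cmpT Cert.ta 272 _ Cert.r272) rfl
  have h11 : ∀ j < 283, PR j := step h10 6 (cmpT Cert.ta 277 _ Cert.r277) rfl
  have h12 : ∀ j < 287, PR j := step h11 4 (cmpT Cert.ta 283 _ Cert.r283) rfl
  have h13 : ∀ j < 291, PR j := step h12 4 (cmpT Cert.ta 287 _ Cert.r287) rfl
  have h14 : ∀ j < 294, PR j := step h13 3 (cmpT Cert.ta 291 _ Cert.r291) rfl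
  have h15 : ∀ j < 297, PR j := step h14 3 (cmpT Cert.ta 294 _ Cert.r294) rfl
  have h16 : ∀ j < 299, PR j := step h15 2 (cmpT Cert.ta 297 _ Cert.r297) rfl
  have h17 : ∀ j < 301, PR j := step h16 2 (cmpT Cert.ta 299 _ Cert.r299) rfl
  have h18 : ∀ j < 302, PR j := step h17 1 (cmpT Cert.ta 301 _ Cert.r301) rfl
  have h19 : ∀ j < 303, PR j := step h18 1 (cmpT Cert.ta 302 _ Cert.r302) rfl
  have h20 : ∀ j < 304, PR j := step h19 1 (cmpT Cert.ta 303 _ Cert.r303) rfl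
  exact h20
theorem pr_5 : ∀ j < 339, PR j := by
  have h0 : ∀ j < 304, PR j := pr_4
  have h1 : ∀ j < 307, PR j := step h0 3 (cmpT Cert.ta 304 _ Cert.r304) rfl
  have h2 : ∀ j < 308, PR j := step h1 1 (cmpT Cert.ta 307 _ Cert.r307) rfl
  have h3 : ∀ j < 309, PR j := step h2 1 (cmpT Cert.ta 308 _ Cert.r308) rfl
  have h4 : ∀ j < 310, PR j := step h3 1 (cmpT Cert.ta 309 _ Cert.r309) rfl
  have h5 : ∀ j < 311, PR j := step h4 1 (cmpT Cert.ta 310 _ Cert.r310) rfl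
  have h6 : ∀ j < 314, PR j := step h5 3 (cmpT Cert.ta 311 _ Cert.r311) rfl
  have h7 : ∀ j < 315, PR j := step h6 1 (cmpT Cert.ta 314 _ Cert.r314) rfl
  have h8 : ∀ j < 316, PR j := step h7 1 (cmpT Cert.ta 315 _ Cert.r315) rfl
  have h9 : ∀ j < 317, PR j := step h8 1 (cmpT Cert.ta 316 _ Cert.r316) rfl
  have h10 : ∀ j < 319, PR j := step h9 2 (cmpT Cert.ta 317 _ Cert.r317) rfl
  have h11 : ∀ j < 321, PR j := step h10 2 (cmpT Cert.ta 319 _ Cert.r319) rfl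
  have h12 : ∀ j < 324, PR j := step h11 3 (cmpT Cert.ta 321 _ Cert.r321) rfl
  have h13 : ∀ j < 326, PR j := step h12 2 (cmpT Cert.ta 324 _ Cert.r324) rfl
  have h14 : ∀ j < 329, PR j := step h13 3 (cmpT Cert.ta 326 _ Cert.r326) rfl
  have h15 : ∀ j < 332, PR j := step h14 3 (cmpT Cert.ta 329 _ Cert.r329) rfl
  have h16 : ∀ j < 334, PR j := step h15 2 (cmpT Cert.ta 332 _ Cert.r332) rfl
  have h17 : ∀ j < 336, PR j := step h16 2 (cmpT Cert.ta 334 _ Cert.r334) rfl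
  have h18 : ∀ j < 337, PR j := step h17 1 (cmpT Cert.ta 336 _ Cert.r336) rfl
  have h19 : ∀ j < 338, PR j := step h18 1 (cmpT Cert.ta 337 _ Cert.r337) rfl
  have h20 : ∀ j < 339, PR j := step h19 1 (cmpT Cert.ta 338 _ Cert.r338) rfl
  exact h20
theorem pr_6 : ∀ j < 386, PR j := by
  have h0 : ∀ j < 339, PR j := pr_5
  have h1 : ∀ j < 340, PR j := step h0 1 (cmpT Cert.ta 339 _ Cert.r339) rfl
  have h2 : ∀ j < 342, PR j := step h1 2 (cmpT Cert.ta 340 _ Cert.r340) rfl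
  have h3 : ∀ j < 343, PR j := step h2 1 (cmpT Cert.ta 342 _ Cert.r342) rfl
  have h4 : ∀ j < 344, PR j := step h3 1 (cmpT Cert.ta 343 _ Cert.r343) rfl
  have h5 : ∀ j < 352, PR j := step h4 8 (cmpT Cert.ta 344 _ Cert.r344) rfl
  have h6 : ∀ j < 356, PR j := step h5 4 (cmpT Cert.ta 352 _ Cert.r352) rfl
  have h7 : ∀ j < 361, PR j := step h6 5 (cmpT Cert.ta 356 _ Cert.r356) rfl
  have h8 : ∀ j < 367, PR j := step h7 6 (cmpT Cert.ta 361 _ Cert.r361) rfl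
  have h9 : ∀ j < 370, PR j := step h8 3 (cmpT Cert.ta 367 _ Cert.r367) rfl
  have h10 : ∀ j < 372, PR j := step h9 2 (cmpT Cert.ta 370 _ Cert.r370) rfl
  have h11 : ∀ j < 373, PR j := step h10 1 (cmpT Cert.ta 372 _ Cert.r372) rfl
  have h12 : ∀ j < 374, PR j := step h11 1 (cmpT Cert.ta 373 _ Cert.r373) rfl
  have h13 : ∀ j < 376, PR j := step h12 2 (cmpT Cert.ta 374 _ Cert.r374) rfl
  have h14 : ∀ j < 377, PR j := step h13 1 (cmpT Cert.ta 376 _ Cert.r376) rfl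
  have h15 : ∀ j < 379, PR j := step h14 2 (cmpT Cert.ta 377 _ Cert.r377) rfl
  have h16 : ∀ j < 380, PR j := step h15 1 (cmpT Cert.ta 379 _ Cert.r379) rfl
  have h17 : ∀ j < 381, PR j := step h16 1 (cmpT Cert.ta 380 _ Cert.r380) rfl
  have h18 : ∀ j < 382, PR j := step h17 1 (cmpT Cert.ta 381 _ Cert.r381) rfl
  have h19 : ∀ j < 384, PR j := step h18 2 (cmpT Cert.ta 382 _ Cert.r382) rfl
  have h20 : ∀ j < 386, PR j := step h19 2 (cmpT Cert.ta 384 _ Cert.r384) rfl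
  exact h20
theorem pr_7 : ∀ j < 419, PR j := by
  have h0 : ∀ j < 386, PR j := pr_6
  have h1 : ∀ j < 387, PR j := step h0 1 (cmpT Cert.ta 386 _ Cert.r386) rfl
  have h2 : ∀ j < 388, PR j := step h1 1 (cmpT Cert.ta 387 _ Cert.r387) rfl
  have h3 : ∀ j < 389, PR j := step h2 1 (cmpT Cert.ta 388 _ Cert.r388) rfl
  have h4 : ∀ j < 390, PR j := step h3 1 (cmpT Cert.ta 389 _ Cert.r389) rfl
  have h5 : ∀ j < 392, PR j := step h4 2 (cmpT Cert.ta 390 _ Cert.r390) rfl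
  have h6 : ∀ j < 393, PR j := step h5 1 (cmpT Cert.ta 392 _ Cert.r392) rfl
  have h7 : ∀ j < 394, PR j := step h6 1 (cmpT Cert.ta 393 _ Cert.r393) rfl
  have h8 : ∀ j < 395, PR j := step h7 1 (cmpT Cert.ta 394 _ Cert.r394) rfl
  have h9 : ∀ j < 396, PR j := step h8 1 (cmpT Cert.ta 395 _ Cert.r395) rfl
  have h10 : ∀ j < 397, PR j := step h9 1 (cmpT Cert.ta 396 _ Cert.r396) rfl
  have h11 : ∀ j < 398, PR j := step h10 1 (cmpT Cert.ta 397 _ Cert.r397) rfl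
  have h12 : ∀ j < 399, PR j := step h11 1 (cmpT Cert.ta 398 _ Cert.r398) rfl
  have h13 : ∀ j < 402, PR j := step h12 3 (cmpT Cert.ta 399 _ Cert.r399) rfl
  have h14 : ∀ j < 405, PR j := step h13 3 (cmpT Cert.ta 402 _ Cert.r402) rfl
  have h15 : ∀ j < 407, PR j := step h14 2 (cmpT Cert.ta 405 _ Cert.r405) rfl
  have h16 : ∀ j < 409, PR j := step h15 2 (cmpT Cert.ta 407 _ Cert.r407) rfl
  have h17 : ∀ j < 411, PR j := step h16 2 (cmpT Cert.ta 409 _ Cert.r409) rfl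
  have h18 : ∀ j < 414, PR j := step h17 3 (cmpT Cert.ta 411 _ Cert.r411) rfl
  have h19 : ∀ j < 417, PR j := step h18 3 (cmpT Cert.ta 414 _ Cert.r414) rfl
  have h20 : ∀ j < 419, PR j := step h19 2 (cmpT Cert.ta 417 _ Cert.r417) rfl
  exact h20
theorem pr_8 : ∀ j < 454, PR j := by
  have h0 : ∀ j < 419, PR j := pr_7
  have h1 : ∀ j < 420, PR j := step h0 1 (cmpT Cert.ta 419 _ Cert.r419) rfl
  have h2 : ∀ j < 421, PR j := step h1 1 (cmpT Cert.ta 420 _ Cert.r420) rfl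
  have h3 : ∀ j < 422, PR j := step h2 1 (cmpT Cert.ta 421 _ Cert.r421) rfl
  have h4 : ∀ j < 423, PR j := step h3 1 (cmpT Cert.ta 422 _ Cert.r422) rfl
  have h5 : ∀ j < 425, PR j := step h4 2 (cmpT Cert.ta 423 _ Cert.r423) rfl
  have h6 : ∀ j < 426, PR j := step h5 1 (cmpT Cert.ta 425 _ Cert.r425) rfl
  have h7 : ∀ j < 427, PR j := step h6 1 (cmpT Cert.ta 426 _ Cert.r426) rfl
  have h8 : ∀ j < 429, PR j := step h7 2 (cmpT Cert.ta 427 _ Cert.r427) rfl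
  have h9 : ∀ j < 431, PR j := step h8 2 (cmpT Cert.ta 429 _ Cert.r429) rfl
  have h10 : ∀ j < 433, PR j := step h9 2 (cmpT Cert.ta 431 _ Cert.r431) rfl
  have h11 : ∀ j < 435, PR j := step h10 2 (cmpT Cert.ta 433 _ Cert.r433) rfl
  have h12 : ∀ j < 436, PR j := step h11 1 (cmpT Cert.ta 435 _ Cert.r435) rfl
  have h13 : ∀ j < 438, PR j := step h12 2 (cmpT Cert.ta 436 _ Cert.r436) rfl
  have h14 : ∀ j < 440, PR j := step h13 2 (cmpT Cert.ta 438 _ Cert.r438) rfl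
  have h15 : ∀ j < 442, PR j := step h14 2 (cmpT Cert.ta 440 _ Cert.r440) rfl
  have h16 : ∀ j < 444, PR j := step h15 2 (cmpT Cert.ta 442 _ Cert.r442) rfl
  have h17 : ∀ j < 446, PR j := step h16 2 (cmpT Cert.ta 444 _ Cert.r444) rfl
  have h18 : ∀ j < 448, PR j := step h17 2 (cmpT Cert.ta 446 _ Cert.r446) rfl
  have h19 : ∀ j < 451, PR j := step h18 3 (cmpT Cert.ta 448 _ Cert.r448) rfl
  have h20 : ∀ j < 454, PR j := step h19 3 (cmpT Cert.ta 451 _ Cert.r451) rfl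
  exact h20
theorem pr_9 : ∀ j < 485, PR j := by
  have h0 : ∀ j < 454, PR j := pr_8
  have h1 : ∀ j < 457, PR j := step h0 3 (cmpT Cert.ta 454 _ Cert.r454) rfl
  have h2 : ∀ j < 459, PR j := step h1 2 (cmpT Cert.ta 457 _ Cert.r457) rfl
  have h3 : ∀ j < 460, PR j := step h2 1 (cmpT Cert.ta 459 _ Cert.r459) rfl
  have h4 : ∀ j < 461, PR j := step h3 1 (cmpT Cert.ta 460 _ Cert.r460) rfl
  have h5 : ∀ j < 462, PR j := step h4 1 (cmpT Cert.ta 461 _ Cert.r461) rfl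
  have h6 : ∀ j < 464, PR j := step h5 2 (cmpT Cert.ta 462 _ Cert.r462) rfl
  have h7 : ∀ j < 465, PR j := step h6 1 (cmpT Cert.ta 464 _ Cert.r464) rfl
  have h8 : ∀ j < 466, PR j := step h7 1 (cmpT Cert.ta 465 _ Cert.r465) rfl
  have h9 : ∀ j < 467, PR j := step h8 1 (cmpT Cert.ta 466 _ Cert.r466) rfl
  have h10 : ∀ j < 468, PR j := step h9 1 (cmpT Cert.ta 467 _ Cert.r467) rfl
  have h11 : ∀ j < 469, PR j := step h10 1 (cmpT Cert.ta 468 _ Cert.r468) rfl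
  have h12 : ∀ j < 471, PR j := step h11 2 (cmpT Cert.ta 469 _ Cert.r469) rfl
  have h13 : ∀ j < 472, PR j := step h12 1 (cmpT Cert.ta 471 _ Cert.r471) rfl
  have h14 : ∀ j < 473, PR j := step h13 1 (cmpT Cert.ta 472 _ Cert.r472) rfl
  have h15 : ∀ j < 474, PR j := step h14 1 (cmpT Cert.ta 473 _ Cert.r473) rfl
  have h16 : ∀ j < 475, PR j := step h15 1 (cmpT Cert.ta 474 _ Cert.r474) rfl
  have h17 : ∀ j < 477, PR j := step h16 2 (cmpT Cert.ta 475 _ Cert.r475) rfl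
  have h18 : ∀ j < 479, PR j := step h17 2 (cmpT Cert.ta 477 _ Cert.r477) rfl
  have h19 : ∀ j < 482, PR j := step h18 3 (cmpT Cert.ta 479 _ Cert.r479) rfl
  have h20 : ∀ j < 485, PR j := step h19 3 (cmpT Cert.ta 482 _ Cert.r482) rfl
  exact h20
theorem pr_10 : ∀ j < 507, PR j := by
  have h0 : ∀ j < 485, PR j := pr_9
  have h1 : ∀ j < 486, PR j := step h0 1 (cmpT Cert.ta 485 _ Cert.r485) rfl
  have h2 : ∀ j < 487, PR j := step h1 1 (cmpT Cert.ta 486 _ Cert.r486) rfl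
  have h3 : ∀ j < 488, PR j := step h2 1 (cmpT Cert.ta 487 _ Cert.r487) rfl
  have h4 : ∀ j < 490, PR j := step h3 2 (cmpT Cert.ta 488 _ Cert.r488) rfl
  have h5 : ∀ j < 491, PR j := step h4 1 (cmpT Cert.ta 490 _ Cert.r490) rfl
  have h6 : ∀ j < 492, PR j := step h5 1 (cmpT Cert.ta 491 _ Cert.r491) rfl
  have h7 : ∀ j < 493, PR j := step h6 1 (cmpT Cert.ta 492 _ Cert.r492) rfl
  have h8 : ∀ j < 494, PR j := step h7 1 (cmpT Cert.ta 493 _ Cert.r493) rfl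
  have h9 : ∀ j < 495, PR j := step h8 1 (cmpT Cert.ta 494 _ Cert.r494) rfl
  have h10 : ∀ j < 497, PR j := step h9 2 (cmpT Cert.ta 495 _ Cert.r495) rfl
  have h11 : ∀ j < 498, PR j := step h10 1 (cmpT Cert.ta 497 _ Cert.r497) rfl
  have h12 : ∀ j < 499, PR j := step h11 1 (cmpT Cert.ta 498 _ Cert.r498) rfl
  have h13 : ∀ j < 500, PR j := step h12 1 (cmpT Cert.ta 499 _ Cert.r499) rfl
  have h14 : ∀ j < 501, PR j := step h13 1 (cmpT Cert.ta 500 _ Cert.r500) rfl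
  have h15 : ∀ j < 502, PR j := step h14 1 (cmpT Cert.ta 501 _ Cert.r501) rfl
  have h16 : ∀ j < 503, PR j := step h15 1 (cmpT Cert.ta 502 _ Cert.r502) rfl
  have h17 : ∀ j < 504, PR j := step h16 1 (cmpT Cert.ta 503 _ Cert.r503) rfl
  have h18 : ∀ j < 505, PR j := step h17 1 (cmpT Cert.ta 504 _ Cert.r504) rfl
  have h19 : ∀ j < 506, PR j := step h18 1 (cmpT Cert.ta 505 _ Cert.r505) rfl
  have h20 : ∀ j < 507, PR j := step h19 1 (cmpT Cert.ta 506 _ Cert.r506) rfl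
  exact h20
theorem pr_11 : ∀ j < 551, PR j := by
  have h0 : ∀ j < 507, PR j := pr_10
  have h1 : ∀ j < 508, PR j := step h0 1 (cmpT Cert.ta 507 _ Cert.r507) rfl
  have h2 : ∀ j < 510, PR j := step h1 2 (cmpT Cert.ta 508 _ Cert.r508) rfl
  have h3 : ∀ j < 512, PR j := step h2 2 (cmpT Cert.ta 510 _ Cert.r510) rfl
  have h4 : ∀ j < 514, PR j := step h3 2 (cmpT Cert.ta 512 _ Cert.r512) rfl
  have h5 : ∀ j < 517, PR j := step h4 3 (cmpT Cert.ta 514 _ Cert.r514) rfl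
  have h6 : ∀ j < 520, PR j := step h5 3 (cmpT Cert.ta 517 _ Cert.r517) rfl
  have h7 : ∀ j < 523, PR j := step h6 3 (cmpT Cert.ta 520 _ Cert.r520) rfl
  have h8 : ∀ j < 525, PR j := step h7 2 (cmpT Cert.ta 523 _ Cert.r523) rfl
  have h9 : ∀ j < 526, PR j := step h8 1 (cmpT Cert.ta 525 _ Cert.r525) rfl
  have h10 : ∀ j < 527, PR j := step h9 1 (cmpT Cert.ta 526 _ Cert.r526) rfl
  have h11 : ∀ j < 529, PR j := step h10 2 (cmpT Cert.ta 527 _ Cert.r527) rfl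
  have h12 : ∀ j < 530, PR j := step h11 1 (cmpT Cert.ta 529 _ Cert.r529) rfl
  have h13 : ∀ j < 531, PR j := step h12 1 (cmpT Cert.ta 530 _ Cert.r530) rfl
  have h14 : ∀ j < 533, PR j := step h13 2 (cmpT Cert.ta 531 _ Cert.r531) rfl
  have h15 : ∀ j < 534, PR j := step h14 1 (cmpT Cert.ta 533 _ Cert.r533) rfl
  have h16 : ∀ j < 538, PR j := step h15 4 (cmpT Cert.ta 534 _ Cert.r534) rfl
  have h17 : ∀ j < 542, PR j := step h16 4 (cmpT Cert.ta 538 _ Cert.r538) rfl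
  have h18 : ∀ j < 545, PR j := step h17 3 (cmpT Cert.ta 542 _ Cert.r542) rfl
  have h19 : ∀ j < 547, PR j := step h18 2 (cmpT Cert.ta 545 _ Cert.r545) rfl
  have h20 : ∀ j < 551, PR j := step h19 4 (cmpT Cert.ta 547 _ Cert.r547) rfl
  exact h20
theorem pr_12 : ∀ j < 605, PR j := by
  have h0 : ∀ j < 551, PR j := pr_11
  have h1 : ∀ j < 553, PR j := step h0 2 (cmpT Cert.ta 551 _ Cert.r551) rfl
  have h2 : ∀ j < 557, PR j := step h1 4 (cmpT Cert.ta 553 _ Cert.r553) rfl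
  have h3 : ∀ j < 562, PR j := step h2 5 (cmpT Cert.ta 557 _ Cert.r557) rfl
  have h4 : ∀ j < 565, PR j := step h3 3 (cmpT Cert.ta 562 _ Cert.r562) rfl
  have h5 : ∀ j < 567, PR j := step h4 2 (cmpT Cert.ta 565 _ Cert.r565) rfl
  have h6 : ∀ j < 570, PR j := step h5 3 (cmpT Cert.ta 567 _ Cert.r567) rfl
  have h7 : ∀ j < 574, PR j := step h6 4 (cmpT Cert.ta 570 _ Cert.r570) rfl
  have h8 : ∀ j < 579, PR j := step h7 5 (cmpT Cert.ta 574 _ Cert.r574) rfl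
  have h9 : ∀ j < 584, PR j := step h8 5 (cmpT Cert.ta 579 _ Cert.r579) rfl
  have h10 : ∀ j < 588, PR j := step h9 4 (cmpT Cert.ta 584 _ Cert.r584) rfl
  have h11 : ∀ j < 591, PR j := step h10 3 (cmpT Cert.ta 588 _ Cert.r588) rfl
  have h12 : ∀ j < 593, PR j := step h11 2 (cmpT Cert.ta 591 _ Cert.r591) rfl
  have h13 : ∀ j < 595, PR j := step h12 2 (cmpT Cert.ta 593 _ Cert.r593) rfl
  have h14 : ∀ j < 597, PR j := step h13 2 (cmpT Cert.ta 595 _ Cert.r595) rfl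
  have h15 : ∀ j < 599, PR j := step h14 2 (cmpT Cert.ta 597 _ Cert.r597) rfl
  have h16 : ∀ j < 601, PR j := step h15 2 (cmpT Cert.ta 599 _ Cert.r599) rfl
  have h17 : ∀ j < 602, PR j := step h16 1 (cmpT Cert.ta 601 _ Cert.r601) rfl
  have h18 : ∀ j < 603, PR j := step h17 1 (cmpT Cert.ta 602 _ Cert.r602) rfl
  have h19 : ∀ j < 604, PR j := step h18 1 (cmpT Cert.ta 603 _ Cert.r603) rfl
  have h20 : ∀ j < 605, PR j := step h19 1 (cmpT Cert.ta 604 _ Cert.r604) rfl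
  exact h20
theorem pr_13 : ∀ j < 645, PR j := by
  have h0 : ∀ j < 605, PR j := pr_12
  have h1 : ∀ j < 606, PR j := step h0 1 (cmpT Cert.ta 605 _ Cert.r605) rfl
  have h2 : ∀ j < 607, PR j := step h1 1 (cmpT Cert.ta 606 _ Cert.r606) rfl
  have h3 : ∀ j < 609, PR j := step h2 2 (cmpT Cert.ta 607 _ Cert.r607) rfl
  have h4 : ∀ j < 612, PR j := step h3 3 (cmpT Cert.ta 609 _ Cert.r609) rfl
  have h5 : ∀ j < 615, PR j := step h4 3 (cmpT Cert.ta 612 _ Cert.r612) rfl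
  have h6 : ∀ j < 617, PR j := step h5 2 (cmpT Cert.ta 615 _ Cert.r615) rfl
  have h7 : ∀ j < 618, PR j := step h6 1 (cmpT Cert.ta 617 _ Cert.r617) rfl
  have h8 : ∀ j < 620, PR j := step h7 2 (cmpT Cert.ta 618 _ Cert.r618) rfl
  have h9 : ∀ j < 623, PR j := step h8 3 (cmpT Cert.ta 620 _ Cert.r620) rfl
  have h10 : ∀ j < 625, PR j := step h9 2 (cmpT Cert.ta 623 _ Cert.r623) rfl
  have h11 : ∀ j < 630, PR j := step h10 5 (cmpT Cert.ta 625 _ Cert.r625) rfl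
  have h12 : ∀ j < 634, PR j := step h11 4 (cmpT Cert.ta 630 _ Cert.r630) rfl
  have h13 : ∀ j < 637, PR j := step h12 3 (cmpT Cert.ta 634 _ Cert.r634) rfl
  have h14 : ∀ j < 639, PR j := step h13 2 (cmpT Cert.ta 637 _ Cert.r637) rfl
  have h15 : ∀ j < 640, PR j := step h14 1 (cmpT Cert.ta 639 _ Cert.r639) rfl
  have h16 : ∀ j < 641, PR j := step h15 1 (cmpT Cert.ta 640 _ Cert.r640) rfl
  have h17 : ∀ j < 642, PR j := step h16 1 (cmpT Cert.ta 641 _ Cert.r641) rfl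
  have h18 : ∀ j < 643, PR j := step h17 1 (cmpT Cert.ta 642 _ Cert.r642) rfl
  have h19 : ∀ j < 644, PR j := step h18 1 (cmpT Cert.ta 643 _ Cert.r643) rfl
  have h20 : ∀ j < 645, PR j := step h19 1 (cmpT Cert.ta 644 _ Cert.r644) rfl
  exact h20
theorem pr_14 : ∀ j < 669, PR j := by
  have h0 : ∀ j < 645, PR j := pr_13
  have h1 : ∀ j < 646, PR j := step h0 1 (cmpT Cert.ta 645 _ Cert.r645) rfl
  have h2 : ∀ j < 647, PR j := step h1 1 (cmpT Cert.ta 646 _ Cert.r646) rfl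
  have h3 : ∀ j < 648, PR j := step h2 1 (cmpT Cert.ta 647 _ Cert.r647) rfl
  have h4 : ∀ j < 649, PR j := step h3 1 (cmpT Cert.ta 648 _ Cert.r648) rfl
  have h5 : ∀ j < 650, PR j := step h4 1 (cmpT Cert.ta 649 _ Cert.r649) rfl
  have h6 : ∀ j < 651, PR j := step h5 1 (cmpT Cert.ta 650 _ Cert.r650) rfl
  have h7 : ∀ j < 653, PR j := step h6 2 (cmpT Cert.ta 651 _ Cert.r651) rfl
  have h8 : ∀ j < 654, PR j := step h7 1 (cmpT Cert.ta 653 _ Cert.r653) rfl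
  have h9 : ∀ j < 655, PR j := step h8 1 (cmpT Cert.ta 654 _ Cert.r654) rfl
  have h10 : ∀ j < 656, PR j := step h9 1 (cmpT Cert.ta 655 _ Cert.r655) rfl
  have h11 : ∀ j < 657, PR j := step h10 1 (cmpT Cert.ta 656 _ Cert.r656) rfl
  have h12 : ∀ j < 658, PR j := step h11 1 (cmpT Cert.ta 657 _ Cert.r657) rfl
  have h13 : ∀ j < 660, PR j := step h12 2 (cmpT Cert.ta 658 _ Cert.r658) rfl
  have h14 : ∀ j < 661, PR j := step h13 1 (cmpT Cert.ta 660 _ Cert.r660) rfl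
  have h15 : ∀ j < 663, PR j := step h14 2 (cmpT Cert.ta 661 _ Cert.r661) rfl
  have h16 : ∀ j < 664, PR j := step h15 1 (cmpT Cert.ta 663 _ Cert.r663) rfl
  have h17 : ∀ j < 665, PR j := step h16 1 (cmpT Cert.ta 664 _ Cert.r664) rfl
  have h18 : ∀ j < 666, PR j := step h17 1 (cmpT Cert.ta 665 _ Cert.r665) rfl
  have h19 : ∀ j < 667, PR j := step h18 1 (cmpT Cert.ta 666 _ Cert.r666) rfl
  have h20 : ∀ j < 669, PR j := step h19 2 (cmpT Cert.ta 667 _ Cert.r667) rfl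
  exact h20
theorem pr_15 : ∀ j < 710, PR j := by
  have h0 : ∀ j < 669, PR j := pr_14
  have h1 : ∀ j < 671, PR j := step h0 2 (cmpT Cert.ta 669 _ Cert.r669) rfl
  have h2 : ∀ j < 673, PR j := step h1 2 (cmpT Cert.ta 671 _ Cert.r671) rfl
  have h3 : ∀ j < 675, PR j := step h2 2 (cmpT Cert.ta 673 _ Cert.r673) rfl
  have h4 : ∀ j < 677, PR j := step h3 2 (cmpT Cert.ta 675 _ Cert.r675) rfl
  have h5 : ∀ j < 679, PR j := step h4 2 (cmpT Cert.ta 677 _ Cert.r677) rfl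
  have h6 : ∀ j < 680, PR j := step h5 1 (cmpT Cert.ta 679 _ Cert.r679) rfl
  have h7 : ∀ j < 681, PR j := step h6 1 (cmpT Cert.ta 680 _ Cert.r680) rfl
  have h8 : ∀ j < 682, PR j := step h7 1 (cmpT Cert.ta 681 _ Cert.r681) rfl
  have h9 : ∀ j < 685, PR j := step h8 3 (cmpT Cert.ta 682 _ Cert.r682) rfl
  have h10 : ∀ j < 686, PR j := step h9 1 (cmpT Cert.ta 685 _ Cert.r685) rfl
  have h11 : ∀ j < 687, PR j := step h10 1 (cmpT Cert.ta 686 _ Cert.r686) rfl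
  have h12 : ∀ j < 688, PR j := step h11 1 (cmpT Cert.ta 687 _ Cert.r687) rfl
  have h13 : ∀ j < 690, PR j := step h12 2 (cmpT Cert.ta 688 _ Cert.r688) rfl
  have h14 : ∀ j < 692, PR j := step h13 2 (cmpT Cert.ta 690 _ Cert.r690) rfl
  have h15 : ∀ j < 696, PR j := step h14 4 (cmpT Cert.ta 692 _ Cert.r692) rfl
  have h16 : ∀ j < 699, PR j := step h15 3 (cmpT Cert.ta 696 _ Cert.r696) rfl
  have h17 : ∀ j < 701, PR j := step h16 2 (cmpT Cert.ta 699 _ Cert.r699) rfl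
  have h18 : ∀ j < 706, PR j := step h17 5 (cmpT Cert.ta 701 _ Cert.r701) rfl
  have h19 : ∀ j < 707, PR j := step h18 1 (cmpT Cert.ta 706 _ Cert.r706) rfl
  have h20 : ∀ j < 710, PR j := step h19 3 (cmpT Cert.ta 707 _ Cert.r707) rfl
  exact h20
theorem pr_16 : ∀ j < 757, PR j := by
  have h0 : ∀ j < 710, PR j := pr_15
  have h1 : ∀ j < 712, PR j := step h0 2 (cmpT Cert.ta 710 _ Cert.r710) rfl
  have h2 : ∀ j < 713, PR j := step h1 1 (cmpT Cert.ta 712 _ Cert.r712) rfl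
  have h3 : ∀ j < 716, PR j := step h2 3 (cmpT Cert.ta 713 _ Cert.r713) rfl
  have h4 : ∀ j < 721, PR j := step h3 5 (cmpT Cert.ta 716 _ Cert.r716) rfl
  have h5 : ∀ j < 722, PR j := step h4 1 (cmpT Cert.ta 721 _ Cert.r721) rfl
  have h6 : ∀ j < 725, PR j := step h5 3 (cmpT Cert.ta 722 _ Cert.r722) rfl
  have h7 : ∀ j < 726, PR j := step h6 1 (cmpT Cert.ta 725 _ Cert.r725) rfl
  have h8 : ∀ j < 727, PR j := step h7 1 (cmpT Cert.ta 726 _ Cert.r726) rfl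
  have h9 : ∀ j < 732, PR j := step h8 5 (cmpT Cert.ta 727 _ Cert.r727) rfl
  have h10 : ∀ j < 735, PR j := step h9 3 (cmpT Cert.ta 732 _ Cert.r732) rfl
  have h11 : ∀ j < 739, PR j := step h10 4 (cmpT Cert.ta 735 _ Cert.r735) rfl
  have h12 : ∀ j < 741, PR j := step h11 2 (cmpT Cert.ta 739 _ Cert.r739) rfl
  have h13 : ∀ j < 743, PR j := step h12 2 (cmpT Cert.ta 741 _ Cert.r741) rfl
  have h14 : ∀ j < 745, PR j := step h13 2 (cmpT Cert.ta 743 _ Cert.r743) rfl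
  have h15 : ∀ j < 748, PR j := step h14 3 (cmpT Cert.ta 745 _ Cert.r745) rfl
  have h16 : ∀ j < 751, PR j := step h15 3 (cmpT Cert.ta 748 _ Cert.r748) rfl
  have h17 : ∀ j < 753, PR j := step h16 2 (cmpT Cert.ta 751 _ Cert.r751) rfl
  have h18 : ∀ j < 754, PR j := step h17 1 (cmpT Cert.ta 753 _ Cert.r753) rfl
  have h19 : ∀ j < 755, PR j := step h18 1 (cmpT Cert.ta 754 _ Cert.r754) rfl
  have h20 : ∀ j < 757, PR j := step h19 2 (cmpT Cert.ta 755 _ Cert.r755) rfl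
  exact h20
theorem pr_17 : ∀ j < 786, PR j := by
  have h0 : ∀ j < 757, PR j := pr_16
  have h1 : ∀ j < 760, PR j := step h0 3 (cmpT Cert.ta 757 _ Cert.r757) rfl
  have h2 : ∀ j < 761, PR j := step h1 1 (cmpT Cert.ta 760 _ Cert.r760) rfl
  have h3 : ∀ j < 762, PR j := step h2 1 (cmpT Cert.ta 761 _ Cert.r761) rfl
  have h4 : ∀ j < 763, PR j := step h3 1 (cmpT Cert.ta 762 _ Cert.r762) rfl
  have h5 : ∀ j < 764, PR j := step h4 1 (cmpT Cert.ta 763 _ Cert.r763) rfl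
  have h6 : ∀ j < 765, PR j := step h5 1 (cmpT Cert.ta 764 _ Cert.r764) rfl
  have h7 : ∀ j < 766, PR j := step h6 1 (cmpT Cert.ta 765 _ Cert.r765) rfl
  have h8 : ∀ j < 767, PR j := step h7 1 (cmpT Cert.ta 766 _ Cert.r766) rfl
  have h9 : ∀ j < 768, PR j := step h8 1 (cmpT Cert.ta 767 _ Cert.r767) rfl
  have h10 : ∀ j < 769, PR j := step h9 1 (cmpT Cert.ta 768 _ Cert.r768) rfl
  have h11 : ∀ j < 771, PR j := step h10 2 (cmpT Cert.ta 769 _ Cert.r769) rfl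
  have h12 : ∀ j < 773, PR j := step h11 2 (cmpT Cert.ta 771 _ Cert.r771) rfl
  have h13 : ∀ j < 775, PR j := step h12 2 (cmpT Cert.ta 773 _ Cert.r773) rfl
  have h14 : ∀ j < 777, PR j := step h13 2 (cmpT Cert.ta 775 _ Cert.r775) rfl
  have h15 : ∀ j < 780, PR j := step h14 3 (cmpT Cert.ta 777 _ Cert.r777) rfl
  have h16 : ∀ j < 782, PR j := step h15 2 (cmpT Cert.ta 780 _ Cert.r780) rfl
  have h17 : ∀ j < 783, PR j := step h16 1 (cmpT Cert.ta 782 _ Cert.r782) rfl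
  have h18 : ∀ j < 784, PR j := step h17 1 (cmpT Cert.ta 783 _ Cert.r783) rfl
  have h19 : ∀ j < 785, PR j := step h18 1 (cmpT Cert.ta 784 _ Cert.r784) rfl
  have h20 : ∀ j < 786, PR j := step h19 1 (cmpT Cert.ta 785 _ Cert.r785) rfl
  exact h20
theorem pr_18 : ∀ j < 809, PR j := by
  have h0 : ∀ j < 786, PR j := pr_17
  have h1 : ∀ j < 787, PR j := step h0 1 (cmpT Cert.ta 786 _ Cert.r786) rfl
  have h2 : ∀ j < 788, PR j := step h1 1 (cmpT Cert.ta 787 _ Cert.r787) rfl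
  have h3 : ∀ j < 789, PR j := step h2 1 (cmpT Cert.ta 788 _ Cert.r788) rfl
  have h4 : ∀ j < 790, PR j := step h3 1 (cmpT Cert.ta 789 _ Cert.r789) rfl
  have h5 : ∀ j < 791, PR j := step h4 1 (cmpT Cert.ta 790 _ Cert.r790) rfl
  have h6 : ∀ j < 792, PR j := step h5 1 (cmpT Cert.ta 791 _ Cert.r791) rfl
  have h7 : ∀ j < 793, PR j := step h6 1 (cmpT Cert.ta 792 _ Cert.r792) rfl
  have h8 : ∀ j < 794, PR j := step h7 1 (cmpT Cert.ta 793 _ Cert.r793) rfl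
  have h9 : ∀ j < 796, PR j := step h8 2 (cmpT Cert.ta 794 _ Cert.r794) rfl
  have h10 : ∀ j < 797, PR j := step h9 1 (cmpT Cert.ta 796 _ Cert.r796) rfl
  have h11 : ∀ j < 798, PR j := step h10 1 (cmpT Cert.ta 797 _ Cert.r797) rfl
  have h12 : ∀ j < 799, PR j := step h11 1 (cmpT Cert.ta 798 _ Cert.r798) rfl
  have h13 : ∀ j < 800, PR j := step h12 1 (cmpT Cert.ta 799 _ Cert.r799) rfl
  have h14 : ∀ j < 801, PR j := step h13 1 (cmpT Cert.ta 800 _ Cert.r800) rfl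
  have h15 : ∀ j < 804, PR j := step h14 3 (cmpT Cert.ta 801 _ Cert.r801) rfl
  have h16 : ∀ j < 805, PR j := step h15 1 (cmpT Cert.ta 804 _ Cert.r804) rfl
  have h17 : ∀ j < 806, PR j := step h16 1 (cmpT Cert.ta 805 _ Cert.r805) rfl
  have h18 : ∀ j < 807, PR j := step h17 1 (cmpT Cert.ta 806 _ Cert.r806) rfl
  have h19 : ∀ j < 808, PR j := step h18 1 (cmpT Cert.ta 807 _ Cert.r807) rfl
  have h20 : ∀ j < 809, PR j := step h19 1 (cmpT Cert.ta 808 _ Cert.r808) rfl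
  exact h20
theorem pr_19 : ∀ j < 841, PR j := by
  have h0 : ∀ j < 809, PR j := pr_18
  have h1 : ∀ j < 810, PR j := step h0 1 (cmpT Cert.ta 809 _ Cert.r809) rfl
  have h2 : ∀ j < 813, PR j := step h1 3 (cmpT Cert.ta 810 _ Cert.r810) rfl
  have h3 : ∀ j < 816, PR j := step h2 3 (cmpT Cert.ta 813 _ Cert.r813) rfl
  have h4 : ∀ j < 818, PR j := step h3 2 (cmpT Cert.ta 816 _ Cert.r816) rfl
  have h5 : ∀ j < 819, PR j := step h4 1 (cmpT Cert.ta 818 _ Cert.r818) rfl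
  have h6 : ∀ j < 820, PR j := step h5 1 (cmpT Cert.ta 819 _ Cert.r819) rfl
  have h7 : ∀ j < 821, PR j := step h6 1 (cmpT Cert.ta 820 _ Cert.r820) rfl
  have h8 : ∀ j < 822, PR j := step h7 1 (cmpT Cert.ta 821 _ Cert.r821) rfl
  have h9 : ∀ j < 823, PR j := step h8 1 (cmpT Cert.ta 822 _ Cert.r822) rfl
  have h10 : ∀ j < 824, PR j := step h9 1 (cmpT Cert.ta 823 _ Cert.r823) rfl
  have h11 : ∀ j < 825, PR j := step h10 1 (cmpT Cert.ta 824 _ Cert.r824) rfl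
  have h12 : ∀ j < 826, PR j := step h11 1 (cmpT Cert.ta 825 _ Cert.r825) rfl
  have h13 : ∀ j < 828, PR j := step h12 2 (cmpT Cert.ta 826 _ Cert.r826) rfl
  have h14 : ∀ j < 829, PR j := step h13 1 (cmpT Cert.ta 828 _ Cert.r828) rfl
  have h15 : ∀ j < 831, PR j := step h14 2 (cmpT Cert.ta 829 _ Cert.r829) rfl
  have h16 : ∀ j < 833, PR j := step h15 2 (cmpT Cert.ta 831 _ Cert.r831) rfl
  have h17 : ∀ j < 835, PR j := step h16 2 (cmpT Cert.ta 833 _ Cert.r833) rfl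
  have h18 : ∀ j < 837, PR j := step h17 2 (cmpT Cert.ta 835 _ Cert.r835) rfl
  have h19 : ∀ j < 839, PR j := step h18 2 (cmpT Cert.ta 837 _ Cert.r837) rfl
  have h20 : ∀ j < 841, PR j := step h19 2 (cmpT Cert.ta 839 _ Cert.r839) rfl
  exact h20
theorem pr_20 : ∀ j < 884, PR j := by
  have h0 : ∀ j < 841, PR j := pr_19
  have h1 : ∀ j < 843, PR j := step h0 2 (cmpT Cert.ta 841 _ Cert.r841) rfl
  have h2 : ∀ j < 846, PR j := step h1 3 (cmpT Cert.ta 843 _ Cert.r843) rfl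
  have h3 : ∀ j < 850, PR j := step h2 4 (cmpT Cert.ta 846 _ Cert.r846) rfl
  have h4 : ∀ j < 853, PR j := step h3 3 (cmpT Cert.ta 850 _ Cert.r850) rfl
  have h5 : ∀ j < 855, PR j := step h4 2 (cmpT Cert.ta 853 _ Cert.r853) rfl
  have h6 : ∀ j < 858, PR j := step h5 3 (cmpT Cert.ta 855 _ Cert.r855) rfl
  have h7 : ∀ j < 861, PR j := step h6 3 (cmpT Cert.ta 858 _ Cert.r858) rfl
  have h8 : ∀ j < 864, PR j := step h7 3 (cmpT Cert.ta 861 _ Cert.r861) rfl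
  have h9 : ∀ j < 866, PR j := step h8 2 (cmpT Cert.ta 864 _ Cert.r864) rfl
  have h10 : ∀ j < 868, PR j := step h9 2 (cmpT Cert.ta 866 _ Cert.r866) rfl
  have h11 : ∀ j < 870, PR j := step h10 2 (cmpT Cert.ta 868 _ Cert.r868) rfl
  have h12 : ∀ j < 872, PR j := step h11 2 (cmpT Cert.ta 870 _ Cert.r870) rfl
  have h13 : ∀ j < 874, PR j := step h12 2 (cmpT Cert.ta 872 _ Cert.r872) rfl
  have h14 : ∀ j < 876, PR j := step h13 2 (cmpT Cert.ta 874 _ Cert.r874) rfl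
  have h15 : ∀ j < 877, PR j := step h14 1 (cmpT Cert.ta 876 _ Cert.r876) rfl
  have h16 : ∀ j < 878, PR j := step h15 1 (cmpT Cert.ta 877 _ Cert.r877) rfl
  have h17 : ∀ j < 879, PR j := step h16 1 (cmpT Cert.ta 878 _ Cert.r878) rfl
  have h18 : ∀ j < 882, PR j := step h17 3 (cmpT Cert.ta 879 _ Cert.r879) rfl
  have h19 : ∀ j < 883, PR j := step h18 1 (cmpT Cert.ta 882 _ Cert.r882) rfl
  have h20 : ∀ j < 884, PR j := step h19 1 (cmpT Cert.ta 883 _ Cert.r883) rfl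
  exact h20
theorem pr_21 : ∀ j < 908, PR j := by
  have h0 : ∀ j < 884, PR j := pr_20
  have h1 : ∀ j < 885, PR j := step h0 1 (cmpT Cert.ta 884 _ Cert.r884) rfl
  have h2 : ∀ j < 886, PR j := step h1 1 (cmpT Cert.ta 885 _ Cert.r885) rfl
  have h3 : ∀ j < 887, PR j := step h2 1 (cmpT Cert.ta 886 _ Cert.r886) rfl
  have h4 : ∀ j < 888, PR j := step h3 1 (cmpT Cert.ta 887 _ Cert.r887) rfl
  have h5 : ∀ j < 889, PR j := step h4 1 (cmpT Cert.ta 888 _ Cert.r888) rfl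
  have h6 : ∀ j < 890, PR j := step h5 1 (cmpT Cert.ta 889 _ Cert.r889) rfl
  have h7 : ∀ j < 891, PR j := step h6 1 (cmpT Cert.ta 890 _ Cert.r890) rfl
  have h8 : ∀ j < 892, PR j := step h7 1 (cmpT Cert.ta 891 _ Cert.r891) rfl
  have h9 : ∀ j < 893, PR j := step h8 1 (cmpT Cert.ta 892 _ Cert.r892) rfl
  have h10 : ∀ j < 894, PR j := step h9 1 (cmpT Cert.ta 893 _ Cert.r893) rfl
  have h11 : ∀ j < 895, PR j := step h10 1 (cmpT Cert.ta 894 _ Cert.r894) rfl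
  have h12 : ∀ j < 896, PR j := step h11 1 (cmpT Cert.ta 895 _ Cert.r895) rfl
  have h13 : ∀ j < 898, PR j := step h12 2 (cmpT Cert.ta 896 _ Cert.r896) rfl
  have h14 : ∀ j < 900, PR j := step h13 2 (cmpT Cert.ta 898 _ Cert.r898) rfl
  have h15 : ∀ j < 902, PR j := step h14 2 (cmpT Cert.ta 900 _ Cert.r900) rfl
  have h16 : ∀ j < 903, PR j := step h15 1 (cmpT Cert.ta 902 _ Cert.r902) rfl
  have h17 : ∀ j < 904, PR j := step h16 1 (cmpT Cert.ta 903 _ Cert.r903) rfl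
  have h18 : ∀ j < 906, PR j := step h17 2 (cmpT Cert.ta 904 _ Cert.r904) rfl
  have h19 : ∀ j < 907, PR j := step h18 1 (cmpT Cert.ta 906 _ Cert.r906) rfl
  have h20 : ∀ j < 908, PR j := step h19 1 (cmpT Cert.ta 907 _ Cert.r907) rfl
  exact h20
theorem pr_22 : ∀ j < 919, PR j := by
  have h0 : ∀ j < 908, PR j := pr_21
  have h1 : ∀ j < 909, PR j := step h0 1 (cmpT Cert.ta 908 _ Cert.r908) rfl
  have h2 : ∀ j < 910, PR j := step h1 1 (cmpT Cert.ta 909 _ Cert.r909) rfl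
  have h3 : ∀ j < 911, PR j := step h2 1 (cmpT Cert.ta 910 _ Cert.r910) rfl
  have h4 : ∀ j < 912, PR j := step h3 1 (cmpT Cert.ta 911 _ Cert.r911) rfl
  have h5 : ∀ j < 914, PR j := step h4 2 (cmpT Cert.ta 912 _ Cert.r912) rfl
  have h6 : ∀ j < 915, PR j := step h5 1 (cmpT Cert.ta 914 _ Cert.r914) rfl
  have h7 : ∀ j < 916, PR j := step h6 1 (cmpT Cert.ta 915 _ Cert.r915) rfl
  have h8 : ∀ j < 917, PR j := step h7 1 (cmpT Cert.ta 916 _ Cert.r916) rfl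
  have h9 : ∀ j < 919, PR j := step h8 2 (cmpT Cert.ta 917 _ Cert.r917) rfl
  exact h9

theorem pr : ∀ j < 919, PR j := pr_22

theorem pn_0 : ∀ j < 53, PN j := by
  have h0 : ∀ j < 0, PN j := step0
  have h1 : ∀ j < 2, PN j := step h0 2 (nonT Cert.cb 0 _ Cert.n0) rfl
  have h2 : ∀ j < 5, PN j := step h1 3 (nonT Cert.cb 2 _ Cert.n2) rfl
  have h3 : ∀ j < 8, PN j := step h2 3 (nonT Cert.cb 5 _ Cert.n5) rfl
  have h4 : ∀ j < 12, PN j := step h3 4 (nonT Cert.cb 8 _ Cert.n8) rfl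
  have h5 : ∀ j < 15, PN j := step h4 3 (nonT Cert.cb 12 _ Cert.n12) rfl
  have h6 : ∀ j < 18, PN j := step h5 3 (nonT Cert.cb 15 _ Cert.n15) rfl
  have h7 : ∀ j < 22, PN j := step h6 4 (nonT Cert.cb 18 _ Cert.n18) rfl
  have h8 : ∀ j < 25, PN j := step h7 3 (nonT Cert.cb 22 _ Cert.n22) rfl
  have h9 : ∀ j < 27, PN j := step h8 2 (nonT Cert.cb 25 _ Cert.n25) rfl
  have h10 : ∀ j < 29, PN j := step h9 2 (nonT Cert.cb 27 _ Cert.n27) rfl
  have h11 : ∀ j < 32, PN j := step h10 3 (nonT Cert.cb 29 _ Cert.n29) rfl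
  have h12 : ∀ j < 34, PN j := step h11 2 (nonT Cert.cb 32 _ Cert.n32) rfl
  have h13 : ∀ j < 36, PN j := step h12 2 (nonT Cert.cb 34 _ Cert.n34) rfl
  have h14 : ∀ j < 39, PN j := step h13 3 (nonT Cert.cb 36 _ Cert.n36) rfl
  have h15 : ∀ j < 43, PN j := step h14 4 (nonT Cert.cb 39 _ Cert.n39) rfl
  have h16 : ∀ j < 45, PN j := step h15 2 (nonT Cert.cb 43 _ Cert.n43) rfl
  have h17 : ∀ j < 47, PN j := step h16 2 (nonT Cert.cb 45 _ Cert.n45) rfl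
  have h18 : ∀ j < 49, PN j := step h17 2 (nonT Cert.cb 47 _ Cert.n47) rfl
  have h19 : ∀ j < 52, PN j := step h18 3 (nonT Cert.cb 49 _ Cert.n49) rfl
  have h20 : ∀ j < 53, PN j := step h19 1 (nonT Cert.cb 52 _ Cert.n52) rfl
  exact h20
theorem pn_1 : ∀ j < 95, PN j := by
  have h0 : ∀ j < 53, PN j := pn_0
  have h1 : ∀ j < 56, PN j := step h0 3 (nonT Cert.cb 53 _ Cert.n53) rfl
  have h2 : ∀ j < 58, PN j := step h1 2 (nonT Cert.cb 56 _ Cert.n56) rfl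
  have h3 : ∀ j < 60, PN j := step h2 2 (nonT Cert.cb 58 _ Cert.n58) rfl
  have h4 : ∀ j < 63, PN j := step h3 3 (nonT Cert.cb 60 _ Cert.n60) rfl
  have h5 : ∀ j < 66, PN j := step h4 3 (nonT Cert.cb 63 _ Cert.n63) rfl
  have h6 : ∀ j < 67, PN j := step h5 1 (nonT Cert.cb 66 _ Cert.n66) rfl
  have h7 : ∀ j < 69, PN j := step h6 2 (nonT Cert.cb 67 _ Cert.n67) rfl
  have h8 : ∀ j < 70, PN j := step h7 1 (nonT Cert.cb 69 _ Cert.n69) rfl
  have h9 : ∀ j < 72, PN j := step h8 2 (nonT Cert.cb 70 _ Cert.n70) rfl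
  have h10 : ∀ j < 75, PN j := step h9 3 (nonT Cert.cb 72 _ Cert.n72) rfl
  have h11 : ∀ j < 77, PN j := step h10 2 (nonT Cert.cb 75 _ Cert.n75) rfl
  have h12 : ∀ j < 80, PN j := step h11 3 (nonT Cert.cb 77 _ Cert.n77) rfl
  have h13 : ∀ j < 83, PN j := step h12 3 (nonT Cert.cb 80 _ Cert.n80) rfl
  have h14 : ∀ j < 85, PN j := step h13 2 (nonT Cert.cb 83 _ Cert.n83) rfl
  have h15 : ∀ j < 87, PN j := step h14 2 (nonT Cert.cb 85 _ Cert.n85) rfl
  have h16 : ∀ j < 89, PN j := step h15 2 (nonT Cert.cb 87 _ Cert.n87) rfl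
  have h17 : ∀ j < 90, PN j := step h16 1 (nonT Cert.cb 89 _ Cert.n89) rfl
  have h18 : ∀ j < 91, PN j := step h17 1 (nonT Cert.cb 90 _ Cert.n90) rfl
  have h19 : ∀ j < 93, PN j := step h18 2 (nonT Cert.cb 91 _ Cert.n91) rfl
  have h20 : ∀ j < 95, PN j := step h19 2 (nonT Cert.cb 93 _ Cert.n93) rfl
  exact h20
theorem pn_2 : ∀ j < 142, PN j := by
  have h0 : ∀ j < 95, PN j := pn_1
  have h1 : ∀ j < 99, PN j := step h0 4 (nonT Cert.cb 95 _ Cert.n95) rfl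
  have h2 : ∀ j < 102, PN j := step h1 3 (nonT Cert.cb 99 _ Cert.n99) rfl
  have h3 : ∀ j < 104, PN j := step h2 2 (nonT Cert.cb 102 _ Cert.n102) rfl
  have h4 : ∀ j < 106, PN j := step h3 2 (nonT Cert.cb 104 _ Cert.n104) rfl
  have h5 : ∀ j < 108, PN j := step h4 2 (nonT Cert.cb 106 _ Cert.n106) rfl
  have h6 : ∀ j < 111, PN j := step h5 3 (nonT Cert.cb 108 _ Cert.n108) rfl
  have h7 : ∀ j < 113, PN j := step h6 2 (nonT Cert.cb 111 _ Cert.n111) rfl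
  have h8 : ∀ j < 116, PN j := step h7 3 (nonT Cert.cb 113 _ Cert.n113) rfl
  have h9 : ∀ j < 119, PN j := step h8 3 (nonT Cert.cb 116 _ Cert.n116) rfl
  have h10 : ∀ j < 121, PN j := step h9 2 (nonT Cert.cb 119 _ Cert.n119) rfl
  have h11 : ∀ j < 123, PN j := step h10 2 (nonT Cert.cb 121 _ Cert.n121) rfl
  have h12 : ∀ j < 125, PN j := step h11 2 (nonT Cert.cb 123 _ Cert.n123) rfl
  have h13 : ∀ j < 126, PN j := step h12 1 (nonT Cert.cb 125 _ Cert.n125) rfl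
  have h14 : ∀ j < 127, PN j := step h13 1 (nonT Cert.cb 126 _ Cert.n126) rfl
  have h15 : ∀ j < 131, PN j := step h14 4 (nonT Cert.cb 127 _ Cert.n127) rfl
  have h16 : ∀ j < 133, PN j := step h15 2 (nonT Cert.cb 131 _ Cert.n131) rfl
  have h17 : ∀ j < 136, PN j := step h16 3 (nonT Cert.cb 133 _ Cert.n133) rfl
  have h18 : ∀ j < 139, PN j := step h17 3 (nonT Cert.cb 136 _ Cert.n136) rfl
  have h19 : ∀ j < 141, PN j := step h18 2 (nonT Cert.cb 139 _ Cert.n139) rfl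
  have h20 : ∀ j < 142, PN j := step h19 1 (nonT Cert.cb 141 _ Cert.n141) rfl
  exact h20
theorem pn_3 : ∀ j < 173, PN j := by
  have h0 : ∀ j < 142, PN j := pn_2
  have h1 : ∀ j < 143, PN j := step h0 1 (nonT Cert.cb 142 _ Cert.n142) rfl
  have h2 : ∀ j < 145, PN j := step h1 2 (nonT Cert.cb 143 _ Cert.n143) rfl
  have h3 : ∀ j < 146, PN j := step h2 1 (nonT Cert.cb 145 _ Cert.n145) rfl
  have h4 : ∀ j < 147, PN j := step h3 1 (nonT Cert.cb 146 _ Cert.n146) rfl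
  have h5 : ∀ j < 148, PN j := step h4 1 (nonT Cert.cb 147 _ Cert.n147) rfl
  have h6 : ∀ j < 149, PN j := step h5 1 (nonT Cert.cb 148 _ Cert.n148) rfl
  have h7 : ∀ j < 150, PN j := step h6 1 (nonT Cert.cb 149 _ Cert.n149) rfl
  have h8 : ∀ j < 151, PN j := step h7 1 (nonT Cert.cb 150 _ Cert.n150) rfl
  have h9 : ∀ j < 153, PN j := step h8 2 (nonT Cert.cb 151 _ Cert.n151) rfl
  have h10 : ∀ j < 155, PN j := step h9 2 (nonT Cert.cb 153 _ Cert.n153) rfl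
  have h11 : ∀ j < 158, PN j := step h10 3 (nonT Cert.cb 155 _ Cert.n155) rfl
  have h12 : ∀ j < 159, PN j := step h11 1 (nonT Cert.cb 158 _ Cert.n158) rfl
  have h13 : ∀ j < 161, PN j := step h12 2 (nonT Cert.cb 159 _ Cert.n159) rfl
  have h14 : ∀ j < 163, PN j := step h13 2 (nonT Cert.cb 161 _ Cert.n161) rfl
  have h15 : ∀ j < 165, PN j := step h14 2 (nonT Cert.cb 163 _ Cert.n163) rfl
  have h16 : ∀ j < 167, PN j := step h15 2 (nonT Cert.cb 165 _ Cert.n165) rfl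
  have h17 : ∀ j < 169, PN j := step h16 2 (nonT Cert.cb 167 _ Cert.n167) rfl
  have h18 : ∀ j < 171, PN j := step h17 2 (nonT Cert.cb 169 _ Cert.n169) rfl
  have h19 : ∀ j < 172, PN j := step h18 1 (nonT Cert.cb 171 _ Cert.n171) rfl
  have h20 : ∀ j < 173, PN j := step h19 1 (nonT Cert.cb 172 _ Cert.n172) rfl
  exact h20
theorem pn_4 : ∀ j < 207, PN j := by
  have h0 : ∀ j < 173, PN j := pn_3
  have h1 : ∀ j < 174, PN j := step h0 1 (nonT Cert.cb 173 _ Cert.n173) rfl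
  have h2 : ∀ j < 176, PN j := step h1 2 (nonT Cert.cb 174 _ Cert.n174) rfl
  have h3 : ∀ j < 179, PN j := step h2 3 (nonT Cert.cb 176 _ Cert.n176) rfl
  have h4 : ∀ j < 182, PN j := step h3 3 (nonT Cert.cb 179 _ Cert.n179) rfl
  have h5 : ∀ j < 185, PN j := step h4 3 (nonT Cert.cb 182 _ Cert.n182) rfl
  have h6 : ∀ j < 188, PN j := step h5 3 (nonT Cert.cb 185 _ Cert.n185) rfl
  have h7 : ∀ j < 191, PN j := step h6 3 (nonT Cert.cb 188 _ Cert.n188) rfl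
  have h8 : ∀ j < 192, PN j := step h7 1 (nonT Cert.cb 191 _ Cert.n191) rfl
  have h9 : ∀ j < 194, PN j := step h8 2 (nonT Cert.cb 192 _ Cert.n192) rfl
  have h10 : ∀ j < 196, PN j := step h9 2 (nonT Cert.cb 194 _ Cert.n194) rfl
  have h11 : ∀ j < 197, PN j := step h10 1 (nonT Cert.cb 196 _ Cert.n196) rfl
  have h12 : ∀ j < 198, PN j := step h11 1 (nonT Cert.cb 197 _ Cert.n197) rfl
  have h13 : ∀ j < 199, PN j := step h12 1 (nonT Cert.cb 198 _ Cert.n198) rfl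
  have h14 : ∀ j < 200, PN j := step h13 1 (nonT Cert.cb 199 _ Cert.n199) rfl
  have h15 : ∀ j < 201, PN j := step h14 1 (nonT Cert.cb 200 _ Cert.n200) rfl
  have h16 : ∀ j < 202, PN j := step h15 1 (nonT Cert.cb 201 _ Cert.n201) rfl
  have h17 : ∀ j < 203, PN j := step h16 1 (nonT Cert.cb 202 _ Cert.n202) rfl
  have h18 : ∀ j < 204, PN j := step h17 1 (nonT Cert.cb 203 _ Cert.n203) rfl
  have h19 : ∀ j < 205, PN j := step h18 1 (nonT Cert.cb 204 _ Cert.n204) rfl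
  have h20 : ∀ j < 207, PN j := step h19 2 (nonT Cert.cb 205 _ Cert.n205) rfl
  exact h20
theorem pn_5 : ∀ j < 236, PN j := by
  have h0 : ∀ j < 207, PN j := pn_4
  have h1 : ∀ j < 209, PN j := step h0 2 (nonT Cert.cb 207 _ Cert.n207) rfl
  have h2 : ∀ j < 211, PN j := step h1 2 (nonT Cert.cb 209 _ Cert.n209) rfl
  have h3 : ∀ j < 213, PN j := step h2 2 (nonT Cert.cb 211 _ Cert.n211) rfl
  have h4 : ∀ j < 215, PN j := step h3 2 (nonT Cert.cb 213 _ Cert.n213) rfl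
  have h5 : ∀ j < 217, PN j := step h4 2 (nonT Cert.cb 215 _ Cert.n215) rfl
  have h6 : ∀ j < 219, PN j := step h5 2 (nonT Cert.cb 217 _ Cert.n217) rfl
  have h7 : ∀ j < 220, PN j := step h6 1 (nonT Cert.cb 219 _ Cert.n219) rfl
  have h8 : ∀ j < 222, PN j := step h7 2 (nonT Cert.cb 220 _ Cert.n220) rfl
  have h9 : ∀ j < 223, PN j := step h8 1 (nonT Cert.cb 222 _ Cert.n222) rfl
  have h10 : ∀ j < 224, PN j := step h9 1 (nonT Cert.cb 223 _ Cert.n223) rfl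
  have h11 : ∀ j < 225, PN j := step h10 1 (nonT Cert.cb 224 _ Cert.n224) rfl
  have h12 : ∀ j < 226, PN j := step h11 1 (nonT Cert.cb 225 _ Cert.n225) rfl
  have h13 : ∀ j < 228, PN j := step h12 2 (nonT Cert.cb 226 _ Cert.n226) rfl
  have h14 : ∀ j < 229, PN j := step h13 1 (nonT Cert.cb 228 _ Cert.n228) rfl
  have h15 : ∀ j < 230, PN j := step h14 1 (nonT Cert.cb 229 _ Cert.n229) rfl
  have h16 : ∀ j < 231, PN j := step h15 1 (nonT Cert.cb 230 _ Cert.n230) rfl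
  have h17 : ∀ j < 232, PN j := step h16 1 (nonT Cert.cb 231 _ Cert.n231) rfl
  have h18 : ∀ j < 233, PN j := step h17 1 (nonT Cert.cb 232 _ Cert.n232) rfl
  have h19 : ∀ j < 234, PN j := step h18 1 (nonT Cert.cb 233 _ Cert.n233) rfl
  have h20 : ∀ j < 236, PN j := step h19 2 (nonT Cert.cb 234 _ Cert.n234) rfl
  exact h20
theorem pn_6 : ∀ j < 267, PN j := by
  have h0 : ∀ j < 236, PN j := pn_5
  have h1 : ∀ j < 238, PN j := step h0 2 (nonT Cert.cb 236 _ Cert.n236) rfl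
  have h2 : ∀ j < 240, PN j := step h1 2 (nonT Cert.cb 238 _ Cert.n238) rfl
  have h3 : ∀ j < 242, PN j := step h2 2 (nonT Cert.cb 240 _ Cert.n240) rfl
  have h4 : ∀ j < 244, PN j := step h3 2 (nonT Cert.cb 242 _ Cert.n242) rfl
  have h5 : ∀ j < 246, PN j := step h4 2 (nonT Cert.cb 244 _ Cert.n244) rfl
  have h6 : ∀ j < 248, PN j := step h5 2 (nonT Cert.cb 246 _ Cert.n246) rfl
  have h7 : ∀ j < 250, PN j := step h6 2 (nonT Cert.cb 248 _ Cert.n248) rfl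
  have h8 : ∀ j < 252, PN j := step h7 2 (nonT Cert.cb 250 _ Cert.n250) rfl
  have h9 : ∀ j < 254, PN j := step h8 2 (nonT Cert.cb 252 _ Cert.n252) rfl
  have h10 : ∀ j < 256, PN j := step h9 2 (nonT Cert.cb 254 _ Cert.n254) rfl
  have h11 : ∀ j < 258, PN j := step h10 2 (nonT Cert.cb 256 _ Cert.n256) rfl
  have h12 : ∀ j < 259, PN j := step h11 1 (nonT Cert.cb 258 _ Cert.n258) rfl
  have h13 : ∀ j < 260, PN j := step h12 1 (nonT Cert.cb 259 _ Cert.n259) rfl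
  have h14 : ∀ j < 261, PN j := step h13 1 (nonT Cert.cb 260 _ Cert.n260) rfl
  have h15 : ∀ j < 262, PN j := step h14 1 (nonT Cert.cb 261 _ Cert.n261) rfl
  have h16 : ∀ j < 263, PN j := step h15 1 (nonT Cert.cb 262 _ Cert.n262) rfl
  have h17 : ∀ j < 264, PN j := step h16 1 (nonT Cert.cb 263 _ Cert.n263) rfl
  have h18 : ∀ j < 265, PN j := step h17 1 (nonT Cert.cb 264 _ Cert.n264) rfl
  have h19 : ∀ j < 266, PN j := step h18 1 (nonT Cert.cb 265 _ Cert.n265) rfl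
  have h20 : ∀ j < 267, PN j := step h19 1 (nonT Cert.cb 266 _ Cert.n266) rfl
  exact h20
theorem pn_7 : ∀ j < 299, PN j := by
  have h0 : ∀ j < 267, PN j := pn_6
  have h1 : ∀ j < 269, PN j := step h0 2 (nonT Cert.cb 267 _ Cert.n267) rfl
  have h2 : ∀ j < 271, PN j := step h1 2 (nonT Cert.cb 269 _ Cert.n269) rfl
  have h3 : ∀ j < 273, PN j := step h2 2 (nonT Cert.cb 271 _ Cert.n271) rfl
  have h4 : ∀ j < 274, PN j := step h3 1 (nonT Cert.cb 273 _ Cert.n273) rfl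
  have h5 : ∀ j < 275, PN j := step h4 1 (nonT Cert.cb 274 _ Cert.n274) rfl
  have h6 : ∀ j < 276, PN j := step h5 1 (nonT Cert.cb 275 _ Cert.n275) rfl
  have h7 : ∀ j < 277, PN j := step h6 1 (nonT Cert.cb 276 _ Cert.n276) rfl
  have h8 : ∀ j < 279, PN j := step h7 2 (nonT Cert.cb 277 _ Cert.n277) rfl
  have h9 : ∀ j < 281, PN j := step h8 2 (nonT Cert.cb 279 _ Cert.n279) rfl
  have h10 : ∀ j < 283, PN j := step h9 2 (nonT Cert.cb 281 _ Cert.n281) rfl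
  have h11 : ∀ j < 284, PN j := step h10 1 (nonT Cert.cb 283 _ Cert.n283) rfl
  have h12 : ∀ j < 286, PN j := step h11 2 (nonT Cert.cb 284 _ Cert.n284) rfl
  have h13 : ∀ j < 288, PN j := step h12 2 (nonT Cert.cb 286 _ Cert.n286) rfl
  have h14 : ∀ j < 290, PN j := step h13 2 (nonT Cert.cb 288 _ Cert.n288) rfl
  have h15 : ∀ j < 292, PN j := step h14 2 (nonT Cert.cb 290 _ Cert.n290) rfl
  have h16 : ∀ j < 294, PN j := step h15 2 (nonT Cert.cb 292 _ Cert.n292) rfl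
  have h17 : ∀ j < 296, PN j := step h16 2 (nonT Cert.cb 294 _ Cert.n294) rfl
  have h18 : ∀ j < 297, PN j := step h17 1 (nonT Cert.cb 296 _ Cert.n296) rfl
  have h19 : ∀ j < 298, PN j := step h18 1 (nonT Cert.cb 297 _ Cert.n297) rfl
  have h20 : ∀ j < 299, PN j := step h19 1 (nonT Cert.cb 298 _ Cert.n298) rfl
  exact h20
theorem pn_8 : ∀ j < 320, PN j := by
  have h0 : ∀ j < 299, PN j := pn_7
  have h1 : ∀ j < 300, PN j := step h0 1 (nonT Cert.cb 299 _ Cert.n299) rfl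
  have h2 : ∀ j < 301, PN j := step h1 1 (nonT Cert.cb 300 _ Cert.n300) rfl
  have h3 : ∀ j < 302, PN j := step h2 1 (nonT Cert.cb 301 _ Cert.n301) rfl
  have h4 : ∀ j < 303, PN j := step h3 1 (nonT Cert.cb 302 _ Cert.n302) rfl
  have h5 : ∀ j < 304, PN j := step h4 1 (nonT Cert.cb 303 _ Cert.n303) rfl
  have h6 : ∀ j < 305, PN j := step h5 1 (nonT Cert.cb 304 _ Cert.n304) rfl
  have h7 : ∀ j < 307, PN j := step h6 2 (nonT Cert.cb 305 _ Cert.n305) rfl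
  have h8 : ∀ j < 308, PN j := step h7 1 (nonT Cert.cb 307 _ Cert.n307) rfl
  have h9 : ∀ j < 309, PN j := step h8 1 (nonT Cert.cb 308 _ Cert.n308) rfl
  have h10 : ∀ j < 310, PN j := step h9 1 (nonT Cert.cb 309 _ Cert.n309) rfl
  have h11 : ∀ j < 311, PN j := step h10 1 (nonT Cert.cb 310 _ Cert.n310) rfl
  have h12 : ∀ j < 312, PN j := step h11 1 (nonT Cert.cb 311 _ Cert.n311) rfl
  have h13 : ∀ j < 313, PN j := step h12 1 (nonT Cert.cb 312 _ Cert.n312) rfl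
  have h14 : ∀ j < 314, PN j := step h13 1 (nonT Cert.cb 313 _ Cert.n313) rfl
  have h15 : ∀ j < 315, PN j := step h14 1 (nonT Cert.cb 314 _ Cert.n314) rfl
  have h16 : ∀ j < 316, PN j := step h15 1 (nonT Cert.cb 315 _ Cert.n315) rfl
  have h17 : ∀ j < 317, PN j := step h16 1 (nonT Cert.cb 316 _ Cert.n316) rfl
  have h18 : ∀ j < 318, PN j := step h17 1 (nonT Cert.cb 317 _ Cert.n317) rfl
  have h19 : ∀ j < 319, PN j := step h18 1 (nonT Cert.cb 318 _ Cert.n318) rfl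
  have h20 : ∀ j < 320, PN j := step h19 1 (nonT Cert.cb 319 _ Cert.n319) rfl
  exact h20
theorem pn_9 : ∀ j < 353, PN j := by
  have h0 : ∀ j < 320, PN j := pn_8
  have h1 : ∀ j < 321, PN j := step h0 1 (nonT Cert.cb 320 _ Cert.n320) rfl
  have h2 : ∀ j < 322, PN j := step h1 1 (nonT Cert.cb 321 _ Cert.n321) rfl
  have h3 : ∀ j < 323, PN j := step h2 1 (nonT Cert.cb 322 _ Cert.n322) rfl
  have h4 : ∀ j < 324, PN j := step h3 1 (nonT Cert.cb 323 _ Cert.n323) rfl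
  have h5 : ∀ j < 325, PN j := step h4 1 (nonT Cert.cb 324 _ Cert.n324) rfl
  have h6 : ∀ j < 326, PN j := step h5 1 (nonT Cert.cb 325 _ Cert.n325) rfl
  have h7 : ∀ j < 328, PN j := step h6 2 (nonT Cert.cb 326 _ Cert.n326) rfl
  have h8 : ∀ j < 330, PN j := step h7 2 (nonT Cert.cb 328 _ Cert.n328) rfl
  have h9 : ∀ j < 332, PN j := step h8 2 (nonT Cert.cb 330 _ Cert.n330) rfl
  have h10 : ∀ j < 334, PN j := step h9 2 (nonT Cert.cb 332 _ Cert.n332) rfl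
  have h11 : ∀ j < 336, PN j := step h10 2 (nonT Cert.cb 334 _ Cert.n334) rfl
  have h12 : ∀ j < 337, PN j := step h11 1 (nonT Cert.cb 336 _ Cert.n336) rfl
  have h13 : ∀ j < 338, PN j := step h12 1 (nonT Cert.cb 337 _ Cert.n337) rfl
  have h14 : ∀ j < 340, PN j := step h13 2 (nonT Cert.cb 338 _ Cert.n338) rfl
  have h15 : ∀ j < 343, PN j := step h14 3 (nonT Cert.cb 340 _ Cert.n340) rfl
  have h16 : ∀ j < 345, PN j := step h15 2 (nonT Cert.cb 343 _ Cert.n343) rfl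
  have h17 : ∀ j < 347, PN j := step h16 2 (nonT Cert.cb 345 _ Cert.n345) rfl
  have h18 : ∀ j < 349, PN j := step h17 2 (nonT Cert.cb 347 _ Cert.n347) rfl
  have h19 : ∀ j < 351, PN j := step h18 2 (nonT Cert.cb 349 _ Cert.n349) rfl
  have h20 : ∀ j < 353, PN j := step h19 2 (nonT Cert.cb 351 _ Cert.n351) rfl
  exact h20
theorem pn_10 : ∀ j < 386, PN j := by
  have h0 : ∀ j < 353, PN j := pn_9
  have h1 : ∀ j < 355, PN j := step h0 2 (nonT Cert.cb 353 _ Cert.n353) rfl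
  have h2 : ∀ j < 357, PN j := step h1 2 (nonT Cert.cb 355 _ Cert.n355) rfl
  have h3 : ∀ j < 359, PN j := step h2 2 (nonT Cert.cb 357 _ Cert.n357) rfl
  have h4 : ∀ j < 360, PN j := step h3 1 (nonT Cert.cb 359 _ Cert.n359) rfl
  have h5 : ∀ j < 362, PN j := step h4 2 (nonT Cert.cb 360 _ Cert.n360) rfl
  have h6 : ∀ j < 364, PN j := step h5 2 (nonT Cert.cb 362 _ Cert.n362) rfl
  have h7 : ∀ j < 365, PN j := step h6 1 (nonT Cert.cb 364 _ Cert.n364) rfl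
  have h8 : ∀ j < 366, PN j := step h7 1 (nonT Cert.cb 365 _ Cert.n365) rfl
  have h9 : ∀ j < 367, PN j := step h8 1 (nonT Cert.cb 366 _ Cert.n366) rfl
  have h10 : ∀ j < 369, PN j := step h9 2 (nonT Cert.cb 367 _ Cert.n367) rfl
  have h11 : ∀ j < 371, PN j := step h10 2 (nonT Cert.cb 369 _ Cert.n369) rfl
  have h12 : ∀ j < 373, PN j := step h11 2 (nonT Cert.cb 371 _ Cert.n371) rfl
  have h13 : ∀ j < 376, PN j := step h12 3 (nonT Cert.cb 373 _ Cert.n373) rfl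
  have h14 : ∀ j < 377, PN j := step h13 1 (nonT Cert.cb 376 _ Cert.n376) rfl
  have h15 : ∀ j < 378, PN j := step h14 1 (nonT Cert.cb 377 _ Cert.n377) rfl
  have h16 : ∀ j < 379, PN j := step h15 1 (nonT Cert.cb 378 _ Cert.n378) rfl
  have h17 : ∀ j < 380, PN j := step h16 1 (nonT Cert.cb 379 _ Cert.n379) rfl
  have h18 : ∀ j < 381, PN j := step h17 1 (nonT Cert.cb 380 _ Cert.n380) rfl
  have h19 : ∀ j < 382, PN j := step h18 1 (nonT Cert.cb 381 _ Cert.n381) rfl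
  have h20 : ∀ j < 386, PN j := step h19 4 (nonT Cert.cb 382 _ Cert.n382) rfl
  exact h20
theorem pn_11 : ∀ j < 408, PN j := by
  have h0 : ∀ j < 386, PN j := pn_10
  have h1 : ∀ j < 387, PN j := step h0 1 (nonT Cert.cb 386 _ Cert.n386) rfl
  have h2 : ∀ j < 388, PN j := step h1 1 (nonT Cert.cb 387 _ Cert.n387) rfl
  have h3 : ∀ j < 389, PN j := step h2 1 (nonT Cert.cb 388 _ Cert.n388) rfl
  have h4 : ∀ j < 390, PN j := step h3 1 (nonT Cert.cb 389 _ Cert.n389) rfl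
  have h5 : ∀ j < 391, PN j := step h4 1 (nonT Cert.cb 390 _ Cert.n390) rfl
  have h6 : ∀ j < 392, PN j := step h5 1 (nonT Cert.cb 391 _ Cert.n391) rfl
  have h7 : ∀ j < 393, PN j := step h6 1 (nonT Cert.cb 392 _ Cert.n392) rfl
  have h8 : ∀ j < 394, PN j := step h7 1 (nonT Cert.cb 393 _ Cert.n393) rfl
  have h9 : ∀ j < 395, PN j := step h8 1 (nonT Cert.cb 394 _ Cert.n394) rfl
  have h10 : ∀ j < 396, PN j := step h9 1 (nonT Cert.cb 395 _ Cert.n395) rfl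
  have h11 : ∀ j < 397, PN j := step h10 1 (nonT Cert.cb 396 _ Cert.n396) rfl
  have h12 : ∀ j < 398, PN j := step h11 1 (nonT Cert.cb 397 _ Cert.n397) rfl
  have h13 : ∀ j < 399, PN j := step h12 1 (nonT Cert.cb 398 _ Cert.n398) rfl
  have h14 : ∀ j < 400, PN j := step h13 1 (nonT Cert.cb 399 _ Cert.n399) rfl
  have h15 : ∀ j < 401, PN j := step h14 1 (nonT Cert.cb 400 _ Cert.n400) rfl
  have h16 : ∀ j < 402, PN j := step h15 1 (nonT Cert.cb 401 _ Cert.n401) rfl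
  have h17 : ∀ j < 403, PN j := step h16 1 (nonT Cert.cb 402 _ Cert.n402) rfl
  have h18 : ∀ j < 404, PN j := step h17 1 (nonT Cert.cb 403 _ Cert.n403) rfl
  have h19 : ∀ j < 406, PN j := step h18 2 (nonT Cert.cb 404 _ Cert.n404) rfl
  have h20 : ∀ j < 408, PN j := step h19 2 (nonT Cert.cb 406 _ Cert.n406) rfl
  exact h20
theorem pn_12 : ∀ j < 434, PN j := by
  have h0 : ∀ j < 408, PN j := pn_11
  have h1 : ∀ j < 410, PN j := step h0 2 (nonT Cert.cb 408 _ Cert.n408) rfl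
  have h2 : ∀ j < 411, PN j := step h1 1 (nonT Cert.cb 410 _ Cert.n410) rfl
  have h3 : ∀ j < 412, PN j := step h2 1 (nonT Cert.cb 411 _ Cert.n411) rfl
  have h4 : ∀ j < 413, PN j := step h3 1 (nonT Cert.cb 412 _ Cert.n412) rfl
  have h5 : ∀ j < 414, PN j := step h4 1 (nonT Cert.cb 413 _ Cert.n413) rfl
  have h6 : ∀ j < 415, PN j := step h5 1 (nonT Cert.cb 414 _ Cert.n414) rfl
  have h7 : ∀ j < 416, PN j := step h6 1 (nonT Cert.cb 415 _ Cert.n415) rfl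
  have h8 : ∀ j < 418, PN j := step h7 2 (nonT Cert.cb 416 _ Cert.n416) rfl
  have h9 : ∀ j < 420, PN j := step h8 2 (nonT Cert.cb 418 _ Cert.n418) rfl
  have h10 : ∀ j < 422, PN j := step h9 2 (nonT Cert.cb 420 _ Cert.n420) rfl
  have h11 : ∀ j < 424, PN j := step h10 2 (nonT Cert.cb 422 _ Cert.n422) rfl
  have h12 : ∀ j < 426, PN j := step h11 2 (nonT Cert.cb 424 _ Cert.n424) rfl
  have h13 : ∀ j < 427, PN j := step h12 1 (nonT Cert.cb 426 _ Cert.n426) rfl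
  have h14 : ∀ j < 428, PN j := step h13 1 (nonT Cert.cb 427 _ Cert.n427) rfl
  have h15 : ∀ j < 429, PN j := step h14 1 (nonT Cert.cb 428 _ Cert.n428) rfl
  have h16 : ∀ j < 430, PN j := step h15 1 (nonT Cert.cb 429 _ Cert.n429) rfl
  have h17 : ∀ j < 431, PN j := step h16 1 (nonT Cert.cb 430 _ Cert.n430) rfl
  have h18 : ∀ j < 432, PN j := step h17 1 (nonT Cert.cb 431 _ Cert.n431) rfl
  have h19 : ∀ j < 433, PN j := step h18 1 (nonT Cert.cb 432 _ Cert.n432) rfl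
  have h20 : ∀ j < 434, PN j := step h19 1 (nonT Cert.cb 433 _ Cert.n433) rfl
  exact h20
theorem pn_13 : ∀ j < 458, PN j := by
  have h0 : ∀ j < 434, PN j := pn_12
  have h1 : ∀ j < 435, PN j := step h0 1 (nonT Cert.cb 434 _ Cert.n434) rfl
  have h2 : ∀ j < 436, PN j := step h1 1 (nonT Cert.cb 435 _ Cert.n435) rfl
  have h3 : ∀ j < 437, PN j := step h2 1 (nonT Cert.cb 436 _ Cert.n436) rfl
  have h4 : ∀ j < 438, PN j := step h3 1 (nonT Cert.cb 437 _ Cert.n437) rfl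
  have h5 : ∀ j < 439, PN j := step h4 1 (nonT Cert.cb 438 _ Cert.n438) rfl
  have h6 : ∀ j < 441, PN j := step h5 2 (nonT Cert.cb 439 _ Cert.n439) rfl
  have h7 : ∀ j < 442, PN j := step h6 1 (nonT Cert.cb 441 _ Cert.n441) rfl
  have h8 : ∀ j < 443, PN j := step h7 1 (nonT Cert.cb 442 _ Cert.n442) rfl
  have h9 : ∀ j < 444, PN j := step h8 1 (nonT Cert.cb 443 _ Cert.n443) rfl
  have h10 : ∀ j < 446, PN j := step h9 2 (nonT Cert.cb 444 _ Cert.n444) rfl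
  have h11 : ∀ j < 448, PN j := step h10 2 (nonT Cert.cb 446 _ Cert.n446) rfl
  have h12 : ∀ j < 450, PN j := step h11 2 (nonT Cert.cb 448 _ Cert.n448) rfl
  have h13 : ∀ j < 451, PN j := step h12 1 (nonT Cert.cb 450 _ Cert.n450) rfl
  have h14 : ∀ j < 452, PN j := step h13 1 (nonT Cert.cb 451 _ Cert.n451) rfl
  have h15 : ∀ j < 453, PN j := step h14 1 (nonT Cert.cb 452 _ Cert.n452) rfl
  have h16 : ∀ j < 454, PN j := step h15 1 (nonT Cert.cb 453 _ Cert.n453) rfl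
  have h17 : ∀ j < 455, PN j := step h16 1 (nonT Cert.cb 454 _ Cert.n454) rfl
  have h18 : ∀ j < 456, PN j := step h17 1 (nonT Cert.cb 455 _ Cert.n455) rfl
  have h19 : ∀ j < 457, PN j := step h18 1 (nonT Cert.cb 456 _ Cert.n456) rfl
  have h20 : ∀ j < 458, PN j := step h19 1 (nonT Cert.cb 457 _ Cert.n457) rfl
  exact h20
theorem pn_14 : ∀ j < 486, PN j := by
  have h0 : ∀ j < 458, PN j := pn_13
  have h1 : ∀ j < 459, PN j := step h0 1 (nonT Cert.cb 458 _ Cert.n458) rfl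
  have h2 : ∀ j < 460, PN j := step h1 1 (nonT Cert.cb 459 _ Cert.n459) rfl
  have h3 : ∀ j < 461, PN j := step h2 1 (nonT Cert.cb 460 _ Cert.n460) rfl
  have h4 : ∀ j < 462, PN j := step h3 1 (nonT Cert.cb 461 _ Cert.n461) rfl
  have h5 : ∀ j < 463, PN j := step h4 1 (nonT Cert.cb 462 _ Cert.n462) rfl
  have h6 : ∀ j < 464, PN j := step h5 1 (nonT Cert.cb 463 _ Cert.n463) rfl
  have h7 : ∀ j < 465, PN j := step h6 1 (nonT Cert.cb 464 _ Cert.n464) rfl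
  have h8 : ∀ j < 466, PN j := step h7 1 (nonT Cert.cb 465 _ Cert.n465) rfl
  have h9 : ∀ j < 467, PN j := step h8 1 (nonT Cert.cb 466 _ Cert.n466) rfl
  have h10 : ∀ j < 468, PN j := step h9 1 (nonT Cert.cb 467 _ Cert.n467) rfl
  have h11 : ∀ j < 470, PN j := step h10 2 (nonT Cert.cb 468 _ Cert.n468) rfl
  have h12 : ∀ j < 472, PN j := step h11 2 (nonT Cert.cb 470 _ Cert.n470) rfl
  have h13 : ∀ j < 474, PN j := step h12 2 (nonT Cert.cb 472 _ Cert.n472) rfl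
  have h14 : ∀ j < 476, PN j := step h13 2 (nonT Cert.cb 474 _ Cert.n474) rfl
  have h15 : ∀ j < 478, PN j := step h14 2 (nonT Cert.cb 476 _ Cert.n476) rfl
  have h16 : ∀ j < 480, PN j := step h15 2 (nonT Cert.cb 478 _ Cert.n478) rfl
  have h17 : ∀ j < 482, PN j := step h16 2 (nonT Cert.cb 480 _ Cert.n480) rfl
  have h18 : ∀ j < 484, PN j := step h17 2 (nonT Cert.cb 482 _ Cert.n482) rfl
  have h19 : ∀ j < 485, PN j := step h18 1 (nonT Cert.cb 484 _ Cert.n484) rfl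
  have h20 : ∀ j < 486, PN j := step h19 1 (nonT Cert.cb 485 _ Cert.n485) rfl
  exact h20
theorem pn_15 : ∀ j < 511, PN j := by
  have h0 : ∀ j < 486, PN j := pn_14
  have h1 : ∀ j < 487, PN j := step h0 1 (nonT Cert.cb 486 _ Cert.n486) rfl
  have h2 : ∀ j < 488, PN j := step h1 1 (nonT Cert.cb 487 _ Cert.n487) rfl
  have h3 : ∀ j < 489, PN j := step h2 1 (nonT Cert.cb 488 _ Cert.n488) rfl
  have h4 : ∀ j < 490, PN j := step h3 1 (nonT Cert.cb 489 _ Cert.n489) rfl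
  have h5 : ∀ j < 491, PN j := step h4 1 (nonT Cert.cb 490 _ Cert.n490) rfl
  have h6 : ∀ j < 492, PN j := step h5 1 (nonT Cert.cb 491 _ Cert.n491) rfl
  have h7 : ∀ j < 493, PN j := step h6 1 (nonT Cert.cb 492 _ Cert.n492) rfl
  have h8 : ∀ j < 494, PN j := step h7 1 (nonT Cert.cb 493 _ Cert.n493) rfl
  have h9 : ∀ j < 495, PN j := step h8 1 (nonT Cert.cb 494 _ Cert.n494) rfl
  have h10 : ∀ j < 496, PN j := step h9 1 (nonT Cert.cb 495 _ Cert.n495) rfl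
  have h11 : ∀ j < 497, PN j := step h10 1 (nonT Cert.cb 496 _ Cert.n496) rfl
  have h12 : ∀ j < 498, PN j := step h11 1 (nonT Cert.cb 497 _ Cert.n497) rfl
  have h13 : ∀ j < 500, PN j := step h12 2 (nonT Cert.cb 498 _ Cert.n498) rfl
  have h14 : ∀ j < 502, PN j := step h13 2 (nonT Cert.cb 500 _ Cert.n500) rfl
  have h15 : ∀ j < 504, PN j := step h14 2 (nonT Cert.cb 502 _ Cert.n502) rfl
  have h16 : ∀ j < 506, PN j := step h15 2 (nonT Cert.cb 504 _ Cert.n504) rfl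
  have h17 : ∀ j < 508, PN j := step h16 2 (nonT Cert.cb 506 _ Cert.n506) rfl
  have h18 : ∀ j < 509, PN j := step h17 1 (nonT Cert.cb 508 _ Cert.n508) rfl
  have h19 : ∀ j < 510, PN j := step h18 1 (nonT Cert.cb 509 _ Cert.n509) rfl
  have h20 : ∀ j < 511, PN j := step h19 1 (nonT Cert.cb 510 _ Cert.n510) rfl
  exact h20
theorem pn_16 : ∀ j < 532, PN j := by
  have h0 : ∀ j < 511, PN j := pn_15
  have h1 : ∀ j < 512, PN j := step h0 1 (nonT Cert.cb 511 _ Cert.n511) rfl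
  have h2 : ∀ j < 513, PN j := step h1 1 (nonT Cert.cb 512 _ Cert.n512) rfl
  have h3 : ∀ j < 514, PN j := step h2 1 (nonT Cert.cb 513 _ Cert.n513) rfl
  have h4 : ∀ j < 515, PN j := step h3 1 (nonT Cert.cb 514 _ Cert.n514) rfl
  have h5 : ∀ j < 516, PN j := step h4 1 (nonT Cert.cb 515 _ Cert.n515) rfl
  have h6 : ∀ j < 517, PN j := step h5 1 (nonT Cert.cb 516 _ Cert.n516) rfl
  have h7 : ∀ j < 518, PN j := step h6 1 (nonT Cert.cb 517 _ Cert.n517) rfl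
  have h8 : ∀ j < 519, PN j := step h7 1 (nonT Cert.cb 518 _ Cert.n518) rfl
  have h9 : ∀ j < 521, PN j := step h8 2 (nonT Cert.cb 519 _ Cert.n519) rfl
  have h10 : ∀ j < 522, PN j := step h9 1 (nonT Cert.cb 521 _ Cert.n521) rfl
  have h11 : ∀ j < 523, PN j := step h10 1 (nonT Cert.cb 522 _ Cert.n522) rfl
  have h12 : ∀ j < 524, PN j := step h11 1 (nonT Cert.cb 523 _ Cert.n523) rfl
  have h13 : ∀ j < 525, PN j := step h12 1 (nonT Cert.cb 524 _ Cert.n524) rfl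
  have h14 : ∀ j < 526, PN j := step h13 1 (nonT Cert.cb 525 _ Cert.n525) rfl
  have h15 : ∀ j < 527, PN j := step h14 1 (nonT Cert.cb 526 _ Cert.n526) rfl
  have h16 : ∀ j < 528, PN j := step h15 1 (nonT Cert.cb 527 _ Cert.n527) rfl
  have h17 : ∀ j < 529, PN j := step h16 1 (nonT Cert.cb 528 _ Cert.n528) rfl
  have h18 : ∀ j < 530, PN j := step h17 1 (nonT Cert.cb 529 _ Cert.n529) rfl
  have h19 : ∀ j < 531, PN j := step h18 1 (nonT Cert.cb 530 _ Cert.n530) rfl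
  have h20 : ∀ j < 532, PN j := step h19 1 (nonT Cert.cb 531 _ Cert.n531) rfl
  exact h20
theorem pn_17 : ∀ j < 555, PN j := by
  have h0 : ∀ j < 532, PN j := pn_16
  have h1 : ∀ j < 533, PN j := step h0 1 (nonT Cert.cb 532 _ Cert.n532) rfl
  have h2 : ∀ j < 534, PN j := step h1 1 (nonT Cert.cb 533 _ Cert.n533) rfl
  have h3 : ∀ j < 535, PN j := step h2 1 (nonT Cert.cb 534 _ Cert.n534) rfl
  have h4 : ∀ j < 536, PN j := step h3 1 (nonT Cert.cb 535 _ Cert.n535) rfl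
  have h5 : ∀ j < 537, PN j := step h4 1 (nonT Cert.cb 536 _ Cert.n536) rfl
  have h6 : ∀ j < 538, PN j := step h5 1 (nonT Cert.cb 537 _ Cert.n537) rfl
  have h7 : ∀ j < 539, PN j := step h6 1 (nonT Cert.cb 538 _ Cert.n538) rfl
  have h8 : ∀ j < 540, PN j := step h7 1 (nonT Cert.cb 539 _ Cert.n539) rfl
  have h9 : ∀ j < 541, PN j := step h8 1 (nonT Cert.cb 540 _ Cert.n540) rfl
  have h10 : ∀ j < 542, PN j := step h9 1 (nonT Cert.cb 541 _ Cert.n541) rfl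
  have h11 : ∀ j < 543, PN j := step h10 1 (nonT Cert.cb 542 _ Cert.n542) rfl
  have h12 : ∀ j < 544, PN j := step h11 1 (nonT Cert.cb 543 _ Cert.n543) rfl
  have h13 : ∀ j < 545, PN j := step h12 1 (nonT Cert.cb 544 _ Cert.n544) rfl
  have h14 : ∀ j < 546, PN j := step h13 1 (nonT Cert.cb 545 _ Cert.n545) rfl
  have h15 : ∀ j < 547, PN j := step h14 1 (nonT Cert.cb 546 _ Cert.n546) rfl
  have h16 : ∀ j < 548, PN j := step h15 1 (nonT Cert.cb 547 _ Cert.n547) rfl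
  have h17 : ∀ j < 549, PN j := step h16 1 (nonT Cert.cb 548 _ Cert.n548) rfl
  have h18 : ∀ j < 551, PN j := step h17 2 (nonT Cert.cb 549 _ Cert.n549) rfl
  have h19 : ∀ j < 553, PN j := step h18 2 (nonT Cert.cb 551 _ Cert.n551) rfl
  have h20 : ∀ j < 555, PN j := step h19 2 (nonT Cert.cb 553 _ Cert.n553) rfl
  exact h20
theorem pn_18 : ∀ j < 582, PN j := by
  have h0 : ∀ j < 555, PN j := pn_17
  have h1 : ∀ j < 557, PN j := step h0 2 (nonT Cert.cb 555 _ Cert.n555) rfl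
  have h2 : ∀ j < 559, PN j := step h1 2 (nonT Cert.cb 557 _ Cert.n557) rfl
  have h3 : ∀ j < 561, PN j := step h2 2 (nonT Cert.cb 559 _ Cert.n559) rfl
  have h4 : ∀ j < 563, PN j := step h3 2 (nonT Cert.cb 561 _ Cert.n561) rfl
  have h5 : ∀ j < 565, PN j := step h4 2 (nonT Cert.cb 563 _ Cert.n563) rfl
  have h6 : ∀ j < 567, PN j := step h5 2 (nonT Cert.cb 565 _ Cert.n565) rfl
  have h7 : ∀ j < 569, PN j := step h6 2 (nonT Cert.cb 567 _ Cert.n567) rfl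
  have h8 : ∀ j < 570, PN j := step h7 1 (nonT Cert.cb 569 _ Cert.n569) rfl
  have h9 : ∀ j < 571, PN j := step h8 1 (nonT Cert.cb 570 _ Cert.n570) rfl
  have h10 : ∀ j < 572, PN j := step h9 1 (nonT Cert.cb 571 _ Cert.n571) rfl
  have h11 : ∀ j < 573, PN j := step h10 1 (nonT Cert.cb 572 _ Cert.n572) rfl
  have h12 : ∀ j < 574, PN j := step h11 1 (nonT Cert.cb 573 _ Cert.n573) rfl
  have h13 : ∀ j < 575, PN j := step h12 1 (nonT Cert.cb 574 _ Cert.n574) rfl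
  have h14 : ∀ j < 576, PN j := step h13 1 (nonT Cert.cb 575 _ Cert.n575) rfl
  have h15 : ∀ j < 577, PN j := step h14 1 (nonT Cert.cb 576 _ Cert.n576) rfl
  have h16 : ∀ j < 578, PN j := step h15 1 (nonT Cert.cb 577 _ Cert.n577) rfl
  have h17 : ∀ j < 579, PN j := step h16 1 (nonT Cert.cb 578 _ Cert.n578) rfl
  have h18 : ∀ j < 580, PN j := step h17 1 (nonT Cert.cb 579 _ Cert.n579) rfl
  have h19 : ∀ j < 581, PN j := step h18 1 (nonT Cert.cb 580 _ Cert.n580) rfl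
  have h20 : ∀ j < 582, PN j := step h19 1 (nonT Cert.cb 581 _ Cert.n581) rfl
  exact h20
theorem pn_19 : ∀ j < 607, PN j := by
  have h0 : ∀ j < 582, PN j := pn_18
  have h1 : ∀ j < 583, PN j := step h0 1 (nonT Cert.cb 582 _ Cert.n582) rfl
  have h2 : ∀ j < 584, PN j := step h1 1 (nonT Cert.cb 583 _ Cert.n583) rfl
  have h3 : ∀ j < 585, PN j := step h2 1 (nonT Cert.cb 584 _ Cert.n584) rfl
  have h4 : ∀ j < 586, PN j := step h3 1 (nonT Cert.cb 585 _ Cert.n585) rfl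
  have h5 : ∀ j < 587, PN j := step h4 1 (nonT Cert.cb 586 _ Cert.n586) rfl
  have h6 : ∀ j < 588, PN j := step h5 1 (nonT Cert.cb 587 _ Cert.n587) rfl
  have h7 : ∀ j < 589, PN j := step h6 1 (nonT Cert.cb 588 _ Cert.n588) rfl
  have h8 : ∀ j < 590, PN j := step h7 1 (nonT Cert.cb 589 _ Cert.n589) rfl
  have h9 : ∀ j < 591, PN j := step h8 1 (nonT Cert.cb 590 _ Cert.n590) rfl
  have h10 : ∀ j < 592, PN j := step h9 1 (nonT Cert.cb 591 _ Cert.n591) rfl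
  have h11 : ∀ j < 593, PN j := step h10 1 (nonT Cert.cb 592 _ Cert.n592) rfl
  have h12 : ∀ j < 594, PN j := step h11 1 (nonT Cert.cb 593 _ Cert.n593) rfl
  have h13 : ∀ j < 596, PN j := step h12 2 (nonT Cert.cb 594 _ Cert.n594) rfl
  have h14 : ∀ j < 597, PN j := step h13 1 (nonT Cert.cb 596 _ Cert.n596) rfl
  have h15 : ∀ j < 599, PN j := step h14 2 (nonT Cert.cb 597 _ Cert.n597) rfl
  have h16 : ∀ j < 601, PN j := step h15 2 (nonT Cert.cb 599 _ Cert.n599) rfl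
  have h17 : ∀ j < 603, PN j := step h16 2 (nonT Cert.cb 601 _ Cert.n601) rfl
  have h18 : ∀ j < 605, PN j := step h17 2 (nonT Cert.cb 603 _ Cert.n603) rfl
  have h19 : ∀ j < 606, PN j := step h18 1 (nonT Cert.cb 605 _ Cert.n605) rfl
  have h20 : ∀ j < 607, PN j := step h19 1 (nonT Cert.cb 606 _ Cert.n606) rfl
  exact h20
theorem pn_20 : ∀ j < 629, PN j := by
  have h0 : ∀ j < 607, PN j := pn_19
  have h1 : ∀ j < 608, PN j := step h0 1 (nonT Cert.cb 607 _ Cert.n607) rfl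
  have h2 : ∀ j < 609, PN j := step h1 1 (nonT Cert.cb 608 _ Cert.n608) rfl
  have h3 : ∀ j < 610, PN j := step h2 1 (nonT Cert.cb 609 _ Cert.n609) rfl
  have h4 : ∀ j < 611, PN j := step h3 1 (nonT Cert.cb 610 _ Cert.n610) rfl
  have h5 : ∀ j < 612, PN j := step h4 1 (nonT Cert.cb 611 _ Cert.n611) rfl
  have h6 : ∀ j < 613, PN j := step h5 1 (nonT Cert.cb 612 _ Cert.n612) rfl
  have h7 : ∀ j < 614, PN j := step h6 1 (nonT Cert.cb 613 _ Cert.n613) rfl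
  have h8 : ∀ j < 615, PN j := step h7 1 (nonT Cert.cb 614 _ Cert.n614) rfl
  have h9 : ∀ j < 616, PN j := step h8 1 (nonT Cert.cb 615 _ Cert.n615) rfl
  have h10 : ∀ j < 617, PN j := step h9 1 (nonT Cert.cb 616 _ Cert.n616) rfl
  have h11 : ∀ j < 618, PN j := step h10 1 (nonT Cert.cb 617 _ Cert.n617) rfl
  have h12 : ∀ j < 619, PN j := step h11 1 (nonT Cert.cb 618 _ Cert.n618) rfl
  have h13 : ∀ j < 620, PN j := step h12 1 (nonT Cert.cb 619 _ Cert.n619) rfl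
  have h14 : ∀ j < 621, PN j := step h13 1 (nonT Cert.cb 620 _ Cert.n620) rfl
  have h15 : ∀ j < 622, PN j := step h14 1 (nonT Cert.cb 621 _ Cert.n621) rfl
  have h16 : ∀ j < 623, PN j := step h15 1 (nonT Cert.cb 622 _ Cert.n622) rfl
  have h17 : ∀ j < 624, PN j := step h16 1 (nonT Cert.cb 623 _ Cert.n623) rfl
  have h18 : ∀ j < 626, PN j := step h17 2 (nonT Cert.cb 624 _ Cert.n624) rfl
  have h19 : ∀ j < 628, PN j := step h18 2 (nonT Cert.cb 626 _ Cert.n626) rfl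
  have h20 : ∀ j < 629, PN j := step h19 1 (nonT Cert.cb 628 _ Cert.n628) rfl
  exact h20
theorem pn_21 : ∀ j < 651, PN j := by
  have h0 : ∀ j < 629, PN j := pn_20
  have h1 : ∀ j < 630, PN j := step h0 1 (nonT Cert.cb 629 _ Cert.n629) rfl
  have h2 : ∀ j < 631, PN j := step h1 1 (nonT Cert.cb 630 _ Cert.n630) rfl
  have h3 : ∀ j < 632, PN j := step h2 1 (nonT Cert.cb 631 _ Cert.n631) rfl
  have h4 : ∀ j < 633, PN j := step h3 1 (nonT Cert.cb 632 _ Cert.n632) rfl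
  have h5 : ∀ j < 634, PN j := step h4 1 (nonT Cert.cb 633 _ Cert.n633) rfl
  have h6 : ∀ j < 635, PN j := step h5 1 (nonT Cert.cb 634 _ Cert.n634) rfl
  have h7 : ∀ j < 636, PN j := step h6 1 (nonT Cert.cb 635 _ Cert.n635) rfl
  have h8 : ∀ j < 637, PN j := step h7 1 (nonT Cert.cb 636 _ Cert.n636) rfl
  have h9 : ∀ j < 638, PN j := step h8 1 (nonT Cert.cb 637 _ Cert.n637) rfl
  have h10 : ∀ j < 640, PN j := step h9 2 (nonT Cert.cb 638 _ Cert.n638) rfl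
  have h11 : ∀ j < 641, PN j := step h10 1 (nonT Cert.cb 640 _ Cert.n640) rfl
  have h12 : ∀ j < 642, PN j := step h11 1 (nonT Cert.cb 641 _ Cert.n641) rfl
  have h13 : ∀ j < 643, PN j := step h12 1 (nonT Cert.cb 642 _ Cert.n642) rfl
  have h14 : ∀ j < 644, PN j := step h13 1 (nonT Cert.cb 643 _ Cert.n643) rfl
  have h15 : ∀ j < 646, PN j := step h14 2 (nonT Cert.cb 644 _ Cert.n644) rfl
  have h16 : ∀ j < 647, PN j := step h15 1 (nonT Cert.cb 646 _ Cert.n646) rfl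
  have h17 : ∀ j < 648, PN j := step h16 1 (nonT Cert.cb 647 _ Cert.n647) rfl
  have h18 : ∀ j < 649, PN j := step h17 1 (nonT Cert.cb 648 _ Cert.n648) rfl
  have h19 : ∀ j < 650, PN j := step h18 1 (nonT Cert.cb 649 _ Cert.n649) rfl
  have h20 : ∀ j < 651, PN j := step h19 1 (nonT Cert.cb 650 _ Cert.n650) rfl
  exact h20
theorem pn_22 : ∀ j < 674, PN j := by
  have h0 : ∀ j < 651, PN j := pn_21
  have h1 : ∀ j < 653, PN j := step h0 2 (nonT Cert.cb 651 _ Cert.n651) rfl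
  have h2 : ∀ j < 654, PN j := step h1 1 (nonT Cert.cb 653 _ Cert.n653) rfl
  have h3 : ∀ j < 655, PN j := step h2 1 (nonT Cert.cb 654 _ Cert.n654) rfl
  have h4 : ∀ j < 656, PN j := step h3 1 (nonT Cert.cb 655 _ Cert.n655) rfl
  have h5 : ∀ j < 657, PN j := step h4 1 (nonT Cert.cb 656 _ Cert.n656) rfl
  have h6 : ∀ j < 658, PN j := step h5 1 (nonT Cert.cb 657 _ Cert.n657) rfl
  have h7 : ∀ j < 659, PN j := step h6 1 (nonT Cert.cb 658 _ Cert.n658) rfl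
  have h8 : ∀ j < 660, PN j := step h7 1 (nonT Cert.cb 659 _ Cert.n659) rfl
  have h9 : ∀ j < 662, PN j := step h8 2 (nonT Cert.cb 660 _ Cert.n660) rfl
  have h10 : ∀ j < 663, PN j := step h9 1 (nonT Cert.cb 662 _ Cert.n662) rfl
  have h11 : ∀ j < 664, PN j := step h10 1 (nonT Cert.cb 663 _ Cert.n663) rfl
  have h12 : ∀ j < 665, PN j := step h11 1 (nonT Cert.cb 664 _ Cert.n664) rfl
  have h13 : ∀ j < 666, PN j := step h12 1 (nonT Cert.cb 665 _ Cert.n665) rfl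
  have h14 : ∀ j < 667, PN j := step h13 1 (nonT Cert.cb 666 _ Cert.n666) rfl
  have h15 : ∀ j < 669, PN j := step h14 2 (nonT Cert.cb 667 _ Cert.n667) rfl
  have h16 : ∀ j < 670, PN j := step h15 1 (nonT Cert.cb 669 _ Cert.n669) rfl
  have h17 : ∀ j < 671, PN j := step h16 1 (nonT Cert.cb 670 _ Cert.n670) rfl
  have h18 : ∀ j < 672, PN j := step h17 1 (nonT Cert.cb 671 _ Cert.n671) rfl
  have h19 : ∀ j < 673, PN j := step h18 1 (nonT Cert.cb 672 _ Cert.n672) rfl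
  have h20 : ∀ j < 674, PN j := step h19 1 (nonT Cert.cb 673 _ Cert.n673) rfl
  exact h20
theorem pn_23 : ∀ j < 699, PN j := by
  have h0 : ∀ j < 674, PN j := pn_22
  have h1 : ∀ j < 675, PN j := step h0 1 (nonT Cert.cb 674 _ Cert.n674) rfl
  have h2 : ∀ j < 676, PN j := step h1 1 (nonT Cert.cb 675 _ Cert.n675) rfl
  have h3 : ∀ j < 677, PN j := step h2 1 (nonT Cert.cb 676 _ Cert.n676) rfl
  have h4 : ∀ j < 678, PN j := step h3 1 (nonT Cert.cb 677 _ Cert.n677) rfl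
  have h5 : ∀ j < 680, PN j := step h4 2 (nonT Cert.cb 678 _ Cert.n678) rfl
  have h6 : ∀ j < 683, PN j := step h5 3 (nonT Cert.cb 680 _ Cert.n680) rfl
  have h7 : ∀ j < 685, PN j := step h6 2 (nonT Cert.cb 683 _ Cert.n683) rfl
  have h8 : ∀ j < 686, PN j := step h7 1 (nonT Cert.cb 685 _ Cert.n685) rfl
  have h9 : ∀ j < 687, PN j := step h8 1 (nonT Cert.cb 686 _ Cert.n686) rfl
  have h10 : ∀ j < 688, PN j := step h9 1 (nonT Cert.cb 687 _ Cert.n687) rfl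
  have h11 : ∀ j < 690, PN j := step h10 2 (nonT Cert.cb 688 _ Cert.n688) rfl
  have h12 : ∀ j < 691, PN j := step h11 1 (nonT Cert.cb 690 _ Cert.n690) rfl
  have h13 : ∀ j < 692, PN j := step h12 1 (nonT Cert.cb 691 _ Cert.n691) rfl
  have h14 : ∀ j < 693, PN j := step h13 1 (nonT Cert.cb 692 _ Cert.n692) rfl
  have h15 : ∀ j < 694, PN j := step h14 1 (nonT Cert.cb 693 _ Cert.n693) rfl
  have h16 : ∀ j < 695, PN j := step h15 1 (nonT Cert.cb 694 _ Cert.n694) rfl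
  have h17 : ∀ j < 696, PN j := step h16 1 (nonT Cert.cb 695 _ Cert.n695) rfl
  have h18 : ∀ j < 697, PN j := step h17 1 (nonT Cert.cb 696 _ Cert.n696) rfl
  have h19 : ∀ j < 698, PN j := step h18 1 (nonT Cert.cb 697 _ Cert.n697) rfl
  have h20 : ∀ j < 699, PN j := step h19 1 (nonT Cert.cb 698 _ Cert.n698) rfl
  exact h20
theorem pn_24 : ∀ j < 728, PN j := by
  have h0 : ∀ j < 699, PN j := pn_23
  have h1 : ∀ j < 700, PN j := step h0 1 (nonT Cert.cb 699 _ Cert.n699) rfl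
  have h2 : ∀ j < 701, PN j := step h1 1 (nonT Cert.cb 700 _ Cert.n700) rfl
  have h3 : ∀ j < 703, PN j := step h2 2 (nonT Cert.cb 701 _ Cert.n701) rfl
  have h4 : ∀ j < 706, PN j := step h3 3 (nonT Cert.cb 703 _ Cert.n703) rfl
  have h5 : ∀ j < 707, PN j := step h4 1 (nonT Cert.cb 706 _ Cert.n706) rfl
  have h6 : ∀ j < 708, PN j := step h5 1 (nonT Cert.cb 707 _ Cert.n707) rfl
  have h7 : ∀ j < 709, PN j := step h6 1 (nonT Cert.cb 708 _ Cert.n708) rfl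
  have h8 : ∀ j < 711, PN j := step h7 2 (nonT Cert.cb 709 _ Cert.n709) rfl
  have h9 : ∀ j < 714, PN j := step h8 3 (nonT Cert.cb 711 _ Cert.n711) rfl
  have h10 : ∀ j < 716, PN j := step h9 2 (nonT Cert.cb 714 _ Cert.n714) rfl
  have h11 : ∀ j < 717, PN j := step h10 1 (nonT Cert.cb 716 _ Cert.n716) rfl
  have h12 : ∀ j < 718, PN j := step h11 1 (nonT Cert.cb 717 _ Cert.n717) rfl
  have h13 : ∀ j < 719, PN j := step h12 1 (nonT Cert.cb 718 _ Cert.n718) rfl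
  have h14 : ∀ j < 720, PN j := step h13 1 (nonT Cert.cb 719 _ Cert.n719) rfl
  have h15 : ∀ j < 721, PN j := step h14 1 (nonT Cert.cb 720 _ Cert.n720) rfl
  have h16 : ∀ j < 722, PN j := step h15 1 (nonT Cert.cb 721 _ Cert.n721) rfl
  have h17 : ∀ j < 724, PN j := step h16 2 (nonT Cert.cb 722 _ Cert.n722) rfl
  have h18 : ∀ j < 726, PN j := step h17 2 (nonT Cert.cb 724 _ Cert.n724) rfl
  have h19 : ∀ j < 727, PN j := step h18 1 (nonT Cert.cb 726 _ Cert.n726) rfl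
  have h20 : ∀ j < 728, PN j := step h19 1 (nonT Cert.cb 727 _ Cert.n727) rfl
  exact h20
theorem pn_25 : ∀ j < 754, PN j := by
  have h0 : ∀ j < 728, PN j := pn_24
  have h1 : ∀ j < 729, PN j := step h0 1 (nonT Cert.cb 728 _ Cert.n728) rfl
  have h2 : ∀ j < 730, PN j := step h1 1 (nonT Cert.cb 729 _ Cert.n729) rfl
  have h3 : ∀ j < 731, PN j := step h2 1 (nonT Cert.cb 730 _ Cert.n730) rfl
  have h4 : ∀ j < 734, PN j := step h3 3 (nonT Cert.cb 731 _ Cert.n731) rfl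
  have h5 : ∀ j < 735, PN j := step h4 1 (nonT Cert.cb 734 _ Cert.n734) rfl
  have h6 : ∀ j < 736, PN j := step h5 1 (nonT Cert.cb 735 _ Cert.n735) rfl
  have h7 : ∀ j < 737, PN j := step h6 1 (nonT Cert.cb 736 _ Cert.n736) rfl
  have h8 : ∀ j < 738, PN j := step h7 1 (nonT Cert.cb 737 _ Cert.n737) rfl
  have h9 : ∀ j < 739, PN j := step h8 1 (nonT Cert.cb 738 _ Cert.n738) rfl
  have h10 : ∀ j < 740, PN j := step h9 1 (nonT Cert.cb 739 _ Cert.n739) rfl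
  have h11 : ∀ j < 741, PN j := step h10 1 (nonT Cert.cb 740 _ Cert.n740) rfl
  have h12 : ∀ j < 743, PN j := step h11 2 (nonT Cert.cb 741 _ Cert.n741) rfl
  have h13 : ∀ j < 744, PN j := step h12 1 (nonT Cert.cb 743 _ Cert.n743) rfl
  have h14 : ∀ j < 745, PN j := step h13 1 (nonT Cert.cb 744 _ Cert.n744) rfl
  have h15 : ∀ j < 746, PN j := step h14 1 (nonT Cert.cb 745 _ Cert.n745) rfl
  have h16 : ∀ j < 747, PN j := step h15 1 (nonT Cert.cb 746 _ Cert.n746) rfl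
  have h17 : ∀ j < 749, PN j := step h16 2 (nonT Cert.cb 747 _ Cert.n747) rfl
  have h18 : ∀ j < 751, PN j := step h17 2 (nonT Cert.cb 749 _ Cert.n749) rfl
  have h19 : ∀ j < 753, PN j := step h18 2 (nonT Cert.cb 751 _ Cert.n751) rfl
  have h20 : ∀ j < 754, PN j := step h19 1 (nonT Cert.cb 753 _ Cert.n753) rfl
  exact h20
theorem pn_26 : ∀ j < 784, PN j := by
  have h0 : ∀ j < 754, PN j := pn_25
  have h1 : ∀ j < 756, PN j := step h0 2 (nonT Cert.cb 754 _ Cert.n754) rfl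
  have h2 : ∀ j < 758, PN j := step h1 2 (nonT Cert.cb 756 _ Cert.n756) rfl
  have h3 : ∀ j < 759, PN j := step h2 1 (nonT Cert.cb 758 _ Cert.n758) rfl
  have h4 : ∀ j < 760, PN j := step h3 1 (nonT Cert.cb 759 _ Cert.n759) rfl
  have h5 : ∀ j < 761, PN j := step h4 1 (nonT Cert.cb 760 _ Cert.n760) rfl
  have h6 : ∀ j < 763, PN j := step h5 2 (nonT Cert.cb 761 _ Cert.n761) rfl
  have h7 : ∀ j < 764, PN j := step h6 1 (nonT Cert.cb 763 _ Cert.n763) rfl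
  have h8 : ∀ j < 766, PN j := step h7 2 (nonT Cert.cb 764 _ Cert.n764) rfl
  have h9 : ∀ j < 768, PN j := step h8 2 (nonT Cert.cb 766 _ Cert.n766) rfl
  have h10 : ∀ j < 770, PN j := step h9 2 (nonT Cert.cb 768 _ Cert.n768) rfl
  have h11 : ∀ j < 772, PN j := step h10 2 (nonT Cert.cb 770 _ Cert.n770) rfl
  have h12 : ∀ j < 773, PN j := step h11 1 (nonT Cert.cb 772 _ Cert.n772) rfl
  have h13 : ∀ j < 774, PN j := step h12 1 (nonT Cert.cb 773 _ Cert.n773) rfl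
  have h14 : ∀ j < 776, PN j := step h13 2 (nonT Cert.cb 774 _ Cert.n774) rfl
  have h15 : ∀ j < 778, PN j := step h14 2 (nonT Cert.cb 776 _ Cert.n776) rfl
  have h16 : ∀ j < 780, PN j := step h15 2 (nonT Cert.cb 778 _ Cert.n778) rfl
  have h17 : ∀ j < 781, PN j := step h16 1 (nonT Cert.cb 780 _ Cert.n780) rfl
  have h18 : ∀ j < 782, PN j := step h17 1 (nonT Cert.cb 781 _ Cert.n781) rfl
  have h19 : ∀ j < 783, PN j := step h18 1 (nonT Cert.cb 782 _ Cert.n782) rfl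
  have h20 : ∀ j < 784, PN j := step h19 1 (nonT Cert.cb 783 _ Cert.n783) rfl
  exact h20
theorem pn_27 : ∀ j < 804, PN j := by
  have h0 : ∀ j < 784, PN j := pn_26
  have h1 : ∀ j < 785, PN j := step h0 1 (nonT Cert.cb 784 _ Cert.n784) rfl
  have h2 : ∀ j < 786, PN j := step h1 1 (nonT Cert.cb 785 _ Cert.n785) rfl
  have h3 : ∀ j < 787, PN j := step h2 1 (nonT Cert.cb 786 _ Cert.n786) rfl
  have h4 : ∀ j < 788, PN j := step h3 1 (nonT Cert.cb 787 _ Cert.n787) rfl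
  have h5 : ∀ j < 789, PN j := step h4 1 (nonT Cert.cb 788 _ Cert.n788) rfl
  have h6 : ∀ j < 790, PN j := step h5 1 (nonT Cert.cb 789 _ Cert.n789) rfl
  have h7 : ∀ j < 791, PN j := step h6 1 (nonT Cert.cb 790 _ Cert.n790) rfl
  have h8 : ∀ j < 792, PN j := step h7 1 (nonT Cert.cb 791 _ Cert.n791) rfl
  have h9 : ∀ j < 793, PN j := step h8 1 (nonT Cert.cb 792 _ Cert.n792) rfl
  have h10 : ∀ j < 794, PN j := step h9 1 (nonT Cert.cb 793 _ Cert.n793) rfl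
  have h11 : ∀ j < 795, PN j := step h10 1 (nonT Cert.cb 794 _ Cert.n794) rfl
  have h12 : ∀ j < 796, PN j := step h11 1 (nonT Cert.cb 795 _ Cert.n795) rfl
  have h13 : ∀ j < 797, PN j := step h12 1 (nonT Cert.cb 796 _ Cert.n796) rfl
  have h14 : ∀ j < 798, PN j := step h13 1 (nonT Cert.cb 797 _ Cert.n797) rfl
  have h15 : ∀ j < 799, PN j := step h14 1 (nonT Cert.cb 798 _ Cert.n798) rfl
  have h16 : ∀ j < 800, PN j := step h15 1 (nonT Cert.cb 799 _ Cert.n799) rfl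
  have h17 : ∀ j < 801, PN j := step h16 1 (nonT Cert.cb 800 _ Cert.n800) rfl
  have h18 : ∀ j < 802, PN j := step h17 1 (nonT Cert.cb 801 _ Cert.n801) rfl
  have h19 : ∀ j < 803, PN j := step h18 1 (nonT Cert.cb 802 _ Cert.n802) rfl
  have h20 : ∀ j < 804, PN j := step h19 1 (nonT Cert.cb 803 _ Cert.n803) rfl
  exact h20
theorem pn_28 : ∀ j < 824, PN j := by
  have h0 : ∀ j < 804, PN j := pn_27
  have h1 : ∀ j < 805, PN j := step h0 1 (nonT Cert.cb 804 _ Cert.n804) rfl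
  have h2 : ∀ j < 806, PN j := step h1 1 (nonT Cert.cb 805 _ Cert.n805) rfl
  have h3 : ∀ j < 807, PN j := step h2 1 (nonT Cert.cb 806 _ Cert.n806) rfl
  have h4 : ∀ j < 808, PN j := step h3 1 (nonT Cert.cb 807 _ Cert.n807) rfl
  have h5 : ∀ j < 809, PN j := step h4 1 (nonT Cert.cb 808 _ Cert.n808) rfl
  have h6 : ∀ j < 810, PN j := step h5 1 (nonT Cert.cb 809 _ Cert.n809) rfl
  have h7 : ∀ j < 811, PN j := step h6 1 (nonT Cert.cb 810 _ Cert.n810) rfl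
  have h8 : ∀ j < 812, PN j := step h7 1 (nonT Cert.cb 811 _ Cert.n811) rfl
  have h9 : ∀ j < 813, PN j := step h8 1 (nonT Cert.cb 812 _ Cert.n812) rfl
  have h10 : ∀ j < 814, PN j := step h9 1 (nonT Cert.cb 813 _ Cert.n813) rfl
  have h11 : ∀ j < 815, PN j := step h10 1 (nonT Cert.cb 814 _ Cert.n814) rfl
  have h12 : ∀ j < 816, PN j := step h11 1 (nonT Cert.cb 815 _ Cert.n815) rfl
  have h13 : ∀ j < 817, PN j := step h12 1 (nonT Cert.cb 816 _ Cert.n816) rfl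
  have h14 : ∀ j < 818, PN j := step h13 1 (nonT Cert.cb 817 _ Cert.n817) rfl
  have h15 : ∀ j < 819, PN j := step h14 1 (nonT Cert.cb 818 _ Cert.n818) rfl
  have h16 : ∀ j < 820, PN j := step h15 1 (nonT Cert.cb 819 _ Cert.n819) rfl
  have h17 : ∀ j < 821, PN j := step h16 1 (nonT Cert.cb 820 _ Cert.n820) rfl
  have h18 : ∀ j < 822, PN j := step h17 1 (nonT Cert.cb 821 _ Cert.n821) rfl
  have h19 : ∀ j < 823, PN j := step h18 1 (nonT Cert.cb 822 _ Cert.n822) rfl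
  have h20 : ∀ j < 824, PN j := step h19 1 (nonT Cert.cb 823 _ Cert.n823) rfl
  exact h20
theorem pn_29 : ∀ j < 849, PN j := by
  have h0 : ∀ j < 824, PN j := pn_28
  have h1 : ∀ j < 825, PN j := step h0 1 (nonT Cert.cb 824 _ Cert.n824) rfl
  have h2 : ∀ j < 826, PN j := step h1 1 (nonT Cert.cb 825 _ Cert.n825) rfl
  have h3 : ∀ j < 827, PN j := step h2 1 (nonT Cert.cb 826 _ Cert.n826) rfl
  have h4 : ∀ j < 829, PN j := step h3 2 (nonT Cert.cb 827 _ Cert.n827) rfl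
  have h5 : ∀ j < 831, PN j := step h4 2 (nonT Cert.cb 829 _ Cert.n829) rfl
  have h6 : ∀ j < 832, PN j := step h5 1 (nonT Cert.cb 831 _ Cert.n831) rfl
  have h7 : ∀ j < 833, PN j := step h6 1 (nonT Cert.cb 832 _ Cert.n832) rfl
  have h8 : ∀ j < 834, PN j := step h7 1 (nonT Cert.cb 833 _ Cert.n833) rfl
  have h9 : ∀ j < 835, PN j := step h8 1 (nonT Cert.cb 834 _ Cert.n834) rfl
  have h10 : ∀ j < 838, PN j := step h9 3 (nonT Cert.cb 835 _ Cert.n835) rfl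
  have h11 : ∀ j < 840, PN j := step h10 2 (nonT Cert.cb 838 _ Cert.n838) rfl
  have h12 : ∀ j < 841, PN j := step h11 1 (nonT Cert.cb 840 _ Cert.n840) rfl
  have h13 : ∀ j < 842, PN j := step h12 1 (nonT Cert.cb 841 _ Cert.n841) rfl
  have h14 : ∀ j < 843, PN j := step h13 1 (nonT Cert.cb 842 _ Cert.n842) rfl
  have h15 : ∀ j < 844, PN j := step h14 1 (nonT Cert.cb 843 _ Cert.n843) rfl
  have h16 : ∀ j < 845, PN j := step h15 1 (nonT Cert.cb 844 _ Cert.n844) rfl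
  have h17 : ∀ j < 846, PN j := step h16 1 (nonT Cert.cb 845 _ Cert.n845) rfl
  have h18 : ∀ j < 847, PN j := step h17 1 (nonT Cert.cb 846 _ Cert.n846) rfl
  have h19 : ∀ j < 848, PN j := step h18 1 (nonT Cert.cb 847 _ Cert.n847) rfl
  have h20 : ∀ j < 849, PN j := step h19 1 (nonT Cert.cb 848 _ Cert.n848) rfl
  exact h20
theorem pn_30 : ∀ j < 870, PN j := by
  have h0 : ∀ j < 849, PN j := pn_29
  have h1 : ∀ j < 850, PN j := step h0 1 (nonT Cert.cb 849 _ Cert.n849) rfl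
  have h2 : ∀ j < 851, PN j := step h1 1 (nonT Cert.cb 850 _ Cert.n850) rfl
  have h3 : ∀ j < 852, PN j := step h2 1 (nonT Cert.cb 851 _ Cert.n851) rfl
  have h4 : ∀ j < 853, PN j := step h3 1 (nonT Cert.cb 852 _ Cert.n852) rfl
  have h5 : ∀ j < 854, PN j := step h4 1 (nonT Cert.cb 853 _ Cert.n853) rfl
  have h6 : ∀ j < 855, PN j := step h5 1 (nonT Cert.cb 854 _ Cert.n854) rfl
  have h7 : ∀ j < 856, PN j := step h6 1 (nonT Cert.cb 855 _ Cert.n855) rfl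
  have h8 : ∀ j < 857, PN j := step h7 1 (nonT Cert.cb 856 _ Cert.n856) rfl
  have h9 : ∀ j < 858, PN j := step h8 1 (nonT Cert.cb 857 _ Cert.n857) rfl
  have h10 : ∀ j < 859, PN j := step h9 1 (nonT Cert.cb 858 _ Cert.n858) rfl
  have h11 : ∀ j < 860, PN j := step h10 1 (nonT Cert.cb 859 _ Cert.n859) rfl
  have h12 : ∀ j < 861, PN j := step h11 1 (nonT Cert.cb 860 _ Cert.n860) rfl
  have h13 : ∀ j < 862, PN j := step h12 1 (nonT Cert.cb 861 _ Cert.n861) rfl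
  have h14 : ∀ j < 863, PN j := step h13 1 (nonT Cert.cb 862 _ Cert.n862) rfl
  have h15 : ∀ j < 864, PN j := step h14 1 (nonT Cert.cb 863 _ Cert.n863) rfl
  have h16 : ∀ j < 865, PN j := step h15 1 (nonT Cert.cb 864 _ Cert.n864) rfl
  have h17 : ∀ j < 866, PN j := step h16 1 (nonT Cert.cb 865 _ Cert.n865) rfl
  have h18 : ∀ j < 867, PN j := step h17 1 (nonT Cert.cb 866 _ Cert.n866) rfl
  have h19 : ∀ j < 868, PN j := step h18 1 (nonT Cert.cb 867 _ Cert.n867) rfl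
  have h20 : ∀ j < 870, PN j := step h19 2 (nonT Cert.cb 868 _ Cert.n868) rfl
  exact h20
theorem pn_31 : ∀ j < 894, PN j := by
  have h0 : ∀ j < 870, PN j := pn_30
  have h1 : ∀ j < 871, PN j := step h0 1 (nonT Cert.cb 870 _ Cert.n870) rfl
  have h2 : ∀ j < 872, PN j := step h1 1 (nonT Cert.cb 871 _ Cert.n871) rfl
  have h3 : ∀ j < 874, PN j := step h2 2 (nonT Cert.cb 872 _ Cert.n872) rfl
  have h4 : ∀ j < 875, PN j := step h3 1 (nonT Cert.cb 874 _ Cert.n874) rfl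
  have h5 : ∀ j < 876, PN j := step h4 1 (nonT Cert.cb 875 _ Cert.n875) rfl
  have h6 : ∀ j < 877, PN j := step h5 1 (nonT Cert.cb 876 _ Cert.n876) rfl
  have h7 : ∀ j < 878, PN j := step h6 1 (nonT Cert.cb 877 _ Cert.n877) rfl
  have h8 : ∀ j < 879, PN j := step h7 1 (nonT Cert.cb 878 _ Cert.n878) rfl
  have h9 : ∀ j < 880, PN j := step h8 1 (nonT Cert.cb 879 _ Cert.n879) rfl
  have h10 : ∀ j < 882, PN j := step h9 2 (nonT Cert.cb 880 _ Cert.n880) rfl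
  have h11 : ∀ j < 884, PN j := step h10 2 (nonT Cert.cb 882 _ Cert.n882) rfl
  have h12 : ∀ j < 886, PN j := step h11 2 (nonT Cert.cb 884 _ Cert.n884) rfl
  have h13 : ∀ j < 887, PN j := step h12 1 (nonT Cert.cb 886 _ Cert.n886) rfl
  have h14 : ∀ j < 888, PN j := step h13 1 (nonT Cert.cb 887 _ Cert.n887) rfl
  have h15 : ∀ j < 889, PN j := step h14 1 (nonT Cert.cb 888 _ Cert.n888) rfl
  have h16 : ∀ j < 890, PN j := step h15 1 (nonT Cert.cb 889 _ Cert.n889) rfl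
  have h17 : ∀ j < 891, PN j := step h16 1 (nonT Cert.cb 890 _ Cert.n890) rfl
  have h18 : ∀ j < 892, PN j := step h17 1 (nonT Cert.cb 891 _ Cert.n891) rfl
  have h19 : ∀ j < 893, PN j := step h18 1 (nonT Cert.cb 892 _ Cert.n892) rfl
  have h20 : ∀ j < 894, PN j := step h19 1 (nonT Cert.cb 893 _ Cert.n893) rfl
  exact h20
theorem pn_32 : ∀ j < 921, PN j := by
  have h0 : ∀ j < 894, PN j := pn_31
  have h1 : ∀ j < 895, PN j := step h0 1 (nonT Cert.cb 894 _ Cert.n894) rfl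
  have h2 : ∀ j < 896, PN j := step h1 1 (nonT Cert.cb 895 _ Cert.n895) rfl
  have h3 : ∀ j < 897, PN j := step h2 1 (nonT Cert.cb 896 _ Cert.n896) rfl
  have h4 : ∀ j < 898, PN j := step h3 1 (nonT Cert.cb 897 _ Cert.n897) rfl
  have h5 : ∀ j < 900, PN j := step h4 2 (nonT Cert.cb 898 _ Cert.n898) rfl
  have h6 : ∀ j < 902, PN j := step h5 2 (nonT Cert.cb 900 _ Cert.n900) rfl
  have h7 : ∀ j < 904, PN j := step h6 2 (nonT Cert.cb 902 _ Cert.n902) rfl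
  have h8 : ∀ j < 906, PN j := step h7 2 (nonT Cert.cb 904 _ Cert.n904) rfl
  have h9 : ∀ j < 907, PN j := step h8 1 (nonT Cert.cb 906 _ Cert.n906) rfl
  have h10 : ∀ j < 908, PN j := step h9 1 (nonT Cert.cb 907 _ Cert.n907) rfl
  have h11 : ∀ j < 909, PN j := step h10 1 (nonT Cert.cb 908 _ Cert.n908) rfl
  have h12 : ∀ j < 910, PN j := step h11 1 (nonT Cert.cb 909 _ Cert.n909) rfl
  have h13 : ∀ j < 911, PN j := step h12 1 (nonT Cert.cb 910 _ Cert.n910) rfl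
  have h14 : ∀ j < 912, PN j := step h13 1 (nonT Cert.cb 911 _ Cert.n911) rfl
  have h15 : ∀ j < 915, PN j := step h14 3 (nonT Cert.cb 912 _ Cert.n912) rfl
  have h16 : ∀ j < 917, PN j := step h15 2 (nonT Cert.cb 915 _ Cert.n915) rfl
  have h17 : ∀ j < 918, PN j := step h16 1 (nonT Cert.cb 917 _ Cert.n917) rfl
  have h18 : ∀ j < 919, PN j := step h17 1 (nonT Cert.cb 918 _ Cert.n918) rfl
  have h19 : ∀ j < 920, PN j := step h18 1 (nonT Cert.cb 919 _ Cert.n919) rfl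
  have h20 : ∀ j < 921, PN j := step h19 1 (nonT Cert.cb 920 _ Cert.n920) rfl
  exact h20
theorem pn_33 : ∀ j < 941, PN j := by
  have h0 : ∀ j < 921, PN j := pn_32
  have h1 : ∀ j < 922, PN j := step h0 1 (nonT Cert.cb 921 _ Cert.n921) rfl
  have h2 : ∀ j < 923, PN j := step h1 1 (nonT Cert.cb 922 _ Cert.n922) rfl
  have h3 : ∀ j < 924, PN j := step h2 1 (nonT Cert.cb 923 _ Cert.n923) rfl
  have h4 : ∀ j < 925, PN j := step h3 1 (nonT Cert.cb 924 _ Cert.n924) rfl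
  have h5 : ∀ j < 926, PN j := step h4 1 (nonT Cert.cb 925 _ Cert.n925) rfl
  have h6 : ∀ j < 927, PN j := step h5 1 (nonT Cert.cb 926 _ Cert.n926) rfl
  have h7 : ∀ j < 928, PN j := step h6 1 (nonT Cert.cb 927 _ Cert.n927) rfl
  have h8 : ∀ j < 929, PN j := step h7 1 (nonT Cert.cb 928 _ Cert.n928) rfl
  have h9 : ∀ j < 930, PN j := step h8 1 (nonT Cert.cb 929 _ Cert.n929) rfl
  have h10 : ∀ j < 931, PN j := step h9 1 (nonT Cert.cb 930 _ Cert.n930) rfl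
  have h11 : ∀ j < 932, PN j := step h10 1 (nonT Cert.cb 931 _ Cert.n931) rfl
  have h12 : ∀ j < 933, PN j := step h11 1 (nonT Cert.cb 932 _ Cert.n932) rfl
  have h13 : ∀ j < 934, PN j := step h12 1 (nonT Cert.cb 933 _ Cert.n933) rfl
  have h14 : ∀ j < 935, PN j := step h13 1 (nonT Cert.cb 934 _ Cert.n934) rfl
  have h15 : ∀ j < 936, PN j := step h14 1 (nonT Cert.cb 935 _ Cert.n935) rfl
  have h16 : ∀ j < 937, PN j := step h15 1 (nonT Cert.cb 936 _ Cert.n936) rfl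
  have h17 : ∀ j < 938, PN j := step h16 1 (nonT Cert.cb 937 _ Cert.n937) rfl
  have h18 : ∀ j < 939, PN j := step h17 1 (nonT Cert.cb 938 _ Cert.n938) rfl
  have h19 : ∀ j < 940, PN j := step h18 1 (nonT Cert.cb 939 _ Cert.n939) rfl
  have h20 : ∀ j < 941, PN j := step h19 1 (nonT Cert.cb 940 _ Cert.n940) rfl
  exact h20
theorem pn_34 : ∀ j < 962, PN j := by
  have h0 : ∀ j < 941, PN j := pn_33
  have h1 : ∀ j < 942, PN j := step h0 1 (nonT Cert.cb 941 _ Cert.n941) rfl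
  have h2 : ∀ j < 943, PN j := step h1 1 (nonT Cert.cb 942 _ Cert.n942) rfl
  have h3 : ∀ j < 944, PN j := step h2 1 (nonT Cert.cb 943 _ Cert.n943) rfl
  have h4 : ∀ j < 945, PN j := step h3 1 (nonT Cert.cb 944 _ Cert.n944) rfl
  have h5 : ∀ j < 946, PN j := step h4 1 (nonT Cert.cb 945 _ Cert.n945) rfl
  have h6 : ∀ j < 947, PN j := step h5 1 (nonT Cert.cb 946 _ Cert.n946) rfl
  have h7 : ∀ j < 948, PN j := step h6 1 (nonT Cert.cb 947 _ Cert.n947) rfl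
  have h8 : ∀ j < 949, PN j := step h7 1 (nonT Cert.cb 948 _ Cert.n948) rfl
  have h9 : ∀ j < 950, PN j := step h8 1 (nonT Cert.cb 949 _ Cert.n949) rfl
  have h10 : ∀ j < 951, PN j := step h9 1 (nonT Cert.cb 950 _ Cert.n950) rfl
  have h11 : ∀ j < 952, PN j := step h10 1 (nonT Cert.cb 951 _ Cert.n951) rfl
  have h12 : ∀ j < 953, PN j := step h11 1 (nonT Cert.cb 952 _ Cert.n952) rfl
  have h13 : ∀ j < 954, PN j := step h12 1 (nonT Cert.cb 953 _ Cert.n953) rfl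
  have h14 : ∀ j < 955, PN j := step h13 1 (nonT Cert.cb 954 _ Cert.n954) rfl
  have h15 : ∀ j < 956, PN j := step h14 1 (nonT Cert.cb 955 _ Cert.n955) rfl
  have h16 : ∀ j < 957, PN j := step h15 1 (nonT Cert.cb 956 _ Cert.n956) rfl
  have h17 : ∀ j < 958, PN j := step h16 1 (nonT Cert.cb 957 _ Cert.n957) rfl
  have h18 : ∀ j < 959, PN j := step h17 1 (nonT Cert.cb 958 _ Cert.n958) rfl
  have h19 : ∀ j < 960, PN j := step h18 1 (nonT Cert.cb 959 _ Cert.n959) rfl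
  have h20 : ∀ j < 962, PN j := step h19 2 (nonT Cert.cb 960 _ Cert.n960) rfl
  exact h20
theorem pn_35 : ∀ j < 982, PN j := by
  have h0 : ∀ j < 962, PN j := pn_34
  have h1 : ∀ j < 963, PN j := step h0 1 (nonT Cert.cb 962 _ Cert.n962) rfl
  have h2 : ∀ j < 964, PN j := step h1 1 (nonT Cert.cb 963 _ Cert.n963) rfl
  have h3 : ∀ j < 965, PN j := step h2 1 (nonT Cert.cb 964 _ Cert.n964) rfl
  have h4 : ∀ j < 966, PN j := step h3 1 (nonT Cert.cb 965 _ Cert.n965) rfl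
  have h5 : ∀ j < 967, PN j := step h4 1 (nonT Cert.cb 966 _ Cert.n966) rfl
  have h6 : ∀ j < 968, PN j := step h5 1 (nonT Cert.cb 967 _ Cert.n967) rfl
  have h7 : ∀ j < 969, PN j := step h6 1 (nonT Cert.cb 968 _ Cert.n968) rfl
  have h8 : ∀ j < 970, PN j := step h7 1 (nonT Cert.cb 969 _ Cert.n969) rfl
  have h9 : ∀ j < 971, PN j := step h8 1 (nonT Cert.cb 970 _ Cert.n970) rfl
  have h10 : ∀ j < 972, PN j := step h9 1 (nonT Cert.cb 971 _ Cert.n971) rfl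
  have h11 : ∀ j < 973, PN j := step h10 1 (nonT Cert.cb 972 _ Cert.n972) rfl
  have h12 : ∀ j < 974, PN j := step h11 1 (nonT Cert.cb 973 _ Cert.n973) rfl
  have h13 : ∀ j < 975, PN j := step h12 1 (nonT Cert.cb 974 _ Cert.n974) rfl
  have h14 : ∀ j < 976, PN j := step h13 1 (nonT Cert.cb 975 _ Cert.n975) rfl
  have h15 : ∀ j < 977, PN j := step h14 1 (nonT Cert.cb 976 _ Cert.n976) rfl
  have h16 : ∀ j < 978, PN j := step h15 1 (nonT Cert.cb 977 _ Cert.n977) rfl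
  have h17 : ∀ j < 979, PN j := step h16 1 (nonT Cert.cb 978 _ Cert.n978) rfl
  have h18 : ∀ j < 980, PN j := step h17 1 (nonT Cert.cb 979 _ Cert.n979) rfl
  have h19 : ∀ j < 981, PN j := step h18 1 (nonT Cert.cb 980 _ Cert.n980) rfl
  have h20 : ∀ j < 982, PN j := step h19 1 (nonT Cert.cb 981 _ Cert.n981) rfl
  exact h20
theorem pn_36 : ∀ j < 1003, PN j := by
  have h0 : ∀ j < 982, PN j := pn_35
  have h1 : ∀ j < 984, PN j := step h0 2 (nonT Cert.cb 982 _ Cert.n982) rfl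
  have h2 : ∀ j < 985, PN j := step h1 1 (nonT Cert.cb 984 _ Cert.n984) rfl
  have h3 : ∀ j < 986, PN j := step h2 1 (nonT Cert.cb 985 _ Cert.n985) rfl
  have h4 : ∀ j < 987, PN j := step h3 1 (nonT Cert.cb 986 _ Cert.n986) rfl
  have h5 : ∀ j < 988, PN j := step h4 1 (nonT Cert.cb 987 _ Cert.n987) rfl
  have h6 : ∀ j < 989, PN j := step h5 1 (nonT Cert.cb 988 _ Cert.n988) rfl
  have h7 : ∀ j < 990, PN j := step h6 1 (nonT Cert.cb 989 _ Cert.n989) rfl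
  have h8 : ∀ j < 991, PN j := step h7 1 (nonT Cert.cb 990 _ Cert.n990) rfl
  have h9 : ∀ j < 992, PN j := step h8 1 (nonT Cert.cb 991 _ Cert.n991) rfl
  have h10 : ∀ j < 993, PN j := step h9 1 (nonT Cert.cb 992 _ Cert.n992) rfl
  have h11 : ∀ j < 994, PN j := step h10 1 (nonT Cert.cb 993 _ Cert.n993) rfl
  have h12 : ∀ j < 995, PN j := step h11 1 (nonT Cert.cb 994 _ Cert.n994) rfl
  have h13 : ∀ j < 996, PN j := step h12 1 (nonT Cert.cb 995 _ Cert.n995) rfl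
  have h14 : ∀ j < 997, PN j := step h13 1 (nonT Cert.cb 996 _ Cert.n996) rfl
  have h15 : ∀ j < 998, PN j := step h14 1 (nonT Cert.cb 997 _ Cert.n997) rfl
  have h16 : ∀ j < 999, PN j := step h15 1 (nonT Cert.cb 998 _ Cert.n998) rfl
  have h17 : ∀ j < 1000, PN j := step h16 1 (nonT Cert.cb 999 _ Cert.n999) rfl
  have h18 : ∀ j < 1001, PN j := step h17 1 (nonT Cert.cb 1000 _ Cert.n1000) rfl
  have h19 : ∀ j < 1002, PN j := step h18 1 (nonT Cert.cb 1001 _ Cert.n1001) rfl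
  have h20 : ∀ j < 1003, PN j := step h19 1 (nonT Cert.cb 1002 _ Cert.n1002) rfl
  exact h20
theorem pn_37 : ∀ j < 1026, PN j := by
  have h0 : ∀ j < 1003, PN j := pn_36
  have h1 : ∀ j < 1004, PN j := step h0 1 (nonT Cert.cb 1003 _ Cert.n1003) rfl
  have h2 : ∀ j < 1005, PN j := step h1 1 (nonT Cert.cb 1004 _ Cert.n1004) rfl
  have h3 : ∀ j < 1006, PN j := step h2 1 (nonT Cert.cb 1005 _ Cert.n1005) rfl
  have h4 : ∀ j < 1007, PN j := step h3 1 (nonT Cert.cb 1006 _ Cert.n1006) rfl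
  have h5 : ∀ j < 1008, PN j := step h4 1 (nonT Cert.cb 1007 _ Cert.n1007) rfl
  have h6 : ∀ j < 1009, PN j := step h5 1 (nonT Cert.cb 1008 _ Cert.n1008) rfl
  have h7 : ∀ j < 1010, PN j := step h6 1 (nonT Cert.cb 1009 _ Cert.n1009) rfl
  have h8 : ∀ j < 1013, PN j := step h7 3 (nonT Cert.cb 1010 _ Cert.n1010) rfl
  have h9 : ∀ j < 1015, PN j := step h8 2 (nonT Cert.cb 1013 _ Cert.n1013) rfl
  have h10 : ∀ j < 1016, PN j := step h9 1 (nonT Cert.cb 1015 _ Cert.n1015) rfl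
  have h11 : ∀ j < 1017, PN j := step h10 1 (nonT Cert.cb 1016 _ Cert.n1016) rfl
  have h12 : ∀ j < 1018, PN j := step h11 1 (nonT Cert.cb 1017 _ Cert.n1017) rfl
  have h13 : ∀ j < 1019, PN j := step h12 1 (nonT Cert.cb 1018 _ Cert.n1018) rfl
  have h14 : ∀ j < 1020, PN j := step h13 1 (nonT Cert.cb 1019 _ Cert.n1019) rfl
  have h15 : ∀ j < 1021, PN j := step h14 1 (nonT Cert.cb 1020 _ Cert.n1020) rfl
  have h16 : ∀ j < 1022, PN j := step h15 1 (nonT Cert.cb 1021 _ Cert.n1021) rfl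
  have h17 : ∀ j < 1023, PN j := step h16 1 (nonT Cert.cb 1022 _ Cert.n1022) rfl
  have h18 : ∀ j < 1024, PN j := step h17 1 (nonT Cert.cb 1023 _ Cert.n1023) rfl
  have h19 : ∀ j < 1025, PN j := step h18 1 (nonT Cert.cb 1024 _ Cert.n1024) rfl
  have h20 : ∀ j < 1026, PN j := step h19 1 (nonT Cert.cb 1025 _ Cert.n1025) rfl
  exact h20
theorem pn_38 : ∀ j < 1053, PN j := by
  have h0 : ∀ j < 1026, PN j := pn_37
  have h1 : ∀ j < 1027, PN j := step h0 1 (nonT Cert.cb 1026 _ Cert.n1026) rfl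
  have h2 : ∀ j < 1028, PN j := step h1 1 (nonT Cert.cb 1027 _ Cert.n1027) rfl
  have h3 : ∀ j < 1030, PN j := step h2 2 (nonT Cert.cb 1028 _ Cert.n1028) rfl
  have h4 : ∀ j < 1032, PN j := step h3 2 (nonT Cert.cb 1030 _ Cert.n1030) rfl
  have h5 : ∀ j < 1034, PN j := step h4 2 (nonT Cert.cb 1032 _ Cert.n1032) rfl
  have h6 : ∀ j < 1036, PN j := step h5 2 (nonT Cert.cb 1034 _ Cert.n1034) rfl
  have h7 : ∀ j < 1038, PN j := step h6 2 (nonT Cert.cb 1036 _ Cert.n1036) rfl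
  have h8 : ∀ j < 1039, PN j := step h7 1 (nonT Cert.cb 1038 _ Cert.n1038) rfl
  have h9 : ∀ j < 1040, PN j := step h8 1 (nonT Cert.cb 1039 _ Cert.n1039) rfl
  have h10 : ∀ j < 1041, PN j := step h9 1 (nonT Cert.cb 1040 _ Cert.n1040) rfl
  have h11 : ∀ j < 1042, PN j := step h10 1 (nonT Cert.cb 1041 _ Cert.n1041) rfl
  have h12 : ∀ j < 1043, PN j := step h11 1 (nonT Cert.cb 1042 _ Cert.n1042) rfl
  have h13 : ∀ j < 1044, PN j := step h12 1 (nonT Cert.cb 1043 _ Cert.n1043) rfl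
  have h14 : ∀ j < 1045, PN j := step h13 1 (nonT Cert.cb 1044 _ Cert.n1044) rfl
  have h15 : ∀ j < 1046, PN j := step h14 1 (nonT Cert.cb 1045 _ Cert.n1045) rfl
  have h16 : ∀ j < 1047, PN j := step h15 1 (nonT Cert.cb 1046 _ Cert.n1046) rfl
  have h17 : ∀ j < 1048, PN j := step h16 1 (nonT Cert.cb 1047 _ Cert.n1047) rfl
  have h18 : ∀ j < 1050, PN j := step h17 2 (nonT Cert.cb 1048 _ Cert.n1048) rfl
  have h19 : ∀ j < 1052, PN j := step h18 2 (nonT Cert.cb 1050 _ Cert.n1050) rfl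
  have h20 : ∀ j < 1053, PN j := step h19 1 (nonT Cert.cb 1052 _ Cert.n1052) rfl
  exact h20
theorem pn_39 : ∀ j < 1078, PN j := by
  have h0 : ∀ j < 1053, PN j := pn_38
  have h1 : ∀ j < 1055, PN j := step h0 2 (nonT Cert.cb 1053 _ Cert.n1053) rfl
  have h2 : ∀ j < 1057, PN j := step h1 2 (nonT Cert.cb 1055 _ Cert.n1055) rfl
  have h3 : ∀ j < 1058, PN j := step h2 1 (nonT Cert.cb 1057 _ Cert.n1057) rfl
  have h4 : ∀ j < 1059, PN j := step h3 1 (nonT Cert.cb 1058 _ Cert.n1058) rfl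
  have h5 : ∀ j < 1060, PN j := step h4 1 (nonT Cert.cb 1059 _ Cert.n1059) rfl
  have h6 : ∀ j < 1061, PN j := step h5 1 (nonT Cert.cb 1060 _ Cert.n1060) rfl
  have h7 : ∀ j < 1062, PN j := step h6 1 (nonT Cert.cb 1061 _ Cert.n1061) rfl
  have h8 : ∀ j < 1063, PN j := step h7 1 (nonT Cert.cb 1062 _ Cert.n1062) rfl
  have h9 : ∀ j < 1065, PN j := step h8 2 (nonT Cert.cb 1063 _ Cert.n1063) rfl
  have h10 : ∀ j < 1067, PN j := step h9 2 (nonT Cert.cb 1065 _ Cert.n1065) rfl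
  have h11 : ∀ j < 1068, PN j := step h10 1 (nonT Cert.cb 1067 _ Cert.n1067) rfl
  have h12 : ∀ j < 1069, PN j := step h11 1 (nonT Cert.cb 1068 _ Cert.n1068) rfl
  have h13 : ∀ j < 1070, PN j := step h12 1 (nonT Cert.cb 1069 _ Cert.n1069) rfl
  have h14 : ∀ j < 1071, PN j := step h13 1 (nonT Cert.cb 1070 _ Cert.n1070) rfl
  have h15 : ∀ j < 1072, PN j := step h14 1 (nonT Cert.cb 1071 _ Cert.n1071) rfl
  have h16 : ∀ j < 1073, PN j := step h15 1 (nonT Cert.cb 1072 _ Cert.n1072) rfl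
  have h17 : ∀ j < 1074, PN j := step h16 1 (nonT Cert.cb 1073 _ Cert.n1073) rfl
  have h18 : ∀ j < 1075, PN j := step h17 1 (nonT Cert.cb 1074 _ Cert.n1074) rfl
  have h19 : ∀ j < 1076, PN j := step h18 1 (nonT Cert.cb 1075 _ Cert.n1075) rfl
  have h20 : ∀ j < 1078, PN j := step h19 2 (nonT Cert.cb 1076 _ Cert.n1076) rfl
  exact h20
theorem pn_40 : ∀ j < 1083, PN j := by
  have h0 : ∀ j < 1078, PN j := pn_39
  have h1 : ∀ j < 1079, PN j := step h0 1 (nonT Cert.cb 1078 _ Cert.n1078) rfl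
  have h2 : ∀ j < 1080, PN j := step h1 1 (nonT Cert.cb 1079 _ Cert.n1079) rfl
  have h3 : ∀ j < 1081, PN j := step h2 1 (nonT Cert.cb 1080 _ Cert.n1080) rfl
  have h4 : ∀ j < 1082, PN j := step h3 1 (nonT Cert.cb 1081 _ Cert.n1081) rfl
  have h5 : ∀ j < 1083, PN j := step h4 1 (nonT Cert.cb 1082 _ Cert.n1082) rfl
  exact h5

theorem pn : ∀ j < 1083, PN j := pn_40

end Pool.Agent.Refl.Fin
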