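import Pool.Agent.Helper23_Refl.FinC
import Pool.Agent.Helper23_Refl.Cert.OrbA0
import Pool.Agent.Helper23_Refl.Cert.OrbA1
import Pool.Agent.Helper23_Refl.Cert.OrbA2
import Pool.Agent.Helper23_Refl.Cert.OrbA3
import Pool.Agent.Helper23_Refl.Cert.OrbA4
import Pool.Agent.Helper23_Refl.Cert.OrbB0
import Pool.Agent.Helper23_Refl.Cert.OrbB1
import Pool.Agent.Helper23_Refl.Cert.OrbB2
import Pool.Agent.Helper23_Refl.Cert.OrbB3
import Pool.Agent.Helper23_Refl.Cert.OrbB4

/-!
# Sublattices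
-/

namespace Pool.Agent.Refl.Fin

open Matrix

theorem prl {a n b : ℕ} (hb : a + n ≤ b) (h : ∀ j < b, PR j) : ∀ i < n,
    Lat (mtab Cert.ta (a + i)) ∧ Reflective (mtab Cert.ta (a + i)) := by
  intro i hi
  have := h (a + i) (by omega)
  exact ⟨this.1, this.2.2⟩

/-- closures for the row `j` -/
def PO (j : ℕ) : Prop := OrbC Cert.ta j

theorem po_0 : ∀ j < 20, PO j := by
  have h0 : ∀ j < 0, PO j := step0
  have h1 : ∀ j < 1, PO j := step h0 1 (orbT Cert.ta 0 _ (prl (by decide) pr) Cert.o0) rfl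
  have h2 : ∀ j < 2, PO j := step h1 1 (orbT Cert.ta 1 _ (prl (by decide) pr) Cert.o1) rfl
  have h3 : ∀ j < 3, PO j := step h2 1 (orbT Cert.ta 2 _ (prl (by decide) pr) Cert.o2) rfl
  have h4 : ∀ j < 4, PO j := step h3 1 (orbT Cert.ta 3 _ (prl (by decide) pr) Cert.o3) rfl
  have h5 : ∀ j < 5, PO j := step h4 1 (orbT Cert.ta 4 _ (prl (by decide) pr) Cert.o4) rfl
  have h6 : ∀ j < 6, PO j := step h5 1 (orbT Cert.ta 5 _ (prl (by decide) pr) Cert.o5) rfl
  have h7 : ∀ j < 7, PO j := step h6 1 (orbT Cert.ta 6 _ (prl (by decide) pr) Cert.o6) rfl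
  have h8 : ∀ j < 8, PO j := step h7 1 (orbT Cert.ta 7 _ (prl (by decide) pr) Cert.o7) rfl
  have h9 : ∀ j < 9, PO j := step h8 1 (orbT Cert.ta 8 _ (prl (by decide) pr) Cert.o8) rfl
  have h10 : ∀ j < 10, PO j := step h9 1 (orbT Cert.ta 9 _ (prl (by decide) pr) Cert.o9) rfl
  have h11 : ∀ j < 11, PO j := step h10 1 (orbT Cert.ta 10 _ (prl (by decide) pr) Cert.o10) rfl
  have h12 : ∀ j < 12, PO j := step h11 1 (orbT Cert.ta 11 _ (prl (by decide) pr) Cert.o11) rfl
  have h13 : ∀ j < 13, PO j := step h12 1 (orbT Cert.ta 12 _ (prl (by decide) pr) Cert.o12) rfl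
  have h14 : ∀ j < 14, PO j := step h13 1 (orbT Cert.ta 13 _ (prl (by decide) pr) Cert.o13) rfl
  have h15 : ∀ j < 15, PO j := step h14 1 (orbT Cert.ta 14 _ (prl (by decide) pr) Cert.o14) rfl
  have h16 : ∀ j < 16, PO j := step h15 1 (orbT Cert.ta 15 _ (prl (by decide) pr) Cert.o15) rfl
  have h17 : ∀ j < 17, PO j := step h16 1 (orbT Cert.ta 16 _ (prl (by decide) pr) Cert.o16) rfl
  have h18 : ∀ j < 18, PO j := step h17 1 (orbT Cert.ta 17 _ (prl (by decide) pr) Cert.o17) rfl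
  have h19 : ∀ j < 19, PO j := step h18 1 (orbT Cert.ta 18 _ (prl (by decide) pr) Cert.o18) rfl
  have h20 : ∀ j < 20, PO j := step h19 1 (orbT Cert.ta 19 _ (prl (by decide) pr) Cert.o19) rfl
  exact h20
theorem po_1 : ∀ j < 40, PO j := by
  have h0 : ∀ j < 20, PO j := po_0
  have h1 : ∀ j < 21, PO j := step h0 1 (orbT Cert.ta 20 _ (prl (by decide) pr) Cert.o20) rfl
  have h2 : ∀ j < 22, PO j := step h1 1 (orbT Cert.ta 21 _ (prl (by decide) pr) Cert.o21) rfl
  have h3 : ∀ j < 23, PO j := step h2 1 (orbT Cert.ta 22 _ (prl (by decide) pr) Cert.o22) rfl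
  have h4 : ∀ j < 24, PO j := step h3 1 (orbT Cert.ta 23 _ (prl (by decide) pr) Cert.o23) rfl
  have h5 : ∀ j < 25, PO j := step h4 1 (orbT Cert.ta 24 _ (prl (by decide) pr) Cert.o24) rfl
  have h6 : ∀ j < 26, PO j := step h5 1 (orbT Cert.ta 25 _ (prl (by decide) pr) Cert.o25) rfl
  have h7 : ∀ j < 27, PO j := step h6 1 (orbT Cert.ta 26 _ (prl (by decide) pr) Cert.o26) rfl
  have h8 : ∀ j < 28, PO j := step h7 1 (orbT Cert.ta 27 _ (prl (by decide) pr) Cert.o27) rfl
  have h9 : ∀ j < 29, PO j := step h8 1 (orbT Cert.ta 28 _ (prl (by decide) pr) Cert.o28) rfl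
  have h10 : ∀ j < 30, PO j := step h9 1 (orbT Cert.ta 29 _ (prl (by decide) pr) Cert.o29) rfl
  have h11 : ∀ j < 31, PO j := step h10 1 (orbT Cert.ta 30 _ (prl (by decide) pr) Cert.o30) rfl
  have h12 : ∀ j < 32, PO j := step h11 1 (orbT Cert.ta 31 _ (prl (by decide) pr) Cert.o31) rfl
  have h13 : ∀ j < 33, PO j := step h12 1 (orbT Cert.ta 32 _ (prl (by decide) pr) Cert.o32) rfl
  have h14 : ∀ j < 34, PO j := step h13 1 (orbT Cert.ta 33 _ (prl (by decide) pr) Cert.o33) rfl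
  have h15 : ∀ j < 35, PO j := step h14 1 (orbT Cert.ta 34 _ (prl (by decide) pr) Cert.o34) rfl
  have h16 : ∀ j < 36, PO j := step h15 1 (orbT Cert.ta 35 _ (prl (by decide) pr) Cert.o35) rfl
  have h17 : ∀ j < 37, PO j := step h16 1 (orbT Cert.ta 36 _ (prl (by decide) pr) Cert.o36) rfl
  have h18 : ∀ j < 38, PO j := step h17 1 (orbT Cert.ta 37 _ (prl (by decide) pr) Cert.o37) rfl
  have h19 : ∀ j < 39, PO j := step h18 1 (orbT Cert.ta 38 _ (prl (by decide) pr) Cert.o38) rfl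
  have h20 : ∀ j < 40, PO j := step h19 1 (orbT Cert.ta 39 _ (prl (by decide) pr) Cert.o39) rfl
  exact h20
theorem po_2 : ∀ j < 60, PO j := by
  have h0 : ∀ j < 40, PO j := po_1
  have h1 : ∀ j < 41, PO j := step h0 1 (orbT Cert.ta 40 _ (prl (by decide) pr) Cert.o40) rfl
  have h2 : ∀ j < 42, PO j := step h1 1 (orbT Cert.ta 41 _ (prl (by decide) pr) Cert.o41) rfl
  have h3 : ∀ j < 43, PO j := step h2 1 (orbT Cert.ta 42 _ (prl (by decide) pr) Cert.o42) rfl
  have h4 : ∀ j < 44, PO j := step h3 1 (orbT Cert.ta 43 _ (prl (by decide) pr) Cert.o43) rfl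
  have h5 : ∀ j < 45, PO j := step h4 1 (orbT Cert.ta 44 _ (prl (by decide) pr) Cert.o44) rfl
  have h6 : ∀ j < 46, PO j := step h5 1 (orbT Cert.ta 45 _ (prl (by decide) pr) Cert.o45) rfl
  have h7 : ∀ j < 47, PO j := step h6 1 (orbT Cert.ta 46 _ (prl (by decide) pr) Cert.o46) rfl
  have h8 : ∀ j < 48, PO j := step h7 1 (orbT Cert.ta 47 _ (prl (by decide) pr) Cert.o47) rfl
  have h9 : ∀ j < 49, PO j := step h8 1 (orbT Cert.ta 48 _ (prl (by decide) pr) Cert.o48) rfl
  have h10 : ∀ j < 50, PO j := step h9 1 (orbT Cert.ta 49 _ (prl (by decide) pr) Cert.o49) rfl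
  have h11 : ∀ j < 51, PO j := step h10 1 (orbT Cert.ta 50 _ (prl (by decide) pr) Cert.o50) rfl
  have h12 : ∀ j < 52, PO j := step h11 1 (orbT Cert.ta 51 _ (prl (by decide) pr) Cert.o51) rfl
  have h13 : ∀ j < 53, PO j := step h12 1 (orbT Cert.ta 52 _ (prl (by decide) pr) Cert.o52) rfl
  have h14 : ∀ j < 54, PO j := step h13 1 (orbT Cert.ta 53 _ (prl (by decide) pr) Cert.o53) rfl
  have h15 : ∀ j < 55, PO j := step h14 1 (orbT Cert.ta 54 _ (prl (by decide) pr) Cert.o54) rfl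
  have h16 : ∀ j < 56, PO j := step h15 1 (orbT Cert.ta 55 _ (prl (by decide) pr) Cert.o55) rfl
  have h17 : ∀ j < 57, PO j := step h16 1 (orbT Cert.ta 56 _ (prl (by decide) pr) Cert.o56) rfl
  have h18 : ∀ j < 58, PO j := step h17 1 (orbT Cert.ta 57 _ (prl (by decide) pr) Cert.o57) rfl
  have h19 : ∀ j < 59, PO j := step h18 1 (orbT Cert.ta 58 _ (prl (by decide) pr) Cert.o58) rfl
  have h20 : ∀ j < 60, PO j := step h19 1 (orbT Cert.ta 59 _ (prl (by decide) pr) Cert.o59) rfl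
  exact h20
theorem po_3 : ∀ j < 80, PO j := by
  have h0 : ∀ j < 60, PO j := po_2
  have h1 : ∀ j < 61, PO j := step h0 1 (orbT Cert.ta 60 _ (prl (by decide) pr) Cert.o60) rfl
  have h2 : ∀ j < 62, PO j := step h1 1 (orbT Cert.ta 61 _ (prl (by decide) pr) Cert.o61) rfl
  have h3 : ∀ j < 63, PO j := step h2 1 (orbT Cert.ta 62 _ (prl (by decide) pr) Cert.o62) rfl
  have h4 : ∀ j < 64, PO j := step h3 1 (orbT Cert.ta 63 _ (prl (by decide) pr) Cert.o63) rfl
  have h5 : ∀ j < 65, PO j := step h4 1 (orbT Cert.ta 64 _ (prl (by decide) pr) Cert.o64) rfl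
  have h6 : ∀ j < 66, PO j := step h5 1 (orbT Cert.ta 65 _ (prl (by decide) pr) Cert.o65) rfl
  have h7 : ∀ j < 67, PO j := step h6 1 (orbT Cert.ta 66 _ (prl (by decide) pr) Cert.o66) rfl
  have h8 : ∀ j < 68, PO j := step h7 1 (orbT Cert.ta 67 _ (prl (by decide) pr) Cert.o67) rfl
  have h9 : ∀ j < 69, PO j := step h8 1 (orbT Cert.ta 68 _ (prl (by decide) pr) Cert.o68) rfl
  have h10 : ∀ j < 70, PO j := step h9 1 (orbT Cert.ta 69 _ (prl (by decide) pr) Cert.o69) rfl
  have h11 : ∀ j < 71, PO j := step h10 1 (orbT Cert.ta 70 _ (prl (by decide) pr) Cert.o70) rfl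
  have h12 : ∀ j < 72, PO j := step h11 1 (orbT Cert.ta 71 _ (prl (by decide) pr) Cert.o71) rfl
  have h13 : ∀ j < 73, PO j := step h12 1 (orbT Cert.ta 72 _ (prl (by decide) pr) Cert.o72) rfl
  have h14 : ∀ j < 74, PO j := step h13 1 (orbT Cert.ta 73 _ (prl (by decide) pr) Cert.o73) rfl
  have h15 : ∀ j < 75, PO j := step h14 1 (orbT Cert.ta 74 _ (prl (by decide) pr) Cert.o74) rfl
  have h16 : ∀ j < 76, PO j := step h15 1 (orbT Cert.ta 75 _ (prl (by decide) pr) Cert.o75) rfl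
  have h17 : ∀ j < 77, PO j := step h16 1 (orbT Cert.ta 76 _ (prl (by decide) pr) Cert.o76) rfl
  have h18 : ∀ j < 78, PO j := step h17 1 (orbT Cert.ta 77 _ (prl (by decide) pr) Cert.o77) rfl
  have h19 : ∀ j < 79, PO j := step h18 1 (orbT Cert.ta 78 _ (prl (by decide) pr) Cert.o78) rfl
  have h20 : ∀ j < 80, PO j := step h19 1 (orbT Cert.ta 79 _ (prl (by decide) pr) Cert.o79) rfl
  exact h20
theorem po_4 : ∀ j < 100, PO j := by
  have h0 : ∀ j < 80, PO j := po_3
  have h1 : ∀ j < 81, PO j := step h0 1 (orbT Cert.ta 80 _ (prl (by decide) pr) Cert.o80) rfl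
  have h2 : ∀ j < 82, PO j := step h1 1 (orbT Cert.ta 81 _ (prl (by decide) pr) Cert.o81) rfl
  have h3 : ∀ j < 83, PO j := step h2 1 (orbT Cert.ta 82 _ (prl (by decide) pr) Cert.o82) rfl
  have h4 : ∀ j < 84, PO j := step h3 1 (orbT Cert.ta 83 _ (prl (by decide) pr) Cert.o83) rfl
  have h5 : ∀ j < 85, PO j := step h4 1 (orbT Cert.ta 84 _ (prl (by decide) pr) Cert.o84) rfl
  have h6 : ∀ j < 86, PO j := step h5 1 (orbT Cert.ta 85 _ (prl (by decide) pr) Cert.o85) rfl
  have h7 : ∀ j < 87, PO j := step h6 1 (orbT Cert.ta 86 _ (prl (by decide) pr) Cert.o86) rfl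
  have h8 : ∀ j < 88, PO j := step h7 1 (orbT Cert.ta 87 _ (prl (by decide) pr) Cert.o87) rfl
  have h9 : ∀ j < 89, PO j := step h8 1 (orbT Cert.ta 88 _ (prl (by decide) pr) Cert.o88) rfl
  have h10 : ∀ j < 90, PO j := step h9 1 (orbT Cert.ta 89 _ (prl (by decide) pr) Cert.o89) rfl
  have h11 : ∀ j < 91, PO j := step h10 1 (orbT Cert.ta 90 _ (prl (by decide) pr) Cert.o90) rfl
  have h12 : ∀ j < 92, PO j := step h11 1 (orbT Cert.ta 91 _ (prl (by decide) pr) Cert.o91) rfl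
  have h13 : ∀ j < 93, PO j := step h12 1 (orbT Cert.ta 92 _ (prl (by decide) pr) Cert.o92) rfl
  have h14 : ∀ j < 94, PO j := step h13 1 (orbT Cert.ta 93 _ (prl (by decide) pr) Cert.o93) rfl
  have h15 : ∀ j < 95, PO j := step h14 1 (orbT Cert.ta 94 _ (prl (by decide) pr) Cert.o94) rfl
  have h16 : ∀ j < 96, PO j := step h15 1 (orbT Cert.ta 95 _ (prl (by decide) pr) Cert.o95) rfl
  have h17 : ∀ j < 97, PO j := step h16 1 (orbT Cert.ta 96 _ (prl (by decide) pr) Cert.o96) rfl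
  have h18 : ∀ j < 98, PO j := step h17 1 (orbT Cert.ta 97 _ (prl (by decide) pr) Cert.o97) rfl
  have h19 : ∀ j < 99, PO j := step h18 1 (orbT Cert.ta 98 _ (prl (by decide) pr) Cert.o98) rfl
  have h20 : ∀ j < 100, PO j := step h19 1 (orbT Cert.ta 99 _ (prl (by decide) pr) Cert.o99) rfl
  exact h20
theorem po_5 : ∀ j < 120, PO j := by
  have h0 : ∀ j < 100, PO j := po_4
  have h1 : ∀ j < 101, PO j := step h0 1 (orbT Cert.ta 100 _ (prl (by decide) pr) Cert.o100) rfl
  have h2 : ∀ j < 102, PO j := step h1 1 (orbT Cert.ta 101 _ (prl (by decide) pr) Cert.o101) rfl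
  have h3 : ∀ j < 103, PO j := step h2 1 (orbT Cert.ta 102 _ (prl (by decide) pr) Cert.o102) rfl
  have h4 : ∀ j < 104, PO j := step h3 1 (orbT Cert.ta 103 _ (prl (by decide) pr) Cert.o103) rfl
  have h5 : ∀ j < 105, PO j := step h4 1 (orbT Cert.ta 104 _ (prl (by decide) pr) Cert.o104) rfl
  have h6 : ∀ j < 106, PO j := step h5 1 (orbT Cert.ta 105 _ (prl (by decide) pr) Cert.o105) rfl
  have h7 : ∀ j < 107, PO j := step h6 1 (orbT Cert.ta 106 _ (prl (by decide) pr) Cert.o106) rfl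
  have h8 : ∀ j < 108, PO j := step h7 1 (orbT Cert.ta 107 _ (prl (by decide) pr) Cert.o107) rfl
  have h9 : ∀ j < 109, PO j := step h8 1 (orbT Cert.ta 108 _ (prl (by decide) pr) Cert.o108) rfl
  have h10 : ∀ j < 110, PO j := step h9 1 (orbT Cert.ta 109 _ (prl (by decide) pr) Cert.o109) rfl
  have h11 : ∀ j < 111, PO j := step h10 1 (orbT Cert.ta 110 _ (prl (by decide) pr) Cert.o110) rfl
  have h12 : ∀ j < 112, PO j := step h11 1 (orbT Cert.ta 111 _ (prl (by decide) pr) Cert.o111) rfl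
  have h13 : ∀ j < 113, PO j := step h12 1 (orbT Cert.ta 112 _ (prl (by decide) pr) Cert.o112) rfl
  have h14 : ∀ j < 114, PO j := step h13 1 (orbT Cert.ta 113 _ (prl (by decide) pr) Cert.o113) rfl
  have h15 : ∀ j < 115, PO j := step h14 1 (orbT Cert.ta 114 _ (prl (by decide) pr) Cert.o114) rfl
  have h16 : ∀ j < 116, PO j := step h15 1 (orbT Cert.ta 115 _ (prl (by decide) pr) Cert.o115) rfl
  have h17 : ∀ j < 117, PO j := step h16 1 (orbT Cert.ta 116 _ (prl (by decide) pr) Cert.o116) rfl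
  have h18 : ∀ j < 118, PO j := step h17 1 (orbT Cert.ta 117 _ (prl (by decide) pr) Cert.o117) rfl
  have h19 : ∀ j < 119, PO j := step h18 1 (orbT Cert.ta 118 _ (prl (by decide) pr) Cert.o118) rfl
  have h20 : ∀ j < 120, PO j := step h19 1 (orbT Cert.ta 119 _ (prl (by decide) pr) Cert.o119) rfl
  exact h20
theorem po_6 : ∀ j < 140, PO j := by
  have h0 : ∀ j < 120, PO j := po_5
  have h1 : ∀ j < 121, PO j := step h0 1 (orbT Cert.ta 120 _ (prl (by decide) pr) Cert.o120) rfl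
  have h2 : ∀ j < 122, PO j := step h1 1 (orbT Cert.ta 121 _ (prl (by decide) pr) Cert.o121) rfl
  have h3 : ∀ j < 123, PO j := step h2 1 (orbT Cert.ta 122 _ (prl (by decide) pr) Cert.o122) rfl
  have h4 : ∀ j < 124, PO j := step h3 1 (orbT Cert.ta 123 _ (prl (by decide) pr) Cert.o123) rfl
  have h5 : ∀ j < 125, PO j := step h4 1 (orbT Cert.ta 124 _ (prl (by decide) pr) Cert.o124) rfl
  have h6 : ∀ j < 126, PO j := step h5 1 (orbT Cert.ta 125 _ (prl (by decide) pr) Cert.o125) rfl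
  have h7 : ∀ j < 127, PO j := step h6 1 (orbT Cert.ta 126 _ (prl (by decide) pr) Cert.o126) rfl
  have h8 : ∀ j < 128, PO j := step h7 1 (orbT Cert.ta 127 _ (prl (by decide) pr) Cert.o127) rfl
  have h9 : ∀ j < 129, PO j := step h8 1 (orbT Cert.ta 128 _ (prl (by decide) pr) Cert.o128) rfl
  have h10 : ∀ j < 130, PO j := step h9 1 (orbT Cert.ta 129 _ (prl (by decide) pr) Cert.o129) rfl
  have h11 : ∀ j < 131, PO j := step h10 1 (orbT Cert.ta 130 _ (prl (by decide) pr) Cert.o130) rfl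
  have h12 : ∀ j < 132, PO j := step h11 1 (orbT Cert.ta 131 _ (prl (by decide) pr) Cert.o131) rfl
  have h13 : ∀ j < 133, PO j := step h12 1 (orbT Cert.ta 132 _ (prl (by decide) pr) Cert.o132) rfl
  have h14 : ∀ j < 134, PO j := step h13 1 (orbT Cert.ta 133 _ (prl (by decide) pr) Cert.o133) rfl
  have h15 : ∀ j < 135, PO j := step h14 1 (orbT Cert.ta 134 _ (prl (by decide) pr) Cert.o134) rfl
  have h16 : ∀ j < 136, PO j := step h15 1 (orbT Cert.ta 135 _ (prl (by decide) pr) Cert.o135) rfl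
  have h17 : ∀ j < 137, PO j := step h16 1 (orbT Cert.ta 136 _ (prl (by decide) pr) Cert.o136) rfl
  have h18 : ∀ j < 138, PO j := step h17 1 (orbT Cert.ta 137 _ (prl (by decide) pr) Cert.o137) rfl
  have h19 : ∀ j < 139, PO j := step h18 1 (orbT Cert.ta 138 _ (prl (by decide) pr) Cert.o138) rfl
  have h20 : ∀ j < 140, PO j := step h19 1 (orbT Cert.ta 139 _ (prl (by decide) pr) Cert.o139) rfl
  exact h20
theorem po_7 : ∀ j < 161, PO j := by
  have h0 : ∀ j < 140, PO j := po_6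
  have h1 : ∀ j < 141, PO j := step h0 1 (orbT Cert.ta 140 _ (prl (by decide) pr) Cert.o140) rfl
  have h2 : ∀ j < 142, PO j := step h1 1 (orbT Cert.ta 141 _ (prl (by decide) pr) Cert.o141) rfl
  have h3 : ∀ j < 143, PO j := step h2 1 (orbT Cert.ta 142 _ (prl (by decide) pr) Cert.o142) rfl
  have h4 : ∀ j < 145, PO j := step h3 2 (orbT Cert.ta 143 _ (prl (by decide) pr) Cert.o143) rfl
  have h5 : ∀ j < 146, PO j := step h4 1 (orbT Cert.ta 145 _ (prl (by decide) pr) Cert.o145) rfl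
  have h6 : ∀ j < 147, PO j := step h5 1 (orbT Cert.ta 146 _ (prl (by decide) pr) Cert.o146) rfl
  have h7 : ∀ j < 148, PO j := step h6 1 (orbT Cert.ta 147 _ (prl (by decide) pr) Cert.o147) rfl
  have h8 : ∀ j < 149, PO j := step h7 1 (orbT Cert.ta 148 _ (prl (by decide) pr) Cert.o148) rfl
  have h9 : ∀ j < 150, PO j := step h8 1 (orbT Cert.ta 149 _ (prl (by decide) pr) Cert.o149) rfl
  have h10 : ∀ j < 151, PO j := step h9 1 (orbT Cert.ta 150 _ (prl (by decide) pr) Cert.o150) rfl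
  have h11 : ∀ j < 152, PO j := step h10 1 (orbT Cert.ta 151 _ (prl (by decide) pr) Cert.o151) rfl
  have h12 : ∀ j < 153, PO j := step h11 1 (orbT Cert.ta 152 _ (prl (by decide) pr) Cert.o152) rfl
  have h13 : ∀ j < 154, PO j := step h12 1 (orbT Cert.ta 153 _ (prl (by decide) pr) Cert.o153) rfl
  have h14 : ∀ j < 155, PO j := step h13 1 (orbT Cert.ta 154 _ (prl (by decide) pr) Cert.o154) rfl
  have h15 : ∀ j < 156, PO j := step h14 1 (orbT Cert.ta 155 _ (prl (by decide) pr) Cert.o155) rfl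
  have h16 : ∀ j < 157, PO j := step h15 1 (orbT Cert.ta 156 _ (prl (by decide) pr) Cert.o156) rfl
  have h17 : ∀ j < 158, PO j := step h16 1 (orbT Cert.ta 157 _ (prl (by decide) pr) Cert.o157) rfl
  have h18 : ∀ j < 159, PO j := step h17 1 (orbT Cert.ta 158 _ (prl (by decide) pr) Cert.o158) rfl
  have h19 : ∀ j < 160, PO j := step h18 1 (orbT Cert.ta 159 _ (prl (by decide) pr) Cert.o159) rfl
  have h20 : ∀ j < 161, PO j := step h19 1 (orbT Cert.ta 160 _ (prl (by decide) pr) Cert.o160) rfl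
  exact h20
theorem po_8 : ∀ j < 181, PO j := by
  have h0 : ∀ j < 161, PO j := po_7
  have h1 : ∀ j < 162, PO j := step h0 1 (orbT Cert.ta 161 _ (prl (by decide) pr) Cert.o161) rfl
  have h2 : ∀ j < 163, PO j := step h1 1 (orbT Cert.ta 162 _ (prl (by decide) pr) Cert.o162) rfl
  have h3 : ∀ j < 164, PO j := step h2 1 (orbT Cert.ta 163 _ (prl (by decide) pr) Cert.o163) rfl
  have h4 : ∀ j < 165, PO j := step h3 1 (orbT Cert.ta 164 _ (prl (by decide) pr) Cert.o164) rfl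
  have h5 : ∀ j < 166, PO j := step h4 1 (orbT Cert.ta 165 _ (prl (by decide) pr) Cert.o165) rfl
  have h6 : ∀ j < 167, PO j := step h5 1 (orbT Cert.ta 166 _ (prl (by decide) pr) Cert.o166) rfl
  have h7 : ∀ j < 168, PO j := step h6 1 (orbT Cert.ta 167 _ (prl (by decide) pr) Cert.o167) rfl
  have h8 : ∀ j < 169, PO j := step h7 1 (orbT Cert.ta 168 _ (prl (by decide) pr) Cert.o168) rfl
  have h9 : ∀ j < 170, PO j := step h8 1 (orbT Cert.ta 169 _ (prl (by decide) pr) Cert.o169) rfl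
  have h10 : ∀ j < 171, PO j := step h9 1 (orbT Cert.ta 170 _ (prl (by decide) pr) Cert.o170) rfl
  have h11 : ∀ j < 172, PO j := step h10 1 (orbT Cert.ta 171 _ (prl (by decide) pr) Cert.o171) rfl
  have h12 : ∀ j < 173, PO j := step h11 1 (orbT Cert.ta 172 _ (prl (by decide) pr) Cert.o172) rfl
  have h13 : ∀ j < 174, PO j := step h12 1 (orbT Cert.ta 173 _ (prl (by decide) pr) Cert.o173) rfl
  have h14 : ∀ j < 175, PO j := step h13 1 (orbT Cert.ta 174 _ (prl (by decide) pr) Cert.o174) rfl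
  have h15 : ∀ j < 176, PO j := step h14 1 (orbT Cert.ta 175 _ (prl (by decide) pr) Cert.o175) rfl
  have h16 : ∀ j < 177, PO j := step h15 1 (orbT Cert.ta 176 _ (prl (by decide) pr) Cert.o176) rfl
  have h17 : ∀ j < 178, PO j := step h16 1 (orbT Cert.ta 177 _ (prl (by decide) pr) Cert.o177) rfl
  have h18 : ∀ j < 179, PO j := step h17 1 (orbT Cert.ta 178 _ (prl (by decide) pr) Cert.o178) rfl
  have h19 : ∀ j < 180, PO j := step h18 1 (orbT Cert.ta 179 _ (prl (by decide) pr) Cert.o179) rfl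
  have h20 : ∀ j < 181, PO j := step h19 1 (orbT Cert.ta 180 _ (prl (by decide) pr) Cert.o180) rfl
  exact h20
theorem po_9 : ∀ j < 201, PO j := by
  have h0 : ∀ j < 181, PO j := po_8
  have h1 : ∀ j < 182, PO j := step h0 1 (orbT Cert.ta 181 _ (prl (by decide) pr) Cert.o181) rfl
  have h2 : ∀ j < 183, PO j := step h1 1 (orbT Cert.ta 182 _ (prl (by decide) pr) Cert.o182) rfl
  have h3 : ∀ j < 184, PO j := step h2 1 (orbT Cert.ta 183 _ (prl (by decide) pr) Cert.o183) rfl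
  have h4 : ∀ j < 185, PO j := step h3 1 (orbT Cert.ta 184 _ (prl (by decide) pr) Cert.o184) rfl
  have h5 : ∀ j < 186, PO j := step h4 1 (orbT Cert.ta 185 _ (prl (by decide) pr) Cert.o185) rfl
  have h6 : ∀ j < 187, PO j := step h5 1 (orbT Cert.ta 186 _ (prl (by decide) pr) Cert.o186) rfl
  have h7 : ∀ j < 188, PO j := step h6 1 (orbT Cert.ta 187 _ (prl (by decide) pr) Cert.o187) rfl
  have h8 : ∀ j < 189, PO j := step h7 1 (orbT Cert.ta 188 _ (prl (by decide) pr) Cert.o188) rfl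
  have h9 : ∀ j < 190, PO j := step h8 1 (orbT Cert.ta 189 _ (prl (by decide) pr) Cert.o189) rfl
  have h10 : ∀ j < 191, PO j := step h9 1 (orbT Cert.ta 190 _ (prl (by decide) pr) Cert.o190) rfl
  have h11 : ∀ j < 192, PO j := step h10 1 (orbT Cert.ta 191 _ (prl (by decide) pr) Cert.o191) rfl
  have h12 : ∀ j < 193, PO j := step h11 1 (orbT Cert.ta 192 _ (prl (by decide) pr) Cert.o192) rfl
  have h13 : ∀ j < 194, PO j := step h12 1 (orbT Cert.ta 193 _ (prl (by decide) pr) Cert.o193) rfl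
  have h14 : ∀ j < 195, PO j := step h13 1 (orbT Cert.ta 194 _ (prl (by decide) pr) Cert.o194) rfl
  have h15 : ∀ j < 196, PO j := step h14 1 (orbT Cert.ta 195 _ (prl (by decide) pr) Cert.o195) rfl
  have h16 : ∀ j < 197, PO j := step h15 1 (orbT Cert.ta 196 _ (prl (by decide) pr) Cert.o196) rfl
  have h17 : ∀ j < 198, PO j := step h16 1 (orbT Cert.ta 197 _ (prl (by decide) pr) Cert.o197) rfl
  have h18 : ∀ j < 199, PO j := step h17 1 (orbT Cert.ta 198 _ (prl (by decide) pr) Cert.o198) rfl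
  have h19 : ∀ j < 200, PO j := step h18 1 (orbT Cert.ta 199 _ (prl (by decide) pr) Cert.o199) rfl
  have h20 : ∀ j < 201, PO j := step h19 1 (orbT Cert.ta 200 _ (prl (by decide) pr) Cert.o200) rfl
  exact h20
theorem po_10 : ∀ j < 224, PO j := by
  have h0 : ∀ j < 201, PO j := po_9
  have h1 : ∀ j < 202, PO j := step h0 1 (orbT Cert.ta 201 _ (prl (by decide) pr) Cert.o201) rfl
  have h2 : ∀ j < 203, PO j := step h1 1 (orbT Cert.ta 202 _ (prl (by decide) pr) Cert.o202) rfl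
  have h3 : ∀ j < 204, PO j := step h2 1 (orbT Cert.ta 203 _ (prl (by decide) pr) Cert.o203) rfl
  have h4 : ∀ j < 205, PO j := step h3 1 (orbT Cert.ta 204 _ (prl (by decide) pr) Cert.o204) rfl
  have h5 : ∀ j < 206, PO j := step h4 1 (orbT Cert.ta 205 _ (prl (by decide) pr) Cert.o205) rfl
  have h6 : ∀ j < 207, PO j := step h5 1 (orbT Cert.ta 206 _ (prl (by decide) pr) Cert.o206) rfl
  have h7 : ∀ j < 209, PO j := step h6 2 (orbT Cert.ta 207 _ (prl (by decide) pr) Cert.o207) rfl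
  have h8 : ∀ j < 211, PO j := step h7 2 (orbT Cert.ta 209 _ (prl (by decide) pr) Cert.o209) rfl
  have h9 : ∀ j < 212, PO j := step h8 1 (orbT Cert.ta 211 _ (prl (by decide) pr) Cert.o211) rfl
  have h10 : ∀ j < 213, PO j := step h9 1 (orbT Cert.ta 212 _ (prl (by decide) pr) Cert.o212) rfl
  have h11 : ∀ j < 214, PO j := step h10 1 (orbT Cert.ta 213 _ (prl (by decide) pr) Cert.o213) rfl
  have h12 : ∀ j < 215, PO j := step h11 1 (orbT Cert.ta 214 _ (prl (by decide) pr) Cert.o214) rfl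
  have h13 : ∀ j < 216, PO j := step h12 1 (orbT Cert.ta 215 _ (prl (by decide) pr) Cert.o215) rfl
  have h14 : ∀ j < 217, PO j := step h13 1 (orbT Cert.ta 216 _ (prl (by decide) pr) Cert.o216) rfl
  have h15 : ∀ j < 219, PO j := step h14 2 (orbT Cert.ta 217 _ (prl (by decide) pr) Cert.o217) rfl
  have h16 : ∀ j < 220, PO j := step h15 1 (orbT Cert.ta 219 _ (prl (by decide) pr) Cert.o219) rfl
  have h17 : ∀ j < 221, PO j := step h16 1 (orbT Cert.ta 220 _ (prl (by decide) pr) Cert.o220) rfl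
  have h18 : ∀ j < 222, PO j := step h17 1 (orbT Cert.ta 221 _ (prl (by decide) pr) Cert.o221) rfl
  have h19 : ∀ j < 223, PO j := step h18 1 (orbT Cert.ta 222 _ (prl (by decide) pr) Cert.o222) rfl
  have h20 : ∀ j < 224, PO j := step h19 1 (orbT Cert.ta 223 _ (prl (by decide) pr) Cert.o223) rfl
  exact h20
theorem po_11 : ∀ j < 246, PO j := by
  have h0 : ∀ j < 224, PO j := po_10
  have h1 : ∀ j < 225, PO j := step h0 1 (orbT Cert.ta 224 _ (prl (by decide) pr) Cert.o224) rfl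
  have h2 : ∀ j < 226, PO j := step h1 1 (orbT Cert.ta 225 _ (prl (by decide) pr) Cert.o225) rfl
  have h3 : ∀ j < 227, PO j := step h2 1 (orbT Cert.ta 226 _ (prl (by decide) pr) Cert.o226) rfl
  have h4 : ∀ j < 228, PO j := step h3 1 (orbT Cert.ta 227 _ (prl (by decide) pr) Cert.o227) rfl
  have h5 : ∀ j < 230, PO j := step h4 2 (orbT Cert.ta 228 _ (prl (by decide) pr) Cert.o228) rfl
  have h6 : ∀ j < 231, PO j := step h5 1 (orbT Cert.ta 230 _ (prl (by decide) pr) Cert.o230) rfl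
  have h7 : ∀ j < 232, PO j := step h6 1 (orbT Cert.ta 231 _ (prl (by decide) pr) Cert.o231) rfl
  have h8 : ∀ j < 233, PO j := step h7 1 (orbT Cert.ta 232 _ (prl (by decide) pr) Cert.o232) rfl
  have h9 : ∀ j < 234, PO j := step h8 1 (orbT Cert.ta 233 _ (prl (by decide) pr) Cert.o233) rfl
  have h10 : ∀ j < 235, PO j := step h9 1 (orbT Cert.ta 234 _ (prl (by decide) pr) Cert.o234) rfl
  have h11 : ∀ j < 236, PO j := step h10 1 (orbT Cert.ta 235 _ (prl (by decide) pr) Cert.o235) rfl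
  have h12 : ∀ j < 237, PO j := step h11 1 (orbT Cert.ta 236 _ (prl (by decide) pr) Cert.o236) rfl
  have h13 : ∀ j < 238, PO j := step h12 1 (orbT Cert.ta 237 _ (prl (by decide) pr) Cert.o237) rfl
  have h14 : ∀ j < 239, PO j := step h13 1 (orbT Cert.ta 238 _ (prl (by decide) pr) Cert.o238) rfl
  have h15 : ∀ j < 240, PO j := step h14 1 (orbT Cert.ta 239 _ (prl (by decide) pr) Cert.o239) rfl
  have h16 : ∀ j < 242, PO j := step h15 2 (orbT Cert.ta 240 _ (prl (by decide) pr) Cert.o240) rfl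
  have h17 : ∀ j < 243, PO j := step h16 1 (orbT Cert.ta 242 _ (prl (by decide) pr) Cert.o242) rfl
  have h18 : ∀ j < 244, PO j := step h17 1 (orbT Cert.ta 243 _ (prl (by decide) pr) Cert.o243) rfl
  have h19 : ∀ j < 245, PO j := step h18 1 (orbT Cert.ta 244 _ (prl (by decide) pr) Cert.o244) rfl
  have h20 : ∀ j < 246, PO j := step h19 1 (orbT Cert.ta 245 _ (prl (by decide) pr) Cert.o245) rfl
  exact h20
theorem po_12 : ∀ j < 268, PO j := by
  have h0 : ∀ j < 246, PO j := po_11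
  have h1 : ∀ j < 247, PO j := step h0 1 (orbT Cert.ta 246 _ (prl (by decide) pr) Cert.o246) rfl
  have h2 : ∀ j < 249, PO j := step h1 2 (orbT Cert.ta 247 _ (prl (by decide) pr) Cert.o247) rfl
  have h3 : ∀ j < 250, PO j := step h2 1 (orbT Cert.ta 249 _ (prl (by decide) pr) Cert.o249) rfl
  have h4 : ∀ j < 251, PO j := step h3 1 (orbT Cert.ta 250 _ (prl (by decide) pr) Cert.o250) rfl
  have h5 : ∀ j < 252, PO j := step h4 1 (orbT Cert.ta 251 _ (prl (by decide) pr) Cert.o251) rfl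
  have h6 : ∀ j < 253, PO j := step h5 1 (orbT Cert.ta 252 _ (prl (by decide) pr) Cert.o252) rfl
  have h7 : ∀ j < 254, PO j := step h6 1 (orbT Cert.ta 253 _ (prl (by decide) pr) Cert.o253) rfl
  have h8 : ∀ j < 255, PO j := step h7 1 (orbT Cert.ta 254 _ (prl (by decide) pr) Cert.o254) rfl
  have h9 : ∀ j < 257, PO j := step h8 2 (orbT Cert.ta 255 _ (prl (by decide) pr) Cert.o255) rfl
  have h10 : ∀ j < 258, PO j := step h9 1 (orbT Cert.ta 257 _ (prl (by decide) pr) Cert.o257) rfl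
  have h11 : ∀ j < 259, PO j := step h10 1 (orbT Cert.ta 258 _ (prl (by decide) pr) Cert.o258) rfl
  have h12 : ∀ j < 260, PO j := step h11 1 (orbT Cert.ta 259 _ (prl (by decide) pr) Cert.o259) rfl
  have h13 : ∀ j < 261, PO j := step h12 1 (orbT Cert.ta 260 _ (prl (by decide) pr) Cert.o260) rfl
  have h14 : ∀ j < 262, PO j := step h13 1 (orbT Cert.ta 261 _ (prl (by decide) pr) Cert.o261) rfl
  have h15 : ∀ j < 263, PO j := step h14 1 (orbT Cert.ta 262 _ (prl (by decide) pr) Cert.o262) rfl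
  have h16 : ∀ j < 264, PO j := step h15 1 (orbT Cert.ta 263 _ (prl (by decide) pr) Cert.o263) rfl
  have h17 : ∀ j < 265, PO j := step h16 1 (orbT Cert.ta 264 _ (prl (by decide) pr) Cert.o264) rfl
  have h18 : ∀ j < 266, PO j := step h17 1 (orbT Cert.ta 265 _ (prl (by decide) pr) Cert.o265) rfl
  have h19 : ∀ j < 267, PO j := step h18 1 (orbT Cert.ta 266 _ (prl (by decide) pr) Cert.o266) rfl
  have h20 : ∀ j < 268, PO j := step h19 1 (orbT Cert.ta 267 _ (prl (by decide) pr) Cert.o267) rfl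
  exact h20
theorem po_13 : ∀ j < 301, PO j := by
  have h0 : ∀ j < 268, PO j := po_12
  have h1 : ∀ j < 269, PO j := step h0 1 (orbT Cert.ta 268 _ (prl (by decide) pr) Cert.o268) rfl
  have h2 : ∀ j < 270, PO j := step h1 1 (orbT Cert.ta 269 _ (prl (by decide) pr) Cert.o269) rfl
  have h3 : ∀ j < 271, PO j := step h2 1 (orbT Cert.ta 270 _ (prl (by decide) pr) Cert.o270) rfl
  have h4 : ∀ j < 272, PO j := step h3 1 (orbT Cert.ta 271 _ (prl (by decide) pr) Cert.o271) rfl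
  have h5 : ∀ j < 273, PO j := step h4 1 (orbT Cert.ta 272 _ (prl (by decide) pr) Cert.o272) rfl
  have h6 : ∀ j < 274, PO j := step h5 1 (orbT Cert.ta 273 _ (prl (by decide) pr) Cert.o273) rfl
  have h7 : ∀ j < 275, PO j := step h6 1 (orbT Cert.ta 274 _ (prl (by decide) pr) Cert.o274) rfl
  have h8 : ∀ j < 276, PO j := step h7 1 (orbT Cert.ta 275 _ (prl (by decide) pr) Cert.o275) rfl
  have h9 : ∀ j < 277, PO j := step h8 1 (orbT Cert.ta 276 _ (prl (by decide) pr) Cert.o276) rfl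
  have h10 : ∀ j < 278, PO j := step h9 1 (orbT Cert.ta 277 _ (prl (by decide) pr) Cert.o277) rfl
  have h11 : ∀ j < 280, PO j := step h10 2 (orbT Cert.ta 278 _ (prl (by decide) pr) Cert.o278) rfl
  have h12 : ∀ j < 282, PO j := step h11 2 (orbT Cert.ta 280 _ (prl (by decide) pr) Cert.o280) rfl
  have h13 : ∀ j < 284, PO j := step h12 2 (orbT Cert.ta 282 _ (prl (by decide) pr) Cert.o282) rfl
  have h14 : ∀ j < 286, PO j := step h13 2 (orbT Cert.ta 284 _ (prl (by decide) pr) Cert.o284) rfl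
  have h15 : ∀ j < 287, PO j := step h14 1 (orbT Cert.ta 286 _ (prl (by decide) pr) Cert.o286) rfl
  have h16 : ∀ j < 288, PO j := step h15 1 (orbT Cert.ta 287 _ (prl (by decide) pr) Cert.o287) rfl
  have h17 : ∀ j < 289, PO j := step h16 1 (orbT Cert.ta 288 _ (prl (by decide) pr) Cert.o288) rfl
  have h18 : ∀ j < 292, PO j := step h17 3 (orbT Cert.ta 289 _ (prl (by decide) pr) Cert.o289) rfl
  have h19 : ∀ j < 296, PO j := step h18 4 (orbT Cert.ta 292 _ (prl (by decide) pr) Cert.o292) rfl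
  have h20 : ∀ j < 301, PO j := step h19 5 (orbT Cert.ta 296 _ (prl (by decide) pr) Cert.o296) rfl
  exact h20
theorem po_14 : ∀ j < 369, PO j := by
  have h0 : ∀ j < 301, PO j := po_13
  have h1 : ∀ j < 306, PO j := step h0 5 (orbT Cert.ta 301 _ (prl (by decide) pr) Cert.o301) rfl
  have h2 : ∀ j < 308, PO j := step h1 2 (orbT Cert.ta 306 _ (prl (by decide) pr) Cert.o306) rfl
  have h3 : ∀ j < 311, PO j := step h2 3 (orbT Cert.ta 308 _ (prl (by decide) pr) Cert.o308) rfl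
  have h4 : ∀ j < 314, PO j := step h3 3 (orbT Cert.ta 311 _ (prl (by decide) pr) Cert.o311) rfl
  have h5 : ∀ j < 318, PO j := step h4 4 (orbT Cert.ta 314 _ (prl (by decide) pr) Cert.o314) rfl
  have h6 : ∀ j < 321, PO j := step h5 3 (orbT Cert.ta 318 _ (prl (by decide) pr) Cert.o318) rfl
  have h7 : ∀ j < 325, PO j := step h6 4 (orbT Cert.ta 321 _ (prl (by decide) pr) Cert.o321) rfl
  have h8 : ∀ j < 328, PO j := step h7 3 (orbT Cert.ta 325 _ (prl (by decide) pr) Cert.o325) rfl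
  have h9 : ∀ j < 331, PO j := step h8 3 (orbT Cert.ta 328 _ (prl (by decide) pr) Cert.o328) rfl
  have h10 : ∀ j < 335, PO j := step h9 4 (orbT Cert.ta 331 _ (prl (by decide) pr) Cert.o331) rfl
  have h11 : ∀ j < 339, PO j := step h10 4 (orbT Cert.ta 335 _ (prl (by decide) pr) Cert.o335) rfl
  have h12 : ∀ j < 343, PO j := step h11 4 (orbT Cert.ta 339 _ (prl (by decide) pr) Cert.o339) rfl
  have h13 : ∀ j < 346, PO j := step h12 3 (orbT Cert.ta 343 _ (prl (by decide) pr) Cert.o343) rfl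
  have h14 : ∀ j < 350, PO j := step h13 4 (orbT Cert.ta 346 _ (prl (by decide) pr) Cert.o346) rfl
  have h15 : ∀ j < 353, PO j := step h14 3 (orbT Cert.ta 350 _ (prl (by decide) pr) Cert.o350) rfl
  have h16 : ∀ j < 356, PO j := step h15 3 (orbT Cert.ta 353 _ (prl (by decide) pr) Cert.o353) rfl
  have h17 : ∀ j < 360, PO j := step h16 4 (orbT Cert.ta 356 _ (prl (by decide) pr) Cert.o356) rfl
  have h18 : ∀ j < 363, PO j := step h17 3 (orbT Cert.ta 360 _ (prl (by decide) pr) Cert.o360) rfl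
  have h19 : ∀ j < 366, PO j := step h18 3 (orbT Cert.ta 363 _ (prl (by decide) pr) Cert.o363) rfl
  have h20 : ∀ j < 369, PO j := step h19 3 (orbT Cert.ta 366 _ (prl (by decide) pr) Cert.o366) rfl
  exact h20
theorem po_15 : ∀ j < 430, PO j := by
  have h0 : ∀ j < 369, PO j := po_14
  have h1 : ∀ j < 372, PO j := step h0 3 (orbT Cert.ta 369 _ (prl (by decide) pr) Cert.o369) rfl
  have h2 : ∀ j < 375, PO j := step h1 3 (orbT Cert.ta 372 _ (prl (by decide) pr) Cert.o372) rfl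
  have h3 : ∀ j < 378, PO j := step h2 3 (orbT Cert.ta 375 _ (prl (by decide) pr) Cert.o375) rfl
  have h4 : ∀ j < 380, PO j := step h3 2 (orbT Cert.ta 378 _ (prl (by decide) pr) Cert.o378) rfl
  have h5 : ∀ j < 383, PO j := step h4 3 (orbT Cert.ta 380 _ (prl (by decide) pr) Cert.o380) rfl
  have h6 : ∀ j < 386, PO j := step h5 3 (orbT Cert.ta 383 _ (prl (by decide) pr) Cert.o383) rfl
  have h7 : ∀ j < 388, PO j := step h6 2 (orbT Cert.ta 386 _ (prl (by decide) pr) Cert.o386) rfl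
  have h8 : ∀ j < 391, PO j := step h7 3 (orbT Cert.ta 388 _ (prl (by decide) pr) Cert.o388) rfl
  have h9 : ∀ j < 394, PO j := step h8 3 (orbT Cert.ta 391 _ (prl (by decide) pr) Cert.o391) rfl
  have h10 : ∀ j < 397, PO j := step h9 3 (orbT Cert.ta 394 _ (prl (by decide) pr) Cert.o394) rfl
  have h11 : ∀ j < 401, PO j := step h10 4 (orbT Cert.ta 397 _ (prl (by decide) pr) Cert.o397) rfl
  have h12 : ∀ j < 404, PO j := step h11 3 (orbT Cert.ta 401 _ (prl (by decide) pr) Cert.o401) rfl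
  have h13 : ∀ j < 408, PO j := step h12 4 (orbT Cert.ta 404 _ (prl (by decide) pr) Cert.o404) rfl
  have h14 : ∀ j < 411, PO j := step h13 3 (orbT Cert.ta 408 _ (prl (by decide) pr) Cert.o408) rfl
  have h15 : ∀ j < 414, PO j := step h14 3 (orbT Cert.ta 411 _ (prl (by decide) pr) Cert.o411) rfl
  have h16 : ∀ j < 418, PO j := step h15 4 (orbT Cert.ta 414 _ (prl (by decide) pr) Cert.o414) rfl
  have h17 : ∀ j < 421, PO j := step h16 3 (orbT Cert.ta 418 _ (prl (by decide) pr) Cert.o418) rfl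
  have h18 : ∀ j < 423, PO j := step h17 2 (orbT Cert.ta 421 _ (prl (by decide) pr) Cert.o421) rfl
  have h19 : ∀ j < 426, PO j := step h18 3 (orbT Cert.ta 423 _ (prl (by decide) pr) Cert.o423) rfl
  have h20 : ∀ j < 430, PO j := step h19 4 (orbT Cert.ta 426 _ (prl (by decide) pr) Cert.o426) rfl
  exact h20
theorem po_16 : ∀ j < 486, PO j := by
  have h0 : ∀ j < 430, PO j := po_15
  have h1 : ∀ j < 432, PO j := step h0 2 (orbT Cert.ta 430 _ (prl (by decide) pr) Cert.o430) rfl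
  have h2 : ∀ j < 435, PO j := step h1 3 (orbT Cert.ta 432 _ (prl (by decide) pr) Cert.o432) rfl
  have h3 : ∀ j < 438, PO j := step h2 3 (orbT Cert.ta 435 _ (prl (by decide) pr) Cert.o435) rfl
  have h4 : ∀ j < 442, PO j := step h3 4 (orbT Cert.ta 438 _ (prl (by decide) pr) Cert.o438) rfl
  have h5 : ∀ j < 445, PO j := step h4 3 (orbT Cert.ta 442 _ (prl (by decide) pr) Cert.o442) rfl
  have h6 : ∀ j < 448, PO j := step h5 3 (orbT Cert.ta 445 _ (prl (by decide) pr) Cert.o445) rfl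
  have h7 : ∀ j < 450, PO j := step h6 2 (orbT Cert.ta 448 _ (prl (by decide) pr) Cert.o448) rfl
  have h8 : ∀ j < 452, PO j := step h7 2 (orbT Cert.ta 450 _ (prl (by decide) pr) Cert.o450) rfl
  have h9 : ∀ j < 455, PO j := step h8 3 (orbT Cert.ta 452 _ (prl (by decide) pr) Cert.o452) rfl
  have h10 : ∀ j < 458, PO j := step h9 3 (orbT Cert.ta 455 _ (prl (by decide) pr) Cert.o455) rfl
  have h11 : ∀ j < 461, PO j := step h10 3 (orbT Cert.ta 458 _ (prl (by decide) pr) Cert.o458) rfl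
  have h12 : ∀ j < 464, PO j := step h11 3 (orbT Cert.ta 461 _ (prl (by decide) pr) Cert.o461) rfl
  have h13 : ∀ j < 466, PO j := step h12 2 (orbT Cert.ta 464 _ (prl (by decide) pr) Cert.o464) rfl
  have h14 : ∀ j < 469, PO j := step h13 3 (orbT Cert.ta 466 _ (prl (by decide) pr) Cert.o466) rfl
  have h15 : ∀ j < 472, PO j := step h14 3 (orbT Cert.ta 469 _ (prl (by decide) pr) Cert.o469) rfl
  have h16 : ∀ j < 475, PO j := step h15 3 (orbT Cert.ta 472 _ (prl (by decide) pr) Cert.o472) rfl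
  have h17 : ∀ j < 478, PO j := step h16 3 (orbT Cert.ta 475 _ (prl (by decide) pr) Cert.o475) rfl
  have h18 : ∀ j < 480, PO j := step h17 2 (orbT Cert.ta 478 _ (prl (by decide) pr) Cert.o478) rfl
  have h19 : ∀ j < 483, PO j := step h18 3 (orbT Cert.ta 480 _ (prl (by decide) pr) Cert.o480) rfl
  have h20 : ∀ j < 486, PO j := step h19 3 (orbT Cert.ta 483 _ (prl (by decide) pr) Cert.o483) rfl
  exact h20
theorem po_17 : ∀ j < 532, PO j := by
  have h0 : ∀ j < 486, PO j := po_16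
  have h1 : ∀ j < 489, PO j := step h0 3 (orbT Cert.ta 486 _ (prl (by decide) pr) Cert.o486) rfl
  have h2 : ∀ j < 492, PO j := step h1 3 (orbT Cert.ta 489 _ (prl (by decide) pr) Cert.o489) rfl
  have h3 : ∀ j < 496, PO j := step h2 4 (orbT Cert.ta 492 _ (prl (by decide) pr) Cert.o492) rfl
  have h4 : ∀ j < 500, PO j := step h3 4 (orbT Cert.ta 496 _ (prl (by decide) pr) Cert.o496) rfl
  have h5 : ∀ j < 503, PO j := step h4 3 (orbT Cert.ta 500 _ (prl (by decide) pr) Cert.o500) rfl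
  have h6 : ∀ j < 506, PO j := step h5 3 (orbT Cert.ta 503 _ (prl (by decide) pr) Cert.o503) rfl
  have h7 : ∀ j < 508, PO j := step h6 2 (orbT Cert.ta 506 _ (prl (by decide) pr) Cert.o506) rfl
  have h8 : ∀ j < 510, PO j := step h7 2 (orbT Cert.ta 508 _ (prl (by decide) pr) Cert.o508) rfl
  have h9 : ∀ j < 512, PO j := step h8 2 (orbT Cert.ta 510 _ (prl (by decide) pr) Cert.o510) rfl
  have h10 : ∀ j < 514, PO j := step h9 2 (orbT Cert.ta 512 _ (prl (by decide) pr) Cert.o512) rfl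
  have h11 : ∀ j < 516, PO j := step h10 2 (orbT Cert.ta 514 _ (prl (by decide) pr) Cert.o514) rfl
  have h12 : ∀ j < 518, PO j := step h11 2 (orbT Cert.ta 516 _ (prl (by decide) pr) Cert.o516) rfl
  have h13 : ∀ j < 520, PO j := step h12 2 (orbT Cert.ta 518 _ (prl (by decide) pr) Cert.o518) rfl
  have h14 : ∀ j < 521, PO j := step h13 1 (orbT Cert.ta 520 _ (prl (by decide) pr) Cert.o520) rfl
  have h15 : ∀ j < 522, PO j := step h14 1 (orbT Cert.ta 521 _ (prl (by decide) pr) Cert.o521) rfl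
  have h16 : ∀ j < 523, PO j := step h15 1 (orbT Cert.ta 522 _ (prl (by decide) pr) Cert.o522) rfl
  have h17 : ∀ j < 525, PO j := step h16 2 (orbT Cert.ta 523 _ (prl (by decide) pr) Cert.o523) rfl
  have h18 : ∀ j < 528, PO j := step h17 3 (orbT Cert.ta 525 _ (prl (by decide) pr) Cert.o525) rfl
  have h19 : ∀ j < 530, PO j := step h18 2 (orbT Cert.ta 528 _ (prl (by decide) pr) Cert.o528) rfl
  have h20 : ∀ j < 532, PO j := step h19 2 (orbT Cert.ta 530 _ (prl (by decide) pr) Cert.o530) rfl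
  exact h20
theorem po_18 : ∀ j < 581, PO j := by
  have h0 : ∀ j < 532, PO j := po_17
  have h1 : ∀ j < 533, PO j := step h0 1 (orbT Cert.ta 532 _ (prl (by decide) pr) Cert.o532) rfl
  have h2 : ∀ j < 536, PO j := step h1 3 (orbT Cert.ta 533 _ (prl (by decide) pr) Cert.o533) rfl
  have h3 : ∀ j < 538, PO j := step h2 2 (orbT Cert.ta 536 _ (prl (by decide) pr) Cert.o536) rfl
  have h4 : ∀ j < 540, PO j := step h3 2 (orbT Cert.ta 538 _ (prl (by decide) pr) Cert.o538) rfl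
  have h5 : ∀ j < 543, PO j := step h4 3 (orbT Cert.ta 540 _ (prl (by decide) pr) Cert.o540) rfl
  have h6 : ∀ j < 547, PO j := step h5 4 (orbT Cert.ta 543 _ (prl (by decide) pr) Cert.o543) rfl
  have h7 : ∀ j < 550, PO j := step h6 3 (orbT Cert.ta 547 _ (prl (by decide) pr) Cert.o547) rfl
  have h8 : ∀ j < 552, PO j := step h7 2 (orbT Cert.ta 550 _ (prl (by decide) pr) Cert.o550) rfl
  have h9 : ∀ j < 554, PO j := step h8 2 (orbT Cert.ta 552 _ (prl (by decide) pr) Cert.o552) rfl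
  have h10 : ∀ j < 556, PO j := step h9 2 (orbT Cert.ta 554 _ (prl (by decide) pr) Cert.o554) rfl
  have h11 : ∀ j < 558, PO j := step h10 2 (orbT Cert.ta 556 _ (prl (by decide) pr) Cert.o556) rfl
  have h12 : ∀ j < 560, PO j := step h11 2 (orbT Cert.ta 558 _ (prl (by decide) pr) Cert.o558) rfl
  have h13 : ∀ j < 562, PO j := step h12 2 (orbT Cert.ta 560 _ (prl (by decide) pr) Cert.o560) rfl
  have h14 : ∀ j < 564, PO j := step h13 2 (orbT Cert.ta 562 _ (prl (by decide) pr) Cert.o562) rfl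
  have h15 : ∀ j < 567, PO j := step h14 3 (orbT Cert.ta 564 _ (prl (by decide) pr) Cert.o564) rfl
  have h16 : ∀ j < 570, PO j := step h15 3 (orbT Cert.ta 567 _ (prl (by decide) pr) Cert.o567) rfl
  have h17 : ∀ j < 573, PO j := step h16 3 (orbT Cert.ta 570 _ (prl (by decide) pr) Cert.o570) rfl
  have h18 : ∀ j < 576, PO j := step h17 3 (orbT Cert.ta 573 _ (prl (by decide) pr) Cert.o573) rfl
  have h19 : ∀ j < 578, PO j := step h18 2 (orbT Cert.ta 576 _ (prl (by decide) pr) Cert.o576) rfl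
  have h20 : ∀ j < 581, PO j := step h19 3 (orbT Cert.ta 578 _ (prl (by decide) pr) Cert.o578) rfl
  exact h20
theorem po_19 : ∀ j < 632, PO j := by
  have h0 : ∀ j < 581, PO j := po_18
  have h1 : ∀ j < 584, PO j := step h0 3 (orbT Cert.ta 581 _ (prl (by decide) pr) Cert.o581) rfl
  have h2 : ∀ j < 587, PO j := step h1 3 (orbT Cert.ta 584 _ (prl (by decide) pr) Cert.o584) rfl
  have h3 : ∀ j < 590, PO j := step h2 3 (orbT Cert.ta 587 _ (prl (by decide) pr) Cert.o587) rfl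
  have h4 : ∀ j < 592, PO j := step h3 2 (orbT Cert.ta 590 _ (prl (by decide) pr) Cert.o590) rfl
  have h5 : ∀ j < 596, PO j := step h4 4 (orbT Cert.ta 592 _ (prl (by decide) pr) Cert.o592) rfl
  have h6 : ∀ j < 599, PO j := step h5 3 (orbT Cert.ta 596 _ (prl (by decide) pr) Cert.o596) rfl
  have h7 : ∀ j < 602, PO j := step h6 3 (orbT Cert.ta 599 _ (prl (by decide) pr) Cert.o599) rfl
  have h8 : ∀ j < 606, PO j := step h7 4 (orbT Cert.ta 602 _ (prl (by decide) pr) Cert.o602) rfl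
  have h9 : ∀ j < 608, PO j := step h8 2 (orbT Cert.ta 606 _ (prl (by decide) pr) Cert.o606) rfl
  have h10 : ∀ j < 610, PO j := step h9 2 (orbT Cert.ta 608 _ (prl (by decide) pr) Cert.o608) rfl
  have h11 : ∀ j < 612, PO j := step h10 2 (orbT Cert.ta 610 _ (prl (by decide) pr) Cert.o610) rfl
  have h12 : ∀ j < 615, PO j := step h11 3 (orbT Cert.ta 612 _ (prl (by decide) pr) Cert.o612) rfl
  have h13 : ∀ j < 618, PO j := step h12 3 (orbT Cert.ta 615 _ (prl (by decide) pr) Cert.o615) rfl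
  have h14 : ∀ j < 620, PO j := step h13 2 (orbT Cert.ta 618 _ (prl (by decide) pr) Cert.o618) rfl
  have h15 : ∀ j < 622, PO j := step h14 2 (orbT Cert.ta 620 _ (prl (by decide) pr) Cert.o620) rfl
  have h16 : ∀ j < 623, PO j := step h15 1 (orbT Cert.ta 622 _ (prl (by decide) pr) Cert.o622) rfl
  have h17 : ∀ j < 625, PO j := step h16 2 (orbT Cert.ta 623 _ (prl (by decide) pr) Cert.o623) rfl
  have h18 : ∀ j < 627, PO j := step h17 2 (orbT Cert.ta 625 _ (prl (by decide) pr) Cert.o625) rfl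
  have h19 : ∀ j < 630, PO j := step h18 3 (orbT Cert.ta 627 _ (prl (by decide) pr) Cert.o627) rfl
  have h20 : ∀ j < 632, PO j := step h19 2 (orbT Cert.ta 630 _ (prl (by decide) pr) Cert.o630) rfl
  exact h20
theorem po_20 : ∀ j < 701, PO j := by
  have h0 : ∀ j < 632, PO j := po_19
  have h1 : ∀ j < 634, PO j := step h0 2 (orbT Cert.ta 632 _ (prl (by decide) pr) Cert.o632) rfl
  have h2 : ∀ j < 638, PO j := step h1 4 (orbT Cert.ta 634 _ (prl (by decide) pr) Cert.o634) rfl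
  have h3 : ∀ j < 642, PO j := step h2 4 (orbT Cert.ta 638 _ (prl (by decide) pr) Cert.o638) rfl
  have h4 : ∀ j < 646, PO j := step h3 4 (orbT Cert.ta 642 _ (prl (by decide) pr) Cert.o642) rfl
  have h5 : ∀ j < 650, PO j := step h4 4 (orbT Cert.ta 646 _ (prl (by decide) pr) Cert.o646) rfl
  have h6 : ∀ j < 653, PO j := step h5 3 (orbT Cert.ta 650 _ (prl (by decide) pr) Cert.o650) rfl
  have h7 : ∀ j < 656, PO j := step h6 3 (orbT Cert.ta 653 _ (prl (by decide) pr) Cert.o653) rfl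
  have h8 : ∀ j < 659, PO j := step h7 3 (orbT Cert.ta 656 _ (prl (by decide) pr) Cert.o656) rfl
  have h9 : ∀ j < 662, PO j := step h8 3 (orbT Cert.ta 659 _ (prl (by decide) pr) Cert.o659) rfl
  have h10 : ∀ j < 665, PO j := step h9 3 (orbT Cert.ta 662 _ (prl (by decide) pr) Cert.o662) rfl
  have h11 : ∀ j < 668, PO j := step h10 3 (orbT Cert.ta 665 _ (prl (by decide) pr) Cert.o665) rfl
  have h12 : ∀ j < 671, PO j := step h11 3 (orbT Cert.ta 668 _ (prl (by decide) pr) Cert.o668) rfl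
  have h13 : ∀ j < 675, PO j := step h12 4 (orbT Cert.ta 671 _ (prl (by decide) pr) Cert.o671) rfl
  have h14 : ∀ j < 679, PO j := step h13 4 (orbT Cert.ta 675 _ (prl (by decide) pr) Cert.o675) rfl
  have h15 : ∀ j < 683, PO j := step h14 4 (orbT Cert.ta 679 _ (prl (by decide) pr) Cert.o679) rfl
  have h16 : ∀ j < 687, PO j := step h15 4 (orbT Cert.ta 683 _ (prl (by decide) pr) Cert.o683) rfl
  have h17 : ∀ j < 691, PO j := step h16 4 (orbT Cert.ta 687 _ (prl (by decide) pr) Cert.o687) rfl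
  have h18 : ∀ j < 695, PO j := step h17 4 (orbT Cert.ta 691 _ (prl (by decide) pr) Cert.o691) rfl
  have h19 : ∀ j < 698, PO j := step h18 3 (orbT Cert.ta 695 _ (prl (by decide) pr) Cert.o695) rfl
  have h20 : ∀ j < 701, PO j := step h19 3 (orbT Cert.ta 698 _ (prl (by decide) pr) Cert.o698) rfl
  exact h20
theorem po_21 : ∀ j < 771, PO j := by
  have h0 : ∀ j < 701, PO j := po_20
  have h1 : ∀ j < 704, PO j := step h0 3 (orbT Cert.ta 701 _ (prl (by decide) pr) Cert.o701) rfl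
  have h2 : ∀ j < 708, PO j := step h1 4 (orbT Cert.ta 704 _ (prl (by decide) pr) Cert.o704) rfl
  have h3 : ∀ j < 712, PO j := step h2 4 (orbT Cert.ta 708 _ (prl (by decide) pr) Cert.o708) rfl
  have h4 : ∀ j < 716, PO j := step h3 4 (orbT Cert.ta 712 _ (prl (by decide) pr) Cert.o712) rfl
  have h5 : ∀ j < 720, PO j := step h4 4 (orbT Cert.ta 716 _ (prl (by decide) pr) Cert.o716) rfl
  have h6 : ∀ j < 723, PO j := step h5 3 (orbT Cert.ta 720 _ (prl (by decide) pr) Cert.o720) rfl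
  have h7 : ∀ j < 726, PO j := step h6 3 (orbT Cert.ta 723 _ (prl (by decide) pr) Cert.o723) rfl
  have h8 : ∀ j < 728, PO j := step h7 2 (orbT Cert.ta 726 _ (prl (by decide) pr) Cert.o726) rfl
  have h9 : ∀ j < 732, PO j := step h8 4 (orbT Cert.ta 728 _ (prl (by decide) pr) Cert.o728) rfl
  have h10 : ∀ j < 734, PO j := step h9 2 (orbT Cert.ta 732 _ (prl (by decide) pr) Cert.o732) rfl
  have h11 : ∀ j < 738, PO j := step h10 4 (orbT Cert.ta 734 _ (prl (by decide) pr) Cert.o734) rfl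
  have h12 : ∀ j < 742, PO j := step h11 4 (orbT Cert.ta 738 _ (prl (by decide) pr) Cert.o738) rfl
  have h13 : ∀ j < 745, PO j := step h12 3 (orbT Cert.ta 742 _ (prl (by decide) pr) Cert.o742) rfl
  have h14 : ∀ j < 749, PO j := step h13 4 (orbT Cert.ta 745 _ (prl (by decide) pr) Cert.o745) rfl
  have h15 : ∀ j < 753, PO j := step h14 4 (orbT Cert.ta 749 _ (prl (by decide) pr) Cert.o749) rfl
  have h16 : ∀ j < 756, PO j := step h15 3 (orbT Cert.ta 753 _ (prl (by decide) pr) Cert.o753) rfl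
  have h17 : ∀ j < 760, PO j := step h16 4 (orbT Cert.ta 756 _ (prl (by decide) pr) Cert.o756) rfl
  have h18 : ∀ j < 764, PO j := step h17 4 (orbT Cert.ta 760 _ (prl (by decide) pr) Cert.o760) rfl
  have h19 : ∀ j < 767, PO j := step h18 3 (orbT Cert.ta 764 _ (prl (by decide) pr) Cert.o764) rfl
  have h20 : ∀ j < 771, PO j := step h19 4 (orbT Cert.ta 767 _ (prl (by decide) pr) Cert.o767) rfl
  exact h20
theorem po_22 : ∀ j < 841, PO j := by
  have h0 : ∀ j < 771, PO j := po_21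
  have h1 : ∀ j < 775, PO j := step h0 4 (orbT Cert.ta 771 _ (prl (by decide) pr) Cert.o771) rfl
  have h2 : ∀ j < 778, PO j := step h1 3 (orbT Cert.ta 775 _ (prl (by decide) pr) Cert.o775) rfl
  have h3 : ∀ j < 782, PO j := step h2 4 (orbT Cert.ta 778 _ (prl (by decide) pr) Cert.o778) rfl
  have h4 : ∀ j < 786, PO j := step h3 4 (orbT Cert.ta 782 _ (prl (by decide) pr) Cert.o782) rfl
  have h5 : ∀ j < 790, PO j := step h4 4 (orbT Cert.ta 786 _ (prl (by decide) pr) Cert.o786) rfl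
  have h6 : ∀ j < 794, PO j := step h5 4 (orbT Cert.ta 790 _ (prl (by decide) pr) Cert.o790) rfl
  have h7 : ∀ j < 797, PO j := step h6 3 (orbT Cert.ta 794 _ (prl (by decide) pr) Cert.o794) rfl
  have h8 : ∀ j < 800, PO j := step h7 3 (orbT Cert.ta 797 _ (prl (by decide) pr) Cert.o797) rfl
  have h9 : ∀ j < 804, PO j := step h8 4 (orbT Cert.ta 800 _ (prl (by decide) pr) Cert.o800) rfl
  have h10 : ∀ j < 808, PO j := step h9 4 (orbT Cert.ta 804 _ (prl (by decide) pr) Cert.o804) rfl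
  have h11 : ∀ j < 812, PO j := step h10 4 (orbT Cert.ta 808 _ (prl (by decide) pr) Cert.o808) rfl
  have h12 : ∀ j < 816, PO j := step h11 4 (orbT Cert.ta 812 _ (prl (by decide) pr) Cert.o812) rfl
  have h13 : ∀ j < 820, PO j := step h12 4 (orbT Cert.ta 816 _ (prl (by decide) pr) Cert.o816) rfl
  have h14 : ∀ j < 824, PO j := step h13 4 (orbT Cert.ta 820 _ (prl (by decide) pr) Cert.o820) rfl
  have h15 : ∀ j < 827, PO j := step h14 3 (orbT Cert.ta 824 _ (prl (by decide) pr) Cert.o824) rfl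
  have h16 : ∀ j < 831, PO j := step h15 4 (orbT Cert.ta 827 _ (prl (by decide) pr) Cert.o827) rfl
  have h17 : ∀ j < 833, PO j := step h16 2 (orbT Cert.ta 831 _ (prl (by decide) pr) Cert.o831) rfl
  have h18 : ∀ j < 836, PO j := step h17 3 (orbT Cert.ta 833 _ (prl (by decide) pr) Cert.o833) rfl
  have h19 : ∀ j < 839, PO j := step h18 3 (orbT Cert.ta 836 _ (prl (by decide) pr) Cert.o836) rfl
  have h20 : ∀ j < 841, PO j := step h19 2 (orbT Cert.ta 839 _ (prl (by decide) pr) Cert.o839) rfl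
  exact h20
theorem po_23 : ∀ j < 903, PO j := by
  have h0 : ∀ j < 841, PO j := po_22
  have h1 : ∀ j < 843, PO j := step h0 2 (orbT Cert.ta 841 _ (prl (by decide) pr) Cert.o841) rfl
  have h2 : ∀ j < 846, PO j := step h1 3 (orbT Cert.ta 843 _ (prl (by decide) pr) Cert.o843) rfl
  have h3 : ∀ j < 850, PO j := step h2 4 (orbT Cert.ta 846 _ (prl (by decide) pr) Cert.o846) rfl
  have h4 : ∀ j < 852, PO j := step h3 2 (orbT Cert.ta 850 _ (prl (by decide) pr) Cert.o850) rfl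
  have h5 : ∀ j < 856, PO j := step h4 4 (orbT Cert.ta 852 _ (prl (by decide) pr) Cert.o852) rfl
  have h6 : ∀ j < 859, PO j := step h5 3 (orbT Cert.ta 856 _ (prl (by decide) pr) Cert.o856) rfl
  have h7 : ∀ j < 862, PO j := step h6 3 (orbT Cert.ta 859 _ (prl (by decide) pr) Cert.o859) rfl
  have h8 : ∀ j < 866, PO j := step h7 4 (orbT Cert.ta 862 _ (prl (by decide) pr) Cert.o862) rfl
  have h9 : ∀ j < 870, PO j := step h8 4 (orbT Cert.ta 866 _ (prl (by decide) pr) Cert.o866) rfl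
  have h10 : ∀ j < 873, PO j := step h9 3 (orbT Cert.ta 870 _ (prl (by decide) pr) Cert.o870) rfl
  have h11 : ∀ j < 875, PO j := step h10 2 (orbT Cert.ta 873 _ (prl (by decide) pr) Cert.o873) rfl
  have h12 : ∀ j < 878, PO j := step h11 3 (orbT Cert.ta 875 _ (prl (by decide) pr) Cert.o875) rfl
  have h13 : ∀ j < 881, PO j := step h12 3 (orbT Cert.ta 878 _ (prl (by decide) pr) Cert.o878) rfl
  have h14 : ∀ j < 885, PO j := step h13 4 (orbT Cert.ta 881 _ (prl (by decide) pr) Cert.o881) rfl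
  have h15 : ∀ j < 887, PO j := step h14 2 (orbT Cert.ta 885 _ (prl (by decide) pr) Cert.o885) rfl
  have h16 : ∀ j < 890, PO j := step h15 3 (orbT Cert.ta 887 _ (prl (by decide) pr) Cert.o887) rfl
  have h17 : ∀ j < 893, PO j := step h16 3 (orbT Cert.ta 890 _ (prl (by decide) pr) Cert.o890) rfl
  have h18 : ∀ j < 896, PO j := step h17 3 (orbT Cert.ta 893 _ (prl (by decide) pr) Cert.o893) rfl
  have h19 : ∀ j < 899, PO j := step h18 3 (orbT Cert.ta 896 _ (prl (by decide) pr) Cert.o896) rfl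
  have h20 : ∀ j < 903, PO j := step h19 4 (orbT Cert.ta 899 _ (prl (by decide) pr) Cert.o899) rfl
  exact h20
theorem po_24 : ∀ j < 919, PO j := by
  have h0 : ∀ j < 903, PO j := po_23
  have h1 : ∀ j < 907, PO j := step h0 4 (orbT Cert.ta 903 _ (prl (by decide) pr) Cert.o903) rfl
  have h2 : ∀ j < 911, PO j := step h1 4 (orbT Cert.ta 907 _ (prl (by decide) pr) Cert.o907) rfl
  have h3 : ∀ j < 915, PO j := step h2 4 (orbT Cert.ta 911 _ (prl (by decide) pr) Cert.o911) rfl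
  have h4 : ∀ j < 919, PO j := step h3 4 (orbT Cert.ta 915 _ (prl (by decide) pr) Cert.o915) rfl
  exact h4

theorem po : ∀ j < 919, PO j := po_24

end Pool.Agent.Refl.Fin
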