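import Pool.Agent.Helper23_Refl.KCmp

/-!
# Kernel functions: sublattices between `R` and `p R`
-/

namespace Pool.Agent.Refl.K

noncomputable section

/-! ### vectors modulo `m ≤ 127`: digits in base `2 ^ 16` -/

@[reducible] def S1 : Nat := 65536
@[reducible] def S2 : Nat := 4294967296
@[reducible] def S3 : Nat := 281474976710656

def dig0 (x : Nat) : Nat := Nat.mod x S1
def dig1 (x : Nat) : Nat := Nat.mod (Nat.div x S1) S1
def dig2 (x : Nat) : Nat := Nat.mod (Nat.div x S2) S1
def dig3 (x : Nat) : Nat := Nat.div x S3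

/-- pack four digits -/
def p4 (a b c d : Nat) : Nat := Nat.add (Nat.add a (Nat.mul S1 b)) (Nat.add (Nat.mul S2 c) (Nat.mul S3 d))

/-- reduce the digits modulo `m` -/
def redm (m x : Nat) : Nat :=
  p4 (Nat.mod (dig0 x) m) (Nat.mod (dig1 x) m) (Nat.mod (dig2 x) m) (Nat.mod (dig3 x) m)

/-- a matrix: packed columns and packed rows modulo `p`, packed columns modulo `M` -/
structure Gp where
  c0 : Nat
  c1 : Nat
  c2 : Nat
  c3 : Nat
  r0 : Nat
  r1 : Nat
  r2 : Nat
  r3 : Nat
  m0 : Nat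
  m1 : Nat
  m2 : Nat
  m3 : Nat

/-- combination of four packed vectors with the digits of `x` -/
def lin4 (a b c d x : Nat) : Nat :=
  Nat.add (Nat.add (Nat.mul (dig0 x) a) (Nat.mul (dig1 x) b))
    (Nat.add (Nat.mul (dig2 x) c) (Nat.mul (dig3 x) d))

/-- image of a vector, modulo `m` -/
def actC (g : Gp) (m x : Nat) : Nat := fc (lin4 g.c0 g.c1 g.c2 g.c3 x) fun y => redm m y
/-- image of a normal vector under the transposed matrix, modulo `m` -/
def actR (g : Gp) (m x : Nat) : Nat := fc (lin4 g.r0 g.r1 g.r2 g.r3 x) fun y => redm m y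
/-- image of a vector, modulo `M` -/
def actM (g : Gp) (M x : Nat) : Nat := fc (lin4 g.m0 g.m1 g.m2 g.m3 x) fun y => redm M y

/-- inverse modulo a prime -/
def invp (p a : Nat) : Nat := Nat.mod (Nat.pow a (Nat.sub p 2)) p

/-- normalize: the first nonzero digit becomes `1` -/
def nrmP (p x : Nat) : Nat :=
  fc (dig0 x) fun a => Nat.rec
    (fc (dig1 x) fun a => Nat.rec
      (fc (dig2 x) fun a => Nat.rec
        (p4 0 0 0 (Bool.rec 1 0 (Nat.beq (dig3 x) 0)))
        (fun _ _ => fc (invp p a) fun i => redm p (Nat.mul i x)) a)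
      (fun _ _ => fc (invp p a) fun i => redm p (Nat.mul i x)) a)
    (fun _ _ => fc (invp p a) fun i => redm p (Nat.mul i x)) a

/-- 2 by 2 minor modulo `p` -/
def mn (p a b c d : Nat) : Nat := Nat.mod (Nat.add (Nat.mul a d) (Nat.mul (Nat.sub p b) c)) p

/-- first nonzero of six numbers -/
def fst6 (a b c d e f : Nat) : Nat :=
  Nat.rec (Nat.rec (Nat.rec (Nat.rec (Nat.rec f (fun _ _ => e) e) (fun _ _ => d) d) (fun _ _ => c) c)
    (fun _ _ => b) b) (fun _ _ => a) a

/-- code of the plane spanned by two vectors (digits below `p`) -/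
def code2 (p x y : Nat) : Nat :=
  fc (dig0 x) fun x0 => fc (dig1 x) fun x1 => fc (dig2 x) fun x2 => fc (dig3 x) fun x3 =>
  fc (dig0 y) fun y0 => fc (dig1 y) fun y1 => fc (dig2 y) fun y2 => fc (dig3 y) fun y3 =>
  fc (mn p x0 x1 y0 y1) fun a => fc (mn p x0 x2 y0 y2) fun b => fc (mn p x0 x3 y0 y3) fun c =>
  fc (mn p x1 x2 y1 y2) fun d => fc (mn p x1 x3 y1 y3) fun e => fc (mn p x2 x3 y2 y3) fun f =>
  fc (invp p (fst6 a b c d e f)) fun i =>
  Nat.add (Nat.mul (Nat.add (Nat.mul (Nat.add (Nat.mul (Nat.mod (Nat.mul i a) p) p)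
    (Nat.mod (Nat.mul i b) p)) p) (Nat.mod (Nat.mul i c) p)) (Nat.mul p (Nat.mul p p)))
    (Nat.add (Nat.mul (Nat.add (Nat.mul (Nat.mod (Nat.mul i d) p) p) (Nat.mod (Nat.mul i e) p)) p)
      (Nat.mod (Nat.mul i f) p))

/-! ### generators -/

/-- residue of an integer -/
def modI (x : Int) (m : Nat) : Nat :=
  Int.rec (fun n => Nat.mod n m) (fun n => Nat.sub (Nat.pred m) (Nat.mod n m)) x

def pkI (m : Nat) (v : I4) : Nat := p4 (modI v.x m) (modI v.y m) (modI v.z m) (modI v.w m)

/-- columns of the matrix `1 + e t`, modulo `m` -/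
def colG (m : Nat) (e : I4) (t0 t1 t2 t3 : Int) (f : Nat → Nat → Nat → Nat → Nat) : Nat :=
  fc (pkI m e) fun x => fc (redm m (Nat.add 1 (Nat.mul (modI t0 m) x))) fun c0 =>
  fc (redm m (Nat.add S1 (Nat.mul (modI t1 m) x))) fun c1 =>
  fc (redm m (Nat.add S2 (Nat.mul (modI t2 m) x))) fun c2 =>
  fc (redm m (Nat.add S3 (Nat.mul (modI t3 m) x))) fun c3 => f c0 c1 c2 c3

/-- the reflection in the root `e`: columns `e_j - (2 (e, e_j) / (e, e)) e` -/
def reflG (A : I10) (m M : Nat) (e : I4) (f : Gp → Nat) : Nat :=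
  fc4 (mulI A e) fun u => nab (dotI e u) fun K =>
  fcI (Int.neg (divI (Int.mul 2 u.x) K)) fun t0 => fcI (Int.neg (divI (Int.mul 2 u.y) K)) fun t1 =>
  fcI (Int.neg (divI (Int.mul 2 u.z) K)) fun t2 => fcI (Int.neg (divI (Int.mul 2 u.w) K)) fun t3 =>
  colG m e t0 t1 t2 t3 fun c0 c1 c2 c3 =>
  fc (p4 (dig0 c0) (dig0 c1) (dig0 c2) (dig0 c3)) fun r0 => fc (p4 (dig1 c0) (dig1 c1) (dig1 c2) (dig1 c3)) fun r1 =>
  fc (p4 (dig2 c0) (dig2 c1) (dig2 c2) (dig2 c3)) fun r2 => fc (p4 (dig3 c0) (dig3 c1) (dig3 c2) (dig3 c3)) fun r3 =>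
  colG M e t0 t1 t2 t3 fun m0 m1 m2 m3 => f (Gp.mk c0 c1 c2 c3 r0 r1 r2 r3 m0 m1 m2 m3)

def mkGs (A : I10) (m M : Nat) (F : List I4) : (List Gp → Nat) → Nat :=
  List.rec (fun f => f List.nil) (fun e _ ih f => reflG A m M e fun g => ih (fun l => f (List.cons g l))) F

def getG (l : List Gp) : Nat → Gp :=
  List.rec (fun _ => Gp.mk 0 0 0 0 0 0 0 0 0 0 0 0) (fun a _ ih i => Nat.rec a (fun m _ => ih m) i) l

def lenG (l : List Gp) : Nat := List.rec 0 (fun _ _ n => Nat.succ n) l

/-- data: form, prime `p`, modulus `M`, reflections, table, number of letters of words -/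
structure OC where
  A : I10
  p : Nat
  M : Nat
  L : List Gp
  len : Nat
  ta : Nat
  tn : Nat
  nw : Nat

/-! ### resolutions -/

/-- vector with the digits of `x` -/
def unp (x : Nat) : I4 := I4.mk (Int.ofNat (dig0 x)) (Int.ofNat (dig1 x)) (Int.ofNat (dig2 x)) (Int.ofNat (dig3 x))

/-- combination of the vectors of a list with coefficients from the stream (7 bits) -/
def rdCo (X : List Nat) : (Nat → Nat → Nat) → Nat → Nat :=
  List.rec (fun f s => f 0 s) (fun x _ ih f s =>
    fc (Nat.mod s 128) fun c => ih (fun t s => f (Nat.add t (Nat.mul c x)) s) (Nat.div s 128)) X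

/-- all vectors of the list have products with `u` divisible by `m` -/
def dvdL (m : Nat) (u : I4) (X : List Nat) : Bool :=
  List.rec true (fun x _ ih => Bool.rec false ih (dvdI m (dotI (unp x) u))) X

def dvd4 (m : Nat) (u : I4) : Bool :=
  ands (ands (dvdI m u.x) (dvdI m u.y)) (ands (dvdI m u.z) (dvdI m u.w))

/-- not canonical: a vector of `U` orthogonal to `U`, not in the radical -/
def resN (O : OC) (X : List Nat) (s : Nat) : Nat :=
  rdCo X (fun t s => fc (redm O.p t) fun x => fc4 (mulI O.A (unp x)) fun u =>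
    okb (ands (notb (dvd4 O.p u)) (dvdL O.p u X)) s) s

/-- not canonical: a vector `z` of the lattice, not divisible by `p`, with products divisible by `p²` -/
def resA (O : OC) (X : List Nat) (s : Nat) : Nat :=
  rdI (Nat.mod s 64) (Nat.div s 64) fun z s => rdCo X (fun t s => fc (pkI O.p z) fun x =>
    fc4 (mulI O.A z) fun u =>
    okb (ands (ands (Nat.beq x (redm O.p t)) (Nat.ble 1 x))
      (ands (dvd4 O.p u) (dvdL (Nat.mul O.p O.p) u X))) s) s

/-- not primitive -/
def resP (O : OC) (X : List Nat) (s : Nat) : Nat :=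
  okb (List.rec true (fun x _ ih => Bool.rec false ih (dvdL O.p (mulI O.A (unp x)) X)) X) s

/-- `gᵀ A g = c T` -/
def formC (A : I10) (g : I16) (T : I10) (c : Int) : Bool :=
  (fun u0 u1 u2 u3 : I4 =>
    ands (ands (ands (Int.beq' (dotI g.c0 u0) (Int.mul c T.a00)) (Int.beq' (dotI g.c0 u1) (Int.mul c T.a01)))
      (ands (Int.beq' (dotI g.c0 u2) (Int.mul c T.a02)) (Int.beq' (dotI g.c0 u3) (Int.mul c T.a03))))
    (ands (ands (Int.beq' (dotI g.c1 u1) (Int.mul c T.a11)) (ands (Int.beq' (dotI g.c1 u2) (Int.mul c T.a12))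
      (Int.beq' (dotI g.c1 u3) (Int.mul c T.a13))))
      (ands (Int.beq' (dotI g.c2 u2) (Int.mul c T.a22)) (ands (Int.beq' (dotI g.c2 u3) (Int.mul c T.a23))
        (Int.beq' (dotI g.c3 u3) (Int.mul c T.a33))))))
    (mulI A g.c0) (mulI A g.c1) (mulI A g.c2) (mulI A g.c3)

/-- read a vector of the lattice -/
def rdL (O : OC) (X : List Nat) (w s : Nat) (f : I4 → Nat → Nat) : Nat :=
  rdI w s fun v s => rdCo X (fun t s => Bool.rec 0 (f v s) (Nat.beq (pkI O.p v) (redm O.p t))) s

/-- the lattice is isometric to a lattice of the table: index (12 bits), width (6 bits), basis -/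
def resT (O : OC) (X : List Nat) (q c : Nat) (s : Nat) : Nat :=
  fc (Nat.mod s 4096) fun j => fc (Nat.mod (Nat.div s 4096) 64) fun w =>
  rdL O X w (Nat.div s 262144) fun a s => rdL O X w s fun b s => rdL O X w s fun d s => rdL O X w s fun e s =>
  okb (ands (Nat.blt j O.tn) (ands (Nat.beq (Int.natAbs (det4 a b d e)) q)
    (formC O.A (I16.mk a b d e) (i10 24 (Nat.mod (Nat.shiftRight O.ta (Nat.mul 240 j)) (Nat.pow 2 240)))
      (Int.ofNat c)))) s

/-! ### words -/

/-- trace modulo `M` is not one of `-4, ..., 4` -/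
def trC (M a b c d : Nat) : Bool :=
  fc (Nat.mod (Nat.add (Nat.add (dig0 a) (dig1 b)) (Nat.add (dig2 c) (dig3 d))) M) fun t =>
    ands (Nat.blt 4 t) (Nat.blt (Nat.add t 4) M)

/-- word for a line (`act = actC`) or a hyperplane (`act = actR`); `x` current, `z` its code -/
def wrd1 (O : OC) (act : Gp → Nat → Nat → Nat) (x0 : Nat) (k : Nat) :
    Nat → Nat → Nat → Nat → Nat → Nat → Nat → Nat :=
  Nat.rec (fun _ z a b c d s => okb (ands (Nat.beq z x0) (trC O.M a b c d)) s)
    (fun _ ih x z a b c d s => fc (Nat.mod s 64) fun i => (fun g : Gp =>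
      fc (act g O.p x) fun x' => fc (nrmP O.p x') fun z' =>
      Bool.rec 0 (fc (actM g O.M a) fun a => fc (actM g O.M b) fun b => fc (actM g O.M c) fun c =>
        fc (actM g O.M d) fun d => ih x' z' a b c d (Nat.div s 64))
        (ands (Nat.blt i O.nw) (notb (Nat.beq z' z)))) (getG O.L i)) k

/-- `x` is the combination of `x0, y0` with the given coefficients -/
def cmb2 (p x x0 y0 al be : Nat) : Bool := Nat.beq x (redm p (Nat.add (Nat.mul al x0) (Nat.mul be y0)))

/-- word for a plane -/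
def wrd2 (O : OC) (x0 y0 : Nat) (k : Nat) : Nat → Nat → Nat → Nat → Nat → Nat → Nat → Nat → Nat :=
  Nat.rec (fun x y _ a b c d s => fc (Nat.mod s 268435456) fun h => fc (Nat.mod h 128) fun k1 =>
      fc (Nat.mod (Nat.div h 128) 128) fun k2 => fc (Nat.mod (Nat.div h 16384) 128) fun k3 =>
      fc (Nat.div h 2097152) fun k4 =>
      okb (ands (ands (cmb2 O.p x x0 y0 k1 k2) (cmb2 O.p y x0 y0 k3 k4)) (trC O.M a b c d))
        (Nat.div s 268435456))
    (fun _ ih x y z a b c d s => fc (Nat.mod s 64) fun i => (fun g : Gp =>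
      fc (actC g O.p x) fun x' => fc (actC g O.p y) fun y' => fc (code2 O.p x' y') fun z' =>
      Bool.rec 0 (fc (actM g O.M a) fun a => fc (actM g O.M b) fun b => fc (actM g O.M c) fun c =>
        fc (actM g O.M d) fun d => ih x' y' z' a b c d (Nat.div s 64))
        (ands (Nat.blt i O.nw) (notb (Nat.beq z' z)))) (getG O.L i)) k

/-- kinds of resolutions of type I: 0 table, 1 word, 2 not canonical (N), 3 not canonical (A),
4 not primitive -/
def resI (O : OC) (X : List Nat) (q : Nat) (wd : Nat → Nat) (s : Nat) : Nat :=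
  fc (Nat.div s 8) fun s' =>
  Nat.rec (resT O X q 1 s') (fun h _ => Nat.rec (wd s') (fun h _ => Nat.rec (resN O X s')
    (fun h _ => Nat.rec (resA O X s') (fun _ _ => resP O X s') h) h) h) (Nat.mod s 8)

/-! ### subspaces -/

/-- apply `k` reflections -/
def pth1 (O : OC) (act : Gp → Nat → Nat → Nat) (k : Nat) : (Nat → Nat → Nat) → Nat → Nat → Nat :=
  Nat.rec (fun f x s => f x s) (fun _ ih f x s => fc (Nat.mod s 64) fun i =>
    Bool.rec 0 (fc (act (getG O.L i) O.p x) fun x => ih f x (Nat.div s 64)) (Nat.blt i O.len)) k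

def pth2 (O : OC) (k : Nat) : (Nat → Nat → Nat → Nat) → Nat → Nat → Nat → Nat :=
  Nat.rec (fun f x y s => f x y s) (fun _ ih f x y s => fc (Nat.mod s 64) fun i =>
    Bool.rec 0 (fc (actC (getG O.L i) O.p x) fun x => fc (actC (getG O.L i) O.p y) fun y =>
      ih f x y (Nat.div s 64)) (Nat.blt i O.len)) k

/-- a line or hyperplane `x` (normalized), with basis `X`: path to a smaller one, or resolution; number
of letters of a word: 6 bits -/
def sub1 (O : OC) (act : Gp → Nat → Nat → Nat) (q x : Nat) (X : List Nat) (s : Nat) : Nat :=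
  fc (Nat.mod s 8) fun k => fc (Nat.div s 8) fun s =>
  Nat.rec (resI O X q (fun s => wrd1 O act x (Nat.mod s 64) x x 1 S1 S2 S3 (Nat.div s 64)) s)
    (fun _ _ => pth1 O act k (fun y s => okb (Nat.blt (nrmP O.p y) x) s) x s) k

/-- a plane -/
def sub2 (O : OC) (x y : Nat) (s : Nat) : Nat :=
  fc (Nat.mod s 8) fun k => fc (Nat.div s 8) fun s => fc (code2 O.p x y) fun z =>
  Nat.rec (resI O (List.cons x (List.cons y List.nil)) (Nat.mul O.p O.p)
      (fun s => wrd2 O x y (Nat.mod s 64) x y z 1 S1 S2 S3 (Nat.div s 64)) s)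
    (fun _ _ => pth2 O k (fun x y s => okb (Nat.blt (code2 O.p x y) z) s) x y s) k

/-- loop, threading the stream -/
def lpS (n : Nat) (body : Nat → Nat → Nat) : Nat → Nat :=
  Nat.rec (fun _ s => Nat.succ s) (fun _ ih x s => fc x fun x =>
    Nat.rec 0 (fun s' _ => ih (Nat.succ x) s') (body x s)) n 0

def sq (f g : Nat → Nat) (s : Nat) : Nat := Nat.rec 0 (fun s' _ => g s') (f s)

/-- use a block of the stream (length: 16 bits) -/
def blk (f : Nat → Nat) (s : Nat) : Nat :=
  fc (Nat.pow 2 (Nat.mod s 65536)) fun W => fc (Nat.div s 65536) fun s =>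
    Nat.rec 0 (fun _ _ => Nat.succ (Nat.div s W)) (fc (Nat.mod s W) fun w => f w)

/-- negative modulo `p` -/
def ngp (p a : Nat) : Nat := Nat.mod (Nat.sub p a) p

def lnC (O : OC) : Nat → Nat :=
  fun s => sq (lpS O.p (fun a => lpS O.p (fun b => blk (lpS O.p (fun c s => fc (p4 1 a b c) fun x =>
      sub1 O actC (Nat.pow O.p 3) x (List.cons x List.nil) s)))))
    (sq (lpS O.p (fun a => blk (lpS O.p (fun b s => fc (p4 0 1 a b) fun x =>
      sub1 O actC (Nat.pow O.p 3) x (List.cons x List.nil) s))))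
    (sq (lpS O.p (fun a s => fc (p4 0 0 1 a) fun x => sub1 O actC (Nat.pow O.p 3) x (List.cons x List.nil) s))
    (fun s => fc (p4 0 0 0 1) fun x => sub1 O actC (Nat.pow O.p 3) x (List.cons x List.nil) s))) s

def l3 (a b c : Nat) : List Nat := List.cons a (List.cons b (List.cons c List.nil))

def hpC (O : OC) : Nat → Nat :=
  fun s => sq (lpS O.p (fun a => lpS O.p (fun b => blk (lpS O.p (fun c s => fc (p4 1 a b c) fun x =>
      sub1 O actR O.p x (l3 (p4 (ngp O.p a) 1 0 0) (p4 (ngp O.p b) 0 1 0) (p4 (ngp O.p c) 0 0 1)) s)))))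
    (sq (lpS O.p (fun a => blk (lpS O.p (fun b s => fc (p4 0 1 a b) fun x =>
      sub1 O actR O.p x (l3 (p4 1 0 0 0) (p4 0 (ngp O.p a) 1 0) (p4 0 (ngp O.p b) 0 1)) s))))
    (sq (lpS O.p (fun a s => fc (p4 0 0 1 a) fun x =>
      sub1 O actR O.p x (l3 (p4 1 0 0 0) (p4 0 1 0 0) (p4 0 0 (ngp O.p a) 1)) s))
    (fun s => fc (p4 0 0 0 1) fun x => sub1 O actR O.p x (l3 (p4 1 0 0 0) (p4 0 1 0 0) (p4 0 0 1 0)) s))) s

def plC (O : OC) : Nat → Nat :=
  fun s => sq (lpS O.p (fun a => lpS O.p (fun b => lpS O.p (fun c => blk (lpS O.p (fun d s =>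
      fc (p4 1 0 a b) fun x => fc (p4 0 1 c d) fun y => sub2 O x y s))))))
    (sq (lpS O.p (fun a => lpS O.p (fun b => blk (lpS O.p (fun c s =>
      fc (p4 1 a 0 b) fun x => fc (p4 0 0 1 c) fun y => sub2 O x y s)))))
    (sq (lpS O.p (fun a => blk (lpS O.p (fun b s =>
      fc (p4 1 a b 0) fun x => fc (p4 0 0 0 1) fun y => sub2 O x y s))))
    (sq (lpS O.p (fun a => blk (lpS O.p (fun b s =>
      fc (p4 0 1 0 a) fun x => fc (p4 0 0 1 b) fun y => sub2 O x y s))))
    (sq (lpS O.p (fun a s => fc (p4 0 1 a 0) fun x => fc (p4 0 0 0 1) fun y => sub2 O x y s))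
    (fun s => fc (p4 0 0 1 0) fun x => fc (p4 0 0 0 1) fun y => sub2 O x y s))))) s

/-- closure of type I for one lattice -/
def closI (O : OC) (s : Nat) : Nat := sq (lnC O) (sq (hpC O) (plC O)) s

/-! ### type II -/

/-- `A x` is divisible by `p` -/
def radC (O : OC) (x : Nat) : Bool := dvd4 O.p (mulI O.A (unp x))

/-- read a packed vector with digits below `p` (7 bits each) -/
def rdP (O : OC) (s : Nat) (f : Nat → Nat → Nat) : Nat :=
  rd4 7 s fun a b c d s => fc (redm O.p (p4 a b c d)) fun x => f x s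

/-- closure of type II: 0 determinant prime to `p`, 1 rank at most 2; radical `z` and 2 not primitive,
3 table, 4 word -/
def closII (O : OC) (s : Nat) : Nat :=
  fc (Nat.mod s 8) fun h => fc (Nat.div s 8) fun s =>
  Nat.rec (okb (notb (dvdI O.p (detA O.A))) s)
    (fun h _ => Nat.rec
      (rdP O s fun x s => rdP O s fun y s => okb (ands (ands (radC O x) (radC O y))
        (Nat.ble 1 (code2 O.p x y))) s)
      (fun h _ => rdP O s fun x s => Bool.rec 0
        (Nat.rec (okb (dvdI (Nat.mul O.p O.p) (dotI (unp x) (mulI O.A (unp x)))) s)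
          (fun h _ => Nat.rec (resT O (List.cons x List.nil) (Nat.pow O.p 3) O.p s)
            (fun _ _ => fc (nrmP O.p x) fun z =>
              wrd1 O actC z (Nat.mod s 64) z z 1 S1 S2 S3 (Nat.div s 64)) h) h)
        (ands (Nat.ble 1 x) (radC O x))) h) h

/-- prepare the data for a prime; the modulus `M` comes from the stream (7 bits) -/
def mkOC (A : I10) (F : List I4) (ta tn p : Nat) (nw : Nat) (f : OC → Nat → Nat) (s : Nat) : Nat :=
  fc (Nat.mod s 128) fun M =>
  Bool.rec 0 (mkGs A p M F fun L => f (OC.mk A p M L (lenG L) ta tn nw) (Nat.div s 128))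
    (ands (ands (Nat.ble 2 p) (Nat.ble p 127)) (Nat.ble 11 M))

/-- both closures -/
def clos (A : I10) (F : List I4) (ta tn p : Nat) (nw : Nat) (s : Nat) : Nat :=
  mkOC A F ta tn p nw (fun O s => sq (closI O) (closII O) s) s

/-- closure of type II for the primes of a list -/
def closL (A : I10) (F : List I4) (ta tn : Nat) (nw : Nat) (ml : List Nat) : Nat → Nat :=
  List.rec (fun s => Nat.succ s) (fun x _ ih s =>
    Nat.rec 0 (fun s' _ => ih s') (fc (Nat.div x 16) fun p => Bool.rec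
      (mkOC A F ta tn p nw (fun O s => closII O s) s) (Nat.succ s) (Nat.ble p 7))) ml

/-- facets of a walk -/
def facs (l : List Vx) : List I4 :=
  List.rec List.nil (fun v l' ih => List.rec (List.cons v.c (List.cons v.a (List.cons v.b List.nil)))
    (fun _ _ _ => List.cons v.c ih) l') l

/-- all closures for the row `j`, with reflections `F` -/
def allJ (A : I10) (ta j : Nat) (F : List I4) (nw : Nat) : Nat → Nat :=
  sq (clos A F ta 919 2 nw)
    (sq (fun s => Bool.rec (Nat.succ s) (clos A F ta 290 3 nw s) (Nat.blt j 290))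
    (sq (fun s => Bool.rec (Nat.succ s) (clos A F ta 141 5 nw s) (Nat.blt j 141))
    (sq (fun s => Bool.rec (Nat.succ s) (clos A F ta 99 7 nw s) (Nat.blt j 99))
    (fun s => Bool.rec (Nat.succ s)
      (rdl (Nat.mod s 32) (fun ml s => Bool.rec 0 (closL A F ta 78 nw ml s)
        (Nat.beq (prl ml) (Int.natAbs (detA A)))) (Nat.div s 32)) (Nat.blt j 78)))))

def appF (l : List I4) (F : List I4) : List I4 := List.rec F (fun a _ ih => List.cons a ih) l

/-- read more roots (count 8 bits, width 6 bits), after the facets `l` -/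
def rdR (A : I10) (ta j : Nat) (l : List I4) (s : Nat) : Nat :=
  rdLs (Nat.mod s 256) (Nat.mod (Nat.div s 256) 64) (fun F s =>
    Bool.rec 0 (allJ A ta j (appF l F) (lenF l) s) (allF (isR A) F)) (Nat.div s 16384)

/-- certificate for the row `j`: first bit 1: walk -/
def orbJ (ta j s : Nat) : Bool :=
  Nat.rec false (fun _ _ => true) (rowT ta j fun A => fc (Nat.div s 2) fun s' =>
    Nat.rec (rdR A ta j List.nil s') (fun _ _ => walk A s' (fun l s => rdR A ta j (facs l) s)) (Nat.mod s 2))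

/-- certificates for the rows from `j` on -/
def orbT (ta : Nat) (j : Nat) (l : List Nat) : Bool :=
  List.rec (fun _ => true) (fun s _ ih j => Bool.rec false (ih (Nat.succ j)) (orbJ ta j s)) l j

end

end Pool.Agent.Refl.K
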