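import Pool.Agent.Helper23_Refl.StmtA

/-!
# Statements, part D: descent to reduced lattices
-/

namespace Pool.Agent.Refl

open Matrix

/-- primitive Gram matrix -/
def PrimG (G : M4) : Prop := ∀ d : ℤ, (∀ i j, d ∣ G i j) → IsUnit d

/-- no vector, not divisible by `p`, has all its products divisible by `p²` -/
def SSF (p : ℕ) (G : M4) : Prop :=
  ∀ x : Z4, (∀ i, (p : ℤ) ^ 2 ∣ G.mulVec x i) → ∀ i, (p : ℤ) ∣ x i

/-- the rank modulo `p` is at least two -/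
def Rk2 (p : ℕ) (G : M4) : Prop :=
  ∃ i j k l, ¬ (p : ℤ) ∣ G i k * G j l - G i l * G j k

/-- member of a list, up to isometry -/
def InT (A : List M4) (G : M4) : Prop := ∃ T ∈ A, Isom G T

/-- `R` is determined by its sublattice `L`, with basis `W`. -/
def Canon (p : ℕ) (R L W : M4) : Prop :=
  (∀ w : Z4, (∀ i, (p : ℤ) ∣ L.mulVec w i) → ∀ i, (p : ℤ) ∣ R.mulVec (W.mulVec w) i) ∧
  (∀ x : Z4, (∀ i, (p : ℤ) ^ 2 ∣ L.mulVec x i) → ∀ i, (p : ℤ) ∣ W.mulVec x i)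

/-- `L` is a sublattice of `R` of type I: `pR ⊂ L ≠ R` and `R = L + {x / p : L x = 0 mod p²}`.
`W` is the matrix of a basis of `L`. -/
def ChildI (p : ℕ) (R L : M4) : Prop :=
  ∃ W W' : M4, W * W' = (p : ℤ) • (1 : M4) ∧ L = W.transpose * R * W ∧ ¬ IsUnit W.det ∧
    PrimG L ∧ Canon p R L W

/-- `L` is the sublattice `{x ∈ R : R x = 0 mod p}`, of index `p³`, with form divided by `p`. -/
def ChildII (p : ℕ) (R L : M4) : Prop :=
  ∃ W W' : M4, W * W' = (p : ℤ) • (1 : M4) ∧ (p : ℤ) • L = W.transpose * R * W ∧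
    W.det.natAbs = p ^ 3 ∧ PrimG L ∧ (∀ x i, (p : ℤ) ∣ R.mulVec (W.mulVec x) i) ∧
    (∀ x : Z4, (∀ i, (p : ℤ) ∣ R.mulVec x i) → ∃ y, x = W.mulVec y)

/-! ### D1: descent -/

/-- D1a: reflectivity goes up to a lattice which is stable under `O(L)`. -/
def TransStmt : Prop := ∀ (L R W W' : M4) (p c d : ℕ), 0 < p → 0 < c → 0 < d →
  W * W' = (p : ℤ) • (1 : M4) → (c : ℤ) • L = (d : ℤ) • (W.transpose * R * W) → Lat L →
  (∀ g ∈ OG L, ∃ h ∈ OG R, (h : M4) * W = W * (g : M4)) →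
  Lat R ∧ (Reflective L → Reflective R)

/-- D1b: a lattice with a vector of type `p²` has a parent of type I. -/
def RedIStmt : Prop := ∀ (L : M4) (p : ℕ), p.Prime → Lat L → PrimG L → ¬ SSF p L →
  ∃ R : M4, ChildI p R L ∧ Lat R ∧ PrimG R ∧ R.det.natAbs < L.det.natAbs ∧
    (Reflective L → Reflective R) ∧
    ∀ q : ℕ, q.Prime → q ≠ p → (SSF q R ↔ SSF q L) ∧ (Rk2 q R ↔ Rk2 q L)

/-- D1c: a lattice of rank one modulo `p` has a parent of type II. -/
def RedIIStmt : Prop := ∀ (L : M4) (p : ℕ), p.Prime → Lat L → PrimG L → SSF p L → ¬ Rk2 p L →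
  ∃ R : M4, ChildII p R L ∧ Lat R ∧ PrimG R ∧ R.det.natAbs < L.det.natAbs ∧
    (Reflective L → Reflective R) ∧
    ∀ q : ℕ, q.Prime → q ≠ p → (SSF q R ↔ SSF q L) ∧ (Rk2 q R ↔ Rk2 q L)

/-- a reduced lattice -/
def Reduced (G : M4) : Prop :=
  PrimG G ∧ (∀ p ∈ [2, 3, 5, 7], SSF p G ∧ Rk2 p G) ∧
    ∀ p : ℕ, p.Prime → 7 < p → SSF p G → Rk2 p G

/-- classification of the reduced reflective lattices -/
def Stage1 (A : List M4) : Prop := ∀ G : M4, Lat G → Reflective G → Reduced G → InT A G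

/-- closure under children of type I -/
def ClosI (p : ℕ) (A : List M4) : Prop :=
  ∀ R ∈ A, ∀ L : M4, Lat L → Reflective L → ChildI p R L → InT A L
/-- closure under children of type II -/
def ClosII (p : ℕ) (A : List M4) : Prop :=
  ∀ R ∈ A, ∀ L : M4, Lat L → Reflective L → ChildII p R L → InT A L

/-- D2: the list of all primitive reflective lattices. -/
def DescStmt : Prop := ∀ A0 A11 A7 A5 A3 A2 : List M4,
  A0 ⊆ A11 → A11 ⊆ A7 → A7 ⊆ A5 → A5 ⊆ A3 → A3 ⊆ A2 →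
  Stage1 A0 → (∀ p : ℕ, p.Prime → 7 < p → ClosII p A11) →
  ClosI 7 A7 → ClosII 7 A7 → ClosI 5 A5 → ClosII 5 A5 → ClosI 3 A3 → ClosII 3 A3 →
  ClosI 2 A2 → ClosII 2 A2 →
  ∀ G : M4, Lat G → PrimG G → Reflective G → InT A2 G

/-- D3: similarity. -/
def SimStmt : Prop := ∀ (A : List M4), (∀ T ∈ A, Lat T ∧ PrimG T ∧ Reflective T) →
  (∀ G : M4, Lat G → PrimG G → Reflective G → InT A G) →
  ∀ G : M4, Lat G → (Reflective G ↔ ∃ T ∈ A, Similar G T)

/-! ### D4: compactness certificate -/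

/-- D4: `V a` are vertices, `t a` the three facets through `V a`, `nb a s` the vertex at the other
end of the edge which leaves the facet `t a s`. -/
def CmpStmt : Prop := ∀ (G : M4), Lat G → ∀ (n : ℕ) (e : Fin n → Z4) (O : Z4) (m : ℕ)
  (V : Fin m → Z4) (t : Fin m → Fin 3 → Fin n) (nb : Fin m → Fin 3 → Fin m), 0 < m →
  bz G O O < 0 → (∀ i, bz G O (e i) < 0) →
  (∀ a, bz G (V a) (V a) < 0 ∧ bz G (V a) O < 0 ∧ ∑ i, bz G (V a) (e i) < 0) →
  (∀ a s, bz G (V a) (e (t a s)) = 0) →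
  (∀ a s s', if s = s' then bz G (V (nb a s)) (e (t a s')) < 0
    else bz G (V (nb a s)) (e (t a s')) = 0) →
  ∃ c : ℝ, 0 < c ∧ ∀ x : R4, (∀ i, br G x (up (e i)) ≤ 0) →
    br G x x ≤ -c * (br G x (up O)) ^ 2

/-! ### D5: non reflective sublattices -/

/-- matrix of the reflection in a root -/
def rm (G : M4) (e : Z4) : M4 :=
  fun i j => (if i = j then 1 else 0) - e i * (2 * G.mulVec e j / bz G e e)

/-- A gallery of chambers in a chamber of the sublattice `W`, which ends at an image of the first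
chamber under an isometry of the sublattice of infinite order. -/
def WordOK {n : ℕ} (s : Fin n → M4) (W : M4) : List (Fin n) → M4 → Prop
  | [], P => (∃ V : M4, P * W = W * V) ∧ 4 < |P.trace|
  | i :: l, P => (¬ ∃ V : M4, s i * (P * W) = P * W * V) ∧ WordOK s W l (s i * P)

def WordStmt : Prop := ∀ (R : M4) (n : ℕ) (e : Fin n → Z4) (O : R4), Lat R → Cham R n e O →
  ∀ (L W W' : M4) (p c d : ℕ), 0 < p → 0 < c → 0 < d → W * W' = (p : ℤ) • (1 : M4) →
  (c : ℤ) • L = (d : ℤ) • (W.transpose * R * W) → Lat L →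
  (∀ g ∈ OG L, ∃ h ∈ OG R, (h : M4) * W = W * (g : M4)) →
  ∀ l : List (Fin n), (∀ i ∈ l, ∃ j k, IsV R e i j k) →
  WordOK (fun i => rm R (e i)) W l 1 → ¬ Reflective L

/-- D6: isometries of a child extend to the parent. -/
def StabIStmt : Prop := ∀ (p : ℕ) (R L W W' : M4), p.Prime → Lat R → Lat L →
  W * W' = (p : ℤ) • (1 : M4) → L = W.transpose * R * W → Canon p R L W →
  ∀ g ∈ OG L, ∃ h ∈ OG R, (h : M4) * W = W * (g : M4)

def StabIIStmt : Prop := ∀ (p : ℕ) (R L W W' : M4), p.Prime → Lat R → Lat L →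
  W * W' = (p : ℤ) • (1 : M4) → (p : ℤ) • L = W.transpose * R * W → W.det.natAbs = p ^ 3 →
  PrimG L → (∀ x i, (p : ℤ) ∣ R.mulVec (W.mulVec x) i) →
  ∀ g ∈ OG L, ∃ h ∈ OG R, (h : M4) * W = W * (g : M4)

end Pool.Agent.Refl
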