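import Pool.Agent.Helper23_Refl.StmtC4
import Pool.Agent.Helper23_Refl.StmtD
import Pool.Agent.Helper23_Refl.KOrb

/-!
# Statements, part C5: compactness certificates, sublattices
-/

namespace Pool.Agent.Refl

open Matrix

/-! ### compactness certificates -/

/-- SIGP: signature from three positive vectors -/
def SigPStmt : Prop := ∀ G : M4, G.transpose = G → G.det < 0 → ∀ a b c : Z4,
  0 < bz G a a → 0 < g2 G a b → 0 < g3 G a b c c → Sig31 G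

/-- CMP2: `CmpStmt` without anisotropy -/
def Cmp2Stmt : Prop := ∀ (G : M4), G.transpose = G → Sig31 G → ∀ (n : ℕ) (e : Fin n → Z4) (O : Z4)
  (m : ℕ) (V : Fin m → Z4) (t : Fin m → Fin 3 → Fin n) (nb : Fin m → Fin 3 → Fin m), 0 < m →
  bz G O O < 0 → (∀ i, bz G O (e i) < 0) →
  (∀ a, bz G (V a) (V a) < 0 ∧ bz G (V a) O < 0 ∧ ∑ i, bz G (V a) (e i) < 0) →
  (∀ a s, bz G (V a) (e (t a s)) = 0) →
  (∀ a s s', if s = s' then bz G (V (nb a s)) (e (t a s')) < 0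
    else bz G (V (nb a s)) (e (t a s')) = 0) →
  ∃ c : ℝ, 0 < c ∧ ∀ x : R4, (∀ i, br G x (up (e i)) ≤ 0) →
    br G x x ≤ -c * (br G x (up O)) ^ 2

/-- ANI: a compact cone bounded by roots: no isotropic vector -/
def AniStmt : Prop := ∀ (G : M4), G.transpose = G → Sig31 G → ∀ (n : ℕ) (e : Fin n → Z4) (O : Z4),
  (∀ i, IsRoot G (e i)) → bz G O O < 0 → (∀ i, bz G O (e i) < 0) →
  (∃ c : ℝ, 0 < c ∧ ∀ x : R4, (∀ i, br G x (up (e i)) ≤ 0) →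
    br G x x ≤ -c * (br G x (up O)) ^ 2) → Anis G

/-- CMPK -/
def CmpKStmt : Prop := ∀ (A : K.I10) (s : ℕ), K.cmpK A s ≠ 0 →
  Lat (matI A) ∧ PrimG (matI A) ∧ Reflective (matI A)

/-- CMPT -/
def CmpTStmt : Prop := ∀ (ta j : ℕ) (l : List ℕ), K.cmpT ta j l = true → ∀ i < l.length,
  Lat (mtab ta (j + i)) ∧ PrimG (mtab ta (j + i)) ∧ Reflective (mtab ta (j + i))

/-! ### sublattices -/

/-- congruent vectors -/
def Cg (m : ℕ) (x y : Z4) : Prop := ∀ i, (m : ℤ) ∣ x i - y i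

/-- independent modulo `p` -/
def Ind (p : ℕ) (x y : Z4) : Prop :=
  ∀ a b : ℤ, Cg p (a • x + b • y) 0 → (p : ℤ) ∣ a ∧ (p : ℤ) ∣ b

/-- the vectors which are combinations of the vectors of `B`, modulo `p` -/
def SubX (p : ℕ) (B : List Z4) : Submodule ℤ Z4 :=
  Submodule.span ℤ ({v | v ∈ B} ∪ {v | ∃ w : Z4, v = (p : ℤ) • w})

/-- the vectors orthogonal to `y` modulo `p` (standard scalar product) -/
def HypX (p : ℕ) (y : Z4) : Submodule ℤ Z4 where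
  carrier := {v | (p : ℤ) ∣ y ⬝ᵥ v}
  add_mem' := by
    intro a b ha hb
    simp only [Set.mem_setOf_eq, dotProduct_add] at *
    exact dvd_add ha hb
  zero_mem' := by simp
  smul_mem' := by
    intro c x hx
    simp only [Set.mem_setOf_eq, dotProduct_smul] at *
    exact Dvd.dvd.mul_left hx c

/-- `W` is the matrix of a basis of `X`, and `p ℤ⁴ ⊆ X` -/
def Bas (p : ℕ) (X : Submodule ℤ Z4) (W : M4) : Prop :=
  (∃ W' : M4, W * W' = (p : ℤ) • (1 : M4)) ∧ ∀ x : Z4, x ∈ X ↔ ∃ y, x = W.mulVec y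

/-- the index of `X` is `q` -/
def Idx (p : ℕ) (X : Submodule ℤ Z4) (q : ℕ) : Prop := ∀ W : M4, Bas p X W → W.det.natAbs = q

/-- all children with lattice `X` are in the list -/
def ResX (p : ℕ) (R : M4) (A : List M4) (X : Submodule ℤ Z4) : Prop :=
  ∀ W L : M4, Bas p X W → L = W.transpose * R * W → PrimG L → Canon p R L W →
    Lat L → Reflective L → InT A L

/-- the sublattice `X` is not reflective -/
def NoRef (p : ℕ) (R : M4) (X : Submodule ℤ Z4) : Prop :=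
  ∀ (W L : M4) (c d : ℕ), 0 < c → 0 < d → Bas p X W →
    (c : ℤ) • L = (d : ℤ) • (W.transpose * R * W) → Lat L →
    (∀ g ∈ OG L, ∃ h ∈ OG R, (h : M4) * W = W * (g : M4)) → ¬ Reflective L

/-- all children of type I are in the list -/
def CI (p : ℕ) (R : M4) (A : List M4) : Prop :=
  ∀ L : M4, Lat L → Reflective L → ChildI p R L → InT A L
/-- all children of type II are in the list -/
def CII (p : ℕ) (R : M4) (A : List M4) : Prop :=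
  ∀ L : M4, Lat L → Reflective L → ChildII p R L → InT A L

/-- vector of natural numbers -/
def nz (a b c d : ℕ) : Z4 := ![(a : ℤ), (b : ℤ), (c : ℤ), (d : ℤ)]

/-- normalized vectors modulo `p` -/
def LnForm (p : ℕ) (x : Z4) : Prop := ∃ a b c : ℕ, a < p ∧ b < p ∧ c < p ∧
  (x = nz 1 a b c ∨ x = nz 0 1 a b ∨ x = nz 0 0 1 a ∨ x = nz 0 0 0 1)

/-- reduced bases of planes -/
def PlForm (p : ℕ) (x y : Z4) : Prop := ∃ a b c d : ℕ, a < p ∧ b < p ∧ c < p ∧ d < p ∧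
  ((x = nz 1 0 a b ∧ y = nz 0 1 c d) ∨ (x = nz 1 a 0 b ∧ y = nz 0 0 1 c) ∨
    (x = nz 1 a b 0 ∧ y = nz 0 0 0 1) ∨ (x = nz 0 1 0 a ∧ y = nz 0 0 1 b) ∨
    (x = nz 0 1 a 0 ∧ y = nz 0 0 0 1) ∨ (x = nz 0 0 1 0 ∧ y = nz 0 0 0 1))

/-- basis of the hyperplane orthogonal to a normalized vector -/
def hypB (x : Z4) : List Z4 :=
  if x 0 = 1 then [![-x 1, 1, 0, 0], ![-x 2, 0, 1, 0], ![-x 3, 0, 0, 1]]
  else if x 1 = 1 then [![1, 0, 0, 0], ![0, -x 2, 1, 0], ![0, -x 3, 0, 1]]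
  else if x 2 = 1 then [![1, 0, 0, 0], ![0, 1, 0, 0], ![0, 0, -x 3, 1]]
  else [![1, 0, 0, 0], ![0, 1, 0, 0], ![0, 0, 1, 0]]

/-- IDX -/
def IdxStmt : Prop := ∀ p : ℕ, p.Prime →
  (∀ x, LnForm p x → Idx p (SubX p [x]) (p ^ 3)) ∧
  (∀ x y, PlForm p x y → Ind p x y ∧ Idx p (SubX p [x, y]) (p ^ 2)) ∧
  (∀ y, LnForm p y → HypX p y = SubX p (hypB y) ∧ Idx p (HypX p y) p)

/-- CLS: the sublattices between `p ℤ⁴` and `ℤ⁴` -/
def ClsStmt : Prop := ∀ (p : ℕ) (W W' : M4), p.Prime → W * W' = (p : ℤ) • (1 : M4) →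
  ¬ IsUnit W.det → (∃ y, ¬ Cg p (W.mulVec y) 0) → ∃ X, Bas p X W ∧
  ((∃ x, LnForm p x ∧ X = SubX p [x]) ∨ (∃ y, LnForm p y ∧ X = HypX p y) ∨
    ∃ x y, PlForm p x y ∧ X = SubX p [x, y])

/-- INVX: isometries of `R` -/
def InvXStmt : Prop := ∀ (p : ℕ) (R : M4) (A : List M4) (X X' : Submodule ℤ Z4), p.Prime → Lat R →
  (∃ h ∈ OG R, ∀ x : Z4, x ∈ X ↔ (h : M4).mulVec x ∈ X') → ResX p R A X' → ResX p R A X

/-- TABU: two bases of the same lattice -/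
def TabUStmt : Prop := ∀ (p : ℕ) (X : Submodule ℤ Z4) (q : ℕ) (W M : M4), 0 < q → Bas p X W →
  W.det.natAbs = q → (∀ x, M.mulVec x ∈ X) → M.det.natAbs = q → ∃ U : M4ˣ, M = W * (U : M4)

/-- TABX: a lattice of the table -/
def TabXStmt : Prop := ∀ (p : ℕ) (R : M4) (A : List M4) (X : Submodule ℤ Z4) (q : ℕ) (M T : M4),
  p.Prime → Idx p X q → (∀ x, M.mulVec x ∈ X) → M.det.natAbs = q → T ∈ A →
  M.transpose * R * M = T → ResX p R A X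

/-! ### packed vectors -/

/-- packed residues -/
def pkZ (m : ℕ) (x : Z4) : ℕ :=
  (x 0 % m).toNat + 65536 * (x 1 % m).toNat + 4294967296 * (x 2 % m).toNat +
    281474976710656 * (x 3 % m).toNat

/-- packed matrix -/
def gpZ (m M : ℕ) (S : M4) : K.Gp :=
  K.Gp.mk (pkZ m (fun i => S i 0)) (pkZ m (fun i => S i 1)) (pkZ m (fun i => S i 2))
    (pkZ m (fun i => S i 3)) (pkZ m (S 0)) (pkZ m (S 1)) (pkZ m (S 2)) (pkZ m (S 3))
    (pkZ M (fun i => S i 0)) (pkZ M (fun i => S i 1)) (pkZ M (fun i => S i 2))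
    (pkZ M (fun i => S i 3))

/-- PKZ -/
def PkZStmt : Prop := ∀ m : ℕ, 1 ≤ m → m ≤ 127 →
  (∀ x y : Z4, pkZ m x = pkZ m y ↔ Cg m x y) ∧
  (∀ v : K.I4, K.pkI m v = pkZ m (vI v)) ∧
  (∀ x : Z4, Cg m (vI (K.unp (pkZ m x))) x) ∧
  (∀ x : Z4, ((K.dig0 (pkZ m x) : ℕ) : ℤ) = x 0 % m ∧ ((K.dig1 (pkZ m x) : ℕ) : ℤ) = x 1 % m ∧
    ((K.dig2 (pkZ m x) : ℕ) : ℤ) = x 2 % m ∧ ((K.dig3 (pkZ m x) : ℕ) : ℤ) = x 3 % m) ∧
  (∀ a b c d : ℕ, a < 65536 → b < 65536 → c < 65536 → d < 65536 →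
    K.redm m (K.p4 a b c d) = pkZ m (nz a b c d))

/-- ACT -/
def ActStmt : Prop := ∀ (m M : ℕ) (S : M4) (x : Z4), 1 ≤ m → m ≤ 127 → 1 ≤ M → M ≤ 127 →
  K.actC (gpZ m M S) m (pkZ m x) = pkZ m (S.mulVec x) ∧
  K.actR (gpZ m M S) m (pkZ m x) = pkZ m (S.transpose.mulVec x) ∧
  K.actM (gpZ m M S) M (pkZ M x) = pkZ M (S.mulVec x)

/-- MKG -/
def MkGStmt : Prop := ∀ (A : K.I10) (F : List K.I4) (m M : ℕ) (f : List K.Gp → ℕ),
  (∀ e ∈ F, IsRoot (matI A) (vI e)) → 1 ≤ m → m ≤ 127 → 1 ≤ M → M ≤ 127 →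
  K.mkGs A m M F f = f (F.map fun e => gpZ m M (rm (matI A) (vI e)))

/-- NRM: normalization of vectors -/
def NrmStmt : Prop := ∀ (p : ℕ) (x : Z4), p.Prime → p ≤ 127 → ¬ Cg p x 0 →
  (∃ (z : Z4) (c : ℤ), LnForm p z ∧ ¬ (p : ℤ) ∣ c ∧ Cg p z (c • x) ∧
    K.nrmP p (pkZ p x) = pkZ p z ∧ K.nrmP p (pkZ p z) = pkZ p z) ∧
  ∀ (y : Z4) (c : ℤ), ¬ (p : ℤ) ∣ c → Cg p y (c • x) →
    K.nrmP p (pkZ p y) = K.nrmP p (pkZ p x)

/-- COD2: codes of planes -/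
def Cod2Stmt : Prop := ∀ (p : ℕ) (x y : Z4), p.Prime → p ≤ 127 →
  (1 ≤ K.code2 p (pkZ p x) (pkZ p y) → Ind p x y) ∧
  (Ind p x y → ∀ (x' y' : Z4) (a b c d : ℤ), ¬ (p : ℤ) ∣ a * d - b * c →
    Cg p x' (a • x + b • y) → Cg p y' (c • x + d • y) →
    K.code2 p (pkZ p x') (pkZ p y') = K.code2 p (pkZ p x) (pkZ p y)) ∧
  (Ind p x y → ∃ (x' y' : Z4) (a b c d : ℤ), PlForm p x' y' ∧ ¬ (p : ℤ) ∣ a * d - b * c ∧
    Cg p x' (a • x + b • y) ∧ Cg p y' (c • x + d • y))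

/-! ### the functions of the orbit checker -/

/-- rows of a table -/
noncomputable def tlist (ta tn : ℕ) : List M4 := (List.range tn).map (mtab ta)

/-- the data are correct; the first `nw` reflections are in facets of a chamber -/
structure OCok (O : K.OC) (F : List K.I4) : Prop where
  lat : Lat (matI O.A)
  pr : O.p.Prime
  ple : O.p ≤ 127
  mge : 11 ≤ O.M
  mle : O.M ≤ 127
  hL : O.L = F.map fun e => gpZ O.p O.M (rm (matI O.A) (vI e))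
  hlen : O.len = F.length
  root : ∀ e ∈ F, IsRoot (matI O.A) (vI e)
  cham : 0 < O.nw → ∃ (n : ℕ) (f : Fin n → Z4) (o : R4), Cham (matI O.A) n f o ∧
    ∀ i < O.nw, ∃ (v : K.I4) (a j k : Fin n), F[i]? = some v ∧ f a = vI v ∧
      IsV (matI O.A) f a j k

/-- RESN, RESA, RESP -/
def ResNStmt : Prop := ∀ (O : K.OC) (F : List K.I4) (B : List Z4) (s : ℕ) (A : List M4),
  OCok O F → B.length ≤ 3 → K.resN O (B.map (pkZ O.p)) s ≠ 0 →
  ResX O.p (matI O.A) A (SubX O.p B)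
def ResAStmt : Prop := ∀ (O : K.OC) (F : List K.I4) (B : List Z4) (s : ℕ) (A : List M4),
  OCok O F → B.length ≤ 3 → K.resA O (B.map (pkZ O.p)) s ≠ 0 →
  ResX O.p (matI O.A) A (SubX O.p B)
def ResPStmt : Prop := ∀ (O : K.OC) (F : List K.I4) (B : List Z4) (s : ℕ) (A : List M4),
  OCok O F → B.length ≤ 3 → K.resP O (B.map (pkZ O.p)) s ≠ 0 →
  ResX O.p (matI O.A) A (SubX O.p B)

/-- REST -/
def ResTStmt : Prop := ∀ (O : K.OC) (F : List K.I4) (B : List Z4) (q c s : ℕ),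
  OCok O F → B.length ≤ 3 → K.resT O (B.map (pkZ O.p)) q c s ≠ 0 →
  ∃ (M T : M4), (∀ x, M.mulVec x ∈ SubX O.p B) ∧ M.det.natAbs = q ∧ T ∈ tlist O.ta O.tn ∧
    M.transpose * matI O.A * M = (c : ℤ) • T

/-- action on lines or on normals of hyperplanes -/
noncomputable def actB (b : Bool) : K.Gp → ℕ → ℕ → ℕ := if b then K.actR else K.actC
/-- line or hyperplane -/
def X1 (b : Bool) (p : ℕ) (x : Z4) : Submodule ℤ Z4 := if b then HypX p x else SubX p [x]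
/-- basis -/
def B1 (b : Bool) (x : Z4) : List Z4 := if b then hypB x else [x]
/-- index -/
def q1 (b : Bool) (p : ℕ) : ℕ := if b then p else p ^ 3

/-- WRD1 -/
def Wrd1Stmt : Prop := ∀ (O : K.OC) (F : List K.I4) (b : Bool) (x : Z4) (k s : ℕ), OCok O F →
  ¬ Cg O.p x 0 → K.nrmP O.p (pkZ O.p x) = pkZ O.p x →
  K.wrd1 O (actB b) (pkZ O.p x) k (pkZ O.p x) (pkZ O.p x) 1 K.S1 K.S2 K.S3 s ≠ 0 →
  NoRef O.p (matI O.A) (X1 b O.p x)

/-- WRD2 -/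
def Wrd2Stmt : Prop := ∀ (O : K.OC) (F : List K.I4) (x y : Z4) (k s : ℕ), OCok O F →
  Ind O.p x y →
  K.wrd2 O (pkZ O.p x) (pkZ O.p y) k (pkZ O.p x) (pkZ O.p y) (K.code2 O.p (pkZ O.p x) (pkZ O.p y))
    1 K.S1 K.S2 K.S3 s ≠ 0 →
  NoRef O.p (matI O.A) (SubX O.p [x, y])

/-- SUB1: a line or a hyperplane is resolved, or can be moved to a smaller one -/
def Sub1Stmt : Prop := ∀ (O : K.OC) (F : List K.I4) (b : Bool) (x : Z4) (s : ℕ), OCok O F →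
  LnForm O.p x →
  K.sub1 O (actB b) (q1 b O.p) (pkZ O.p x) ((B1 b x).map (pkZ O.p)) s ≠ 0 →
  ResX O.p (matI O.A) (tlist O.ta O.tn) (X1 b O.p x) ∨
    ∃ x' : Z4, ¬ Cg O.p x' 0 ∧ K.nrmP O.p (pkZ O.p x') < pkZ O.p x ∧
      ∃ h ∈ OG (matI O.A), ∀ v : Z4, v ∈ X1 b O.p x ↔ (h : M4).mulVec v ∈ X1 b O.p x'

/-- SUB2: the same for planes -/
def Sub2Stmt : Prop := ∀ (O : K.OC) (F : List K.I4) (x y : Z4) (s : ℕ), OCok O F →
  PlForm O.p x y → K.sub2 O (pkZ O.p x) (pkZ O.p y) s ≠ 0 →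
  ResX O.p (matI O.A) (tlist O.ta O.tn) (SubX O.p [x, y]) ∨
    ∃ x' y' : Z4, Ind O.p x' y' ∧
      K.code2 O.p (pkZ O.p x') (pkZ O.p y') < K.code2 O.p (pkZ O.p x) (pkZ O.p y) ∧
      ∃ h ∈ OG (matI O.A), ∀ v : Z4, v ∈ SubX O.p [x, y] ↔ (h : M4).mulVec v ∈ SubX O.p [x', y']

/-- LOOP: the loops meet all normalized vectors -/
def LoopStmt : Prop := ∀ (O : K.OC) (s : ℕ), 2 ≤ O.p → O.p ≤ 127 →
  (K.lnC O s ≠ 0 → ∀ x, LnForm O.p x → ∃ s',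
    K.sub1 O (actB false) (q1 false O.p) (pkZ O.p x) ((B1 false x).map (pkZ O.p)) s' ≠ 0) ∧
  (K.hpC O s ≠ 0 → ∀ x, LnForm O.p x → ∃ s',
    K.sub1 O (actB true) (q1 true O.p) (pkZ O.p x) ((B1 true x).map (pkZ O.p)) s' ≠ 0) ∧
  (K.plC O s ≠ 0 → ∀ x y, PlForm O.p x y → ∃ s', K.sub2 O (pkZ O.p x) (pkZ O.p y) s' ≠ 0)

/-- CLOI: closure of type I -/
def CloIStmt : Prop := ∀ (O : K.OC) (F : List K.I4) (s : ℕ), OCok O F → K.closI O s ≠ 0 →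
  CI O.p (matI O.A) (tlist O.ta O.tn)

/-- CLOII: closure of type II -/
def CloIIStmt : Prop := ∀ (O : K.OC) (F : List K.I4) (s : ℕ), OCok O F → K.closII O s ≠ 0 →
  CII O.p (matI O.A) (tlist O.ta O.tn)

/-- closures for the row `j` -/
def OrbC (ta j : ℕ) : Prop :=
  (CI 2 (mtab ta j) (tlist ta 919) ∧ CII 2 (mtab ta j) (tlist ta 919)) ∧
  (j < 290 → CI 3 (mtab ta j) (tlist ta 290) ∧ CII 3 (mtab ta j) (tlist ta 290)) ∧
  (j < 141 → CI 5 (mtab ta j) (tlist ta 141) ∧ CII 5 (mtab ta j) (tlist ta 141)) ∧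
  (j < 99 → CI 7 (mtab ta j) (tlist ta 99) ∧ CII 7 (mtab ta j) (tlist ta 99)) ∧
  (j < 78 → ∀ p : ℕ, p.Prime → 7 < p → CII p (mtab ta j) (tlist ta 78))

/-- ALLJ -/
def AllJStmt : Prop := ∀ (A : K.I10) (ta j : ℕ) (F : List K.I4) (nw s : ℕ), matI A = mtab ta j →
  Lat (matI A) → (∀ e ∈ F, IsRoot (matI A) (vI e)) →
  (0 < nw → ∃ (n : ℕ) (f : Fin n → Z4) (o : R4), Cham (matI A) n f o ∧
    ∀ i < nw, ∃ (v : K.I4) (a j k : Fin n), F[i]? = some v ∧ f a = vI v ∧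
      IsV (matI A) f a j k) →
  K.allJ A ta j F nw s ≠ 0 → OrbC ta j

/-- ORBT -/
def OrbTStmt : Prop := ∀ (ta j : ℕ) (l : List ℕ),
  (∀ i < l.length, Lat (mtab ta (j + i)) ∧ Reflective (mtab ta (j + i))) →
  K.orbT ta j l = true → ∀ i < l.length, OrbC ta (j + i)

/-- FINL: the classification -/
def FinlStmt : Prop := ∀ ta : ℕ,
  (∀ j < 919, Lat (mtab ta j) ∧ PrimG (mtab ta j) ∧ Reflective (mtab ta j)) →
  (∀ j < 919, OrbC ta j) → Stage1 (tlist ta 67) →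
  ∀ G : M4, Lat G → (Reflective G ↔ ∃ T ∈ tlist ta 919, Similar G T)

end Pool.Agent.Refl
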