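import Pool.Agent.Helper23_Refl.Tab
import Pool.Agent.Helper23_Refl.StmtC5
import Pool.Agent.Helper84_Refl.OrbT
import Pool.Agent.Helper23_Refl.Cert.Data

/-!
# The table, as kernel data
-/

namespace Pool.Agent.Refl.Fin

open Matrix

def R0 : List K.I10 := [K.I10.mk 2 1 1 0 2 0 1 (-22) (-1) 2,
  K.I10.mk 1 0 0 0 1 0 0 (-3) 0 5,
  K.I10.mk 1 0 0 0 1 0 0 33 0 (-3),
  K.I10.mk 2 3 3 3 2 (-8) (-3) 2 (-3) 18,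
  K.I10.mk 2 1 1 4 10 (-1) (-1) 2 (-1) 2,
  K.I10.mk 2 0 0 0 2 0 0 (-7) (-1) 2,
  K.I10.mk 4 2 0 0 4 0 0 (-6) (-3) 10,
  K.I10.mk 3 0 0 0 3 0 0 2 (-4) (-2),
  K.I10.mk 2 (-1) (-1) 0 22 0 1 (-34) (-1) 2,
  K.I10.mk 2 1 0 (-3) 2 0 3 4 2 (-2)]
theorem hR0 : T0 = R0.map matI := rfl
def R1 : List K.I10 := [K.I10.mk (-12) (-6) 0 0 32 0 0 2 (-1) 2,
  K.I10.mk (-2) (-1) 1 0 2 0 (-1) 2 (-1) 6,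
  K.I10.mk 4 0 0 (-2) 16 (-3) 0 (-6) 0 4,
  K.I10.mk 2 0 0 (-1) (-3) 0 0 35 0 2,
  K.I10.mk (-2) (-1) 0 0 2 0 0 12 (-2) 12,
  K.I10.mk 20 10 0 0 20 0 0 (-3) 0 1,
  K.I10.mk 5 0 0 0 6 0 0 5 0 (-3),
  K.I10.mk 2 (-1) (-1) (-2) 4 0 (-2) 2 0 (-4),
  K.I10.mk (-4) 2 0 0 4 0 0 18 (-1) 2,
  K.I10.mk 2 1 0 0 2 0 0 28 (-14) (-28)]
theorem hR1 : T1 = R1.map matI := rfl
def R2 : List K.I10 := [K.I10.mk 6 0 3 0 (-4) 2 (-2) 18 1 14,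
  K.I10.mk 14 7 0 0 14 0 0 4 (-2) (-4),
  K.I10.mk (-3) 0 0 0 14 0 0 2 (-1) 2,
  K.I10.mk 2 1 0 0 2 0 0 20 2 (-4),
  K.I10.mk 2 1 1 0 2 0 1 (-38) (-1) 2,
  K.I10.mk 2 1 0 0 2 0 0 5 0 (-15),
  K.I10.mk 1 0 0 0 1 0 0 (-3) 0 6,
  K.I10.mk 2 0 (-1) 0 104 0 (-2) 2 0 (-4),
  K.I10.mk 10 5 0 0 10 0 0 2 0 (-6),
  K.I10.mk 2 (-2) 0 1 (-1) 1 0 2 1 2]
theorem hR2 : T2 = R2.map matI := rfl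
def R3 : List K.I10 := [K.I10.mk (-30) 0 0 (-15) 2 0 1 2 (-1) 46,
  K.I10.mk 2 (-1) 0 (-2) 52 (-1) (-1) 2 (-2) (-2),
  K.I10.mk 2 (-1) 0 1 8 (-1) 0 2 (-1) (-20),
  K.I10.mk 10 2 (-3) 1 (-4) (-2) (-2) 10 (-1) 6,
  K.I10.mk 1 0 0 0 1 0 0 (-14) (-2) 4,
  K.I10.mk 7 (-1) (-2) (-1) 2 0 0 (-4) (-2) 2,
  K.I10.mk 6 1 (-2) (-4) 6 (-2) (-4) 12 (-2) (-4),
  K.I10.mk 3 0 0 0 3 0 0 1 0 (-5),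
  K.I10.mk 2 1 0 (-1) 2 0 0 44 (-22) (-14),
  K.I10.mk 10 5 0 0 10 0 0 2 0 (-1)]
theorem hR3 : T3 = R3.map matI := rfl
def R4 : List K.I10 := [K.I10.mk 6 0 0 0 (-3) 0 0 5 0 2,
  K.I10.mk 5 0 0 0 2 1 0 3 0 (-1),
  K.I10.mk 3 (-1) 0 (-1) 3 0 1 (-5) 0 3,
  K.I10.mk (-3) 0 0 0 42 0 0 1 0 1,
  K.I10.mk 1 0 0 0 30 0 0 1 0 (-15),
  K.I10.mk 6 (-1) (-2) 0 18 2 (-5) 4 0 (-10),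
  K.I10.mk 2 0 (-1) 0 2 0 (-8) 2 0 2,
  K.I10.mk 2 1 1 0 (-6) 0 (-1) 22 1 2,
  K.I10.mk 2 (-1) (-2) 0 16 (-1) (-1) (-2) (-2) 2,
  K.I10.mk 2 1 0 0 2 0 0 (-1) (-4) (-1)]
theorem hR4 : T4 = R4.map matI := rfl
def R5 : List K.I10 := [K.I10.mk 2 1 1 0 2 0 1 (-14) (-1) 2,
  K.I10.mk 10 5 0 0 10 0 0 3 0 (-1),
  K.I10.mk 1 0 0 0 1 0 0 21 0 (-7),
  K.I10.mk 1 0 0 0 (-6) 0 (-3) 1 0 9,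
  K.I10.mk (-2) (-1) 0 0 2 0 0 12 2 4,
  K.I10.mk 6 (-3) 0 0 1 1 (-5) 2 0 (-10),
  K.I10.mk 2 1 0 0 2 0 0 30 0 (-10),
  K.I10.mk 2 (-1) 0 (-1) 6 0 0 4 (-2) (-2),
  K.I10.mk (-3) 0 0 0 105 0 0 1 0 1,
  K.I10.mk 2 1 0 0 2 0 0 10 0 (-5)]
theorem hR5 : T5 = R5.map matI := rfl
def R6 : List K.I10 := [K.I10.mk 2 1 1 0 2 0 1 (-6) (-1) 2,
  K.I10.mk 14 1 2 1 14 (-2) (-1) (-4) (-2) 6,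
  K.I10.mk 2 0 0 (-1) (-3) 0 0 7 0 2,
  K.I10.mk 4 2 0 0 4 0 0 (-5) 0 15,
  K.I10.mk 2 1 1 0 2 0 1 (-54) (-1) 2,
  K.I10.mk 1 0 0 0 1 0 0 2 1 (-3),
  K.I10.mk (-2) (-3) (-1) (-1) 12 0 0 2 0 2,
  K.I10.mk 11 0 0 0 11 0 0 3 0 (-33),
  K.I10.mk 4 2 (-2) (-2) (-10) (-1) (-1) 34 1 34,
  K.I10.mk 22 (-11) 0 0 (-4) (-3) (-11) 6 0 22]
theorem hR6 : T6 = R6.map matI := rfl
def R7 : List K.I10 := [K.I10.mk (-22) (-11) 0 0 22 0 0 12 (-2) 4,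
  K.I10.mk 6 5 (-5) 5 6 16 (-5) 6 5 6,
  K.I10.mk 10 3 (-6) 3 10 6 (-3) (-12) 6 10,
  K.I10.mk 22 (-1) (-2) (-4) 94 (-7) (-1) (-14) (-2) 22,
  K.I10.mk 34 3 0 0 6 0 0 52 (-26) (-52),
  K.I10.mk (-2) (-15) (-11) (-11) 50 2 2 (-2) (-28) (-2),
  K.I10.mk (-4) (-2) 2 2 22 1 1 22 (-1) 22,
  K.I10.mk 92 46 0 0 92 0 0 (-34) 1 2,
  K.I10.mk 38 3 0 6 (-18) (-21) 6 14 0 12,
  K.I10.mk 14 7 0 0 2 6 (-6) 4 10 4]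
theorem hR7 : T7 = R7.map matI := rfl
def R8 : List K.I10 := [K.I10.mk (-16) (-6) 0 0 24 0 0 14 (-7) 14,
  K.I10.mk 28 0 0 (-14) (-8) 3 0 12 0 28,
  K.I10.mk 14 0 0 (-7) (-21) 0 0 5 0 14,
  K.I10.mk (-14) (-7) 0 0 14 0 0 36 2 4,
  K.I10.mk (-28) 14 0 0 28 0 0 6 1 6,
  K.I10.mk 6 (-15) (-5) (-7) 6 (-5) (-7) 10 0 98,
  K.I10.mk (-21) 0 0 0 2 0 0 14 (-7) 14,
  K.I10.mk 14 7 0 0 14 0 0 (-4) (-10) (-4),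
  K.I10.mk 14 0 (-7) 0 8 0 (-22) 14 0 8,
  K.I10.mk 22 7 7 16 14 0 (-7) 14 (-21) (-10)]
theorem hR8 : T8 = R8.map matI := rfl
def R9 : List K.I10 := [K.I10.mk 14 (-7) 0 (-7) 4 (-7) (-11) 14 (-7) 4,
  K.I10.mk 4 0 (-14) 18 14 7 0 14 14 4,
  K.I10.mk (-21) 0 0 0 6 0 0 7 0 7,
  K.I10.mk 7 0 0 0 (-21) 0 0 7 0 3,
  K.I10.mk (-21) 0 0 0 15 0 0 7 0 7,
  K.I10.mk (-4) (-2) 2 2 6 1 1 6 (-1) 6,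
  K.I10.mk 106 1 1 2 (-6) (-27) 2 (-6) 2 4,
  K.I10.mk 14 0 0 (-7) (-21) 0 0 1 0 14,
  K.I10.mk 7 0 0 0 7 0 0 7 0 (-1),
  K.I10.mk 5 0 0 0 5 0 0 (-15) 0 1]
theorem hR9 : T9 = R9.map matI := rfl
def R10 : List K.I10 := [K.I10.mk 10 0 0 0 10 0 0 1 4 1,
  K.I10.mk 15 0 0 0 15 0 0 2 0 (-10),
  K.I10.mk (-2) 0 (-12) 5 110 0 5 (-2) (-5) 10,
  K.I10.mk 52 2 0 0 (-8) 0 0 10 (-5) 10,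
  K.I10.mk (-10) 0 5 0 4 2 2 6 1 6,
  K.I10.mk 4 2 2 0 (-4) (-14) (-10) 6 (-5) 30,
  K.I10.mk 4 2 0 0 (-2) (-3) 6 2 1 18,
  K.I10.mk 20 0 0 (-10) (-4) (-11) 0 (-4) 0 20,
  K.I10.mk 10 0 0 (-5) (-15) 0 0 7 0 10,
  K.I10.mk (-2) (-1) 0 0 2 0 0 20 10 180]
theorem hR10 : T10 = R10.map matI := rfl
def R11 : List K.I10 := [K.I10.mk 10 5 5 0 14 1 (-9) 14 (-1) (-6),
  K.I10.mk 10 5 0 0 10 0 0 (-28) (-14) 28,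
  K.I10.mk 70 35 0 0 70 0 0 (-4) (-2) 4,
  K.I10.mk 10 0 (-5) 0 16 0 6 10 0 (-24),
  K.I10.mk 3 (-2) 2 2 3 2 2 3 (-2) 3,
  K.I10.mk 10 (-5) 0 (-5) 8 (-5) (-13) 10 (-5) 8,
  K.I10.mk 14 (-10) 3 (-5) (-20) 0 (-10) 6 0 30,
  K.I10.mk 5 0 0 0 5 0 0 2 8 2,
  K.I10.mk 6 0 (-3) 0 10 (-5) 0 (-1) (-5) 10,
  K.I10.mk 15 0 0 0 15 0 0 5 0 (-1)]
theorem hR11 : T11 = R11.map matI := rfl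
def R12 : List K.I10 := [K.I10.mk 30 0 0 0 (-15) 0 0 1 0 10,
  K.I10.mk 10 0 (-5) 0 (-6) 0 0 10 0 10,
  K.I10.mk 10 5 0 0 10 0 0 3 0 (-5),
  K.I10.mk 2 8 3 0 2 (-3) 0 2 (-5) 10,
  K.I10.mk (-10) 0 5 0 12 0 (-6) 10 0 28,
  K.I10.mk 14 1 (-1) 2 2 0 0 (-14) (-2) 4,
  K.I10.mk 2 1 0 0 (-2) 0 0 60 10 20,
  K.I10.mk 17 0 4 (-1) 5 0 0 8 (-2) (-7),
  K.I10.mk (-15) 0 0 0 21 0 0 5 0 5,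
  K.I10.mk (-6) 5 16 0 10 5 5 (-6) 0 10]
theorem hR12 : T12 = R12.map matI := rfl
def R13 : List K.I10 := [K.I10.mk 38 7 5 5 8 (-5) (-5) 10 0 10,
  K.I10.mk 22 11 0 0 (-22) 0 0 60 (-10) 20,
  K.I10.mk 54 (-1) (-2) 7 54 (-2) 7 (-4) 14 6,
  K.I10.mk 16 6 0 0 (-24) 0 0 70 (-35) 70,
  K.I10.mk 140 0 0 (-70) 2 1 0 (-52) 0 140,
  K.I10.mk 70 0 0 (-35) (-105) 0 0 1 0 70,
  K.I10.mk (-14) (-7) 0 0 14 0 0 60 (-10) 60,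
  K.I10.mk 2 1 18 37 18 9 1 22 (-17) 2,
  K.I10.mk 70 0 (-35) 0 (-8) 0 18 70 0 12,
  K.I10.mk 70 (-35) 0 0 (-4) (-35) 9 70 0 6]
theorem hR13 : T13 = R13.map matI := rfl
def R14 : List K.I10 := [K.I10.mk (-105) 0 0 0 3 0 0 35 0 35,
  K.I10.mk 3 0 0 0 3 0 0 (-1) 0 15,
  K.I10.mk 2 1 0 0 5 0 0 (-3) 0 45,
  K.I10.mk 1 0 0 0 1 0 0 (-3) 0 45,
  K.I10.mk 3 0 0 0 3 0 0 11 0 (-9),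
  K.I10.mk 14 2 1 1 (-4) (-2) (-2) 14 (-1) 62,
  K.I10.mk 6 9 9 0 (-2) (-9) 14 6 0 28,
  K.I10.mk 2 2 3 3 32 0 0 6 (-3) 6,
  K.I10.mk 6 0 0 0 6 0 0 (-1) 4 (-1),
  K.I10.mk 4 2 0 0 4 0 0 (-18) (-9) 30]
theorem hR14 : T14 = R14.map matI := rfl
def R15 : List K.I10 := [K.I10.mk 2 4 (-4) (-3) 2 4 3 2 (-3) 30,
  K.I10.mk 10 4 0 3 10 0 (-3) (-102) 3 6,
  K.I10.mk 2 1 0 0 2 0 9 12 6 (-6),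
  K.I10.mk 12 0 6 0 6 0 3 12 0 (-2),
  K.I10.mk 6 3 0 (-3) 2 (-1) 8 38 (-1) 2,
  K.I10.mk (-6) 0 0 (-3) 18 0 9 10 (-1) 22,
  K.I10.mk 6 3 0 0 2 3 9 6 0 (-18),
  K.I10.mk 6 3 0 0 6 0 9 4 2 (-2),
  K.I10.mk 2 8 1 (-4) (-4) 4 2 14 (-2) 44,
  K.I10.mk 2 3 3 (-1) 6 0 0 6 0 14]
theorem hR15 : T15 = R15.map matI := rfl
def R16 : List K.I10 := [K.I10.mk 2 (-1) 7 (-3) 2 1 0 2 3 42,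
  K.I10.mk 6 0 3 0 4 2 (-2) (-2) (-1) 46,
  K.I10.mk (-2) (-1) 1 0 2 0 (-1) 2 (-1) 46,
  K.I10.mk 2 (-2) 1 7 6 (-1) (-1) 2 (-1) 2,
  K.I10.mk 20 10 0 0 20 0 0 (-9) 0 3,
  K.I10.mk 4 (-2) (-12) 0 16 6 0 (-9) 0 3,
  K.I10.mk 20 10 0 0 20 0 0 (-3) 0 9,
  K.I10.mk 60 30 0 0 60 0 0 (-3) 0 1,
  K.I10.mk 2 1 0 0 2 0 0 84 (-42) (-84),
  K.I10.mk 6 0 0 (-3) 6 24 9 6 (-9) 10]
theorem hR16 : T16 = R16.map matI := rfl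
def R17 : List K.I10 := [K.I10.mk 14 (-1) 3 1 (-10) 0 1 30 (-3) 14,
  K.I10.mk 14 7 0 0 14 0 0 12 (-6) (-12),
  K.I10.mk 6 (-3) (-3) 0 22 0 6 6 0 (-36),
  K.I10.mk 2 1 0 0 14 0 0 12 (-18) (-36),
  K.I10.mk 6 3 (-3) 0 6 0 3 (-10) 3 6,
  K.I10.mk 4 (-2) 2 (-2) 10 17 1 (-2) (-1) 10,
  K.I10.mk 10 (-1) 0 1 2 (-1) 0 (-38) (-1) 2,
  K.I10.mk 2 1 0 0 2 0 0 15 0 (-45),
  K.I10.mk 6 3 0 0 6 0 0 15 0 (-5),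
  K.I10.mk 2 1 0 0 2 0 0 45 0 (-15)]
theorem hR17 : T17 = R17.map matI := rfl
def R18 : List K.I10 := [K.I10.mk 6 (-3) 0 0 6 (-3) 0 7 0 (-15),
  K.I10.mk 3 0 0 0 3 0 0 (-1) 0 18,
  K.I10.mk 3 0 0 0 3 0 0 1 4 (-2),
  K.I10.mk 10 5 0 0 10 0 0 6 0 (-18),
  K.I10.mk 8 (-1) 0 1 2 0 13 6 0 2,
  K.I10.mk 10 5 0 0 10 0 0 18 0 (-6),
  K.I10.mk 30 15 0 0 30 0 0 2 0 (-6),
  K.I10.mk 1 0 0 0 (-3) 0 0 9 3 6,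
  K.I10.mk 7 2 0 0 1 3 3 3 (-6) 3,
  K.I10.mk 2 (-1) 0 0 (-1) 0 6 2 (-1) (-1)]
theorem hR18 : T18 = R18.map matI := rfl
def R19 : List K.I10 := [K.I10.mk (-4) 0 (-3) (-3) 24 (-3) 3 6 0 6,
  K.I10.mk 10 (-6) 5 (-3) (-12) 0 (-6) 10 0 18,
  K.I10.mk 3 0 0 0 3 0 0 (-2) 8 (-2),
  K.I10.mk 10 0 (-5) 0 6 (-3) 0 1 (-3) 6,
  K.I10.mk 11 1 (-3) (-1) 2 0 1 (-6) 3 11,
  K.I10.mk 7 (-2) (-3) (-1) 4 0 2 (-6) 0 10,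
  K.I10.mk 10 5 0 0 10 0 0 36 (-6) (-12),
  K.I10.mk 1 0 0 0 9 0 0 3 0 (-15),
  K.I10.mk 2 1 0 0 5 0 0 3 0 (-15),
  K.I10.mk 3 0 0 0 3 0 0 (-4) 1 11]
theorem hR19 : T19 = R19.map matI := rfl
def R20 : List K.I10 := [K.I10.mk 10 5 0 0 10 0 0 6 0 (-3),
  K.I10.mk 18 3 (-6) 3 2 (-6) (-11) 12 (-6) 2,
  K.I10.mk 2 0 1 0 6 0 (-24) 2 0 6,
  K.I10.mk 6 6 3 0 (-2) 0 0 6 0 6,
  K.I10.mk 2 0 (-1) 0 (-30) 0 0 2 0 18,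
  K.I10.mk 10 0 4 3 (-18) 0 (-3) 10 (-3) 6,
  K.I10.mk 4 0 0 2 48 (-3) 0 (-6) 0 4,
  K.I10.mk (-14) 0 3 (-3) 18 9 9 18 0 18,
  K.I10.mk (-2) 0 (-3) (-3) 6 (-3) 3 6 0 6,
  K.I10.mk 2 5 2 1 2 (-1) (-2) 14 1 14]
theorem hR20 : T20 = R20.map matI := rfl
def R21 : List K.I10 := [K.I10.mk 4 (-2) 2 2 (-14) (-1) (-1) 10 1 10,
  K.I10.mk 6 1 (-1) 2 2 0 0 (-14) (-2) 4,
  K.I10.mk 10 (-1) 0 1 2 (-1) 0 (-14) (-1) 2,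
  K.I10.mk 3 0 0 0 3 0 0 7 0 (-21),
  K.I10.mk 3 0 0 0 (-9) 0 0 3 0 7,
  K.I10.mk 3 0 0 0 (-1) 0 8 3 0 (-1),
  K.I10.mk 1 0 0 0 (-6) 0 (-3) 9 0 9,
  K.I10.mk 6 (-3) 0 0 (-2) (-4) (-4) 4 (-2) 4,
  K.I10.mk 2 0 1 (-7) 12 6 0 26 1 2,
  K.I10.mk 2 (-3) (-2) (-7) 2 (-2) (-3) 4 (-2) 2]
theorem hR21 : T21 = R21.map matI := rfl
def R22 : List K.I10 := [K.I10.mk 2 1 0 0 2 0 0 30 0 (-15),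
  K.I10.mk 33 0 0 0 33 0 0 1 0 (-99),
  K.I10.mk 22 0 0 11 (-30) (-6) (-3) 12 6 58,
  K.I10.mk (-22) (-33) 0 22 (-12) (-9) 0 18 0 44,
  K.I10.mk 38 1 (-2) 1 38 2 (-1) (-4) 2 38,
  K.I10.mk 10 3 (-6) 3 114 6 (-3) (-12) 6 114,
  K.I10.mk 10 3 (-6) 3 10 6 (-3) (-12) 6 114,
  K.I10.mk 66 (-3) (-9) (-12) 22 1 (-3) (-62) (-9) 66,
  K.I10.mk 98 1 0 0 2 0 0 156 (-78) (-156),
  K.I10.mk (-2) (-9) 5 (-21) 18 3 3 46 (-6) (-6)]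
theorem hR22 : T22 = R22.map matI := rfl
def R23 : List K.I10 := [K.I10.mk (-6) 33 (-6) (-3) (-6) (-6) (-3) 20 10 122,
  K.I10.mk 2 (-14) (-15) 0 20 (-12) 0 2 13 26,
  K.I10.mk 92 46 0 0 92 0 0 (-102) 3 6,
  K.I10.mk 82 (-26) 5 3 52 (-10) (-6) (-14) 33 6,
  K.I10.mk 98 7 21 0 2 (-21) 18 42 0 36,
  K.I10.mk 106 1 (-1) 2 (-62) (-1) 2 106 (-2) 4,
  K.I10.mk 10 (-1) 4 (-6) (-2) 8 (-12) 52 6 12,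
  K.I10.mk 26 3 (-8) 4 6 12 (-6) (-4) 2 20,
  K.I10.mk 74 1 (-1) (-20) 2 19 (-19) 2 19 2,
  K.I10.mk 30 9 3 12 (-54) 3 (-9) 22 (-3) 30]
theorem hR23 : T23 = R23.map matI := rfl
def R24 : List K.I10 := [K.I10.mk 14 7 0 0 14 0 0 60 (-6) (-12),
  K.I10.mk 30 (-3) 3 (-6) (-6) 6 (-12) 22 (-2) 4,
  K.I10.mk 6 15 30 (-12) 34 5 5 10 10 94,
  K.I10.mk 26 5 14 (-7) 26 14 (-7) (-28) 14 98,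
  K.I10.mk 42 (-21) 0 0 34 13 6 34 6 (-36),
  K.I10.mk 14 7 0 0 98 0 0 12 (-18) (-36),
  K.I10.mk 21 0 0 0 (-7) 0 0 21 0 9,
  K.I10.mk 21 0 0 0 (-63) 0 0 21 0 1,
  K.I10.mk 7 0 0 0 (-21) 0 0 63 0 3,
  K.I10.mk 15 0 0 0 15 0 0 (-5) 0 3]
theorem hR24 : T24 = R24.map matI := rfl
def R25 : List K.I10 := [K.I10.mk 10 5 0 0 25 0 0 (-15) 0 9,
  K.I10.mk 5 0 0 0 5 0 0 (-15) 0 9,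
  K.I10.mk 30 0 0 0 30 0 0 (-5) 0 3,
  K.I10.mk 30 (-15) 0 0 (-34) (-7) 15 14 0 30,
  K.I10.mk 34 (-5) 17 11 10 20 5 (-14) (-17) 34,
  K.I10.mk (-2) 6 5 5 12 0 0 10 (-5) 10,
  K.I10.mk 46 2 1 1 4 2 2 (-14) 1 46,
  K.I10.mk (-10) 5 5 (-15) 14 (-4) 0 14 0 30,
  K.I10.mk (-10) 0 5 0 4 2 2 6 1 46,
  K.I10.mk (-14) (-2) 0 (-1) 4 0 2 10 5 26]
theorem hR25 : T25 = R25.map matI := rfl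
def R26 : List K.I10 := [K.I10.mk 2 (-24) (-9) (-60) (-12) (-42) (-30) 18 (-15) 90,
  K.I10.mk 12 (-6) 0 0 2 (-3) 6 6 3 54,
  K.I10.mk 10 5 0 0 10 0 0 (-84) (-42) 84,
  K.I10.mk 70 35 0 0 70 0 0 (-12) (-6) 12,
  K.I10.mk 5 0 0 0 9 6 6 9 (-6) 9,
  K.I10.mk 23 (-2) (-4) 1 23 1 (-4) 2 (-8) 2,
  K.I10.mk 13 (-1) 1 (-4) 2 3 8 2 (-3) 2,
  K.I10.mk 38 (-30) 1 (-15) (-60) 0 (-30) 2 0 90,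
  K.I10.mk 15 0 0 0 15 0 0 (-10) 0 6,
  K.I10.mk 2 0 (-3) 0 30 (-15) 0 (-3) (-15) 30]
theorem hR26 : T26 = R26.map matI := rfl
def R27 : List K.I10 := [K.I10.mk 6 0 (-3) (-3) 20 (-10) 0 (-1) (-6) 39,
  K.I10.mk 6 0 (-3) 12 10 (-5) 0 19 9 (-6),
  K.I10.mk 5 0 0 0 45 0 0 15 0 (-3),
  K.I10.mk 10 5 0 0 25 0 0 15 0 (-3),
  K.I10.mk 15 0 0 0 15 0 0 4 1 (-11),
  K.I10.mk 10 0 5 0 (-18) 0 0 10 0 30,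
  K.I10.mk 8 1 (-1) 0 2 13 0 2 0 30,
  K.I10.mk 10 0 (-5) 0 (-6) 0 0 10 0 90,
  K.I10.mk 2 24 11 11 18 (-3) (-3) 38 (-7) 38,
  K.I10.mk 14 (-2) (-1) (-1) (-4) (-2) (-2) 14 (-1) 14]
theorem hR27 : T27 = R27.map matI := rfl
def R28 : List K.I10 := [K.I10.mk 20 10 0 0 20 0 0 (-18) (-9) 18,
  K.I10.mk 10 10 5 0 (-2) (-1) (-18) 22 (-9) 18,
  K.I10.mk 20 10 0 0 20 0 0 2 (-7) 2,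
  K.I10.mk 12 4 2 (-2) (-2) (-6) 1 2 3 22,
  K.I10.mk (-30) 0 15 0 4 0 (-2) 30 0 76,
  K.I10.mk 34 3 5 0 6 0 0 (-2) 6 12,
  K.I10.mk 2 3 3 (-3) 6 0 0 6 0 126,
  K.I10.mk (-2) 0 (-3) (-3) 30 3 (-3) 6 0 6,
  K.I10.mk 70 0 (-5) 0 12 0 (-6) 10 0 (-12),
  K.I10.mk 14 (-2) (-1) (-1) (-4) (-2) (-2) 14 (-1) 134]
theorem hR28 : T28 = R28.map matI := rfl
def R29 : List K.I10 := [K.I10.mk 1 0 0 0 4 0 0 (-12) 0 20,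
  K.I10.mk 4 0 (-2) 0 4 (-2) 0 (-1) 0 20,
  K.I10.mk 1 0 0 0 1 0 0 (-12) 0 20,
  K.I10.mk 3 0 (-2) 7 1 0 0 4 2 3,
  K.I10.mk 2 (-1) 0 0 (-2) (-1) 0 2 0 20,
  K.I10.mk 3 0 0 1 (-5) (-2) 2 4 0 3,
  K.I10.mk 1 0 0 0 1 0 0 (-3) 0 20,
  K.I10.mk 2 (-1) 0 0 6 0 (-1) (-3) 0 2,
  K.I10.mk 3 (-1) 0 (-1) 3 (-2) (-1) (-13) 0 3,
  K.I10.mk 4 0 0 0 4 0 0 1 (-4) 1]
theorem hR29 : T29 = R29.map matI := rfl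
def R30 : List K.I10 := [K.I10.mk 8 0 (-4) 0 8 (-4) 0 (-3) (-1) 2,
  K.I10.mk 3 0 0 0 12 0 0 8 (-16) (-8),
  K.I10.mk 3 0 0 0 3 0 0 4 (-8) (-4),
  K.I10.mk 5 0 (-1) (-8) 12 0 0 5 (-8) (-8),
  K.I10.mk 4 (-1) (-2) 0 4 (-1) 0 4 0 (-20),
  K.I10.mk 2 1 0 (-2) 2 0 2 20 0 (-4),
  K.I10.mk 6 0 0 0 6 0 0 5 0 (-4),
  K.I10.mk 3 0 0 0 3 0 0 8 (-16) (-8),
  K.I10.mk 5 0 (-1) (-8) 3 0 0 5 (-8) (-8),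
  K.I10.mk 17 0 0 1 3 0 0 8 0 (-7)]
theorem hR30 : T30 = R30.map matI := rfl
def R31 : List K.I10 := [K.I10.mk 5 2 (-1) 0 5 2 0 5 0 (-40),
  K.I10.mk 3 0 0 0 3 0 0 5 0 (-4),
  K.I10.mk 2 1 0 (-2) 2 0 2 5 0 (-4),
  K.I10.mk 3 0 0 0 12 0 0 8 (-4) (-8),
  K.I10.mk 1 0 (-2) (-5) 12 0 0 8 (-2) 1,
  K.I10.mk 3 0 0 0 3 0 0 10 0 (-8),
  K.I10.mk 1 0 0 (-5) 3 0 0 10 0 1,
  K.I10.mk 3 0 0 0 3 0 0 8 (-4) (-8),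
  K.I10.mk 1 0 (-2) (-5) 3 0 0 8 (-2) 1,
  K.I10.mk 6 0 0 (-3) 6 0 (-3) 8 (-2) 1]
theorem hR31 : T31 = R31.map matI := rfl
def R32 : List K.I10 := [K.I10.mk 3 0 0 0 12 0 0 2 (-4) (-2),
  K.I10.mk (-1) (-1) 1 0 4 0 (-2) 4 (-2) 12,
  K.I10.mk 40 20 0 0 40 0 0 (-1) 0 3,
  K.I10.mk 7 0 3 (-6) 24 0 0 7 6 (-12),
  K.I10.mk 16 0 4 (-8) 13 (-4) 1 8 0 (-19),
  K.I10.mk 10 0 0 0 3 0 0 10 0 (-6),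
  K.I10.mk 7 0 3 (-6) 6 0 0 7 6 (-12),
  K.I10.mk 2 0 (-3) (-8) 24 0 0 2 (-3) 2,
  K.I10.mk 2 0 (-3) (-8) 6 0 0 2 (-3) 2,
  K.I10.mk 2 (-3) (-3) (-8) 3 (-3) (-3) 2 (-3) 2]
theorem hR32 : T32 = R32.map matI := rfl
def R33 : List K.I10 := [K.I10.mk 5 0 0 0 24 0 0 5 0 (-3),
  K.I10.mk 2 0 (-1) (-2) 20 0 0 2 0 (-4),
  K.I10.mk (-3) 0 0 0 56 0 0 8 (-4) 8,
  K.I10.mk 11 (-5) 0 0 (-13) 0 0 8 (-4) 8,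
  K.I10.mk (-6) 0 0 0 7 0 0 4 (-2) 4,
  K.I10.mk (-3) 0 0 0 14 0 0 8 (-4) 8,
  K.I10.mk (-12) 0 0 0 56 0 0 2 (-1) 2,
  K.I10.mk (-3) 0 0 0 56 0 0 2 (-1) 2,
  K.I10.mk 11 (-5) 0 0 (-13) 0 0 2 (-1) 2,
  K.I10.mk (-12) 0 0 0 14 0 0 2 (-1) 2]
theorem hR33 : T33 = R33.map matI := rfl
def R34 : List K.I10 := [K.I10.mk 8 4 0 0 8 0 0 5 0 (-60),
  K.I10.mk 2 1 0 0 2 0 0 20 0 (-60),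
  K.I10.mk 8 4 0 0 8 0 0 5 0 (-15),
  K.I10.mk 2 1 0 0 2 0 0 5 0 (-60),
  K.I10.mk 1 0 0 0 4 0 0 (-12) 0 24,
  K.I10.mk 1 0 0 0 1 0 0 (-6) 0 12,
  K.I10.mk 4 0 (-2) 0 4 (-2) 0 (-1) 0 24,
  K.I10.mk 7 0 0 (-2) 4 0 0 (-12) 0 4,
  K.I10.mk 4 1 0 2 2 0 (-1) (-6) 0 4,
  K.I10.mk 5 2 0 1 4 0 (-2) (-24) 0 5]
theorem hR34 : T34 = R34.map matI := rfl
def R35 : List K.I10 := [K.I10.mk 2 0 0 0 2 0 0 (-6) 0 3,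
  K.I10.mk 1 0 0 0 1 0 0 (-12) 0 24,
  K.I10.mk (-2) 0 0 0 1 0 0 6 0 24,
  K.I10.mk 7 0 0 (-2) 1 0 0 (-12) 0 4,
  K.I10.mk 4 0 0 (-2) 1 0 0 (-12) 6 4,
  K.I10.mk 2 (-1) 0 0 (-2) (-1) 0 2 0 24,
  K.I10.mk 7 0 0 (-2) (-2) 0 0 6 0 4,
  K.I10.mk 4 0 0 (-2) (-2) (-2) 3 4 0 4,
  K.I10.mk 2 (-1) 0 0 7 0 (-1) (-12) 0 2,
  K.I10.mk 4 2 (-2) 0 4 2 0 (-1) (-2) 4]
theorem hR35 : T35 = R35.map matI := rfl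
def R36 : List K.I10 := [K.I10.mk 1 0 0 0 4 0 0 (-12) 0 6,
  K.I10.mk 4 0 (-2) 0 4 (-2) 0 (-1) 0 6,
  K.I10.mk 1 0 0 0 1 0 0 (-3) 0 24,
  K.I10.mk 7 0 0 (-2) 1 0 0 (-3) 0 4,
  K.I10.mk 2 (-1) 0 0 7 0 (-1) (-3) 0 2,
  K.I10.mk 2 (-1) 0 0 (-5) 0 (-1) 3 0 2,
  K.I10.mk 10 5 0 0 10 0 0 (-4) 0 12,
  K.I10.mk (-8) 0 (-2) (-2) 4 0 0 5 (-1) 5,
  K.I10.mk 3 0 0 0 (-4) 0 0 12 4 8,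
  K.I10.mk 2 (-2) 1 0 (-4) 2 0 2 2 8]
theorem hR36 : T36 = R36.map matI := rfl
def R37 : List K.I10 := [K.I10.mk 7 1 1 0 (-3) 0 0 2 1 2,
  K.I10.mk 6 0 1 0 (-1) 0 2 2 1 2,
  K.I10.mk 1 0 0 0 1 0 0 (-56) (-8) 16,
  K.I10.mk 7 (-2) (-1) (-2) 8 (-4) 0 (-2) (-4) 8,
  K.I10.mk 3 0 0 0 12 0 0 4 0 (-20),
  K.I10.mk 1 5 0 (-11) 1 0 5 4 0 1,
  K.I10.mk (-1) 0 (-2) (-7) 3 0 0 4 (-2) (-1),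
  K.I10.mk (-1) (-1) (-1) (-7) 4 (-2) (-1) 4 (-1) (-1),
  K.I10.mk 1 5 0 (-11) 1 0 5 1 0 1,
  K.I10.mk 20 10 0 0 20 0 0 1 0 (-2)]
theorem hR37 : T37 = R37.map matI := rfl
def R38 : List K.I10 := [K.I10.mk 40 20 0 0 40 0 0 1 (-3) 1,
  K.I10.mk 40 20 0 0 40 0 0 8 0 (-1),
  K.I10.mk 10 5 0 0 10 0 0 8 0 (-4),
  K.I10.mk 40 20 0 0 40 0 0 2 0 (-1),
  K.I10.mk 10 5 0 0 10 0 0 2 0 (-4),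
  K.I10.mk 10 5 0 0 10 0 0 1 (-3) 1,
  K.I10.mk 10 5 0 0 10 0 0 8 0 (-1),
  K.I10.mk 3 (-9) 0 0 3 0 0 20 0 8,
  K.I10.mk 4 (-3) 1 0 (-6) 3 0 4 0 4,
  K.I10.mk 5 (-6) 0 4 (-12) 0 0 20 0 8]
theorem hR38 : T38 = R38.map matI := rfl
def R39 : List K.I10 := [K.I10.mk 5 (-1) 0 0 (-2) 1 0 5 0 12,
  K.I10.mk 12 0 0 0 2 3 2 2 (-2) 4,
  K.I10.mk 11 0 (-1) 0 (-3) 0 0 11 0 8,
  K.I10.mk 13 0 1 (-4) (-3) 0 0 13 (-4) 8,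
  K.I10.mk 3 0 0 0 1 4 0 1 0 4,
  K.I10.mk 3 0 0 0 (-1) 11 0 (-1) 0 8,
  K.I10.mk 3 0 0 0 2 3 2 2 (-2) 4,
  K.I10.mk 11 5 (-1) 0 4 5 4 11 0 8,
  K.I10.mk 6 0 0 0 (-3) 0 0 5 0 8,
  K.I10.mk 6 0 0 0 (-1) 0 5 5 0 (-1)]
theorem hR39 : T39 = R39.map matI := rfl
def R40 : List K.I10 := [K.I10.mk 5 0 0 0 8 4 0 12 0 (-4),
  K.I10.mk 5 0 0 0 1 1 (-3) 9 1 1,
  K.I10.mk 5 0 0 0 2 1 0 2 (-2) (-4),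
  K.I10.mk (-1) 0 2 2 168 0 0 4 0 4,
  K.I10.mk 41 2 2 2 (-4) (-4) (-4) 4 0 4,
  K.I10.mk (-6) 0 0 0 21 0 0 2 0 2,
  K.I10.mk (-1) 0 2 2 42 0 0 4 0 4,
  K.I10.mk (-2) 0 1 1 168 0 0 2 0 2,
  K.I10.mk (-2) 0 1 1 42 0 0 2 0 2,
  K.I10.mk (-2) 3 1 1 39 0 0 2 0 2]
theorem hR40 : T40 = R40.map matI := rfl
def R41 : List K.I10 := [K.I10.mk (-3) 0 0 0 168 0 0 1 0 1,
  K.I10.mk (-13) 0 2 (-2) 120 0 0 4 0 4,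
  K.I10.mk 4 2 0 (-2) 17 2 43 4 (-2) 17,
  K.I10.mk 2 0 0 0 15 0 0 2 0 (-30),
  K.I10.mk (-13) 0 2 (-2) 30 0 0 4 0 4,
  K.I10.mk 2 0 (-1) 0 120 0 0 (-14) (-1) 2,
  K.I10.mk 2 0 (-1) 0 30 0 0 (-14) (-1) 2,
  K.I10.mk 2 0 (-1) 0 15 0 0 (-29) (-1) 2,
  K.I10.mk 1 0 0 0 120 0 0 1 0 (-15),
  K.I10.mk 2 (-1) 0 0 (-10) 3 (-12) 6 0 8]
theorem hR41 : T41 = R41.map matI := rfl
def R42 : List K.I10 := [K.I10.mk 40 20 0 0 40 0 0 3 0 (-4),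
  K.I10.mk 10 5 0 0 10 0 0 3 0 (-4),
  K.I10.mk 1 (-5) 1 (-5) 2 0 (-22) 2 0 2,
  K.I10.mk 4 2 0 0 4 0 0 5 0 (-10),
  K.I10.mk 8 4 0 0 8 0 0 5 (-15) 5,
  K.I10.mk 8 4 0 0 8 0 0 40 0 (-5),
  K.I10.mk 2 1 0 0 2 0 0 40 0 (-20),
  K.I10.mk 8 4 0 0 8 0 0 10 0 (-5),
  K.I10.mk 2 1 0 0 2 0 0 10 0 (-20),
  K.I10.mk 2 1 0 0 2 0 0 5 (-15) 5]
theorem hR42 : T42 = R42.map matI := rfl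
def R43 : List K.I10 := [K.I10.mk 2 1 0 0 2 0 0 40 0 (-5),
  K.I10.mk (-2) (-11) (-1) (-2) 14 0 (-4) 2 0 8,
  K.I10.mk (-21) 0 0 0 8 0 0 56 (-28) 56,
  K.I10.mk (-19) 4 0 0 8 0 0 56 (-28) 56,
  K.I10.mk (-42) 0 0 0 1 0 0 28 (-14) 28,
  K.I10.mk (-21) 0 0 0 2 0 0 56 (-28) 56,
  K.I10.mk (-84) 0 0 0 8 0 0 14 (-7) 14,
  K.I10.mk (-21) 0 0 0 8 0 0 14 (-7) 14,
  K.I10.mk (-19) 4 0 0 8 0 0 14 (-7) 14,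
  K.I10.mk (-84) 0 0 0 2 0 0 14 (-7) 14]
theorem hR43 : T43 = R43.map matI := rfl
def R44 : List K.I10 := [K.I10.mk (-7) 0 14 14 24 0 0 28 0 28,
  K.I10.mk (-1) 12 14 14 24 0 0 28 0 28,
  K.I10.mk (-42) 0 0 0 3 0 0 14 0 14,
  K.I10.mk (-7) 0 14 14 6 0 0 28 0 28,
  K.I10.mk (-14) 0 7 7 24 0 0 14 0 14,
  K.I10.mk (-14) 0 7 7 6 0 0 14 0 14,
  K.I10.mk (-15) (-6) 0 0 13 7 7 14 0 14,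
  K.I10.mk (-21) 0 0 0 24 0 0 7 0 7,
  K.I10.mk 5 0 0 0 20 0 0 (-60) 0 4,
  K.I10.mk 20 0 (-10) 0 20 (-10) 0 (-5) 0 4]
theorem hR44 : T44 = R44.map matI := rfl
def R45 : List K.I10 := [K.I10.mk 5 0 0 0 5 0 0 (-60) 0 4,
  K.I10.mk 31 0 (-1) 2 5 0 0 (-9) (-2) 4,
  K.I10.mk 10 (-5) 0 0 (-10) (-5) 0 10 0 4,
  K.I10.mk (-1) (-2) (-2) (-6) 11 1 (-2) 11 (-2) 4,
  K.I10.mk 5 0 0 0 5 0 0 (-15) 0 4,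
  K.I10.mk 6 1 0 2 6 0 2 (-15) 0 4,
  K.I10.mk 7 3 3 (-3) 7 (-3) 3 2 8 2,
  K.I10.mk 20 0 0 0 20 0 0 5 0 (-3),
  K.I10.mk 21 (-1) 1 2 21 (-1) (-2) (-14) 2 4,
  K.I10.mk 15 0 0 0 60 0 0 8 0 (-40)]
theorem hR45 : T45 = R45.map matI := rfl
def R46 : List K.I10 := [K.I10.mk 15 0 0 0 15 0 0 4 0 (-20),
  K.I10.mk 17 0 4 0 60 0 0 8 0 (-40),
  K.I10.mk 16 (-1) 2 0 16 (-2) 0 4 0 (-20),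
  K.I10.mk 10 5 0 (-10) 10 0 10 4 0 (-20),
  K.I10.mk 30 0 0 0 30 0 0 1 0 (-20),
  K.I10.mk 15 0 0 0 15 0 0 8 0 (-40),
  K.I10.mk 17 0 4 0 15 0 0 8 0 (-40),
  K.I10.mk 5 0 0 (-25) 15 0 0 8 0 5,
  K.I10.mk 17 2 4 0 17 4 0 8 0 (-40),
  K.I10.mk 15 0 0 0 15 0 0 1 0 (-20)]
theorem hR46 : T46 = R46.map matI := rfl
def R47 : List K.I10 := [K.I10.mk 10 5 0 (-10) 10 0 10 1 0 (-20),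
  K.I10.mk 15 0 0 0 60 0 0 (-8) (-4) 8,
  K.I10.mk 5 0 (-10) 0 60 0 0 (-8) (-4) 8,
  K.I10.mk 15 0 0 0 15 0 0 2 0 (-40),
  K.I10.mk 5 0 0 (-25) 15 0 0 2 0 5,
  K.I10.mk 15 0 0 0 15 0 0 (-8) (-4) 8,
  K.I10.mk 5 0 (-10) 0 15 0 0 (-8) (-4) 8,
  K.I10.mk 17 0 (-2) 4 5 (-10) 0 (-8) (-4) 8,
  K.I10.mk 15 0 0 0 60 0 0 2 0 (-10),
  K.I10.mk (-5) 0 0 0 8 4 4 17 2 12]
theorem hR47 : T47 = R47.map matI := rfl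
def R48 : List K.I10 := [K.I10.mk 3 (-4) 4 4 12 8 8 12 (-8) 12,
  K.I10.mk 13 (-7) 1 (-2) 13 1 (-2) (-3) (-14) 8,
  K.I10.mk 10 5 0 0 10 5 0 (-2) 4 12,
  K.I10.mk 3 0 0 1 15 0 0 (-5) 0 7,
  K.I10.mk 7 0 1 3 10 0 5 3 (-1) (-3),
  K.I10.mk 5 0 0 0 5 0 0 8 32 8,
  K.I10.mk 6 (-3) 0 0 (-1) (-10) (-10) 40 0 40,
  K.I10.mk 15 0 0 0 60 0 0 20 0 (-4),
  K.I10.mk 29 1 0 (-2) 29 0 2 20 0 (-4),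
  K.I10.mk 19 0 10 (-2) 15 0 0 20 0 (-4)]
theorem hR48 : T48 = R48.map matI := rfl
def R49 : List K.I10 := [K.I10.mk 19 5 5 (-2) 20 (-10) 0 20 0 (-4),
  K.I10.mk 29 1 0 (-2) 29 0 2 5 0 (-4),
  K.I10.mk 15 (-45) 0 0 15 0 0 4 0 40,
  K.I10.mk 8 (-22) (-1) 0 8 (-1) 0 2 0 20,
  K.I10.mk 25 (-30) 0 20 (-60) 0 0 4 0 40,
  K.I10.mk 13 (-15) 1 10 (-30) 0 0 2 0 20,
  K.I10.mk 60 0 0 0 (-2) 1 12 2 (-1) (-2),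
  K.I10.mk 31 0 2 0 (-15) 0 0 4 0 40,
  K.I10.mk 41 0 2 20 (-15) 0 0 4 0 40,
  K.I10.mk 15 0 0 0 (-7) 1 0 2 0 20]
theorem hR49 : T49 = R49.map matI := rfl
def R50 : List K.I10 := [K.I10.mk 31 1 2 0 (-14) 2 0 4 0 40,
  K.I10.mk 15 0 0 0 (-2) 1 12 2 (-1) (-2),
  K.I10.mk 31 1 2 (-1) (-4) 2 24 4 (-2) (-4),
  K.I10.mk 30 0 0 0 (-15) 0 0 1 0 40,
  K.I10.mk 30 0 0 0 (-5) 0 25 1 0 (-5),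
  K.I10.mk 16 2 (-2) (-4) 14 1 7 14 (-7) (-14),
  K.I10.mk 17 (-2) 5 (-5) (-8) 0 (-20) 10 0 10,
  K.I10.mk (-10) (-5) 5 5 22 0 2 10 0 22,
  K.I10.mk 3 0 0 0 12 0 0 (-4) 0 60,
  K.I10.mk 5 1 (-2) 0 5 2 0 (-4) 0 60]
theorem hR50 : T50 = R50.map matI := rfl
def R51 : List K.I10 := [K.I10.mk 3 0 0 0 3 0 0 (-4) 0 60,
  K.I10.mk 9 0 3 0 3 0 0 (-7) 4 8,
  K.I10.mk 2 (-1) (-2) 0 2 (-2) 0 (-4) 0 60,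
  K.I10.mk 9 (-3) (-3) 0 2 (-4) 2 2 2 8,
  K.I10.mk 3 0 0 0 3 0 0 (-1) 0 60,
  K.I10.mk 6 (-3) 0 0 18 0 (-3) (-1) 0 6,
  K.I10.mk 9 6 3 3 12 0 0 (-2) 8 (-2),
  K.I10.mk 12 0 0 0 12 0 0 3 0 (-5),
  K.I10.mk 11 1 1 (-2) 11 (-1) 2 14 2 (-4),
  K.I10.mk 1 3 3 (-1) 12 0 0 12 0 28]
theorem hR51 : T51 = R51.map matI := rfl
def R52 : List K.I10 := [K.I10.mk 40 20 0 0 40 0 0 (-3) 0 9,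
  K.I10.mk 8 (-4) (-4) 0 32 2 0 (-19) 3 6,
  K.I10.mk 40 20 0 0 40 0 0 3 0 (-9),
  K.I10.mk 120 60 0 0 120 0 0 (-1) 0 3,
  K.I10.mk 8 4 0 0 8 0 0 15 0 (-180),
  K.I10.mk 2 1 0 0 2 0 0 60 0 (-180),
  K.I10.mk 2 1 0 0 2 0 0 15 0 (-180),
  K.I10.mk 24 12 0 0 24 0 0 15 0 (-20),
  K.I10.mk 6 3 0 0 6 0 0 60 0 (-20),
  K.I10.mk 6 3 0 0 6 0 0 15 0 (-20)]
theorem hR52 : T52 = R52.map matI := rfl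
def R53 : List K.I10 := [K.I10.mk 2 1 0 0 2 0 0 180 0 (-60),
  K.I10.mk 6 (-3) (-3) 0 6 0 0 22 0 (-60),
  K.I10.mk 3 0 0 0 12 0 0 (-4) 0 72,
  K.I10.mk 3 0 0 0 3 0 0 (-2) 0 36,
  K.I10.mk 5 1 (-2) 0 5 2 0 (-4) 0 72,
  K.I10.mk 21 0 0 (-6) 12 0 0 (-4) 0 12,
  K.I10.mk 12 3 0 6 6 0 (-3) (-2) 0 12,
  K.I10.mk (-1) 6 10 (-3) 12 0 (-6) (-4) 6 15,
  K.I10.mk 6 0 0 0 6 0 0 (-2) 0 9,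
  K.I10.mk 3 0 0 0 3 0 0 (-4) 0 72]
theorem hR53 : T53 = R53.map matI := rfl
def R54 : List K.I10 := [K.I10.mk 2 0 0 0 3 0 0 (-6) 0 72,
  K.I10.mk 12 0 (-6) 0 3 0 0 (-4) 4 8,
  K.I10.mk 2 (-1) (-2) 0 2 (-2) 0 (-4) 0 72,
  K.I10.mk 21 0 0 (-6) 2 0 0 (-6) 0 12,
  K.I10.mk 12 (-3) (-3) 0 2 (-4) 2 2 2 8,
  K.I10.mk 6 (-3) 0 0 21 0 (-3) (-4) 0 6,
  K.I10.mk 5 0 (-2) 1 12 (-6) 0 (-4) 2 5,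
  K.I10.mk 3 0 0 0 12 0 0 (-4) 0 18,
  K.I10.mk 5 1 (-2) 0 5 2 0 (-4) 0 18,
  K.I10.mk 3 0 0 0 3 0 0 (-1) 0 72]
theorem hR54 : T54 = R54.map matI := rfl
def R55 : List K.I10 := [K.I10.mk 21 0 0 (-6) 3 0 0 (-1) 0 12,
  K.I10.mk 6 (-3) 0 0 21 0 (-3) (-1) 0 6,
  K.I10.mk 2 (-1) 1 (-4) 2 1 (-1) 17 1 2,
  K.I10.mk 3 0 0 0 3 0 0 (-4) 0 18,
  K.I10.mk 2 0 0 0 3 0 0 (-6) 0 18,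
  K.I10.mk 2 (-1) (-2) 0 2 (-2) 0 (-4) 0 18,
  K.I10.mk 3 0 0 0 12 0 0 4 16 (-8),
  K.I10.mk 7 6 2 8 12 0 0 4 16 (-8),
  K.I10.mk 12 0 0 (-6) 12 0 0 4 0 (-15),
  K.I10.mk 13 6 1 4 12 (-6) 0 13 4 (-8)]
theorem hR55 : T55 = R55.map matI := rfl
def R56 : List K.I10 := [K.I10.mk 3 0 0 0 3 0 0 4 16 (-8),
  K.I10.mk 4 0 (-2) 8 3 0 0 4 8 (-8),
  K.I10.mk 12 0 0 (-6) 3 0 0 4 0 (-15),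
  K.I10.mk 10 0 0 4 3 0 0 (-6) 0 16,
  K.I10.mk 6 0 (-3) 0 6 (-3) 0 12 0 (-8),
  K.I10.mk 12 0 0 (-6) 4 (-2) 0 4 6 (-3),
  K.I10.mk 1 (-2) 0 (-5) 1 0 (-2) 36 0 1,
  K.I10.mk 10 2 0 2 7 0 1 (-6) 0 7,
  K.I10.mk 6 (-3) 3 0 10 4 4 10 4 (-8),
  K.I10.mk 3 0 0 0 12 0 0 4 8 (-2)]
theorem hR56 : T56 = R56.map matI := rfl
def R57 : List K.I10 := [K.I10.mk 7 (-1) 2 0 7 (-2) 0 4 0 (-18),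
  K.I10.mk 3 0 0 0 3 0 0 9 0 (-8),
  K.I10.mk 1 0 0 (-5) 3 0 0 9 0 1,
  K.I10.mk 1 (-2) 0 (-5) 1 0 (-2) 9 0 1,
  K.I10.mk 3 0 0 0 3 0 0 7 (-3) (-9),
  K.I10.mk 1 0 0 0 (-12) 0 0 36 12 24,
  K.I10.mk 7 (-2) 2 (-1) 4 8 2 4 (-2) 19,
  K.I10.mk (-2) 3 (-2) (-3) 6 0 0 4 0 18,
  K.I10.mk 1 0 0 0 (-3) 0 0 9 (-3) 21,
  K.I10.mk (-5) 0 (-3) (-2) 3 0 0 6 0 4]
theorem hR57 : T57 = R57.map matI := rfl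
def R58 : List K.I10 := [K.I10.mk 3 0 0 0 3 0 0 (-8) 32 (-8),
  K.I10.mk 5 0 0 0 12 (-6) 0 (-3) (-6) 12,
  K.I10.mk 7 2 1 0 4 2 0 (-17) 0 15,
  K.I10.mk 15 0 0 0 8 (-4) 0 (-1) 3 15,
  K.I10.mk (-5) 23 0 (-2) (-5) 0 2 12 0 4,
  K.I10.mk (-14) (-1) 0 (-2) 10 0 2 12 0 4,
  K.I10.mk (-14) (-1) 0 (-2) 10 0 2 3 0 4,
  K.I10.mk 2 3 0 (-1) (-6) 0 0 12 0 26,
  K.I10.mk 17 6 2 5 12 0 (-6) (-16) 2 17,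
  K.I10.mk 6 (-3) 0 0 14 2 (-3) (-16) 0 6]
theorem hR58 : T58 = R58.map matI := rfl
def R59 : List K.I10 := [K.I10.mk (-1) (-1) 4 (-2) 14 (-2) (-2) (-1) (-1) 11,
  K.I10.mk 20 10 0 0 20 0 0 3 0 (-6),
  K.I10.mk 40 20 0 0 40 0 0 3 (-9) 3,
  K.I10.mk 40 20 0 0 40 0 0 24 0 (-3),
  K.I10.mk 10 5 0 0 10 0 0 24 0 (-12),
  K.I10.mk 40 20 0 0 40 0 0 6 0 (-3),
  K.I10.mk 10 5 0 0 10 0 0 6 0 (-12),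
  K.I10.mk 10 5 0 0 10 0 0 3 (-9) 3,
  K.I10.mk 10 5 0 0 10 0 0 24 0 (-3),
  K.I10.mk 4 2 0 0 4 0 0 15 0 (-30)]
theorem hR59 : T59 = R59.map matI := rfl
def R60 : List K.I10 := [K.I10.mk 8 4 0 0 8 0 0 15 (-45) 15,
  K.I10.mk 8 4 0 0 8 0 0 120 0 (-15),
  K.I10.mk 2 1 0 0 2 0 0 120 0 (-60),
  K.I10.mk 8 4 0 0 8 0 0 30 0 (-15),
  K.I10.mk 2 1 0 0 2 0 0 30 0 (-60),
  K.I10.mk 2 1 0 0 2 0 0 15 (-45) 15,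
  K.I10.mk 2 1 0 0 2 0 0 120 0 (-15),
  K.I10.mk 15 0 0 0 60 0 0 (-20) 0 12,
  K.I10.mk 25 5 (-10) 0 25 10 0 (-20) 0 12,
  K.I10.mk 15 0 0 0 15 0 0 (-20) 0 12]
theorem hR60 : T60 = R60.map matI := rfl
def R61 : List K.I10 := [K.I10.mk 13 0 (-10) 6 15 0 0 (-20) 0 12,
  K.I10.mk 10 (-5) (-10) 0 10 (-10) 0 (-20) 0 12,
  K.I10.mk 13 (-5) (-10) 6 10 (-10) 0 (-20) 0 12,
  K.I10.mk 15 0 0 0 15 0 0 (-5) 0 12,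
  K.I10.mk 18 3 0 6 18 0 6 (-5) 0 12,
  K.I10.mk 29 1 (-2) 1 29 2 (-1) (-4) 2 14,
  K.I10.mk 60 0 0 0 60 0 0 (-1) 4 (-1),
  K.I10.mk 55 5 5 0 55 (-5) 0 (-2) 6 12,
  K.I10.mk (-1) 6 5 5 24 0 0 20 (-10) 20,
  K.I10.mk 5 0 0 0 36 24 24 36 (-24) 36]
theorem hR61 : T61 = R61.map matI := rfl
def R62 : List K.I10 := [K.I10.mk 35 (-5) (-5) 5 11 (-1) 13 11 (-23) (-1),
  K.I10.mk 14 15 (-10) (-12) 30 0 0 20 0 36,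
  K.I10.mk 5 0 0 0 9 0 3 (-15) 0 21,
  K.I10.mk 14 1 0 3 14 0 (-3) (-15) 0 6,
  K.I10.mk 15 0 0 0 15 0 0 (-40) 0 24,
  K.I10.mk 1 (-6) (-5) (-5) 96 0 0 10 (-20) 10,
  K.I10.mk 3 (-6) (-6) (-6) 7 (-13) (-3) 7 (-3) 87,
  K.I10.mk 15 0 0 0 20 (-10) 0 47 6 (-12),
  K.I10.mk 47 (-4) 0 (-2) 8 0 4 60 0 (-28),
  K.I10.mk 2 (-3) 0 (-8) 42 0 (-3) 60 0 2]
theorem hR62 : T62 = R62.map matI := rfl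
def R63 : List K.I10 := [K.I10.mk 2 (-3) 0 (-8) 42 0 (-3) 15 0 2,
  K.I10.mk 10 5 0 0 22 0 (-6) 60 0 (-12),
  K.I10.mk 25 5 0 (-10) 25 0 10 36 0 (-20),
  K.I10.mk 10 (-5) 0 (-10) 10 0 (-10) 36 0 (-20),
  K.I10.mk 15 0 0 0 15 0 0 (-5) 0 36,
  K.I10.mk 1 0 0 0 (-8) 12 (-8) 8 0 16,
  K.I10.mk 21 (-1) 0 (-2) 5 (-4) 2 (-8) 0 4,
  K.I10.mk 4 0 (-2) 0 4 (-2) 0 (-1) 0 80,
  K.I10.mk 4 0 (-2) 4 4 (-2) 4 19 2 (-4),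
  K.I10.mk 3 0 0 0 48 0 0 8 (-16) (-8)]
theorem hR63 : T63 = R63.map matI := rfl
def R64 : List K.I10 := [K.I10.mk 15 (-6) 0 0 12 0 0 8 (-16) (-8),
  K.I10.mk 8 4 0 0 17 6 0 12 0 (-40),
  K.I10.mk 5 0 (-1) (-8) 48 0 0 5 (-8) (-8),
  K.I10.mk 11 0 (-1) 0 24 0 0 11 0 (-16),
  K.I10.mk 17 (-5) (-7) 0 17 (-5) 0 17 0 (-16),
  K.I10.mk 8 0 (-4) (-16) 24 0 0 7 (-2) 4,
  K.I10.mk 13 12 10 (-8) 24 0 0 20 0 (-16),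
  K.I10.mk 11 5 (-1) 0 11 5 0 11 0 (-16),
  K.I10.mk 7 5 5 (-8) 11 (-1) 0 11 0 (-16),
  K.I10.mk 12 (-6) 0 0 7 10 (-8) 20 0 (-16)]
theorem hR64 : T64 = R64.map matI := rfl
def R65 : List K.I10 := [K.I10.mk 12 0 0 0 12 0 0 5 0 (-16),
  K.I10.mk 8 4 0 (-8) 8 0 8 5 0 (-16),
  K.I10.mk 8 4 (-4) (-4) 8 4 4 1 (-9) 1,
  K.I10.mk 6 0 0 0 6 0 0 5 0 (-16),
  K.I10.mk 2 0 0 (-10) 6 0 0 5 0 2,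
  K.I10.mk 2 (-4) 0 (-10) 2 0 (-4) 5 0 2,
  K.I10.mk 2 0 (-4) (-4) 6 0 0 1 (-9) 1,
  K.I10.mk 3 0 0 0 4 (-4) (-20) 8 (-4) 4,
  K.I10.mk 3 0 0 0 48 0 0 8 (-4) (-8),
  K.I10.mk 15 (-6) 0 0 12 0 0 8 (-4) (-8)]
theorem hR65 : T65 = R65.map matI := rfl
def R66 : List K.I10 := [K.I10.mk (-8) (-4) (-4) 0 13 (-2) 6 8 0 12,
  K.I10.mk (-8) (-4) (-8) (-8) 13 (-1) 2 5 (-2) 4,
  K.I10.mk 1 (-2) (-2) (-5) 20 (-4) (-2) 20 (-2) 1,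
  K.I10.mk 3 0 0 0 10 0 (-4) 10 0 (-8),
  K.I10.mk 1 (-2) 0 (-5) 10 0 (-2) 10 0 1,
  K.I10.mk 3 0 0 0 10 (-2) (-4) 8 (-4) (-8),
  K.I10.mk 1 (-2) (-2) (-5) 10 (-2) (-2) 8 (-2) 1,
  K.I10.mk 17 0 3 (-6) 24 0 0 17 6 (-12),
  K.I10.mk 40 0 0 0 3 0 0 40 0 (-24),
  K.I10.mk 14 0 6 (-12) 3 0 0 14 12 (-24)]
theorem hR66 : T66 = R66.map matI := rfl
def R67 : List K.I10 := [K.I10.mk 4 0 (-6) (-16) 3 0 0 4 (-6) 4,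
  K.I10.mk 4 0 (-6) (-6) 12 0 (-6) 4 (-6) (-3),
  K.I10.mk 6 0 0 1 20 0 0 2 1 (-6),
  K.I10.mk 1 13 0 0 1 0 0 16 (-8) 16,
  K.I10.mk (-24) 0 0 0 7 0 0 16 (-8) 16,
  K.I10.mk (-6) 0 0 0 7 0 0 16 (-8) 16,
  K.I10.mk 1 13 0 0 1 0 0 4 (-2) 4,
  K.I10.mk (-24) 0 0 0 7 0 0 4 (-2) 4,
  K.I10.mk 8 4 0 0 8 0 0 5 0 (-240),
  K.I10.mk 8 4 0 0 8 0 0 (-55) (-10) 20]
theorem hR67 : T67 = R67.map matI := rfl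
def R68 : List K.I10 := [K.I10.mk 1 0 0 0 16 0 0 (-48) 0 96,
  K.I10.mk 1 0 0 0 (-8) 0 0 24 0 96,
  K.I10.mk 5 (-4) (-2) 0 (-8) 0 0 4 0 96,
  K.I10.mk 1 0 0 0 16 0 (-8) (-48) 24 16,
  K.I10.mk 1 0 0 0 16 0 0 (-48) 0 24,
  K.I10.mk 5 (-2) 0 0 4 0 0 (-48) 0 24,
  K.I10.mk 1 0 0 0 4 0 0 (-12) 0 96,
  K.I10.mk 1 0 0 0 (-20) 0 (-8) 12 0 16,
  K.I10.mk 1 0 0 0 4 0 0 (-48) 0 24,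
  K.I10.mk 1 0 0 0 (-8) 0 0 24 0 24]
theorem hR68 : T68 = R68.map matI := rfl
def R69 : List K.I10 := [K.I10.mk 5 (-4) (-2) 0 (-8) 0 0 4 0 24,
  K.I10.mk (-5) 0 (-2) 0 4 0 0 4 0 48,
  K.I10.mk 1 0 0 0 1 0 0 (-24) 0 48,
  K.I10.mk (-5) 0 (-2) 0 1 0 0 4 0 48,
  K.I10.mk 13 0 0 (-2) 1 0 0 (-24) 0 4,
  K.I10.mk 4 0 0 (-2) 1 0 0 (-24) 12 7,
  K.I10.mk 2 (-1) 0 0 (-5) (-1) 0 2 0 48,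
  K.I10.mk 4 2 0 (-2) (-10) (-2) (-1) 4 0 7,
  K.I10.mk 1 0 0 0 4 0 0 (-6) 0 48,
  K.I10.mk 1 0 0 0 4 0 0 6 18 6]
theorem hR69 : T69 = R69.map matI := rfl
def R70 : List K.I10 := [K.I10.mk 1 0 0 0 1 0 0 (-6) 0 48,
  K.I10.mk 13 0 0 (-2) 1 0 0 (-6) 0 4,
  K.I10.mk 1 0 0 0 1 0 0 6 18 6,
  K.I10.mk (-11) 0 0 (-2) 1 0 0 6 0 4,
  K.I10.mk 4 0 (-2) 0 4 (-2) 0 (-1) 0 96,
  K.I10.mk (-1) (-1) (-6) 0 7 2 0 (-4) 0 24,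
  K.I10.mk 11 (-3) 0 (-4) 11 0 4 (-48) 0 16,
  K.I10.mk 7 0 0 3 (-8) 0 0 24 0 15,
  K.I10.mk (-5) (-12) 0 (-4) (-8) (-8) 0 16 0 16,
  K.I10.mk 11 (-6) (-3) (-1) (-4) (-2) 2 11 1 19]
theorem hR70 : T70 = R70.map matI := rfl
def R71 : List K.I10 := [K.I10.mk 7 0 0 (-2) 16 0 0 (-48) 0 4,
  K.I10.mk 11 (-1) 0 2 11 0 2 (-48) 0 4,
  K.I10.mk 7 0 0 3 4 0 0 (-12) 0 15,
  K.I10.mk 12 0 0 0 8 2 0 (-5) 2 8,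
  K.I10.mk (-4) 2 2 0 11 (-1) 0 11 0 8,
  K.I10.mk 5 1 (-7) 0 5 1 0 (-11) 4 8,
  K.I10.mk 5 0 0 1 2 0 0 (-24) 0 5,
  K.I10.mk 8 0 (-4) (-4) 2 0 0 (-1) (-7) (-1),
  K.I10.mk 8 0 (-4) 0 5 (-2) 1 (-2) 2 5,
  K.I10.mk 2 0 0 0 8 0 0 (-24) 0 3]
theorem hR71 : T71 = R71.map matI := rfl
def R72 : List K.I10 := [K.I10.mk 8 0 (-4) 0 8 (-4) 0 (-2) 0 3,
  K.I10.mk 1 0 0 0 1 0 0 (-12) 0 96,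
  K.I10.mk (-2) 0 0 0 1 0 0 6 0 96,
  K.I10.mk 2 (-1) 0 0 (-2) (-1) 0 2 0 96,
  K.I10.mk 12 (-6) 0 0 (-2) (-1) 2 2 0 8,
  K.I10.mk 5 0 0 (-1) 2 0 6 6 0 (-1),
  K.I10.mk 2 (-1) 0 0 7 (-1) (-2) (-10) 4 8,
  K.I10.mk 1 0 0 0 10 0 2 (-48) 0 10,
  K.I10.mk (-11) 0 (-2) 0 10 0 2 4 0 10,
  K.I10.mk 1 0 0 0 16 (-8) (-8) (-2) (-14) (-2)]
theorem hR72 : T72 = R72.map matI := rfl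
def R73 : List K.I10 := [K.I10.mk (-11) (-1) (-2) 1 11 2 1 4 (-2) 11,
  K.I10.mk 1 0 0 0 16 0 0 (-48) 0 6,
  K.I10.mk 5 (-2) 0 0 4 0 0 (-48) 0 6,
  K.I10.mk 1 0 0 0 1 0 0 (-3) 0 96,
  K.I10.mk 2 (-1) 0 0 (-5) 0 (-2) 3 0 8,
  K.I10.mk (-7) (-4) 7 (-4) 8 0 0 1 0 8,
  K.I10.mk (-4) 8 (-2) (-2) 16 0 0 5 (-1) 5,
  K.I10.mk 3 0 0 0 8 0 4 (-24) (-4) 8,
  K.I10.mk (-1) 4 (-7) 0 8 4 4 (-1) 0 8,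
  K.I10.mk 80 40 0 0 80 0 0 1 0 (-8)]
theorem hR73 : T73 = R73.map matI := rfl
def R74 : List K.I10 := [K.I10.mk 80 40 0 0 80 0 0 (-1) (-3) (-1),
  K.I10.mk 80 40 0 0 80 0 0 1 0 (-2),
  K.I10.mk 20 10 0 0 20 0 0 1 0 (-8),
  K.I10.mk 20 10 0 0 20 0 0 (-1) (-3) (-1),
  K.I10.mk 5 0 0 0 32 16 0 48 0 (-16),
  K.I10.mk 17 8 (-10) 0 32 0 0 20 0 (-16),
  K.I10.mk 5 0 0 0 4 4 (-12) 36 4 4,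
  K.I10.mk 5 0 0 0 8 4 0 8 (-8) (-16),
  K.I10.mk 1 0 (-4) (-9) 8 4 0 8 (-4) 1,
  K.I10.mk 5 0 0 0 2 0 (-1) 6 1 (-6)]
theorem hR74 : T74 = R74.map matI := rfl
def R75 : List K.I10 := [K.I10.mk 1 0 (-2) (-9) 2 1 0 2 (-2) 1,
  K.I10.mk 19 4 4 4 (-8) (-8) (-8) 8 0 8,
  K.I10.mk (-24) 0 0 0 21 0 0 8 0 8,
  K.I10.mk (-2) 0 4 4 21 0 0 8 0 8,
  K.I10.mk (-4) 0 2 2 21 0 0 4 0 4,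
  K.I10.mk (-4) 6 2 2 15 0 0 4 0 4,
  K.I10.mk 8 (-4) 0 (-4) (-11) (-4) (-41) 8 (-4) (-11),
  K.I10.mk 8 0 0 0 15 0 0 8 0 (-120),
  K.I10.mk (-26) 0 4 (-4) 15 0 0 8 0 8,
  K.I10.mk 4 0 (-2) 0 15 0 0 (-28) (-2) 4]
theorem hR75 : T75 = R75.map matI := rfl
def R76 : List K.I10 := [K.I10.mk 4 0 (-2) 0 (-15) 0 0 32 (-2) 4,
  K.I10.mk 40 20 0 0 40 0 0 3 0 (-16),
  K.I10.mk 40 20 0 0 40 0 0 (-1) (-7) (-1),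
  K.I10.mk 16 8 0 0 16 0 0 5 0 (-40),
  K.I10.mk 16 8 0 0 16 0 0 (-5) (-15) (-5),
  K.I10.mk 16 8 0 0 16 0 0 5 0 (-10),
  K.I10.mk 4 2 0 0 4 0 0 5 0 (-40),
  K.I10.mk 4 2 0 0 4 0 0 (-5) (-15) (-5),
  K.I10.mk (-41) 2 0 0 4 0 0 112 (-56) 112,
  K.I10.mk (-168) 0 0 0 1 0 0 112 (-56) 112]
theorem hR76 : T76 = R76.map matI := rfl
def R77 : List K.I10 := [K.I10.mk (-42) 0 0 0 1 0 0 112 (-56) 112,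
  K.I10.mk (-41) 2 0 0 4 0 0 28 (-14) 28,
  K.I10.mk (-168) 0 0 0 1 0 0 28 (-14) 28,
  K.I10.mk (-11) 6 28 28 12 0 0 56 0 56,
  K.I10.mk (-168) 0 0 0 3 0 0 56 0 56,
  K.I10.mk (-14) 0 28 28 3 0 0 56 0 56,
  K.I10.mk (-28) 0 14 14 3 0 0 28 0 28,
  K.I10.mk (-28) 14 0 0 17 (-3) (-6) 17 6 12,
  K.I10.mk 5 0 0 0 24 4 8 (-56) 8 16,
  K.I10.mk 9 4 (-5) (-1) 24 0 4 (-55) 5 9]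
theorem hR77 : T77 = R77.map matI := rfl
def R78 : List K.I10 := [K.I10.mk 20 0 (-10) 0 20 (-10) 0 (-5) 0 16,
  K.I10.mk 20 0 (-10) 0 20 (-10) 0 (-1) 8 16,
  K.I10.mk 15 0 0 0 240 0 0 8 0 (-40),
  K.I10.mk 75 (-30) 0 0 60 0 0 8 0 (-40),
  K.I10.mk 17 0 4 0 240 0 0 8 0 (-40),
  K.I10.mk 77 (-30) 4 0 60 0 0 8 0 (-40),
  K.I10.mk 31 0 2 0 120 0 0 4 0 (-80),
  K.I10.mk 61 (-1) 2 0 61 (-2) 0 4 0 (-80),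
  K.I10.mk 11 0 (-2) (-49) 120 0 0 4 (-2) 11,
  K.I10.mk 65 (-5) 10 0 65 (-10) 0 20 0 (-16)]
theorem hR78 : T78 = R78.map matI := rfl
def R79 : List K.I10 := [K.I10.mk 31 1 2 0 31 2 0 4 0 (-80),
  K.I10.mk 11 (-1) (-2) (-49) 31 2 (-1) 4 (-2) 11,
  K.I10.mk 11 (-19) 2 (-49) 11 2 (-19) 4 2 11,
  K.I10.mk 60 0 0 0 60 0 0 1 0 (-80),
  K.I10.mk 40 20 0 (-40) 40 0 40 1 0 (-80),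
  K.I10.mk 61 (-1) (-1) 2 61 1 (-2) (-19) (-2) 4,
  K.I10.mk 30 0 0 0 30 0 0 1 0 (-80),
  K.I10.mk 10 0 0 (-50) 30 0 0 1 0 10,
  K.I10.mk 10 (-20) 0 (-50) 10 0 (-20) 1 0 10,
  K.I10.mk 31 0 (-1) 2 30 0 0 (-19) (-2) 4]
theorem hR79 : T79 = R79.map matI := rfl
def R80 : List K.I10 := [K.I10.mk 15 0 0 0 20 0 0 (-28) (-8) 32,
  K.I10.mk 15 0 0 0 240 0 0 (-8) (-4) 8,
  K.I10.mk 75 (-30) 0 0 60 0 0 (-8) (-4) 8,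
  K.I10.mk 5 (-10) (-25) 0 52 (-10) (-4) 5 0 8,
  K.I10.mk 17 (-2) 9 4 52 (-14) (-4) (-7) (-12) 8,
  K.I10.mk 5 0 (-10) 0 240 0 0 (-8) (-4) 8,
  K.I10.mk 15 0 0 0 50 0 (-20) 2 0 (-40),
  K.I10.mk 5 (-10) 0 (-25) 50 0 (-10) 2 0 5,
  K.I10.mk 15 0 0 0 22 0 (-4) (-30) 0 8,
  K.I10.mk 17 0 (-2) 4 50 (-10) 0 (-8) (-4) 8]
theorem hR80 : T80 = R80.map matI := rfl
def R81 : List K.I10 := [K.I10.mk 3 (-11) 8 8 27 4 4 8 (-12) 8,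
  K.I10.mk 12 2 16 16 7 (-4) (-4) 8 (-12) 8,
  K.I10.mk 13 (-7) (-3) (-4) 13 (-3) (-4) (-27) 4 32,
  K.I10.mk 17 (-3) (-7) (-2) 17 (-7) (-2) (-23) 2 12,
  K.I10.mk 3 0 0 0 8 4 (-8) 56 8 (-16),
  K.I10.mk (-1) (-4) 4 (-6) 8 4 0 56 0 12,
  K.I10.mk 5 1 (-2) 0 5 2 0 (-4) 0 240,
  K.I10.mk 8 0 (-4) 0 57 6 (-6) (-4) 0 12,
  K.I10.mk 8 4 0 0 8 0 0 15 0 (-720),
  K.I10.mk 8 4 0 0 8 0 0 (-165) (-30) 60]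
theorem hR81 : T81 = R81.map matI := rfl
def R82 : List K.I10 := [K.I10.mk 24 12 0 0 24 0 0 15 0 (-80),
  K.I10.mk 24 12 0 0 24 0 0 (-5) (-35) (-5),
  K.I10.mk 3 0 0 0 8 0 0 (-24) 0 288,
  K.I10.mk (-1) (-4) (-7) 0 8 (-4) 0 (-1) 0 288,
  K.I10.mk 3 0 0 0 12 0 0 (-4) 0 288,
  K.I10.mk 3 0 0 0 8 4 (-8) 68 8 (-16),
  K.I10.mk 3 0 0 0 8 0 0 (-24) 0 72,
  K.I10.mk (-1) (-4) (-7) 0 8 (-4) 0 (-1) 0 72,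
  K.I10.mk 3 0 0 0 12 0 0 (-8) 0 144,
  K.I10.mk 1 0 (-5) 0 12 0 0 1 0 144]
theorem hR82 : T82 = R82.map matI := rfl
def R83 : List K.I10 := [K.I10.mk 3 0 0 0 3 0 0 (-8) 0 144,
  K.I10.mk 1 0 (-5) 0 3 0 0 1 0 144,
  K.I10.mk 39 0 0 (-6) 3 0 0 (-8) 0 12,
  K.I10.mk 37 0 0 (-2) 3 0 0 (-24) 0 4,
  K.I10.mk 1 (-2) (-5) 0 1 (-2) 0 1 0 144,
  K.I10.mk 37 0 0 (-2) (-3) (-9) 0 (-3) 0 4,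
  K.I10.mk 3 0 0 0 12 0 0 (-2) 0 144,
  K.I10.mk 3 0 0 0 12 0 0 34 4 (-8),
  K.I10.mk 3 0 0 0 3 0 0 (-2) 0 144,
  K.I10.mk 39 0 0 (-6) 3 0 0 (-2) 0 12]
theorem hR83 : T83 = R83.map matI := rfl
def R84 : List K.I10 := [K.I10.mk 3 0 0 0 3 0 0 34 4 (-8),
  K.I10.mk 39 0 (-3) 0 3 0 0 1 4 (-8),
  K.I10.mk 5 1 (-2) 0 5 2 0 (-4) 0 288,
  K.I10.mk 5 1 (-9) 0 5 3 0 (-3) 0 72,
  K.I10.mk 17 (-4) (-8) (-6) 8 (-8) 0 (-16) 0 12,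
  K.I10.mk 15 0 0 3 24 0 0 (-8) 0 15,
  K.I10.mk 21 (-9) 0 (-3) 21 0 (-9) (-8) 0 21,
  K.I10.mk 3 0 (-12) 3 16 (-8) (-8) (-8) 4 19,
  K.I10.mk 24 0 0 0 24 0 0 (-8) 0 9,
  K.I10.mk 13 0 4 1 6 0 0 (-8) 4 13]
theorem hR84 : T84 = R84.map matI := rfl
def R85 : List K.I10 := [K.I10.mk 10 (-6) (-4) 6 15 0 3 (-8) 0 15,
  K.I10.mk 6 0 0 0 24 0 0 (-8) 0 9,
  K.I10.mk 10 2 (-4) 0 10 4 0 (-8) 0 9,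
  K.I10.mk 2 0 0 0 3 0 0 (-6) 0 288,
  K.I10.mk 2 0 0 0 3 0 0 (-24) 0 72,
  K.I10.mk 2 0 0 0 (-3) (-9) 0 (-3) 0 72,
  K.I10.mk 48 0 (-24) 0 3 0 0 (-16) 16 32,
  K.I10.mk 2 (-1) (-2) 0 2 (-2) 0 (-4) 0 288,
  K.I10.mk 6 (-3) 0 0 2 (-2) 5 68 4 2,
  K.I10.mk 15 0 (-12) (-6) 2 0 0 (-24) 0 12]
theorem hR85 : T85 = R85.map matI := rfl
def R86 : List K.I10 := [K.I10.mk 3 0 0 0 8 4 (-8) 14 8 (-16),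
  K.I10.mk (-1) (-4) 4 (-6) 8 4 0 14 0 12,
  K.I10.mk 3 0 0 0 3 0 0 (-1) 0 288,
  K.I10.mk 3 0 0 0 48 0 0 16 32 (-8),
  K.I10.mk 15 (-6) 0 0 12 0 0 16 32 (-8),
  K.I10.mk 7 0 2 2 24 0 (-12) 4 16 4,
  K.I10.mk (-15) 0 0 (-27) 48 0 0 16 0 9,
  K.I10.mk (-15) 0 0 (-27) 16 8 0 16 0 9,
  K.I10.mk 12 (-6) 0 (-6) (-3) 0 (-27) 16 0 (-3),
  K.I10.mk (-11) (-2) (-8) (-21) 28 (-8) (-6) 16 0 (-3)]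
theorem hR86 : T86 = R86.map matI := rfl
def R87 : List K.I10 := [K.I10.mk 12 (-6) 0 (-6) 1 (-8) (-23) 16 (-8) 1,
  K.I10.mk 16 8 16 8 25 (-1) 1 1 (-1) 25,
  K.I10.mk (-15) (-6) 0 (-6) 24 0 0 4 0 24,
  K.I10.mk (-15) 0 (-6) 0 12 0 0 16 (-8) 16,
  K.I10.mk 3 0 0 0 10 6 (-4) (-6) 36 (-8),
  K.I10.mk 39 0 (-6) 0 10 0 (-4) 12 0 (-8),
  K.I10.mk 3 0 0 0 40 (-4) (-8) (-2) 20 (-8),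
  K.I10.mk 39 (-3) (-6) 0 13 6 (-4) 12 0 (-8),
  K.I10.mk 3 0 0 0 48 0 0 18 (-6) (-14),
  K.I10.mk 15 (-6) 0 0 12 0 0 18 (-6) (-14)]
theorem hR87 : T87 = R87.map matI := rfl
def R88 : List K.I10 := [K.I10.mk 1 0 0 0 24 0 12 (-72) (-12) 24,
  K.I10.mk 37 (-1) (-2) 12 (-11) 2 0 4 0 24,
  K.I10.mk 7 (-2) 2 (-2) 4 8 4 4 (-4) 76,
  K.I10.mk 28 (-4) 4 (-2) 4 8 2 4 (-2) 19,
  K.I10.mk (-5) 23 0 (-2) (-5) 0 2 48 0 4,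
  K.I10.mk 7 35 17 (-2) 7 (-11) 2 7 2 4,
  K.I10.mk (-3) 6 21 (-6) 12 (-6) 0 5 6 12,
  K.I10.mk 17 6 4 5 12 0 (-6) (-64) 4 17,
  K.I10.mk 80 40 0 0 80 0 0 3 0 (-24),
  K.I10.mk 80 40 0 0 80 0 0 (-3) (-9) (-3)]
theorem hR88 : T88 = R88.map matI := rfl
def R89 : List K.I10 := [K.I10.mk 80 40 0 0 80 0 0 3 0 (-6),
  K.I10.mk 20 10 0 0 20 0 0 3 0 (-24),
  K.I10.mk 20 10 0 0 20 0 0 (-3) (-9) (-3),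
  K.I10.mk 16 8 0 0 16 0 0 15 0 (-120),
  K.I10.mk 16 8 0 0 16 0 0 (-15) (-45) (-15),
  K.I10.mk 16 8 0 0 16 0 0 15 0 (-30),
  K.I10.mk 4 2 0 0 4 0 0 15 0 (-120),
  K.I10.mk 4 2 0 0 4 0 0 (-15) (-45) (-15),
  K.I10.mk 15 0 0 0 40 20 0 (-8) 24 48,
  K.I10.mk 27 0 12 (-3) 40 20 0 (-8) 12 27]
theorem hR89 : T89 = R89.map matI := rfl
def R90 : List K.I10 := [K.I10.mk 25 5 (-10) 0 25 10 0 (-20) 0 48,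
  K.I10.mk 37 17 (-10) (-3) 37 10 (-3) (-20) 30 (-3),
  K.I10.mk 5 0 0 0 24 (-36) 36 24 36 24,
  K.I10.mk 65 0 0 (-10) (-24) (-12) 0 24 0 20,
  K.I10.mk 35 (-5) (-10) 0 11 10 36 20 0 (-24),
  K.I10.mk 36 0 12 18 20 0 (-10) 24 (-24) (-1),
  K.I10.mk 47 (-4) 0 (-2) 8 0 4 240 0 (-28),
  K.I10.mk 107 (-4) 13 (-2) 8 4 4 107 2 (-28),
  K.I10.mk 25 5 0 (-10) 25 0 10 144 0 (-20),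
  K.I10.mk 21 0 0 (-9) 40 20 0 40 0 (-99)]
theorem hR90 : T90 = R90.map matI := rfl
def R91 : List K.I10 := [K.I10.mk 1 0 0 0 (-32) 0 0 96 0 96,
  K.I10.mk 1 0 0 0 (-32) 0 0 96 0 24,
  K.I10.mk 1 0 0 0 40 16 8 (-32) (-16) 40,
  K.I10.mk 32 0 0 0 (-16) 4 8 11 (-2) 44,
  K.I10.mk 11 (-1) 2 4 11 2 4 (-44) 8 16,
  K.I10.mk 4 2 4 12 11 (-2) (-2) 44 (-4) 4,
  K.I10.mk 19 (-1) 8 (-4) 19 (-8) 4 (-32) 16 40,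
  K.I10.mk 33 0 0 (-15) 96 0 0 (-32) 0 33,
  K.I10.mk 25 9 (-16) 9 33 0 (-15) (-32) 0 33]
theorem hR91 : T91 = R91.map matI := rfl

def RR : List K.I10 :=
  R0 ++ (R1 ++ (R2 ++ (R3 ++ (R4 ++ (R5 ++ (R6 ++ (R7 ++ (R8 ++ (R9 ++ (R10 ++ (R11 ++ (R12 ++ (R13 ++ (R14 ++ (R15 ++ (R16 ++ (R17 ++ (R18 ++ (R19 ++ (R20 ++ (R21 ++ (R22 ++ (R23 ++ (R24 ++ (R25 ++ (R26 ++ (R27 ++ (R28 ++ (R29 ++ (R30 ++ (R31 ++ (R32 ++ (R33 ++ (R34 ++ (R35 ++ (R36 ++ (R37 ++ (R38 ++ (R39 ++ (R40 ++ (R41 ++ (R42 ++ (R43 ++ (R44 ++ (R45 ++ (R46 ++ (R47 ++ (R48 ++ (R49 ++ (R50 ++ (R51 ++ (R52 ++ (R53 ++ (R54 ++ (R55 ++ (R56 ++ (R57 ++ (R58 ++ (R59 ++ (R60 ++ (R61 ++ (R62 ++ (R63 ++ (R64 ++ (R65 ++ (R66 ++ (R67 ++ (R68 ++ (R69 ++ (R70 ++ (R71 ++ (R72 ++ (R73 ++ (R74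 ++ (R75 ++ (R76 ++ (R77 ++ (R78 ++ (R79 ++ (R80 ++ (R81 ++ (R82 ++ (R83 ++ (R84 ++ (R85 ++ (R86 ++ (R87 ++ (R88 ++ (R89 ++ (R90 ++ (R91)))))))))))))))))))))))))))))))))))))))))))))))))))))))))))))))))))))))))))))))))))))))))))

theorem hRR : reflList = RR.map matI := by
  simp only [reflList, RR, List.map_append, hR0, hR1, hR2, hR3, hR4, hR5, hR6, hR7, hR8, hR9, hR10, hR11, hR12, hR13, hR14, hR15, hR16, hR17, hR18, hR19, hR20, hR21, hR22, hR23, hR24, hR25, hR26, hR27, hR28, hR29, hR30, hR31, hR32, hR33, hR34, hR35, hR36, hR37, hR38, hR39, hR40, hR41, hR42, hR43, hR44, hR45, hR46, hR47, hR48, hR49, hR50, hR51, hR52, hR53, hR54, hR55, hR56, hR57, hR58, hR59, hR60, hR61, hR62, hR63, hR64, hR65, hR66, hR67, hR68, hR69, hR70, hR71, hR72,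 hR73, hR74, hR75, hR76, hR77, hR78, hR79, hR80, hR81, hR82, hR83, hR84, hR85, hR86, hR87, hR88, hR89, hR90, hR91]

/-- equality of matrices -/
noncomputable def eqA (A B : K.I10) : Bool :=
  K.ands (K.ands (K.ands (Int.beq' A.a00 B.a00) (Int.beq' A.a01 B.a01))
    (K.ands (Int.beq' A.a02 B.a02) (K.ands (Int.beq' A.a03 B.a03) (Int.beq' A.a11 B.a11))))
    (K.ands (K.ands (Int.beq' A.a12 B.a12) (Int.beq' A.a13 B.a13))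
    (K.ands (Int.beq' A.a22 B.a22) (K.ands (Int.beq' A.a23 B.a23) (Int.beq' A.a33 B.a33))))

theorem ands_true {a b : Bool} (h : K.ands a b = true) : a = true ∧ b = true := by
  cases a
  · exact absurd h (by simp [K.ands])
  · exact ⟨rfl, h⟩

theorem beqI {a b : ℤ} (h : Int.beq' a b = true) : a = b := by
  rw [Int.beq'_eq] at h
  simpa using h

theorem eqA_eq {A B : K.I10} (h : eqA A B = true) : A = B := by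
  obtain ⟨h1, h2⟩ := ands_true h
  obtain ⟨h3, h4⟩ := ands_true h1
  obtain ⟨h5, h6⟩ := ands_true h3
  obtain ⟨h7, h8⟩ := ands_true h4
  obtain ⟨h9, h10⟩ := ands_true h8
  obtain ⟨h11, h12⟩ := ands_true h2
  obtain ⟨h13, h14⟩ := ands_true h11
  obtain ⟨h15, h16⟩ := ands_true h12
  obtain ⟨h17, h18⟩ := ands_true h16
  cases A
  cases B
  simp only [K.I10.mk.injEq]
  exact ⟨beqI h5, beqI h6, beqI h7, beqI h9, beqI h10, beqI h13, beqI h14, beqI h15, beqI h17,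
    beqI h18⟩

/-- the rows from `j` on are the elements of the list -/
noncomputable def eqT (ta : Nat) (l : List K.I10) : Nat → Bool :=
  List.rec (fun _ => true) (fun B _ ih j => Bool.rec false (ih (Nat.succ j))
    (K.rowT ta j fun A => eqA A B)) l

theorem eqT_spec (ta : ℕ) : ∀ (l : List K.I10) (j : ℕ), eqT ta l j = true →
    l.map matI = (List.range l.length).map fun i => mtab ta (j + i) := by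
  intro l
  induction l with
  | nil => intro j _; rfl
  | cons B l ih =>
    intro j h
    have h' : (Bool.rec false (eqT ta l (Nat.succ j)) (K.rowT ta j fun A => eqA A B) : Bool) = true := h
    cases hb : (K.rowT ta j fun A => eqA A B) with
    | false => rw [hb] at h'; exact absurd h' (by simp)
    | true =>
      rw [hb] at h'
      have h2 := ih (Nat.succ j) h'
      obtain ⟨A, hA, hA2⟩ := H84T.rowT_eq ta j fun A => eqA A B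
      rw [hA2] at hb
      have hAB := eqA_eq hb
      rw [List.length_cons, List.range_succ_eq_map, List.map_cons, List.map_cons, h2, ← hAB, hA,
        List.map_map]
      congr 1
      apply List.map_congr_left
      intro i _
      simp only [Function.comp, Nat.succ_eq_add_one]
      congr 1
      omega

theorem eqT_all : eqT Cert.ta RR 0 = true := by decide +kernel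

theorem lenRR : RR.length = 919 := by decide +kernel

theorem refl_eq : reflList = tlist Cert.ta 919 := by
  rw [hRR, eqT_spec Cert.ta RR 0 eqT_all, lenRR, tlist]
  apply List.map_congr_left
  intro i _
  rw [Nat.zero_add]

end Pool.Agent.Refl.Fin
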