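import Pool.Agent.Helper23_Refl.FinB
import Pool.Agent.Helper23_Refl.FinD
import Pool.Agent.Helper23_Refl.FinT

/-!
# The classification
-/

namespace Pool.Agent.Refl.Fin

open Matrix

theorem isom_refl (G : M4) : Isom G G := ⟨1, by simp⟩

theorem stage1 : Stage1 (tlist Cert.ta 67) := by
  refine stg1 Cert.LL.flatten Cert.ta 67 Cert.cb 1083 _ enA_all enI_all enII_all okLL ?_ pn
  intro j hj
  refine ⟨(pr j (by omega)).2.1, mtab Cert.ta j, ?_, isom_refl _⟩
  exact List.mem_map.2 ⟨j, List.mem_range.2 hj, rfl⟩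

theorem main_tlist (G : M4) (hG : Lat G) :
    Reflective G ↔ ∃ T ∈ tlist Cert.ta 919, Similar G T :=
  finl Cert.ta pr po stage1 G hG

theorem main_list (G : M4) (hG : Lat G) : Reflective G ↔ ∃ T ∈ reflList, Similar G T := by
  rw [refl_eq]
  exact main_tlist G hG

theorem main_mem (T : M4) (hT : T ∈ reflList) : Lat T ∧ Reflective T := by
  rw [refl_eq] at hT
  obtain ⟨j, hj, rfl⟩ := List.mem_map.1 hT
  have h := pr j (List.mem_range.1 hj)
  exact ⟨h.1, h.2.2⟩

theorem main_len : reflList.length = 919 := by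
  rw [hRR, List.length_map, lenRR]

end Pool.Agent.Refl.Fin
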