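import Pool.Agent.Helper23_Refl.KWalk

/-!
# Kernel functions: compactness certificates
-/

namespace Pool.Agent.Refl.K

noncomputable section

/-- evaluate a symmetric matrix -/
def fc10 {α : Type} (A : I10) (f : I10 → α) : α :=
  fcI A.a00 fun a => fcI A.a01 fun b => fcI A.a02 fun c => fcI A.a03 fun d => fcI A.a11 fun e =>
  fcI A.a12 fun g => fcI A.a13 fun h => fcI A.a22 fun i => fcI A.a23 fun j => fcI A.a33 fun k =>
  f (I10.mk a b c d e g h i j k)

/-- row `j` of a table, evaluated -/
def rowT {α : Type} (ta j : Nat) (f : I10 → α) : α :=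
  fc (Nat.mod (Nat.shiftRight ta (Nat.mul 240 j)) (Nat.pow 2 240)) fun r => fc10 (i10 24 r) f

/-- read `k` vectors with entries of `w` bits -/
def rdLs (k w : Nat) : (List I4 → Nat → Nat) → Nat → Nat :=
  Nat.rec (fun f s => f List.nil s) (fun _ ih f s => rdI w s fun v s => ih (fun l s => f (List.cons v l) s) s) k

/-- element of a list of vectors -/
def getF (l : List I4) : Nat → I4 :=
  List.rec (fun _ => zI4) (fun a _ ih i => Nat.rec a (fun m _ => ih m) i) l

def lenF (l : List I4) : Nat := List.rec 0 (fun _ _ n => Nat.succ n) l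

/-- a vertex: vector `V`, `U = A V`, three facets, three neighbours -/
structure Cv where
  V : I4
  U : I4
  t0 : Nat
  t1 : Nat
  t2 : Nat
  n0 : Nat
  n1 : Nat
  n2 : Nat

def zCv : Cv := Cv.mk zI4 zI4 0 0 0 0 0 0

def getC (l : List Cv) : Nat → Cv :=
  List.rec (fun _ => zCv) (fun a _ ih i => Nat.rec a (fun m _ => ih m) i) l

/-- read `k` vertices: facets and neighbours (8 bits each), then the vector (`w` bits) -/
def rdCs (A : I10) (k w : Nat) : (List Cv → Nat → Nat) → Nat → Nat :=
  Nat.rec (fun f s => f List.nil s) (fun _ ih f s =>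
    fc (Nat.mod s 281474976710656) fun h => rdI w (Nat.div s 281474976710656) fun v s =>
    fc4 (mulI A v) fun u =>
    fc (Nat.mod h 256) fun t0 => fc (Nat.mod (Nat.div h 256) 256) fun t1 =>
    fc (Nat.mod (Nat.div h 65536) 256) fun t2 => fc (Nat.mod (Nat.div h 16777216) 256) fun n0 =>
    fc (Nat.mod (Nat.div h 4294967296) 256) fun n1 => fc (Nat.div h 1099511627776) fun n2 =>
    ih (fun l s => f (List.cons (Cv.mk v u t0 t1 t2 n0 n1 n2) l) s) s) k

def zerI (x : Int) : Bool := Int.beq' x 0

/-- the neighbour `u` of a vertex, opposite to the facet `x` -/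
def nbC (u x y z : I4) : Bool :=
  ands (negb (dotI u x)) (ands (zerI (dotI u y)) (zerI (dotI u z)))

/-- one vertex -/
def cvC (F : List I4) (n : Nat) (C : List Cv) (m : Nat) (O S : I4) (v : Cv) : Bool :=
  (fun x y z : I4 =>
    ands (ands (ands (negb (dotI v.V v.U)) (negb (dotI O v.U))) (ands (negb (dotI S v.U))
      (ands (zerI (dotI x v.U)) (ands (zerI (dotI y v.U)) (zerI (dotI z v.U))))))
    (ands (ands (ands (Nat.blt v.t0 n) (ands (Nat.blt v.t1 n) (Nat.blt v.t2 n)))
      (ands (Nat.blt v.n0 m) (ands (Nat.blt v.n1 m) (Nat.blt v.n2 m))))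
    (ands (nbC (getC C v.n0).U x y z) (ands (nbC (getC C v.n1).U y x z) (nbC (getC C v.n2).U z x y)))))
    (getF F v.t0) (getF F v.t1) (getF F v.t2)

def allC (f : Cv → Bool) (l : List Cv) : Bool := List.rec true (fun a _ ih => Bool.rec false ih (f a)) l
def allF (f : I4 → Bool) (l : List I4) : Bool := List.rec true (fun a _ ih => Bool.rec false ih (f a)) l

/-- sum of vectors -/
def sumF (l : List I4) : I4 := List.rec zI4 (fun a _ ih => addI a ih) l

/-- signature (3,1): three vectors with positive definite Gram matrix, negative determinant -/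
def sigC (A : I10) (a b c : I4) : Bool :=
  ands (negb (detA A)) (mkEd A a b c (fun v => v) fun E => ands (posI (dotI a (mulI A a)))
    (ands (Nat.ble 1 E.A33) (Nat.ble 1 E.De)))

/-- compactness certificate: number of facets (8 bits), width (6 bits), facets, interior vector,
number of vertices (8 bits), width (6 bits), vertices -/
def cmpK (A : I10) (s : Nat) : Nat :=
  fc (Nat.mod s 256) fun n => fc (Nat.mod (Nat.div s 256) 64) fun w =>
  rdLs n w (fun F s => rdI w s fun O s =>
    fc (Nat.mod s 256) fun m => rdCs A m (Nat.mod (Nat.div s 256) 64) (fun C s =>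
      fc4 (sumF F) fun S => fc4 (mulI A O) fun P =>
      okb (ands (ands (Nat.ble 1 m) (ands (prm A) (ands (negb (dotI O P))
          ((fun v : Cv => sigC A (getF F v.t0) (getF F v.t1) (getF F v.t2)) (getC C 0)))))
        (ands (allF (fun e => ands (negb (dotI e P)) (isR A e)) F)
          (allC (cvC F n C m O S) C))) s) (Nat.div s 16384)) (Nat.div s 16384)

/-- certificates for the rows from `j` on of a table -/
def cmpT (ta : Nat) (j : Nat) (l : List Nat) : Bool :=
  List.rec (fun _ => true) (fun s _ ih j => Bool.rec false (ih (Nat.succ j))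
    (Nat.rec false (fun _ _ => true) (rowT ta j fun A => cmpK A s))) l j

end

end Pool.Agent.Refl.K
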