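import Pool.Agent.Helper23_Refl.KFar

/-!
# Kernel functions: enumeration of the configurations
-/

namespace Pool.Agent.Refl.K

noncomputable section

/-- continuation: acts on the list of expected codes -/
abbrev Kt := List Nat → Bool

def nilB : Kt := fun l => List.rec true (fun _ _ _ => false) l

/-- the next expected code is `code` -/
def eat (code : Nat) (k : Kt) : Kt := fun l =>
  List.rec false (fun a l' _ => Bool.rec false (k l') (Nat.beq a code)) l

/-- loop over the `n` values from `x` on -/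
def rng (n : Nat) (body : Nat → Kt → Kt) (k : Kt) : Nat → Kt :=
  Nat.rec (fun _ l => k l) (fun _ ih x l => fc x fun x => body x (ih (Nat.succ x)) l) n

/-- skip unless `b` -/
@[reducible] def ifb (b : Bool) (a k : Kt) : Kt := fun l => Bool.rec (k l) (a l) b

def isq (n : Nat) : Bool := fc n fun n => fc (sqK n) fun r => Nat.beq (Nat.mul r r) n

def m3n (a b c : Nat) : Nat := Nat.mul (Nat.mul a b) c
def m4n (a b c d : Nat) : Nat := Nat.mul (Nat.mul a b) (Nat.mul c d)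

/-- three roots through a vertex -/
def pdU (a b c : Nat) : Bool := Nat.blt (Nat.add (Nat.add (Nat.add a b) c) (sqK (m3n a b c))) 4

/-- `D0 > 0` -/
def dpos (n01 n02 n12 n03 n13 n23 : Nat) : Bool :=
  Nat.blt (Nat.add 16 (Nat.add (Nat.add (Nat.mul n01 n23) (Nat.mul n02 n13)) (Nat.mul n03 n12)))
    (Nat.add (Nat.mul 4 (Nat.add (Nat.add (Nat.add n01 n02) (Nat.add n12 n03)) (Nat.add (Nat.add n13 n23)
      (Nat.add (Nat.add (sqK (m3n n01 n02 n12)) (sqK (m3n n01 n03 n13)))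
        (Nat.add (sqK (m3n n02 n03 n23)) (sqK (m3n n12 n13 n23)))))))
      (Nat.mul 2 (Nat.add (sqK (m4n n01 n12 n23 n03)) (Nat.add (sqK (m4n n01 n13 n23 n02))
        (sqK (m4n n02 n12 n13 n03))))))

/-- pack numbers below 4096 -/
def pk (l : List Nat) : Nat := List.rec 0 (fun a _ r => Nat.add a (Nat.mul 4096 r)) l
def small (l : List Nat) : Bool := List.rec true (fun a _ r => Bool.rec false r (Nat.blt a 4096)) l

/-- emit a configuration -/
def emit (tag : Nat) (ns : List Nat) (k : Kt) : Kt := fun l =>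
  Bool.rec false (eat (Nat.add (Nat.mul 4 (pk ns)) tag) k l) (small ns)

/-! ### case A -/

def conn (N12 N13 N14 N23 N24 N34 : Nat) : Bool :=
  ands (ands (ands (Nat.ble 1 (Nat.add N12 (Nat.add N13 N14)))
    (Nat.ble 1 (Nat.add (Nat.add N13 N14) (Nat.add N23 N24))))
    (ands (Nat.ble 1 (Nat.add (Nat.add N12 N14) (Nat.add N23 N34)))
    (Nat.ble 1 (Nat.add (Nat.add N12 N13) (Nat.add N24 N34)))))
    (ands (ands (Nat.ble 1 (Nat.add N14 (Nat.add N24 N34))) (Nat.ble 1 (Nat.add N13 (Nat.add N23 N34))))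
    (Nat.ble 1 (Nat.add N12 (Nat.add N23 N24))))

def sqs4 (n01 n02 n12 n03 n13 n23 : Nat) : Bool :=
  ands (ands (ands (isq (m3n n01 n02 n12)) (isq (m3n n01 n03 n13)))
    (ands (isq (m3n n02 n03 n23)) (isq (m3n n12 n13 n23))))
    (ands (isq (m4n n01 n12 n23 n03)) (ands (isq (m4n n01 n13 n23 n02)) (isq (m4n n02 n12 n13 n03))))

def enA3 (N12 N13 N23 : Nat) (k : Kt) : Kt :=
  ifb (pdU N12 N13 N23)
    (rng 4 (fun N14 k => rng 4 (fun N24 k =>
      ifb (ands (pdU N12 N14 N24) (Nat.ble (Nat.add (Nat.mul 4 N14) N24) (Nat.add (Nat.mul 4 N13) N23)))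
        (fun l => fc (Nat.succ (bAK N12 N13 N23 N14 N24)) fun b =>
          rng b (fun N34 k => ifb (ands (notb (Nat.beq N34 4)) (ands (conn N12 N13 N14 N23 N24 N34)
            (ands (sqs4 N12 N13 N23 N14 N24 N34) (dpos N12 N13 N23 N14 N24 N34))))
            (emit 0 [N12, N13, N23, N14, N24, N34] k) k) k 0 l) k) k 0) k 0) k

/-- all configurations of case A with given `N12` -/
def enA (N12 : Nat) (k : Kt) : Kt := rng 4 (fun N13 k => rng 4 (fun N23 k => enA3 N12 N13 N23 k) k 0) k 0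

/-! ### case I -/

/-- `N45` in case I -/
def n45IK (N12 N34 N15 N25 N35 : Nat) (f : Nat → Kt) (k : Kt) : Kt := fun l =>
  fc (Nat.add (Nat.add N25 N15) (Nat.add (sqK (m3n N12 N15 N25)) N12)) fun A =>
  Bool.rec (k l)
    (fc (Nat.mul (Nat.sub N34 4) (Nat.sub A 4)) fun V => fc (Nat.sub 4 N12) fun q =>
    Bool.rec (k l)
      (fc (Nat.div V q) fun s0 => Bool.rec (k l)
        (fc (Nat.sub s0 N35) fun s => fc (Nat.mul N34 N35) fun c =>
        fc (Nat.add (Nat.mul c c) (Nat.mul (Nat.mul 4 c) s)) fun x => fc (sqK x) fun r =>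
        Bool.rec (k l)
          (fc (Nat.sub r c) fun d => fc (Nat.div d 2) fun t =>
            Bool.rec (k l) (fc (Nat.sub s t) fun N45 => f N45 l)
              (ands (Nat.beq (Nat.mul 2 t) d) (Nat.ble t s)))
          (Nat.beq (Nat.mul r r) x))
        (Nat.ble N35 s0))
      (Nat.beq (Nat.mod V q) 0))
    (Nat.ble 4 A)

/-- `N56` in case I with two more roots -/
def n56K (N34 N35 N36 N45 N46 N25 N26 : Nat) (f : Nat → Kt) (k : Kt) : Kt := fun l =>
  fc (sqK (m4n N35 N36 N46 N45)) fun q =>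
  fc (Nat.add (Nat.add (Nat.add (Nat.mul 4 (Nat.mul N35 N36)) (Nat.mul 4 (Nat.mul N45 N46)))
    (Nat.add (Nat.mul N34 (Nat.mul N35 N46)) (Nat.mul N34 (Nat.mul N45 N36))))
    (Nat.add (Nat.add (Nat.mul 8 q) (Nat.mul (Nat.mul 4 (Nat.add N35 N45)) (sqK (m3n N34 N36 N46))))
    (Nat.add (Nat.mul (Nat.mul 4 (Nat.add N36 N46)) (sqK (m3n N34 N35 N45)))
      (Nat.mul (Nat.mul 2 N34) q)))) fun num =>
  fc (Nat.mul N25 N26) fun M => fc (Nat.sub N34 4) fun e =>
  Nat.rec
    (Bool.rec (k l) (fc (Nat.div num (Nat.mul e e)) fun N56 => f N56 l)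
      (Nat.beq (Nat.mod num (Nat.mul e e)) 0))
    (fun _ _ => fc (Nat.mul (Nat.mul 4 num) M) fun x => fc (sqK x) fun r =>
      fc (Nat.div r e) fun y => fc (Nat.sub y M) fun d => fc (Nat.div d 2) fun t =>
      Bool.rec (k l) (fc (Nat.div (Nat.mul t t) M) fun N56 => f N56 l)
        (ands (ands (Nat.beq (Nat.mul r r) x) (Nat.beq (Nat.mod r e) 0))
          (ands (ands (Nat.ble M y) (Nat.beq (Nat.mul 2 t) d)) (Nat.beq (Nat.mod (Nat.mul t t) M) 0)))) M

def sqs6 (N34 N25 N35 N45 N26 N36 N46 N56 : Nat) : Bool :=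
  ands (ands (ands (isq (m3n N25 N26 N56)) (isq (m3n N34 N36 N46)))
    (ands (isq (m3n N35 N36 N56)) (isq (m3n N45 N46 N56))))
    (ands (ands (isq (m4n N25 N35 N36 N26)) (isq (m4n N25 N45 N46 N26)))
    (ands (isq (m4n N34 N45 N56 N36)) (ands (isq (m4n N34 N46 N56 N35)) (isq (m4n N35 N45 N46 N36)))))

/-- the second new root, if `N12 = N15 = 0` -/
def enI6 (N34 N25 N35 N45 : Nat) (k : Kt) : Kt := fun l =>
  fc (lCK N34 N25 N35) fun la => fc (muIK N34) fun mu =>
  rng 4 (fun N26 k => rng (Nat.sub 4 N26) (fun N36 k l =>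
    fc (Nat.succ (farK 0 0 N26 N36 la mu)) fun b => rng b (fun N16 k =>
      ifb (notb (Nat.beq N16 4)) (n45IK 0 N34 N26 N16 N36 (fun N46 =>
        ifb (notb (Nat.beq N46 4)) (n56K N34 N35 N36 N45 N46 N25 N26 (fun N56 =>
          ifb (ands (notb (Nat.beq N56 4)) (ands (sqs6 N34 N25 N35 N45 N26 N36 N46 N56)
            (dpos 0 0 0 N16 N26 N36)))
            (emit 3 [0, 0, 0, 0, 0, N34, 0, N25, N35, N45, N16, N26, N36, N46, N56] k) k) k) k) k) k)
      k 0 l) k 0) k 0 l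

def enI (N12 N34 : Nat) (k : Kt) : Kt := fun l =>
  fc (lamIK N12) fun la => fc (muIK N34) fun mu =>
  rng 4 (fun N15 k => ifb (notb (ands (Nat.beq N12 0) (Nat.blt 1 N15)))
    (rng (Nat.sub 4 N15) (fun N35 k l =>
      fc (Nat.succ (farK 0 N12 N15 N35 la mu)) fun b => rng b (fun N25 k =>
        ifb (ands (notb (Nat.beq N25 4)) (isq (m3n N12 N15 N25)))
          (n45IK N12 N34 N15 N25 N35 (fun N45 =>
            ifb (ands (notb (Nat.beq N45 4)) (ands (isq (m3n N34 N35 N45)) (dpos N12 0 0 N15 N25 N35)))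
              (ifb (ands (Nat.beq N12 0) (Nat.beq N15 0)) (enI6 N34 N25 N35 N45 k)
                (emit 1 [N12, 0, 0, 0, 0, N34, N15, N25, N35, N45] k)) k) k) k) k 0 l) k 0) k) k 0 l

/-! ### case II -/

/-- `N45` in case II -/
def n45IIK (N13 N14 N34 t134 N15 N35 N25 : Nat) (f : Nat → Kt) (k : Kt) : Kt := fun l =>
  fc (sqK (m3n N13 N35 N15)) fun t135 => fc (sqK (m4n N14 N34 N35 N15)) fun q =>
  fc (Nat.add (Nat.add (Nat.add (Nat.mul 16 (Nat.mul N14 N15)) (Nat.mul 4 (m3n N13 N15 N34)))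
      (Nat.add (Nat.mul 16 (Nat.mul N34 N35)) (Nat.mul 4 (m3n N35 N14 N13))))
    (Nat.add (Nat.add (Nat.mul 16 (Nat.mul N15 t134)) (Nat.mul 32 q))
      (Nat.add (Nat.add (Nat.mul 16 (Nat.mul N14 t135)) (Nat.mul 16 (Nat.mul N34 t135)))
        (Nat.add (Nat.mul 8 (Nat.mul N13 q)) (Nat.mul 16 (Nat.mul N35 t134)))))) fun P =>
  fc (Nat.sub (Nat.add (Nat.add (Nat.add N13 N14) N34) t134) 4) fun E =>
  fc (Nat.add (Nat.add (Nat.mul N15 N34) (Nat.mul N35 N14)) (Nat.mul N25 E)) fun C1 =>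
  fc (Nat.add (Nat.mul 4 (Nat.add (Nat.add N15 N35) (Nat.add t135 E))) (Nat.mul 2 q)) fun C2 =>
  Bool.rec (k l)
    (fc (Nat.sub C1 C2) fun C => fc (Nat.sub 4 N13) fun g =>
      fc (Nat.add (Nat.mul P P) (Nat.mul (Nat.mul 4 g) (Nat.mul P C))) fun x => fc (sqK x) fun r =>
      fc (Nat.sub r P) fun d => fc (Nat.div d (Nat.mul 2 g)) fun T => fc (Nat.sub C T) fun y =>
      fc (Nat.div y g) fun N =>
      Bool.rec (k l) (f N l)
        (ands (ands (Nat.beq (Nat.mul r r) x) (Nat.beq (Nat.mul (Nat.mul 2 g) T) d))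
          (ands (Nat.ble T C) (ands (Nat.beq (Nat.mul N g) y) (Nat.beq (Nat.mul T T) (Nat.mul P N))))))
    (Nat.ble C2 C1)

def sqs5 (N13 N14 N34 N15 N35 N45 : Nat) : Bool :=
  ands (ands (isq (m3n N13 N15 N35)) (ands (isq (m3n N14 N15 N45)) (isq (m3n N34 N35 N45))))
    (ands (isq (m4n N13 N34 N45 N15)) (ands (isq (m4n N13 N35 N45 N14)) (isq (m4n N14 N34 N35 N15))))

def enII (N13 N14 : Nat) (k : Kt) : Kt := fun l =>
  fc (Nat.succ (bIIK N13 N14)) fun b => rng b (fun N34 k l => fc (m3n N13 N14 N34) fun x =>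
    fc (sqK x) fun t => Bool.rec (k l)
      (fc (lamIIK N13 N14 N34) fun la => fc (muIIK N13 N14 N34) fun mu =>
      rng 4 (fun N15 k => rng 4 (fun N35 k => ifb (pdU N13 N15 N35) (fun l =>
        fc (Nat.succ (farK N13 0 N15 N35 la mu)) fun b => rng b (fun N25 k =>
          ifb (notb (Nat.beq N25 4)) (n45IIK N13 N14 N34 t N15 N35 N25 (fun N45 =>
            ifb (ands (notb (Nat.beq N45 4)) (ands (sqs5 N13 N14 N34 N15 N35 N45)
              (dpos 0 N13 0 N15 N25 N35)))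
              (emit 2 [0, N13, 0, N14, 0, N34, N15, N25, N35, N45] k) k) k) k) k 0 l) k) k 0) k 0 l)
      (ands (ands (notb (Nat.beq N34 4)) (Nat.beq (Nat.mul t t) x))
        (Nat.blt 4 (Nat.add (Nat.add (Nat.add N13 N14) N34) t)))) k 0 l

/-- check of one configuration, given as `4 code + tag` -/
def tupX (tb tn cb cn x s : Nat) : Bool :=
  fc (Nat.mod x 4) fun tag => fc (Nat.div x 4) fun code => tupC tb tn cb cn tag (sel tag 4 5 5 6) code s

/-- check of a list of configurations -/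
def tupL (tb tn cb cn : Nat) (l : List Nat) : List Nat → Bool :=
  List.rec (fun _ => true) (fun x _ ih ss =>
    List.rec false (fun s ss' _ => Bool.rec false (ih ss') (tupX tb tn cb cn x s)) ss) l

end

end Pool.Agent.Refl.K
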