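import Pool.Agent.Helper23_Refl.KTup

/-!
# Kernel functions: enumeration of the roots beyond a vertex, along an edge
-/

namespace Pool.Agent.Refl.K

noncomputable section

/-- integer vectors -/
structure I4 where
  x : Int
  y : Int
  z : Int
  w : Int

/-- symmetric integer matrices -/
structure I10 where
  a00 : Int
  a01 : Int
  a02 : Int
  a03 : Int
  a11 : Int
  a12 : Int
  a13 : Int
  a22 : Int
  a23 : Int
  a33 : Int

def dotI (u v : I4) : Int :=
  Int.add (Int.add (Int.mul u.x v.x) (Int.mul u.y v.y)) (Int.add (Int.mul u.z v.z) (Int.mul u.w v.w))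

def mulI (A : I10) (v : I4) : I4 :=
  I4.mk
    (Int.add (Int.add (Int.mul A.a00 v.x) (Int.mul A.a01 v.y)) (Int.add (Int.mul A.a02 v.z) (Int.mul A.a03 v.w)))
    (Int.add (Int.add (Int.mul A.a01 v.x) (Int.mul A.a11 v.y)) (Int.add (Int.mul A.a12 v.z) (Int.mul A.a13 v.w)))
    (Int.add (Int.add (Int.mul A.a02 v.x) (Int.mul A.a12 v.y)) (Int.add (Int.mul A.a22 v.z) (Int.mul A.a23 v.w)))
    (Int.add (Int.add (Int.mul A.a03 v.x) (Int.mul A.a13 v.y)) (Int.add (Int.mul A.a23 v.z) (Int.mul A.a33 v.w)))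

/-- matrix from a row of offset numbers -/
def i10 (w row : Nat) : I10 :=
  fc (Nat.div (Nat.pow 2 w) 2) fun t =>
  I10.mk (sg t (gen row w 0)) (sg t (gen row w 1)) (sg t (gen row w 2)) (sg t (gen row w 3))
    (sg t (gen row w 4)) (sg t (gen row w 5)) (sg t (gen row w 6)) (sg t (gen row w 7))
    (sg t (gen row w 8)) (sg t (gen row w 9))

def det2 (a b c d : Int) : Int := Int.sub (Int.mul a d) (Int.mul b c)

/-- 3 by 3 determinant with rows `a b c` -/
def det3 (a1 a2 a3 b1 b2 b3 c1 c2 c3 : Int) : Int :=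
  Int.add (Int.sub (Int.mul a1 (det2 b2 b3 c2 c3)) (Int.mul a2 (det2 b1 b3 c1 c3)))
    (Int.mul a3 (det2 b1 b2 c1 c2))

/-- the vector `v` with `v . x = det (u1, u2, u3, x)`, up to a global sign:
`v . x = - det (u1, u2, u3, x)` -/
def crs (u v w : I4) : I4 :=
  I4.mk (det3 u.y u.z u.w v.y v.z v.w w.y w.z w.w)
    (Int.neg (det3 u.x u.z u.w v.x v.z v.w w.x w.z w.w))
    (det3 u.x u.y u.w v.x v.y v.w w.x w.y w.w)
    (Int.neg (det3 u.x u.y u.z v.x v.y v.z w.x w.y w.z))

def negI (v : I4) : I4 := I4.mk (Int.neg v.x) (Int.neg v.y) (Int.neg v.z) (Int.neg v.w)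

def eqI (u v : I4) : Bool :=
  ands (ands (Int.beq' u.x v.x) (Int.beq' u.y v.y)) (ands (Int.beq' u.z v.z) (Int.beq' u.w v.w))

/-- divisible by a natural number -/
def dvdI (K : Nat) (x : Int) : Bool := Nat.beq (Nat.mod (Int.natAbs x) K) 0

def gcdI (v : I4) : Nat :=
  Nat.gcd (Nat.gcd (Int.natAbs v.x) (Int.natAbs v.y)) (Nat.gcd (Int.natAbs v.z) (Int.natAbs v.w))

/-- `K` divides `2 A v`, and `v` is primitive -/
def rootI (A : I10) (K : Nat) (v : I4) : Bool :=
  (fun u : I4 => ands (ands (ands (dvdI K (Int.mul 2 u.x)) (dvdI K (Int.mul 2 u.y)))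
    (ands (dvdI K (Int.mul 2 u.z)) (dvdI K (Int.mul 2 u.w)))) (Nat.beq (gcdI v) 1)) (mulI A v)

/-- squares modulo 5040 -/
def smask : Nat := 0x10000000002000010000000000000000002010010000000000200000002010002000000000000000000010000000002000012000200000010000002010000000000000000000000010002001000000003000000000000000002000002000002000011000000010000000000010002000000000210000000000002000200000000001000000002000002000010000000000010001000010002000002000010000000000002000000010201000000000010000002000000000002000210000000010002000002010012000000000000000000010000000202000010000000000000000002010010000200000000001002010003000000000000000200010000001002000012000000000010000002010000000000000200000000010002000000000002000000000200000002000002000202000010000000010000000000010002000000000010001000000003000000000000000200000002000002000011000000000010000000010002000002000211000000000002000000010000000000000010000002000000000002000010001000010002000002010012000000000000000000010001000002000010000200000000000002010210000000000000000002010002000000000001000000010000000002000012000000000010000002010000000200000000001000010002000000000002000200000000001002000002000002000010000000010000001000010202000000000010000000000002000000000201000000000002000002000010000000000210000000010002000002000010001000000002000000010000000200000010000002000001000002000010000200010002001002010213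

/-- three roots `a, b, c`, the edge `(a, b)`; numbers derived from their norms and products -/
structure Ed where
  A : I10
  a : I4
  b : I4
  c : I4
  V : I4
  Ka : Nat
  Kb : Nat
  Kc : Nat
  p : Nat
  A11 : Nat
  A22 : Nat
  A33 : Nat
  A12 : Nat
  A13 : Nat
  A23 : Nat
  De : Nat
  dA : Nat

/-- numerator of a coordinate of the candidate -/
def num1 (m e1 e2 e3 : Nat) (a b c V : Int) : Int :=
  Int.sub (Int.mul (Int.ofNat m) V) (Int.add (Int.add (Int.mul (Int.ofNat e1) a)
    (Int.mul (Int.ofNat e2) b)) (Int.mul (Int.ofNat e3) c))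

def divI (x : Int) (d : Nat) : Int :=
  Int.rec (fun n => Int.ofNat (Nat.div n d)) (fun n => Int.neg (Int.ofNat (Nat.div (Nat.succ n) d))) x

/-- the candidate root with the products `- X, - Y, - Z` and determinant `m`: if it is a root then
`f` has to hold -/
def cand (E : Ed) (K X Y Z m : Nat) (f : I4 → Bool) : Bool :=
  fc (Nat.add (Nat.add (Nat.mul E.A11 X) (Nat.mul E.A12 Y)) (Nat.mul E.A13 Z)) fun e1 =>
  fc (Nat.add (Nat.add (Nat.mul E.A12 X) (Nat.mul E.A22 Y)) (Nat.mul E.A23 Z)) fun e2 =>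
  fc (Nat.add (Nat.add (Nat.mul E.A13 X) (Nat.mul E.A23 Y)) (Nat.mul E.A33 Z)) fun e3 =>
  (fun x y z w : Int =>
    Bool.rec true
      ((fun r : I4 => Bool.rec true (f r) (rootI E.A K r))
        (I4.mk (divI x E.De) (divI y E.De) (divI z E.De) (divI w E.De)))
      (ands (ands (dvdI E.De x) (dvdI E.De y)) (ands (dvdI E.De z) (dvdI E.De w))))
    (num1 m e1 e2 e3 E.a.x E.b.x E.c.x E.V.x) (num1 m e1 e2 e3 E.a.y E.b.y E.c.y E.V.y)
    (num1 m e1 e2 e3 E.a.z E.b.z E.c.z E.V.z) (num1 m e1 e2 e3 E.a.w E.b.w E.c.w E.V.w)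

/-- loop over `Z = t * step`; `n = A33 Z² + 2 B0 Z + C0`, `e` the next difference, `F` the second
difference -/
def lpZ (F KD dA : Nat) (f : Nat → Nat → Bool) (k : Nat) : Nat → Nat → Nat → Bool :=
  Nat.rec (fun _ _ _ => true) (fun _ ih t n e =>
    Bool.rec (fc (Nat.add n e) fun n' => fc (Nat.add e F) fun e' => ih (Nat.succ t) n' e')
      (Bool.rec (fc (Nat.add n e) fun n' => fc (Nat.add e F) fun e' => ih (Nat.succ t) n' e')
        (ands (f t (Nat.div (Nat.sub n KD) dA))
          (fc (Nat.add n e) fun n' => fc (Nat.add e F) fun e' => ih (Nat.succ t) n' e'))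
        (Nat.beq (Nat.mod (Nat.shiftRight smask (Nat.mod (Nat.div (Nat.sub n KD) dA) 5040)) 2) 1))
      (Nat.beq (Nat.mod (Nat.sub n KD) dA) 0)) k

/-- value of the quadratic function for `Z = 0` -/
def c00 (E : Ed) (X Y : Nat) : Nat :=
  Nat.add (Nat.mul (Nat.mul E.A11 X) X) (Nat.add (Nat.mul (Nat.mul E.A22 Y) Y)
    (Nat.mul 2 (Nat.mul (Nat.mul E.A12 X) Y)))

/-- all candidates with norm `K`, products `X, Y` and the first `T` values of `Z` -/
def fam (E : Ed) (K X Y step T : Nat) (f : (Z m : Nat) → I4 → Bool) : Bool :=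
  fc (Nat.add (Nat.mul E.A13 X) (Nat.mul E.A23 Y)) fun B0 =>
  fc (Nat.mul 2 (Nat.mul (Nat.mul E.A33 step) step)) fun F =>
  fc (Nat.mul K E.De) fun KD =>
  fc (c00 E X Y) fun C0 =>
  fc (Nat.add (Nat.div F 2) (Nat.mul 2 (Nat.mul B0 step))) fun e =>
  lpZ F KD E.dA (fun t q => fc q fun q => Nat.rec true (fun _ _ => fc (sqK q) fun m =>
    Bool.rec true (fc (Nat.mul t step) fun Z => cand E K X Y Z m (f Z m)) (Nat.beq (Nat.mul m m) q)) q)
    T 0 C0 e

/-- step for `Z` -/
def stp (K Kc : Nat) : Nat :=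
  fc (Nat.mul (Nat.div K (Nat.gcd K Kc)) Kc) fun l =>
  Bool.rec l (Nat.div l 2) (Nat.beq (Nat.mod l 2) 0)

/-- possible products with a root of norm `Ka`: `f X N` has to hold for all of them -/
def opt1 (f : Nat → Nat → Bool) (M N : Nat) : Bool :=
  Bool.rec true (f (Nat.div M 2) N) (Nat.beq (Nat.mod M 2) 0)

def opt (K Ka : Nat) (f : Nat → Nat → Bool) : Bool :=
  ands (f 0 0)
    (Bool.rec (Bool.rec (Bool.rec (Bool.rec (Bool.rec true
      (opt1 f K 3) (Nat.beq K (Nat.mul 3 Ka)))
      (opt1 f K 2) (Nat.beq K (Nat.mul 2 Ka)))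
      (opt1 f Ka 3) (Nat.beq Ka (Nat.mul 3 K)))
      (opt1 f Ka 2) (Nat.beq Ka (Nat.mul 2 K)))
      (opt1 f Ka 1) (Nat.beq Ka K))

/-- does the mirror meet the line of the edge -/
def omg (E : Ed) (K X Y : Nat) : Nat :=
  Nat.sub (Nat.mul K E.A33) (Nat.add (Nat.add (Nat.mul (Nat.mul E.Kb X) X)
    (Nat.mul 2 (Nat.mul (Nat.mul E.p X) Y))) (Nat.mul (Nat.mul E.Ka Y) Y))

/-- `g` holds for `K, K p, ..., K p ^ e` -/
def dvp (g : Nat → Bool) (p e : Nat) : Nat → Bool :=
  Nat.rec (fun K => g K) (fun _ ih K => ands (g K) (ih (Nat.mul K p))) e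

/-- all divisors of a product of prime powers `p ^ e`, given by the numbers `16 p + e` -/
def dvl (f : Nat → Bool) (l : List Nat) : Nat → Bool :=
  List.rec (fun K => fc K fun K => f K) (fun x _ ih => dvp ih (Nat.div x 16) (Nat.mod x 16)) l

/-- product of the prime powers, zero if some number is not prime -/
def prl (l : List Nat) : Nat :=
  List.rec 1 (fun x _ r => Bool.rec 0 (Nat.mul (Nat.pow (Nat.div x 16) (Nat.mod x 16)) r)
    (isPrime (Nat.div x 16))) l

/-- determinant of four vectors (as rows) -/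
def det4 (a b c d : I4) : Int :=
  Int.add (Int.sub (Int.add (Int.mul (det2 a.x a.y b.x b.y) (det2 c.z c.w d.z d.w))
      (Int.mul (det2 a.x a.w b.x b.w) (det2 c.y c.z d.y d.z)))
      (Int.mul (det2 a.x a.z b.x b.z) (det2 c.y c.w d.y d.w)))
    (Int.sub (Int.add (Int.mul (det2 a.y a.z b.y b.z) (det2 c.x c.w d.x d.w))
      (Int.mul (det2 a.z a.w b.z b.w) (det2 c.x c.y d.x d.y)))
      (Int.mul (det2 a.y a.w b.y b.w) (det2 c.x c.z d.x d.z)))

def detA (A : I10) : Int :=
  det4 (I4.mk A.a00 A.a01 A.a02 A.a03) (I4.mk A.a01 A.a11 A.a12 A.a13)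
    (I4.mk A.a02 A.a12 A.a22 A.a23) (I4.mk A.a03 A.a13 A.a23 A.a33)

/-- absolute value, evaluated -/
def nab (x : Int) (f : Nat → Nat) : Nat := fc (Int.natAbs x) f
def nabb (x : Int) (f : Nat → Bool) : Bool := fc (Int.natAbs x) f

/-- the numbers of an edge `(a, b)` with near root `c`; `V` is computed from `v` only if needed -/
def mkEd (A : I10) (a b c : I4) (sgn : I4 → I4) (f : Ed → Bool) : Bool :=
  (fun u v w : I4 =>
    nabb (dotI u a) fun Ka => nabb (dotI v b) fun Kb => nabb (dotI w c) fun Kc =>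
    nabb (dotI u b) fun p => nabb (dotI u c) fun q => nabb (dotI v c) fun r =>
    nabb (detA A) fun dA =>
    fc (Nat.sub (Nat.mul Kb Kc) (Nat.mul r r)) fun A11 => fc (Nat.sub (Nat.mul Ka Kc) (Nat.mul q q)) fun A22 =>
    fc (Nat.sub (Nat.mul Ka Kb) (Nat.mul p p)) fun A33 => fc (Nat.add (Nat.mul p Kc) (Nat.mul q r)) fun A12 =>
    fc (Nat.add (Nat.mul q Kb) (Nat.mul p r)) fun A13 => fc (Nat.add (Nat.mul r Ka) (Nat.mul p q)) fun A23 =>
    fc (Nat.sub (Nat.mul Ka A11) (Nat.add (Nat.mul p A12) (Nat.mul q A13))) fun De =>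
    f (Ed.mk A a b c (sgn (crs u v w)) Ka Kb Kc p A11 A22 A33 A12 A13 A23 De dA))
    (mulI A a) (mulI A b) (mulI A c)

/-- orient `v` such that the product with `o` is negative -/
def ori (A : I10) (o v : I4) : I4 := Bool.rec v (negI v) (Int.blt' 0 (dotI v (mulI A o)))

/-- some vector of the list, different from `r`, has a positive product with `r` -/
def anyPos (A : I10) (r : I4) (l : List I4) : Bool :=
  (fun u : I4 => List.rec false (fun f _ ih => Bool.rec ih
    (notb (eqI f r)) (Int.blt' 0 (dotI u f))) l) (mulI A r)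

/-- list of possible norms of roots: divisors of this number -/
def nrm (dA : Nat) : Nat :=
  Nat.gcd (Nat.mul 2 dA) (Nat.mul 420 (Nat.div dA (Nat.gcd dA (Nat.pow 210 60))))

/-- there is no possible end of the edge -/
def farC (E : Ed) (kn : List I4) (ml : List Nat) (Nij Nik l m : Nat) : Bool :=
  ands (Nat.beq (prl ml) (nrm E.dA))
    (dvl (fun K => opt K E.Ka fun X Na => opt K E.Kb fun Y Nb =>
      Nat.rec true (fun _ _ => fc (farK Nij Nik Na Nb l m) fun B => fc (stp K E.Kc) fun st =>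
        fc (Nat.div (Nat.mul B (Nat.mul K E.Kc)) (Nat.mul 4 (Nat.mul st st))) fun x =>
        Nat.rec (Bool.rec (fam E K X Y st 1 (fun _ _ r => anyPos E.A r kn)) true
            (Nat.ble (c00 E X Y) (Nat.mul K E.De)))
          (fun _ _ => fam E K X Y st (Nat.succ (sqK x)) (fun _ _ r => anyPos E.A r kn)) x)
        (omg E K X Y)) ml 1)

/-- read `k` numbers `p` (12 bits), `e` (4 bits) -/
def rdl (k : Nat) : (List Nat → Nat → Nat) → Nat → Nat :=
  Nat.rec (fun f s => f List.nil s) (fun _ ih f s =>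
    fc (Nat.add (Nat.mul 16 (Nat.mod s 4096)) (Nat.mod (Nat.div s 4096) 16)) fun x =>
    fc (Nat.div s 65536) fun s => ih (fun l s => f (List.cons x l) s) s) k

/-- the root with original number `i` -/
def getE (s0 s1 s2 s3 d5 : Nat) (E0 E1 E2 E3 E4 E5 : I4) (i : Nat) : I4 :=
  Bool.rec (Bool.rec (Bool.rec (Bool.rec (Bool.rec E5 E4 (Nat.beq i d5)) E3 (Nat.beq i s3))
    E2 (Nat.beq i s2)) E1 (Nat.beq i s1)) E0 (Nat.beq i s0)

/-- read a root of the configuration: coordinates in the basis `y` -/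
def rdE (C : Ctx) (ci w y0 y1 y2 y3 s : Nat) (f : I4 → Nat → Nat) : Nat :=
  rd4 w s fun z0 z1 z2 z3 s => fc (Nat.div (Nat.pow 2 w) 2) fun t =>
  Bool.rec 0 (f (I4.mk (sg t z0) (sg t z1) (sg t z2) (sg t z3)) s)
    (Nat.beq (cX C.Om t z0 z1 z2 z3 y0 y1 y2 y3) (Nat.add ci (cY C.Om t z0 z1 z2 z3 y0 y1 y2 y3)))

/-- read a derived root `e` with `- u W` as coordinates, primitive -/
def rdD (C : Ctx) (W w y0 y1 y2 y3 s : Nat) (f : I4 → Nat → Nat) : Nat :=
  fc (Nat.mod s 65536) fun u =>
  rd4 w (Nat.div s 65536) fun z0 z1 z2 z3 s => fc (Nat.div (Nat.pow 2 w) 2) fun t =>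
  (fun e : I4 => Bool.rec 0 (f e s)
    (ands (ands (Nat.ble 1 u) (Nat.beq (gcdI e) 1))
      (Nat.beq (Nat.add (cX C.Om t z0 z1 z2 z3 y0 y1 y2 y3) (Nat.mul u W))
        (Nat.add (cY C.Om t z0 z1 z2 z3 y0 y1 y2 y3) C.Om))))
    (I4.mk (sg t z0) (sg t z1) (sg t z2) (sg t z3))

/-- read all the roots -/
def rdEs (T : TCtx) (C : Ctx) (y0 y1 y2 y3 s : Nat) (f : I4 → I4 → I4 → I4 → I4 → I4 → Nat → Nat) : Nat :=
  fc (Nat.mod s 32) fun w => fc (Nat.div s 32) fun s =>
  rdE C C.c0 w y0 y1 y2 y3 s fun E0 s => rdE C C.c1 w y0 y1 y2 y3 s fun E1 s =>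
  rdE C C.c2 w y0 y1 y2 y3 s fun E2 s => rdE C C.c3 w y0 y1 y2 y3 s fun E3 s =>
  Nat.rec (f E0 E1 E2 E3 E0 E0 s) (fun nd _ => rdD C C.w5 w y0 y1 y2 y3 s fun E4 s =>
    Nat.rec (f E0 E1 E2 E3 E4 E0 s) (fun _ _ => rdD C C.w6 w y0 y1 y2 y3 s fun E5 s =>
      f E0 E1 E2 E3 E4 E5 s) nd) T.nd

/-- parameters of the bound: `tag = 1, 3` case I, `tag = 2` case II. `ed = 0`: edge (1,4),
`ed = 1`: edge (2,4), `ed = 2`: edge (2,3) -/
def farL (tag code ed : Nat) : Nat :=
  Nat.rec
    (Bool.rec (lamIK (nl code 0 1)) (lamIIK (nl code 0 2) (nl code 0 3) (nl code 2 3)) (Nat.beq tag 2))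
    (fun _ _ => Bool.rec 0
      (Bool.rec (muIK (nl code 2 3)) (lCK (nl code 2 3) (nl code 1 4) (nl code 2 4))
        (Nat.beq (nl code 0 4) 0))
      (Nat.beq (nl code 0 1) 0)) ed
def farM (code ed : Nat) : Nat := Bool.rec 0 (muIK (nl code 2 3)) (Nat.ble 2 ed)

/-- is the edge allowed -/
def farOK (tag code ed : Nat) : Bool :=
  Nat.rec (Nat.ble 1 tag) (fun ed _ => Nat.rec
    (ands (notb (Nat.beq tag 2)) (ands (Nat.ble 1 tag) (Nat.beq (nl code 0 1) 0)))
    (fun _ _ => Nat.beq tag 1) ed) ed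

/-- the matrix is primitive -/
def prm (A : I10) : Bool :=
  Nat.beq (Nat.gcd (Nat.gcd (gcdI (I4.mk A.a00 A.a01 A.a02 A.a03)) (gcdI (I4.mk A.a11 A.a12 A.a13 A.a22)))
    (Nat.gcd (Int.natAbs A.a23) (Int.natAbs A.a33))) 1

/-- the contradiction at the end of an edge: edge number (2 bits), number of primes (4 bits),
the primes -/
def farH (tag n code s0 s1 s2 s3 d5 _d6 : Nat) : FH := fun T C _ _ _ _ y0 y1 y2 y3 row w s =>
  rdEs T C y0 y1 y2 y3 s fun E0 E1 E2 E3 E4 E5 s =>
  fc (Nat.mod s 4) fun ed => fc (Nat.mod (Nat.div s 4) 16) fun len => rdl len (fun ml s =>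
  (fun (A : I10) (g : Nat → I4) =>
    okb (ands (ands (farOK tag code ed) (prm A))
      (mkEd A (g (sel ed 0 1 1 1)) (g (sel ed 3 3 2 2)) (g (sel ed 1 0 0 0)) (ori A (g (sel ed 2 2 3 3)))
        fun E => farC E (List.cons (g (sel ed 2 2 3 3)) (List.cons (g 4)
          (Nat.rec List.nil (fun _ _ => List.cons (g 5) List.nil) (Nat.sub n 5)))) ml
          (nl code (sel ed 0 1 1 1) (sel ed 3 3 2 2)) (nl code (sel ed 0 1 1 1) (sel ed 1 0 0 0))
          (farL tag code ed) (farM code ed))) s)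
    (i10 w row) (getE s0 s1 s2 s3 d5 E0 E1 E2 E3 E4 E5)) (Nat.div s 64)

/-! ### roots which contradict the local structure -/

def posI (x : Int) : Bool := Int.blt' 0 x
def negb (x : Int) : Bool := Int.blt' x 0
def orb (a b : Bool) : Bool := Bool.rec b true a
def smul (d : Int) (v : I4) : I4 := I4.mk (Int.mul d v.x) (Int.mul d v.y) (Int.mul d v.z) (Int.mul d v.w)
def addI (u v : I4) : I4 := I4.mk (Int.add u.x v.x) (Int.add u.y v.y) (Int.add u.z v.z) (Int.add u.w v.w)

/-- `r` is a root -/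
def isR (A : I10) (r : I4) : Bool :=
  (fun K : Int => ands (posI K) (rootI A (Int.natAbs K) r)) (dotI r (mulI A r))

/-- `D r = al a + be b + ga c` with two coefficients of opposite signs -/
def mixC (r a b c : I4) (D : Nat) (al be ga : Int) : Bool :=
  ands (Nat.ble 1 D) (ands
    (eqI (smul (Int.ofNat D) r) (addI (addI (smul al a) (smul be b)) (smul ga c)))
    (ands (orb (posI al) (orb (posI be) (posI ga))) (orb (negb al) (orb (negb be) (negb ga)))))

/-- `r` separates two vertices, with facets `a b c` and other facet `d` -/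
def sepC (r a b c d a' b' c' d' : I4) : Bool :=
  (fun x y x' y' : Int => orb
    (ands (orb (ands (posI x) (posI y)) (ands (negb x) (negb y)))
      (orb (ands (posI x') (negb y')) (ands (negb x') (posI y')))) false)
    (det4 a b c r) (det4 a b c d) (det4 a' b' c' r) (det4 a' b' c' d')

/-- root, and kind of contradiction (1 bit). Kind 0: vertex (2 bits), coefficients. Kind 1: two
vertices (2 bits each) -/
def rootH (n s0 s1 s2 s3 d5 _d6 : Nat) : FH := fun T C _ _ _ _ y0 y1 y2 y3 row w s =>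
  rdEs T C y0 y1 y2 y3 s fun E0 E1 E2 E3 E4 E5 s =>
  fc (Nat.mod s 1024) fun h => fc (Nat.mod h 32) fun wr => fc (Nat.mod (Nat.div h 64) 4) fun v =>
  fc (Nat.div h 256) fun v' =>
  rd4 wr (Nat.div s 1024) fun r0 r1 r2 r3 s => fc (Nat.div (Nat.pow 2 wr) 2) fun t =>
  (fun (A : I10) (g : Nat → I4) (r : I4) =>
    Bool.rec 0
      (Nat.rec
        (fc (Nat.mod s 32) fun wc => rd4 wc (Nat.div s 32) fun al be ga D s =>
          fc (Nat.div (Nat.pow 2 wc) 2) fun tc =>
          okb (mixC r (g (sel v 0 0 0 1)) (g (sel v 1 1 2 2)) (g (sel v 2 3 4 5)) D (sg tc al) (sg tc be)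
            (sg tc ga)) s)
        (fun _ _ => okb (sepC r (g (sel v 0 0 0 1)) (g (sel v 1 1 2 2)) (g (sel v 2 3 4 5)) (g (sel v 3 2 1 0))
          (g (sel v' 0 0 0 1)) (g (sel v' 1 1 2 2)) (g (sel v' 2 3 4 5)) (g (sel v' 3 2 1 0))) s)
        (Nat.mod (Nat.div h 32) 2))
      (ands (isR A r) (ands (Nat.blt v (Nat.sub n 2)) (Nat.blt v' (Nat.sub n 2)))))
    (i10 w row) (getE s0 s1 s2 s3 d5 E0 E1 E2 E3 E4 E5) (I4.mk (sg t r0) (sg t r1) (sg t r2) (sg t r3))

/-- check of one configuration -/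
def tupC (tb tn cb cn tag n code s : Nat) : Bool :=
  Nat.rec false (fun _ _ => true) (tupK tb tn cb cn (rootH n) (farH tag n code) n code s)

/-- check of a list of configurations -/
def tupA (tb tn cb cn tag n : Nat) (l : List Nat) : List Nat → Bool :=
  List.rec (fun _ => true) (fun code _ ih ss =>
    List.rec false (fun s ss' _ => Bool.rec false (ih ss') (tupC tb tn cb cn tag n code s)) ss) l

end

end Pool.Agent.Refl.K
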