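import Pool.Agent.Helper23_Refl.KNum

/-!
# Kernel functions: norms of the roots (leaves), and isotropic tuples
-/

namespace Pool.Agent.Refl.K

noncomputable section

/-- entries of a configuration of `n` roots: tag, number of roots, code of the numbers `N i j` -/
structure Tup where
  tag : Nat
  n : Nat
  code : Nat

def nlo (code i j : Nat) : Nat :=
  Nat.mod (Nat.shiftRight code (Nat.mul 12 (Nat.add (Nat.div (Nat.mul j (Nat.pred j)) 2) i))) 4096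
/-- the number `N i j` -/
def nl (code i j : Nat) : Nat := Bool.rec (nlo code j i) (nlo code i j) (Nat.blt i j)

/-- data of the four independent roots -/
structure TCtx where
  Q : Nat
  B : Nat
  B2 : Nat
  B3 : Nat
  Om : Nat
  D0 : Nat
  N01 : Nat
  N02 : Nat
  N12 : Nat
  N03 : Nat
  N13 : Nat
  N23 : Nat
  e0 : Nat
  e1 : Nat
  e2 : Nat
  e3 : Nat
  M0 : Nat
  M4 : Nat
  nd : Nat
  a0 : Nat
  a1 : Nat
  a2 : Nat
  a3 : Nat
  b0 : Nat
  b1 : Nat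
  b2 : Nat
  b3 : Nat

/-- handler of the final nodes: context, norms, final data -/
abbrev FH := TCtx → Ctx → (k0 k1 k2 k3 : Nat) → (y0 y1 y2 y3 row w s : Nat) → Nat

/-- cofactor: `c_ij (4 - N_kl) + 2 (c_ik c_kj + c_il c_lj) + c_ik c_kl c_lj + c_il c_lk c_kj` -/
def cof (Q cij Nkl cik ckj cil clj ckl clk : Nat) : Nat :=
  Nat.add (Nat.add (Nat.mul cij (Nat.sub (Nat.add 4 Q) Nkl))
    (Nat.mul 2 (Nat.add (Nat.mul cik ckj) (Nat.mul cil clj))))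
    (Nat.add (Nat.mul (Nat.mul cik ckl) clj) (Nat.mul (Nat.mul cil clk) ckj))

def row4 (B x0 x1 x2 x3 : Nat) : Nat :=
  Nat.add (Nat.mul (Nat.add (Nat.mul (Nat.add (Nat.mul x0 B) x1) B) x2) B) x3

/-- `w` is proportional to the coordinates of the root with numbers `N` -/
def prop4 (k0 k1 k2 k3 N0 N1 N2 N3 w0 w1 w2 w3 kj Nj wj : Nat) : Bool :=
  ands (ands (Nat.ble 1 Nj) (Nat.ble 1 wj))
  (ands (ands (Nat.beq (Nat.mul (Nat.mul (Nat.mul w0 w0) k0) Nj) (Nat.mul (Nat.mul (Nat.mul wj wj) kj) N0))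
    (Nat.beq (Nat.mul (Nat.mul (Nat.mul w1 w1) k1) Nj) (Nat.mul (Nat.mul (Nat.mul wj wj) kj) N1)))
    (ands (Nat.beq (Nat.mul (Nat.mul (Nat.mul w2 w2) k2) Nj) (Nat.mul (Nat.mul (Nat.mul wj wj) kj) N2))
    (Nat.beq (Nat.mul (Nat.mul (Nat.mul w3 w3) k3) Nj) (Nat.mul (Nat.mul (Nat.mul wj wj) kj) N3))))

/-- read the direction of a derived root: index `j` (2 bits), width (6 bits), four numbers -/
def rdw (T : TCtx) (k0 k1 k2 k3 N0 N1 N2 N3 s : Nat) (f : Nat → Nat → Nat) : Nat :=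
  fc (Nat.mod s 256) fun h =>
  rd4 (Nat.div h 4) (Nat.div s 256) fun w0 w1 w2 w3 s =>
  Bool.rec 0 (fc (Nat.add (Nat.add w0 (Nat.mul w1 T.B)) (Nat.add (Nat.mul w2 T.B2) (Nat.mul w3 T.B3)))
      fun W => f W s)
    (prop4 k0 k1 k2 k3 N0 N1 N2 N3 w0 w1 w2 w3 (sel (Nat.mod h 4) k0 k1 k2 k3)
      (sel (Nat.mod h 4) N0 N1 N2 N3) (sel (Nat.mod h 4) w0 w1 w2 w3))

/-- the four norms are proportional to `k`; `cij = - 2 (e_i, e_j) / (e_i, e_i)` -/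
def leaf (T : TCtx) (tb tn cb cn : Nat) (FR FF : FH)
    (k0 k1 k2 k3 c01 c10 c02 c20 c12 c21 c03 c30 c13 c31 c23 c32 s : Nat) : Nat :=
  fc (Nat.mod (Nat.mul k0 (cof T.Q c01 T.N23 c02 c21 c03 c31 c23 c32)) T.Q) fun P01 =>
  fc (Nat.mod (Nat.mul k0 (cof T.Q c02 T.N13 c01 c12 c03 c32 c13 c31)) T.Q) fun P02 =>
  fc (Nat.mod (Nat.mul k0 (cof T.Q c03 T.N12 c01 c13 c02 c23 c12 c21)) T.Q) fun P03 =>
  fc (Nat.mod (Nat.mul k1 (cof T.Q c12 T.N03 c10 c02 c13 c32 c03 c30)) T.Q) fun P12 =>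
  fc (Nat.mod (Nat.mul k1 (cof T.Q c13 T.N02 c10 c03 c12 c23 c02 c20)) T.Q) fun P13 =>
  fc (Nat.mod (Nat.mul k2 (cof T.Q c23 T.N01 c20 c03 c21 c13 c01 c10)) T.Q) fun P23 =>
  fc (row4 T.B (Nat.mod (Nat.mul k0 T.e0) T.Q) P01 P02 P03) fun r0 =>
  fc (row4 T.B P01 (Nat.mod (Nat.mul k1 T.e1) T.Q) P12 P13) fun r1 =>
  fc (row4 T.B P02 P12 (Nat.mod (Nat.mul k2 T.e2) T.Q) P23) fun r2 =>
  fc (row4 T.B P03 P13 P23 (Nat.mod (Nat.mul k3 T.e3) T.Q)) fun r3 =>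
  fc (Nat.sub (Nat.add T.Om 2) (Nat.add (Nat.mul c10 T.B) (Nat.add (Nat.mul c20 T.B2) (Nat.mul c30 T.B3)))) fun c0 =>
  fc (Nat.sub (Nat.add T.Om (Nat.mul 2 T.B)) (Nat.add c01 (Nat.add (Nat.mul c21 T.B2) (Nat.mul c31 T.B3)))) fun c1 =>
  fc (Nat.sub (Nat.add T.Om (Nat.mul 2 T.B2)) (Nat.add c02 (Nat.add (Nat.mul c12 T.B) (Nat.mul c32 T.B3)))) fun c2 =>
  fc (Nat.sub (Nat.add T.Om (Nat.mul 2 T.B3)) (Nat.add c03 (Nat.add (Nat.mul c13 T.B) (Nat.mul c23 T.B2)))) fun c3 =>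
  Nat.rec
    ((fun C : Ctx => tree C tb tn cb cn (FR T C k0 k1 k2 k3) (FF T C k0 k1 k2 k3) 200
      c0 c1 c2 c3 T.D0 1 List.nil s) (Ctx.mk T.Q T.B T.B2 T.B3 T.Om c0 c1 c2 c3 r0 r1 r2 r3 0 0))
    (fun nd _ => rdw T k0 k1 k2 k3 T.a0 T.a1 T.a2 T.a3 s fun w5 s => Nat.rec
      ((fun C : Ctx => tree C tb tn cb cn (FR T C k0 k1 k2 k3) (FF T C k0 k1 k2 k3) 200
        c0 c1 c2 c3 T.D0 1 List.nil s) (Ctx.mk T.Q T.B T.B2 T.B3 T.Om c0 c1 c2 c3 r0 r1 r2 r3 w5 0))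
      (fun _ _ => rdw T k0 k1 k2 k3 T.b0 T.b1 T.b2 T.b3 s fun w6 s =>
        (fun C : Ctx => tree C tb tn cb cn (FR T C k0 k1 k2 k3) (FF T C k0 k1 k2 k3) 200
          c0 c1 c2 c3 T.D0 1 List.nil s) (Ctx.mk T.Q T.B T.B2 T.B3 T.Om c0 c1 c2 c3 r0 r1 r2 r3 w5 w6))
      nd) T.nd

/-- `ord_p k ≤ 2, 1, 1, 1` for `p = 2, 3, 5, 7`, and a bound -/
def okk (k : Nat) : Bool := Nat.beq (Nat.mod 420 (Nat.gcd k 88200)) 0

/-- the other coefficients of a pair: known, or determined by the norms; skip the leaf if there is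
no solution -/
def oth (fl al N ka kb s : Nat) (f : Nat → Nat → Nat) : Nat :=
  Nat.rec
    (Nat.rec (f 0 0) (fun N' _ => fc (Nat.succ N') fun N => fc (Nat.mul N kb) fun x =>
      Bool.rec (Nat.succ s)
        (fc (Nat.div x ka) fun y => fc (sqK y) fun c =>
          Bool.rec (Nat.succ s)
            (Bool.rec (Nat.succ s) (fc (Nat.div N c) fun c' => f c c') (Nat.beq (Nat.mod N c) 0))
            (Nat.beq (Nat.mul c c) y))
        (Nat.beq (Nat.mod x ka) 0)) N)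
    (fun _ _ => f al (Nat.div N al)) fl

/-- flag: 1 if equal -/
def eqf (a b : Nat) : Nat := Bool.rec 0 1 (Nat.beq a b)

/-- no prime factor of `M` divides `g` and `k` -/
def tri (M g k : Nat) : Bool := Nat.beq (Nat.gcd (Nat.gcd g k) M) 1

/-- `p` divides `k` exactly once -/
def once (p k : Nat) : Bool :=
  ands (Nat.beq (Nat.mod k p) 0) (notb (Nat.beq (Nat.mod (Nat.div k p) p) 0))

/-- rank one modulo a prime `p > 7` which does not divide `D0`; `k0` is the unit -/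
def unit3 (p D0 k0 k1 k2 k3 : Nat) : Bool :=
  ands (ands (Nat.ble 8 p) (ands (isPrime p) (notb (Nat.beq (Nat.mod D0 p) 0))))
    (ands (notb (Nat.beq (Nat.mod k0 p) 0)) (ands (once p k1) (ands (once p k2) (once p k3))))

/-- normalization of the norms -/
def leaf0 (T : TCtx) (tb tn cb cn : Nat) (FR FF : FH) (q2 q3 A1 A2 A3 k0 k1 k2 k3 s : Nat) : Nat :=
  fc (Nat.gcd (Nat.gcd k0 k1) (Nat.gcd k2 k3)) fun g =>
  fc (Nat.div k0 g) fun k0 => fc (Nat.div k1 g) fun k1 => fc (Nat.div k2 g) fun k2 =>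
  fc (Nat.div k3 g) fun k3 =>
  Bool.rec (Nat.succ s)
    (oth (eqf q2 0) A2 T.N02 k0 k2 s fun c02 c20 => oth (eqf q2 1) A2 T.N12 k1 k2 s fun c12 c21 =>
     oth (eqf q3 0) A3 T.N03 k0 k3 s fun c03 c30 => oth (eqf q3 1) A3 T.N13 k1 k3 s fun c13 c31 =>
     oth (eqf q3 2) A3 T.N23 k2 k3 s fun c23 c32 =>
     Bool.rec 0
       (Nat.rec
         (leaf T tb tn cb cn FR FF k0 k1 k2 k3 A1 (Nat.div T.N01 A1) c02 c20 c12 c21 c03 c30 c13 c31 c23 c32
           (Nat.div s 2))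
         (fun _ _ => fc (Nat.mod (Nat.div s 2) 4096) fun p =>
           okb (Nat.rec (unit3 p T.D0 k0 k1 k2 k3) (fun i _ => Nat.rec (unit3 p T.D0 k1 k0 k2 k3) (fun i _ =>
             Nat.rec (unit3 p T.D0 k2 k0 k1 k3) (fun _ _ => unit3 p T.D0 k3 k0 k1 k2) i) i)
             (Nat.mod (Nat.div s 8192) 4)) (Nat.div s 32768))
         (Nat.mod s 2))
       (ands (ands (Nat.blt k0 4294967296) (Nat.blt k1 4294967296))
         (ands (Nat.blt k2 4294967296) (Nat.blt k3 4294967296))))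
    (ands (ands (ands (okk k0) (okk k1)) (ands (okk k2) (okk k3)))
      (ands (ands (ands (notb (Nat.beq (Nat.mod k0 T.M4) 0)) (notb (Nat.beq (Nat.mod k1 T.M4) 0)))
        (ands (notb (Nat.beq (Nat.mod k2 T.M4) 0)) (notb (Nat.beq (Nat.mod k3 T.M4) 0))))
      (fc (Nat.gcd k0 k1) fun g => ands (ands (tri T.M0 g k2) (tri T.M0 g k3))
        (fc (Nat.gcd k2 k3) fun g => ands (tri T.M0 g k0) (tri T.M0 g k1)))))

/-- divisors of `N`, from `a` on -/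
def dvs (N fuel : Nat) : Nat → List Nat :=
  Nat.rec (fun _ => List.nil) (fun _ ih a =>
    Bool.rec List.nil
      (Bool.rec (ih (Nat.succ a))
        (Bool.rec (List.cons a (List.cons (Nat.div N a) (ih (Nat.succ a))))
          (List.cons a List.nil) (Nat.beq (Nat.mul a a) N))
        (Nat.beq (Nat.mod N a) 0))
      (Nat.ble (Nat.mul a a) N)) fuel

def divs (N : Nat) : List Nat := dvs N N 1

/-- thread the stream through a list -/
def forL (f : Nat → Nat → Nat) (l : List Nat) : Nat → Nat :=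
  List.rec (fun s => Nat.succ s) (fun a _ ih s => fc a fun a =>
    Nat.rec 0 (fun s' _ => ih s') (f a s)) l

/-- all factorizations along the tree -/
def leaves (T : TCtx) (tb tn cb cn : Nat) (FR FF : FH) (q2 q3 : Nat) : Nat → Nat :=
  forL (fun A1 => fc (Nat.div T.N01 A1) fun B1 =>
    forL (fun A2 => fc (Nat.div (sel q2 T.N02 T.N12 0 0) A2) fun B2 =>
      fc (Nat.mul B1 B2) fun k0 => fc (Nat.mul A1 B2) fun k1 =>
      fc (Nat.mul (sel q2 B1 A1 0 0) A2) fun k2 =>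
      forL (fun A3 => fc (Nat.div (sel q3 T.N03 T.N13 T.N23 0) A3) fun B3 s =>
        fc (Nat.mul k0 B3) fun k0' => fc (Nat.mul k1 B3) fun k1' => fc (Nat.mul k2 B3) fun k2' =>
        fc (Nat.mul (sel q3 k0 k1 k2 0) A3) fun k3' =>
        leaf0 T tb tn cb cn FR FF q2 q3 A1 A2 A3 k0' k1' k2' k3' s)
        (divs (sel q3 T.N03 T.N13 T.N23 0)))
      (divs (sel q2 T.N02 T.N12 0 0)))
    (divs T.N01)

end

end Pool.Agent.Refl.K
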