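import Pool.Agent.Helper23_Refl.KTree

/-!
# Kernel functions: square roots and bounds
-/

namespace Pool.Agent.Refl.K

noncomputable section

/-- Newton iteration from above -/
def nwt (n fuel : Nat) : Nat → Nat :=
  Nat.rec (fun x => x) (fun _ ih x => fc (Nat.div (Nat.add x (Nat.div n x)) 2) fun y =>
    Bool.rec x (ih y) (Nat.blt y x)) fuel

/-- integral square root -/
def sqK (n : Nat) : Nat :=
  fc n fun n => Nat.rec 0 (fun _ _ => fc (Nat.pow 2 (Nat.succ (Nat.div (Nat.log2 n) 2))) fun g =>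
    nwt n (Nat.succ g) g) n

/-- scale -/
@[reducible] def S6 : Nat := 1000000
@[reducible] def S12 : Nat := 1000000000000

def gUK (N : Nat) : Nat := Nat.succ (Nat.div (sqK (Nat.mul N S12)) 2)
def gLK (N : Nat) : Nat := Nat.div (sqK (Nat.mul N S12)) 2
def c4K (N : Nat) : Nat := Nat.div (Nat.mul (Nat.sub 4 N) S6) 4
def muU (a b : Nat) : Nat := Nat.succ (Nat.div (Nat.mul a b) S6)
def diU (a b : Nat) : Nat := Nat.succ (Nat.div (Nat.mul a S6) b)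
def sqUK (a : Nat) : Nat := Nat.succ (sqK (Nat.mul a S6))

def ysK (c h2 l m : Nat) : Nat :=
  fc (muU c (Nat.sub S6 l)) fun A =>
  Bool.rec (Nat.add (diU A l) h2)
    (fc (Nat.add (sqUK A) (sqUK (muU h2 m))) fun x => diU (muU x x) (Nat.add l m))
    (Nat.ble (Nat.mul (Nat.mul h2 l) l) (Nat.mul (Nat.mul c (Nat.sub S6 l)) m))

def minK (a b : Nat) : Nat := Bool.rec b a (Nat.ble a b)
def maxK (a b : Nat) : Nat := Bool.rec a b (Nat.ble a b)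

/-- `farBN` -/
def farK (Nij Nik Nir Njr l m : Nat) : Nat :=
  fc (sqK (Nat.mul (Nat.mul Nij Nir) Njr)) fun t =>
  fc (diU (muU (c4K Nik) (Nat.sub S6 l)) (Nat.add l m)) fun Yk2 =>
  fc (Nat.succ (Nat.div (Nat.mul (Nat.add (Nat.add (Nat.mul 4 Njr) (Nat.mul Nij Nir)) (Nat.mul 4 t)) S6)
    (Nat.mul 4 (Nat.sub 4 Nij)))) fun h2 =>
  fc (ysK (c4K Nir) h2 l m) fun Ya =>
  fc (Bool.rec Ya (minK Ya (ysK (c4K Njr) (Nat.succ (Nat.div (Nat.mul Nir S6) 4)) m l))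
    (Nat.beq Nij 0)) fun Yr2 =>
  fc (Nat.succ (Nat.div (Nat.mul (Nat.sub (Nat.sub (Nat.sub (Nat.sub 4 Nij) Nir) Njr) t) S6)
    (Nat.sub 4 Nij))) fun wr =>
  fc (Nat.sub (Nat.add (muU (sqUK (Nat.add (c4K Nik) Yk2)) (sqUK (Nat.add wr Yr2))) (sqUK (muU Yk2 Yr2)))
    (Nat.div (Nat.mul (gLK Nik) (gLK Nir)) S6)) fun x =>
  Nat.div (Nat.mul (Nat.mul 4 x) x) S12

def lamIK (N12 : Nat) : Nat := Nat.div (Nat.sub S6 (gUK N12)) 2
def muIK (N34 : Nat) : Nat := Nat.div (Nat.sub (gLK N34) S6) 2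
def chK (N13 N14 N34 : Nat) : Nat :=
  sqK (Nat.div (Nat.mul (Nat.add (Nat.add (Nat.mul 4 N34) (Nat.mul N13 N14))
    (Nat.mul 4 (sqK (Nat.mul (Nat.mul N13 N14) N34)))) S12) (Nat.mul (Nat.sub 4 N13) (Nat.sub 4 N14)))
def muIIK (N13 N14 N34 : Nat) : Nat := Nat.div (Nat.sub (chK N13 N14 N34) S6) 2
def lamIIK (N13 N14 N34 : Nat) : Nat :=
  fc (chK N13 N14 N34) fun ch =>
  fc (diU (Nat.add S6 (gUK N13)) (Nat.sub S6 (gUK N13))) fun k3 =>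
  fc (diU (Nat.add S6 (gUK N14)) (Nat.sub S6 (gUK N14))) fun k4 =>
  maxK (Nat.div (Nat.mul (Nat.div (Nat.sub ch S6) 2) (Nat.sub S6 (gUK N13))) (Nat.add S6 (gUK N13)))
    (Nat.div (Nat.mul (Nat.div (Nat.sub (Nat.mul ch ch) S12) S6) S6)
      (Nat.add (Nat.add k3 k4) (Nat.mul 2 (muU ch (sqUK (muU k3 k4))))))
def lCK (N34 N25 N35 : Nat) : Nat :=
  Bool.rec
    (fc (Nat.sub (gLK N25) S6) fun t =>
     fc (Nat.div (Nat.mul t t) (Nat.succ (Nat.add (Nat.mul 2 t) (Nat.div (Nat.mul N35 S6) 4)))) fun Z =>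
     maxK (Nat.div (Nat.mul Z S6) (Nat.add S6 Z)) (muIK N34))
    (muIK N34) (Nat.blt N25 5)
def bIK (N12 : Nat) : Nat :=
  fc (Nat.add (Nat.mul 2 S6) (gUK N12)) fun x => Nat.div (Nat.mul (Nat.mul 4 x) x) S12
def y2IIK (N : Nat) : Nat := Nat.succ (Nat.div (Nat.mul (Nat.add S6 (gUK N)) (Nat.sub 4 N)) 8)
def bIIK (N13 N14 : Nat) : Nat :=
  fc (Nat.sub (Nat.add (muU (sqUK (Nat.add (c4K N13) (y2IIK N13))) (sqUK (Nat.add (c4K N14) (y2IIK N14))))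
    (sqUK (muU (y2IIK N13) (y2IIK N14)))) (Nat.div (Nat.mul (gLK N13) (gLK N14)) S6)) fun x =>
  Nat.div (Nat.mul (Nat.mul 4 x) x) S12
def yAK (N12 N13 N23 : Nat) : Nat :=
  fc (sqK (Nat.mul (Nat.mul N12 N13) N23)) fun t =>
  fc (Nat.mul 4 (Nat.sub 4 N12)) fun f =>
  fc (Nat.add (sqUK (c4K N13)) (sqUK (Nat.succ (Nat.div (Nat.mul (Nat.add (Nat.add (Nat.mul 4 N23)
    (Nat.mul N12 N13)) (Nat.mul 4 t)) S6) f)))) fun a =>
  fc (Nat.add (sqUK (c4K N23)) (sqUK (Nat.succ (Nat.div (Nat.mul (Nat.add (Nat.add (Nat.mul 4 N13)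
    (Nat.mul N12 N23)) (Nat.mul 4 t)) S6) f)))) fun b =>
  fc (minK (muU a a) (muU b b)) fun v =>
  fc (Nat.sub (Nat.div (Nat.add (Nat.mul a a) (Nat.mul b b)) S6)
    (Nat.succ (Nat.div (Nat.mul (Nat.mul (Nat.mul 2 (gUK N12)) a) b) S12))) fun d =>
  Bool.rec v (minK v (diU (muU (c4K N12) (muU (muU a a) (muU b b))) d))
    (ands (Nat.ble (Nat.mul (gUK N12) a) (Nat.mul b S6))
      (ands (Nat.ble (Nat.mul (gUK N12) b) (Nat.mul a S6)) (Nat.blt 0 d)))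
def wAK (N12 N13 N23 : Nat) : Nat :=
  Nat.succ (Nat.div (Nat.mul (Nat.sub (Nat.sub (Nat.sub (Nat.sub 4 N12) N13) N23)
    (sqK (Nat.mul (Nat.mul N12 N13) N23))) S6) (Nat.sub 4 N12))
def bAK (N12 N13 N23 N14 N24 : Nat) : Nat :=
  fc (yAK N12 N13 N23) fun y3 => fc (yAK N12 N14 N24) fun y4 =>
  fc (Nat.add (muU (sqUK (Nat.add (wAK N12 N13 N23) y3)) (sqUK (Nat.add (wAK N12 N14 N24) y4)))
    (sqUK (muU y3 y4))) fun x =>
  Nat.div (Nat.mul (Nat.mul 4 x) x) S12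

end

end Pool.Agent.Refl.K
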