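/-!
# Kernel functions: search trees of overlattices
-/

namespace Pool.Agent.Refl.K

noncomputable section

/-- evaluate the first argument -/
@[reducible] def fc {α : Type} (n : Nat) (f : Nat → α) : α :=
  Nat.rec (f 0) (fun m _ => f (Nat.succ m)) n

/-- if `b` then `x` else `y` -/
@[reducible] def bt {α : Type} (b : Bool) (x y : α) : α := Bool.rec y x b

/-- primes below 4096 -/
def pmask : Nat := 0x28008200020a00000828208a00200000800008800a08a08800020220008028800200a00008220008028200000820808020220800228008000820808220800200a00800a00828228020800808000028a20200020000208000a00028028008800a08820828000000800a28000020220208008820028800000200028020000208800820020220008808028000000a08220008008020208200808000220808220008000a20a00200800220200a00828808228820808a00800200220200028008000020a08808020000800000220808008220008208008220a20800208828200000a00220820228000808a00020208800000800020200a20a00028008028a002080200080280208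08a20808200000a00028000208200200a28820008000808008020028820000820820200a00200a20000028820000200828228220008808808220800808008008228a00800828808228800200800020208200000000828008a20a08a00008020020a08220020208200808028000020820208228800020a00a00828028220020808208800208220200808800008a20008a20008028a00a00200800220220808820808020200808220028208a00800a20828208020a08200820000a00208808808008a20208828028020220208820808228020800228800200a20a08208028228800800a28028208820a00a08800228a20208828828208a20a08a28ac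

structure Ctx where
  Q : Nat
  B : Nat
  B2 : Nat
  B3 : Nat
  Om : Nat
  c0 : Nat
  c1 : Nat
  c2 : Nat
  c3 : Nat
  r0 : Nat
  r1 : Nat
  r2 : Nat
  r3 : Nat
  w5 : Nat
  w6 : Nat

/-- `P x` modulo `q`, reversed -/
def zr (c : Ctx) (x q : Nat) : Nat :=
  Nat.add (Nat.mul (Nat.add (Nat.mul (Nat.add (Nat.mul
    (Nat.mod (Nat.div (Nat.mul c.r0 x) c.B3) q) c.B)
    (Nat.mod (Nat.div (Nat.mul c.r1 x) c.B3) q)) c.B)
    (Nat.mod (Nat.div (Nat.mul c.r2 x) c.B3) q)) c.B)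
    (Nat.mod (Nat.div (Nat.mul c.r3 x) c.B3) q)

def dt (c : Ctx) (z y q : Nat) : Nat := Nat.mod (Nat.div (Nat.mul z y) c.B3) q

/-- value at the index `i` among four -/
def sel (i a b c d : Nat) : Nat :=
  Nat.rec a (fun i _ => Nat.rec b (fun i _ => Nat.rec c (fun _ _ => d) i) i) i

def ands (a b : Bool) : Bool := Bool.rec false b a

/-- all four residues vanish -/
def z4 (c : Ctx) (x p : Nat) : Bool :=
  ands (Nat.beq (Nat.mod x p) 0) (ands (Nat.beq (Nat.mod (Nat.div x c.B) p) 0)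
    (ands (Nat.beq (Nat.mod (Nat.div x c.B2) p) 0) (Nat.beq (Nat.mod (Nat.div x c.B3) p) 0)))

/-- residue of a digit -/
def dg (c : Ctx) (x i p : Nat) : Nat :=
  Nat.mod (Nat.div x (sel i 1 c.B c.B2 c.B3)) p

def notb (b : Bool) : Bool := Bool.rec true false b

def isPrime (p : Nat) : Bool :=
  ands (Nat.blt p 4096) (Nat.beq (Nat.mod (Nat.shiftRight pmask p) 2) 1)

/-- `p` is closed -/
def clo (D cl p : Nat) : Bool := Bool.rec (Nat.beq (Nat.mod cl p) 0) true (notb (Nat.beq (Nat.mod D p) 0))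

/-- packed combinations: the combination with coefficients `z - t` is `cX - cY` -/
def cX (Om t z0 z1 z2 z3 n0 n1 n2 n3 : Nat) : Nat :=
  Nat.add (Nat.add (Nat.add (Nat.mul z0 n0) (Nat.mul z1 n1)) (Nat.add (Nat.mul z2 n2) (Nat.mul z3 n3)))
    (Nat.mul Om (Nat.add 1 (Nat.mul 4 t)))
def cY (Om t z0 z1 z2 z3 n0 n1 n2 n3 : Nat) : Nat :=
  Nat.add (Nat.mul t (Nat.add (Nat.add n0 n1) (Nat.add n2 n3)))
    (Nat.mul Om (Nat.add (Nat.add z0 z1) (Nat.add z2 z3)))

/-- element of a list -/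
def getL (l : List Nat) : Nat → Nat :=
  List.rec (fun _ => 0) (fun a _ ih i => Nat.rec a (fun m _ => ih m) i) l

/-- read four numbers with `w` bits -/
def rd4 (w s : Nat) (f : Nat → Nat → Nat → Nat → Nat → Nat) : Nat :=
  fc (Nat.pow 2 w) fun W => fc (Nat.mod s (Nat.pow W 4)) fun h => fc (Nat.div s (Nat.pow W 4)) fun s' =>
    f (Nat.mod h W) (Nat.mod (Nat.div h W) W) (Nat.mod (Nat.div h (Nat.pow W 2)) W)
      (Nat.div h (Nat.pow W 3)) s'

/-- success: return the rest of the stream, plus one -/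
@[reducible] def okb (b : Bool) (s : Nat) : Nat := Bool.rec 0 (Nat.succ s) b

/-! ### splitting -/

/-- new vector -/
def mkv (c : Ctx) (p tot G : Nat) : Nat :=
  Nat.div (Nat.sub (Nat.add G (Nat.mul p c.Om)) (Nat.mul c.Om tot)) p

def lx (c : Ctx) (p : Nat) (call : Nat → Nat → List Nat → Nat) (G1 T1 : Nat)
    (K : Nat → List Nat → Nat) (k : Nat) : Nat → Nat → Nat → List Nat → Nat :=
  Nat.rec (fun _ _ s ex => K s ex)
    (fun _ ih G tot s ex => fc (mkv c p tot G) fun v =>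
      Nat.rec 0 (fun s' _ => ih (Nat.add G G1) (Nat.add tot T1) s' (List.cons v ex)) (call v s ex)) k

def ly (c : Ctx) (p : Nat) (call : Nat → Nat → List Nat → Nat) (G1 T1 G2 T2 : Nat)
    (K : Nat → List Nat → Nat) (k : Nat) : Nat → Nat → Nat → List Nat → Nat :=
  Nat.rec (fun _ _ s ex => K s ex)
    (fun _ ih G tot s ex =>
      lx c p call G1 T1 (fun s' ex' => ih (Nat.add G G2) (Nat.add tot T2) s' ex') p G tot s ex) k

def lz (c : Ctx) (p : Nat) (call : Nat → Nat → List Nat → Nat) (G1 T1 G2 T2 G3 T3 : Nat)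
    (K : Nat → List Nat → Nat) (k : Nat) : Nat → Nat → Nat → List Nat → Nat :=
  Nat.rec (fun _ _ s ex => K s ex)
    (fun _ ih G tot s ex =>
      ly c p call G1 T1 G2 T2 (fun s' ex' => ih (Nat.add G G3) (Nat.add tot T3) s' ex') p G tot s ex) k

/-- nonvanishing of a 3 by 3 minor -/
def m3 (p a1 a2 a3 b1 b2 b3 d1 d2 d3 : Nat) : Bool :=
  notb (Nat.beq
    (Nat.mod (Nat.add (Nat.mul (Nat.mul a1 b2) d3) (Nat.add (Nat.mul (Nat.mul a2 b3) d1)
      (Nat.mul (Nat.mul a3 b1) d2))) p)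
    (Nat.mod (Nat.add (Nat.mul (Nat.mul a1 b3) d2) (Nat.add (Nat.mul (Nat.mul a2 b1) d3)
      (Nat.mul (Nat.mul a3 b2) d1))) p))

def min3 (c : Ctx) (p r a b d : Nat) : Bool :=
  m3 p (dg c a (sel r 1 0 0 0) p) (dg c a (sel r 2 2 1 1) p) (dg c a (sel r 3 3 3 2) p)
    (dg c b (sel r 1 0 0 0) p) (dg c b (sel r 2 2 1 1) p) (dg c b (sel r 3 3 3 2) p)
    (dg c d (sel r 1 0 0 0) p) (dg c d (sel r 2 2 1 1) p) (dg c d (sel r 3 3 3 2) p)

def min2 (c : Ctx) (p i j a b : Nat) : Bool :=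
  notb (Nat.beq (Nat.mod (Nat.mul (dg c a i p) (dg c b j p)) p)
    (Nat.mod (Nat.mul (dg c a j p) (dg c b i p)) p))

/-- `rec4 f i v a b d e` : replace the vector number `i` by `v` -/
def rec4 (f : Nat → Nat → Nat → Nat → Nat) (i v a b d e : Nat) : Nat :=
  Nat.rec (f v b d e) (fun i _ => Nat.rec (f a v d e) (fun i _ =>
    Nat.rec (f a b v e) (fun _ _ => f a b d v) i) i) i

/-- one free vector `a` -/
def sp1 (c : Ctx) (p a b d e s : Nat) (ex : List Nat)
    (rc : Nat → Nat → Nat → Nat → Nat → List Nat → Nat)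
    (K : Nat → Nat → Nat → Nat → Nat → Nat) : Nat :=
  fc (Nat.mul 4 (Nat.pow p 3)) fun M => fc (Nat.mod s M) fun h => fc (Nat.div s M) fun s' =>
  fc (Nat.mod h p) fun t1 => fc (Nat.mod (Nat.div h p) p) fun t2 =>
  fc (Nat.mod (Nat.div h (Nat.pow p 2)) p) fun t3 =>
  fc (Nat.add (Nat.add a (Nat.mul t1 b)) (Nat.add (Nat.mul t2 d) (Nat.mul t3 e))) fun G =>
  Bool.rec 0
    (fc (mkv c p (Nat.add (Nat.add 1 t1) (Nat.add t2 t3)) G) fun v =>
      Nat.rec 0 (fun s'' _ => K a b d e s'') (rc v b d e s' ex))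
    (ands (z4 c G p) (min3 c p (Nat.div h (Nat.pow p 3)) b d e))

/-- two free vectors `a`, `b` -/
def sp2 (c : Ctx) (p a b d e s : Nat) (ex : List Nat)
    (rc : Nat → Nat → Nat → Nat → Nat → List Nat → Nat)
    (K : Nat → Nat → Nat → Nat → Nat → Nat) : Nat :=
  fc (Nat.mul 16 (Nat.pow p 4)) fun M => fc (Nat.mod s M) fun h => fc (Nat.div s M) fun s' =>
  fc (Nat.mod h p) fun t1 => fc (Nat.mod (Nat.div h p) p) fun t2 =>
  fc (Nat.mod (Nat.div h (Nat.pow p 2)) p) fun t3 =>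
  fc (Nat.mod (Nat.div h (Nat.pow p 3)) p) fun t4 =>
  fc (Nat.div h (Nat.pow p 4)) fun r =>
  fc (Nat.add a (Nat.add (Nat.mul t1 d) (Nat.mul t2 e))) fun G1 =>
  fc (Nat.add b (Nat.add (Nat.mul t3 d) (Nat.mul t4 e))) fun G2 =>
  Bool.rec 0
    (lx c p (fun v s ex => rc v b d e s ex) 0 0
      (fun s ex => lx c p (fun v s ex => rc a v d e s ex) G1 (Nat.add 1 (Nat.add t1 t2))
        (fun s _ => K a b d e s) p G2 (Nat.add 1 (Nat.add t3 t4)) s ex)
      1 G1 (Nat.add 1 (Nat.add t1 t2)) s' ex)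
    (ands (ands (z4 c G1 p) (z4 c G2 p)) (min2 c p (Nat.mod r 4) (Nat.div r 4) d e))

/-- three free vectors `a`, `b`, `d` -/
def sp3 (c : Ctx) (p a b d e s : Nat) (ex : List Nat)
    (rc : Nat → Nat → Nat → Nat → Nat → List Nat → Nat)
    (K : Nat → Nat → Nat → Nat → Nat → Nat) : Nat :=
  fc (Nat.mul 4 (Nat.pow p 3)) fun M => fc (Nat.mod s M) fun h => fc (Nat.div s M) fun s' =>
  fc (Nat.mod h p) fun t1 => fc (Nat.mod (Nat.div h p) p) fun t2 =>
  fc (Nat.mod (Nat.div h (Nat.pow p 2)) p) fun t3 =>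
  fc (Nat.add a (Nat.mul t1 e)) fun G1 => fc (Nat.add b (Nat.mul t2 e)) fun G2 =>
  fc (Nat.add d (Nat.mul t3 e)) fun G3 =>
  Bool.rec 0
    (lx c p (fun v s ex => rc v b d e s ex) 0 0
      (fun s ex => lx c p (fun v s ex => rc a v d e s ex) G1 (Nat.succ t1)
        (fun s ex => ly c p (fun v s ex => rc a b v e s ex) G1 (Nat.succ t1) G2 (Nat.succ t2)
          (fun s _ => K a b d e s) p G3 (Nat.succ t3) s ex)
        p G2 (Nat.succ t2) s ex)
      1 G1 (Nat.succ t1) s' ex)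
    (ands (ands (z4 c G1 p) (z4 c G2 p)) (ands (z4 c G3 p)
      (notb (Nat.beq (dg c e (Nat.div h (Nat.pow p 3)) p) 0))))

/-- all vectors are free -/
def sp4 (c : Ctx) (p a b d e s : Nat) (ex : List Nat)
    (rc : Nat → Nat → Nat → Nat → Nat → List Nat → Nat)
    (K : Nat → Nat → Nat → Nat → Nat → Nat) : Nat :=
  Bool.rec 0
    (lx c p (fun v s ex => rc v b d e s ex) 0 0
      (fun s ex => lx c p (fun v s ex => rc a v d e s ex) a 1
        (fun s ex => ly c p (fun v s ex => rc a b v e s ex) a 1 b 1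
          (fun s ex => lz c p (fun v s ex => rc a b d v s ex) a 1 b 1 d 1
            (fun s _ => K a b d e s) p e 1 s ex)
          p d 1 s ex)
        p b 1 s ex)
      1 a 1 s ex)
    (ands (ands (z4 c a p) (z4 c b p)) (ands (z4 c d p) (z4 c e p)))

/-- dispatch on the set of free vectors -/
def spl (m : Nat) (x1 x2 x3 : Nat → Nat → Nat → Nat → Nat) (x4 : Nat) (a b d e : Nat) : Nat :=
  Nat.rec 0 (fun m _ => Nat.rec (x1 a b d e) (fun m _ => Nat.rec (x1 b a d e) (fun m _ =>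
  Nat.rec (x2 a b d e) (fun m _ => Nat.rec (x1 d a b e) (fun m _ => Nat.rec (x2 a d b e) (fun m _ =>
  Nat.rec (x2 b d a e) (fun m _ => Nat.rec (x3 a b d e) (fun m _ => Nat.rec (x1 e a b d) (fun m _ =>
  Nat.rec (x2 a e b d) (fun m _ => Nat.rec (x2 b e a d) (fun m _ => Nat.rec (x3 a b e d) (fun m _ =>
  Nat.rec (x2 d e a b) (fun m _ => Nat.rec (x3 a d e b) (fun m _ => Nat.rec (x3 b d e a) (fun _ _ =>
    x4) m) m) m) m) m) m) m) m) m) m) m) m) m) m) m

/-! ### contradictions at a node -/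

/-- the root number `i` is `p` times a vector -/
def kPrim (c : Ctx) (n0 n1 n2 n3 s : Nat) : Nat :=
  fc (Nat.mod s 1048576) fun h => fc (Nat.mod (Nat.div h 4) 4096) fun p =>
  fc (Nat.div h 16384) fun w => fc (Nat.div (Nat.pow 2 w) 2) fun t =>
  rd4 w (Nat.div s 1048576) fun z0 z1 z2 z3 s' =>
  okb (ands (Nat.ble 2 p) (Nat.beq (Nat.add (Nat.mul p (cX c.Om t z0 z1 z2 z3 n0 n1 n2 n3)) c.Om)
    (Nat.add (sel (Nat.mod h 4) c.c0 c.c1 c.c2 c.c3)
      (Nat.mul p (Nat.add (cY c.Om t z0 z1 z2 z3 n0 n1 n2 n3) c.Om))))) s'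

/-- an excluded vector is in the lattice -/
def kExcl (c : Ctx) (n0 n1 n2 n3 : Nat) (ex : List Nat) (s : Nat) : Nat :=
  fc (Nat.mod s 16384) fun h => fc (Nat.div h 256) fun w => fc (Nat.div (Nat.pow 2 w) 2) fun t =>
  fc (getL ex (Nat.mod h 256)) fun x =>
  rd4 w (Nat.div s 16384) fun z0 z1 z2 z3 s' =>
  okb (ands (Nat.ble 1 x) (Nat.beq (cX c.Om t z0 z1 z2 z3 n0 n1 n2 n3)
    (Nat.add x (cY c.Om t z0 z1 z2 z3 n0 n1 n2 n3)))) s'

/-- a vector violates `SSF p` -/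
def kSSF (c : Ctx) (n0 n1 n2 n3 D cl s : Nat) : Nat :=
  fc (Nat.mod s 131072) fun h => fc (sel (Nat.mod h 4) 2 3 5 7) fun p =>
  fc (Nat.mod (Nat.div h 4) 32) fun v => fc (Nat.pow p (Nat.add v 2)) fun q =>
  rd4 (Nat.div h 2048) (Nat.div s 131072) fun z0 z1 z2 z3 s' =>
  okb (ands (ands (clo D cl p) (Nat.beq (Nat.mod c.Q q) 0))
    (ands (notb (ands (ands (Nat.beq (Nat.mod z0 p) 0) (Nat.beq (Nat.mod z1 p) 0))
      (ands (Nat.beq (Nat.mod z2 p) 0) (Nat.beq (Nat.mod z3 p) 0))))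
    (ands (notb (Nat.beq (Nat.mod (dt c (zr c (sel (Nat.mod (Nat.div h 128) 4) n0 n1 n2 n3) q)
        (sel (Nat.mod (Nat.div h 512) 4) n0 n1 n2 n3) q) (Nat.pow p (Nat.succ v))) 0))
      (Nat.rec true (fun z _ => ands
        (ands (Nat.beq (dt c (Nat.succ z) n0 q) 0) (Nat.beq (dt c (Nat.succ z) n1 q) 0))
        (ands (Nat.beq (dt c (Nat.succ z) n2 q) 0) (Nat.beq (dt c (Nat.succ z) n3 q) 0)))
        (zr c (Nat.add (Nat.add (Nat.mul z0 n0) (Nat.mul z1 n1))
          (Nat.add (Nat.mul z2 n2) (Nat.mul z3 n3))) q))))) s'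

/-- `z` is orthogonal to all modulo `q` -/
def orth (c : Ctx) (q n0 n1 n2 n3 z : Nat) : Bool :=
  ands (ands (Nat.beq (dt c z n0 q) 0) (Nat.beq (dt c z n1 q) 0))
    (ands (Nat.beq (dt c z n2 q) 0) (Nat.beq (dt c z n3 q) 0))

/-- rank one modulo `p`, pivot `a` -/
def rk (c : Ctx) (p v s a b d e : Nat) : Nat :=
  fc (Nat.pow p (Nat.succ v)) fun q => fc (Nat.pow p 3) fun M => fc (Nat.mod s M) fun h =>
  okb (ands (notb (Nat.beq (dt c (zr c a q) a q) 0))
    (ands (orth c q a b d e (zr c (Nat.add b (Nat.mul (Nat.mod h p) a)) q))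
    (ands (orth c q a b d e (zr c (Nat.add d (Nat.mul (Nat.mod (Nat.div h p) p) a)) q))
    (orth c q a b d e (zr c (Nat.add e (Nat.mul (Nat.div h (Nat.pow p 2)) a)) q))))) (Nat.div s M)

/-- dispatch on the pivot -/
def piv (i : Nat) (f : Nat → Nat → Nat → Nat → Nat) (a b d e : Nat) : Nat :=
  Nat.rec (f a b d e) (fun i _ => Nat.rec (f b a d e) (fun i _ =>
    Nat.rec (f d a b e) (fun _ _ => f e a b d) i) i) i

/-- rank one modulo `p` in `{2,3,5,7}` -/
def kRank (c : Ctx) (n0 n1 n2 n3 D cl s : Nat) : Nat :=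
  fc (Nat.mod s 512) fun h => fc (sel (Nat.mod h 4) 2 3 5 7) fun p =>
  fc (Nat.mod (Nat.div h 4) 32) fun v =>
  Bool.rec 0 (piv (Nat.div h 128) (rk c p v (Nat.div s 512)) n0 n1 n2 n3)
    (ands (clo D cl p) (Nat.beq (Nat.mod c.Q (Nat.pow p (Nat.succ v))) 0))

/-- rank one modulo a prime `p > 7` and no `p²`; pivot `a` -/
def rk11 (c : Ctx) (p v s a b d e : Nat) : Nat :=
  fc (Nat.pow p (Nat.succ v)) fun q1 => fc (Nat.mul p q1) fun q => fc (Nat.pow p 3) fun M =>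
  fc (Nat.mod s M) fun h =>
  fc (Nat.add b (Nat.mul (Nat.mod h p) a)) fun x1 =>
  fc (Nat.add d (Nat.mul (Nat.mod (Nat.div h p) p) a)) fun x2 =>
  fc (Nat.add e (Nat.mul (Nat.div h (Nat.pow p 2)) a)) fun x3 =>
  fc (zr c x1 q) fun z1 => fc (zr c x2 q) fun z2 => fc (zr c x3 q) fun z3 =>
  okb (ands (ands (notb (Nat.beq (dt c (zr c a q1) a q1) 0))
      (Nat.beq (Nat.mod (dt c (zr c a q) a q) (Nat.pow p v)) 0))
    (ands (ands (orth c q1 a b d e z1) (ands (orth c q1 a b d e z2) (orth c q1 a b d e z3)))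
      (m3 p (Nat.div (dt c z1 x1 q) q1) (Nat.div (dt c z1 x2 q) q1) (Nat.div (dt c z1 x3 q) q1)
        (Nat.div (dt c z2 x1 q) q1) (Nat.div (dt c z2 x2 q) q1) (Nat.div (dt c z2 x3 q) q1)
        (Nat.div (dt c z3 x1 q) q1) (Nat.div (dt c z3 x2 q) q1) (Nat.div (dt c z3 x3 q) q1))))
    (Nat.div s M)

def kRank11 (c : Ctx) (n0 n1 n2 n3 D cl s : Nat) : Nat :=
  fc (Nat.mod s 524288) fun h => fc (Nat.mod h 4096) fun p =>
  fc (Nat.mod (Nat.div h 4096) 32) fun v =>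
  Bool.rec 0 (piv (Nat.div h 131072) (rk11 c p v (Nat.div s 524288)) n0 n1 n2 n3)
    (ands (ands (Nat.ble 8 p) (isPrime p))
      (ands (clo D cl p) (Nat.beq (Nat.mod c.Q (Nat.pow p (Nat.add v 2))) 0)))

/-- a derived root is not a root: `- u w = (combination)` -/
def kDer (c : Ctx) (n0 n1 n2 n3 D cl s : Nat) : Nat :=
  fc (Nat.mod s 8796093022208) fun h => fc (Nat.mod (Nat.div h 2) 4096) fun p =>
  fc (Nat.pow p (Nat.mod (Nat.div h 8192) 64)) fun q => fc (Nat.mod (Nat.div h 2097152) 65536) fun u =>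
  fc (Nat.div h 137438953472) fun w => fc (Nat.div (Nat.pow 2 w) 2) fun t =>
  fc (sel (Nat.mod h 2) c.w5 c.w6 0 0) fun W => fc (zr c W q) fun z =>
  rd4 w (Nat.div s 8796093022208) fun z0 z1 z2 z3 s' =>
  okb (ands (ands (isPrime p) (ands (clo D cl p) (Nat.beq (Nat.mod c.Q q) 0)))
    (ands (Nat.beq (Nat.add (cX c.Om t z0 z1 z2 z3 n0 n1 n2 n3) (Nat.mul u W))
      (Nat.add (cY c.Om t z0 z1 z2 z3 n0 n1 n2 n3) c.Om))
    (ands (notb (ands (ands (Nat.beq (Nat.mod z0 p) (Nat.mod t p)) (Nat.beq (Nat.mod z1 p) (Nat.mod t p)))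
      (ands (Nat.beq (Nat.mod z2 p) (Nat.mod t p)) (Nat.beq (Nat.mod z3 p) (Nat.mod t p)))))
    (ands (Nat.beq (Nat.mod (Nat.mul (Nat.mul u u) (dt c z W q)) q) 0)
      (notb (Nat.beq (Nat.mod (Nat.mul (Nat.mul 2 u)
        (dt c z (sel (Nat.mod (Nat.div h 524288) 4) n0 n1 n2 n3) q)) q) 0)))))) s'

/-! ### final nodes -/

/-- `x w - y z` modulo `Q` -/
def mnr (Q x y z w : Nat) : Nat :=
  Nat.mod (Nat.sub (Nat.add (Nat.mul x w) (Nat.mul Q Q)) (Nat.mul y z)) Q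

def dtq (Q m01 m02 m03 m12 m13 m23 k01 k02 k03 k12 k13 k23 : Nat) : Nat :=
  Nat.mod (Nat.sub (Nat.add (Nat.mul 2 (Nat.mul Q Q))
    (Nat.add (Nat.add (Nat.mul m01 k23) (Nat.mul m03 k12)) (Nat.add (Nat.mul m12 k03) (Nat.mul m23 k01))))
    (Nat.add (Nat.mul m02 k13) (Nat.mul m13 k02))) Q

/-- determinant modulo `Q` -/
def detQ (Q a0 a1 a2 a3 b0 b1 b2 b3 d0 d1 d2 d3 e0 e1 e2 e3 : Nat) : Nat :=
  dtq Q (mnr Q a0 a1 b0 b1) (mnr Q a0 a2 b0 b2) (mnr Q a0 a3 b0 b3) (mnr Q a1 a2 b1 b2)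
    (mnr Q a1 a3 b1 b3) (mnr Q a2 a3 b2 b3)
    (mnr Q d0 d1 e0 e1) (mnr Q d0 d2 e0 e2) (mnr Q d0 d3 e0 e3) (mnr Q d1 d2 e1 e2)
    (mnr Q d1 d3 e1 e3) (mnr Q d2 d3 e2 e3)

/-- read a vector of the new basis: coefficients and entries -/
def rdv (c : Ctx) (wU wP n0 n1 n2 n3 s : Nat) (f : Nat → Nat → Nat → Nat → Nat → Nat → Nat) : Nat :=
  rd4 wU s fun z0 z1 z2 z3 s1 => rd4 wP s1 fun x0 x1 x2 x3 s2 =>
  fc (Nat.div (Nat.pow 2 wU) 2) fun t => fc (Nat.div (Nat.pow 2 wP) 2) fun tp =>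
  fc (Nat.sub (Nat.add (Nat.add (Nat.add x0 (Nat.mul x1 c.B)) (Nat.add (Nat.mul x2 c.B2)
    (Nat.mul x3 c.B3))) c.Om) (Nat.mul tp (Nat.add (Nat.add 1 c.B) (Nat.add c.B2 c.B3)))) fun y =>
  Bool.rec 0 (f y (Nat.mod (Nat.sub (Nat.add x0 c.Q) tp) c.Q) (Nat.mod (Nat.sub (Nat.add x1 c.Q) tp) c.Q)
      (Nat.mod (Nat.sub (Nat.add x2 c.Q) tp) c.Q) (Nat.mod (Nat.sub (Nat.add x3 c.Q) tp) c.Q) s2)
    (Nat.beq (cX c.Om t z0 z1 z2 z3 n0 n1 n2 n3) (Nat.add y (cY c.Om t z0 z1 z2 z3 n0 n1 n2 n3)))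

/-- entry of the Gram matrix: `z y + g (a - t) = 0` modulo `Q` -/
def ge (c : Ctx) (g gt z y a : Nat) : Bool :=
  Nat.beq (Nat.mod (Nat.add (dt c z y c.Q) (Nat.mul g a)) c.Q) gt

def gen (row w i : Nat) : Nat := Nat.mod (Nat.shiftRight row (Nat.mul w i)) (Nat.pow 2 w)

/-- Gram matrix of the new basis is `row`, times `g` -/
def gram (c : Ctx) (g w row y0 y1 y2 y3 : Nat) : Bool :=
  Nat.rec false (fun gt _ =>
    Nat.rec false (fun z0 _ => Nat.rec false (fun z1 _ => Nat.rec false (fun z2 _ => Nat.rec false (fun z3 _ =>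
    ands (ands (ands (ge c g gt (Nat.succ z0) y0 (gen row w 0)) (ge c g gt (Nat.succ z0) y1 (gen row w 1)))
      (ands (ge c g gt (Nat.succ z0) y2 (gen row w 2)) (ge c g gt (Nat.succ z0) y3 (gen row w 3))))
    (ands (ands (ge c g gt (Nat.succ z1) y1 (gen row w 4)) (ge c g gt (Nat.succ z1) y2 (gen row w 5)))
      (ands (ands (ge c g gt (Nat.succ z1) y3 (gen row w 6)) (ge c g gt (Nat.succ z2) y2 (gen row w 7)))
      (ands (ge c g gt (Nat.succ z2) y3 (gen row w 8)) (ge c g gt (Nat.succ z3) y3 (gen row w 9))))))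
      (zr c y3 c.Q)) (zr c y2 c.Q)) (zr c y1 c.Q)) (zr c y0 c.Q))
    (Nat.succ (Nat.mod (Nat.mul g (Nat.div (Nat.pow 2 w) 2)) c.Q))

/-- final node. `ty = 0`: table `tb`; `ty = 1`: table `cb`; `ty = 2, 3`: Gram matrix from the stream,
continue with `FR`, `FF`. -/
def fin (c : Ctx) (tb tn cb cn : Nat)
    (FR FF : Nat → Nat → Nat → Nat → Nat → Nat → Nat → Nat)
    (n0 n1 n2 n3 D cl ty s : Nat) : Nat :=
  Bool.rec 0
    (fc (Nat.mod s 65536) fun h => fc (Nat.div s 65536) fun s =>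
    fc (Nat.mod h 32) fun wU => fc (Nat.mod (Nat.div h 32) 32) fun wP =>
    fc (Nat.pow 2 (Nat.div h 1024)) fun W => fc (Nat.mod s W) fun g => fc (Nat.div s W) fun s =>
    rdv c wU wP n0 n1 n2 n3 s fun y0 a0 a1 a2 a3 s => rdv c wU wP n0 n1 n2 n3 s fun y1 b0 b1 b2 b3 s =>
    rdv c wU wP n0 n1 n2 n3 s fun y2 d0 d1 d2 d3 s => rdv c wU wP n0 n1 n2 n3 s fun y3 e0 e1 e2 e3 s =>
    fc (detQ c.Q a0 a1 a2 a3 b0 b1 b2 b3 d0 d1 d2 d3 e0 e1 e2 e3) fun dt =>
    Bool.rec 0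
      (Nat.rec
        (fc (Nat.mod s 4096) fun j =>
          okb (ands (Nat.blt j tn) (gram c g 24 (Nat.mod (Nat.shiftRight tb (Nat.mul 240 j)) (Nat.pow 2 240))
            y0 y1 y2 y3)) (Nat.div s 4096))
        (fun ty _ => Nat.rec
          (fc (Nat.mod s 4096) fun j =>
            okb (ands (Nat.blt j cn) (gram c g 24 (Nat.mod (Nat.shiftRight cb (Nat.mul 240 j)) (Nat.pow 2 240))
              y0 y1 y2 y3)) (Nat.div s 4096))
          (fun ty _ => fc (Nat.mod s 32) fun w => fc (Nat.pow 2 (Nat.mul 10 w)) fun W =>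
            fc (Nat.mod (Nat.div s 32) W) fun row => fc (Nat.div (Nat.div s 32) W) fun s =>
            Bool.rec 0 (Nat.rec (FR y0 y1 y2 y3 row w s) (fun _ _ => FF y0 y1 y2 y3 row w s) ty)
              (gram c g w row y0 y1 y2 y3)) ty) ty)
      (Bool.rec (Nat.beq (Nat.add dt D) c.Q) true (Nat.beq dt D)))
    (Nat.beq (Nat.mod (Nat.pow cl 24) D) 0)

/-! ### search tree -/

def tree (c : Ctx) (tb tn cb cn : Nat)
    (FR FF : Nat → Nat → Nat → Nat → Nat → Nat → Nat → Nat) (fuel : Nat) :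
    Nat → Nat → Nat → Nat → Nat → Nat → List Nat → Nat → Nat :=
  Nat.rec (fun _ _ _ _ _ _ _ _ => 0)
    (fun _ ih n0 n1 n2 n3 D cl ex s =>
      fc (Nat.div s 16) fun s' =>
      Nat.rec
        (fc (Nat.mod s' 4096) fun p => fc (Nat.mod (Nat.div s' 4096) 16) fun m =>
          fc (Nat.div s' 65536) fun s =>
          fc (Nat.div D p) fun D' =>
          Bool.rec 0
            (spl m
              (fun a b d e => sp1 c p a b d e s ex (fun a b d e s ex => ih a b d e D' cl ex s)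
                (fun a b d e s => ih a b d e D (Nat.mul cl p) List.nil s))
              (fun a b d e => sp2 c p a b d e s ex (fun a b d e s ex => ih a b d e D' cl ex s)
                (fun a b d e s => ih a b d e D (Nat.mul cl p) List.nil s))
              (fun a b d e => sp3 c p a b d e s ex (fun a b d e s ex => ih a b d e D' cl ex s)
                (fun a b d e s => ih a b d e D (Nat.mul cl p) List.nil s))
              (sp4 c p n0 n1 n2 n3 s ex (fun a b d e s ex => ih a b d e D' cl ex s)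
                (fun a b d e s => ih a b d e D (Nat.mul cl p) List.nil s))
              n0 n1 n2 n3)
            (ands (isPrime p) (Nat.beq (Nat.mod c.Q p) 0)))
        (fun o _ => Nat.rec (kPrim c n0 n1 n2 n3 s')
        (fun o _ => Nat.rec (kExcl c n0 n1 n2 n3 ex s')
        (fun o _ => Nat.rec (kSSF c n0 n1 n2 n3 D cl s')
        (fun o _ => Nat.rec (kRank c n0 n1 n2 n3 D cl s')
        (fun o _ => Nat.rec (kDer c n0 n1 n2 n3 D cl s')
        (fun o _ => Nat.rec (kRank11 c n0 n1 n2 n3 D cl s')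
        (fun o _ => fin c tb tn cb cn FR FF n0 n1 n2 n3 D cl o s')
        o) o) o) o) o) o) (Nat.mod s 16)) fuel

end

end Pool.Agent.Refl.K
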