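import Pool.Agent.Helper23_Refl.StmtC1
import Pool.Agent.Helper23_Refl.StmtD
import Pool.Agent.Helper23_Refl.KFar

/-!
# Statements, part C2: soundness of the search trees
-/

namespace Pool.Agent.Refl

open Matrix

/-! ### C2.1 packed vectors -/

/-- the constants of a context -/
structure CtxB (c : K.Ctx) (D0 : ℕ) : Prop where
  D : 1 ≤ D0
  Q : c.Q = 2 ^ 80 * (210 * D0) ^ 8
  B : c.B = c.Q * c.Q * 2 ^ 80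
  B2 : c.B2 = c.B * c.B
  B3 : c.B3 = c.B * c.B2
  Om : c.Om = c.Q * (1 + c.B + (c.B2 + c.B3))

/-- `x` packs the vector `v`, with `t` times the offset -/
def Pg (c : K.Ctx) (x t : ℕ) (v : Z4) : Prop :=
  (x : ℤ) = ∑ j : Fin 4, (v j + t * c.Q) * (c.B : ℤ) ^ (j : ℕ)

/-- the digits of `x` represent `v` modulo `Q` -/
def Pd (c : K.Ctx) (x : ℕ) (v : Z4) : Prop :=
  ∃ t : ℕ, Pg c x t v ∧ ∀ j, 0 ≤ v j + t * c.Q ∧ v j + t * c.Q ≤ 2 ^ 70 * c.Q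

/-- standard packed vector -/
def Pk (c : K.Ctx) (x : ℕ) (v : Z4) : Prop := Pg c x 1 v ∧ ∀ j, |v j| ≤ c.Q

/-- four packed vectors, the columns of `N` -/
def PkN (c : K.Ctx) (n0 n1 n2 n3 : ℕ) (N : M4) : Prop :=
  ∀ i : Fin 4, Pk c (![n0, n1, n2, n3] i) (fun j => N j i)

/-- the rows of the context represent the symmetric matrix `P` modulo `Q` -/
structure CtxP (c : K.Ctx) (D0 : ℕ) (P : M4) : Prop extends CtxB c D0 where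
  symm : P.transpose = P
  row : ∀ i : Fin 4, ∃ x : Fin 4 → ℕ, (∀ j, x j < c.Q ∧ (c.Q : ℤ) ∣ P i j - x j) ∧
    ![c.r0, c.r1, c.r2, c.r3] i = x 0 * c.B3 + x 1 * c.B2 + x 2 * c.B + x 3
  bd : ∀ i j, |P i j| ≤ 2 ^ 70

/-- PACK1: residues of digits -/
def Pack1Stmt : Prop := ∀ (c : K.Ctx) (D0 x p : ℕ) (v : Z4), CtxB c D0 → Pd c x v → 0 < p →
  p ∣ c.Q → (K.z4 c x p = true ↔ ∀ j, (p : ℤ) ∣ v j) ∧
    ∀ i : Fin 4, (K.dg c x i p : ℤ) = v i % p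

/-- PACK2: products -/
def Pack2Stmt : Prop := ∀ (c : K.Ctx) (D0 x y q q' : ℕ) (P : M4) (v w : Z4), CtxP c D0 P →
  Pd c x v → Pd c y w → 0 < q → 0 < q' → q' ∣ q → q ∣ c.Q →
  (K.dt c (K.zr c x q) y q' : ℤ) = (w ⬝ᵥ P.mulVec v) % q'

/-- PACK3: combinations -/
def Pack3Stmt : Prop := ∀ (c : K.Ctx) (D0 n0 n1 n2 n3 : ℕ) (N : M4), CtxB c D0 →
  PkN c n0 n1 n2 n3 N → ∀ z0 z1 z2 z3 : ℕ, z0 < 2 ^ 64 → z1 < 2 ^ 64 → z2 < 2 ^ 64 →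
  z3 < 2 ^ 64 → Pd c (z0 * n0 + z1 * n1 + (z2 * n2 + z3 * n3)) (N.mulVec ![z0, z1, z2, z3]) ∧
    Pg c (z0 * n0 + z1 * n1 + (z2 * n2 + z3 * n3)) (z0 + z1 + (z2 + z3))
      (N.mulVec ![z0, z1, z2, z3])

/-- PACK4: signed combinations; uniqueness of the digits -/
def Pack4Stmt : Prop := ∀ (c : K.Ctx) (D0 n0 n1 n2 n3 : ℕ) (N : M4), CtxB c D0 →
  PkN c n0 n1 n2 n3 N →
  (∀ t z0 z1 z2 z3 : ℕ,
    (K.cX c.Om t z0 z1 z2 z3 n0 n1 n2 n3 : ℤ) - K.cY c.Om t z0 z1 z2 z3 n0 n1 n2 n3 - c.Om =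
      ∑ j : Fin 4, (N.mulVec ![(z0 : ℤ) - t, z1 - t, z2 - t, z3 - t]) j * (c.B : ℤ) ^ (j : ℕ)) ∧
  (∀ v w : Z4, (∀ j, |v j| ≤ 2 ^ 100 * c.Q) → (∀ j, |w j| ≤ 2 ^ 100 * c.Q) →
    ∑ j : Fin 4, v j * (c.B : ℤ) ^ (j : ℕ) = ∑ j : Fin 4, w j * (c.B : ℤ) ^ (j : ℕ) → v = w)

/-- PRIME -/
def PrimeStmt : Prop := ∀ p : ℕ, K.isPrime p = true → p.Prime ∧ p < 4096

/-! ### C2.2 nodes of the tree -/

/-- A node: `n` are the columns of `N = F W`, a basis of a sublattice of `F ℤ⁴`; the primes dividing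
`cl` do not divide the index; the vectors of `ex` are not in `F ℤ⁴`. -/
def NodeOK (c : K.Ctx) (D0 : ℕ) (F : M4) (n0 n1 n2 n3 D cl : ℕ) (ex : List ℕ) : Prop :=
  ∃ N W : M4, F * W = N ∧ PkN c n0 n1 n2 n3 N ∧ N.det.natAbs = D ∧ 0 < D ∧
    (∀ i j, |N i j| * (D : ℤ) ^ 2 ≤ 4096 * (D0 : ℤ) ^ 2) ∧
    (∀ p : ℕ, p.Prime → p ∣ cl → ¬ (p : ℤ) ∣ W.det) ∧
    (∀ x ∈ ex, ∃ v, Pk c x v ∧ ∀ y, F.mulVec y ≠ v)

/-- SPLIT: the splitting step of the tree -/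
def SplitStmt : Prop := ∀ (c : K.Ctx) (D0 : ℕ) (F : M4) (n0 n1 n2 n3 D cl : ℕ) (ex : List ℕ)
  (T : Prop) (ih : ℕ → ℕ → ℕ → ℕ → ℕ → ℕ → List ℕ → ℕ → ℕ) (p m s : ℕ), CtxB c D0 →
  NodeOK c D0 F n0 n1 n2 n3 D cl ex → p.Prime → p < 4096 → p ∣ c.Q →
  (∀ a b d e D' cl' ex' s', NodeOK c D0 F a b d e D' cl' ex' → ih a b d e D' cl' ex' s' ≠ 0 → T) →
  K.spl m
    (fun a b d e => K.sp1 c p a b d e s ex (fun a b d e s ex => ih a b d e (D / p) cl ex s)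
      (fun a b d e s => ih a b d e D (cl * p) [] s))
    (fun a b d e => K.sp2 c p a b d e s ex (fun a b d e s ex => ih a b d e (D / p) cl ex s)
      (fun a b d e s => ih a b d e D (cl * p) [] s))
    (fun a b d e => K.sp3 c p a b d e s ex (fun a b d e s ex => ih a b d e (D / p) cl ex s)
      (fun a b d e s => ih a b d e D (cl * p) [] s))
    (K.sp4 c p n0 n1 n2 n3 s ex (fun a b d e s ex => ih a b d e (D / p) cl ex s)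
      (fun a b d e s => ih a b d e D (cl * p) [] s))
    n0 n1 n2 n3 ≠ 0 → T

/-- `W` packs the direction of the root `x`: `F x` is a negative multiple -/
def Der (c : K.Ctx) (F : M4) (W : ℕ) (x : Z4) : Prop :=
  ∃ (w : Z4) (s t : ℤ), 0 < s ∧ 0 < t ∧ (∀ j, 0 ≤ w j ∧ w j < 2 ^ 63) ∧
    (W : ℤ) = ∑ j : Fin 4, w j * (c.B : ℤ) ^ (j : ℕ) ∧ s • F.mulVec x = -(t • w)

/-- The lattice `G`, in the coordinates `F`, has the form `- b / a P`. The roots `e 0 .. e 3` have the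
coordinates `c0 .. c3`. -/
structure Env (c : K.Ctx) (D0 : ℕ) (P F G : M4) (a b : ℤ) (nd : ℕ) (e : Fin 6 → Z4) : Prop where
  ctx : CtxP c D0 P
  a0 : 0 < a
  b0 : 0 < b
  lat : Lat G
  red : Reduced G
  det : F.det ≠ 0
  rel : a • G = -(b • (F.transpose * P * F))
  root : ∀ i, IsRoot G (e i)
  c0 : Pk c c.c0 (F.mulVec (e 0)) ∧ ∀ j, |F.mulVec (e 0) j| ≤ 4096
  c1 : Pk c c.c1 (F.mulVec (e 1)) ∧ ∀ j, |F.mulVec (e 1) j| ≤ 4096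
  c2 : Pk c c.c2 (F.mulVec (e 2)) ∧ ∀ j, |F.mulVec (e 2) j| ≤ 4096
  c3 : Pk c c.c3 (F.mulVec (e 3)) ∧ ∀ j, |F.mulVec (e 3) j| ≤ 4096
  w5 : if 1 ≤ nd then Der c F c.w5 (e 4) else c.w5 = 0
  w6 : if 2 ≤ nd then Der c F c.w6 (e 5) else c.w6 = 0

/-- KILLA -/
def KillAStmt : Prop := ∀ (c : K.Ctx) (D0 : ℕ) (P F G : M4) (a b : ℤ) (nd : ℕ) (e : Fin 6 → Z4)
  (n0 n1 n2 n3 D cl : ℕ) (ex : List ℕ) (s : ℕ), Env c D0 P F G a b nd e →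
  NodeOK c D0 F n0 n1 n2 n3 D cl ex →
  K.kPrim c n0 n1 n2 n3 s = 0 ∧ K.kExcl c n0 n1 n2 n3 ex s = 0 ∧ K.kSSF c n0 n1 n2 n3 D cl s = 0

/-- KILLB -/
def KillBStmt : Prop := ∀ (c : K.Ctx) (D0 : ℕ) (P F G : M4) (a b : ℤ) (nd : ℕ) (e : Fin 6 → Z4)
  (n0 n1 n2 n3 D cl : ℕ) (ex : List ℕ) (s : ℕ), Env c D0 P F G a b nd e →
  NodeOK c D0 F n0 n1 n2 n3 D cl ex →
  K.kRank c n0 n1 n2 n3 D cl s = 0 ∧ K.kRank11 c n0 n1 n2 n3 D cl s = 0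

/-- KILLC -/
def KillCStmt : Prop := ∀ (c : K.Ctx) (D0 : ℕ) (P F G : M4) (a b : ℤ) (nd : ℕ) (e : Fin 6 → Z4)
  (n0 n1 n2 n3 D cl : ℕ) (ex : List ℕ) (s : ℕ), Env c D0 P F G a b nd e →
  NodeOK c D0 F n0 n1 n2 n3 D cl ex → K.kDer c n0 n1 n2 n3 D cl s = 0

/-! ### C2.3 final nodes -/

/-- vector of four integers -/
def vI (v : K.I4) : Z4 := ![v.x, v.y, v.z, v.w]
/-- symmetric matrix -/
def matI (A : K.I10) : M4 := !![A.a00, A.a01, A.a02, A.a03; A.a01, A.a11, A.a12, A.a13;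
  A.a02, A.a12, A.a22, A.a23; A.a03, A.a13, A.a23, A.a33]
/-- matrix of a row of numbers with `w` bits -/
noncomputable def mrow (w row : ℕ) : M4 := matI (K.i10 w row)
/-- row `j` of a table -/
noncomputable def mtab (tb j : ℕ) : M4 := mrow 24 ((tb >>> (240 * j)) % 2 ^ 240)

/-- the data of a final node: `y` are the coordinates of the basis `U` of `G` -/
def FinD (c : K.Ctx) (F G : M4) (y0 y1 y2 y3 row w : ℕ) (U : M4ˣ) : Prop :=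
  PkN c y0 y1 y2 y3 (F * (U : M4)) ∧ (∀ i j, |(F * (U : M4)) i j| ≤ 2 ^ 31) ∧ w < 32 ∧
    ∃ a b : ℤ, 0 < a ∧ 0 < b ∧ a • ((U : M4).transpose * G * (U : M4)) = b • mrow w row

/-- result of a successful search -/
def Out (c : K.Ctx) (F G : M4) (tb tn cb cn : ℕ) (FR FF : ℕ → ℕ → ℕ → ℕ → ℕ → ℕ → ℕ → ℕ) : Prop :=
  (∃ j < tn, Similar G (mtab tb j)) ∨ (∃ j < cn, Similar G (mtab cb j)) ∨
    ∃ (y0 y1 y2 y3 row w s : ℕ) (U : M4ˣ), FinD c F G y0 y1 y2 y3 row w U ∧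
      (FR y0 y1 y2 y3 row w s ≠ 0 ∨ FF y0 y1 y2 y3 row w s ≠ 0)

/-- FIN -/
def FinStmt : Prop := ∀ (c : K.Ctx) (D0 : ℕ) (P F G : M4) (a b : ℤ) (nd : ℕ) (e : Fin 6 → Z4)
  (n0 n1 n2 n3 D cl : ℕ) (ex : List ℕ) (tb tn cb cn ty s : ℕ)
  (FR FF : ℕ → ℕ → ℕ → ℕ → ℕ → ℕ → ℕ → ℕ), Env c D0 P F G a b nd e →
  NodeOK c D0 F n0 n1 n2 n3 D cl ex →
  K.fin c tb tn cb cn FR FF n0 n1 n2 n3 D cl ty s ≠ 0 → Out c F G tb tn cb cn FR FF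

/-- TREE -/
def TreeStmt : Prop := ∀ (c : K.Ctx) (D0 : ℕ) (P F G : M4) (a b : ℤ) (nd : ℕ) (e : Fin 6 → Z4)
  (n0 n1 n2 n3 D cl : ℕ) (ex : List ℕ) (tb tn cb cn fuel s : ℕ)
  (FR FF : ℕ → ℕ → ℕ → ℕ → ℕ → ℕ → ℕ → ℕ), Env c D0 P F G a b nd e →
  NodeOK c D0 F n0 n1 n2 n3 D cl ex →
  K.tree c tb tn cb cn FR FF fuel n0 n1 n2 n3 D cl ex s ≠ 0 → Out c F G tb tn cb cn FR FF

/-! ### C2.4 leaves: the norms of the four independent roots -/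

/-- the number `D0 = - 16 det / product of norms` -/
def dd0 (N01 N02 N12 N03 N13 N23 : ℕ) : ℤ :=
  4 * ((N01 : ℤ) + N02 + N12 + N03 + N13 + N23) +
    4 * ((Nat.sqrt (N01 * N02 * N12) : ℤ) + Nat.sqrt (N01 * N03 * N13) +
      Nat.sqrt (N02 * N03 * N23) + Nat.sqrt (N12 * N13 * N23)) +
    2 * ((Nat.sqrt (N01 * N12 * (N23 * N03)) : ℤ) + Nat.sqrt (N01 * N13 * (N23 * N02)) +
      Nat.sqrt (N02 * N12 * (N13 * N03))) - 16 -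
    ((N01 : ℤ) * N23 + N02 * N13 + N03 * N12)

/-- DETID: Gram determinant of four roots -/
def DetIdStmt : Prop := ∀ (G : M4) (e : Fin 4 → Z4), Lat G → (∀ i, IsRoot G (e i)) →
  (∀ i j, i ≠ j → bz G (e i) (e j) ≤ 0) →
  16 * (G.det * d4 (e 0) (e 1) (e 2) (e 3) ^ 2) =
    -(bz G (e 0) (e 0) * bz G (e 1) (e 1) * bz G (e 2) (e 2) * bz G (e 3) (e 3) *
      dd0 (nn G (e 0) (e 1)) (nn G (e 0) (e 2)) (nn G (e 1) (e 2)) (nn G (e 0) (e 3))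
        (nn G (e 1) (e 3)) (nn G (e 2) (e 3)))

/-- matrix with 2 on the diagonal and entries `- c i j` -/
def cMat (c : Fin 4 → Fin 4 → ℕ) : M4 := fun i j => if i = j then 2 else -(c i j : ℤ)

/-- ALG: the coordinates `f_i (x) = 2 (x, e_i) / (e_i, e_i)` -/
def AlgStmt : Prop := ∀ (G : M4) (e : Fin 4 → Z4) (k : Fin 4 → ℕ) (c : Fin 4 → Fin 4 → ℕ) (s t : ℤ),
  Lat G → (∀ i, IsRoot G (e i)) → d4 (e 0) (e 1) (e 2) (e 3) ≠ 0 → 0 < s → 0 < t →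
  (∀ i, s * bz G (e i) (e i) = t * k i) →
  (∀ i j, i ≠ j → (c i j : ℤ) * bz G (e i) (e i) = -(2 * bz G (e i) (e j))) →
  (cMat c).det < 0 ∧ ∃ F : M4, F.det ≠ 0 ∧ (∀ x i, bz G (e i) (e i) * F.mulVec x i = 2 * bz G x (e i)) ∧
    (∀ i j, F.mulVec (e j) i = cMat c i j) ∧
    (2 * -(cMat c).det * s) • G = -(t • (F.transpose * ((Matrix.diagonal fun i => (k i : ℤ)) *
      (cMat c).adjugate) * F)) ∧
    ((Matrix.diagonal fun i => (k i : ℤ)) * (cMat c).adjugate).transpose =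
      (Matrix.diagonal fun i => (k i : ℤ)) * (cMat c).adjugate

/-- data of four independent roots, and at most two others -/
structure TOK (T : K.TCtx) (G : M4) (e : Fin 6 → Z4) : Prop where
  lat : Lat G
  red : Reduced G
  root : ∀ i, IsRoot G (e i)
  obt : ∀ i j : Fin 6, (i : ℕ) < 4 → (j : ℕ) < 4 + T.nd → i ≠ j → bz G (e i) (e j) ≤ 0
  n01 : T.N01 = nn G (e 0) (e 1)
  n02 : T.N02 = nn G (e 0) (e 2)
  n12 : T.N12 = nn G (e 1) (e 2)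
  n03 : T.N03 = nn G (e 0) (e 3)
  n13 : T.N13 = nn G (e 1) (e 3)
  n23 : T.N23 = nn G (e 2) (e 3)
  lt : T.N01 < 4096 ∧ T.N02 < 4096 ∧ T.N12 < 4096 ∧ T.N03 < 4096 ∧ T.N13 < 4096 ∧ T.N23 < 4096
  a : 1 ≤ T.nd → T.a0 = nn G (e 0) (e 4) ∧ T.a1 = nn G (e 1) (e 4) ∧ T.a2 = nn G (e 2) (e 4) ∧
    T.a3 = nn G (e 3) (e 4)
  b : 2 ≤ T.nd → T.b0 = nn G (e 0) (e 5) ∧ T.b1 = nn G (e 1) (e 5) ∧ T.b2 = nn G (e 2) (e 5) ∧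
    T.b3 = nn G (e 3) (e 5)
  D1 : 1 ≤ T.D0
  D0 : (T.D0 : ℤ) = dd0 T.N01 T.N02 T.N12 T.N03 T.N13 T.N23
  Q : T.Q = 2 ^ 80 * (210 * T.D0) ^ 8
  B : T.B = T.Q * T.Q * 2 ^ 80
  B2 : T.B2 = T.B * T.B
  B3 : T.B3 = T.B * T.B2
  Om : T.Om = T.Q * (1 + T.B + (T.B2 + T.B3))
  e0 : T.e0 < T.Q ∧ (T.Q : ℤ) ∣ T.e0 - (8 - 2 * ((T.N12 : ℤ) + T.N13 + T.N23 +
    Nat.sqrt (T.N12 * T.N13 * T.N23)))
  e1 : T.e1 < T.Q ∧ (T.Q : ℤ) ∣ T.e1 - (8 - 2 * ((T.N02 : ℤ) + T.N03 + T.N23 +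
    Nat.sqrt (T.N02 * T.N03 * T.N23)))
  e2 : T.e2 < T.Q ∧ (T.Q : ℤ) ∣ T.e2 - (8 - 2 * ((T.N01 : ℤ) + T.N03 + T.N13 +
    Nat.sqrt (T.N01 * T.N03 * T.N13)))
  e3 : T.e3 < T.Q ∧ (T.Q : ℤ) ∣ T.e3 - (8 - 2 * ((T.N01 : ℤ) + T.N02 + T.N12 +
    Nat.sqrt (T.N01 * T.N02 * T.N12)))
  M0 : T.M0 ≠ 0 ∧ ∀ p : ℕ, p.Prime → p ∣ T.M0 → p ∈ [2, 3, 5, 7] ∧ ¬ p ∣ T.D0
  M4 : T.M4 = 16 ∨ (T.M4 = 4 ∧ ¬ 2 ∣ T.D0)

/-- LEAF -/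
def LeafStmt : Prop := ∀ (T : K.TCtx) (G : M4) (e : Fin 6 → Z4) (k0 k1 k2 k3 : ℕ) (s t : ℤ),
  TOK T G e → 0 < s → 0 < t → s * bz G (e 0) (e 0) = t * k0 → s * bz G (e 1) (e 1) = t * k1 →
  s * bz G (e 2) (e 2) = t * k2 → s * bz G (e 3) (e 3) = t * k3 →
  k0 < 2 ^ 32 → k1 < 2 ^ 32 → k2 < 2 ^ 32 → k3 < 2 ^ 32 →
  ∀ c01 c10 c02 c20 c12 c21 c03 c30 c13 c31 c23 c32 : ℕ,
  (∀ i j : Fin 4, i ≠ j → ((![![0, c01, c02, c03], ![c10, 0, c12, c13], ![c20, c21, 0, c23],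
    ![c30, c31, c32, 0]] i j : ℕ) : ℤ) * bz G (e (Fin.castLE (by norm_num) i)) (e (Fin.castLE (by norm_num) i)) =
      -(2 * bz G (e (Fin.castLE (by norm_num) i)) (e (Fin.castLE (by norm_num) j)))) →
  ∀ (tb tn cb cn : ℕ) (FR FF : K.FH) (st : ℕ),
  K.leaf T tb tn cb cn FR FF k0 k1 k2 k3 c01 c10 c02 c20 c12 c21 c03 c30 c13 c31 c23 c32 st ≠ 0 →
  ∃ (C : K.Ctx) (P F : M4) (a b : ℤ), Env C T.D0 P F G a b T.nd e ∧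
    Out C F G tb tn cb cn (FR T C k0 k1 k2 k3) (FF T C k0 k1 k2 k3)

/-- LOC: local conditions for the norms -/
def LocStmt : Prop := ∀ (T : K.TCtx) (G : M4) (e : Fin 6 → Z4) (k : Fin 4 → ℕ) (s t : ℤ),
  TOK T G e → 0 < s → 0 < t →
  (∀ i : Fin 4, s * bz G (e (Fin.castLE (by norm_num) i)) (e (Fin.castLE (by norm_num) i)) = t * k i) →
  Nat.gcd (Nat.gcd (k 0) (k 1)) (Nat.gcd (k 2) (k 3)) = 1 →
  (∀ i, K.okk (k i) = true ∧ ¬ T.M4 ∣ k i) ∧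
  (∀ p : ℕ, p.Prime → p ∈ [2, 3, 5, 7] → ¬ p ∣ T.D0 → ∀ i j l : Fin 4, i ≠ j → j ≠ l → i ≠ l →
    ¬ (p ∣ k i ∧ p ∣ k j ∧ p ∣ k l)) ∧
  (∀ p : ℕ, p.Prime → 7 < p → ¬ p ∣ T.D0 → ∀ i : Fin 4,
    ¬ (¬ p ∣ k i ∧ ∀ j, j ≠ i → p ∣ k j ∧ ¬ p ^ 2 ∣ k j))

/-- LEAVES: all the norms -/
def LeavesStmt : Prop := ∀ (T : K.TCtx) (G : M4) (e : Fin 6 → Z4) (tb tn cb cn q2 q3 st : ℕ)
  (FR FF : K.FH), TOK T G e → 1 ≤ T.N01 → 1 ≤ K.sel q2 T.N02 T.N12 0 0 →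
  1 ≤ K.sel q3 T.N03 T.N13 T.N23 0 →
  K.leaves T tb tn cb cn FR FF q2 q3 st ≠ 0 →
  ∃ (C : K.Ctx) (P F : M4) (a b : ℤ) (k0 k1 k2 k3 : ℕ), Env C T.D0 P F G a b T.nd e ∧
    Out C F G tb tn cb cn (FR T C k0 k1 k2 k3) (FF T C k0 k1 k2 k3)

/-- ISO: isotropic configurations -/
def IsoStmt : Prop := ∀ (G : M4) (e : Fin 4 → Z4) (q2 q3 s : ℕ), Lat G → (∀ i, IsRoot G (e i)) →
  (∀ i j, i ≠ j → bz G (e i) (e j) ≤ 0) → d4 (e 0) (e 1) (e 2) (e 3) ≠ 0 →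
  1 ≤ nn G (e 0) (e 1) → 1 ≤ K.sel q2 (nn G (e 0) (e 2)) (nn G (e 1) (e 2)) 0 0 →
  1 ≤ K.sel q3 (nn G (e 0) (e 3)) (nn G (e 1) (e 3)) (nn G (e 2) (e 3)) 0 →
  K.isoK (nn G (e 0) (e 1)) (nn G (e 0) (e 2)) (nn G (e 1) (e 2)) (nn G (e 0) (e 3))
    (nn G (e 1) (e 3)) (nn G (e 2) (e 3)) s = 0

/-! ### C2.5 configurations -/

/-- facets of a chamber which realize the numbers `code` -/
structure Conf (G : M4) {m : ℕ} (f : Fin m → Z4) (tag n code : ℕ) (σ : Fin 6 → Fin m) : Prop where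
  n4 : 4 ≤ n
  n6 : n ≤ 6
  t0 : n = 4 → tag = 0
  inj : ∀ i j : Fin 6, (i : ℕ) < n → (j : ℕ) < n → i ≠ j → σ i ≠ σ j
  num : ∀ i j : Fin 6, (i : ℕ) < n → (j : ℕ) < n → i ≠ j →
    nn G (f (σ i)) (f (σ j)) = K.nl code i j
  v0 : IsV G f (σ 0) (σ 1) (σ 2)
  v1 : IsV G f (σ 0) (σ 1) (σ 3)
  v2 : 5 ≤ n → IsV G f (σ 0) (σ 2) (σ 4)
  v3 : 6 ≤ n → IsV G f (σ 1) (σ 2) (σ 5)
  far0 : 1 ≤ tag → FarF G f (σ 0) (σ 3) (σ 1) (K.farL tag code 0) (K.farM code 0)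
  far1 : 1 ≤ tag → tag ≠ 2 → K.nl code 0 1 = 0 →
    FarF G f (σ 1) (σ 3) (σ 0) (K.farL tag code 1) (K.farM code 1)
  far2 : tag = 1 → FarF G f (σ 1) (σ 2) (σ 0) (K.farL tag code 2) (K.farM code 2)

/-- TRF: transfer of a chamber to a similar lattice -/
def TrfStmt : Prop := ∀ (G R : M4) (U : M4ˣ) (a b : ℤ) (m : ℕ) (f : Fin m → Z4) (O : R4), Lat G →
  0 < a → 0 < b → a • ((U : M4).transpose * G * (U : M4)) = b • R → Cham G m f O →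
  Lat R ∧ (∃ O' : R4, Cham R m (fun i => ((U⁻¹ : M4ˣ) : M4).mulVec (f i)) O') ∧
  (∀ i j k, IsV G f i j k → IsV R (fun i => ((U⁻¹ : M4ˣ) : M4).mulVec (f i)) i j k) ∧
  (∀ i j, nn R (((U⁻¹ : M4ˣ) : M4).mulVec (f i)) (((U⁻¹ : M4ˣ) : M4).mulVec (f j)) =
    nn G (f i) (f j)) ∧
  (∀ i j k l m', FarF G f i j k l m' →
    FarF R (fun i => ((U⁻¹ : M4ˣ) : M4).mulVec (f i)) i j k l m') ∧
  (PrimG G → PrimG R → (U : M4).transpose * G * (U : M4) = R ∧ (Reduced G → Reduced R)) ∧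
  ∀ tag n code σ, Conf G f tag n code σ →
    Conf R (fun i => ((U⁻¹ : M4ˣ) : M4).mulVec (f i)) tag n code σ

/-- RDES: the roots in the coordinates of the basis `U` -/
def RdEsStmt : Prop := ∀ (T : K.TCtx) (C : K.Ctx) (D0 : ℕ) (P F G : M4) (a b : ℤ)
  (e : Fin 6 → Z4) (y0 y1 y2 y3 row w s : ℕ) (U : M4ˣ)
  (f : K.I4 → K.I4 → K.I4 → K.I4 → K.I4 → K.I4 → ℕ → ℕ), Env C D0 P F G a b T.nd e →
  FinD C F G y0 y1 y2 y3 row w U → K.rdEs T C y0 y1 y2 y3 s f ≠ 0 →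
  ∃ (E0 E1 E2 E3 E4 E5 : K.I4) (s' : ℕ), f E0 E1 E2 E3 E4 E5 s' ≠ 0 ∧
    vI E0 = ((U⁻¹ : M4ˣ) : M4).mulVec (e 0) ∧ vI E1 = ((U⁻¹ : M4ˣ) : M4).mulVec (e 1) ∧
    vI E2 = ((U⁻¹ : M4ˣ) : M4).mulVec (e 2) ∧ vI E3 = ((U⁻¹ : M4ˣ) : M4).mulVec (e 3) ∧
    (1 ≤ T.nd → vI E4 = ((U⁻¹ : M4ˣ) : M4).mulVec (e 4)) ∧
    (2 ≤ T.nd → vI E5 = ((U⁻¹ : M4ˣ) : M4).mulVec (e 5))

/-- LINA: the integer linear algebra of the kernel functions -/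
def LinAStmt : Prop :=
  (∀ u v : K.I4, K.dotI u v = vI u ⬝ᵥ vI v) ∧
  (∀ (A : K.I10) (v : K.I4), vI (K.mulI A v) = (matI A).mulVec (vI v)) ∧
  (∀ (A : K.I10) (u v : K.I4), K.dotI u (K.mulI A v) = bz (matI A) (vI u) (vI v)) ∧
  (∀ a b c d : K.I4, K.det4 a b c d = d4 (vI a) (vI b) (vI c) (vI d)) ∧
  (∀ A : K.I10, K.detA A = (matI A).det) ∧
  (∀ (u v w x : K.I4), K.dotI (K.crs u v w) x = -K.det4 u v w x) ∧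
  (∀ u v : K.I4, K.eqI u v = true ↔ vI u = vI v) ∧
  (∀ (A : K.I10) (n : ℕ) (v : K.I4), 0 < n → (K.rootI A n v = true ↔
    (∀ x : Z4, (n : ℤ) ∣ 2 * bz (matI A) (vI v) x) ∧ Prim4 (vI v))) ∧
  (∀ (A : K.I10) (v : K.I4), K.isR A v = true ↔ IsRoot (matI A) (vI v)) ∧
  (∀ A : K.I10, K.prm A = true ↔ PrimG (matI A))

/-- VCHK: contradictions between a root and the vertices -/
def VChkStmt : Prop := ∀ (A : K.I10) (m : ℕ) (f : Fin m → Z4) (O : R4) (tag n code : ℕ)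
  (σ : Fin 6 → Fin m) (g : ℕ → K.I4), Lat (matI A) → Cham (matI A) m f O →
  Conf (matI A) f tag n code σ → (∀ i : Fin 6, (i : ℕ) < n → vI (g i) = f (σ i)) →
  ∀ (r : K.I4) (v v' : ℕ), K.isR A r = true → v < n - 2 → v' < n - 2 →
  (∀ (D : ℕ) (al be ga : ℤ), K.mixC r (g (K.sel v 0 0 0 1)) (g (K.sel v 1 1 2 2))
    (g (K.sel v 2 3 4 5)) D al be ga = false) ∧
  K.sepC r (g (K.sel v 0 0 0 1)) (g (K.sel v 1 1 2 2)) (g (K.sel v 2 3 4 5)) (g (K.sel v 3 2 1 0))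
    (g (K.sel v' 0 0 0 1)) (g (K.sel v' 1 1 2 2)) (g (K.sel v' 2 3 4 5))
    (g (K.sel v' 3 2 1 0)) = false

/-- NORM: norms of roots -/
def NormStmt : Prop := ∀ (R : M4) (r : Z4) (ml : List ℕ), Lat R → Reduced R → IsRoot R r →
  K.prl ml = K.nrm R.det.natAbs → ∀ g : ℕ → Bool, K.dvl g ml 1 = true →
  g (bz R r r).natAbs = true

/-- FARC: there is no far end of the edge `(a, b)`, seen from `c` -/
def FarCStmt : Prop := ∀ (A : K.I10) (m : ℕ) (f : Fin m → Z4) (O : R4) (i j k o : Fin m)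
  (a b c d : K.I4) (kn : List K.I4) (ml : List ℕ) (l m' : ℕ), Lat (matI A) → Reduced (matI A) →
  Cham (matI A) m f O → IsV (matI A) f i j k → vI a = f i → vI b = f j → vI c = f k →
  vI d = f o → o ≠ i → o ≠ j → o ≠ k → (∀ x ∈ kn, ∃ h, vI x = f h) → FarF (matI A) f i j k l m' →
  K.mkEd A a b c (K.ori A d) (fun E => K.farC E kn ml (nn (matI A) (f i) (f j))
    (nn (matI A) (f i) (f k)) l m') = false

/-- HAND: the two handlers -/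
def HandStmt : Prop := ∀ (T : K.TCtx) (C : K.Ctx) (D0 : ℕ) (P F G : M4) (a b : ℤ)
  (e : Fin 6 → Z4) (m : ℕ) (f : Fin m → Z4) (O : R4) (tag n code : ℕ) (σ : Fin 6 → Fin m)
  (s0 s1 s2 s3 d5 d6 : Fin 6) (k0 k1 k2 k3 y0 y1 y2 y3 row w s : ℕ) (U : M4ˣ),
  Env C D0 P F G a b T.nd e → Cham G m f O → Conf G f tag n code σ → T.nd = n - 4 →
  e 0 = f (σ s0) → e 1 = f (σ s1) → e 2 = f (σ s2) → e 3 = f (σ s3) →
  (5 ≤ n → e 4 = f (σ d5)) → (6 ≤ n → e 5 = f (σ d6)) →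
  (∀ i : Fin 6, (i : ℕ) < n → i = s0 ∨ i = s1 ∨ i = s2 ∨ i = s3 ∨ (5 ≤ n ∧ i = d5) ∨
    (6 ≤ n ∧ i = d6)) →
  FinD C F G y0 y1 y2 y3 row w U →
  K.rootH n s0 s1 s2 s3 d5 d6 T C k0 k1 k2 k3 y0 y1 y2 y3 row w s = 0 ∧
  K.farH tag n code s0 s1 s2 s3 d5 d6 T C k0 k1 k2 k3 y0 y1 y2 y3 row w s = 0

/-- TUP: one configuration -/
def TupStmt : Prop := ∀ (tb tn cb cn tag n code s : ℕ), K.tupC tb tn cb cn tag n code s = true →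
  ∀ (G : M4) (m : ℕ) (f : Fin m → Z4) (O : R4) (σ : Fin 6 → Fin m), Lat G → Reduced G →
  Cham G m f O → Conf G f tag n code σ →
  (∃ j < tn, Similar G (mtab tb j)) ∨ (∃ j < cn, Similar G (mtab cb j))

end Pool.Agent.Refl
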