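import Pool.Agent.Helper23_Refl.StmtA

/-!
# Statements, part B: geometry of the outermost edge
-/

namespace Pool.Agent.Refl

open Matrix

/-! ### fixed point arithmetic (scale `10^6`, `U` = upper bound, `L` = lower bound) -/

def SS : ℕ := 1000000
def gU (N : ℕ) : ℕ := Nat.sqrt (N * SS * SS) / 2 + 1
def gL (N : ℕ) : ℕ := Nat.sqrt (N * SS * SS) / 2
def c4 (N : ℕ) : ℕ := (4 - N) * SS / 4
def mulU (a b : ℕ) : ℕ := a * b / SS + 1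
def divU (a b : ℕ) : ℕ := a * SS / b + 1
def sqU (a : ℕ) : ℕ := Nat.sqrt (a * SS) + 1

def ysupU (c h2 l m : ℕ) : ℕ :=
  if h2 * l * l ≤ c * (SS - l) * m then
    divU (mulU (sqU (mulU c (SS - l)) + sqU (mulU h2 m))
      (sqU (mulU c (SS - l)) + sqU (mulU h2 m))) (l + m)
  else divU (mulU c (SS - l)) l + h2

/-- bound for `N_kr`, where `k r` are the two ends of the edge `(i,j)`, given
`s_i² ≥ (l/SS) q`, `m_j² ≥ (m/SS) q`, `N_jk = 0`, `N_ij N_ik = 0`. -/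
def farBN (Nij Nik Nir Njr l m : ℕ) : ℕ :=
  let t := Nat.sqrt (Nij * Nir * Njr)
  let Yk2 := divU (mulU (c4 Nik) (SS - l)) (l + m)
  let h2 := (4 * Njr + Nij * Nir + 4 * t) * SS / (4 * (4 - Nij)) + 1
  let Ya := ysupU (c4 Nir) h2 l m
  let Yr2 := if Nij = 0 then min Ya (ysupU (c4 Njr) (Nir * SS / 4 + 1) m l) else Ya
  let wr := (4 - Nij - Nir - Njr - t) * SS / (4 - Nij) + 1
  let x := mulU (sqU (c4 Nik + Yk2)) (sqU (wr + Yr2)) + sqU (mulU Yk2 Yr2) -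
    gL Nik * gL Nir / SS
  4 * x * x / (SS * SS)

def lamI (N12 : ℕ) : ℕ := (SS - gU N12) / 2
def muI (N34 : ℕ) : ℕ := (gL N34 - SS) / 2
def chL (N13 N14 N34 : ℕ) : ℕ :=
  Nat.sqrt ((4 * N34 + N13 * N14 + 4 * Nat.sqrt (N13 * N14 * N34)) * SS * SS /
    ((4 - N13) * (4 - N14)))
def muII (N13 N14 N34 : ℕ) : ℕ := (chL N13 N14 N34 - SS) / 2
def lamII (N13 N14 N34 : ℕ) : ℕ :=
  let ch := chL N13 N14 N34
  let l1 := ((ch - SS) / 2) * (SS - gU N13) / (SS + gU N13)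
  let k3 := divU (SS + gU N13) (SS - gU N13)
  let k4 := divU (SS + gU N14) (SS - gU N14)
  let l2 := ((ch * ch - SS * SS) / SS) * SS / (k3 + k4 + 2 * mulU ch (sqU (mulU k3 k4)))
  max l1 l2
def lC (N34 N25 N35 : ℕ) : ℕ :=
  if N25 < 5 then muI N34
  else
    let t := gL N25 - SS
    let Z := t * t / (2 * t + N35 * SS / 4 + 1)
    max (Z * SS / (SS + Z)) (muI N34)
def bI (N12 : ℕ) : ℕ := 4 * (2 * SS + gU N12) * (2 * SS + gU N12) / (SS * SS)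
def y2II (N : ℕ) : ℕ := (SS + gU N) * (4 - N) / 8 + 1
def bII (N13 N14 : ℕ) : ℕ :=
  let x := mulU (sqU (c4 N13 + y2II N13)) (sqU (c4 N14 + y2II N14)) +
    sqU (mulU (y2II N13) (y2II N14)) - gL N13 * gL N14 / SS
  4 * x * x / (SS * SS)
def yA (N12 N13 N23 : ℕ) : ℕ :=
  let t := Nat.sqrt (N12 * N13 * N23)
  let a := sqU (c4 N13) + sqU ((4 * N23 + N12 * N13 + 4 * t) * SS / (4 * (4 - N12)) + 1)
  let b := sqU (c4 N23) + sqU ((4 * N13 + N12 * N23 + 4 * t) * SS / (4 * (4 - N12)) + 1)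
  let v := min (mulU a a) (mulU b b)
  let d := (a * a + b * b) / SS - (2 * gU N12 * a * b / (SS * SS) + 1)
  if gU N12 * a ≤ b * SS ∧ gU N12 * b ≤ a * SS ∧ 0 < d then
    min v (divU (mulU (c4 N12) (mulU (mulU a a) (mulU b b))) d)
  else v
def wA (N12 N13 N23 : ℕ) : ℕ :=
  (4 - N12 - N13 - N23 - Nat.sqrt (N12 * N13 * N23)) * SS / (4 - N12) + 1
def bA (N12 N13 N23 N14 N24 : ℕ) : ℕ :=
  let x := mulU (sqU (wA N12 N13 N23 + yA N12 N13 N23)) (sqU (wA N12 N14 N24 + yA N12 N14 N24)) +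
    sqU (mulU (yA N12 N13 N23) (yA N12 N14 N24))
  4 * x * x / (SS * SS)

/-! ### real quantities -/

/-- `4 (a,b)² / ((a,a)(b,b))` for two roots -/
def nn (G : M4) (a b : Z4) : ℕ :=
  (((2 * bz G a b) / bz G a a) * ((2 * bz G a b) / bz G b b)).toNat

noncomputable def gR (G : M4) (a b : Z4) : ℝ :=
  -(bz G a b : ℝ) / (Real.sqrt (bz G a a) * Real.sqrt (bz G b b))
noncomputable def sR (G : M4) (O : R4) (a : Z4) : ℝ :=
  -(br G O (up a)) / (Real.sqrt (bz G a a) * Real.sqrt (-(br G O O)))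

/-- `sinh²` of the distance to the edge -/
noncomputable def Qf (g si sj : ℝ) : ℝ := (si ^ 2 + sj ^ 2 + 2 * g * si * sj) / (1 - g ^ 2)
/-- normalized height of the facet `k` over the foot on the edge `(i,j)` -/
noncomputable def Yf (gij gik gjk si sj sk : ℝ) : ℝ :=
  (sk + (si + gij * sj) / (1 - gij ^ 2) * gik + (sj + gij * si) / (1 - gij ^ 2) * gjk) /
    Real.sqrt (1 + Qf gij si sj)
noncomputable def wf (gij gik gjk : ℝ) : ℝ :=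
  1 - (gik ^ 2 + gjk ^ 2 + 2 * gij * gik * gjk) / (1 - gij ^ 2)
noncomputable def cf (gij gik gjk gil gjl : ℝ) : ℝ :=
  (gik * gil + gjk * gjl + gij * (gik * gjl + gjk * gil)) / (1 - gij ^ 2)
noncomputable def ysup (c h2 l m : ℝ) : ℝ :=
  if h2 * l ^ 2 ≤ c * (1 - l) * m then
    (Real.sqrt (c * (1 - l)) + Real.sqrt (h2 * m)) ^ 2 / (l + m)
  else c * (1 - l) / l + h2
noncomputable def gN (N : ℕ) : ℝ := Real.sqrt N / 2

/-! ### B1. `nn` -/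

def NNStmt : Prop := ∀ (G : M4) (a b : Z4), Lat G → IsRoot G a → IsRoot G b →
  (nn G a b : ℤ) * (bz G a a * bz G b b) = 4 * bz G a b ^ 2 ∧
  (a ≠ b → a ≠ -b → nn G a b ≠ 4) ∧ (bz G a b ≤ 0 → gR G a b = gN (nn G a b)) ∧
  (∀ c : Z4, IsRoot G c → IsSquare (nn G a b * nn G b c * nn G a c))

/-! ### B2. the formula for the two ends of an edge -/

def EndsStmt : Prop := ∀ (G : M4) (n : ℕ) (e : Fin n → Z4) (O : R4), Lat G →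
  Cham G n e O → ∀ i j k l, k ≠ l → IsV G e i j k → IsV G e i j l →
    let g := fun a b => gR G (e a) (e b)
    let s := fun a => sR G O (e a)
    let Yk := Yf (g i j) (g i k) (g j k) (s i) (s j) (s k)
    let Yl := Yf (g i j) (g i l) (g j l) (s i) (s j) (s l)
    g k l = Yk * Yl + Real.sqrt (wf (g i j) (g i k) (g j k) + Yk ^ 2) *
      Real.sqrt (wf (g i j) (g i l) (g j l) + Yl ^ 2) - cf (g i j) (g i k) (g j k) (g i l) (g j l)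

/-! ### B3. the outermost edge -/

/-- `i1 i2` is the outermost edge, with ends `i3 i4`. -/
structure Outer (G : M4) {n : ℕ} (e : Fin n → Z4) (O : R4) (i1 i2 i3 i4 : Fin n) : Prop where
  ne : i3 ≠ i4
  v3 : IsV G e i1 i2 i3
  v4 : IsV G e i1 i2 i4
  out : ∀ i j, i ≠ j → 0 < g2 G (e i) (e j) →
    Qf (gR G (e i) (e j)) (sR G O (e i)) (sR G O (e j)) ≤
      Qf (gR G (e i1) (e i2)) (sR G O (e i1)) (sR G O (e i2))

def OuterStmt : Prop := ∀ (G : M4) (n : ℕ) (e : Fin n → Z4) (O : R4), Lat G →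
  Cham G n e O → ∃ i1 i2 i3 i4, Outer G e O i1 i2 i3 i4

/-! ### B4. the bound for the far end of an edge -/

/-- B4a: real inequality -/
def FarRealStmt : Prop := ∀ gij gik gir gjr si sj sk sr q l m : ℝ,
  0 ≤ gij → gij < 1 → 0 ≤ gik → gik < 1 → 0 ≤ gir → gir < 1 → 0 ≤ gjr → gjr < 1 →
  gij * gik = 0 → 0 < si → 0 < sj → 0 < sk → 0 < sr → 0 < q →
  Qf gik si sk ≤ q → Qf gir si sr ≤ q → Qf gjr sj sr ≤ q →
  0 ≤ l → 0 ≤ m → 0 < l + m → l * q ≤ si ^ 2 → m * q ≤ (sj + gij * si) ^ 2 / (1 - gij ^ 2) →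
  l < 1 ∧ Yf gij gik 0 si sj sk ^ 2 ≤ (1 - gik ^ 2) * (1 - l) / (l + m) ∧
  Yf gij gir gjr si sj sr ^ 2 ≤ ysup (1 - gir ^ 2) ((gjr + gij * gir) ^ 2 / (1 - gij ^ 2)) l m ∧
  (gij = 0 → Yf gij gir gjr si sj sr ^ 2 ≤ ysup (1 - gjr ^ 2) (gir ^ 2) m l)

/-- B4b: rounding -/
def FarNatStmt : Prop := ∀ (Nij Nik Nir Njr lN mN n t : ℕ) (Yk Yr : ℝ),
  Nij < 4 → Nik < 4 → Nir < 4 → Njr < 4 → Nij * Nik = 0 → t * t = Nij * Nir * Njr →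
  Nij + Nir + Njr + t < 4 → 0 < lN + mN → lN < SS → mN ≤ SS → 0 ≤ Yk → 0 ≤ Yr →
  Yk ^ 2 ≤ (1 - gN Nik ^ 2) * (1 - (lN : ℝ) / SS) / ((lN : ℝ) / SS + (mN : ℝ) / SS) →
  Yr ^ 2 ≤ ysup (1 - gN Nir ^ 2) ((gN Njr + gN Nij * gN Nir) ^ 2 / (1 - gN Nij ^ 2))
    ((lN : ℝ) / SS) ((mN : ℝ) / SS) →
  (Nij = 0 → Yr ^ 2 ≤ ysup (1 - gN Njr ^ 2) (gN Nir ^ 2) ((mN : ℝ) / SS) ((lN : ℝ) / SS)) →
  gN n ≤ Yk * Yr + Real.sqrt (1 - gN Nik ^ 2 + Yk ^ 2) *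
    Real.sqrt (wf (gN Nij) (gN Nir) (gN Njr) + Yr ^ 2) - gN Nik * gN Nir →
  n ≤ farBN Nij Nik Nir Njr lN mN

/-- B4c: the bound for facets -/
def FarStmt : Prop := ∀ (G : M4) (n : ℕ) (e : Fin n → Z4) (O : R4), Lat G →
  Cham G n e O → ∀ i j k r, k ≠ r → IsV G e i j k → IsV G e i j r →
    nn G (e j) (e k) = 0 → nn G (e i) (e j) * nn G (e i) (e k) = 0 →
    ∀ (q : ℝ) (lN mN : ℕ), 0 < lN + mN → 0 < q →
    (∀ a b, a ≠ b → 0 < g2 G (e a) (e b) →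
      Qf (gR G (e a) (e b)) (sR G O (e a)) (sR G O (e b)) ≤ q) →
    (lN : ℝ) / SS * q ≤ sR G O (e i) ^ 2 →
    (mN : ℝ) / SS * q ≤ (sR G O (e j) + gR G (e i) (e j) * sR G O (e i)) ^ 2 /
      (1 - gR G (e i) (e j) ^ 2) →
    nn G (e k) (e r) ≤ farBN (nn G (e i) (e j)) (nn G (e i) (e k)) (nn G (e i) (e r))
      (nn G (e j) (e r)) lN mN

/-! ### B5. the three cases -/

/-- The graph of `{1,2,3,4}` is connected. -/
def Conn4 (N12 N13 N14 N23 N24 N34 : ℕ) : Prop :=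
  ¬(N12 = 0 ∧ N13 = 0 ∧ N14 = 0) ∧ ¬(N13 = 0 ∧ N14 = 0 ∧ N23 = 0 ∧ N24 = 0) ∧
  ¬(N12 = 0 ∧ N14 = 0 ∧ N23 = 0 ∧ N34 = 0) ∧ ¬(N12 = 0 ∧ N13 = 0 ∧ N24 = 0 ∧ N34 = 0) ∧
  ¬(N14 = 0 ∧ N24 = 0 ∧ N34 = 0) ∧ ¬(N13 = 0 ∧ N23 = 0 ∧ N34 = 0) ∧
  ¬(N12 = 0 ∧ N23 = 0 ∧ N24 = 0)

/-- bound on the far end of the edge `(i,j)`, seen from its end `k` -/
def FarF (G : M4) {n : ℕ} (e : Fin n → Z4) (i j k : Fin n) (l m : ℕ) : Prop :=
  ∀ r, r ≠ k → IsV G e i j r → nn G (e k) (e r) ≤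
    farBN (nn G (e i) (e j)) (nn G (e i) (e k)) (nn G (e i) (e r)) (nn G (e j) (e r)) l m

structure CaseA (G : M4) {n : ℕ} (e : Fin n → Z4) (i1 i2 i3 i4 : Fin n) : Prop where
  ne : i3 ≠ i4
  v3 : IsV G e i1 i2 i3
  v4 : IsV G e i1 i2 i4
  conn : Conn4 (nn G (e i1) (e i2)) (nn G (e i1) (e i3)) (nn G (e i1) (e i4))
    (nn G (e i2) (e i3)) (nn G (e i2) (e i4)) (nn G (e i3) (e i4))
  bd : nn G (e i3) (e i4) ≤ bA (nn G (e i1) (e i2)) (nn G (e i1) (e i3)) (nn G (e i2) (e i3))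
    (nn G (e i1) (e i4)) (nn G (e i2) (e i4))
  ord : 4 * nn G (e i1) (e i4) + nn G (e i2) (e i4) ≤ 4 * nn G (e i1) (e i3) + nn G (e i2) (e i3)

/-- lower bound for `s_2² / q` in case I -/
def l2I (N12 N15 N34 N25 N35 : ℕ) : ℕ :=
  if N12 = 0 then (if N15 = 0 then lC N34 N25 N35 else muI N34) else 0

structure CaseI (G : M4) {n : ℕ} (e : Fin n → Z4) (i1 i2 i3 i4 i5 : Fin n) : Prop where
  ne : i3 ≠ i4
  ne5 : i5 ≠ i2
  v3 : IsV G e i1 i2 i3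
  v4 : IsV G e i1 i2 i4
  v5 : IsV G e i1 i3 i5
  n13 : nn G (e i1) (e i3) = 0
  n14 : nn G (e i1) (e i4) = 0
  n23 : nn G (e i2) (e i3) = 0
  n24 : nn G (e i2) (e i4) = 0
  n34 : 5 ≤ nn G (e i3) (e i4)
  b34 : nn G (e i3) (e i4) ≤ bI (nn G (e i1) (e i2))
  b15 : nn G (e i1) (e i2) = 0 → nn G (e i1) (e i5) ≤ 1
  far13 : FarF G e i1 i3 i2 (lamI (nn G (e i1) (e i2))) (muI (nn G (e i3) (e i4)))
  far14 : FarF G e i1 i4 i2 (lamI (nn G (e i1) (e i2))) 0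
  far23 : FarF G e i2 i3 i1 (l2I (nn G (e i1) (e i2)) (nn G (e i1) (e i5)) (nn G (e i3) (e i4))
    (nn G (e i2) (e i5)) (nn G (e i3) (e i5))) (muI (nn G (e i3) (e i4)))
  far24 : nn G (e i1) (e i2) = 0 →
    FarF G e i2 i4 i1 (l2I (nn G (e i1) (e i2)) (nn G (e i1) (e i5)) (nn G (e i3) (e i4))
    (nn G (e i2) (e i5)) (nn G (e i3) (e i5))) 0

structure CaseII (G : M4) {n : ℕ} (e : Fin n → Z4) (i1 i2 i3 i4 i5 : Fin n) : Prop where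
  ne : i3 ≠ i4
  ne5 : i5 ≠ i2
  v3 : IsV G e i1 i2 i3
  v4 : IsV G e i1 i2 i4
  v5 : IsV G e i1 i3 i5
  n12 : nn G (e i1) (e i2) = 0
  n23 : nn G (e i2) (e i3) = 0
  n24 : nn G (e i2) (e i4) = 0
  n134 : ¬(nn G (e i1) (e i3) = 0 ∧ nn G (e i1) (e i4) = 0)
  b34 : nn G (e i3) (e i4) ≤ bII (nn G (e i1) (e i3)) (nn G (e i1) (e i4))
  far13 : FarF G e i1 i3 i2
    (lamII (nn G (e i1) (e i3)) (nn G (e i1) (e i4)) (nn G (e i3) (e i4)))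
    (muII (nn G (e i1) (e i3)) (nn G (e i1) (e i4)) (nn G (e i3) (e i4)))
  far14 : FarF G e i1 i4 i2
    (lamII (nn G (e i1) (e i3)) (nn G (e i1) (e i4)) (nn G (e i3) (e i4))) 0

/-- B5a -/
def GeoAStmt : Prop := ∀ (G : M4) (n : ℕ) (e : Fin n → Z4) (O : R4), Lat G →
  Cham G n e O → ∀ i1 i2 i3 i4, Outer G e O i1 i2 i3 i4 →
    nn G (e i3) (e i4) ≤ bA (nn G (e i1) (e i2)) (nn G (e i1) (e i3)) (nn G (e i2) (e i3))
      (nn G (e i1) (e i4)) (nn G (e i2) (e i4))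

/-- B5b -/
def GeoIStmt : Prop := ∀ (G : M4) (n : ℕ) (e : Fin n → Z4) (O : R4), Lat G →
  Cham G n e O → ∀ i1 i2 i3 i4, Outer G e O i1 i2 i3 i4 →
    nn G (e i1) (e i3) = 0 → nn G (e i1) (e i4) = 0 → nn G (e i2) (e i3) = 0 →
    nn G (e i2) (e i4) = 0 → sR G O (e i2) ≤ sR G O (e i1) → sR G O (e i4) ≤ sR G O (e i3) →
    ∃ i5, CaseI G e i1 i2 i3 i4 i5

/-- B5c -/
def GeoIIStmt : Prop := ∀ (G : M4) (n : ℕ) (e : Fin n → Z4) (O : R4), Lat G →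
  Cham G n e O → ∀ i1 i2 i3 i4, Outer G e O i1 i2 i3 i4 →
    nn G (e i1) (e i2) = 0 → nn G (e i2) (e i3) = 0 → nn G (e i2) (e i4) = 0 →
    ¬(nn G (e i1) (e i3) = 0 ∧ nn G (e i1) (e i4) = 0) →
    (sR G O (e i4) + gR G (e i1) (e i4) * sR G O (e i1)) ^ 2 / (1 - gR G (e i1) (e i4) ^ 2) ≤
      (sR G O (e i3) + gR G (e i1) (e i3) * sR G O (e i1)) ^ 2 / (1 - gR G (e i1) (e i3) ^ 2) →
    ∃ i5, CaseII G e i1 i2 i3 i4 i5

/-- B6: final result of part B -/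
def GeoStmt : Prop := ∀ (G : M4) (n : ℕ) (e : Fin n → Z4) (O : R4), Lat G →
  Cham G n e O →
    (∃ i1 i2 i3 i4, CaseA G e i1 i2 i3 i4) ∨ (∃ i1 i2 i3 i4 i5, CaseI G e i1 i2 i3 i4 i5) ∨
    (∃ i1 i2 i3 i4 i5, CaseII G e i1 i2 i3 i4 i5)

end Pool.Agent.Refl
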