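import Pool.Agent.Helper23_Refl.StmtB
import Pool.Agent.Helper23_Refl.KNum

/-!
# Statements, part C1: relations between the numbers `nn`, and kernel versions of the bounds
-/

namespace Pool.Agent.Refl

open Matrix

/-! ### C1a. kernel functions -/

def SqKStmt : Prop := ∀ n : ℕ, K.sqK n = Nat.sqrt n

/-- the kernel versions compute the bounds of part B -/
def KNumStmt : Prop :=
  (∀ a b c d l m, K.farK a b c d l m = farBN a b c d l m) ∧ (∀ a, K.lamIK a = lamI a) ∧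
  (∀ a, K.muIK a = muI a) ∧ (∀ a b c, K.muIIK a b c = muII a b c) ∧
  (∀ a b c, K.lamIIK a b c = lamII a b c) ∧ (∀ a b c, K.lCK a b c = lC a b c) ∧
  (∀ a, K.bIK a = bI a) ∧ (∀ a b, K.bIIK a b = bII a b) ∧
  (∀ a b c d e, K.bAK a b c d e = bA a b c d e)

/-! ### C1b. squares -/

/-- roots with nonpositive products -/
structure Obt (G : M4) (l : List Z4) : Prop where
  root : ∀ a ∈ l, IsRoot G a
  obt : l.Pairwise (fun a b => bz G a b ≤ 0)

def CycStmt : Prop := ∀ (G : M4) (a b c d : Z4), Lat G → IsRoot G a → IsRoot G b → IsRoot G c →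
  IsRoot G d → IsSquare (nn G a b * nn G b c * nn G c d * nn G d a)

/-- three roots through a vertex -/
def PosNStmt : Prop := ∀ (G : M4) (a b c : Z4), Lat G → Obt G [a, b, c] → 0 < g2 G a b →
  0 < g3 G a b c c →
  nn G a b + nn G b c + nn G a c + Nat.sqrt (nn G a b * nn G b c * nn G a c) < 4

/-- four independent roots -/
def NegNStmt : Prop := ∀ (G : M4) (a b c d : Z4), Lat G → Obt G [a, b, c, d] →
  d4 a b c d ≠ 0 →
  let N := fun x y : Z4 => (nn G x y : ℤ)
  let t := fun x y z : Z4 => (Nat.sqrt (nn G x y * nn G y z * nn G x z) : ℤ)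
  let u := fun x y z w : Z4 => (Nat.sqrt (nn G x y * nn G y z * nn G z w * nn G w x) : ℤ)
  16 - 4 * (N a b + N a c + N a d + N b c + N b d + N c d) -
    4 * (t a b c + t a b d + t a c d + t b c d) +
    (N a b * N c d + N a c * N b d + N a d * N b c) -
    2 * (u a b c d + u a b d c + u a c b d) < 0

/-! ### C1c. the number of two ends -/

/-- in case I -/
def N45IStmt : Prop := ∀ (G : M4) (a b c d e : Z4), Lat G → Obt G [a, b, c, d, e] →
  nn G a c = 0 → nn G a d = 0 → nn G b c = 0 → nn G b d = 0 → nn G a b < 4 → 4 < nn G c d →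
  ((nn G d e : ℤ) + Nat.sqrt (nn G c d * nn G d e * nn G c e) + nn G c e) * (4 - nn G a b) =
    ((nn G c d : ℤ) - 4) *
      ((nn G b e : ℤ) + nn G a e + Nat.sqrt (nn G a b * nn G b e * nn G a e) + nn G a b - 4)

/-- coefficients in case II; `Nxy` with `x, y` in `1, 3, 4, 5` -/
def pII (N13 N14 N34 N15 N35 : ℕ) : ℕ :=
  16 * N14 * N15 + 4 * N13 * N15 * N34 + 16 * N34 * N35 + 4 * N35 * N14 * N13 +
    16 * N15 * Nat.sqrt (N13 * N14 * N34) + 32 * Nat.sqrt (N14 * N34 * N35 * N15) +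
    16 * N14 * Nat.sqrt (N13 * N35 * N15) + 16 * N34 * Nat.sqrt (N13 * N35 * N15) +
    8 * N13 * Nat.sqrt (N14 * N34 * N35 * N15) + 16 * N35 * Nat.sqrt (N13 * N14 * N34)
def cII (N13 N14 N34 N15 N35 N25 : ℕ) : ℤ :=
  N15 * (4 - N34) + N35 * (4 - N14) + 4 * Nat.sqrt (N13 * N35 * N15) +
    2 * Nat.sqrt (N14 * N34 * N35 * N15) -
    (4 - N25) * (4 - N13 - N14 - N34 - Nat.sqrt (N13 * N14 * N34))

def N45IIStmt : Prop := ∀ (G : M4) (a b c d e : Z4), Lat G → Obt G [a, b, c, d, e] →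
  nn G a b = 0 → nn G b c = 0 → nn G b d = 0 → d4 a b c d ≠ 0 →
  ∃ T : ℕ, T ^ 2 = pII (nn G a c) (nn G a d) (nn G c d) (nn G a e) (nn G c e) * nn G d e ∧
    (4 - (nn G a c : ℤ)) * nn G d e + T +
      cII (nn G a c) (nn G a d) (nn G c d) (nn G a e) (nn G c e) (nn G b e) = 0

/-- numerator in case I with two more roots -/
def numC (N34 N35 N36 N45 N46 : ℕ) : ℕ :=
  4 * N35 * N36 + 4 * N45 * N46 + N34 * N35 * N46 + N34 * N45 * N36 +
    8 * Nat.sqrt (N35 * N36 * N46 * N45) + 4 * (N35 + N45) * Nat.sqrt (N34 * N36 * N46) +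
    4 * (N36 + N46) * Nat.sqrt (N34 * N35 * N45) + 2 * N34 * Nat.sqrt (N35 * N36 * N46 * N45)

/-- `a b` orthogonal to each other and to `c d`; `a` orthogonal to `e` -/
def N56Stmt : Prop := ∀ (G : M4) (a b c d e f : Z4), Lat G → Obt G [a, b, c, d, e, f] →
  nn G a b = 0 → nn G a c = 0 → nn G a d = 0 → nn G b c = 0 → nn G b d = 0 → 4 < nn G c d →
  nn G a e = 0 →
  let M := nn G b e * nn G b f
  let nu := numC (nn G c d) (nn G c e) (nn G c f) (nn G d e) (nn G d f)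
  (M = 0 → nn G e f * (nn G c d - 4) ^ 2 = nu) ∧
    (M ≠ 0 → ((2 * Nat.sqrt (nn G e f * M) + M) * (nn G c d - 4)) ^ 2 = 4 * nu * M)

end Pool.Agent.Refl
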