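import Pool.Agent.Helper23_Refl.StmtC2
import Pool.Agent.Helper23_Refl.KEnum

/-!
# Statements, part C3: enumeration of the configurations, and the list of reduced lattices
-/

namespace Pool.Agent.Refl

open Matrix

/-- configuration given by the number `x = 4 code + tag` -/
def ConfX (G : M4) {m : ℕ} (f : Fin m → Z4) (x : ℕ) (σ : Fin 6 → Fin m) : Prop :=
  Conf G f (x % 4) (K.sel (x % 4) 4 5 5 6) (x / 4) σ

/-- ENUA -/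
def EnuAStmt : Prop := ∀ L : List ℕ,
  (∀ N12, N12 < 4 → ∃ l : List ℕ, l ⊆ L ∧ K.enA N12 K.nilB l = true) →
  ∀ (G : M4) (m : ℕ) (f : Fin m → Z4) (O : R4) (i1 i2 i3 i4 : Fin m), Lat G → Cham G m f O →
  CaseA G f i1 i2 i3 i4 → ∃ x ∈ L, ∃ σ, ConfX G f x σ

/-- ENUI -/
def EnuIStmt : Prop := ∀ L : List ℕ,
  (∀ N12 N34, N12 < 4 → 5 ≤ N34 → N34 ≤ bI N12 → ∃ l : List ℕ, l ⊆ L ∧ K.enI N12 N34 K.nilB l = true) →
  ∀ (G : M4) (m : ℕ) (f : Fin m → Z4) (O : R4) (i1 i2 i3 i4 i5 : Fin m), Lat G → Cham G m f O →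
  CaseI G f i1 i2 i3 i4 i5 → ∃ x ∈ L, ∃ σ, ConfX G f x σ

/-- ENUII -/
def EnuIIStmt : Prop := ∀ L : List ℕ,
  (∀ N13 N14, N13 < 4 → N14 < 4 → ¬ (N13 = 0 ∧ N14 = 0) →
    ∃ l : List ℕ, l ⊆ L ∧ K.enII N13 N14 K.nilB l = true) →
  ∀ (G : M4) (m : ℕ) (f : Fin m → Z4) (O : R4) (i1 i2 i3 i4 i5 : Fin m), Lat G → Cham G m f O →
  CaseII G f i1 i2 i3 i4 i5 → ∃ x ∈ L, ∃ σ, ConfX G f x σ

/-- ENUSUM: the three enumerations, for every chamber -/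
def EnuStmt : Prop := ∀ L : List ℕ,
  (∀ N12, N12 < 4 → ∃ l : List ℕ, l ⊆ L ∧ K.enA N12 K.nilB l = true) →
  (∀ N12 N34, N12 < 4 → 5 ≤ N34 → N34 ≤ bI N12 → ∃ l : List ℕ, l ⊆ L ∧ K.enI N12 N34 K.nilB l = true) →
  (∀ N13 N14, N13 < 4 → N14 < 4 → ¬ (N13 = 0 ∧ N14 = 0) →
    ∃ l : List ℕ, l ⊆ L ∧ K.enII N13 N14 K.nilB l = true) →
  ∀ (G : M4) (m : ℕ) (f : Fin m → Z4) (O : R4), Lat G → Cham G m f O →
  ∃ x ∈ L, ∃ σ, ConfX G f x σ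

/-- STG1: classification of the reduced lattices from the certificates -/
def Stg1Stmt : Prop := ∀ (L : List ℕ) (tb tn cb cn : ℕ) (A : List M4),
  (∀ N12, N12 < 4 → ∃ l : List ℕ, l ⊆ L ∧ K.enA N12 K.nilB l = true) →
  (∀ N12 N34, N12 < 4 → 5 ≤ N34 → N34 ≤ bI N12 → ∃ l : List ℕ, l ⊆ L ∧ K.enI N12 N34 K.nilB l = true) →
  (∀ N13 N14, N13 < 4 → N14 < 4 → ¬ (N13 = 0 ∧ N14 = 0) →
    ∃ l : List ℕ, l ⊆ L ∧ K.enII N13 N14 K.nilB l = true) →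
  (∀ x ∈ L, ∃ s, K.tupX tb tn cb cn x s = true) →
  (∀ j < tn, PrimG (mtab tb j) ∧ InT A (mtab tb j)) →
  (∀ j < cn, Lat (mtab cb j) → ¬ Reflective (mtab cb j)) → Stage1 A

end Pool.Agent.Refl
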