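import Pool.Agent.Helper23_Refl.Defs

/-!
# The table of anisotropic reflective lattices of signature (3,1)
-/

namespace Pool.Agent.Refl

/-- The symmetric matrix with rows `a b c d`, `b e f g`, `c f h i`, `d g i j`. -/
def sm (a b c d e f g h i j : ℤ) : M4 := !![a, b, c, d; b, e, f, g; c, f, h, i; d, g, i, j]

/-- Gram matrices 1 to 10. -/
def T0 : List M4 := [sm 2 1 1 0 2 0 1 (-22) (-1) 2,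
  sm 1 0 0 0 1 0 0 (-3) 0 5,
  sm 1 0 0 0 1 0 0 33 0 (-3),
  sm 2 3 3 3 2 (-8) (-3) 2 (-3) 18,
  sm 2 1 1 4 10 (-1) (-1) 2 (-1) 2,
  sm 2 0 0 0 2 0 0 (-7) (-1) 2,
  sm 4 2 0 0 4 0 0 (-6) (-3) 10,
  sm 3 0 0 0 3 0 0 2 (-4) (-2),
  sm 2 (-1) (-1) 0 22 0 1 (-34) (-1) 2,
  sm 2 1 0 (-3) 2 0 3 4 2 (-2)]

/-- Gram matrices 11 to 20. -/
def T1 : List M4 := [sm (-12) (-6) 0 0 32 0 0 2 (-1) 2,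
  sm (-2) (-1) 1 0 2 0 (-1) 2 (-1) 6,
  sm 4 0 0 (-2) 16 (-3) 0 (-6) 0 4,
  sm 2 0 0 (-1) (-3) 0 0 35 0 2,
  sm (-2) (-1) 0 0 2 0 0 12 (-2) 12,
  sm 20 10 0 0 20 0 0 (-3) 0 1,
  sm 5 0 0 0 6 0 0 5 0 (-3),
  sm 2 (-1) (-1) (-2) 4 0 (-2) 2 0 (-4),
  sm (-4) 2 0 0 4 0 0 18 (-1) 2,
  sm 2 1 0 0 2 0 0 28 (-14) (-28)]

/-- Gram matrices 21 to 30. -/
def T2 : List M4 := [sm 6 0 3 0 (-4) 2 (-2) 18 1 14,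
  sm 14 7 0 0 14 0 0 4 (-2) (-4),
  sm (-3) 0 0 0 14 0 0 2 (-1) 2,
  sm 2 1 0 0 2 0 0 20 2 (-4),
  sm 2 1 1 0 2 0 1 (-38) (-1) 2,
  sm 2 1 0 0 2 0 0 5 0 (-15),
  sm 1 0 0 0 1 0 0 (-3) 0 6,
  sm 2 0 (-1) 0 104 0 (-2) 2 0 (-4),
  sm 10 5 0 0 10 0 0 2 0 (-6),
  sm 2 (-2) 0 1 (-1) 1 0 2 1 2]

/-- Gram matrices 31 to 40. -/
def T3 : List M4 := [sm (-30) 0 0 (-15) 2 0 1 2 (-1) 46,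
  sm 2 (-1) 0 (-2) 52 (-1) (-1) 2 (-2) (-2),
  sm 2 (-1) 0 1 8 (-1) 0 2 (-1) (-20),
  sm 10 2 (-3) 1 (-4) (-2) (-2) 10 (-1) 6,
  sm 1 0 0 0 1 0 0 (-14) (-2) 4,
  sm 7 (-1) (-2) (-1) 2 0 0 (-4) (-2) 2,
  sm 6 1 (-2) (-4) 6 (-2) (-4) 12 (-2) (-4),
  sm 3 0 0 0 3 0 0 1 0 (-5),
  sm 2 1 0 (-1) 2 0 0 44 (-22) (-14),
  sm 10 5 0 0 10 0 0 2 0 (-1)]

/-- Gram matrices 41 to 50. -/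
def T4 : List M4 := [sm 6 0 0 0 (-3) 0 0 5 0 2,
  sm 5 0 0 0 2 1 0 3 0 (-1),
  sm 3 (-1) 0 (-1) 3 0 1 (-5) 0 3,
  sm (-3) 0 0 0 42 0 0 1 0 1,
  sm 1 0 0 0 30 0 0 1 0 (-15),
  sm 6 (-1) (-2) 0 18 2 (-5) 4 0 (-10),
  sm 2 0 (-1) 0 2 0 (-8) 2 0 2,
  sm 2 1 1 0 (-6) 0 (-1) 22 1 2,
  sm 2 (-1) (-2) 0 16 (-1) (-1) (-2) (-2) 2,
  sm 2 1 0 0 2 0 0 (-1) (-4) (-1)]

/-- Gram matrices 51 to 60. -/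
def T5 : List M4 := [sm 2 1 1 0 2 0 1 (-14) (-1) 2,
  sm 10 5 0 0 10 0 0 3 0 (-1),
  sm 1 0 0 0 1 0 0 21 0 (-7),
  sm 1 0 0 0 (-6) 0 (-3) 1 0 9,
  sm (-2) (-1) 0 0 2 0 0 12 2 4,
  sm 6 (-3) 0 0 1 1 (-5) 2 0 (-10),
  sm 2 1 0 0 2 0 0 30 0 (-10),
  sm 2 (-1) 0 (-1) 6 0 0 4 (-2) (-2),
  sm (-3) 0 0 0 105 0 0 1 0 1,
  sm 2 1 0 0 2 0 0 10 0 (-5)]

/-- Gram matrices 61 to 70. -/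
def T6 : List M4 := [sm 2 1 1 0 2 0 1 (-6) (-1) 2,
  sm 14 1 2 1 14 (-2) (-1) (-4) (-2) 6,
  sm 2 0 0 (-1) (-3) 0 0 7 0 2,
  sm 4 2 0 0 4 0 0 (-5) 0 15,
  sm 2 1 1 0 2 0 1 (-54) (-1) 2,
  sm 1 0 0 0 1 0 0 2 1 (-3),
  sm (-2) (-3) (-1) (-1) 12 0 0 2 0 2,
  sm 11 0 0 0 11 0 0 3 0 (-33),
  sm 4 2 (-2) (-2) (-10) (-1) (-1) 34 1 34,
  sm 22 (-11) 0 0 (-4) (-3) (-11) 6 0 22]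

/-- Gram matrices 71 to 80. -/
def T7 : List M4 := [sm (-22) (-11) 0 0 22 0 0 12 (-2) 4,
  sm 6 5 (-5) 5 6 16 (-5) 6 5 6,
  sm 10 3 (-6) 3 10 6 (-3) (-12) 6 10,
  sm 22 (-1) (-2) (-4) 94 (-7) (-1) (-14) (-2) 22,
  sm 34 3 0 0 6 0 0 52 (-26) (-52),
  sm (-2) (-15) (-11) (-11) 50 2 2 (-2) (-28) (-2),
  sm (-4) (-2) 2 2 22 1 1 22 (-1) 22,
  sm 92 46 0 0 92 0 0 (-34) 1 2,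
  sm 38 3 0 6 (-18) (-21) 6 14 0 12,
  sm 14 7 0 0 2 6 (-6) 4 10 4]

/-- Gram matrices 81 to 90. -/
def T8 : List M4 := [sm (-16) (-6) 0 0 24 0 0 14 (-7) 14,
  sm 28 0 0 (-14) (-8) 3 0 12 0 28,
  sm 14 0 0 (-7) (-21) 0 0 5 0 14,
  sm (-14) (-7) 0 0 14 0 0 36 2 4,
  sm (-28) 14 0 0 28 0 0 6 1 6,
  sm 6 (-15) (-5) (-7) 6 (-5) (-7) 10 0 98,
  sm (-21) 0 0 0 2 0 0 14 (-7) 14,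
  sm 14 7 0 0 14 0 0 (-4) (-10) (-4),
  sm 14 0 (-7) 0 8 0 (-22) 14 0 8,
  sm 22 7 7 16 14 0 (-7) 14 (-21) (-10)]

/-- Gram matrices 91 to 100. -/
def T9 : List M4 := [sm 14 (-7) 0 (-7) 4 (-7) (-11) 14 (-7) 4,
  sm 4 0 (-14) 18 14 7 0 14 14 4,
  sm (-21) 0 0 0 6 0 0 7 0 7,
  sm 7 0 0 0 (-21) 0 0 7 0 3,
  sm (-21) 0 0 0 15 0 0 7 0 7,
  sm (-4) (-2) 2 2 6 1 1 6 (-1) 6,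
  sm 106 1 1 2 (-6) (-27) 2 (-6) 2 4,
  sm 14 0 0 (-7) (-21) 0 0 1 0 14,
  sm 7 0 0 0 7 0 0 7 0 (-1),
  sm 5 0 0 0 5 0 0 (-15) 0 1]

/-- Gram matrices 101 to 110. -/
def T10 : List M4 := [sm 10 0 0 0 10 0 0 1 4 1,
  sm 15 0 0 0 15 0 0 2 0 (-10),
  sm (-2) 0 (-12) 5 110 0 5 (-2) (-5) 10,
  sm 52 2 0 0 (-8) 0 0 10 (-5) 10,
  sm (-10) 0 5 0 4 2 2 6 1 6,
  sm 4 2 2 0 (-4) (-14) (-10) 6 (-5) 30,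
  sm 4 2 0 0 (-2) (-3) 6 2 1 18,
  sm 20 0 0 (-10) (-4) (-11) 0 (-4) 0 20,
  sm 10 0 0 (-5) (-15) 0 0 7 0 10,
  sm (-2) (-1) 0 0 2 0 0 20 10 180]

/-- Gram matrices 111 to 120. -/
def T11 : List M4 := [sm 10 5 5 0 14 1 (-9) 14 (-1) (-6),
  sm 10 5 0 0 10 0 0 (-28) (-14) 28,
  sm 70 35 0 0 70 0 0 (-4) (-2) 4,
  sm 10 0 (-5) 0 16 0 6 10 0 (-24),
  sm 3 (-2) 2 2 3 2 2 3 (-2) 3,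
  sm 10 (-5) 0 (-5) 8 (-5) (-13) 10 (-5) 8,
  sm 14 (-10) 3 (-5) (-20) 0 (-10) 6 0 30,
  sm 5 0 0 0 5 0 0 2 8 2,
  sm 6 0 (-3) 0 10 (-5) 0 (-1) (-5) 10,
  sm 15 0 0 0 15 0 0 5 0 (-1)]

/-- Gram matrices 121 to 130. -/
def T12 : List M4 := [sm 30 0 0 0 (-15) 0 0 1 0 10,
  sm 10 0 (-5) 0 (-6) 0 0 10 0 10,
  sm 10 5 0 0 10 0 0 3 0 (-5),
  sm 2 8 3 0 2 (-3) 0 2 (-5) 10,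
  sm (-10) 0 5 0 12 0 (-6) 10 0 28,
  sm 14 1 (-1) 2 2 0 0 (-14) (-2) 4,
  sm 2 1 0 0 (-2) 0 0 60 10 20,
  sm 17 0 4 (-1) 5 0 0 8 (-2) (-7),
  sm (-15) 0 0 0 21 0 0 5 0 5,
  sm (-6) 5 16 0 10 5 5 (-6) 0 10]

/-- Gram matrices 131 to 140. -/
def T13 : List M4 := [sm 38 7 5 5 8 (-5) (-5) 10 0 10,
  sm 22 11 0 0 (-22) 0 0 60 (-10) 20,
  sm 54 (-1) (-2) 7 54 (-2) 7 (-4) 14 6,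
  sm 16 6 0 0 (-24) 0 0 70 (-35) 70,
  sm 140 0 0 (-70) 2 1 0 (-52) 0 140,
  sm 70 0 0 (-35) (-105) 0 0 1 0 70,
  sm (-14) (-7) 0 0 14 0 0 60 (-10) 60,
  sm 2 1 18 37 18 9 1 22 (-17) 2,
  sm 70 0 (-35) 0 (-8) 0 18 70 0 12,
  sm 70 (-35) 0 0 (-4) (-35) 9 70 0 6]

/-- Gram matrices 141 to 150. -/
def T14 : List M4 := [sm (-105) 0 0 0 3 0 0 35 0 35,
  sm 3 0 0 0 3 0 0 (-1) 0 15,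
  sm 2 1 0 0 5 0 0 (-3) 0 45,
  sm 1 0 0 0 1 0 0 (-3) 0 45,
  sm 3 0 0 0 3 0 0 11 0 (-9),
  sm 14 2 1 1 (-4) (-2) (-2) 14 (-1) 62,
  sm 6 9 9 0 (-2) (-9) 14 6 0 28,
  sm 2 2 3 3 32 0 0 6 (-3) 6,
  sm 6 0 0 0 6 0 0 (-1) 4 (-1),
  sm 4 2 0 0 4 0 0 (-18) (-9) 30]

/-- Gram matrices 151 to 160. -/
def T15 : List M4 := [sm 2 4 (-4) (-3) 2 4 3 2 (-3) 30,
  sm 10 4 0 3 10 0 (-3) (-102) 3 6,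
  sm 2 1 0 0 2 0 9 12 6 (-6),
  sm 12 0 6 0 6 0 3 12 0 (-2),
  sm 6 3 0 (-3) 2 (-1) 8 38 (-1) 2,
  sm (-6) 0 0 (-3) 18 0 9 10 (-1) 22,
  sm 6 3 0 0 2 3 9 6 0 (-18),
  sm 6 3 0 0 6 0 9 4 2 (-2),
  sm 2 8 1 (-4) (-4) 4 2 14 (-2) 44,
  sm 2 3 3 (-1) 6 0 0 6 0 14]

/-- Gram matrices 161 to 170. -/
def T16 : List M4 := [sm 2 (-1) 7 (-3) 2 1 0 2 3 42,
  sm 6 0 3 0 4 2 (-2) (-2) (-1) 46,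
  sm (-2) (-1) 1 0 2 0 (-1) 2 (-1) 46,
  sm 2 (-2) 1 7 6 (-1) (-1) 2 (-1) 2,
  sm 20 10 0 0 20 0 0 (-9) 0 3,
  sm 4 (-2) (-12) 0 16 6 0 (-9) 0 3,
  sm 20 10 0 0 20 0 0 (-3) 0 9,
  sm 60 30 0 0 60 0 0 (-3) 0 1,
  sm 2 1 0 0 2 0 0 84 (-42) (-84),
  sm 6 0 0 (-3) 6 24 9 6 (-9) 10]

/-- Gram matrices 171 to 180. -/
def T17 : List M4 := [sm 14 (-1) 3 1 (-10) 0 1 30 (-3) 14,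
  sm 14 7 0 0 14 0 0 12 (-6) (-12),
  sm 6 (-3) (-3) 0 22 0 6 6 0 (-36),
  sm 2 1 0 0 14 0 0 12 (-18) (-36),
  sm 6 3 (-3) 0 6 0 3 (-10) 3 6,
  sm 4 (-2) 2 (-2) 10 17 1 (-2) (-1) 10,
  sm 10 (-1) 0 1 2 (-1) 0 (-38) (-1) 2,
  sm 2 1 0 0 2 0 0 15 0 (-45),
  sm 6 3 0 0 6 0 0 15 0 (-5),
  sm 2 1 0 0 2 0 0 45 0 (-15)]

/-- Gram matrices 181 to 190. -/
def T18 : List M4 := [sm 6 (-3) 0 0 6 (-3) 0 7 0 (-15),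
  sm 3 0 0 0 3 0 0 (-1) 0 18,
  sm 3 0 0 0 3 0 0 1 4 (-2),
  sm 10 5 0 0 10 0 0 6 0 (-18),
  sm 8 (-1) 0 1 2 0 13 6 0 2,
  sm 10 5 0 0 10 0 0 18 0 (-6),
  sm 30 15 0 0 30 0 0 2 0 (-6),
  sm 1 0 0 0 (-3) 0 0 9 3 6,
  sm 7 2 0 0 1 3 3 3 (-6) 3,
  sm 2 (-1) 0 0 (-1) 0 6 2 (-1) (-1)]

/-- Gram matrices 191 to 200. -/
def T19 : List M4 := [sm (-4) 0 (-3) (-3) 24 (-3) 3 6 0 6,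
  sm 10 (-6) 5 (-3) (-12) 0 (-6) 10 0 18,
  sm 3 0 0 0 3 0 0 (-2) 8 (-2),
  sm 10 0 (-5) 0 6 (-3) 0 1 (-3) 6,
  sm 11 1 (-3) (-1) 2 0 1 (-6) 3 11,
  sm 7 (-2) (-3) (-1) 4 0 2 (-6) 0 10,
  sm 10 5 0 0 10 0 0 36 (-6) (-12),
  sm 1 0 0 0 9 0 0 3 0 (-15),
  sm 2 1 0 0 5 0 0 3 0 (-15),
  sm 3 0 0 0 3 0 0 (-4) 1 11]

/-- Gram matrices 201 to 210. -/
def T20 : List M4 := [sm 10 5 0 0 10 0 0 6 0 (-3),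
  sm 18 3 (-6) 3 2 (-6) (-11) 12 (-6) 2,
  sm 2 0 1 0 6 0 (-24) 2 0 6,
  sm 6 6 3 0 (-2) 0 0 6 0 6,
  sm 2 0 (-1) 0 (-30) 0 0 2 0 18,
  sm 10 0 4 3 (-18) 0 (-3) 10 (-3) 6,
  sm 4 0 0 2 48 (-3) 0 (-6) 0 4,
  sm (-14) 0 3 (-3) 18 9 9 18 0 18,
  sm (-2) 0 (-3) (-3) 6 (-3) 3 6 0 6,
  sm 2 5 2 1 2 (-1) (-2) 14 1 14]

/-- Gram matrices 211 to 220. -/
def T21 : List M4 := [sm 4 (-2) 2 2 (-14) (-1) (-1) 10 1 10,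
  sm 6 1 (-1) 2 2 0 0 (-14) (-2) 4,
  sm 10 (-1) 0 1 2 (-1) 0 (-14) (-1) 2,
  sm 3 0 0 0 3 0 0 7 0 (-21),
  sm 3 0 0 0 (-9) 0 0 3 0 7,
  sm 3 0 0 0 (-1) 0 8 3 0 (-1),
  sm 1 0 0 0 (-6) 0 (-3) 9 0 9,
  sm 6 (-3) 0 0 (-2) (-4) (-4) 4 (-2) 4,
  sm 2 0 1 (-7) 12 6 0 26 1 2,
  sm 2 (-3) (-2) (-7) 2 (-2) (-3) 4 (-2) 2]

/-- Gram matrices 221 to 230. -/
def T22 : List M4 := [sm 2 1 0 0 2 0 0 30 0 (-15),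
  sm 33 0 0 0 33 0 0 1 0 (-99),
  sm 22 0 0 11 (-30) (-6) (-3) 12 6 58,
  sm (-22) (-33) 0 22 (-12) (-9) 0 18 0 44,
  sm 38 1 (-2) 1 38 2 (-1) (-4) 2 38,
  sm 10 3 (-6) 3 114 6 (-3) (-12) 6 114,
  sm 10 3 (-6) 3 10 6 (-3) (-12) 6 114,
  sm 66 (-3) (-9) (-12) 22 1 (-3) (-62) (-9) 66,
  sm 98 1 0 0 2 0 0 156 (-78) (-156),
  sm (-2) (-9) 5 (-21) 18 3 3 46 (-6) (-6)]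

/-- Gram matrices 231 to 240. -/
def T23 : List M4 := [sm (-6) 33 (-6) (-3) (-6) (-6) (-3) 20 10 122,
  sm 2 (-14) (-15) 0 20 (-12) 0 2 13 26,
  sm 92 46 0 0 92 0 0 (-102) 3 6,
  sm 82 (-26) 5 3 52 (-10) (-6) (-14) 33 6,
  sm 98 7 21 0 2 (-21) 18 42 0 36,
  sm 106 1 (-1) 2 (-62) (-1) 2 106 (-2) 4,
  sm 10 (-1) 4 (-6) (-2) 8 (-12) 52 6 12,
  sm 26 3 (-8) 4 6 12 (-6) (-4) 2 20,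
  sm 74 1 (-1) (-20) 2 19 (-19) 2 19 2,
  sm 30 9 3 12 (-54) 3 (-9) 22 (-3) 30]

/-- Gram matrices 241 to 250. -/
def T24 : List M4 := [sm 14 7 0 0 14 0 0 60 (-6) (-12),
  sm 30 (-3) 3 (-6) (-6) 6 (-12) 22 (-2) 4,
  sm 6 15 30 (-12) 34 5 5 10 10 94,
  sm 26 5 14 (-7) 26 14 (-7) (-28) 14 98,
  sm 42 (-21) 0 0 34 13 6 34 6 (-36),
  sm 14 7 0 0 98 0 0 12 (-18) (-36),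
  sm 21 0 0 0 (-7) 0 0 21 0 9,
  sm 21 0 0 0 (-63) 0 0 21 0 1,
  sm 7 0 0 0 (-21) 0 0 63 0 3,
  sm 15 0 0 0 15 0 0 (-5) 0 3]

/-- Gram matrices 251 to 260. -/
def T25 : List M4 := [sm 10 5 0 0 25 0 0 (-15) 0 9,
  sm 5 0 0 0 5 0 0 (-15) 0 9,
  sm 30 0 0 0 30 0 0 (-5) 0 3,
  sm 30 (-15) 0 0 (-34) (-7) 15 14 0 30,
  sm 34 (-5) 17 11 10 20 5 (-14) (-17) 34,
  sm (-2) 6 5 5 12 0 0 10 (-5) 10,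
  sm 46 2 1 1 4 2 2 (-14) 1 46,
  sm (-10) 5 5 (-15) 14 (-4) 0 14 0 30,
  sm (-10) 0 5 0 4 2 2 6 1 46,
  sm (-14) (-2) 0 (-1) 4 0 2 10 5 26]

/-- Gram matrices 261 to 270. -/
def T26 : List M4 := [sm 2 (-24) (-9) (-60) (-12) (-42) (-30) 18 (-15) 90,
  sm 12 (-6) 0 0 2 (-3) 6 6 3 54,
  sm 10 5 0 0 10 0 0 (-84) (-42) 84,
  sm 70 35 0 0 70 0 0 (-12) (-6) 12,
  sm 5 0 0 0 9 6 6 9 (-6) 9,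
  sm 23 (-2) (-4) 1 23 1 (-4) 2 (-8) 2,
  sm 13 (-1) 1 (-4) 2 3 8 2 (-3) 2,
  sm 38 (-30) 1 (-15) (-60) 0 (-30) 2 0 90,
  sm 15 0 0 0 15 0 0 (-10) 0 6,
  sm 2 0 (-3) 0 30 (-15) 0 (-3) (-15) 30]

/-- Gram matrices 271 to 280. -/
def T27 : List M4 := [sm 6 0 (-3) (-3) 20 (-10) 0 (-1) (-6) 39,
  sm 6 0 (-3) 12 10 (-5) 0 19 9 (-6),
  sm 5 0 0 0 45 0 0 15 0 (-3),
  sm 10 5 0 0 25 0 0 15 0 (-3),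
  sm 15 0 0 0 15 0 0 4 1 (-11),
  sm 10 0 5 0 (-18) 0 0 10 0 30,
  sm 8 1 (-1) 0 2 13 0 2 0 30,
  sm 10 0 (-5) 0 (-6) 0 0 10 0 90,
  sm 2 24 11 11 18 (-3) (-3) 38 (-7) 38,
  sm 14 (-2) (-1) (-1) (-4) (-2) (-2) 14 (-1) 14]

/-- Gram matrices 281 to 290. -/
def T28 : List M4 := [sm 20 10 0 0 20 0 0 (-18) (-9) 18,
  sm 10 10 5 0 (-2) (-1) (-18) 22 (-9) 18,
  sm 20 10 0 0 20 0 0 2 (-7) 2,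
  sm 12 4 2 (-2) (-2) (-6) 1 2 3 22,
  sm (-30) 0 15 0 4 0 (-2) 30 0 76,
  sm 34 3 5 0 6 0 0 (-2) 6 12,
  sm 2 3 3 (-3) 6 0 0 6 0 126,
  sm (-2) 0 (-3) (-3) 30 3 (-3) 6 0 6,
  sm 70 0 (-5) 0 12 0 (-6) 10 0 (-12),
  sm 14 (-2) (-1) (-1) (-4) (-2) (-2) 14 (-1) 134]

/-- Gram matrices 291 to 300. -/
def T29 : List M4 := [sm 1 0 0 0 4 0 0 (-12) 0 20,
  sm 4 0 (-2) 0 4 (-2) 0 (-1) 0 20,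
  sm 1 0 0 0 1 0 0 (-12) 0 20,
  sm 3 0 (-2) 7 1 0 0 4 2 3,
  sm 2 (-1) 0 0 (-2) (-1) 0 2 0 20,
  sm 3 0 0 1 (-5) (-2) 2 4 0 3,
  sm 1 0 0 0 1 0 0 (-3) 0 20,
  sm 2 (-1) 0 0 6 0 (-1) (-3) 0 2,
  sm 3 (-1) 0 (-1) 3 (-2) (-1) (-13) 0 3,
  sm 4 0 0 0 4 0 0 1 (-4) 1]

/-- Gram matrices 301 to 310. -/
def T30 : List M4 := [sm 8 0 (-4) 0 8 (-4) 0 (-3) (-1) 2,
  sm 3 0 0 0 12 0 0 8 (-16) (-8),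
  sm 3 0 0 0 3 0 0 4 (-8) (-4),
  sm 5 0 (-1) (-8) 12 0 0 5 (-8) (-8),
  sm 4 (-1) (-2) 0 4 (-1) 0 4 0 (-20),
  sm 2 1 0 (-2) 2 0 2 20 0 (-4),
  sm 6 0 0 0 6 0 0 5 0 (-4),
  sm 3 0 0 0 3 0 0 8 (-16) (-8),
  sm 5 0 (-1) (-8) 3 0 0 5 (-8) (-8),
  sm 17 0 0 1 3 0 0 8 0 (-7)]

/-- Gram matrices 311 to 320. -/
def T31 : List M4 := [sm 5 2 (-1) 0 5 2 0 5 0 (-40),
  sm 3 0 0 0 3 0 0 5 0 (-4),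
  sm 2 1 0 (-2) 2 0 2 5 0 (-4),
  sm 3 0 0 0 12 0 0 8 (-4) (-8),
  sm 1 0 (-2) (-5) 12 0 0 8 (-2) 1,
  sm 3 0 0 0 3 0 0 10 0 (-8),
  sm 1 0 0 (-5) 3 0 0 10 0 1,
  sm 3 0 0 0 3 0 0 8 (-4) (-8),
  sm 1 0 (-2) (-5) 3 0 0 8 (-2) 1,
  sm 6 0 0 (-3) 6 0 (-3) 8 (-2) 1]

/-- Gram matrices 321 to 330. -/
def T32 : List M4 := [sm 3 0 0 0 12 0 0 2 (-4) (-2),
  sm (-1) (-1) 1 0 4 0 (-2) 4 (-2) 12,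
  sm 40 20 0 0 40 0 0 (-1) 0 3,
  sm 7 0 3 (-6) 24 0 0 7 6 (-12),
  sm 16 0 4 (-8) 13 (-4) 1 8 0 (-19),
  sm 10 0 0 0 3 0 0 10 0 (-6),
  sm 7 0 3 (-6) 6 0 0 7 6 (-12),
  sm 2 0 (-3) (-8) 24 0 0 2 (-3) 2,
  sm 2 0 (-3) (-8) 6 0 0 2 (-3) 2,
  sm 2 (-3) (-3) (-8) 3 (-3) (-3) 2 (-3) 2]

/-- Gram matrices 331 to 340. -/
def T33 : List M4 := [sm 5 0 0 0 24 0 0 5 0 (-3),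
  sm 2 0 (-1) (-2) 20 0 0 2 0 (-4),
  sm (-3) 0 0 0 56 0 0 8 (-4) 8,
  sm 11 (-5) 0 0 (-13) 0 0 8 (-4) 8,
  sm (-6) 0 0 0 7 0 0 4 (-2) 4,
  sm (-3) 0 0 0 14 0 0 8 (-4) 8,
  sm (-12) 0 0 0 56 0 0 2 (-1) 2,
  sm (-3) 0 0 0 56 0 0 2 (-1) 2,
  sm 11 (-5) 0 0 (-13) 0 0 2 (-1) 2,
  sm (-12) 0 0 0 14 0 0 2 (-1) 2]

/-- Gram matrices 341 to 350. -/
def T34 : List M4 := [sm 8 4 0 0 8 0 0 5 0 (-60),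
  sm 2 1 0 0 2 0 0 20 0 (-60),
  sm 8 4 0 0 8 0 0 5 0 (-15),
  sm 2 1 0 0 2 0 0 5 0 (-60),
  sm 1 0 0 0 4 0 0 (-12) 0 24,
  sm 1 0 0 0 1 0 0 (-6) 0 12,
  sm 4 0 (-2) 0 4 (-2) 0 (-1) 0 24,
  sm 7 0 0 (-2) 4 0 0 (-12) 0 4,
  sm 4 1 0 2 2 0 (-1) (-6) 0 4,
  sm 5 2 0 1 4 0 (-2) (-24) 0 5]

/-- Gram matrices 351 to 360. -/
def T35 : List M4 := [sm 2 0 0 0 2 0 0 (-6) 0 3,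
  sm 1 0 0 0 1 0 0 (-12) 0 24,
  sm (-2) 0 0 0 1 0 0 6 0 24,
  sm 7 0 0 (-2) 1 0 0 (-12) 0 4,
  sm 4 0 0 (-2) 1 0 0 (-12) 6 4,
  sm 2 (-1) 0 0 (-2) (-1) 0 2 0 24,
  sm 7 0 0 (-2) (-2) 0 0 6 0 4,
  sm 4 0 0 (-2) (-2) (-2) 3 4 0 4,
  sm 2 (-1) 0 0 7 0 (-1) (-12) 0 2,
  sm 4 2 (-2) 0 4 2 0 (-1) (-2) 4]

/-- Gram matrices 361 to 370. -/
def T36 : List M4 := [sm 1 0 0 0 4 0 0 (-12) 0 6,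
  sm 4 0 (-2) 0 4 (-2) 0 (-1) 0 6,
  sm 1 0 0 0 1 0 0 (-3) 0 24,
  sm 7 0 0 (-2) 1 0 0 (-3) 0 4,
  sm 2 (-1) 0 0 7 0 (-1) (-3) 0 2,
  sm 2 (-1) 0 0 (-5) 0 (-1) 3 0 2,
  sm 10 5 0 0 10 0 0 (-4) 0 12,
  sm (-8) 0 (-2) (-2) 4 0 0 5 (-1) 5,
  sm 3 0 0 0 (-4) 0 0 12 4 8,
  sm 2 (-2) 1 0 (-4) 2 0 2 2 8]

/-- Gram matrices 371 to 380. -/
def T37 : List M4 := [sm 7 1 1 0 (-3) 0 0 2 1 2,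
  sm 6 0 1 0 (-1) 0 2 2 1 2,
  sm 1 0 0 0 1 0 0 (-56) (-8) 16,
  sm 7 (-2) (-1) (-2) 8 (-4) 0 (-2) (-4) 8,
  sm 3 0 0 0 12 0 0 4 0 (-20),
  sm 1 5 0 (-11) 1 0 5 4 0 1,
  sm (-1) 0 (-2) (-7) 3 0 0 4 (-2) (-1),
  sm (-1) (-1) (-1) (-7) 4 (-2) (-1) 4 (-1) (-1),
  sm 1 5 0 (-11) 1 0 5 1 0 1,
  sm 20 10 0 0 20 0 0 1 0 (-2)]

/-- Gram matrices 381 to 390. -/
def T38 : List M4 := [sm 40 20 0 0 40 0 0 1 (-3) 1,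
  sm 40 20 0 0 40 0 0 8 0 (-1),
  sm 10 5 0 0 10 0 0 8 0 (-4),
  sm 40 20 0 0 40 0 0 2 0 (-1),
  sm 10 5 0 0 10 0 0 2 0 (-4),
  sm 10 5 0 0 10 0 0 1 (-3) 1,
  sm 10 5 0 0 10 0 0 8 0 (-1),
  sm 3 (-9) 0 0 3 0 0 20 0 8,
  sm 4 (-3) 1 0 (-6) 3 0 4 0 4,
  sm 5 (-6) 0 4 (-12) 0 0 20 0 8]

/-- Gram matrices 391 to 400. -/
def T39 : List M4 := [sm 5 (-1) 0 0 (-2) 1 0 5 0 12,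
  sm 12 0 0 0 2 3 2 2 (-2) 4,
  sm 11 0 (-1) 0 (-3) 0 0 11 0 8,
  sm 13 0 1 (-4) (-3) 0 0 13 (-4) 8,
  sm 3 0 0 0 1 4 0 1 0 4,
  sm 3 0 0 0 (-1) 11 0 (-1) 0 8,
  sm 3 0 0 0 2 3 2 2 (-2) 4,
  sm 11 5 (-1) 0 4 5 4 11 0 8,
  sm 6 0 0 0 (-3) 0 0 5 0 8,
  sm 6 0 0 0 (-1) 0 5 5 0 (-1)]

/-- Gram matrices 401 to 410. -/
def T40 : List M4 := [sm 5 0 0 0 8 4 0 12 0 (-4),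
  sm 5 0 0 0 1 1 (-3) 9 1 1,
  sm 5 0 0 0 2 1 0 2 (-2) (-4),
  sm (-1) 0 2 2 168 0 0 4 0 4,
  sm 41 2 2 2 (-4) (-4) (-4) 4 0 4,
  sm (-6) 0 0 0 21 0 0 2 0 2,
  sm (-1) 0 2 2 42 0 0 4 0 4,
  sm (-2) 0 1 1 168 0 0 2 0 2,
  sm (-2) 0 1 1 42 0 0 2 0 2,
  sm (-2) 3 1 1 39 0 0 2 0 2]

/-- Gram matrices 411 to 420. -/
def T41 : List M4 := [sm (-3) 0 0 0 168 0 0 1 0 1,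
  sm (-13) 0 2 (-2) 120 0 0 4 0 4,
  sm 4 2 0 (-2) 17 2 43 4 (-2) 17,
  sm 2 0 0 0 15 0 0 2 0 (-30),
  sm (-13) 0 2 (-2) 30 0 0 4 0 4,
  sm 2 0 (-1) 0 120 0 0 (-14) (-1) 2,
  sm 2 0 (-1) 0 30 0 0 (-14) (-1) 2,
  sm 2 0 (-1) 0 15 0 0 (-29) (-1) 2,
  sm 1 0 0 0 120 0 0 1 0 (-15),
  sm 2 (-1) 0 0 (-10) 3 (-12) 6 0 8]

/-- Gram matrices 421 to 430. -/
def T42 : List M4 := [sm 40 20 0 0 40 0 0 3 0 (-4),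
  sm 10 5 0 0 10 0 0 3 0 (-4),
  sm 1 (-5) 1 (-5) 2 0 (-22) 2 0 2,
  sm 4 2 0 0 4 0 0 5 0 (-10),
  sm 8 4 0 0 8 0 0 5 (-15) 5,
  sm 8 4 0 0 8 0 0 40 0 (-5),
  sm 2 1 0 0 2 0 0 40 0 (-20),
  sm 8 4 0 0 8 0 0 10 0 (-5),
  sm 2 1 0 0 2 0 0 10 0 (-20),
  sm 2 1 0 0 2 0 0 5 (-15) 5]

/-- Gram matrices 431 to 440. -/
def T43 : List M4 := [sm 2 1 0 0 2 0 0 40 0 (-5),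
  sm (-2) (-11) (-1) (-2) 14 0 (-4) 2 0 8,
  sm (-21) 0 0 0 8 0 0 56 (-28) 56,
  sm (-19) 4 0 0 8 0 0 56 (-28) 56,
  sm (-42) 0 0 0 1 0 0 28 (-14) 28,
  sm (-21) 0 0 0 2 0 0 56 (-28) 56,
  sm (-84) 0 0 0 8 0 0 14 (-7) 14,
  sm (-21) 0 0 0 8 0 0 14 (-7) 14,
  sm (-19) 4 0 0 8 0 0 14 (-7) 14,
  sm (-84) 0 0 0 2 0 0 14 (-7) 14]

/-- Gram matrices 441 to 450. -/
def T44 : List M4 := [sm (-7) 0 14 14 24 0 0 28 0 28,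
  sm (-1) 12 14 14 24 0 0 28 0 28,
  sm (-42) 0 0 0 3 0 0 14 0 14,
  sm (-7) 0 14 14 6 0 0 28 0 28,
  sm (-14) 0 7 7 24 0 0 14 0 14,
  sm (-14) 0 7 7 6 0 0 14 0 14,
  sm (-15) (-6) 0 0 13 7 7 14 0 14,
  sm (-21) 0 0 0 24 0 0 7 0 7,
  sm 5 0 0 0 20 0 0 (-60) 0 4,
  sm 20 0 (-10) 0 20 (-10) 0 (-5) 0 4]

/-- Gram matrices 451 to 460. -/
def T45 : List M4 := [sm 5 0 0 0 5 0 0 (-60) 0 4,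
  sm 31 0 (-1) 2 5 0 0 (-9) (-2) 4,
  sm 10 (-5) 0 0 (-10) (-5) 0 10 0 4,
  sm (-1) (-2) (-2) (-6) 11 1 (-2) 11 (-2) 4,
  sm 5 0 0 0 5 0 0 (-15) 0 4,
  sm 6 1 0 2 6 0 2 (-15) 0 4,
  sm 7 3 3 (-3) 7 (-3) 3 2 8 2,
  sm 20 0 0 0 20 0 0 5 0 (-3),
  sm 21 (-1) 1 2 21 (-1) (-2) (-14) 2 4,
  sm 15 0 0 0 60 0 0 8 0 (-40)]

/-- Gram matrices 461 to 470. -/
def T46 : List M4 := [sm 15 0 0 0 15 0 0 4 0 (-20),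
  sm 17 0 4 0 60 0 0 8 0 (-40),
  sm 16 (-1) 2 0 16 (-2) 0 4 0 (-20),
  sm 10 5 0 (-10) 10 0 10 4 0 (-20),
  sm 30 0 0 0 30 0 0 1 0 (-20),
  sm 15 0 0 0 15 0 0 8 0 (-40),
  sm 17 0 4 0 15 0 0 8 0 (-40),
  sm 5 0 0 (-25) 15 0 0 8 0 5,
  sm 17 2 4 0 17 4 0 8 0 (-40),
  sm 15 0 0 0 15 0 0 1 0 (-20)]

/-- Gram matrices 471 to 480. -/
def T47 : List M4 := [sm 10 5 0 (-10) 10 0 10 1 0 (-20),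
  sm 15 0 0 0 60 0 0 (-8) (-4) 8,
  sm 5 0 (-10) 0 60 0 0 (-8) (-4) 8,
  sm 15 0 0 0 15 0 0 2 0 (-40),
  sm 5 0 0 (-25) 15 0 0 2 0 5,
  sm 15 0 0 0 15 0 0 (-8) (-4) 8,
  sm 5 0 (-10) 0 15 0 0 (-8) (-4) 8,
  sm 17 0 (-2) 4 5 (-10) 0 (-8) (-4) 8,
  sm 15 0 0 0 60 0 0 2 0 (-10),
  sm (-5) 0 0 0 8 4 4 17 2 12]

/-- Gram matrices 481 to 490. -/
def T48 : List M4 := [sm 3 (-4) 4 4 12 8 8 12 (-8) 12,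
  sm 13 (-7) 1 (-2) 13 1 (-2) (-3) (-14) 8,
  sm 10 5 0 0 10 5 0 (-2) 4 12,
  sm 3 0 0 1 15 0 0 (-5) 0 7,
  sm 7 0 1 3 10 0 5 3 (-1) (-3),
  sm 5 0 0 0 5 0 0 8 32 8,
  sm 6 (-3) 0 0 (-1) (-10) (-10) 40 0 40,
  sm 15 0 0 0 60 0 0 20 0 (-4),
  sm 29 1 0 (-2) 29 0 2 20 0 (-4),
  sm 19 0 10 (-2) 15 0 0 20 0 (-4)]

/-- Gram matrices 491 to 500. -/
def T49 : List M4 := [sm 19 5 5 (-2) 20 (-10) 0 20 0 (-4),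
  sm 29 1 0 (-2) 29 0 2 5 0 (-4),
  sm 15 (-45) 0 0 15 0 0 4 0 40,
  sm 8 (-22) (-1) 0 8 (-1) 0 2 0 20,
  sm 25 (-30) 0 20 (-60) 0 0 4 0 40,
  sm 13 (-15) 1 10 (-30) 0 0 2 0 20,
  sm 60 0 0 0 (-2) 1 12 2 (-1) (-2),
  sm 31 0 2 0 (-15) 0 0 4 0 40,
  sm 41 0 2 20 (-15) 0 0 4 0 40,
  sm 15 0 0 0 (-7) 1 0 2 0 20]

/-- Gram matrices 501 to 510. -/
def T50 : List M4 := [sm 31 1 2 0 (-14) 2 0 4 0 40,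
  sm 15 0 0 0 (-2) 1 12 2 (-1) (-2),
  sm 31 1 2 (-1) (-4) 2 24 4 (-2) (-4),
  sm 30 0 0 0 (-15) 0 0 1 0 40,
  sm 30 0 0 0 (-5) 0 25 1 0 (-5),
  sm 16 2 (-2) (-4) 14 1 7 14 (-7) (-14),
  sm 17 (-2) 5 (-5) (-8) 0 (-20) 10 0 10,
  sm (-10) (-5) 5 5 22 0 2 10 0 22,
  sm 3 0 0 0 12 0 0 (-4) 0 60,
  sm 5 1 (-2) 0 5 2 0 (-4) 0 60]

/-- Gram matrices 511 to 520. -/
def T51 : List M4 := [sm 3 0 0 0 3 0 0 (-4) 0 60,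
  sm 9 0 3 0 3 0 0 (-7) 4 8,
  sm 2 (-1) (-2) 0 2 (-2) 0 (-4) 0 60,
  sm 9 (-3) (-3) 0 2 (-4) 2 2 2 8,
  sm 3 0 0 0 3 0 0 (-1) 0 60,
  sm 6 (-3) 0 0 18 0 (-3) (-1) 0 6,
  sm 9 6 3 3 12 0 0 (-2) 8 (-2),
  sm 12 0 0 0 12 0 0 3 0 (-5),
  sm 11 1 1 (-2) 11 (-1) 2 14 2 (-4),
  sm 1 3 3 (-1) 12 0 0 12 0 28]

/-- Gram matrices 521 to 530. -/
def T52 : List M4 := [sm 40 20 0 0 40 0 0 (-3) 0 9,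
  sm 8 (-4) (-4) 0 32 2 0 (-19) 3 6,
  sm 40 20 0 0 40 0 0 3 0 (-9),
  sm 120 60 0 0 120 0 0 (-1) 0 3,
  sm 8 4 0 0 8 0 0 15 0 (-180),
  sm 2 1 0 0 2 0 0 60 0 (-180),
  sm 2 1 0 0 2 0 0 15 0 (-180),
  sm 24 12 0 0 24 0 0 15 0 (-20),
  sm 6 3 0 0 6 0 0 60 0 (-20),
  sm 6 3 0 0 6 0 0 15 0 (-20)]

/-- Gram matrices 531 to 540. -/
def T53 : List M4 := [sm 2 1 0 0 2 0 0 180 0 (-60),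
  sm 6 (-3) (-3) 0 6 0 0 22 0 (-60),
  sm 3 0 0 0 12 0 0 (-4) 0 72,
  sm 3 0 0 0 3 0 0 (-2) 0 36,
  sm 5 1 (-2) 0 5 2 0 (-4) 0 72,
  sm 21 0 0 (-6) 12 0 0 (-4) 0 12,
  sm 12 3 0 6 6 0 (-3) (-2) 0 12,
  sm (-1) 6 10 (-3) 12 0 (-6) (-4) 6 15,
  sm 6 0 0 0 6 0 0 (-2) 0 9,
  sm 3 0 0 0 3 0 0 (-4) 0 72]

/-- Gram matrices 541 to 550. -/
def T54 : List M4 := [sm 2 0 0 0 3 0 0 (-6) 0 72,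
  sm 12 0 (-6) 0 3 0 0 (-4) 4 8,
  sm 2 (-1) (-2) 0 2 (-2) 0 (-4) 0 72,
  sm 21 0 0 (-6) 2 0 0 (-6) 0 12,
  sm 12 (-3) (-3) 0 2 (-4) 2 2 2 8,
  sm 6 (-3) 0 0 21 0 (-3) (-4) 0 6,
  sm 5 0 (-2) 1 12 (-6) 0 (-4) 2 5,
  sm 3 0 0 0 12 0 0 (-4) 0 18,
  sm 5 1 (-2) 0 5 2 0 (-4) 0 18,
  sm 3 0 0 0 3 0 0 (-1) 0 72]

/-- Gram matrices 551 to 560. -/
def T55 : List M4 := [sm 21 0 0 (-6) 3 0 0 (-1) 0 12,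
  sm 6 (-3) 0 0 21 0 (-3) (-1) 0 6,
  sm 2 (-1) 1 (-4) 2 1 (-1) 17 1 2,
  sm 3 0 0 0 3 0 0 (-4) 0 18,
  sm 2 0 0 0 3 0 0 (-6) 0 18,
  sm 2 (-1) (-2) 0 2 (-2) 0 (-4) 0 18,
  sm 3 0 0 0 12 0 0 4 16 (-8),
  sm 7 6 2 8 12 0 0 4 16 (-8),
  sm 12 0 0 (-6) 12 0 0 4 0 (-15),
  sm 13 6 1 4 12 (-6) 0 13 4 (-8)]

/-- Gram matrices 561 to 570. -/
def T56 : List M4 := [sm 3 0 0 0 3 0 0 4 16 (-8),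
  sm 4 0 (-2) 8 3 0 0 4 8 (-8),
  sm 12 0 0 (-6) 3 0 0 4 0 (-15),
  sm 10 0 0 4 3 0 0 (-6) 0 16,
  sm 6 0 (-3) 0 6 (-3) 0 12 0 (-8),
  sm 12 0 0 (-6) 4 (-2) 0 4 6 (-3),
  sm 1 (-2) 0 (-5) 1 0 (-2) 36 0 1,
  sm 10 2 0 2 7 0 1 (-6) 0 7,
  sm 6 (-3) 3 0 10 4 4 10 4 (-8),
  sm 3 0 0 0 12 0 0 4 8 (-2)]

/-- Gram matrices 571 to 580. -/
def T57 : List M4 := [sm 7 (-1) 2 0 7 (-2) 0 4 0 (-18),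
  sm 3 0 0 0 3 0 0 9 0 (-8),
  sm 1 0 0 (-5) 3 0 0 9 0 1,
  sm 1 (-2) 0 (-5) 1 0 (-2) 9 0 1,
  sm 3 0 0 0 3 0 0 7 (-3) (-9),
  sm 1 0 0 0 (-12) 0 0 36 12 24,
  sm 7 (-2) 2 (-1) 4 8 2 4 (-2) 19,
  sm (-2) 3 (-2) (-3) 6 0 0 4 0 18,
  sm 1 0 0 0 (-3) 0 0 9 (-3) 21,
  sm (-5) 0 (-3) (-2) 3 0 0 6 0 4]

/-- Gram matrices 581 to 590. -/
def T58 : List M4 := [sm 3 0 0 0 3 0 0 (-8) 32 (-8),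
  sm 5 0 0 0 12 (-6) 0 (-3) (-6) 12,
  sm 7 2 1 0 4 2 0 (-17) 0 15,
  sm 15 0 0 0 8 (-4) 0 (-1) 3 15,
  sm (-5) 23 0 (-2) (-5) 0 2 12 0 4,
  sm (-14) (-1) 0 (-2) 10 0 2 12 0 4,
  sm (-14) (-1) 0 (-2) 10 0 2 3 0 4,
  sm 2 3 0 (-1) (-6) 0 0 12 0 26,
  sm 17 6 2 5 12 0 (-6) (-16) 2 17,
  sm 6 (-3) 0 0 14 2 (-3) (-16) 0 6]

/-- Gram matrices 591 to 600. -/
def T59 : List M4 := [sm (-1) (-1) 4 (-2) 14 (-2) (-2) (-1) (-1) 11,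
  sm 20 10 0 0 20 0 0 3 0 (-6),
  sm 40 20 0 0 40 0 0 3 (-9) 3,
  sm 40 20 0 0 40 0 0 24 0 (-3),
  sm 10 5 0 0 10 0 0 24 0 (-12),
  sm 40 20 0 0 40 0 0 6 0 (-3),
  sm 10 5 0 0 10 0 0 6 0 (-12),
  sm 10 5 0 0 10 0 0 3 (-9) 3,
  sm 10 5 0 0 10 0 0 24 0 (-3),
  sm 4 2 0 0 4 0 0 15 0 (-30)]

/-- Gram matrices 601 to 610. -/
def T60 : List M4 := [sm 8 4 0 0 8 0 0 15 (-45) 15,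
  sm 8 4 0 0 8 0 0 120 0 (-15),
  sm 2 1 0 0 2 0 0 120 0 (-60),
  sm 8 4 0 0 8 0 0 30 0 (-15),
  sm 2 1 0 0 2 0 0 30 0 (-60),
  sm 2 1 0 0 2 0 0 15 (-45) 15,
  sm 2 1 0 0 2 0 0 120 0 (-15),
  sm 15 0 0 0 60 0 0 (-20) 0 12,
  sm 25 5 (-10) 0 25 10 0 (-20) 0 12,
  sm 15 0 0 0 15 0 0 (-20) 0 12]

/-- Gram matrices 611 to 620. -/
def T61 : List M4 := [sm 13 0 (-10) 6 15 0 0 (-20) 0 12,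
  sm 10 (-5) (-10) 0 10 (-10) 0 (-20) 0 12,
  sm 13 (-5) (-10) 6 10 (-10) 0 (-20) 0 12,
  sm 15 0 0 0 15 0 0 (-5) 0 12,
  sm 18 3 0 6 18 0 6 (-5) 0 12,
  sm 29 1 (-2) 1 29 2 (-1) (-4) 2 14,
  sm 60 0 0 0 60 0 0 (-1) 4 (-1),
  sm 55 5 5 0 55 (-5) 0 (-2) 6 12,
  sm (-1) 6 5 5 24 0 0 20 (-10) 20,
  sm 5 0 0 0 36 24 24 36 (-24) 36]

/-- Gram matrices 621 to 630. -/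
def T62 : List M4 := [sm 35 (-5) (-5) 5 11 (-1) 13 11 (-23) (-1),
  sm 14 15 (-10) (-12) 30 0 0 20 0 36,
  sm 5 0 0 0 9 0 3 (-15) 0 21,
  sm 14 1 0 3 14 0 (-3) (-15) 0 6,
  sm 15 0 0 0 15 0 0 (-40) 0 24,
  sm 1 (-6) (-5) (-5) 96 0 0 10 (-20) 10,
  sm 3 (-6) (-6) (-6) 7 (-13) (-3) 7 (-3) 87,
  sm 15 0 0 0 20 (-10) 0 47 6 (-12),
  sm 47 (-4) 0 (-2) 8 0 4 60 0 (-28),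
  sm 2 (-3) 0 (-8) 42 0 (-3) 60 0 2]

/-- Gram matrices 631 to 640. -/
def T63 : List M4 := [sm 2 (-3) 0 (-8) 42 0 (-3) 15 0 2,
  sm 10 5 0 0 22 0 (-6) 60 0 (-12),
  sm 25 5 0 (-10) 25 0 10 36 0 (-20),
  sm 10 (-5) 0 (-10) 10 0 (-10) 36 0 (-20),
  sm 15 0 0 0 15 0 0 (-5) 0 36,
  sm 1 0 0 0 (-8) 12 (-8) 8 0 16,
  sm 21 (-1) 0 (-2) 5 (-4) 2 (-8) 0 4,
  sm 4 0 (-2) 0 4 (-2) 0 (-1) 0 80,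
  sm 4 0 (-2) 4 4 (-2) 4 19 2 (-4),
  sm 3 0 0 0 48 0 0 8 (-16) (-8)]

/-- Gram matrices 641 to 650. -/
def T64 : List M4 := [sm 15 (-6) 0 0 12 0 0 8 (-16) (-8),
  sm 8 4 0 0 17 6 0 12 0 (-40),
  sm 5 0 (-1) (-8) 48 0 0 5 (-8) (-8),
  sm 11 0 (-1) 0 24 0 0 11 0 (-16),
  sm 17 (-5) (-7) 0 17 (-5) 0 17 0 (-16),
  sm 8 0 (-4) (-16) 24 0 0 7 (-2) 4,
  sm 13 12 10 (-8) 24 0 0 20 0 (-16),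
  sm 11 5 (-1) 0 11 5 0 11 0 (-16),
  sm 7 5 5 (-8) 11 (-1) 0 11 0 (-16),
  sm 12 (-6) 0 0 7 10 (-8) 20 0 (-16)]

/-- Gram matrices 651 to 660. -/
def T65 : List M4 := [sm 12 0 0 0 12 0 0 5 0 (-16),
  sm 8 4 0 (-8) 8 0 8 5 0 (-16),
  sm 8 4 (-4) (-4) 8 4 4 1 (-9) 1,
  sm 6 0 0 0 6 0 0 5 0 (-16),
  sm 2 0 0 (-10) 6 0 0 5 0 2,
  sm 2 (-4) 0 (-10) 2 0 (-4) 5 0 2,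
  sm 2 0 (-4) (-4) 6 0 0 1 (-9) 1,
  sm 3 0 0 0 4 (-4) (-20) 8 (-4) 4,
  sm 3 0 0 0 48 0 0 8 (-4) (-8),
  sm 15 (-6) 0 0 12 0 0 8 (-4) (-8)]

/-- Gram matrices 661 to 670. -/
def T66 : List M4 := [sm (-8) (-4) (-4) 0 13 (-2) 6 8 0 12,
  sm (-8) (-4) (-8) (-8) 13 (-1) 2 5 (-2) 4,
  sm 1 (-2) (-2) (-5) 20 (-4) (-2) 20 (-2) 1,
  sm 3 0 0 0 10 0 (-4) 10 0 (-8),
  sm 1 (-2) 0 (-5) 10 0 (-2) 10 0 1,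
  sm 3 0 0 0 10 (-2) (-4) 8 (-4) (-8),
  sm 1 (-2) (-2) (-5) 10 (-2) (-2) 8 (-2) 1,
  sm 17 0 3 (-6) 24 0 0 17 6 (-12),
  sm 40 0 0 0 3 0 0 40 0 (-24),
  sm 14 0 6 (-12) 3 0 0 14 12 (-24)]

/-- Gram matrices 671 to 680. -/
def T67 : List M4 := [sm 4 0 (-6) (-16) 3 0 0 4 (-6) 4,
  sm 4 0 (-6) (-6) 12 0 (-6) 4 (-6) (-3),
  sm 6 0 0 1 20 0 0 2 1 (-6),
  sm 1 13 0 0 1 0 0 16 (-8) 16,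
  sm (-24) 0 0 0 7 0 0 16 (-8) 16,
  sm (-6) 0 0 0 7 0 0 16 (-8) 16,
  sm 1 13 0 0 1 0 0 4 (-2) 4,
  sm (-24) 0 0 0 7 0 0 4 (-2) 4,
  sm 8 4 0 0 8 0 0 5 0 (-240),
  sm 8 4 0 0 8 0 0 (-55) (-10) 20]

/-- Gram matrices 681 to 690. -/
def T68 : List M4 := [sm 1 0 0 0 16 0 0 (-48) 0 96,
  sm 1 0 0 0 (-8) 0 0 24 0 96,
  sm 5 (-4) (-2) 0 (-8) 0 0 4 0 96,
  sm 1 0 0 0 16 0 (-8) (-48) 24 16,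
  sm 1 0 0 0 16 0 0 (-48) 0 24,
  sm 5 (-2) 0 0 4 0 0 (-48) 0 24,
  sm 1 0 0 0 4 0 0 (-12) 0 96,
  sm 1 0 0 0 (-20) 0 (-8) 12 0 16,
  sm 1 0 0 0 4 0 0 (-48) 0 24,
  sm 1 0 0 0 (-8) 0 0 24 0 24]

/-- Gram matrices 691 to 700. -/
def T69 : List M4 := [sm 5 (-4) (-2) 0 (-8) 0 0 4 0 24,
  sm (-5) 0 (-2) 0 4 0 0 4 0 48,
  sm 1 0 0 0 1 0 0 (-24) 0 48,
  sm (-5) 0 (-2) 0 1 0 0 4 0 48,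
  sm 13 0 0 (-2) 1 0 0 (-24) 0 4,
  sm 4 0 0 (-2) 1 0 0 (-24) 12 7,
  sm 2 (-1) 0 0 (-5) (-1) 0 2 0 48,
  sm 4 2 0 (-2) (-10) (-2) (-1) 4 0 7,
  sm 1 0 0 0 4 0 0 (-6) 0 48,
  sm 1 0 0 0 4 0 0 6 18 6]

/-- Gram matrices 701 to 710. -/
def T70 : List M4 := [sm 1 0 0 0 1 0 0 (-6) 0 48,
  sm 13 0 0 (-2) 1 0 0 (-6) 0 4,
  sm 1 0 0 0 1 0 0 6 18 6,
  sm (-11) 0 0 (-2) 1 0 0 6 0 4,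
  sm 4 0 (-2) 0 4 (-2) 0 (-1) 0 96,
  sm (-1) (-1) (-6) 0 7 2 0 (-4) 0 24,
  sm 11 (-3) 0 (-4) 11 0 4 (-48) 0 16,
  sm 7 0 0 3 (-8) 0 0 24 0 15,
  sm (-5) (-12) 0 (-4) (-8) (-8) 0 16 0 16,
  sm 11 (-6) (-3) (-1) (-4) (-2) 2 11 1 19]

/-- Gram matrices 711 to 720. -/
def T71 : List M4 := [sm 7 0 0 (-2) 16 0 0 (-48) 0 4,
  sm 11 (-1) 0 2 11 0 2 (-48) 0 4,
  sm 7 0 0 3 4 0 0 (-12) 0 15,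
  sm 12 0 0 0 8 2 0 (-5) 2 8,
  sm (-4) 2 2 0 11 (-1) 0 11 0 8,
  sm 5 1 (-7) 0 5 1 0 (-11) 4 8,
  sm 5 0 0 1 2 0 0 (-24) 0 5,
  sm 8 0 (-4) (-4) 2 0 0 (-1) (-7) (-1),
  sm 8 0 (-4) 0 5 (-2) 1 (-2) 2 5,
  sm 2 0 0 0 8 0 0 (-24) 0 3]

/-- Gram matrices 721 to 730. -/
def T72 : List M4 := [sm 8 0 (-4) 0 8 (-4) 0 (-2) 0 3,
  sm 1 0 0 0 1 0 0 (-12) 0 96,
  sm (-2) 0 0 0 1 0 0 6 0 96,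
  sm 2 (-1) 0 0 (-2) (-1) 0 2 0 96,
  sm 12 (-6) 0 0 (-2) (-1) 2 2 0 8,
  sm 5 0 0 (-1) 2 0 6 6 0 (-1),
  sm 2 (-1) 0 0 7 (-1) (-2) (-10) 4 8,
  sm 1 0 0 0 10 0 2 (-48) 0 10,
  sm (-11) 0 (-2) 0 10 0 2 4 0 10,
  sm 1 0 0 0 16 (-8) (-8) (-2) (-14) (-2)]

/-- Gram matrices 731 to 740. -/
def T73 : List M4 := [sm (-11) (-1) (-2) 1 11 2 1 4 (-2) 11,
  sm 1 0 0 0 16 0 0 (-48) 0 6,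
  sm 5 (-2) 0 0 4 0 0 (-48) 0 6,
  sm 1 0 0 0 1 0 0 (-3) 0 96,
  sm 2 (-1) 0 0 (-5) 0 (-2) 3 0 8,
  sm (-7) (-4) 7 (-4) 8 0 0 1 0 8,
  sm (-4) 8 (-2) (-2) 16 0 0 5 (-1) 5,
  sm 3 0 0 0 8 0 4 (-24) (-4) 8,
  sm (-1) 4 (-7) 0 8 4 4 (-1) 0 8,
  sm 80 40 0 0 80 0 0 1 0 (-8)]

/-- Gram matrices 741 to 750. -/
def T74 : List M4 := [sm 80 40 0 0 80 0 0 (-1) (-3) (-1),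
  sm 80 40 0 0 80 0 0 1 0 (-2),
  sm 20 10 0 0 20 0 0 1 0 (-8),
  sm 20 10 0 0 20 0 0 (-1) (-3) (-1),
  sm 5 0 0 0 32 16 0 48 0 (-16),
  sm 17 8 (-10) 0 32 0 0 20 0 (-16),
  sm 5 0 0 0 4 4 (-12) 36 4 4,
  sm 5 0 0 0 8 4 0 8 (-8) (-16),
  sm 1 0 (-4) (-9) 8 4 0 8 (-4) 1,
  sm 5 0 0 0 2 0 (-1) 6 1 (-6)]

/-- Gram matrices 751 to 760. -/
def T75 : List M4 := [sm 1 0 (-2) (-9) 2 1 0 2 (-2) 1,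
  sm 19 4 4 4 (-8) (-8) (-8) 8 0 8,
  sm (-24) 0 0 0 21 0 0 8 0 8,
  sm (-2) 0 4 4 21 0 0 8 0 8,
  sm (-4) 0 2 2 21 0 0 4 0 4,
  sm (-4) 6 2 2 15 0 0 4 0 4,
  sm 8 (-4) 0 (-4) (-11) (-4) (-41) 8 (-4) (-11),
  sm 8 0 0 0 15 0 0 8 0 (-120),
  sm (-26) 0 4 (-4) 15 0 0 8 0 8,
  sm 4 0 (-2) 0 15 0 0 (-28) (-2) 4]

/-- Gram matrices 761 to 770. -/
def T76 : List M4 := [sm 4 0 (-2) 0 (-15) 0 0 32 (-2) 4,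
  sm 40 20 0 0 40 0 0 3 0 (-16),
  sm 40 20 0 0 40 0 0 (-1) (-7) (-1),
  sm 16 8 0 0 16 0 0 5 0 (-40),
  sm 16 8 0 0 16 0 0 (-5) (-15) (-5),
  sm 16 8 0 0 16 0 0 5 0 (-10),
  sm 4 2 0 0 4 0 0 5 0 (-40),
  sm 4 2 0 0 4 0 0 (-5) (-15) (-5),
  sm (-41) 2 0 0 4 0 0 112 (-56) 112,
  sm (-168) 0 0 0 1 0 0 112 (-56) 112]

/-- Gram matrices 771 to 780. -/
def T77 : List M4 := [sm (-42) 0 0 0 1 0 0 112 (-56) 112,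
  sm (-41) 2 0 0 4 0 0 28 (-14) 28,
  sm (-168) 0 0 0 1 0 0 28 (-14) 28,
  sm (-11) 6 28 28 12 0 0 56 0 56,
  sm (-168) 0 0 0 3 0 0 56 0 56,
  sm (-14) 0 28 28 3 0 0 56 0 56,
  sm (-28) 0 14 14 3 0 0 28 0 28,
  sm (-28) 14 0 0 17 (-3) (-6) 17 6 12,
  sm 5 0 0 0 24 4 8 (-56) 8 16,
  sm 9 4 (-5) (-1) 24 0 4 (-55) 5 9]

/-- Gram matrices 781 to 790. -/
def T78 : List M4 := [sm 20 0 (-10) 0 20 (-10) 0 (-5) 0 16,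
  sm 20 0 (-10) 0 20 (-10) 0 (-1) 8 16,
  sm 15 0 0 0 240 0 0 8 0 (-40),
  sm 75 (-30) 0 0 60 0 0 8 0 (-40),
  sm 17 0 4 0 240 0 0 8 0 (-40),
  sm 77 (-30) 4 0 60 0 0 8 0 (-40),
  sm 31 0 2 0 120 0 0 4 0 (-80),
  sm 61 (-1) 2 0 61 (-2) 0 4 0 (-80),
  sm 11 0 (-2) (-49) 120 0 0 4 (-2) 11,
  sm 65 (-5) 10 0 65 (-10) 0 20 0 (-16)]

/-- Gram matrices 791 to 800. -/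
def T79 : List M4 := [sm 31 1 2 0 31 2 0 4 0 (-80),
  sm 11 (-1) (-2) (-49) 31 2 (-1) 4 (-2) 11,
  sm 11 (-19) 2 (-49) 11 2 (-19) 4 2 11,
  sm 60 0 0 0 60 0 0 1 0 (-80),
  sm 40 20 0 (-40) 40 0 40 1 0 (-80),
  sm 61 (-1) (-1) 2 61 1 (-2) (-19) (-2) 4,
  sm 30 0 0 0 30 0 0 1 0 (-80),
  sm 10 0 0 (-50) 30 0 0 1 0 10,
  sm 10 (-20) 0 (-50) 10 0 (-20) 1 0 10,
  sm 31 0 (-1) 2 30 0 0 (-19) (-2) 4]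

/-- Gram matrices 801 to 810. -/
def T80 : List M4 := [sm 15 0 0 0 20 0 0 (-28) (-8) 32,
  sm 15 0 0 0 240 0 0 (-8) (-4) 8,
  sm 75 (-30) 0 0 60 0 0 (-8) (-4) 8,
  sm 5 (-10) (-25) 0 52 (-10) (-4) 5 0 8,
  sm 17 (-2) 9 4 52 (-14) (-4) (-7) (-12) 8,
  sm 5 0 (-10) 0 240 0 0 (-8) (-4) 8,
  sm 15 0 0 0 50 0 (-20) 2 0 (-40),
  sm 5 (-10) 0 (-25) 50 0 (-10) 2 0 5,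
  sm 15 0 0 0 22 0 (-4) (-30) 0 8,
  sm 17 0 (-2) 4 50 (-10) 0 (-8) (-4) 8]

/-- Gram matrices 811 to 820. -/
def T81 : List M4 := [sm 3 (-11) 8 8 27 4 4 8 (-12) 8,
  sm 12 2 16 16 7 (-4) (-4) 8 (-12) 8,
  sm 13 (-7) (-3) (-4) 13 (-3) (-4) (-27) 4 32,
  sm 17 (-3) (-7) (-2) 17 (-7) (-2) (-23) 2 12,
  sm 3 0 0 0 8 4 (-8) 56 8 (-16),
  sm (-1) (-4) 4 (-6) 8 4 0 56 0 12,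
  sm 5 1 (-2) 0 5 2 0 (-4) 0 240,
  sm 8 0 (-4) 0 57 6 (-6) (-4) 0 12,
  sm 8 4 0 0 8 0 0 15 0 (-720),
  sm 8 4 0 0 8 0 0 (-165) (-30) 60]

/-- Gram matrices 821 to 830. -/
def T82 : List M4 := [sm 24 12 0 0 24 0 0 15 0 (-80),
  sm 24 12 0 0 24 0 0 (-5) (-35) (-5),
  sm 3 0 0 0 8 0 0 (-24) 0 288,
  sm (-1) (-4) (-7) 0 8 (-4) 0 (-1) 0 288,
  sm 3 0 0 0 12 0 0 (-4) 0 288,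
  sm 3 0 0 0 8 4 (-8) 68 8 (-16),
  sm 3 0 0 0 8 0 0 (-24) 0 72,
  sm (-1) (-4) (-7) 0 8 (-4) 0 (-1) 0 72,
  sm 3 0 0 0 12 0 0 (-8) 0 144,
  sm 1 0 (-5) 0 12 0 0 1 0 144]

/-- Gram matrices 831 to 840. -/
def T83 : List M4 := [sm 3 0 0 0 3 0 0 (-8) 0 144,
  sm 1 0 (-5) 0 3 0 0 1 0 144,
  sm 39 0 0 (-6) 3 0 0 (-8) 0 12,
  sm 37 0 0 (-2) 3 0 0 (-24) 0 4,
  sm 1 (-2) (-5) 0 1 (-2) 0 1 0 144,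
  sm 37 0 0 (-2) (-3) (-9) 0 (-3) 0 4,
  sm 3 0 0 0 12 0 0 (-2) 0 144,
  sm 3 0 0 0 12 0 0 34 4 (-8),
  sm 3 0 0 0 3 0 0 (-2) 0 144,
  sm 39 0 0 (-6) 3 0 0 (-2) 0 12]

/-- Gram matrices 841 to 850. -/
def T84 : List M4 := [sm 3 0 0 0 3 0 0 34 4 (-8),
  sm 39 0 (-3) 0 3 0 0 1 4 (-8),
  sm 5 1 (-2) 0 5 2 0 (-4) 0 288,
  sm 5 1 (-9) 0 5 3 0 (-3) 0 72,
  sm 17 (-4) (-8) (-6) 8 (-8) 0 (-16) 0 12,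
  sm 15 0 0 3 24 0 0 (-8) 0 15,
  sm 21 (-9) 0 (-3) 21 0 (-9) (-8) 0 21,
  sm 3 0 (-12) 3 16 (-8) (-8) (-8) 4 19,
  sm 24 0 0 0 24 0 0 (-8) 0 9,
  sm 13 0 4 1 6 0 0 (-8) 4 13]

/-- Gram matrices 851 to 860. -/
def T85 : List M4 := [sm 10 (-6) (-4) 6 15 0 3 (-8) 0 15,
  sm 6 0 0 0 24 0 0 (-8) 0 9,
  sm 10 2 (-4) 0 10 4 0 (-8) 0 9,
  sm 2 0 0 0 3 0 0 (-6) 0 288,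
  sm 2 0 0 0 3 0 0 (-24) 0 72,
  sm 2 0 0 0 (-3) (-9) 0 (-3) 0 72,
  sm 48 0 (-24) 0 3 0 0 (-16) 16 32,
  sm 2 (-1) (-2) 0 2 (-2) 0 (-4) 0 288,
  sm 6 (-3) 0 0 2 (-2) 5 68 4 2,
  sm 15 0 (-12) (-6) 2 0 0 (-24) 0 12]

/-- Gram matrices 861 to 870. -/
def T86 : List M4 := [sm 3 0 0 0 8 4 (-8) 14 8 (-16),
  sm (-1) (-4) 4 (-6) 8 4 0 14 0 12,
  sm 3 0 0 0 3 0 0 (-1) 0 288,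
  sm 3 0 0 0 48 0 0 16 32 (-8),
  sm 15 (-6) 0 0 12 0 0 16 32 (-8),
  sm 7 0 2 2 24 0 (-12) 4 16 4,
  sm (-15) 0 0 (-27) 48 0 0 16 0 9,
  sm (-15) 0 0 (-27) 16 8 0 16 0 9,
  sm 12 (-6) 0 (-6) (-3) 0 (-27) 16 0 (-3),
  sm (-11) (-2) (-8) (-21) 28 (-8) (-6) 16 0 (-3)]

/-- Gram matrices 871 to 880. -/
def T87 : List M4 := [sm 12 (-6) 0 (-6) 1 (-8) (-23) 16 (-8) 1,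
  sm 16 8 16 8 25 (-1) 1 1 (-1) 25,
  sm (-15) (-6) 0 (-6) 24 0 0 4 0 24,
  sm (-15) 0 (-6) 0 12 0 0 16 (-8) 16,
  sm 3 0 0 0 10 6 (-4) (-6) 36 (-8),
  sm 39 0 (-6) 0 10 0 (-4) 12 0 (-8),
  sm 3 0 0 0 40 (-4) (-8) (-2) 20 (-8),
  sm 39 (-3) (-6) 0 13 6 (-4) 12 0 (-8),
  sm 3 0 0 0 48 0 0 18 (-6) (-14),
  sm 15 (-6) 0 0 12 0 0 18 (-6) (-14)]

/-- Gram matrices 881 to 890. -/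
def T88 : List M4 := [sm 1 0 0 0 24 0 12 (-72) (-12) 24,
  sm 37 (-1) (-2) 12 (-11) 2 0 4 0 24,
  sm 7 (-2) 2 (-2) 4 8 4 4 (-4) 76,
  sm 28 (-4) 4 (-2) 4 8 2 4 (-2) 19,
  sm (-5) 23 0 (-2) (-5) 0 2 48 0 4,
  sm 7 35 17 (-2) 7 (-11) 2 7 2 4,
  sm (-3) 6 21 (-6) 12 (-6) 0 5 6 12,
  sm 17 6 4 5 12 0 (-6) (-64) 4 17,
  sm 80 40 0 0 80 0 0 3 0 (-24),
  sm 80 40 0 0 80 0 0 (-3) (-9) (-3)]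

/-- Gram matrices 891 to 900. -/
def T89 : List M4 := [sm 80 40 0 0 80 0 0 3 0 (-6),
  sm 20 10 0 0 20 0 0 3 0 (-24),
  sm 20 10 0 0 20 0 0 (-3) (-9) (-3),
  sm 16 8 0 0 16 0 0 15 0 (-120),
  sm 16 8 0 0 16 0 0 (-15) (-45) (-15),
  sm 16 8 0 0 16 0 0 15 0 (-30),
  sm 4 2 0 0 4 0 0 15 0 (-120),
  sm 4 2 0 0 4 0 0 (-15) (-45) (-15),
  sm 15 0 0 0 40 20 0 (-8) 24 48,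
  sm 27 0 12 (-3) 40 20 0 (-8) 12 27]

/-- Gram matrices 901 to 910. -/
def T90 : List M4 := [sm 25 5 (-10) 0 25 10 0 (-20) 0 48,
  sm 37 17 (-10) (-3) 37 10 (-3) (-20) 30 (-3),
  sm 5 0 0 0 24 (-36) 36 24 36 24,
  sm 65 0 0 (-10) (-24) (-12) 0 24 0 20,
  sm 35 (-5) (-10) 0 11 10 36 20 0 (-24),
  sm 36 0 12 18 20 0 (-10) 24 (-24) (-1),
  sm 47 (-4) 0 (-2) 8 0 4 240 0 (-28),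
  sm 107 (-4) 13 (-2) 8 4 4 107 2 (-28),
  sm 25 5 0 (-10) 25 0 10 144 0 (-20),
  sm 21 0 0 (-9) 40 20 0 40 0 (-99)]

/-- Gram matrices 911 to 919. -/
def T91 : List M4 := [sm 1 0 0 0 (-32) 0 0 96 0 96,
  sm 1 0 0 0 (-32) 0 0 96 0 24,
  sm 1 0 0 0 40 16 8 (-32) (-16) 40,
  sm 32 0 0 0 (-16) 4 8 11 (-2) 44,
  sm 11 (-1) 2 4 11 2 4 (-44) 8 16,
  sm 4 2 4 12 11 (-2) (-2) 44 (-4) 4,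
  sm 19 (-1) 8 (-4) 19 (-8) 4 (-32) 16 40,
  sm 33 0 0 (-15) 96 0 0 (-32) 0 33,
  sm 25 9 (-16) 9 33 0 (-15) (-32) 0 33]

/-- The table: 919 Gram matrices. -/
def reflList : List M4 :=
  T0 ++ (T1 ++ (T2 ++ (T3 ++ (T4 ++ (T5 ++ (T6 ++ (T7 ++ (T8 ++ (T9 ++ (T10 ++ (T11 ++ (T12 ++ (T13 ++ (T14 ++ (T15 ++ (T16 ++ (T17 ++ (T18 ++ (T19 ++ (T20 ++ (T21 ++ (T22 ++ (T23 ++ (T24 ++ (T25 ++ (T26 ++ (T27 ++ (T28 ++ (T29 ++ (T30 ++ (T31 ++ (T32 ++ (T33 ++ (T34 ++ (T35 ++ (T36 ++ (T37 ++ (T38 ++ (T39 ++ (T40 ++ (T41 ++ (T42 ++ (T43 ++ (T44 ++ (T45 ++ (T46 ++ (T47 ++ (T48 ++ (T49 ++ (T50 ++ (T51 ++ (T52 ++ (T53 ++ (T54 ++ (T55 ++ (T56 ++ (T57 ++ (T58 ++ (T59 ++ (T60 ++ (T61 ++ (T62 ++ (T63 ++ (T64 ++ (T65 ++ (T66 ++ (T67 ++ (T68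 ++ (T69 ++ (T70 ++ (T71 ++ (T72 ++ (T73 ++ (T74 ++ (T75 ++ (T76 ++ (T77 ++ (T78 ++ (T79 ++ (T80 ++ (T81 ++ (T82 ++ (T83 ++ (T84 ++ (T85 ++ (T86 ++ (T87 ++ (T88 ++ (T89 ++ (T90 ++ (T91)))))))))))))))))))))))))))))))))))))))))))))))))))))))))))))))))))))))))))))))))))))))))))

end Pool.Agent.Refl
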